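import Pool.Agent.Lib.MP_f80667_ag.Dr.Loc2
import Pool.Agent.Lib.MP_f80667_ag.Hm.NI

/-! Local norms at the places which are not dyadic. -/

open IsDedekindDomain NumberField

namespace Dr

open Hm

variable {K : Type} [Field K] [NumberField K] {v : HeightOneSpectrum (𝓞 K)} {b c : Kˣ}

/-- Units at a place which is not dyadic. Proof: `Hm.ni3`/`Hm.zero3_unit`, or: residues, three values of
`x² - b y²` in a finite field, `Hm.mem_LSq_of_isSquare`. -/
theorem unit_mem_LNm (h2 : v.valuation K 2 = 1) (hb : v.valuation K (b : K) = 1)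
    (hc : v.valuation K (c : K) = 1) : c ∈ LNm v b := by
  obtain ⟨x, hx, h0⟩ := zero3_unit h2 ![1, -(b : K), -(c : K)] (by
    intro i
    fin_cases i
    · exact map_one _
    · exact (Valuation.map_neg _ _).trans hb
    · exact (Valuation.map_neg _ _).trans hc)
  rw [Fin.sum_univ_three] at h0
  simp only [Matrix.cons_val, map_neg, map_one] at h0
  by_cases hx2 : x 2 = 0
  · have hx1 : x 1 ≠ 0 := by
      intro hx1
      apply hx
      rw [hx2, hx1] at h0
      have h1 : x 0 = 0 := by
        have h3 : x 0 ^ 2 = 0 := by linear_combination h0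
        exact eq_zero_of_pow_eq_zero h3
      funext i
      fin_cases i
      · exact h1
      · exact hx1
      · exact hx2
    rw [hx2] at h0
    refine LNm_eq_top (mem_LSq_of_sq (z := x 0 / x 1) ?_) c
    field_simp
    linear_combination -h0
  · rw [mem_LNm_iff]
    refine ⟨x 0 / x 2, x 1 / x 2, ?_⟩
    field_simp
    linear_combination -h0

/-- an element with given valuation -/
theorem exists_val (v : HeightOneSpectrum (𝓞 K)) (m : ℤ) :
    ∃ x : Kˣ, v.valuation K (x : K) = WithZero.exp m := by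
  obtain ⟨π, hπ⟩ := v.valuation_exists_uniformizer K
  have h0 : π ≠ 0 := by
    rintro rfl
    rw [map_zero] at hπ
    exact WithZero.exp_ne_zero hπ.symm
  refine ⟨(Units.mk0 π h0) ^ (-m), ?_⟩
  rw [Units.val_zpow_eq_zpow_val, Units.val_mk0, map_zpow₀, hπ, ← WithZero.exp_zsmul]
  congr 1
  rw [smul_eq_mul]
  ring

/-- Elements of even valuation (square times a unit). -/
theorem even_mem_LNm (h2 : v.valuation K 2 = 1) (hb : v.valuation K (b : K) = 1) {m : ℤ}
    (hc : v.valuation K (c : K) = WithZero.exp (2 * m)) : c ∈ LNm v b := by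
  obtain ⟨x, hx⟩ := exists_val (K := K) v m
  have h1 : c / x ^ 2 ∈ LNm v b := by
    refine unit_mem_LNm h2 hb ?_
    rw [Units.val_div_eq_div_val, map_div₀, hc, Units.val_pow_eq_pow_val, map_pow, hx,
      ← WithZero.exp_nsmul, ← WithZero.exp_sub]
    have e : 2 * m - 2 • m = 0 := by
      rw [nsmul_eq_mul]
      push_cast
      ring
    rw [e, WithZero.exp_zero]
  have h3 : c = c / x ^ 2 * x ^ 2 := by rw [div_mul_cancel]
  rw [h3]
  exact mul_mem h1 (Nrm_le_LNm v b (sq_mem_Nrm b x))

/-- the values of the norm form of an unramified extension have even valuation -/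
theorem val_norm_even (h2 : v.valuation K 2 = 1) (hb : v.valuation K (b : K) = 1)
    (hb' : b ∉ LSq v) {x y : K} (h : x ^ 2 - b * y ^ 2 ≠ 0) :
    ∃ j : ℤ, v.valuation K (x ^ 2 - b * y ^ 2) = WithZero.exp (2 * j) := by
  have hsq : ∀ z : Kˣ, ∀ n : ℤ, v.valuation K (z : K) = WithZero.exp n →
      v.valuation K ((z : K) ^ 2) = WithZero.exp (2 * n) := by
    intro z n hz
    rw [map_pow, hz, ← WithZero.exp_nsmul, nsmul_eq_mul]
    congr 1
  by_cases hy : y = 0
  · rw [hy, zero_pow two_ne_zero, mul_zero, sub_zero] at h ⊢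
    have hx : x ≠ 0 := by
      rintro rfl
      exact h (zero_pow two_ne_zero)
    obtain ⟨n, hn⟩ := exists_exp v (Units.mk0 x hx)
    exact ⟨n, hsq (Units.mk0 x hx) n hn⟩
  obtain ⟨n, hn⟩ := exists_exp v (Units.mk0 y hy)
  have hy2 : v.valuation K ((b : K) * y ^ 2) = WithZero.exp (2 * n) := by
    rw [map_mul, hb, one_mul]
    exact hsq (Units.mk0 y hy) n hn
  by_cases hx : x = 0
  · refine ⟨n, ?_⟩
    rw [hx, zero_pow two_ne_zero, zero_sub, Valuation.map_neg]
    exact hy2
  obtain ⟨m, hm⟩ := exists_exp v (Units.mk0 x hx)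
  have hx2 : v.valuation K (x ^ 2) = WithZero.exp (2 * m) := hsq (Units.mk0 x hx) m hm
  rcases lt_trichotomy m n with hmn | hmn | hmn
  · refine ⟨n, ?_⟩
    rw [Valuation.map_sub_eq_of_lt_right, hy2]
    rw [hx2, hy2, WithZero.exp_lt_exp]
    omega
  · subst hmn
    by_cases hlt : v.valuation K (x ^ 2 - b * y ^ 2) < WithZero.exp (2 * m)
    · exfalso
      apply hb'
      refine ⟨Units.mk0 y hy / Units.mk0 x hx, ?_⟩
      have e : (b : K) * ((Units.mk0 y hy / Units.mk0 x hx : Kˣ) : K) ^ 2 - 1 =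
          -((x ^ 2 - b * y ^ 2) / x ^ 2) := by
        rw [Units.val_div_eq_div_val, Units.val_mk0, Units.val_mk0]
        field_simp
        ring
      rw [e, Valuation.map_neg, map_div₀, hx2, val4_eq_one h2,
        div_lt_one₀ (WithZero.exp_pos)]
      exact hlt
    · refine ⟨m, le_antisymm ?_ (not_lt.1 hlt)⟩
      refine (Valuation.map_sub _ _ _).trans (max_le hx2.le hy2.le)
  · refine ⟨m, ?_⟩
    rw [Valuation.map_sub_eq_of_lt_left, hx2]
    rw [hx2, hy2, WithZero.exp_lt_exp]
    omega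

/-- Elements of odd valuation. Proof: the values `x² - b y²` have even valuation if `b` is a nonsquare
unit and `v` is not dyadic. -/
theorem odd_notMem_LNm (h2 : v.valuation K 2 = 1) (hb : v.valuation K (b : K) = 1) (hb' : b ∉ LSq v)
    {m : ℤ} (hm : Odd m) (hc : v.valuation K (c : K) = WithZero.exp m) : c ∉ LNm v b := by
  intro h
  obtain ⟨x, y, s, ⟨t, ht⟩, h⟩ := mem_LNm.1 h
  obtain ⟨j, hj⟩ := val_norm_even h2 hb hb' (x := x) (y := y) (by
    rw [← h]
    exact mul_ne_zero c.ne_zero s.ne_zero)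
  obtain ⟨n, hn⟩ := exists_exp v t
  have hs : v.valuation K ((s : K) * (t : K) ^ 2) = 1 := by
    rw [val4_eq_one h2] at ht
    have e : (s : K) * (t : K) ^ 2 = 1 + ((s : K) * (t : K) ^ 2 - 1) := by ring
    rw [e, Valuation.map_add_eq_of_lt_left _ (by rw [map_one]; exact ht), map_one]
  obtain ⟨q, hq⟩ := exists_exp v s
  rw [map_mul, hq, map_pow, hn, ← WithZero.exp_nsmul, ← WithZero.exp_add, nsmul_eq_mul,
    ← WithZero.exp_zero, WithZero.exp_inj] at hs
  rw [← h, map_mul, hc, hq, ← WithZero.exp_add, WithZero.exp_inj] at hj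
  obtain ⟨i, hi⟩ := hm
  push_cast at hs
  omega

/-- Only finitely many places are ramified. -/
theorem finite_LNm (b c : Kˣ) : {v : HeightOneSpectrum (𝓞 K) | c ∉ LNm v b}.Finite := by
  have h20 : (2 : K) ≠ 0 := by norm_num
  refine (((finite_val_ne_one (Units.mk0 (2 : K) h20)).union (finite_val_ne_one b)).union
    (finite_val_ne_one c)).subset ?_
  intro v hv
  by_contra hcon
  apply hv
  simp only [Set.mem_union, not_or] at hcon
  obtain ⟨⟨h1, h2⟩, h3⟩ := hcon
  exact unit_mem_LNm (not_not.1 h1) (not_not.1 h2) (not_not.1 h3)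

end Dr
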