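import Pool.Agent.Lib.MP_f80667_ag.Dr.CmA

/-! Sets of indices for which the product of the norms is a square. -/

open Polynomial

namespace Dr

/-- The equation of degree two. -/
private theorem cmb_eqn {F K : Type*} [Field F] [Field K] [Algebra F K]
    (h2 : Module.finrank F K = 2) (δ : K) :
    ∃ t : F, δ ^ 2 + algebraMap F K (Algebra.norm F δ) = algebraMap F K t * δ := by
  classical
  have hfin : Module.Finite F K := Module.finite_of_finrank_pos (by omega)
  let b := Module.finBasisOfFinrankEq F K h2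
  let M := Algebra.leftMulMatrix b δ
  refine ⟨M.trace, ?_⟩
  have h1 : aeval M M.charpoly = 0 := Matrix.aeval_self_charpoly M
  have h3 : aeval δ M.charpoly = 0 := by
    apply Algebra.leftMulMatrix_injective b
    rw [map_zero, ← aeval_algHom_apply]
    exact h1
  rw [Matrix.charpoly_fin_two] at h3
  have h4 : M.det = Algebra.norm F δ := (Algebra.norm_eq_matrix_det b δ).symm
  rw [h4] at h3
  simp only [map_add, map_sub, map_mul, map_pow, aeval_X, aeval_C] at h3
  linear_combination h3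

/-- Proof: `σ` the conjugation, `δ σδ = n²`; if `δ = -n` take `d = -n`, `s = 1`; otherwise
`(δ + n)² = δ (δ + σδ + 2 n)`, so `d = δ + σδ + 2 n` and `s = (δ + n) / d`. -/
theorem quad_sq {F K : Type*} [Field F] [CharZero F] [Field K] [Algebra F K]
    (h2 : Module.finrank F K = 2) {δ : K} (hδ : δ ≠ 0) (hN : IsSquare (Algebra.norm F δ)) :
    ∃ (d : F) (s : K), d ≠ 0 ∧ δ = algebraMap F K d * s ^ 2 := by
  obtain ⟨n, hn⟩ := hN
  obtain ⟨t, ht⟩ := cmb_eqn h2 δ
  rw [hn, map_mul] at ht
  by_cases h : δ + algebraMap F K n = 0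
  · have hn0 : n ≠ 0 := by
      rintro rfl
      rw [map_zero, add_zero] at h
      exact hδ h
    refine ⟨-n, 1, neg_ne_zero.2 hn0, ?_⟩
    rw [map_neg, one_pow, mul_one]
    linear_combination h
  · have h3 : (δ + algebraMap F K n) ^ 2 = algebraMap F K (t + 2 * n) * δ := by
      simp only [map_add, map_mul, map_ofNat]
      linear_combination ht
    have hd : t + 2 * n ≠ 0 := by
      intro h0
      rw [h0, map_zero, zero_mul] at h3
      exact h (pow_eq_zero_iff (two_ne_zero) |>.1 h3)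
    have hd' : algebraMap F K (t + 2 * n) ≠ 0 := by
      rw [Ne, map_eq_zero]
      exact hd
    refine ⟨t + 2 * n, (δ + algebraMap F K n) / algebraMap F K (t + 2 * n), hd, ?_⟩
    rw [div_pow, h3]
    field_simp

variable {F : Type} [Field F] [CharZero F] {A B : Matrix (Fin 5) (Fin 5) F} {ι : Type} [Fintype ι]
  {D : F[X]} {K : ι → Type} [∀ i, Field (K i)] [∀ i, Algebra F (K i)] {θ : ∀ i, K i} {w : Fin 5 → F}

omit [CharZero F] in
private theorem cmb_deg (hS : Sp D K θ) (J : Finset ι) :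
    (∏ i ∈ J, minpoly F (θ i)).natDegree = ∑ i ∈ J, (minpoly F (θ i)).natDegree :=
  natDegree_prod_of_monic _ _ fun i _ => minpoly.monic (hS.int i)

omit [CharZero F] in
private theorem cmb_card (hS : Sp D K θ) (J : Finset ι) :
    J.card ≤ (∏ i ∈ J, minpoly F (θ i)).natDegree := by
  rw [cmb_deg hS, Finset.card_eq_sum_ones]
  exact Finset.sum_le_sum fun i _ => minpoly.natDegree_pos (hS.int i)

omit [CharZero F] in
/-- An index of degree one. -/
private theorem cmb_one (hS : Sp D K θ) {i : ι} (hi : (minpoly F (θ i)).natDegree = 1) (x : K i) :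
    ∃ a : F, x = algebraMap F (K i) a ∧ Algebra.norm F x = a := by
  have h1 : Module.finrank F (K i) = 1 := by rw [hS.finrank, hi]
  have h2 := Subalgebra.bot_eq_top_of_finrank_eq_one h1
  have h3 : x ∈ (⊥ : Subalgebra F (K i)) := by
    rw [h2]
    exact Algebra.mem_top
  obtain ⟨a, ha⟩ := Algebra.mem_bot.1 h3
  refine ⟨a, ha.symm, ?_⟩
  rw [← ha, Algebra.norm_algebraMap, h1, pow_one]

omit [CharZero F] in
/-- The values of polynomials. -/
private theorem cmb_val (hS : Sp D K θ) (x : ∀ i, K i) : ∃ p : F[X], ∀ i, aeval (θ i) p = x i := by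
  obtain ⟨e, he⟩ := hS.exists_equiv
  obtain ⟨p, hp⟩ := AdjoinRoot.mk_surjective (e.symm x)
  refine ⟨p, fun i => ?_⟩
  have h1 := he p
  rw [hp, e.apply_symm_apply] at h1
  exact (congrFun h1 i).symm

omit [CharZero F] in
private theorem cmb_dvd (hS : Sp D K θ) (I : Finset ι) {p : F[X]}
    (hp : ∀ i ∈ I, aeval (θ i) p = 0) : ∏ i ∈ I, minpoly F (θ i) ∣ p := by
  refine Finset.prod_dvd_of_coprime ?_ fun i hi => minpoly.dvd F (θ i) (hp i hi)
  intro i _ l _ hil
  have h1 := minpoly.irreducible (hS.int i)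
  have h2 := minpoly.irreducible (hS.int l)
  refine (h1.coprime_iff_not_dvd).2 fun h3 => hil (hS.inj i l ?_)
  have h4 : Associated (minpoly F (θ i)) (minpoly F (θ l)) := h1.associated_of_dvd h2 h3
  exact eq_of_monic_of_associated (minpoly.monic (hS.int i)) (minpoly.monic (hS.int l)) h4

omit [CharZero F] in
private theorem cmb_small (hS : Sp D K θ) (δ : ∀ i, (K i)ˣ) (J : Finset ι)
    (hJ : (∏ i ∈ J, minpoly F (θ i)).natDegree ≤ 1)
    (hN : IsSquare (∏ i ∈ J, Algebra.norm F (δ i : K i))) : ∀ i ∈ J, IsSquare (δ i) := by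
  intro i hi
  have hc : J.card = 1 := by
    have h1 := cmb_card hS J
    have h2 : 0 < J.card := Finset.card_pos.2 ⟨i, hi⟩
    omega
  obtain ⟨l, rfl⟩ := Finset.card_eq_one.1 hc
  rw [Finset.mem_singleton] at hi
  subst hi
  rw [Finset.prod_singleton] at hN hJ
  have hd : (minpoly F (θ i)).natDegree = 1 := le_antisymm hJ (minpoly.natDegree_pos (hS.int i))
  obtain ⟨a, ha, hna⟩ := cmb_one hS hd (δ i : K i)
  rw [hna] at hN
  obtain ⟨r, hr⟩ := hN
  have hr0 : algebraMap F (K i) r ≠ 0 := by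
    intro h0
    have h1 : (δ i : K i) = 0 := by rw [ha, hr, map_mul, h0, mul_zero]
    exact (δ i).ne_zero h1
  refine ⟨Units.mk0 _ hr0, Units.ext ?_⟩
  rw [Units.val_mul, Units.val_mk0, ha, hr, map_mul]

/-- Degree two. Proof: `I = {i, j}` with `K i = K j = F`: `d = δ i`, `δ j / d` is a square; or `I = {i}` with
`K i` of degree two: `quad_sq`; interpolation (`s` modulo the product of the minimal polynomials). -/
theorem exists_gds (hS : Sp D K θ) (δ : ∀ i, (K i)ˣ)
    (hδ : ∀ i, (δ i : K i) = aeval (θ i) (dl A B w)) (I : Finset ι)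
    (hI : (∏ i ∈ I, minpoly F (θ i)).natDegree = 2)
    (hN : IsSquare (∏ i ∈ I, Algebra.norm F (δ i : K i))) :
    ∃ (d : F) (s : F[X]), d ≠ 0 ∧ ∏ i ∈ I, minpoly F (θ i) ∣ dl A B w - C d * s ^ 2 := by
  classical
  have key : ∃ (d : F) (s : ∀ i, K i), d ≠ 0 ∧ ∀ i ∈ I, (δ i : K i) = algebraMap F (K i) d * s i ^ 2 := by
    have hcard := cmb_card hS I
    rw [cmb_deg hS] at hI
    rw [cmb_deg hS, hI] at hcard
    have hpos : I.Nonempty := by
      rw [Finset.nonempty_iff_ne_empty]
      rintro rfl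
      rw [Finset.sum_empty] at hI
      exact absurd hI (by norm_num)
    have hc : I.card = 1 ∨ I.card = 2 := by
      have := Finset.card_pos.2 hpos
      omega
    rcases hc with hc | hc
    · obtain ⟨i, rfl⟩ := Finset.card_eq_one.1 hc
      rw [Finset.sum_singleton] at hI
      rw [Finset.prod_singleton] at hN
      obtain ⟨d, s, hd, hs⟩ := quad_sq (by rw [hS.finrank, hI]) (δ i).ne_zero hN
      refine ⟨d, fun j => if h : i = j then h ▸ s else 0, hd, fun j hj => ?_⟩
      rw [Finset.mem_singleton] at hj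
      subst hj
      simpa using hs
    · obtain ⟨i, j, hij, rfl⟩ := Finset.card_eq_two.1 hc
      rw [Finset.sum_pair hij] at hI
      rw [Finset.prod_pair hij] at hN
      have h1 := minpoly.natDegree_pos (hS.int i)
      have h2 := minpoly.natDegree_pos (hS.int j)
      obtain ⟨a, ha, hna⟩ := cmb_one hS (show (minpoly F (θ i)).natDegree = 1 by omega) (δ i : K i)
      obtain ⟨b, hb, hnb⟩ := cmb_one hS (show (minpoly F (θ j)).natDegree = 1 by omega) (δ j : K j)
      rw [hna, hnb] at hN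
      obtain ⟨c, hcc⟩ := hN
      have ha0 : a ≠ 0 := by
        rintro rfl
        rw [map_zero] at ha
        exact (δ i).ne_zero ha
      refine ⟨a, fun l => if l = i then 1 else algebraMap F (K l) (c / a), ha0, fun l hl => ?_⟩
      rw [Finset.mem_insert, Finset.mem_singleton] at hl
      rcases hl with rfl | rfl
      · simp [ha]
      · simp only [hij.symm, if_false]
        rw [hb, ← map_pow, ← map_mul]
        congr 1
        field_simp
        linear_combination hcc
  obtain ⟨d, s, hd, hs⟩ := key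
  obtain ⟨p, hp⟩ := cmb_val hS s
  refine ⟨d, p, hd, cmb_dvd hS I fun i hi => ?_⟩
  rw [map_sub, map_mul, map_pow, aeval_C, hp, ← hδ i, hs i hi, sub_self]

/-- The cases. Proof: the degree of the product over `I` is one of `0, …, 5`; `0`: `I` is empty; `1`: `K i = F`
and `δ i` is its own norm; `2`; `3`: the complement has degree `2`; `4`: the complement has degree `1` and
the product of its norms is a square (`norm_prod_sq`); `5`: the complement is empty. -/
theorem cases_I (hS : Sp D K θ) (hn : D.natDegree = 5) {c : F} (hc : c ≠ 0)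
    (hf : Dq.chp A B = C c * D) (δ : ∀ i, (K i)ˣ)
    (hδ : ∀ i, (δ i : K i) = aeval (θ i) (dl A B w)) (I : Finset ι)
    (hN : IsSquare (∏ i ∈ I, Algebra.norm F (δ i : K i))) :
    (∀ i ∈ I, IsSquare (δ i)) ∨ (∀ i ∉ I, IsSquare (δ i)) ∨
      (∏ i ∈ I, minpoly F (θ i)).natDegree = 2 ∨
      ∃ J : Finset ι, (∀ i, i ∈ J ↔ i ∉ I) ∧ (∏ i ∈ J, minpoly F (θ i)).natDegree = 2 ∧
        IsSquare (∏ i ∈ J, Algebra.norm F (δ i : K i)) := by
  classical
  have htot := norm_prod_sq hS hn hc hf δ hδ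
  have hsplit : (∏ i ∈ I, Algebra.norm F (δ i : K i)) * ∏ i ∈ Iᶜ, Algebra.norm F (δ i : K i)
      = ∏ i, Algebra.norm F (δ i : K i) := Finset.prod_mul_prod_compl I _
  have hI0 : (∏ i ∈ I, Algebra.norm F (δ i : K i)) ≠ 0 := by
    rw [Finset.prod_ne_zero_iff]
    intro i _ h0
    have := hS.finite i
    exact (δ i).ne_zero (Algebra.norm_eq_zero_iff.1 h0)
  have hNc : IsSquare (∏ i ∈ Iᶜ, Algebra.norm F (δ i : K i)) := by
    have h1 : ∏ i ∈ Iᶜ, Algebra.norm F (δ i : K i)
        = (∏ i, Algebra.norm F (δ i : K i)) / ∏ i ∈ I, Algebra.norm F (δ i : K i) := by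
      rw [← hsplit]
      field_simp
    rw [h1]
    exact htot.div hN
  have hdeg : (∏ i ∈ I, minpoly F (θ i)).natDegree + (∏ i ∈ Iᶜ, minpoly F (θ i)).natDegree = 5 := by
    rw [cmb_deg hS, cmb_deg hS, Finset.sum_add_sum_compl, ← hn, hS.prod]
    exact (natDegree_prod_of_monic _ _ fun i _ => minpoly.monic (hS.int i)).symm
  by_cases h1 : (∏ i ∈ I, minpoly F (θ i)).natDegree ≤ 1
  · exact Or.inl (cmb_small hS δ I h1 hN)
  · by_cases h2 : (∏ i ∈ Iᶜ, minpoly F (θ i)).natDegree ≤ 1
    · exact Or.inr (Or.inl fun i hi => cmb_small hS δ Iᶜ h2 hNc i (Finset.mem_compl.2 hi))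
    · by_cases h3 : (∏ i ∈ I, minpoly F (θ i)).natDegree = 2
      · exact Or.inr (Or.inr (Or.inl h3))
      · exact Or.inr (Or.inr (Or.inr ⟨Iᶜ, fun i => Finset.mem_compl, by omega, hNc⟩))

end Dr
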