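import Pool.Agent.Lib.MP_f80667_ag.Dr.BrH1
import Pool.Agent.Lib.MP_f80667_ag.Dr.CmB

/-! The sum condition for orthogonal families. -/

open IsDedekindDomain NumberField Polynomial
open scoped WithZero LinearAlgebra.Projectivization

namespace Dr

open ZC Tq Dp

variable {F : Type} [Field F] [NumberField F] {A B : Matrix (Fin 5) (Fin 5) F} {ι : Type} [Fintype ι]
  {D : F[X]} {K : ι → Type} [∀ i, Field (K i)] [∀ i, NumberField (K i)] [∀ i, Algebra F (K i)]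
  {θ : ∀ i, K i} {w : Fin 5 → F}

omit [NumberField F] in
/-- The numbers of a square. -/
theorem brH_nF {K : Type} [Field K] [NumberField K] [Algebra F K] {δ : Kˣ} (h : IsSquare δ)
    (v : HeightOneSpectrum (𝓞 F)) (a : Kˣ) : nF v a δ = 0 := by
  obtain ⟨r, rfl⟩ := h
  have h1 : IsEmpty {u : HeightOneSpectrum (𝓞 K) // u.under (𝓞 F) = v ∧ a ∉ Hm.LNm u (r * r)} := by
    refine ⟨fun u => u.2.2 (Hm.LNm_eq_top ?_ a)⟩
    have h2 := Hm.sq_mem_LSq u.1 r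
    rwa [pow_two] at h2
  exact Nat.card_of_isEmpty

theorem brH_nR {K : Type} [Field K] {δ : Kˣ} (h : IsSquare δ) (s : (K →+* ℝ) → Prop) :
    nR δ s = 0 := by
  obtain ⟨r, rfl⟩ := h
  have h1 : IsEmpty {φ : K →+* ℝ // φ ((r * r : Kˣ) : K) < 0 ∧ s φ} := by
    refine ⟨fun φ => ?_⟩
    have h2 : φ.1 ((r : K) * (r : K)) < 0 := φ.2.1
    rw [map_mul] at h2
    exact absurd h2 (not_lt.2 (mul_self_nonneg _))
  exact Nat.card_of_isEmpty

/-- The sum condition for the set `I` of indices. -/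
def BrHc (A B : Matrix (Fin 5) (Fin 5) F) (θ : ∀ i, K i) (δ : ∀ i, (K i)ˣ) (a : FA (Pl A B))
    (I : Finset ι) : Prop :=
  ∃ S₁ : Finset (HeightOneSpectrum (𝓞 F)), ∀ S, S₁ ⊆ S → ∀ P₀ R₀, RepA A B a S P₀ R₀ →
    ∃ e : HeightOneSpectrum (𝓞 F) → ℤᵐ⁰, (∀ v, e v ≠ 0) ∧
      ∀ (P : HeightOneSpectrum (𝓞 F) → F[X]) (b : HeightOneSpectrum (𝓞 F) → ∀ i, (K i)ˣ),
        (∀ v ∈ S, Dq.NearPol v (e v) (P₀ v) (P v) ∧ ∀ i, aeval (θ i) (P v) = (b v i : K i)) →
        Even (∑ i ∈ I, (∑ v ∈ S, nF v (b v i) (δ i) + nR (δ i) (Dq.SgN θ R₀ i)))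

theorem brH_near {v : HeightOneSpectrum (𝓞 F)} {e e' : ℤᵐ⁰} (h : e ≤ e')
    {P₀ : (v.adicCompletion F)[X]} {P : F[X]} (hP : Dq.NearPol v e P₀ P) :
    Dq.NearPol v e' P₀ P :=
  ⟨hP.1, hP.2.1, fun j => (hP.2.2 j).trans_le h⟩

omit [Fintype ι] in
/-- Squares. -/
theorem brH_sq {δ : ∀ i, (K i)ˣ} {a : FA (Pl A B)} {I : Finset ι}
    (h : ∀ i ∈ I, IsSquare (δ i)) : BrHc A B θ δ a I := by
  refine ⟨∅, fun S _ P₀ R₀ _ => ⟨1, fun _ => one_ne_zero, fun P b _ => ?_⟩⟩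
  rw [Finset.sum_eq_zero fun i hi => ?_]
  · exact Even.zero
  rw [brH_nR (h i hi), add_zero]
  exact Finset.sum_eq_zero fun v _ => brH_nF (h i hi) v _

/-- The complement. -/
theorem brH_compl (hsm : Sm (AlgebraicClosure F) A B) (hS : Sp D K θ) (hn : D.natDegree = 5) {c : F}
    (hc : c ≠ 0) (hf : Dq.chp A B = C c * D) (δ : ∀ i, (K i)ˣ)
    (hδ : ∀ i, (δ i : K i) = aeval (θ i) (dl A B w)) (a : FA (Pl A B)) {I J : Finset ι}
    (hIJ : ∀ i, i ∈ J ↔ i ∉ I) (h : BrHc A B θ δ a J) : BrHc A B θ δ a I := by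
  classical
  obtain ⟨S₁, hS₁⟩ := h
  refine ⟨S₁, fun S hSS P₀ R₀ hR => ?_⟩
  obtain ⟨e, he, hJ⟩ := hS₁ S hSS P₀ R₀ hR
  obtain ⟨e', he', hall⟩ := hyp_all hsm hS hn hc hf w δ hδ S P₀ R₀
    (fun v hv => ⟨(hR.fin v hv).1, by
      obtain ⟨y, z₀, -, -, hz⟩ := (hR.fin v hv).2
      exact ⟨_, hz⟩⟩)
    (fun v hv => ⟨(hR.inf v hv).1, by
      obtain ⟨y, z₀, -, -, hz⟩ := (hR.inf v hv).2
      exact ⟨_, hz⟩⟩)
  refine ⟨fun v => min (e v) (e' v), fun v => ?_, fun P b hP => ?_⟩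
  · rcases min_choice (e v) (e' v) with h1 | h1
    · exact fun h3 => he v (h1.symm.trans h3)
    · exact fun h3 => he' v (h1.symm.trans h3)
  · have h1 := hJ P b fun v hv => ⟨brH_near (min_le_left _ _) (hP v hv).1, (hP v hv).2⟩
    have h2 := hall P b fun v hv => ⟨brH_near (min_le_right _ _) (hP v hv).1, (hP v hv).2⟩
    have h3 : J = Iᶜ := by
      ext i
      rw [Finset.mem_compl]
      exact hIJ i
    rw [← Finset.sum_add_sum_compl I, ← h3] at h2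
    exact (Nat.even_add.1 h2).2 h1

omit [NumberField F] [Fintype ι] [∀ i, NumberField (K i)] in
/-- Squares modulo a product of minimal polynomials. -/
theorem brH_sqm {δ : ∀ i, (K i)ˣ} (hδ : ∀ i, (δ i : K i) = aeval (θ i) (dl A B w)) {I : Finset ι}
    (h : Sqm (∏ i ∈ I, minpoly F (θ i)) (dl A B w)) : ∀ i ∈ I, IsSquare (δ i) := by
  intro i hi
  obtain ⟨s, q, hq⟩ := h
  have h1 : aeval (θ i) (∏ i ∈ I, minpoly F (θ i)) = 0 := by
    rw [map_prod]
    exact Finset.prod_eq_zero hi (minpoly.aeval F (θ i))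
  have h2 := congrArg (aeval (θ i)) hq
  rw [map_sub, map_mul, h1, zero_mul, sub_eq_zero, map_pow, ← hδ] at h2
  have h3 : aeval (θ i) s ≠ 0 := by
    intro h0
    rw [h0] at h2
    exact (δ i).ne_zero (by rw [h2]; ring)
  refine ⟨Units.mk0 _ h3, Units.ext ?_⟩
  rw [h2, Units.val_mul, Units.val_mk0, pow_two]

/-- **The sum condition for orthogonal families.** Proof: for a set `I` with a square product
`cases_I`: if the `δ i` are squares on `I` or off `I` as in `hyp_one` (with `hyp_all`); if the product of the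
minimal polynomials has degree two: `exists_gds`, and `Orth` holds unless `dl` is a square modulo `g` (then
the `δ i`, `i ∈ I`, are squares) or modulo the complementary factor (then those off `I` are squares);
`hyp_g`. If the complement `J` has degree two: the sum over `J` is even by the same argument, and the sum
over all indices (`hyp_all`). Finitely many `I`: the union of the sets `S₁`, the minimum of the
precisions. -/
theorem hyp_orth (hsm : Sm (AlgebraicClosure F) A B) (hS : Sp D K θ) (hn : D.natDegree = 5) {c : F}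
    (hc : c ≠ 0) (hf : Dq.chp A B = C c * D) (hs : (Dq.chp A B).Separable) (δ : ∀ i, (K i)ˣ)
    (hδ : ∀ i, (δ i : K i) = aeval (θ i) (dl A B w)) (a : FA (Pl A B))
    (ho : ∀ (g g' s : F[X]) (c' d : F), g.Monic → g.natDegree = 2 → d ≠ 0 →
      Dq.chp A B = C c' * (g * g') → g ∣ dl A B w - C d * s ^ 2 → ¬ Sqm g (dl A B w) →
      ¬ Sqm g' (dl A B w) → Orth A B w g d a) :
    ∃ S₁ : Finset (HeightOneSpectrum (𝓞 F)), ∀ S, S₁ ⊆ S → ∀ P₀ R₀, RepA A B a S P₀ R₀ →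
      Dq.HypH θ δ S P₀ R₀ := by
  classical
  have hint : ∀ i, (minpoly F (θ i)).Monic := fun i => minpoly.monic (hS.int i)
  -- sets of degree two
  have h2 : ∀ I : Finset ι, (∏ i ∈ I, minpoly F (θ i)).natDegree = 2 →
      IsSquare (∏ i ∈ I, Algebra.norm F (δ i : K i)) → BrHc A B θ δ a I := by
    intro I hI hN
    obtain ⟨d, s, hd0, hd⟩ := exists_gds hS δ hδ I hI hN
    by_cases h3 : Sqm (∏ i ∈ I, minpoly F (θ i)) (dl A B w)
    · exact brH_sq (brH_sqm hδ h3)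
    by_cases h4 : Sqm (∏ i ∈ Iᶜ, minpoly F (θ i)) (dl A B w)
    · exact brH_compl hsm hS hn hc hf δ hδ a (fun i => Finset.mem_compl)
        (brH_sq (brH_sqm hδ h4))
    have h5 : Dq.chp A B = C c * ((∏ i ∈ I, minpoly F (θ i)) * ∏ i ∈ Iᶜ, minpoly F (θ i)) := by
      rw [Finset.prod_mul_prod_compl, ← hS.prod]
      exact hf
    exact hyp_g hsm hS hn hc hf hs δ hδ a I hI hd0 hd
      (ho _ _ s c d (monic_prod_of_monic _ _ fun i _ => hint i) hI hd0 h5 hd h3 h4)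
  -- all sets
  have hall : ∀ I : Finset ι, IsSquare (∏ i ∈ I, Algebra.norm F (δ i : K i)) →
      BrHc A B θ δ a I := by
    intro I hN
    rcases cases_I hS hn hc hf δ hδ I hN with h3 | h3 | h3 | ⟨J, hJ, hJ2, hJN⟩
    · exact brH_sq h3
    · exact brH_compl hsm hS hn hc hf δ hδ a (fun i => Finset.mem_compl)
        (brH_sq fun i hi => h3 i (Finset.mem_compl.1 hi))
    · exact h2 I h3 hN
    · exact brH_compl hsm hS hn hc hf δ hδ a hJ (h2 J hJ2 hJN)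
  have hex : ∀ I : Finset ι, ∃ S₁ : Finset (HeightOneSpectrum (𝓞 F)),
      IsSquare (∏ i ∈ I, Algebra.norm F (δ i : K i)) → ∀ S, S₁ ⊆ S → ∀ P₀ R₀,
      RepA A B a S P₀ R₀ → ∃ e : HeightOneSpectrum (𝓞 F) → ℤᵐ⁰, (∀ v, e v ≠ 0) ∧
        ∀ (P : HeightOneSpectrum (𝓞 F) → F[X]) (b : HeightOneSpectrum (𝓞 F) → ∀ i, (K i)ˣ),
        (∀ v ∈ S, Dq.NearPol v (e v) (P₀ v) (P v) ∧ ∀ i, aeval (θ i) (P v) = (b v i : K i)) →
        Even (∑ i ∈ I, (∑ v ∈ S, nF v (b v i) (δ i) + nR (δ i) (Dq.SgN θ R₀ i))) := by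
    intro I
    by_cases hN : IsSquare (∏ i ∈ I, Algebra.norm F (δ i : K i))
    · obtain ⟨S₁, h⟩ := hall I hN
      exact ⟨S₁, fun _ => h⟩
    · exact ⟨∅, fun h => absurd h hN⟩
  choose S₁ hS₁ using hex
  refine ⟨Finset.univ.biUnion S₁, fun S hSS P₀ R₀ hR => ?_⟩
  have hex2 : ∀ I : Finset ι, ∃ e : HeightOneSpectrum (𝓞 F) → ℤᵐ⁰, (∀ v, e v ≠ 0) ∧
      (IsSquare (∏ i ∈ I, Algebra.norm F (δ i : K i)) →
        ∀ (P : HeightOneSpectrum (𝓞 F) → F[X]) (b : HeightOneSpectrum (𝓞 F) → ∀ i, (K i)ˣ),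
        (∀ v ∈ S, Dq.NearPol v (e v) (P₀ v) (P v) ∧ ∀ i, aeval (θ i) (P v) = (b v i : K i)) →
        Even (∑ i ∈ I, (∑ v ∈ S, nF v (b v i) (δ i) + nR (δ i) (Dq.SgN θ R₀ i)))) := by
    intro I
    by_cases hN : IsSquare (∏ i ∈ I, Algebra.norm F (δ i : K i))
    · obtain ⟨e, he, h⟩ := hS₁ I hN S
        ((Finset.subset_biUnion_of_mem S₁ (Finset.mem_univ I)).trans hSS) P₀ R₀ hR
      exact ⟨e, he, fun _ => h⟩
    · exact ⟨1, fun _ => one_ne_zero, fun h => absurd h hN⟩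
  choose e he hE using hex2
  have hne : (Finset.univ : Finset (Finset ι)).Nonempty := ⟨∅, Finset.mem_univ _⟩
  refine ⟨fun v => Finset.univ.inf' hne fun I => e I v, fun v => ?_, fun P b hP I hN => ?_⟩
  · obtain ⟨I, -, hI⟩ := Finset.exists_mem_eq_inf' hne fun I => e I v
    exact fun h3 => he I v (hI.symm.trans h3)
  · refine hE I hN P b fun v hv => ⟨brH_near ?_ (hP v hv).1, (hP v hv).2⟩
    exact Finset.inf'_le (fun I => e I v) (Finset.mem_univ I)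

end Dr
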