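import Pool.Agent.Lib.MP_f80667_ag.Hm.Defs

/-!
Definitions for the arithmetic part of the theorem on zero-cycles on del Pezzo surfaces of degree 4.

* `nF v a δ`: number of the places `u` above `v` where `a` is not a local norm of `K(√δ)`.
* `nR δ s`: number of the real embeddings where `δ` is negative and the prescribed sign is negative.
-/

open IsDedekindDomain NumberField

namespace Dr

variable {F : Type} [Field F] [NumberField F] {K : Type} [Field K] [NumberField K] [Algebra F K]

/-- The number of the places above `v` where `a` is not a local norm from `K(√δ)`. -/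
noncomputable def nF (v : HeightOneSpectrum (𝓞 F)) (a δ : Kˣ) : ℕ :=
  Nat.card {u : HeightOneSpectrum (𝓞 K) // u.under (𝓞 F) = v ∧ a ∉ Hm.LNm u δ}

/-- The number of the real embeddings `φ` where `δ` is negative and the sign `s φ` is negative. -/
noncomputable def nR (δ : Kˣ) (s : (K →+* ℝ) → Prop) : ℕ :=
  Nat.card {φ : K →+* ℝ // φ δ < 0 ∧ s φ}

end Dr
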