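import Mathlib

/-! The norm of a product of algebras. -/

set_option linter.unusedSectionVars false

namespace Dr

section A

variable {k : Type*} [Field k] {ι : Type*} [Fintype ι] [DecidableEq ι] {B : ι → Type*}
  [∀ i, CommRing (B i)] [∀ i, Algebra k (B i)] [∀ i, Module.Finite k (B i)]

theorem norm_mulSingle (i : ι) (b : B i) :
    Algebra.norm k (Pi.mulSingle (M := B) i b) = Algebra.norm k b := by
  let e : (∀ j, B j) ≃ₗ[k] B i × (∀ j : {j // j ≠ i}, B j) :=
    { Equiv.piSplitAt i B with
      map_add' := fun x y => rfl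
      map_smul' := fun c x => rfl }
  rw [Algebra.norm_apply, Algebra.norm_apply, ← LinearMap.det_conj _ e]
  have h1 : (e : (∀ j, B j) →ₗ[k] B i × (∀ j : {j // j ≠ i}, B j)) ∘ₗ
      (LinearMap.mul k (∀ j, B j)) (Pi.mulSingle (M := B) i b) ∘ₗ
      (e.symm : B i × (∀ j : {j // j ≠ i}, B j) →ₗ[k] (∀ j, B j)) =
      LinearMap.prodMap ((LinearMap.mul k (B i)) b) LinearMap.id := by
    apply LinearMap.ext
    intro x
    obtain ⟨y, rfl⟩ := e.surjective x
    rw [LinearMap.comp_apply, LinearMap.comp_apply]
    have h2 : (e.symm : B i × (∀ j : {j // j ≠ i}, B j) →ₗ[k] (∀ j, B j)) (e y) = y :=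
      e.symm_apply_apply y
    rw [h2]
    refine Prod.ext ?_ ?_
    · change (Pi.mulSingle (M := B) i b * y) i = b * y i
      rw [Pi.mul_apply, Pi.mulSingle_eq_same]
    · funext j
      change (Pi.mulSingle (M := B) i b * y) (j : ι) = y (j : ι)
      rw [Pi.mul_apply, Pi.mulSingle_eq_of_ne j.2, one_mul]
  have h3 : (e : (∀ j, B j) →ₗ[k] B i × (∀ j : {j // j ≠ i}, B j)) ∘ₗ
      ((Algebra.lmul k (∀ j, B j)) (Pi.mulSingle (M := B) i b)) ∘ₗ
      (e.symm : B i × (∀ j : {j // j ≠ i}, B j) →ₗ[k] (∀ j, B j)) =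
      LinearMap.prodMap ((Algebra.lmul k (B i)) b) LinearMap.id := h1
  rw [h3, LinearMap.det_prodMap, LinearMap.det_id, mul_one]

theorem norm_pi (y : ∀ i, B i) : Algebra.norm k y = ∏ i, Algebra.norm k (y i) := by
  conv_lhs => rw [← Finset.univ_prod_mulSingle y]
  rw [map_prod]
  exact Finset.prod_congr rfl fun i _ => norm_mulSingle i (y i)

end A

section B

theorem isSquare_norm_iff {k l : Type*} [Field k] [Field l] [Finite l] [Algebra k l]
    (h2 : ringChar k ≠ 2) {x : l} (hx : x ≠ 0) : IsSquare (Algebra.norm k x) ↔ IsSquare x := by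
  classical
  have hk : Finite k := Finite.of_injective _ (algebraMap k l).injective
  let _ : Fintype k := Fintype.ofFinite _
  let _ : Fintype l := Fintype.ofFinite _
  have hl2 : ringChar l ≠ 2 := by
    rw [← Algebra.ringChar_eq k l]; exact h2
  have hn : Algebra.norm k x ≠ 0 := by
    rw [Ne, Algebra.norm_eq_zero_iff]; exact hx
  rw [FiniteField.isSquare_iff h2 hn, FiniteField.isSquare_iff hl2 hx]
  have h3 : algebraMap k l (Algebra.norm k x ^ (Fintype.card k / 2)) = x ^ (Fintype.card l / 2) := by
    rw [map_pow, FiniteField.algebraMap_norm_eq_pow, ← pow_mul]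
    congr 1
    -- arithmetic
    have hq : Fintype.card l = Fintype.card k ^ Module.finrank k l := Module.card_eq_pow_finrank
    have hko : Fintype.card k % 2 = 1 := FiniteField.odd_card_of_char_ne_two h2
    have hlo : Fintype.card l % 2 = 1 := FiniteField.odd_card_of_char_ne_two hl2
    have hd : (Nat.card k - 1) ∣ (Nat.card l - 1) := by
      rw [Nat.card_eq_fintype_card, Nat.card_eq_fintype_card, hq]
      simpa using Nat.sub_dvd_pow_sub_pow (Fintype.card k) 1 (Module.finrank k l)
    obtain ⟨m, hm⟩ := hd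
    rw [Nat.card_eq_fintype_card, Nat.card_eq_fintype_card] at *
    have hk1 : 1 < Fintype.card k := Fintype.one_lt_card
    rw [hm, Nat.mul_div_cancel_left _ (by omega)]
    have hke : 2 * (Fintype.card k / 2) = Fintype.card k - 1 := by omega
    have hle : 2 * (Fintype.card l / 2) = Fintype.card l - 1 := by omega
    have : 2 * (m * (Fintype.card k / 2)) = 2 * (Fintype.card l / 2) := by
      rw [hle, hm, ← hke]; ring
    exact Nat.eq_of_mul_eq_mul_left two_pos this
  constructor
  · intro h
    rw [← h3, h, map_one]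
  · intro h
    rw [h, ← map_one (algebraMap k l)] at h3
    exact (algebraMap k l).injective h3

end B

end Dr
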