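import Pool.Agent.Lib.MP_f80667_ag.Dr.Loc3
import Pool.Agent.Lib.MP_f80667_ag.Hm.Res
import Pool.Agent.Lib.MP_f80667_ag.Hm.GenS
import Pool.Agent.Lib.MP_f80667_ag.Hm.F1B

/-! Squares and norms at an unramified place. -/

open IsDedekindDomain NumberField

namespace Dr

open Hm

variable {F : Type} [Field F] [NumberField F]

variable {K : Type} [Field K] [NumberField K] [Algebra F K]

theorem map_eq_iInf {v : HeightOneSpectrum (𝓞 F)}
    (hv : ∀ u : HeightOneSpectrum (𝓞 K), u.under (𝓞 F) = v →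
      ¬ (v.asIdeal.map (algebraMap (𝓞 F) (𝓞 K)) ≤ u.asIdeal ^ 2)) :
    (⨅ u : {u : HeightOneSpectrum (𝓞 K) // u.under (𝓞 F) = v}, u.1.asIdeal) =
      v.asIdeal.map (algebraMap (𝓞 F) (𝓞 K)) := by
  set I := v.asIdeal.map (algebraMap (𝓞 F) (𝓞 K)) with hI
  have hI0 : I ≠ ⊥ := by
    rw [hI, Ne, Ideal.map_eq_bot_iff_of_injective (FaithfulSMul.algebraMap_injective _ _)]
    exact v.ne_bot
  -- the primes containing `I`
  have hprime : ∀ P : Ideal (𝓞 K), P.IsPrime → I ≤ P →
      ∃ u : HeightOneSpectrum (𝓞 K), u.under (𝓞 F) = v ∧ u.asIdeal = P := by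
    intro P hP hIP
    have hP0 : P ≠ ⊥ := by
      rintro rfl
      exact hI0 (le_bot_iff.mp hIP)
    refine ⟨⟨P, hP, hP0⟩, ?_, rfl⟩
    apply HeightOneSpectrum.ext
    change P.comap (algebraMap (𝓞 F) (𝓞 K)) = v.asIdeal
    have h1 : v.asIdeal ≤ P.comap (algebraMap (𝓞 F) (𝓞 K)) := Ideal.map_le_iff_le_comap.mp hIP
    exact (v.isMaximal.eq_of_le (Ideal.IsPrime.comap _ (hK := hP)).ne_top h1).symm
  have hsq : Squarefree I := by
    rw [squarefree_iff_irreducible_sq_not_dvd_of_ne_zero hI0]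
    intro P hP hdvd
    have hPp : Prime P := UniqueFactorizationMonoid.irreducible_iff_prime.mp hP
    have hPprime : P.IsPrime := Ideal.isPrime_of_prime hPp
    have hle : I ≤ P * P := Ideal.le_of_dvd hdvd
    obtain ⟨u, hu, rfl⟩ := hprime P hPprime (hle.trans Ideal.mul_le_left)
    exact hv u hu (by rw [pow_two]; exact hle)
  have hrad : I.IsRadical := by
    intro x hx
    obtain ⟨n, hn⟩ := hx
    have h1 : I ∣ (Ideal.span {x}) ^ n := by
      rw [Ideal.span_singleton_pow, Ideal.dvd_span_singleton]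
      exact hn
    have h2 := hsq.isRadical n _ h1
    exact Ideal.dvd_span_singleton.mp h2
  apply le_antisymm
  · rw [← hrad.radical, Ideal.radical_eq_sInf]
    apply le_sInf
    rintro P ⟨hIP, hP⟩
    obtain ⟨u, hu, rfl⟩ := hprime P hP hIP
    exact iInf_le (fun u : {u : HeightOneSpectrum (𝓞 K) // u.under (𝓞 F) = v} => u.1.asIdeal)
      ⟨u, hu⟩
  · apply le_iInf
    rintro ⟨u, hu⟩
    rw [hI, Ideal.map_le_iff_le_comap]
    subst hu
    exact le_refl _

theorem mem_LSq_iff_isSquare {v : HeightOneSpectrum (𝓞 K)} (h2 : v.valuation K 2 = 1) {x : Kˣ}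
    {a : 𝓞 K} (hx : v.valuation K (x : K) = 1)
    (ha : v.valuation K (algebraMap (𝓞 K) K a - x) < 1) :
    x ∈ LSq v ↔ IsSquare (Ideal.Quotient.mk v.asIdeal a) := by
  constructor
  · rintro ⟨y, hy⟩
    rw [val4_eq_one h2] at hy
    -- `y` is a unit
    have h1 : v.valuation K ((x : K) * (y : K) ^ 2) = 1 := by
      have e : (x : K) * (y : K) ^ 2 = 1 + ((x : K) * (y : K) ^ 2 - 1) := by ring
      rw [e, Valuation.map_add_eq_of_lt_left _ (by rw [map_one]; exact hy), map_one]
    rw [map_mul, hx, one_mul, map_pow] at h1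
    have hy1 : v.valuation K (y : K) = 1 := Hm.pow_eq_one h1
    have hyi : v.valuation K ((y : K)⁻¹) ≤ 1 := by rw [map_inv₀, hy1, inv_one]
    obtain ⟨c, hc⟩ := exists_near_int hyi
    refine ⟨Ideal.Quotient.mk v.asIdeal c, ?_⟩
    rw [← map_mul, Ideal.Quotient.eq, ← HeightOneSpectrum.valuation_lt_one_iff_mem (K := K)]
    have hc1 : v.valuation K (algebraMap (𝓞 K) K c) ≤ 1 := v.valuation_le_one c
    have e : algebraMap (𝓞 K) K (a - c * c) = (algebraMap (𝓞 K) K a - x) +
        (((x : K) * (y : K) ^ 2 - 1) * ((y : K)⁻¹) ^ 2 -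
          (algebraMap (𝓞 K) K c - (y : K)⁻¹) * (algebraMap (𝓞 K) K c + (y : K)⁻¹)) := by
      have hy0 : (y : K) ≠ 0 := y.ne_zero
      rw [map_sub, map_mul]
      field_simp
      ring
    change v.valuation K (algebraMap (𝓞 K) K (a - c * c)) < 1
    rw [e]
    refine lt_of_le_of_lt (Valuation.map_add _ _ _) (max_lt ha ?_)
    refine lt_of_le_of_lt (Valuation.map_sub _ _ _) (max_lt ?_ ?_)
    · rw [map_mul, map_pow, map_inv₀, hy1, inv_one, one_pow, mul_one]
      exact hy
    · rw [map_mul]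
      have h3 : v.valuation K (algebraMap (𝓞 K) K c + (y : K)⁻¹) ≤ 1 :=
        le_trans (Valuation.map_add _ _ _) (max_le hc1 hyi)
      exact lt_of_le_of_lt (mul_le_of_le_one_right' h3) hc
  · exact mem_LSq_of_isSquare h2 hx ha

/-- Denominators prime to a place of the base field. -/
theorem exists_den (v : HeightOneSpectrum (𝓞 F)) (δ : Kˣ)
    (hδ : ∀ u : HeightOneSpectrum (𝓞 K), u.under (𝓞 F) = v → u.valuation K (δ : K) ≤ 1) :
    ∃ (d : 𝓞 F) (s : 𝓞 K), d ∉ v.asIdeal ∧
      algebraMap (𝓞 K) K s = algebraMap F K (algebraMap (𝓞 F) F d) * (δ : K) := by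
  classical
  have hfin := finite_val_ne_one δ
  set B := hfin.toFinset with hB
  have hBm : ∀ w, w ∈ B ↔ w.valuation K (δ : K) ≠ 1 := fun w => by simp [hB]
  -- for every place an element
  have h1 : ∀ w : HeightOneSpectrum (𝓞 K), ∃ d : 𝓞 F, d ∉ v.asIdeal ∧
      w.valuation K (algebraMap F K (algebraMap (𝓞 F) F d) * (δ : K)) ≤ 1 := by
    intro w
    by_cases hw : w.valuation K (δ : K) ≤ 1
    · refine ⟨1, fun h => v.isPrime.ne_top ((Ideal.eq_top_iff_one _).mpr h), ?_⟩
      simpa using hw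
    · have hwv : w.under (𝓞 F) ≠ v := fun h => hw (hδ w h)
      have hnle : ¬ (w.under (𝓞 F)).asIdeal ≤ v.asIdeal := by
        intro hle
        exact hwv (HeightOneSpectrum.ext ((w.under (𝓞 F)).isMaximal.eq_of_le v.isPrime.ne_top hle))
      obtain ⟨d, hdw, hdv⟩ := SetLike.not_le_iff_exists.mp hnle
      -- valuation of `d` at `w`
      have hd0 : d ≠ 0 := fun h => hdv (h ▸ Submodule.zero_mem _)
      have hdw' : w.valuation K (algebraMap F K (algebraMap (𝓞 F) F d)) < 1 := by
        have e : algebraMap F K (algebraMap (𝓞 F) F d) =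
            algebraMap (𝓞 K) K (algebraMap (𝓞 F) (𝓞 K) d) := by
          rw [← IsScalarTower.algebraMap_apply, ← IsScalarTower.algebraMap_apply]
        rw [e, HeightOneSpectrum.valuation_lt_one_iff_mem]
        exact hdw
      have hdne : w.valuation K (algebraMap F K (algebraMap (𝓞 F) F d)) ≠ 0 := by
        rw [Valuation.ne_zero_iff, Ne, map_eq_zero, map_eq_zero_iff _ (FaithfulSMul.algebraMap_injective _ _)]
        exact hd0
      obtain ⟨n, hn⟩ : ∃ n : ℕ, w.valuation K (algebraMap F K (algebraMap (𝓞 F) F d)) ^ n *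
          w.valuation K (δ : K) ≤ 1 := by
        obtain ⟨k, hk⟩ : ∃ k : ℤ, w.valuation K (algebraMap F K (algebraMap (𝓞 F) F d)) =
          WithZero.exp k := ⟨_, (WithZero.exp_log hdne).symm⟩
        have hδne : w.valuation K (δ : K) ≠ 0 := (Valuation.ne_zero_iff _).mpr δ.ne_zero
        obtain ⟨l, hl⟩ : ∃ l : ℤ, w.valuation K (δ : K) = WithZero.exp l :=
          ⟨_, (WithZero.exp_log hδne).symm⟩
        rw [hk] at hdw'
        rw [← WithZero.exp_zero, WithZero.exp_lt_exp] at hdw'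
        refine ⟨l.toNat, ?_⟩
        rw [hk, hl, exp_mul_nat, ← WithZero.exp_add, ← WithZero.exp_zero, WithZero.exp_le_exp]
        have h5 : l ≤ l.toNat := Int.self_le_toNat l
        have h6 : ((l.toNat : ℕ) : ℤ) * k ≤ ((l.toNat : ℕ) : ℤ) * (-1) :=
          mul_le_mul_of_nonneg_left (by omega) (by positivity)
        linarith
      refine ⟨d ^ n, fun h => hdv (v.isPrime.mem_of_pow_mem n h), ?_⟩
      rw [map_pow, map_pow, map_mul, map_pow]
      exact hn
  choose D hD1 hD2 using h1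
  refine ⟨∏ w ∈ B, D w, ?_⟩
  have hnot : (∏ w ∈ B, D w) ∉ v.asIdeal := by
    intro h
    obtain ⟨w, -, hw⟩ := (Ideal.IsPrime.prod_mem_iff (hp := v.isPrime)).mp h
    exact hD1 w hw
  have hint : algebraMap F K (algebraMap (𝓞 F) F (∏ w ∈ B, D w)) * (δ : K) ∈
      (algebraMap (𝓞 K) K).range := by
    apply HeightOneSpectrum.mem_integers_of_valuation_le_one
    intro w
    have hle : ∀ d : 𝓞 F, w.valuation K (algebraMap F K (algebraMap (𝓞 F) F d)) ≤ 1 := by
      intro d
      have e : algebraMap F K (algebraMap (𝓞 F) F d) =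
          algebraMap (𝓞 K) K (algebraMap (𝓞 F) (𝓞 K) d) := by
        rw [← IsScalarTower.algebraMap_apply, ← IsScalarTower.algebraMap_apply]
      rw [e]
      exact w.valuation_le_one _
    by_cases hw : w ∈ B
    · have e2 : algebraMap F K (algebraMap (𝓞 F) F (∏ w ∈ B, D w)) * (δ : K) =
          algebraMap F K (algebraMap (𝓞 F) F (∏ x ∈ B.erase w, D x)) *
            (algebraMap F K (algebraMap (𝓞 F) F (D w)) * (δ : K)) := by
        rw [← Finset.mul_prod_erase B D hw, map_mul, map_mul]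
        ring
      rw [e2, map_mul]
      exact mul_le_one' (hle _) (hD2 w)
    · have : w.valuation K (δ : K) = 1 := by
        by_contra h
        exact hw ((hBm w).mpr h)
      rw [map_mul, this, mul_one]
      exact hle _
  obtain ⟨s, hs⟩ := hint
  exact ⟨s, hnot, hs⟩

end Dr
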