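import Pool.Agent.Lib.MP_f80667_ag.Dr.AdjB1
import Pool.Agent.Lib.MP_f80667_ag.Dr.AdjB2
import Pool.Agent.Lib.MP_f80667_ag.Dr.AdjB3

/-! Squares and norms at an unramified place. -/

open IsDedekindDomain NumberField

namespace Dr

open Hm

theorem parity_prod {k : Type*} [Field k] [Finite k] {T : Type*} [Fintype T]
    (g : T → k) (hg : ∀ u, g u ≠ 0) :
    IsSquare (∏ u, g u) ↔ Even (Nat.card {u : T // ¬ IsSquare (g u)}) := by
  classical
  let _ : Fintype k := Fintype.ofFinite _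
  have h0 : (∏ u, g u) ≠ 0 := Finset.prod_ne_zero_iff.mpr fun u _ => hg u
  rw [← quadraticChar_one_iff_isSquare h0, map_prod]
  have h1 : ∀ u, quadraticChar k (g u) = if IsSquare (g u) then 1 else -1 := by
    intro u
    by_cases h : IsSquare (g u)
    · rw [if_pos h]; exact (quadraticChar_one_iff_isSquare (hg u)).mpr h
    · rw [if_neg h]; exact quadraticChar_neg_one_iff_not_isSquare.mpr h
  simp only [h1]
  rw [Finset.prod_ite, Finset.prod_const_one, one_mul, Finset.prod_const, Nat.card_eq_fintype_card,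
    Fintype.card_subtype]
  exact neg_one_pow_eq_one_iff_even (by norm_num)

variable {F : Type} [Field F] [NumberField F]

variable {K : Type} [Field K] [NumberField K] [Algebra F K]

attribute [local instance] Ideal.Quotient.field in
/-- The case of an integer. -/
theorem norm_sq_int {v : HeightOneSpectrum (𝓞 F)} (h2 : v.valuation F 2 = 1)
    (hv : ∀ u : HeightOneSpectrum (𝓞 K), u.under (𝓞 F) = v → ¬ (v.asIdeal.map (algebraMap (𝓞 F) (𝓞 K)) ≤ u.asIdeal ^ 2))
    (s : 𝓞 K) (hs : ∀ u : HeightOneSpectrum (𝓞 K), u.under (𝓞 F) = v → s ∉ u.asIdeal) :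
    Algebra.intNorm (𝓞 F) (𝓞 K) s ∉ v.asIdeal ∧
    (IsSquare (Ideal.Quotient.mk v.asIdeal (Algebra.intNorm (𝓞 F) (𝓞 K) s)) ↔
      Even (Nat.card {u : {u : HeightOneSpectrum (𝓞 K) // u.under (𝓞 F) = v} //
        ¬ IsSquare (Ideal.Quotient.mk u.1.asIdeal s)})) := by
  classical
  have hvm : v.asIdeal.IsMaximal := v.isMaximal
  let T := {u : HeightOneSpectrum (𝓞 K) // u.under (𝓞 F) = v}
  have hTfin : Finite T := by
    have := (finite_over (L := K) {v}).to_subtype
    refine Finite.of_injective (β := {w : HeightOneSpectrum (𝓞 K) | w.under (𝓞 F) ∈ ({v} : Finset _)})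
      (fun u => ⟨u.1, by simp⟩) ?_
    intro a b h
    exact Subtype.ext (congrArg (fun z : {w : HeightOneSpectrum (𝓞 K) |
      w.under (𝓞 F) ∈ ({v} : Finset _)} => z.1) h)
  let _ : Fintype T := Fintype.ofFinite T
  have hum : ∀ u : T, u.1.asIdeal.IsMaximal := fun u => u.1.isMaximal
  have hlo : ∀ u : T, u.1.asIdeal.LiesOver v.asIdeal := by
    rintro ⟨u, hu⟩
    subst hu
    exact ⟨rfl⟩
  have hkfin : Finite (𝓞 F ⧸ v.asIdeal) := Ideal.finiteQuotientOfFreeOfNeBot v.asIdeal v.ne_bot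
  have hkufin : ∀ u : T, Finite (𝓞 K ⧸ u.1.asIdeal) := fun u =>
    Ideal.finiteQuotientOfFreeOfNeBot u.1.asIdeal u.1.ne_bot
  have hchar : ringChar (𝓞 F ⧸ v.asIdeal) ≠ 2 := by
    intro h
    have h3 : (Ideal.Quotient.mk v.asIdeal 2) = 0 := by
      have := ringChar.charP (𝓞 F ⧸ v.asIdeal)
      rw [h] at this
      have h4 := CharP.cast_eq_zero (𝓞 F ⧸ v.asIdeal) 2
      rw [map_ofNat]
      exact_mod_cast h4
    rw [Ideal.Quotient.eq_zero_iff_mem, ← HeightOneSpectrum.valuation_lt_one_iff_mem (K := F)] at h3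
    have e : algebraMap (𝓞 F) F 2 = 2 := map_ofNat (algebraMap (𝓞 F) F) 2
    have h5 : v.valuation F (algebraMap (𝓞 F) F 2) < 1 := h3
    rw [e, h2] at h5
    exact lt_irrefl _ h5
  have hcop : Pairwise fun i j : T => IsCoprime (i.1.asIdeal) (j.1.asIdeal) := by
    intro i j hij
    rw [Ideal.isCoprime_iff_sup_eq]
    exact i.1.isMaximal.coprime_of_ne j.1.isMaximal (fun h => hij (Subtype.ext (HeightOneSpectrum.ext h)))
  let e : (𝓞 K ⧸ v.asIdeal.map (algebraMap (𝓞 F) (𝓞 K))) ≃+* ∀ u : T, 𝓞 K ⧸ u.1.asIdeal :=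
    (Ideal.quotEquivOfEq (map_eq_iInf hv).symm).trans
      (Ideal.quotientInfRingEquivPiQuotient (fun u : T => u.1.asIdeal) hcop)
  have he : ∀ x : 𝓞 K, e (Ideal.Quotient.mk _ x) = fun u : T => Ideal.Quotient.mk u.1.asIdeal x :=
    fun x => rfl
  have hnorm : Algebra.norm (𝓞 F ⧸ v.asIdeal)
      (Ideal.Quotient.mk (v.asIdeal.map (algebraMap (𝓞 F) (𝓞 K))) s) =
      Algebra.norm (𝓞 F ⧸ v.asIdeal) (e (Ideal.Quotient.mk _ s)) := by
    rw [Algebra.norm_eq_of_equiv_equiv (RingEquiv.refl (𝓞 F ⧸ v.asIdeal)) e ?_]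
    · rfl
    · apply Ideal.Quotient.ringHom_ext
      ext r
      rfl
  have hne : ∀ u : T, Ideal.Quotient.mk u.1.asIdeal s ≠ 0 := fun u h =>
    hs u.1 u.2 (Ideal.Quotient.eq_zero_iff_mem.mp h)
  rw [← Ideal.Quotient.eq_zero_iff_mem (I := v.asIdeal), ← norm_quotient_eq (𝓞 K) v.asIdeal s,
    hnorm, he, norm_pi]
  refine ⟨Finset.prod_ne_zero_iff.mpr fun u _ => by rw [Ne, Algebra.norm_eq_zero_iff]; exact hne u, ?_⟩
  rw [parity_prod _ fun u => ?_]
  · have : ∀ u : T, IsSquare (Algebra.norm (𝓞 F ⧸ v.asIdeal) (Ideal.Quotient.mk u.1.asIdeal s)) ↔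
        IsSquare (Ideal.Quotient.mk u.1.asIdeal s) := fun u => isSquare_norm_iff hchar (hne u)
    simp only [this]
    exact Iff.rfl
  · rw [Ne, Algebra.norm_eq_zero_iff]
    exact hne u

/-- The places above `v` where a unit is not a square. `v` is unramified in `K` and not dyadic. Proof: in
the residue fields: `δ ∉ LSq u` iff the residue is a nonsquare iff its norm to the residue field of `v` is
a nonsquare (finite fields of odd characteristic); the residue of the norm `N_(K/F) δ` is the product of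
the norms of the residues (`𝓞 K / v 𝓞 K` is the product of the residue fields, `v` is unramified). -/
theorem norm_sq {v : HeightOneSpectrum (𝓞 F)} (h2 : v.valuation F 2 = 1)
    (hv : ∀ u : HeightOneSpectrum (𝓞 K), u.under (𝓞 F) = v → ¬ (v.asIdeal.map (algebraMap (𝓞 F) (𝓞 K)) ≤ u.asIdeal ^ 2))
    (δ : Kˣ) (hδ : ∀ u : HeightOneSpectrum (𝓞 K), u.under (𝓞 F) = v → u.valuation K (δ : K) = 1)
    (N : Fˣ) (hN : (N : F) = Algebra.norm F (δ : K)) :
    (Even (Nat.card {u : HeightOneSpectrum (𝓞 K) // u.under (𝓞 F) = v ∧ δ ∉ LSq u}) ↔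
      N ∈ LSq v) := by
  classical
  obtain ⟨d, s, hd, hs⟩ := exists_den v δ (fun u hu => (hδ u hu).le)
  -- `s' = d s`
  set s' : 𝓞 K := algebraMap (𝓞 F) (𝓞 K) d * s with hs'
  have hd0 : algebraMap (𝓞 F) F d ≠ 0 := by
    rw [Ne, map_eq_zero_iff _ (FaithfulSMul.algebraMap_injective _ _)]
    rintro rfl
    exact hd (Submodule.zero_mem _)
  let dF : Fˣ := Units.mk0 _ hd0
  let dK : Kˣ := Units.map (algebraMap F K : F →* K) dF
  have hdK : (dK : K) = algebraMap F K (algebraMap (𝓞 F) F d) := rfl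
  have hs'K : algebraMap (𝓞 K) K s' = ((δ * dK ^ 2 : Kˣ) : K) := by
    rw [hs', map_mul, hs, Units.val_mul, Units.val_pow_eq_pow_val, hdK,
      ← IsScalarTower.algebraMap_apply (𝓞 F) (𝓞 K) K, IsScalarTower.algebraMap_apply (𝓞 F) F K]
    ring
  have hdv : v.valuation F (algebraMap (𝓞 F) F d) = 1 := by
    apply le_antisymm (v.valuation_le_one d)
    rw [← not_lt]
    intro h
    exact hd ((HeightOneSpectrum.valuation_lt_one_iff_mem (K := F) v d).mp h)
  have hdu : ∀ u : HeightOneSpectrum (𝓞 K), u.under (𝓞 F) = v → u.valuation K (dK : K) = 1 := by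
    intro u hu
    have e : (dK : K) = algebraMap (𝓞 K) K (algebraMap (𝓞 F) (𝓞 K) d) := by
      rw [hdK, ← IsScalarTower.algebraMap_apply, ← IsScalarTower.algebraMap_apply]
    rw [e]
    apply le_antisymm (u.valuation_le_one _)
    rw [← not_lt]
    intro h
    have h3 := (HeightOneSpectrum.valuation_lt_one_iff_mem (K := K) u _).mp h
    apply hd
    rw [← hu]
    exact h3
  have hu2 : ∀ u : HeightOneSpectrum (𝓞 K), u.under (𝓞 F) = v → u.valuation K 2 = 1 := by
    intro u hu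
    apply le_antisymm (val2_le u)
    rw [← not_lt]
    intro h
    have e : algebraMap (𝓞 K) K 2 = 2 := map_ofNat (algebraMap (𝓞 K) K) 2
    have e' : algebraMap (𝓞 F) F 2 = 2 := map_ofNat (algebraMap (𝓞 F) F) 2
    rw [← e] at h
    have h3 := (HeightOneSpectrum.valuation_lt_one_iff_mem (K := K) u _).mp h
    have h4 : (2 : 𝓞 F) ∈ v.asIdeal := by
      rw [← hu]
      change algebraMap (𝓞 F) (𝓞 K) 2 ∈ u.asIdeal
      rw [map_ofNat]
      exact h3
    have h5 := (HeightOneSpectrum.valuation_lt_one_iff_mem (K := F) v _).mpr h4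
    change v.valuation F (algebraMap (𝓞 F) F 2) < 1 at h5
    rw [e', h2] at h5
    exact lt_irrefl _ h5
  have hval : ∀ u : HeightOneSpectrum (𝓞 K), u.under (𝓞 F) = v →
      u.valuation K ((δ * dK ^ 2 : Kˣ) : K) = 1 := by
    intro u hu
    rw [Units.val_mul, Units.val_pow_eq_pow_val, map_mul, map_pow, hδ u hu, hdu u hu]
    simp
  have hsn : ∀ u : HeightOneSpectrum (𝓞 K), u.under (𝓞 F) = v → s' ∉ u.asIdeal := by
    intro u hu h
    have h3 := (HeightOneSpectrum.valuation_lt_one_iff_mem (K := K) u _).mpr h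
    change u.valuation K (algebraMap (𝓞 K) K s') < 1 at h3
    rw [hs'K, hval u hu] at h3
    exact lt_irrefl _ h3
  obtain ⟨hnv, hmain⟩ := norm_sq_int h2 hv s' hsn
  -- left side
  have hL : ∀ u : HeightOneSpectrum (𝓞 K), u.under (𝓞 F) = v →
      (δ ∈ LSq u ↔ IsSquare (Ideal.Quotient.mk u.asIdeal s')) := by
    intro u hu
    rw [← mem_LSq_iff_isSquare (hu2 u hu) (hval u hu) (by
      rw [hs'K, sub_self, map_zero]; exact zero_lt_one)]
    constructor
    · intro h
      exact mul_mem h (sq_mem_LSq u dK)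
    · intro h
      have := mul_mem h (inv_mem (sq_mem_LSq u dK))
      rwa [mul_inv_cancel_right] at this
  have hcard : Nat.card {u : HeightOneSpectrum (𝓞 K) // u.under (𝓞 F) = v ∧ δ ∉ LSq u} =
      Nat.card {u : {u : HeightOneSpectrum (𝓞 K) // u.under (𝓞 F) = v} //
        ¬ IsSquare (Ideal.Quotient.mk u.1.asIdeal s')} := by
    refine Nat.card_congr ⟨fun u => ⟨⟨u.1, u.2.1⟩, fun h => u.2.2 ((hL u.1 u.2.1).mpr h)⟩,
      fun u => ⟨u.1.1, u.1.2, fun h => u.2 ((hL u.1.1 u.1.2).mp h)⟩, fun u => rfl, fun u => rfl⟩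
  rw [hcard, ← hmain]
  -- right side
  have hN' : algebraMap (𝓞 F) F (Algebra.intNorm (𝓞 F) (𝓞 K) s') =
      ((N * (dF ^ Module.finrank F K) ^ 2 : Fˣ) : F) := by
    rw [Algebra.algebraMap_intNorm (A := 𝓞 F) (K := F) (L := K) (B := 𝓞 K), hs'K, Units.val_mul,
      Units.val_mul, map_mul, hN, Units.val_pow_eq_pow_val, Units.val_pow_eq_pow_val,
      Units.val_pow_eq_pow_val, map_pow, hdK, Algebra.norm_algebraMap]
    rfl
  have hNv : v.valuation F ((N * (dF ^ Module.finrank F K) ^ 2 : Fˣ) : F) = 1 := by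
    rw [← hN']
    apply le_antisymm (v.valuation_le_one _)
    rw [← not_lt]
    intro h
    exact hnv ((HeightOneSpectrum.valuation_lt_one_iff_mem (K := F) v _).mp h)
  rw [← mem_LSq_iff_isSquare h2 hNv (by rw [hN', sub_self, map_zero]; exact zero_lt_one)]
  constructor
  · intro h
    have := mul_mem h (inv_mem (sq_mem_LSq v (dF ^ Module.finrank F K)))
    rwa [mul_inv_cancel_right] at this
  · intro h
    exact mul_mem h (sq_mem_LSq v _)

end Dr
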