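import Pool.Agent.Lib.MP_f80667_ag.Dr.OutD

/-! Almost all places are unramified. -/

open IsDedekindDomain NumberField

namespace Dr

open Hm

variable {F : Type} [Field F] [NumberField F]

/-- Only finitely many places of `F` are ramified in `K` (they are below a prime divisor of the
different). -/
theorem finite_ram (K : Type) [Field K] [NumberField K] [Algebra F K] :
    {v : HeightOneSpectrum (𝓞 F) | ∃ u : HeightOneSpectrum (𝓞 K), u.under (𝓞 F) = v ∧
      v.asIdeal.map (algebraMap (𝓞 F) (𝓞 K)) ≤ u.asIdeal ^ 2}.Finite := by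
  have h1 : {u : HeightOneSpectrum (𝓞 K) | u.asIdeal ∣ differentIdeal (𝓞 F) (𝓞 K)}.Finite :=
    Ideal.finite_factors differentIdeal_ne_bot
  refine (h1.image fun u => u.under (𝓞 F)).subset ?_
  rintro v ⟨u, rfl, hu⟩
  refine ⟨u, ?_, rfl⟩
  have : (u.under (𝓞 F)).asIdeal.IsMaximal := (u.under (𝓞 F)).isMaximal
  have h2 := pow_sub_one_dvd_differentIdeal (A := 𝓞 F) (B := 𝓞 K) (p := (u.under (𝓞 F)).asIdeal)
    u.asIdeal 2 (u.under (𝓞 F)).ne_bot (Ideal.dvd_iff_le.2 hu)
  rwa [show 2 - 1 = 1 from rfl, pow_one] at h2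

/-- Outside a finite set of places of `F` nothing is ramified in `K`. -/
theorem exists_ram (K : Type) [Field K] [NumberField K] [Algebra F K] :
    ∃ S : Finset (HeightOneSpectrum (𝓞 F)), ∀ v ∉ S, ∀ u : HeightOneSpectrum (𝓞 K),
      u.under (𝓞 F) = v → ¬ (v.asIdeal.map (algebraMap (𝓞 F) (𝓞 K)) ≤ u.asIdeal ^ 2) := by
  refine ⟨(finite_ram (F := F) K).toFinset, fun v hv u hu h => hv ?_⟩
  rw [Set.Finite.mem_toFinset]
  exact ⟨u, hu, h⟩

end Dr
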