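import Pool.Agent.Lib.MP_f80667_ag.Dr.Loc2
import Pool.Agent.Lib.MP_f80667_ag.Hm.NI
import Pool.Agent.Lib.MP_f80667_ag.Hm.WA
import Pool.Agent.Lib.MP_f80667_ag.Hm.GenS

/-! Approximation by global norms and by squares of integers. -/

open IsDedekindDomain NumberField

namespace Dr

open Hm

variable {K : Type} [Field K] [NumberField K]

/-- Elements of given valuation. -/
theorem exists_val_eq (v : HeightOneSpectrum (𝓞 K)) {g : WithZero (Multiplicative ℤ)} (hg : g ≠ 0) :
    ∃ ε : Kˣ, v.valuation K (ε : K) = g := by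
  obtain ⟨π, hπ⟩ := v.valuation_exists_uniformizer K
  have h0 : π ≠ 0 := by
    rintro rfl
    rw [map_zero] at hπ
    exact WithZero.exp_ne_zero hπ.symm
  refine ⟨Units.mk0 π h0 ^ (-WithZero.log g), ?_⟩
  rw [Units.val_zpow_eq_zpow_val, Units.val_mk0, map_zpow₀, hπ, ← WithZero.exp_zsmul]
  rw [zsmul_eq_mul, mul_neg, mul_one, Int.cast_neg, neg_neg, Int.cast_id, WithZero.exp_log hg]

/-- Local norms are near values of the form. -/
theorem exists_form_near {v : HeightOneSpectrum (𝓞 K)} {b c : Kˣ} (hc : c ∈ LNm v b)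
    {g : WithZero (Multiplicative ℤ)} (hg : g ≠ 0) :
    ∃ x y : K, v.valuation K ((x ^ 2 - b * y ^ 2) / c - 1) < g := by
  obtain ⟨ε, rfl⟩ := exists_val_eq v hg
  obtain ⟨x, y, s, hs, h⟩ := mem_LNm.1 hc
  obtain ⟨z, hz⟩ := exists_near v hs ε
  refine ⟨x * z, y * z, ?_⟩
  have hc0 : (c : K) ≠ 0 := c.ne_zero
  have e : ((x * z) ^ 2 - b * (y * z) ^ 2) / c - 1 = (s : K) * (z : K) ^ 2 - 1 := by
    rw [sub_left_inj, div_eq_iff hc0]
    linear_combination (-(z : K) ^ 2) * h
  rw [e]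
  exact hz

/-- Continuity of the form. -/
theorem exists_form_cont (v : HeightOneSpectrum (𝓞 K)) (b x₀ y₀ : K)
    {g : WithZero (Multiplicative ℤ)} (hg : g ≠ 0) :
    ∃ d : WithZero (Multiplicative ℤ), d ≠ 0 ∧ ∀ x y : K, v.valuation K (x - x₀) < d →
      v.valuation K (y - y₀) < d →
        v.valuation K ((x ^ 2 - b * y ^ 2) - (x₀ ^ 2 - b * y₀ ^ 2)) < g := by
  obtain ⟨M, hM1, hMx, hMy, hMb⟩ : ∃ M : WithZero (Multiplicative ℤ), 1 ≤ M ∧
      v.valuation K x₀ ≤ M ∧ v.valuation K y₀ ≤ M ∧ v.valuation K b ≤ M :=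
    ⟨max (max 1 (v.valuation K x₀)) (max (v.valuation K y₀) (v.valuation K b)),
      (le_max_left _ _).trans (le_max_left _ _), (le_max_right _ _).trans (le_max_left _ _),
      (le_max_left _ _).trans (le_max_right _ _), (le_max_right _ _).trans (le_max_right _ _)⟩
  have hM0 : 0 < M := lt_of_lt_of_le zero_lt_one hM1
  have hMM : 0 < M * M := mul_pos hM0 hM0
  have hd : min 1 (g / (M * M)) * (M * M) ≤ g := by
    refine (mul_le_mul_left (min_le_right _ _) _).trans ?_
    rw [div_mul_cancel₀ _ hMM.ne']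
  have key : ∀ x x₁ : K, v.valuation K x₁ ≤ M → v.valuation K (x - x₁) < min 1 (g / (M * M)) →
      v.valuation K (x ^ 2 - x₁ ^ 2) * M < g := by
    intro x x₁ h1 h2
    have e : x ^ 2 - x₁ ^ 2 = (x - x₁) * ((x - x₁) + (x₁ + x₁)) := by ring
    rw [e, map_mul]
    have h3 : v.valuation K ((x - x₁) + (x₁ + x₁)) ≤ M := by
      refine (Valuation.map_add _ _ _).trans (max_le ?_ ?_)
      · exact (h2.le.trans (min_le_left _ _)).trans hM1
      · exact (Valuation.map_add _ _ _).trans (max_le h1 h1)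
    calc v.valuation K (x - x₁) * v.valuation K ((x - x₁) + (x₁ + x₁)) * M
        ≤ v.valuation K (x - x₁) * M * M := mul_le_mul_left (mul_le_mul_right h3 _) _
      _ = v.valuation K (x - x₁) * (M * M) := mul_assoc _ _ _
      _ < min 1 (g / (M * M)) * (M * M) := mul_lt_mul_of_pos_right h2 hMM
      _ ≤ g := hd
  refine ⟨min 1 (g / (M * M)), ?_, fun x y hx hy => ?_⟩
  · rcases min_choice (1 : WithZero (Multiplicative ℤ)) (g / (M * M)) with h | h
    · rw [h]
      exact one_ne_zero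
    · rw [h]
      exact div_ne_zero hg hMM.ne'
  · have e : (x ^ 2 - b * y ^ 2) - (x₀ ^ 2 - b * y₀ ^ 2) =
        (x ^ 2 - x₀ ^ 2) - b * (y ^ 2 - y₀ ^ 2) := by ring
    rw [e]
    refine lt_of_le_of_lt (Valuation.map_sub _ _ _) (max_lt ?_ ?_)
    · refine lt_of_le_of_lt ?_ (key x x₀ hMx hx)
      exact le_mul_of_one_le_right' hM1
    · refine lt_of_le_of_lt ?_ (key y y₀ hMy hy)
      rw [map_mul, mul_comm]
      exact mul_le_mul_right hMb _

/-- Approximation by a global norm. Proof: at `v ∈ S` the element `c v` is near `x² - b y²`, `x`, `y ∈ K`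
(definition of `LNm`); at the real places with `0 < φ b` the form takes both signs; approximate `x`, `y`. -/
theorem approx_norm (b : Kˣ) (S : Finset (HeightOneSpectrum (𝓞 K)))
    (c : HeightOneSpectrum (𝓞 K) → Kˣ) (hc : ∀ v ∈ S, c v ∈ LNm v b) (t : (K →+* ℝ) → ℝ)
    (ht : ∀ φ, t φ ≠ 0) (ht' : ∀ φ : K →+* ℝ, φ b < 0 → 0 < t φ)
    (g : HeightOneSpectrum (𝓞 K) → WithZero (Multiplicative ℤ)) (hg : ∀ v, g v ≠ 0) :
    ∃ n : Kˣ, n ∈ Nrm b ∧ (∀ v ∈ S, v.valuation K ((n : K) / c v - 1) < g v) ∧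
      ∀ φ : K →+* ℝ, 0 < φ n * t φ := by
  classical
  have hg1 : ∀ v, min 1 (g v) ≠ 0 := fun v => by
    rcases min_choice 1 (g v) with h | h
    · rw [h]
      exact one_ne_zero
    · rw [h]
      exact hg v
  -- local solutions
  have h1 : ∀ v, ∃ x y : K, v ∈ S → v.valuation K ((x ^ 2 - b * y ^ 2) / c v - 1) < min 1 (g v) := by
    intro v
    by_cases hv : v ∈ S
    · obtain ⟨x, y, h⟩ := exists_form_near (hc v hv) (hg1 v)
      exact ⟨x, y, fun _ => h⟩
    · exact ⟨0, 0, fun h => absurd h hv⟩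
  choose x₀ y₀ h0 using h1
  have h2 : ∀ v, v.valuation K (c v : K) * min 1 (g v) ≠ 0 := fun v =>
    mul_ne_zero ((v.valuation K).ne_zero_iff.2 (c v).ne_zero) (hg1 v)
  choose d hd0 hd using fun v => exists_form_cont v (b : K) (x₀ v) (y₀ v) (h2 v)
  -- the real precision
  have hb0 : ∀ φ : K →+* ℝ, φ (b : K) ≠ 0 := fun φ => (map_ne_zero φ).2 b.ne_zero
  obtain ⟨δ, hδ, hδ3, hδb⟩ : ∃ δ : ℝ, 0 < δ ∧ δ ≤ 1 / 3 ∧ ∀ φ : K →+* ℝ, δ * |φ (b : K)| ≤ 1 ∧
      δ ≤ |φ (b : K)| := by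
    obtain ⟨D, hD⟩ : ∃ D : ℝ, D = 3 + ∑ φ : K →+* ℝ, (|φ (b : K)| + |φ (b : K)|⁻¹) := ⟨_, rfl⟩
    have h3 : ∀ φ : K →+* ℝ, 0 ≤ |φ (b : K)| + |φ (b : K)|⁻¹ := fun φ => by positivity
    have h4 : 3 ≤ D := by
      rw [hD]
      have := Finset.sum_nonneg fun φ (_ : φ ∈ (Finset.univ : Finset (K →+* ℝ))) => h3 φ
      linarith
    have h5 : ∀ φ : K →+* ℝ, |φ (b : K)| + |φ (b : K)|⁻¹ ≤ D := by
      intro φ
      have h6 := Finset.single_le_sum (fun ψ (_ : ψ ∈ (Finset.univ : Finset (K →+* ℝ))) => h3 ψ)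
        (Finset.mem_univ φ)
      rw [hD]
      linarith
    have hD0 : 0 < D := by linarith
    refine ⟨D⁻¹, inv_pos.2 hD0, ?_, fun φ => ⟨?_, ?_⟩⟩
    · rw [one_div]
      exact inv_anti₀ (by norm_num) h4
    · rw [inv_mul_le_one₀ hD0]
      have h6 : 0 ≤ |φ (b : K)|⁻¹ := by positivity
      linarith [h5 φ]
    · have h7 : 0 < |φ (b : K)| := abs_pos.2 (hb0 φ)
      rw [inv_le_comm₀ hD0 h7]
      linarith [h5 φ]
  obtain ⟨x, hx1, hx2⟩ := wapr S x₀ (fun φ => if 0 < t φ then 1 else 0) d hd0 δ hδ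
  obtain ⟨y, hy1, hy2⟩ := wapr S y₀ (fun φ => if 0 < t φ then 0 else 1) d hd0 δ hδ
  have hS : ∀ v ∈ S, v.valuation K ((x ^ 2 - b * y ^ 2) / c v - 1) < min 1 (g v) := by
    intro v hv
    have hc0 : (c v : K) ≠ 0 := (c v).ne_zero
    have hcv : 0 < v.valuation K (c v : K) := zero_lt_iff.2 ((v.valuation K).ne_zero_iff.2 hc0)
    have e : (x ^ 2 - b * y ^ 2) / c v - 1 =
        ((x ^ 2 - b * y ^ 2) - (x₀ v ^ 2 - b * y₀ v ^ 2)) / c v +
          ((x₀ v ^ 2 - b * y₀ v ^ 2) / c v - 1) := by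
      field_simp
      ring
    rw [e]
    refine lt_of_le_of_lt (Valuation.map_add _ _ _) (max_lt ?_ (h0 v hv))
    rw [map_div₀, div_lt_iff₀ hcv, mul_comm (min 1 (g v))]
    exact hd v x y (hx1 v hv) (hy1 v hv)
  have hR : ∀ φ : K →+* ℝ, 0 < φ (x ^ 2 - b * y ^ 2) * t φ := by
    intro φ
    obtain ⟨h3, h4⟩ := hδb φ
    have h5 := hx2 φ
    have h6 := hy2 φ
    have e : φ (x ^ 2 - b * y ^ 2) = φ x ^ 2 - φ b * φ y ^ 2 := by
      rw [map_sub, map_mul, map_pow, map_pow]
    rw [e]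
    by_cases hp : 0 < t φ
    · rw [if_pos hp] at h5 h6
      rw [sub_zero] at h6
      refine mul_pos ?_ hp
      rw [abs_lt] at h5
      have h7 : 2 / 3 < φ x := by linarith [h5.1]
      have h8 : φ y ^ 2 ≤ δ ^ 2 := by
        rw [← sq_abs]
        exact pow_le_pow_left₀ (abs_nonneg _) h6.le 2
      have h9 : φ b * φ y ^ 2 ≤ |φ (b : K)| * δ ^ 2 :=
        (mul_le_mul_of_nonneg_right (le_abs_self _) (sq_nonneg _)).trans
          (mul_le_mul_of_nonneg_left h8 (abs_nonneg _))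
      have h10 : |φ (b : K)| * δ ^ 2 ≤ δ := by
        have : |φ (b : K)| * δ ^ 2 = (δ * |φ (b : K)|) * δ := by ring
        rw [this]
        nlinarith
      nlinarith
    · have hneg : t φ < 0 := lt_of_le_of_ne (not_lt.1 hp) (ht φ)
      rw [if_neg hp] at h5 h6
      rw [sub_zero] at h5
      refine mul_pos_of_neg_of_neg ?_ hneg
      have hb : 0 < φ (b : K) := by
        rcases lt_or_gt_of_ne (hb0 φ) with h | h
        · exact absurd (ht' φ h) hp
        · exact h
      rw [abs_lt] at h6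
      rw [abs_of_pos hb] at h3 h4
      have h7 : 2 / 3 < φ y := by linarith [h6.1]
      have h8 : φ x ^ 2 ≤ δ ^ 2 := by
        rw [← sq_abs]
        exact pow_le_pow_left₀ (abs_nonneg _) h5.le 2
      have h9 : 4 / 9 < φ y ^ 2 := by nlinarith
      have h10 : φ (b : K) * (4 / 9) < φ b * φ y ^ 2 := mul_lt_mul_of_pos_left h9 hb
      have h11 : δ ^ 2 ≤ φ (b : K) * (1 / 3) := by nlinarith
      nlinarith
  by_cases hn : x ^ 2 - (b : K) * y ^ 2 = 0
  · have hS' : ∀ v ∈ S, False := by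
      intro v hv
      have h := hS v hv
      rw [hn, zero_div, zero_sub, Valuation.map_neg, map_one] at h
      exact absurd (h.trans_le (min_le_left _ _)) (lt_irrefl _)
    have hR' : ∀ φ : K →+* ℝ, False := by
      intro φ
      have h := hR φ
      rw [hn, map_zero, zero_mul] at h
      exact absurd h (lt_irrefl _)
    exact ⟨1, one_mem _, fun v hv => (hS' v hv).elim, fun φ => (hR' φ).elim⟩
  · exact ⟨Units.mk0 _ hn, ⟨x, y, rfl⟩, fun v hv => (hS v hv).trans_le (min_le_right _ _), hR⟩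

/-- Integrality: a square of an integer near `1` at `S` kills the poles. -/
theorem exists_int_sq (S : Finset (HeightOneSpectrum (𝓞 K))) (x : Kˣ)
    (g : HeightOneSpectrum (𝓞 K) → WithZero (Multiplicative ℤ)) (hg : ∀ v, g v ≠ 0) :
    ∃ m : Kˣ, (∀ v ∈ S, v.valuation K ((m : K) - 1) < g v) ∧ ∀ v ∉ S,
      v.valuation K (m ^ 2 * x : K) ≤ 1 := by
  classical
  rcases S.eq_empty_or_nonempty with rfl | hS
  · obtain ⟨a, d, hd, hx⟩ := IsFractionRing.div_surjective (A := 𝓞 K) (x : K)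
    have hd0 : algebraMap (𝓞 K) K d ≠ 0 := by
      rw [Ne, map_eq_zero_iff _ (IsFractionRing.injective (𝓞 K) K)]
      exact nonZeroDivisors.ne_zero hd
    refine ⟨Units.mk0 _ hd0, fun v hv => absurd hv (Finset.notMem_empty v), fun v _ => ?_⟩
    rw [← hx, Units.val_mk0]
    have e : algebraMap (𝓞 K) K d ^ 2 * (algebraMap (𝓞 K) K a / algebraMap (𝓞 K) K d) =
        algebraMap (𝓞 K) K (d * a) := by
      rw [map_mul]
      field_simp
    rw [e]
    exact v.valuation_le_one _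
  · obtain ⟨P, hP⟩ : ∃ P : Finset (HeightOneSpectrum (𝓞 K)), ∀ v, v ∈ P ↔
        v.valuation K (x : K) ≠ 1 ∧ v ∉ S :=
      ⟨(finite_val_ne_one x).toFinset.filter (fun v => v ∉ S), fun v => by
        rw [Finset.mem_filter, Set.Finite.mem_toFinset]
        rfl⟩
    -- the exponents
    have hx0 : ∀ v : HeightOneSpectrum (𝓞 K), v.valuation K (x : K) ≠ 0 := fun v =>
      (v.valuation K).ne_zero_iff.2 x.ne_zero
    obtain ⟨e, he⟩ : ∃ e : HeightOneSpectrum (𝓞 K) → ℕ, e = fun v =>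
        if v ∈ S then (-WithZero.log (g v)).toNat + 1 else (WithZero.log (v.valuation K (x : K))).toNat :=
      ⟨_, rfl⟩
    obtain ⟨m, hm⟩ := IsDedekindDomain.exists_forall_sub_mem_ideal (s := S ∪ P)
      (fun v => v.asIdeal) e (fun v _ => v.prime)
      (fun v _ w _ h e => h (HeightOneSpectrum.ext e)) (fun v => if v.1 ∈ S then 1 else 0)
    have hmS : ∀ v ∈ S, v.valuation K (algebraMap (𝓞 K) K m - 1) ≤
        WithZero.exp (-(((-WithZero.log (g v)).toNat + 1 : ℕ) : ℤ)) := by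
      intro v hv
      have h1 := hm v (Finset.mem_union_left _ hv)
      rw [he] at h1
      simp only [if_pos hv] at h1
      rw [← v.intValuation_le_pow_iff_mem, ← v.valuation_of_algebraMap (K := K)] at h1
      have e1 : algebraMap (𝓞 K) K m - 1 = algebraMap (𝓞 K) K (m - 1) := by rw [map_sub, map_one]
      rw [e1]
      exact h1
    have hmP : ∀ v ∈ P, v.valuation K (algebraMap (𝓞 K) K m) ≤
        WithZero.exp (-((WithZero.log (v.valuation K (x : K))).toNat : ℤ)) := by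
      intro v hv
      have hvS : v ∉ S := ((hP v).1 hv).2
      have h1 := hm v (Finset.mem_union_right _ hv)
      rw [he] at h1
      simp only [if_neg hvS, sub_zero] at h1
      rw [← v.intValuation_le_pow_iff_mem, ← v.valuation_of_algebraMap (K := K)] at h1
      exact h1
    have hm0 : algebraMap (𝓞 K) K m ≠ 0 := by
      intro h
      obtain ⟨v, hv⟩ := hS
      have h1 := hmS v hv
      rw [h, zero_sub, Valuation.map_neg, map_one, ← WithZero.exp_zero, WithZero.exp_le_exp] at h1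
      push_cast at h1
      omega
    refine ⟨Units.mk0 _ hm0, fun v hv => ?_, fun v hv => ?_⟩
    · refine lt_of_le_of_lt (hmS v hv) ?_
      rw [← WithZero.exp_log (hg v), WithZero.exp_lt_exp, WithZero.log_exp]
      push_cast
      omega
    · rw [Units.val_mk0, map_mul, map_pow]
      by_cases hvx : v.valuation K (x : K) = 1
      · rw [hvx, mul_one]
        exact pow_le_one' (v.valuation_le_one _) 2
      · have h1 := hmP v ((hP v).2 ⟨hvx, hv⟩)
        have h2 : v.valuation K (algebraMap (𝓞 K) K m) ^ 2 ≤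
            v.valuation K (algebraMap (𝓞 K) K m) := by
          rw [pow_two]
          exact mul_le_of_le_one_left' (v.valuation_le_one _)
        calc v.valuation K (algebraMap (𝓞 K) K m) ^ 2 * v.valuation K (x : K)
            ≤ WithZero.exp (-((WithZero.log (v.valuation K (x : K))).toNat : ℤ)) *
              v.valuation K (x : K) := mul_le_mul_left (h2.trans h1) _
          _ ≤ 1 := by
            obtain ⟨k, hk⟩ : ∃ k, k = WithZero.log (v.valuation K (x : K)) := ⟨_, rfl⟩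
            rw [← hk]
            have h3 : v.valuation K (x : K) = WithZero.exp k := by
              rw [hk, WithZero.exp_log (hx0 v)]
            rw [h3, ← WithZero.exp_add, ← WithZero.exp_zero, WithZero.exp_le_exp]
            have := Int.self_le_toNat k
            omega

end Dr
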