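import Pool.Agent.Lib.MP_f80667_ag.Dr.RecA
import Pool.Agent.Lib.MP_f80667_ag.Dr.RecB

/-! Elements of number fields with given local symbols and approximate values. -/

open IsDedekindDomain NumberField

namespace Dr

open Hm

variable {K : Type} [Field K] [NumberField K]

/-- **N2.** Proof: `a` from `exists_sym` (`S ⊇` nothing needed); `l v / a ∈ LNm v b` for `v ∈ S`, the signs
`φ a * t φ` are positive at the `φ b < 0`: `n` from `approx_norm` near `l v / a`, with signs `φ a * t φ`;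
`ρ = m² n a` with `m` from `exists_int_sq`. -/
theorem N2 (b : Kˣ) (S : Finset (HeightOneSpectrum (𝓞 K)))
    (l : HeightOneSpectrum (𝓞 K) → Kˣ) (s : (K →+* ℝ) → Prop)
    (H : Even (Nat.card {v : HeightOneSpectrum (𝓞 K) // v ∈ S ∧ l v ∉ LNm v b} +
      Nat.card {φ : K →+* ℝ // φ b < 0 ∧ s φ}))
    (g : HeightOneSpectrum (𝓞 K) → WithZero (Multiplicative ℤ)) (hg : ∀ v, g v ≠ 0) :
    ∃ ρ : Kˣ, (∀ v ∈ S, v.valuation K ((ρ : K) - l v) < g v) ∧ (∀ φ : K →+* ℝ, φ ρ < 0 ↔ s φ) ∧
      ∀ v ∉ S, v.valuation K (ρ : K) ≤ 1 ∧ ρ ∈ LNm v b := by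
  classical
  let t : (K →+* ℝ) → ℝ := fun φ => if s φ then -1 else 1
  have ht : ∀ φ, t φ ≠ 0 := fun φ => by
    simp only [t]
    split_ifs <;> norm_num
  have hts : ∀ φ, t φ < 0 ↔ s φ := fun φ => by
    simp only [t]
    by_cases h : s φ
    · rw [if_pos h]
      exact ⟨fun _ => h, fun _ => by norm_num⟩
    · rw [if_neg h]
      exact ⟨fun h1 => absurd h1 (by norm_num), fun h1 => absurd h1 h⟩
  obtain ⟨a, ha1, ha2, ha3⟩ := exists_sym b S l t ht (by simpa only [hts] using H)
  let c : HeightOneSpectrum (𝓞 K) → Kˣ := fun v => l v * a⁻¹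
  have hc : ∀ v ∈ S, c v ∈ LNm v b := by
    intro v hv
    rw [LNm_mul_iff, inv_mem_iff]
    exact (ha1 v hv).symm
  let G : HeightOneSpectrum (𝓞 K) → WithZero (Multiplicative ℤ) := fun v =>
    min 1 (g v * (v.valuation K (l v : K))⁻¹)
  have hl0 : ∀ v : HeightOneSpectrum (𝓞 K), v.valuation K (l v : K) ≠ 0 := fun v =>
    (v.valuation K).ne_zero_iff.2 (l v).ne_zero
  have hG : ∀ v, G v ≠ 0 := fun v => by
    have h1 : (0 : WithZero (Multiplicative ℤ)) < G v := lt_min zero_lt_one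
      (zero_lt_iff.2 (mul_ne_zero (hg v) (inv_ne_zero (hl0 v))))
    exact h1.ne'
  obtain ⟨n, hn1, hn2, hn3⟩ := approx_norm b S c hc (fun φ => φ (a : K) * t φ)
    (fun φ => mul_ne_zero ((map_ne_zero φ).2 a.ne_zero) (ht φ)) ha3 G hG
  obtain ⟨m, hm1, hm2⟩ := exists_int_sq S (n * a) G hG
  refine ⟨m ^ 2 * (n * a), fun v hv => ?_, fun φ => ?_, fun v hv => ⟨?_, ?_⟩⟩
  · have h1 := hn2 v hv
    have h2 := hm1 v hv
    have hc0 : (c v : K) ≠ 0 := (c v).ne_zero
    have ha0 : (a : K) ≠ 0 := a.ne_zero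
    have hcv : (c v : K) = (l v : K) * (a : K)⁻¹ := by
      simp only [c, Units.val_mul, Units.val_inv_eq_inv_val]
    have e1 : ((m ^ 2 * (n * a) : Kˣ) : K) - l v =
        (l v : K) * (((m : K) - 1) * (((m : K) - 1) + 2) * (((n : K) / c v - 1) + 1) +
          ((n : K) / c v - 1)) := by
      have h3 : (l v : K) = c v * a := by rw [hcv]; field_simp
      rw [h3]
      push_cast
      field_simp
      ring
    have h3 : v.valuation K ((m : K) - 1) ≤ 1 := (h2.le.trans (min_le_left _ _))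
    have h4 : v.valuation K ((n : K) / c v - 1) ≤ 1 := (h1.le.trans (min_le_left _ _))
    have h5 : v.valuation K (2 : K) ≤ 1 := by
      have e : algebraMap (𝓞 K) K 2 = 2 := map_ofNat (algebraMap (𝓞 K) K) 2
      rw [← e]
      exact v.valuation_le_one (K := K) (2 : 𝓞 K)
    have h6 : v.valuation K (((m : K) - 1) + 2) ≤ 1 :=
      (Valuation.map_add _ _ _).trans (max_le h3 h5)
    have h7 : v.valuation K (((n : K) / c v - 1) + 1) ≤ 1 :=
      (Valuation.map_add _ _ _).trans (max_le h4 (by rw [map_one]))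
    have h8 : v.valuation K (((m : K) - 1) * (((m : K) - 1) + 2) * (((n : K) / c v - 1) + 1) +
        ((n : K) / c v - 1)) < G v := by
      refine lt_of_le_of_lt (Valuation.map_add _ _ _) (max_lt ?_ h1)
      rw [map_mul, map_mul]
      calc _ ≤ v.valuation K ((m : K) - 1) * 1 * 1 :=
            mul_le_mul' (mul_le_mul' le_rfl h6) h7
        _ = v.valuation K ((m : K) - 1) := by rw [mul_one, mul_one]
        _ < G v := h2
    rw [e1, map_mul, mul_comm]
    exact (lt_mul_inv_iff₀ (zero_lt_iff.2 (hl0 v))).1 (lt_of_lt_of_le h8 (min_le_right _ _))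
  · have h1 := hn3 φ
    have hm0 : 0 < φ (m : K) ^ 2 := by
      have : φ (m : K) ≠ 0 := (map_ne_zero φ).2 m.ne_zero
      positivity
    have e1 : φ ((m ^ 2 * (n * a) : Kˣ) : K) = φ (m : K) ^ 2 * (φ (n : K) * φ (a : K)) := by
      push_cast
      rw [map_mul, map_mul, map_pow]
    rw [e1, ← hts]
    have h2 : 0 < (φ (n : K) * φ (a : K)) * t φ := by
      rw [mul_assoc]
      exact h1
    constructor
    · intro h3
      have h4 : φ (n : K) * φ (a : K) < 0 := by
        by_contra h5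
        push Not at h5
        exact absurd h3 (not_lt.2 (mul_nonneg hm0.le h5))
      by_contra h5
      push Not at h5
      exact absurd h2 (not_lt.2 (mul_nonpos_of_nonpos_of_nonneg h4.le h5))
    · intro h3
      have h4 : φ (n : K) * φ (a : K) < 0 := by
        by_contra h5
        push Not at h5
        exact absurd h2 (not_lt.2 (mul_nonpos_of_nonneg_of_nonpos h5 h3.le))
      exact mul_neg_of_pos_of_neg hm0 h4
  · have h1 := hm2 v hv
    push_cast at h1 ⊢
    exact h1
  · refine mul_mem ?_ (mul_mem (Nrm_le_LNm v b hn1) (ha2 v hv))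
    exact LSq_le_LNm v b (sq_mem_LSq v m)

end Dr
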