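import Pool.Agent.Lib.MP_f80667_ag.Dr.AdjA
import Pool.Agent.Lib.MP_f80667_ag.Dr.AdjB
import Pool.Agent.Lib.MP_f80667_ag.Dr.AdjC
import Pool.Agent.Lib.MP_f80667_ag.Dr.Rec
import Pool.Agent.Lib.MP_f80667_ag.Hm.F1B
import Pool.Agent.Lib.MP_f80667_ag.Hm.F1B

/-! Elements of number fields with given local symbols: the output of the arithmetic part. -/

open IsDedekindDomain NumberField

namespace Dr

open Hm

section aux

variable {F : Type} [Field F] [NumberField F] {K : Type} [Field K] [NumberField K] [Algebra F K]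

/-- a number which is a unit at a place is a unit at the places above it -/
theorem out_val (u : HeightOneSpectrum (𝓞 K)) {x : F}
    (h : (u.under (𝓞 F)).valuation F x = 1) : u.valuation K (algebraMap F K x) = 1 := by
  have hlo : u.asIdeal.LiesOver (u.under (𝓞 F)).asIdeal := ⟨rfl⟩
  rw [← HeightOneSpectrum.valuation_liesOver K (u.under (𝓞 F)) u x, h, one_pow]

theorem out_two (u : HeightOneSpectrum (𝓞 K)) (h : (u.under (𝓞 F)).valuation F 2 = 1) :
    u.valuation K 2 = 1 := by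
  have h1 := out_val u h
  rwa [map_ofNat] at h1

/-- the number of the places where a number of odd valuation is not a norm -/
theorem out_nF {v : HeightOneSpectrum (𝓞 F)} (h2 : v.valuation F 2 = 1)
    (hv : ∀ u : HeightOneSpectrum (𝓞 K), u.under (𝓞 F) = v →
      ¬ (v.asIdeal.map (algebraMap (𝓞 F) (𝓞 K)) ≤ u.asIdeal ^ 2)) (a δ : Kˣ)
    (hδ : ∀ u : HeightOneSpectrum (𝓞 K), u.under (𝓞 F) = v → u.valuation K (δ : K) = 1)
    (ha : ∀ u : HeightOneSpectrum (𝓞 K), u.under (𝓞 F) = v →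
      ∃ m : ℤ, Odd m ∧ u.valuation K (a : K) = WithZero.exp m)
    (N : Fˣ) (hN : (N : F) = Algebra.norm F (δ : K)) :
    Even (nF v a δ) ↔ N ∈ LSq v := by
  rw [← norm_sq h2 hv δ hδ N hN, nF]
  have h1 : ∀ u : HeightOneSpectrum (𝓞 K),
      (u.under (𝓞 F) = v ∧ a ∉ LNm u δ) ↔ (u.under (𝓞 F) = v ∧ δ ∉ LSq u) := by
    intro u
    refine and_congr_right fun hu => ?_
    constructor
    · intro h3 h4
      exact h3 (LNm_eq_top h4 a)
    · intro h3
      obtain ⟨m, hm, hm'⟩ := ha u hu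
      exact odd_notMem_LNm (out_two u (by rw [hu]; exact h2)) (hδ u hu) h3 hm hm'
  simp only [h1]

open Classical in
/-- the places above a finite set of places where given elements are not norms -/
theorem out_sum (δ : Kˣ) (T : Finset (HeightOneSpectrum (𝓞 F)))
    (l : HeightOneSpectrum (𝓞 F) → Kˣ) :
    Nat.card {u : HeightOneSpectrum (𝓞 K) // u ∈ SL K T ∧ l (u.under (𝓞 F)) ∉ LNm u δ} =
      ∑ v ∈ T, nF v (l v) δ := by
  have h1 : Nat.card {u : HeightOneSpectrum (𝓞 K) // u ∈ SL K T ∧ l (u.under (𝓞 F)) ∉ LNm u δ} =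
      ((SL K T).filter fun u => l (u.under (𝓞 F)) ∉ LNm u δ).card :=
    Nat.subtype_card _ fun u => Finset.mem_filter
  rw [h1, Finset.card_eq_sum_card_fiberwise (f := fun u : HeightOneSpectrum (𝓞 K) => u.under (𝓞 F))
    (t := T) (fun u hu => mem_SL.1 (Finset.mem_filter.1 hu).1)]
  refine Finset.sum_congr rfl fun v hv => ?_
  rw [nF]
  symm
  refine Nat.subtype_card _ fun u => ?_
  rw [Finset.mem_filter, Finset.mem_filter, mem_SL]
  constructor
  · rintro ⟨⟨-, h3⟩, rfl⟩
    exact ⟨rfl, h3⟩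
  · rintro ⟨rfl, h3⟩
    exact ⟨⟨hv, h3⟩, rfl⟩

end aux

/-- **Output of the arithmetic part.** `K i` (`i ∈ ι` finite): extensions of the number field `F` (the
residue fields of the closed points where the member of the pencil is degenerate), `δ i ∈ K iˣ` (its
discriminant). `S`: finite set of places of `F` containing the dyadic ones, `δ i` is a unit outside `S`.
`a v i ∈ K iˣ`: given local values; outside `S` their valuations at the places above `v` are odd.
`s i φ`: the prescribed sign at the real embedding `φ` is negative. If the sum condition `H` holds, then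
there are a finite set `S' ⊇ S` and `ρ i ∈ K iˣ` near `a v i` at all places above `v ∈ S'`, with the
prescribed signs, integral and local norms of `K i(√(δ i))` at all other places.

Proof: `adj` for `N i = N_(K i/F) (δ i)`, `S₀` = `S` and the places which ramify in some `K i`
(`finite_ram`), `c i` the sum in `H`; at `v ∉ S` an element of odd valuation is a local norm iff `δ i ∈ LSq u`
(`odd_notMem_LNm`, `Hm.LNm_eq_top`), so `nF v (a v i) (δ i)` has the parity of `N i ∉ LSq v`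
(`norm_sq`); then `N2` for every `i` with the set of the places above `S' = S ∪ V`. -/
theorem out {F : Type} [Field F] [NumberField F] {ι : Type} [Fintype ι] (K : ι → Type)
    [∀ i, Field (K i)] [∀ i, NumberField (K i)] [∀ i, Algebra F (K i)] (δ : ∀ i, (K i)ˣ)
    (S : Finset (HeightOneSpectrum (𝓞 F)))
    (hS2 : ∀ v ∉ S, v.valuation F 2 = 1)
    (hSδ : ∀ i (u : HeightOneSpectrum (𝓞 (K i))), u.under (𝓞 F) ∉ S →
      u.valuation (K i) (δ i : K i) = 1)
    (a : HeightOneSpectrum (𝓞 F) → ∀ i, (K i)ˣ)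
    (ha : ∀ i (u : HeightOneSpectrum (𝓞 (K i))), u.under (𝓞 F) ∉ S →
      ∃ m : ℤ, Odd m ∧ u.valuation (K i) (a (u.under (𝓞 F)) i : K i) = WithZero.exp m)
    (s : ∀ i, (K i →+* ℝ) → Prop)
    (H : ∀ I : Finset ι, IsSquare (∏ i ∈ I, Algebra.norm F (δ i : K i)) →
      Even (∑ i ∈ I, (∑ v ∈ S, nF v (a v i) (δ i) + nR (δ i) (s i))))
    (ε : ∀ i, HeightOneSpectrum (𝓞 (K i)) → WithZero (Multiplicative ℤ)) (hε : ∀ i u, ε i u ≠ 0) :
    ∃ (S' : Finset (HeightOneSpectrum (𝓞 F))) (ρ : ∀ i, (K i)ˣ), S ⊆ S' ∧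
      (∀ i (u : HeightOneSpectrum (𝓞 (K i))), u.under (𝓞 F) ∈ S' →
        u.valuation (K i) ((ρ i : K i) - a (u.under (𝓞 F)) i) < ε i u) ∧
      (∀ i (φ : K i →+* ℝ), φ (ρ i) < 0 ↔ s i φ) ∧
      ∀ i (u : HeightOneSpectrum (𝓞 (K i))), u.under (𝓞 F) ∉ S' →
        u.valuation (K i) (ρ i : K i) ≤ 1 ∧ ρ i ∈ Hm.LNm u (δ i) := by
  classical
  have hfin : ∀ i, FiniteDimensional F (K i) := fun i =>
    Module.Finite.of_restrictScalars_finite ℚ F (K i)
  have hne : ∀ i, Algebra.norm F (δ i : K i) ≠ 0 := fun i =>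
    Algebra.norm_ne_zero_iff.2 (δ i).ne_zero
  obtain ⟨N, hN⟩ : ∃ N : ι → Fˣ, ∀ i, (N i : F) = Algebra.norm F (δ i : K i) :=
    ⟨fun i => Units.mk0 _ (hne i), fun i => rfl⟩
  choose R hR using fun i => exists_ram (F := F) (K i)
  obtain ⟨V, hV, hVe⟩ := adj N (S ∪ Finset.univ.biUnion R)
    (fun i => ∑ v ∈ S, nF v (a v i) (δ i) + nR (δ i) (s i)) (fun I hI => H I (by
      obtain ⟨t, ht⟩ := hI
      refine ⟨t, ?_⟩
      have h1 := congrArg (fun z : Fˣ => (z : F)) ht
      simp only [Units.val_mul] at h1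
      rw [← h1, Units.coe_prod]
      exact Finset.prod_congr rfl fun i _ => (hN i).symm))
  have hVS : ∀ v ∈ V, v ∉ S := fun v hv h => hV v hv (Finset.mem_union_left _ h)
  have hVR : ∀ v ∈ V, ∀ i, v ∉ R i := fun v hv i h =>
    hV v hv (Finset.mem_union_right _ (Finset.mem_biUnion.2 ⟨i, Finset.mem_univ i, h⟩))
  have hdisj : Disjoint S V := Finset.disjoint_left.2 fun v hv hv' => hVS v hv' hv
  -- the parity at the auxiliary places
  have hpar : ∀ i, ((∑ v ∈ V, nF v (a v i) (δ i) : ℕ) : ZMod 2) =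
      (Nat.card {v : HeightOneSpectrum (𝓞 F) // v ∈ V ∧ N i ∉ LSq v} : ZMod 2) := by
    intro i
    have h1 : Nat.card {v : HeightOneSpectrum (𝓞 F) // v ∈ V ∧ N i ∉ LSq v} =
        (V.filter fun v => N i ∉ LSq v).card := Nat.subtype_card _ fun v => Finset.mem_filter
    rw [h1, Nat.cast_sum, Finset.card_filter, Nat.cast_sum]
    refine Finset.sum_congr rfl fun v hv => ?_
    have h3 := out_nF (hS2 v (hVS v hv)) (hR i v (hVR v hv i)) (a v i) (δ i)
      (fun u hu => hSδ i u (by rw [hu]; exact hVS v hv))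
      (fun u hu => by
        have h4 := ha i u (by rw [hu]; exact hVS v hv)
        rwa [hu] at h4) (N i) (hN i)
    by_cases h5 : N i ∈ LSq v
    · rw [if_neg (not_not.2 h5), Nat.cast_zero]
      exact (ZMod.natCast_eq_zero_iff_even).2 (h3.2 h5)
    · rw [if_pos h5, Nat.cast_one]
      have h6 : ¬ Even (nF v (a v i) (δ i)) := fun h => h5 (h3.1 h)
      exact (ZMod.natCast_eq_one_iff_odd).2 (Nat.not_even_iff_odd.1 h6)
  have key : ∀ i, ∃ ρ : (K i)ˣ,
      (∀ u ∈ SL (K i) (S ∪ V), u.valuation (K i) ((ρ : K i) - a (u.under (𝓞 F)) i) < ε i u) ∧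
      (∀ φ : K i →+* ℝ, φ ρ < 0 ↔ s i φ) ∧
      ∀ u ∉ SL (K i) (S ∪ V), u.valuation (K i) (ρ : K i) ≤ 1 ∧ ρ ∈ LNm u (δ i) := by
    intro i
    refine N2 (δ i) (SL (K i) (S ∪ V)) (fun u => a (u.under (𝓞 F)) i) (s i) ?_ (ε i) (hε i)
    rw [out_sum (δ i) (S ∪ V) (fun v => a v i), Finset.sum_union hdisj]
    have h1 := (ZMod.natCast_eq_zero_iff_even).2 (hVe i)
    rw [← ZMod.natCast_eq_zero_iff_even]
    rw [← h1]
    push_cast
    have h3 := hpar i
    push_cast at h3
    rw [h3, nR]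
    ring
  choose ρ h1 h3 h4 using key
  refine ⟨S ∪ V, ρ, Finset.subset_union_left, fun i u hu => h1 i u (mem_SL.2 hu), h3,
    fun i u hu => h4 i u fun h => hu (mem_SL.1 h)⟩

end Dr
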