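import Pool.Agent.Lib.MP_f80667_ag.Dr.Zc
import Pool.Agent.Lib.MP_f80667_ag.Dp.Datum

/-! The Lagrangian for a local datum. -/

open Polynomial IntermediateField

namespace Dr

open ZC Tq Dp

universe u

section aux

variable {k : Type*} [Field k] {L : Type*} [CommRing L] [Algebra k L]

/-- The polar form of a member as a dot product. -/
theorem mB_dot (A B : Matrix (Fin 5) (Fin 5) k) (t : L) (x y : Fin 5 → L) :
    mB A B 1 (-t) x y = dotProduct y (((A + A.transpose).map (algebraMap k L) -
      t • (B + B.transpose).map (algebraMap k L)).mulVec x) := by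
  have h1 : ∀ H : Matrix (Fin 5) (Fin 5) k, bv H x y =
      dotProduct y (((H + H.transpose).map (algebraMap k L)).mulVec x) := by
    intro H
    simp only [bv, dotProduct, Matrix.mulVec, Matrix.map_apply, Matrix.add_apply,
      Matrix.transpose_apply, map_add, Finset.mul_sum, add_mul, mul_add, Finset.sum_add_distrib]
    rw [add_comm]
    congr 1
    · refine Finset.sum_congr rfl fun i _ => Finset.sum_congr rfl fun j _ => ?_
      ring
    · rw [Finset.sum_comm]
      refine Finset.sum_congr rfl fun i _ => Finset.sum_congr rfl fun j _ => ?_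
      ring
  rw [mB, h1, h1, Matrix.sub_mulVec, dotProduct_sub, Matrix.smul_mulVec, dotProduct_smul,
    smul_eq_mul]
  ring

/-- A nondegenerate member: the characteristic polynomial does not vanish. -/
theorem chp_ne {M : Type*} [Field M] [Algebra k M] {A B : Matrix (Fin 5) (Fin 5) k} {t : M}
    (h : Dp.ND A B (1 : M) (-t)) : aeval t (Dq.chp A B) ≠ 0 := by
  intro h0
  rw [aeval_chp] at h0
  obtain ⟨v, hv, hG⟩ := Matrix.exists_mulVec_eq_zero_iff.2 h0
  obtain ⟨y, hy⟩ := h v hv
  apply hy
  rw [mB_dot, hG, dotProduct_zero]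

end aux

variable {k : Type u} [Field k] [CharZero k] {Ω : Type u} [Field Ω] [Algebra k Ω]
  [IsAlgClosure k Ω] {A B : Matrix (Fin 5) (Fin 5) k}

/-- A line over `k⟮x⟯` gives one over `k[X] / (minpoly x)`; the member is nondegenerate. Proof:
`IntermediateField.adjoinRootEquivAdjoin`; `ND` over the field gives `aeval (root) chp ≠ 0`
(`aeval_chp`), so the irreducible polynomial does not divide `chp`. -/
theorem root_ln {x : Ω} {t : Projectivization k⟮x⟯ (Fin (5 * 5) → k⟮x⟯)} (h : Root A B x t) :
    Ln A B (AdjoinRoot.root (minpoly k x)) ∧ IsCoprime (Dq.chp A B) (minpoly k x) := by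
  obtain ⟨⟨p, y, hl⟩, hND⟩ := h
  have hx : IsIntegral k x := dat_int x
  let e := IntermediateField.adjoinRootEquivAdjoin k hx
  have he : e (AdjoinRoot.root (minpoly k x)) = AdjoinSimple.gen k x :=
    IntermediateField.adjoinRootEquivAdjoin_apply_root k hx
  have he' : e.symm (AdjoinSimple.gen k x) = AdjoinRoot.root (minpoly k x) := by
    rw [← he, AlgEquiv.symm_apply_apply]
  have h1 : e.symm (1 : k⟮x⟯) = 1 := map_one _
  have h2 : e.symm (-AdjoinSimple.gen k x) = -AdjoinRoot.root (minpoly k x) := by
    rw [map_neg, he']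
  constructor
  · refine ⟨fun i => e.symm (p i), fun i => e.symm (y i), ?_, ?_, ?_, ?_⟩
    · rw [LinearIndependent.pair_iff]
      intro a b hab
      have h3 : e a • p + e b • y = 0 := by
        funext i
        have h4 := congrArg e (congrFun hab i)
        simpa using h4
      have h5 := LinearIndependent.pair_iff.1 hl.ind _ _ h3
      exact ⟨by simpa using h5.1, by simpa using h5.2⟩
    · have h3 := mQ_hom (A := A) (B := B) (e.symm : k⟮x⟯ →ₐ[k] AdjoinRoot (minpoly k x)) 1
        (-AdjoinSimple.gen k x) p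
      rw [hl.qp, map_zero] at h3
      simpa [h1, h2] using h3
    · have h3 := mQ_hom (A := A) (B := B) (e.symm : k⟮x⟯ →ₐ[k] AdjoinRoot (minpoly k x)) 1
        (-AdjoinSimple.gen k x) y
      rw [hl.qx, map_zero] at h3
      simpa [h1, h2] using h3
    · have h3 := mB_hom (A := A) (B := B) (e.symm : k⟮x⟯ →ₐ[k] AdjoinRoot (minpoly k x)) 1
        (-AdjoinSimple.gen k x) p y
      rw [hl.b, map_zero] at h3
      simpa [h1, h2] using h3
  · rw [isCoprime_comm, (minpoly.irreducible hx).coprime_iff_not_dvd]
    intro hd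
    have h3 := chp_ne hND
    apply h3
    obtain ⟨q, hq⟩ := hd
    have h4 : aeval (AdjoinSimple.gen k x) (minpoly k x) = 0 := by
      have h5 := minpoly.aeval k (AdjoinSimple.gen k x)
      rwa [IntermediateField.minpoly_gen] at h5
    rw [hq, map_mul, h4, zero_mul]

/-- **The Lagrangian for a datum.** Proof: `zc` for the minimal polynomials of the `x j`. -/
theorem zc_dat (w : Fin 5 → k) {D : k[X]} (hD : D.Monic) (hn : D.natDegree = 5) {c : k}
    (hc : c ≠ 0) (hf : Dq.chp A B = C c * D) (hδ : IsUnit (AdjoinRoot.mk D (dl A B w))) {P : k[X]}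
    {z : Projectivization Ω (Fin 5 → Ω) →₀ ℤ} (h : Dat A B P z) (hN : Even P.natDegree) :
    IsCoprime P D ∧ ∃ W, Lag (tr ((-c) • Rk LinearMap.id hD)
      (qnF (AdjoinRoot.mk D (dl A B w)) (AdjoinRoot.mk D P))) W := by
  obtain ⟨m, x, t, hx, hP, hR, -⟩ := h
  have hcop : ∀ j, IsCoprime D (minpoly k (x j)) := by
    intro j
    have h1 := (root_ln (hR j)).2
    rw [hf] at h1
    exact IsCoprime.of_mul_left_right h1
  refine ⟨?_, ?_⟩
  · rw [hP]
    exact IsCoprime.prod_left fun j _ => (hcop j).symm
  · exact zc two_ne_zero w hD hn hc hf hδ (fun j => minpoly k (x j))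
      (fun j => minpoly.monic (dat_int (x j))) (fun j => minpoly.irreducible (dat_int (x j)))
      (fun i j hij => hx i j hij) hcop (fun j => (root_ln (hR j)).1) hP hN

end Dr
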