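import Pool.Agent.Lib.MP_f80667_ag.Dr.Loc3

/-! Adjustment at auxiliary places. -/

open IsDedekindDomain NumberField

namespace Dr

open Hm

variable {F : Type} [Field F] [NumberField F]

open Classical in
/-- The class of a number modulo the local squares. -/
noncomputable def ph (v : HeightOneSpectrum (𝓞 F)) (x : Fˣ) : ZMod 2 := if x ∈ LSq v then 0 else 1

theorem ph_eq_zero {v : HeightOneSpectrum (𝓞 F)} {x : Fˣ} : ph v x = 0 ↔ x ∈ LSq v := by
  unfold ph
  split_ifs with h <;> simp [h]

theorem ph_mul {v : HeightOneSpectrum (𝓞 F)} (h2 : v.valuation F 2 = 1) {x y : Fˣ}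
    (hx : v.valuation F (x : F) = 1) (hy : v.valuation F (y : F) = 1) :
    ph v (x * y) = ph v x + ph v y := by
  by_cases h : x ∈ LSq v
  · have h0 : ph v x = 0 := ph_eq_zero.2 h
    rw [h0, zero_add]
    unfold ph
    rw [Subgroup.mul_mem_cancel_left _ h]
  · by_cases h' : y ∈ LSq v
    · have h0 : ph v y = 0 := ph_eq_zero.2 h'
      rw [h0, add_zero]
      unfold ph
      rw [Subgroup.mul_mem_cancel_right _ h']
    · rw [ph_eq_zero.2 (mul_mem_LSq h2 hx hy h h')]
      unfold ph
      rw [if_neg h, if_neg h']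
      decide

theorem ph_prod {ι : Type} {v : HeightOneSpectrum (𝓞 F)} (h2 : v.valuation F 2 = 1) (N : ι → Fˣ)
    (hN : ∀ i, v.valuation F (N i : F) = 1) (I : Finset ι) :
    v.valuation F ((∏ i ∈ I, N i : Fˣ) : F) = 1 ∧ ph v (∏ i ∈ I, N i) = ∑ i ∈ I, ph v (N i) := by
  classical
  induction I using Finset.induction_on with
  | empty => simp [ph_eq_zero, one_mem]
  | insert i I hi ih =>
    rw [Finset.prod_insert hi, Finset.sum_insert hi]
    refine ⟨?_, ?_⟩
    · rw [Units.val_mul, map_mul, hN i, ih.1, one_mul]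
    · rw [ph_mul h2 (hN i) ih.1, ih.2]

/-- **Adjustment.** Proof: the vectors `(N i ∉ LSq v)_i ∈ 𝔽₂^ι` for `v` outside `S₀` span the orthogonal of
the set of the `I ⊆ ι` with `∏_(i ∈ I) N i` a square: if `I` is orthogonal to all of them then the product
is a local square at almost all places (`Hm.mul_mem_LSq` at the places where all `N i` are units and not
dyadic), so a square (`Hm.exists_nonsplit`); duality of finite dimensional vector spaces over `𝔽₂`. A
representation as a sum of distinct vectors can be realised by distinct places (or: every vector which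
occurs, occurs for a place outside every finite set — not needed: take the places of a minimal
representation). -/
theorem adj {ι : Type} [Fintype ι] (N : ι → Fˣ) (S₀ : Finset (HeightOneSpectrum (𝓞 F))) (c : ι → ℕ)
    (H : ∀ I : Finset ι, IsSquare (∏ i ∈ I, N i) → Even (∑ i ∈ I, c i)) :
    ∃ V : Finset (HeightOneSpectrum (𝓞 F)), (∀ v ∈ V, v ∉ S₀) ∧
      ∀ i, Even (c i + Nat.card {v : HeightOneSpectrum (𝓞 F) // v ∈ V ∧ N i ∉ LSq v}) := by
  classical
  obtain ⟨S, hS⟩ : ∃ S : Finset (HeightOneSpectrum (𝓞 F)), S = S₀ ∪ (finite_dyadic (K := F)).toFinset ∪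
    Finset.univ.biUnion fun i => (finite_val_ne_one (N i)).toFinset := ⟨_, rfl⟩
  have hS0 : ∀ v, v ∉ S → v ∉ S₀ ∧ v.valuation F 2 = 1 ∧ ∀ i, v.valuation F (N i : F) = 1 := by
    intro v hv
    rw [hS] at hv
    simp only [Finset.mem_union, Set.Finite.mem_toFinset, Set.mem_ofPred_eq, not_or, not_not,
      Finset.mem_biUnion, Finset.mem_univ, true_and, not_exists] at hv
    exact ⟨hv.1.1, hv.1.2, hv.2⟩
  let vec : {v : HeightOneSpectrum (𝓞 F) // v ∉ S} → (ι → ZMod 2) := fun v i => ph v.1 (N i)
  have key : (fun i => (c i : ZMod 2)) ∈ Submodule.span (ZMod 2) (Set.range vec) := by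
    by_contra hc
    obtain ⟨f, hf1, hf2⟩ := Submodule.exists_le_ker_of_notMem hc
    have hf : ∀ x : ι → ZMod 2, f x = ∑ i ∈ Finset.univ.filter (fun i => f (Pi.single i 1) = 1), x i := by
      intro x
      rw [Finset.sum_filter]
      conv_lhs => rw [← Finset.univ_sum_single x, map_sum]
      refine Finset.sum_congr rfl fun i _ => ?_
      have e : (Pi.single i (x i) : ι → ZMod 2) = x i • Pi.single i 1 := by
        rw [← Pi.single_smul, smul_eq_mul, mul_one]
      rw [e, map_smul, smul_eq_mul]
      split_ifs with h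
      · rw [h, mul_one]
      · have h0 : f (Pi.single i 1) = 0 := by
          generalize f (Pi.single i 1) = t at h
          revert t
          decide
        rw [h0, mul_zero]
    have hI : IsSquare (∏ i ∈ Finset.univ.filter (fun i => f (Pi.single i 1) = 1), N i) := by
      by_contra hns
      obtain ⟨v, hv, hv'⟩ := exists_nonsplit _ hns S
      apply hv'
      obtain ⟨-, h2, h3⟩ := hS0 v hv
      rw [← ph_eq_zero, (ph_prod h2 N h3 _).2]
      have h4 : f (vec ⟨v, hv⟩) = 0 := hf2 (Submodule.subset_span ⟨_, rfl⟩)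
      rw [hf] at h4
      exact h4
    have h5 := H _ hI
    apply hf1
    rw [hf, ← Nat.cast_sum]
    exact (ZMod.natCast_eq_zero_iff_even).2 h5
  obtain ⟨l, hl⟩ := (Finsupp.mem_span_range_iff_exists_finsupp).1 key
  refine ⟨l.support.map (Function.Embedding.subtype _), ?_, ?_⟩
  · intro v hv
    obtain ⟨w, -, rfl⟩ := Finset.mem_map.1 hv
    exact (hS0 w.1 w.2).1
  · intro i
    have h1 : Nat.card {v : HeightOneSpectrum (𝓞 F) // v ∈ l.support.map (Function.Embedding.subtype _) ∧
        N i ∉ LSq v} = (l.support.filter fun w => N i ∉ LSq w.1).card := by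
      rw [← Finset.card_map (Function.Embedding.subtype _)]
      refine Nat.subtype_card _ fun v => ?_
      simp only [Finset.mem_map, Finset.mem_filter, Function.Embedding.subtype_apply]
      constructor
      · rintro ⟨w, ⟨h1, h2⟩, rfl⟩
        exact ⟨⟨w, h1, rfl⟩, h2⟩
      · rintro ⟨⟨w, h1, rfl⟩, h2⟩
        exact ⟨w, ⟨h1, h2⟩, rfl⟩
    rw [h1, ← ZMod.natCast_eq_zero_iff_even, Nat.cast_add]
    have h2 : ((l.support.filter fun w => N i ∉ LSq w.1).card : ZMod 2) = (c i : ZMod 2) := by
      have h3 := congrFun hl i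
      rw [← h3, Finsupp.sum, Finset.sum_apply, Finset.card_filter, Nat.cast_sum]
      refine Finset.sum_congr rfl fun w hw => ?_
      have h4 : l w = 1 := by
        have h5 := Finsupp.mem_support_iff.1 hw
        generalize l w = t at h5
        revert t
        decide
      rw [h4, one_smul]
      change _ = ph w.1 (N i)
      unfold ph
      split_ifs
      · simp
      · simp
    rw [h2]
    generalize (c i : ZMod 2) = t
    revert t
    decide

end Dr
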