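import Pool.Agent.Lib.MP_f80667_ag.Dr.Par

/-!
Base change of lattice data. `i : R → R'` discrete valuation rings, `k`, `k'` their fraction fields,
`j : L → L'` with a `k`-basis of `L` which is mapped to a `k'`-basis of `L'`, `s'` the extension of the
functional `s`. `bcO O j`: the `R'`-algebra generated by `j (O)`.
-/

open Module

namespace Dr

variable {R k L : Type*} [CommRing R] [IsDomain R] [IsDiscreteValuationRing R] [Field k] [Algebra R k]
  [IsFractionRing R k] [CommRing L] [Algebra k L] [Algebra R L] [IsScalarTower R k L]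
  [FiniteDimensional k L] {O : Subalgebra R L} {s : L →ₗ[k] k} {ε π : L}
  {R' k' L' : Type*} [CommRing R'] [IsDomain R'] [IsDiscreteValuationRing R'] [Field k']
  [Algebra R' k'] [IsFractionRing R' k'] [CommRing L'] [Algebra k' L'] [Algebra R' L']
  [IsScalarTower R' k' L'] [FiniteDimensional k' L'] [Algebra k k']

/-- An integral basis. Proof: `O` is torsion free and finite over a principal ideal domain. -/
theorem LD.exists_basis (h : LD O s ε π) :
    ∃ (n : ℕ) (c : Basis (Fin n) R O) (cL : Basis (Fin n) k L), ∀ m, cL m = c m := by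
  have hfin := h.fin
  have hinj : Function.Injective (algebraMap R k) := IsFractionRing.injective R k
  have htf : Module.IsTorsionFree R L := by
    refine Module.isTorsionFree_iff_smul_eq_zero.2 fun r x hrx => ?_
    by_cases hr : r = 0
    · exact Or.inl hr
    · right
      have hr' : algebraMap R k r ≠ 0 := by
        rw [Ne, map_eq_zero_iff _ hinj]
        exact hr
      rw [← algebraMap_smul k r x] at hrx
      exact (smul_eq_zero.1 hrx).resolve_left hr'
  have hfree : Module.Free R O := Module.free_of_finite_type_torsion_free'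
  let c := Module.finBasis R O
  have hli : LinearIndependent R (fun m => (c m : L)) :=
    c.linearIndependent.map' O.toSubmodule.subtype (Submodule.ker_subtype _)
  have hli' : LinearIndependent k (fun m => (c m : L)) :=
    (LinearIndependent.iff_fractionRing R k).1 hli
  have hsp : ⊤ ≤ Submodule.span k (Set.range fun m => (c m : L)) := by
    intro x _
    obtain ⟨r, hr, hrx⟩ := h.span x
    have hr' : algebraMap R k r ≠ 0 := by
      rw [Ne, map_eq_zero_iff _ hinj]
      exact hr
    have h1 : r • x ∈ Submodule.span k (Set.range fun m => (c m : L)) := by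
      have h2 : ((∑ m, c.repr ⟨r • x, hrx⟩ m • c m : O) : L) = r • x := by
        rw [c.sum_repr]
      rw [← h2, AddSubmonoidClass.coe_finsetSum]
      refine Submodule.sum_mem _ fun m _ => ?_
      have h3 : ((c.repr ⟨r • x, hrx⟩ m • c m : O) : L) =
          algebraMap R k (c.repr ⟨r • x, hrx⟩ m) • (c m : L) := by
        rw [algebraMap_smul]
        rfl
      rw [h3]
      exact Submodule.smul_mem _ _ (Submodule.subset_span ⟨m, rfl⟩)
    have h2 : x = (algebraMap R k r)⁻¹ • (r • x) := by
      rw [← algebraMap_smul k r x, smul_smul, inv_mul_cancel₀ hr', one_smul]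
    rw [h2]
    exact Submodule.smul_mem _ _ h1
  exact ⟨_, c, Basis.mk hli' hsp, fun m => Basis.mk_apply hli' hsp m⟩

variable (R') in
/-- The `R'`-algebra generated by the image of `O`. -/
def bcO (O : Subalgebra R L) (j : L →+* L') : Subalgebra R' L' :=
  Algebra.adjoin R' (j '' (O : Set L))

omit [IsDomain R] [IsDiscreteValuationRing R] [IsFractionRing R k] [FiniteDimensional k L]
  [IsDomain R'] [IsDiscreteValuationRing R'] [IsFractionRing R' k'] [FiniteDimensional k' L'] in
theorem bcA_smul (i : R →+* R')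
    (hi : ∀ x, algebraMap R' k' (i x) = algebraMap k k' (algebraMap R k x)) (j : L →+* L')
    (hj : ∀ x : k, j (algebraMap k L x) = algebraMap k' L' (algebraMap k k' x)) (a : R) (y : L) :
    j (a • y) = i a • j y := by
  rw [Algebra.smul_def, Algebra.smul_def, map_mul, IsScalarTower.algebraMap_apply R k L, hj, ← hi,
    ← IsScalarTower.algebraMap_apply R' k' L']

/-- Proof: the span of the image of a basis is closed under multiplication. -/
theorem mem_bcO {n : ℕ} (c : Basis (Fin n) R O) (i : R →+* R')
    (hi : ∀ x, algebraMap R' k' (i x) = algebraMap k k' (algebraMap R k x)) (j : L →+* L')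
    (hj : ∀ x : k, j (algebraMap k L x) = algebraMap k' L' (algebraMap k k' x)) (x : L') :
    x ∈ bcO R' O j ↔ ∃ r : Fin n → R', x = ∑ m, r m • j (c m) := by
  constructor
  · intro hx
    have h1 : (Submonoid.closure (j '' (O : Set L)) : Set L') = j '' (O : Set L) := by
      have h2 : j '' (O : Set L) = (O.toSubmonoid.map (j : L →* L') : Set L') := rfl
      rw [h2, Submonoid.closure_eq]
    rw [bcO, ← Subalgebra.mem_toSubmodule, Algebra.adjoin_eq_span, h1] at hx
    have h2 : Submodule.span R' (j '' (O : Set L)) ≤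
        Submodule.span R' (Set.range fun m => j (c m)) := by
      rw [Submodule.span_le]
      rintro _ ⟨y, hy, rfl⟩
      have h3 : y = ∑ m, ((c.repr ⟨y, hy⟩ m • c m : O) : L) := by
        rw [← AddSubmonoidClass.coe_finsetSum, c.sum_repr]
      rw [h3, map_sum]
      refine Submodule.sum_mem _ fun m _ => ?_
      have h4 : ((c.repr ⟨y, hy⟩ m • c m : O) : L) = c.repr ⟨y, hy⟩ m • (c m : L) := rfl
      rw [h4, bcA_smul i hi j hj]
      exact Submodule.smul_mem _ _ (Submodule.subset_span ⟨m, rfl⟩)
    obtain ⟨r, hr⟩ := (Submodule.mem_span_range_iff_exists_fun R').1 (h2 hx)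
    exact ⟨r, hr.symm⟩
  · rintro ⟨r, rfl⟩
    exact Subalgebra.sum_mem _ fun m _ => Subalgebra.smul_mem _
      (Algebra.subset_adjoin (Set.mem_image_of_mem j (c m).2)) _

omit [FiniteDimensional k L] [FiniteDimensional k' L'] in
/-- the image of a basis is a basis -/
theorem bcA_basis (j : L →+* L')
    (hj : ∀ x : k, j (algebraMap k L x) = algebraMap k' L' (algebraMap k k' x)) {n l : ℕ}
    (b : Basis (Fin n) k L) (b' : Basis (Fin n) k' L') (hb : ∀ m, b' m = j (b m))
    (c : Basis (Fin l) k L) : ∃ c' : Basis (Fin l) k' L', ∀ m, c' m = j (c m) := by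
  have h1 : ∀ y : L, j y ∈ Submodule.span k' (Set.range fun m => j (c m)) := by
    intro y
    rw [← c.sum_repr y, map_sum]
    refine Submodule.sum_mem _ fun m _ => ?_
    rw [Algebra.smul_def, map_mul, hj, ← Algebra.smul_def]
    exact Submodule.smul_mem _ _ (Submodule.subset_span ⟨m, rfl⟩)
  have h2 : ⊤ ≤ Submodule.span k' (Set.range fun m => j (c m)) := by
    intro x _
    rw [← b'.sum_repr x]
    refine Submodule.sum_mem _ fun m _ => Submodule.smul_mem _ _ ?_
    rw [hb]
    exact h1 _
  have h3 : Fintype.card (Fin l) = finrank k' L' := by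
    rw [finrank_eq_card_basis b', ← finrank_eq_card_basis b, finrank_eq_card_basis c]
  exact ⟨basisOfTopLeSpanOfCardEqFinrank _ h2 h3, fun m => by
    rw [coe_basisOfTopLeSpanOfCardEqFinrank]⟩

/-- dual elements -/
theorem LD.exists_dual (h : LD O s ε π) {n : ℕ} (c : Basis (Fin n) R O) (cL : Basis (Fin n) k L)
    (hc : ∀ m, cL m = c m) (m : Fin n) : ∃ d ∈ O, ∀ x : L, s (d * x) = cL.repr x m := by
  have hinj : Function.Injective (algebraMap R k) := IsFractionRing.injective R k
  have hrep : ∀ x ∈ O, ∀ l, ∃ a : R, cL.repr x l = algebraMap R k a := by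
    intro x hx l
    refine ⟨c.repr ⟨x, hx⟩ l, ?_⟩
    have h1 : x = ∑ l, algebraMap R k (c.repr ⟨x, hx⟩ l) • cL l := by
      have h2 : x = ((∑ l, c.repr ⟨x, hx⟩ l • c l : O) : L) := by rw [c.sum_repr]
      conv_lhs => rw [h2]
      rw [AddSubmonoidClass.coe_finsetSum]
      refine Finset.sum_congr rfl fun l _ => ?_
      rw [hc, algebraMap_smul]
      rfl
    conv_lhs => rw [h1]
    rw [cL.repr_sum_self]
  let Φ : L →ₗ[k] Module.Dual k L := (LinearMap.mul k L).compr₂ s
  have hΦ : ∀ x y, Φ x y = s (x * y) := fun _ _ => rfl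
  have hker : Function.Injective Φ := by
    rw [← LinearMap.ker_eq_bot, LinearMap.ker_eq_bot']
    intro x hx
    obtain ⟨ϖ, hϖ⟩ := IsDiscreteValuationRing.exists_irreducible R
    have hϖ0 : algebraMap R k ϖ ≠ 0 := by
      rw [Ne, map_eq_zero_iff _ hinj]
      exact hϖ.ne_zero
    have h1 : ∀ r : k, r • x ∈ O := by
      intro r
      refine (h.dual _).2 fun y _ => ⟨0, ?_⟩
      rw [smul_mul_assoc, map_smul, ← hΦ, hx, LinearMap.zero_apply, smul_zero, map_zero]
    refine cL.ext_elem fun l => ?_
    rw [map_zero, Finsupp.zero_apply]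
    by_contra hne
    obtain ⟨a, ha⟩ := hrep _ (h1 ((cL.repr x l)⁻¹ * (algebraMap R k ϖ)⁻¹)) l
    rw [map_smul, Finsupp.smul_apply, smul_eq_mul, mul_right_comm, inv_mul_cancel₀ hne,
      one_mul] at ha
    refine hϖ.not_isUnit (IsUnit.of_mul_eq_one a (hinj ?_))
    rw [map_mul, ← ha, mul_inv_cancel₀ hϖ0, map_one]
  have hsurj : Function.Surjective Φ :=
    (LinearMap.injective_iff_surjective_of_finrank_eq_finrank
      (Subspace.dual_finrank_eq (K := k) (V := L)).symm).1 hker
  obtain ⟨d, hd⟩ := hsurj (cL.coord m)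
  have hd' : ∀ x : L, s (d * x) = cL.repr x m := fun x => by
    rw [← hΦ, hd]
    rfl
  refine ⟨d, (h.dual d).2 fun y hy => ?_, hd'⟩
  obtain ⟨a, ha⟩ := hrep y hy m
  exact ⟨a, by rw [hd', ha]⟩

/-- **Base change of the datum.** Proof: `exists_basis`; `j (c m)` is a `k'`-basis of `L'` (compare with
the given bases). The Gram matrix `G = (s (c m * c l))` has entries in `R`; its inverse too: for `d ∈ R ^ n`
the element `z` of `L` with `s (z * c m) = d m` (`G` is invertible over `k`, since a vector of its kernel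
is an element of `O` all of whose multiples are in `O`) is in `O` by `dual`. So the same over `R'`. -/
theorem LD.bc (h : LD O s ε π) (i : R →+* R')
    (hi : ∀ x, algebraMap R' k' (i x) = algebraMap k k' (algebraMap R k x)) (j : L →+* L')
    (hj : ∀ x : k, j (algebraMap k L x) = algebraMap k' L' (algebraMap k k' x)) {n : ℕ}
    (b : Basis (Fin n) k L) (b' : Basis (Fin n) k' L') (hb : ∀ m, b' m = j (b m))
    {s' : L' →ₗ[k'] k'} (hs : ∀ x : L, s' (j x) = algebraMap k k' (s x)) :
    LD (bcO R' O j) s' (j ε) (j π) := by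
  classical
  obtain ⟨l, c, cL, hc⟩ := h.exists_basis
  obtain ⟨c', hc'⟩ := bcA_basis j hj b b' hb cL
  have hmem := fun x => mem_bcO (k' := k') c i hi j hj x
  have hjO : ∀ y ∈ O, j y ∈ bcO R' O j := fun y hy => Algebra.subset_adjoin ⟨y, hy, rfl⟩
  have hcj : ∀ m, c' m = j (c m) := fun m => by rw [hc', hc]
  refine ⟨?_, fun x => ?_, fun z => ⟨fun hz y hy => ?_, fun hz => ?_⟩, hjO _ h.he, hjO _ h.hp, ?_, ?_⟩
  · have h1 : Subalgebra.toSubmodule (bcO R' O j) =
        Submodule.span R' (Set.range fun m => j (c m)) := by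
      ext x
      rw [Subalgebra.mem_toSubmodule, hmem, Submodule.mem_span_range_iff_exists_fun]
      exact exists_congr fun r => eq_comm
    have h2 : (Subalgebra.toSubmodule (bcO R' O j)).FG := by
      rw [h1]
      exact Submodule.fg_span (Set.finite_range _)
    exact Module.Finite.iff_fg.2 h2
  · obtain ⟨r, hr⟩ := IsLocalization.exist_integer_multiples_of_finite (nonZeroDivisors R')
      (fun m => c'.repr x m)
    refine ⟨r, nonZeroDivisors.coe_ne_zero r, (hmem _).2 ?_⟩
    choose a ha using hr
    refine ⟨a, ?_⟩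
    conv_lhs => rw [← c'.sum_repr x]
    rw [Finset.smul_sum]
    refine Finset.sum_congr rfl fun m _ => ?_
    rw [← hcj, ← algebraMap_smul k' (a m), ha, smul_assoc]
  · have h1 := (bcO R' O j).mul_mem hz hy
    obtain ⟨r, hr⟩ := (hmem _).1 h1
    have h2 : ∀ m, ∃ a : R, s (c m) = algebraMap R k a := by
      intro m
      obtain ⟨a, ha⟩ := (h.dual (c m)).1 (c m).2 1 O.one_mem
      exact ⟨a, by rw [← ha, mul_one]⟩
    choose a ha using h2
    refine ⟨∑ m, r m * i (a m), ?_⟩
    rw [hr, map_sum, map_sum]
    refine Finset.sum_congr rfl fun m _ => ?_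
    rw [← algebraMap_smul k' (r m), map_smul, hs, ha, ← hi, smul_eq_mul, map_mul]
  · have h1 : ∀ m, ∃ a : R', c'.repr z m = algebraMap R' k' a := by
      intro m
      obtain ⟨d, hd, hd'⟩ := h.exists_dual c cL hc m
      obtain ⟨a, ha⟩ := hz _ (hjO d hd)
      refine ⟨a, ?_⟩
      rw [← ha]
      conv_rhs => rw [← c'.sum_repr z]
      rw [Finset.sum_mul, map_sum, Finset.sum_eq_single m]
      · rw [smul_mul_assoc, map_smul, hc', ← map_mul, hs, mul_comm (cL m), hd', cL.repr_self,
          Finsupp.single_eq_same, map_one, smul_eq_mul, mul_one]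
      · intro l' _ hl'
        rw [smul_mul_assoc, map_smul, hc', ← map_mul, hs, mul_comm (cL l'), hd', cL.repr_self,
          Finsupp.single_eq_of_ne hl'.symm, map_zero, smul_zero]
      · intro hm
        exact absurd (Finset.mem_univ _) hm
    choose a ha using h1
    refine (hmem _).2 ⟨a, ?_⟩
    conv_lhs => rw [← c'.sum_repr z]
    refine Finset.sum_congr rfl fun m _ => ?_
    rw [ha, algebraMap_smul, hcj]
  · obtain ⟨π', hπ⟩ := h.inv
    exact ⟨j π', by rw [← map_mul, hπ, map_one]⟩
  · obtain ⟨u, hu, hu'⟩ := h.unit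
    refine ⟨j u, hjO u hu, ?_⟩
    rw [← map_ofNat j 4, ← map_mul, ← map_one j, ← map_add, ← map_mul, hu']

end Dr
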