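import Pool.Agent.Lib.MP_f80667_ag.Dr.BcA

/-! The residue map and the parity lemma after base change. -/

open Module

namespace Dr

variable {R k L : Type*} [CommRing R] [IsDomain R] [IsDiscreteValuationRing R] [Field k] [Algebra R k]
  [IsFractionRing R k] [CommRing L] [Algebra k L] [Algebra R L] [IsScalarTower R k L]
  [FiniteDimensional k L] {O : Subalgebra R L} {s : L →ₗ[k] k} {ε π : L}
  {R' k' L' : Type*} [CommRing R'] [IsDomain R'] [IsDiscreteValuationRing R'] [Field k']
  [Algebra R' k'] [IsFractionRing R' k'] [CommRing L'] [Algebra k' L'] [Algebra R' L']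
  [IsScalarTower R' k' L'] [FiniteDimensional k' L'] [Algebra k k']

omit [IsDomain R] [IsDiscreteValuationRing R] [IsFractionRing R k] [FiniteDimensional k L]
  [IsDomain R'] [IsDiscreteValuationRing R'] [IsFractionRing R' k'] [FiniteDimensional k' L'] in
private theorem bcb_alg (i : R →+* R')
    (hi : ∀ x, algebraMap R' k' (i x) = algebraMap k k' (algebraMap R k x)) (j : L →+* L')
    (hj : ∀ x : k, j (algebraMap k L x) = algebraMap k' L' (algebraMap k k' x)) (a : R) :
    j (algebraMap R L a) = algebraMap R' L' (i a) := by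
  rw [IsScalarTower.algebraMap_apply R k L, hj, ← hi, ← IsScalarTower.algebraMap_apply R' k' L']

omit [FiniteDimensional k L] [FiniteDimensional k' L'] in
/-- the image of a basis is linearly independent -/
private theorem bcb_li (j : L →+* L')
    (hj : ∀ x : k, j (algebraMap k L x) = algebraMap k' L' (algebraMap k k' x)) {n : ℕ}
    (b : Basis (Fin n) k L) (b' : Basis (Fin n) k' L') (hb : ∀ m, b' m = j (b m)) {n' : ℕ}
    (c : Basis (Fin n') k L) : LinearIndependent k' fun m => j (c m) := by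
  have hjs : ∀ (a : k) (x : L), j (a • x) = algebraMap k k' a • j x := by
    intro a x
    rw [Algebra.smul_def, map_mul, hj, ← Algebra.smul_def]
  have hspan : ⊤ ≤ Submodule.span k' (Set.range fun m => j (c m)) := by
    rw [← b'.span_eq, Submodule.span_le]
    rintro _ ⟨m, rfl⟩
    rw [hb, ← c.sum_repr (b m), map_sum]
    refine Submodule.sum_mem _ fun l _ => ?_
    rw [hjs]
    exact Submodule.smul_mem _ _ (Submodule.subset_span ⟨l, rfl⟩)
  have hcard : Fintype.card (Fin n') = finrank k' L' := by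
    rw [finrank_eq_card_basis b', ← finrank_eq_card_basis b, finrank_eq_card_basis c]
  exact linearIndependent_of_top_le_span_of_card_eq_finrank hspan hcard

/-- an element of `L` which is in `bcO` after base change is in `O` -/
private theorem bcb_mem (h : LD O s ε π) (i : R →+* R')
    (hi : ∀ x, algebraMap R' k' (i x) = algebraMap k k' (algebraMap R k x)) (j : L →+* L')
    (hj : ∀ x : k, j (algebraMap k L x) = algebraMap k' L' (algebraMap k k' x)) {n : ℕ}
    (b : Basis (Fin n) k L) (b' : Basis (Fin n) k' L') (hb : ∀ m, b' m = j (b m))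
    (h3 : ∀ x : k, (∃ y : R', algebraMap R' k' y = algebraMap k k' x) → ∃ y : R, algebraMap R k y = x)
    (x : L) (hx : j x ∈ bcO R' O j) : x ∈ O := by
  obtain ⟨N, c, cL, hc⟩ := h.exists_basis
  have hli := bcb_li j hj b b' hb cL
  obtain ⟨r, hr⟩ := (mem_bcO c i hi j hj (j x)).1 hx
  have hjs : ∀ (a : k) (x : L), j (a • x) = algebraMap k k' a • j x := by
    intro a x
    rw [Algebra.smul_def, map_mul, hj, ← Algebra.smul_def]
  have h4 : ∑ m, (algebraMap k k' (cL.repr x m)) • j (cL m) =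
      ∑ m, (algebraMap R' k' (r m)) • j (cL m) := by
    calc ∑ m, (algebraMap k k' (cL.repr x m)) • j (cL m) = j x := by
          conv_rhs => rw [← cL.sum_repr x, map_sum]
          exact Finset.sum_congr rfl fun m _ => (hjs _ _).symm
      _ = ∑ m, (algebraMap R' k' (r m)) • j (cL m) := by
          rw [hr]
          refine Finset.sum_congr rfl fun m _ => ?_
          rw [hc, algebraMap_smul]
  have h5 : ∀ m, algebraMap k k' (cL.repr x m) = algebraMap R' k' (r m) := by
    intro m
    have h6 : ∑ m, (algebraMap k k' (cL.repr x m) - algebraMap R' k' (r m)) • j (cL m) = 0 := by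
      simp_rw [sub_smul]
      rw [Finset.sum_sub_distrib, h4, sub_self]
    exact sub_eq_zero.1 (Fintype.linearIndependent_iff.1 hli _ h6 m)
  rw [← cL.sum_repr x]
  refine O.sum_mem fun m _ => ?_
  obtain ⟨y, hy⟩ := h3 (cL.repr x m) ⟨r m, (h5 m).symm⟩
  rw [← hy, algebraMap_smul, hc]
  exact O.smul_mem (c m).2 y

/-- the decomposition of the elements of `bcO` -/
private theorem bcb_dec (h : LD O s ε π) (i : R →+* R')
    (hi : ∀ x, algebraMap R' k' (i x) = algebraMap k k' (algebraMap R k x)) (j : L →+* L')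
    (hj : ∀ x : k, j (algebraMap k L x) = algebraMap k' L' (algebraMap k k' x))
    (h1 : ∀ x : R', ∃ y : R, x - i y ∈ IsLocalRing.maximalIdeal R')
    (hm' : ∀ m ∈ IsLocalRing.maximalIdeal R', ∃ y ∈ bcO R' O j, algebraMap R' L' m = j π * y)
    (x : L') (hx : x ∈ bcO R' O j) : ∃ y ∈ O, ∃ z ∈ bcO R' O j, x = j y + j π * z := by
  obtain ⟨N, c, cL, hc⟩ := h.exists_basis
  obtain ⟨r, hr⟩ := (mem_bcO c i hi j hj x).1 hx
  have hsub : ∀ y ∈ O, j y ∈ bcO R' O j := fun y hy =>
    Algebra.subset_adjoin ⟨y, hy, rfl⟩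
  choose a ha using h1
  choose w hw hw2 using fun m => hm' _ (ha (r m))
  refine ⟨∑ m, a (r m) • (c m : L), O.sum_mem fun m _ => O.smul_mem (c m).2 _,
    ∑ m, w m * j (c m), Subalgebra.sum_mem _ fun m _ =>
      Subalgebra.mul_mem _ (hw m) (hsub _ (c m).2), ?_⟩
  rw [hr, map_sum, Finset.mul_sum, ← Finset.sum_add_distrib]
  refine Finset.sum_congr rfl fun m _ => ?_
  have h4 : algebraMap R' L' (r m) = algebraMap R' L' (i (a (r m))) + j π * w m := by
    rw [← hw2 m, ← map_add, add_sub_cancel]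
  rw [Algebra.smul_def, h4, Algebra.smul_def, map_mul, bcb_alg i hi j hj]
  ring

/-- **The residue map after base change.** `R → R'` is an isomorphism modulo the maximal ideals and
`R = k ∩ R'`. Proof: every `x ∈ bcO` is `j y + j π z` with `y ∈ O`, `z ∈ bcO` (coordinates in a basis of
`O`, `i (m) ⊆ π O`), put `r' x = r y`; well defined: if `j y = j π z` then `z = j (π⁻¹ y)` has coordinates
in `k ∩ R' = R`, so `π⁻¹ y ∈ O`. -/
theorem LD.bc_res (h : LD O s ε π) (i : R →+* R')
    (hi : ∀ x, algebraMap R' k' (i x) = algebraMap k k' (algebraMap R k x)) (j : L →+* L')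
    (hj : ∀ x : k, j (algebraMap k L x) = algebraMap k' L' (algebraMap k k' x)) {n : ℕ}
    (b : Basis (Fin n) k L) (b' : Basis (Fin n) k' L') (hb : ∀ m, b' m = j (b m))
    (h1 : ∀ x : R', ∃ y : R, x - i y ∈ IsLocalRing.maximalIdeal R')
    (h2 : ∀ x ∈ IsLocalRing.maximalIdeal R', ∃ y ∈ IsLocalRing.maximalIdeal R, ∃ z : R', x = i y * z)
    (h3 : ∀ x : k, (∃ y : R', algebraMap R' k' y = algebraMap k k' x) → ∃ y : R, algebraMap R k y = x)
    {J : Type*} {F : J → Type*} [∀ j, Field (F j)] (r : O →+* ∀ j, F j) (hr : Function.Surjective r)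
    (hk : ∀ x : O, r x = 0 ↔ ∃ y ∈ O, (x : L) = π * y)
    (hm : ∀ m ∈ IsLocalRing.maximalIdeal R, ∃ y ∈ O, algebraMap R L m = π * y) :
    ∃ r' : bcO R' O j →+* ∀ j, F j, Function.Surjective r' ∧
      (∀ x : bcO R' O j, r' x = 0 ↔ ∃ y ∈ bcO R' O j, (x : L') = j π * y) ∧
      (∀ (x : O) (y : bcO R' O j), (y : L') = j x → r' y = r x) ∧
      ∀ m ∈ IsLocalRing.maximalIdeal R', ∃ y ∈ bcO R' O j, algebraMap R' L' m = j π * y := by
  have hsub : ∀ y ∈ O, j y ∈ bcO R' O j := fun y hy =>
    Algebra.subset_adjoin ⟨y, hy, rfl⟩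
  have hm' : ∀ m ∈ IsLocalRing.maximalIdeal R', ∃ y ∈ bcO R' O j,
      algebraMap R' L' m = j π * y := by
    intro m hmm
    obtain ⟨y, hy, z, rfl⟩ := h2 m hmm
    obtain ⟨w, hw, hw2⟩ := hm y hy
    refine ⟨j w * algebraMap R' L' z, Subalgebra.mul_mem _ (hsub w hw)
      (Subalgebra.algebraMap_mem _ z), ?_⟩
    rw [map_mul, ← bcb_alg i hi j hj, hw2, map_mul, mul_assoc]
  have hdec := bcb_dec h i hi j hj h1 hm'
  obtain ⟨π', hπ⟩ := h.inv
  have hjπ : j π' * j π = 1 := by rw [← map_mul, mul_comm, hπ, map_one]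
  -- the uniqueness
  have huniq : ∀ (y : O) (z : L'), z ∈ bcO R' O j → j (y : L) = j π * z → r y = 0 := by
    intro y z hz hyz
    have h4 : j (π' * y) = z := by
      rw [map_mul, hyz, ← mul_assoc, hjπ, one_mul]
    have h5 : π' * (y : L) ∈ O := bcb_mem h i hi j hj b b' hb h3 _ (by rw [h4]; exact hz)
    rw [hk]
    refine ⟨π' * y, h5, ?_⟩
    rw [← mul_assoc, hπ, one_mul]
  have huniq2 : ∀ (y y' : O) (z z' : L'), z ∈ bcO R' O j → z' ∈ bcO R' O j →
      j (y : L) + j π * z = j (y' : L) + j π * z' → r y = r y' := by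
    intro y y' z z' hz hz' hh
    rw [← sub_eq_zero, ← map_sub]
    refine huniq (y - y') (z' - z) (Subalgebra.sub_mem _ hz' hz) ?_
    rw [Subalgebra.coe_sub, map_sub]
    linear_combination hh
  choose f hf g hg hfg using hdec
  let φ : bcO R' O j → ∀ j, F j := fun x => r ⟨f x x.2, hf x x.2⟩
  have hφ : ∀ (x : bcO R' O j) (y : O) (z : L'), z ∈ bcO R' O j → (x : L') = j y + j π * z →
      φ x = r y := by
    intro x y z hz hxy
    exact huniq2 _ _ (g x x.2) z (hg x x.2) hz (by rw [← hxy]; exact (hfg x x.2).symm)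
  have hφx : ∀ x : bcO R' O j, (x : L') = j (f x x.2) + j π * g x x.2 := fun x => hfg x x.2
  let r' : bcO R' O j →+* ∀ j, F j :=
    { toFun := φ
      map_one' := by
        rw [hφ 1 1 0 (Subalgebra.zero_mem _) (by
          rw [Subalgebra.coe_one, Subalgebra.coe_one, map_one, mul_zero, add_zero]), map_one]
      map_mul' := fun x x' => by
        have h4 := hφ (x * x') (⟨f x x.2, hf x x.2⟩ * ⟨f x' x'.2, hf x' x'.2⟩)
          (j (f x x.2) * g x' x'.2 + g x x.2 * j (f x' x'.2) + j π * (g x x.2 * g x' x'.2))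
          (Subalgebra.add_mem _ (Subalgebra.add_mem _
            (Subalgebra.mul_mem _ (hsub _ (hf x x.2)) (hg x' x'.2))
            (Subalgebra.mul_mem _ (hg x x.2) (hsub _ (hf x' x'.2))))
            (Subalgebra.mul_mem _ (hsub _ h.hp) (Subalgebra.mul_mem _ (hg x x.2) (hg x' x'.2))))
          (by
            have e1 := hφx x
            have e2 := hφx x'
            rw [Subalgebra.coe_mul, Subalgebra.coe_mul, map_mul]
            linear_combination (x' : L') * e1 + (j (f x x.2) + j π * g x x.2) * e2)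
        rw [h4, map_mul]
      map_zero' := by
        rw [hφ 0 0 0 (Subalgebra.zero_mem _) (by
          rw [Subalgebra.coe_zero, Subalgebra.coe_zero, map_zero, mul_zero, add_zero]), map_zero]
      map_add' := fun x x' => by
        have h4 := hφ (x + x') (⟨f x x.2, hf x x.2⟩ + ⟨f x' x'.2, hf x' x'.2⟩)
          (g x x.2 + g x' x'.2) (Subalgebra.add_mem _ (hg x x.2) (hg x' x'.2))
          (by
            have e1 := hφx x
            have e2 := hφx x'
            rw [Subalgebra.coe_add, Subalgebra.coe_add, map_add]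
            linear_combination e1 + e2)
        rw [h4, map_add] }
  have hcomp : ∀ (x : O) (y : bcO R' O j), (y : L') = j x → r' y = r x := by
    intro x y hy
    exact hφ y x 0 (Subalgebra.zero_mem _) (by rw [mul_zero, add_zero]; exact hy)
  refine ⟨r', ?_, ?_, hcomp, hm'⟩
  · intro v
    obtain ⟨x, rfl⟩ := hr v
    exact ⟨⟨j x, hsub x x.2⟩, hcomp x _ rfl⟩
  · intro x
    constructor
    · intro hx
      have h4 : r ⟨f x x.2, hf x x.2⟩ = 0 := hx
      rw [hk] at h4
      obtain ⟨w, hw, hw2⟩ := h4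
      refine ⟨j w + g x x.2, Subalgebra.add_mem _ (hsub w hw) (hg x x.2), ?_⟩
      have h5 : f x x.2 = π * w := hw2
      have e1 := hφx x
      have h6 : j (f x x.2) = j π * j w := by rw [h5, map_mul]
      linear_combination e1 + h6
    · rintro ⟨y, hy, hxy⟩
      have h4 : r' x = r 0 := hφ x 0 y hy (by
        rw [Subalgebra.coe_zero, map_zero, zero_add]
        exact hxy)
      rw [h4, map_zero]

/-- **The parity lemma after base change.** Proof: `LD.bc`, `LD.bc_res`, `LD.parity`. -/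
theorem LD.parity_bc [Finite (IsLocalRing.ResidueField R')] (h : LD O s ε π) (i : R →+* R')
    (hi : ∀ x, algebraMap R' k' (i x) = algebraMap k k' (algebraMap R k x)) (j : L →+* L')
    (hj : ∀ x : k, j (algebraMap k L x) = algebraMap k' L' (algebraMap k k' x)) {n : ℕ}
    (b : Basis (Fin n) k L) (b' : Basis (Fin n) k' L') (hb : ∀ m, b' m = j (b m))
    {s' : L' →ₗ[k'] k'} (hs : ∀ x : L, s' (j x) = algebraMap k k' (s x))
    (h1 : ∀ x : R', ∃ y : R, x - i y ∈ IsLocalRing.maximalIdeal R')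
    (h2 : ∀ x ∈ IsLocalRing.maximalIdeal R', ∃ y ∈ IsLocalRing.maximalIdeal R, ∃ z : R', x = i y * z)
    (h3 : ∀ x : k, (∃ y : R', algebraMap R' k' y = algebraMap k k' x) → ∃ y : R, algebraMap R k y = x)
    {J : Type*} [Fintype J] {F : J → Type*} [∀ j, Field (F j)] [∀ j, Finite (F j)]
    (r : O →+* ∀ j, F j) (hr : Function.Surjective r)
    (hk : ∀ x : O, r x = 0 ↔ ∃ y ∈ O, (x : L) = π * y)
    (hm : ∀ m ∈ IsLocalRing.maximalIdeal R, ∃ y ∈ O, algebraMap R L m = π * y)
    (he : ∀ j (x : F j), x ^ 2 - x - r ⟨ε, h.he⟩ j ≠ 0) {W : Submodule k' (Fin 4 → L')}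
    (hW : Lag (tr s' (qeF (j ε) (j π))) W) : Even (Fintype.card J) := by
  have h' : LD (bcO R' O j) s' (j ε) (j π) := h.bc i hi j hj b b' hb hs
  obtain ⟨r', hr', hk', hc, hm'⟩ := h.bc_res i hi j hj b b' hb h1 h2 h3 r hr hk hm
  refine h'.parity r' hr' hk' hm' ?_ hW
  intro l x
  rw [hc ⟨ε, h.he⟩ ⟨j ε, h'.he⟩ rfl]
  exact he l x

end Dr
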