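import Pool.Agent.Lib.MP_f80667_ag.Dr.Rp
import Pool.Agent.Lib.MP_f80667_ag.Hm.Main
import Pool.Agent.Lib.MP_f80667_ag.Hm.U4

/-! The valuation ring of a place and the one of the completion. -/

open IsDedekindDomain NumberField

namespace Dr

variable {F : Type} [Field F] [NumberField F]

/-- Proof: the elements of `F` of valuation at most one are in `v.adicCompletionIntegers F`; density
(`Hm.exists_nearC`); a uniformizer of `F` at `v` is one of the completion. -/
theorem exists_inc (v : HeightOneSpectrum (𝓞 F)) :
    ∃ i : Rp v →+* v.adicCompletionIntegers F,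
      (∀ x, algebraMap (v.adicCompletionIntegers F) (v.adicCompletion F) (i x) =
        algebraMap F (v.adicCompletion F) (algebraMap (Rp v) F x)) ∧
      (∀ x : v.adicCompletionIntegers F, ∃ y : Rp v,
        x - i y ∈ IsLocalRing.maximalIdeal (v.adicCompletionIntegers F)) ∧
      (∀ x ∈ IsLocalRing.maximalIdeal (v.adicCompletionIntegers F),
        ∃ y ∈ IsLocalRing.maximalIdeal (Rp v), ∃ z : v.adicCompletionIntegers F, x = i y * z) ∧
      ∀ x : F, (∃ y : v.adicCompletionIntegers F,
        algebraMap (v.adicCompletionIntegers F) (v.adicCompletion F) y =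
          algebraMap F (v.adicCompletion F) x) → ∃ y : Rp v, algebraMap (Rp v) F y = x := by
  have hmem : ∀ x : Rp v, algebraMap F (v.adicCompletion F) (Rp.inc v x) ∈
      v.adicCompletionIntegers F := by
    intro x
    rw [HeightOneSpectrum.mem_adicCompletionIntegers, Hm.valC]
    exact (Rp.mem_iff v _).1 ⟨x, rfl⟩
  refine ⟨((algebraMap F (v.adicCompletion F)).comp (Rp.inc v)).codRestrict
    (v.adicCompletionIntegers F) hmem, fun x => rfl, fun x => ?_, fun x hx => ?_, fun x hx => ?_⟩
  · obtain ⟨y, hy⟩ := Hm.exists_nearC v one_ne_zero (x : v.adicCompletion F)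
    rw [map_one] at hy
    have hx1 : Valued.v (x : v.adicCompletion F) ≤ 1 := x.2
    have h1 : v.valuation F y ≤ 1 := by
      rw [← Hm.valC]
      have e : algebraMap F (v.adicCompletion F) y =
          (algebraMap F (v.adicCompletion F) y - x) + x := by ring
      rw [e]
      exact (Valuation.map_add _ _ _).trans (max_le hy.le hx1)
    obtain ⟨r, hr⟩ := (Rp.mem_iff v y).2 h1
    refine ⟨r, (Valuation.mem_maximalIdeal_iff (v := (Valued.v :
      Valuation (v.adicCompletion F) _))).2 ?_⟩
    have e : ((x - ((algebraMap F (v.adicCompletion F)).comp (Rp.inc v)).codRestrict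
        (v.adicCompletionIntegers F) hmem r : v.adicCompletionIntegers F) : v.adicCompletion F) =
        -(algebraMap F (v.adicCompletion F) y - x) := by
      rw [← hr, neg_sub]
      rfl
    rw [e, Valuation.map_neg]
    exact hy
  · have hx1 : Valued.v (x : v.adicCompletion F) < 1 :=
      (Valuation.mem_maximalIdeal_iff (v := (Valued.v :
        Valuation (v.adicCompletion F) _))).1 hx
    by_cases hx0 : (x : v.adicCompletion F) = 0
    · refine ⟨0, Ideal.zero_mem _, 0, ?_⟩
      rw [mul_zero]
      exact Subtype.ext hx0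
    obtain ⟨y, hy⟩ := Hm.exists_nearC v hx0 (x : v.adicCompletion F)
    have h1 : Valued.v (algebraMap F (v.adicCompletion F) y) =
        Valued.v (x : v.adicCompletion F) := by
      have e : algebraMap F (v.adicCompletion F) y =
          (algebraMap F (v.adicCompletion F) y - x) + x := by ring
      rw [e]
      exact Valuation.map_add_eq_of_lt_right _ hy
    have h2 : v.valuation F y < 1 := by
      rw [← Hm.valC, h1]
      exact hx1
    obtain ⟨r, hr⟩ := (Rp.mem_iff v y).2 h2.le
    have hy0 : algebraMap F (v.adicCompletion F) y ≠ 0 := by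
      intro h3
      rw [h3, map_zero] at h1
      exact hx0 ((map_eq_zero _).1 h1.symm)
    refine ⟨r, (Rp.mem_max v r).2 (by rwa [hr]),
      ⟨(x : v.adicCompletion F) / algebraMap F (v.adicCompletion F) y, ?_⟩, Subtype.ext ?_⟩
    · rw [HeightOneSpectrum.mem_adicCompletionIntegers, map_div₀, h1]
      exact div_self_le_one _
    · change (x : v.adicCompletion F) = algebraMap F (v.adicCompletion F) (Rp.inc v r) *
        ((x : v.adicCompletion F) / algebraMap F (v.adicCompletion F) y)
      have h3 : Rp.inc v r = y := hr
      rw [h3, mul_div_cancel₀ _ hy0]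
  · obtain ⟨y, hy⟩ := hx
    refine (Rp.mem_iff v x).2 ?_
    rw [← Hm.valC, ← hy]
    exact y.2

end Dr
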