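import Pool.Agent.Lib.MP_f80667_ag.Dr.SlotF

/-! Quadratic forms in four variables over a completion. -/

open IsDedekindDomain NumberField Polynomial

namespace Dr

open Hm

/-- A common value: two quaternion algebras with different slots. -/
private theorem brC_common {K : Type} [Field K] [NumberField K] {v : HeightOneSpectrum (𝓞 K)}
    {b b' : Kˣ} (h : b * b' ∉ LSq v) (a : Kˣ) : ∃ z : Kˣ, z ∈ LNm v b ∧ a * z ∈ LNm v b' := by
  by_cases hab : a ∈ LNm v b
  · refine ⟨a, hab, ?_⟩
    rw [LNm_mul_iff]
  by_cases hab' : a ∈ LNm v b'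
  · exact ⟨1, one_mem _, by rwa [mul_one]⟩
  obtain ⟨c, hc⟩ := exists_notMem_LNm v h
  rw [LNm_mul_left] at hc
  by_cases hcb : c ∈ LNm v b
  · have hcb' : c ∉ LNm v b' := fun h1 => hc (iff_of_true hcb h1)
    exact ⟨c, hcb, LNm_two hab' hcb'⟩
  · have hcb' : c ∈ LNm v b' := by
      by_contra h1
      exact hc (iff_of_false hcb h1)
    refine ⟨a * c, LNm_two hab hcb, ?_⟩
    rw [← mul_assoc]
    refine mul_mem ?_ hcb'
    rw [LNm_mul_iff]

/-- Square classes of the completion come from the field. -/
private theorem brC_near {K : Type} [Field K] [NumberField K] (v : HeightOneSpectrum (𝓞 K))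
    {a : v.adicCompletion K} (ha : a ≠ 0) : ∃ (α : Kˣ) (s : v.adicCompletion K), s ≠ 0 ∧
      a = algebraMap K (v.adicCompletion K) (α : K) * s ^ 2 := by
  have h40 : (4 : v.adicCompletion K) ≠ 0 := by norm_num
  have h4 : (4 : v.adicCompletion K) * a ≠ 0 := mul_ne_zero h40 ha
  obtain ⟨y, hy⟩ := exists_nearC v h4 a
  obtain ⟨s, hs0, hs⟩ := exists_sq_of_near (v := v)
    (z := algebraMap K (v.adicCompletion K) y / a) (by
      have e : algebraMap K (v.adicCompletion K) y / a - 1 =
          (algebraMap K (v.adicCompletion K) y - a) * a⁻¹ := by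
        field_simp
      have e2 : (4 : v.adicCompletion K) = 4 * a * a⁻¹ := by
        field_simp
      rw [e, e2, map_mul, map_mul (Valued.v) (4 * a)]
      refine mul_lt_mul_of_pos_right hy (zero_lt_iff.2 ?_)
      rw [Ne, map_eq_zero]
      exact inv_ne_zero ha)
  have hy0 : y ≠ 0 := by
    rintro rfl
    rw [map_zero, zero_div] at hs
    exact hs0 (pow_eq_zero_iff two_ne_zero |>.1 hs)
  refine ⟨Units.mk0 y hy0, s⁻¹, inv_ne_zero hs0, ?_⟩
  rw [Units.val_mk0, inv_pow, hs]
  have hy1 : algebraMap K (v.adicCompletion K) y ≠ 0 := by rwa [Ne, map_eq_zero]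
  field_simp

/-- **Forms in four variables whose determinant is not a square.** Proof: approximate the `a i` by
elements of `K` in the same square classes (`Hm.exists_nearC`); scale to `⟨1, -b, -a, a b δ⟩`: it is isotropic
if `a` is the product of an element of `LNm u b` and one of `LNm u (b δ)`. If `b` or `b δ` is a local square this
is clear. Otherwise these are different subgroups of index two: if `c ∉ LNm u δ` (`Hm.exists_notMem_LNm`)
then `c` is in exactly one of them (`LNm_mul_left`), so their product is everything. -/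
theorem iso_cpl {K : Type} [Field K] [NumberField K] (u : HeightOneSpectrum (𝓞 K))
    (a : Fin 4 → u.adicCompletion K) (h0 : ∀ i, a i ≠ 0) (h : ¬ IsSquare (∏ i, a i)) :
    ∃ x : Fin 4 → u.adicCompletion K, x ≠ 0 ∧ ∑ i, a i * x i ^ 2 = 0 := by
  choose α s hs hα using fun i => brC_near u (h0 i)
  have hne : ∀ c : Kˣ, algebraMap K (u.adicCompletion K) (c : K) ≠ 0 := fun c => by
    rw [Ne, map_eq_zero]
    exact c.ne_zero
  have hβ := fun i => hne (α i)
  have hδ : -(α 1) / α 0 * (-(α 3) / α 2) ∉ LSq u := by
    intro h1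
    apply h
    rw [mem_LSq_iff] at h1
    obtain ⟨t, ht⟩ := h1
    simp only [Units.val_mul, Units.val_div_eq_div_val, Units.val_neg, map_mul, map_div₀,
      map_neg] at ht
    have e : t * t * algebraMap K (u.adicCompletion K) (α 0 : K) *
        algebraMap K (u.adicCompletion K) (α 2 : K) =
        algebraMap K (u.adicCompletion K) (α 1 : K) *
          algebraMap K (u.adicCompletion K) (α 3 : K) := by
      rw [← ht]
      have h2 := hβ 0
      have h3 := hβ 2
      field_simp
    refine ⟨t * algebraMap K (u.adicCompletion K) (α 0 : K) *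
      algebraMap K (u.adicCompletion K) (α 2 : K) * (s 0 * s 1 * s 2 * s 3), ?_⟩
    rw [Fin.prod_univ_four, hα 0, hα 1, hα 2, hα 3]
    linear_combination (-(algebraMap K (u.adicCompletion K) (α 0 : K) *
      algebraMap K (u.adicCompletion K) (α 2 : K) * (s 0 * s 1 * s 2 * s 3) ^ 2)) * e
  obtain ⟨z, hz, hz'⟩ := brC_common hδ (-(α 0) / α 2)
  rw [mem_LNm_iff] at hz hz'
  obtain ⟨x0, x1, hx⟩ := hz
  obtain ⟨x2, x3, hx'⟩ := hz'
  simp only [Units.val_mul, Units.val_div_eq_div_val, Units.val_neg, map_mul, map_div₀,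
    map_neg] at hx hx'
  have key : algebraMap K (u.adicCompletion K) (α 0 : K) * x0 ^ 2 +
      algebraMap K (u.adicCompletion K) (α 1 : K) * x1 ^ 2 +
      algebraMap K (u.adicCompletion K) (α 2 : K) * x2 ^ 2 +
      algebraMap K (u.adicCompletion K) (α 3 : K) * x3 ^ 2 = 0 := by
    have h2 := hβ 0
    have h3 := hβ 2
    have e1 : algebraMap K (u.adicCompletion K) (α 0 : K) * x0 ^ 2 +
        algebraMap K (u.adicCompletion K) (α 1 : K) * x1 ^ 2 =
        algebraMap K (u.adicCompletion K) (α 0 : K) * algebraMap K (u.adicCompletion K) (z : K) := by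
      rw [hx]
      field_simp
      ring
    have e2 : algebraMap K (u.adicCompletion K) (α 2 : K) * x2 ^ 2 +
        algebraMap K (u.adicCompletion K) (α 3 : K) * x3 ^ 2 =
        -(algebraMap K (u.adicCompletion K) (α 0 : K) *
          algebraMap K (u.adicCompletion K) (z : K)) := by
      have e3 : algebraMap K (u.adicCompletion K) (α 2 : K) * x2 ^ 2 +
        algebraMap K (u.adicCompletion K) (α 3 : K) * x3 ^ 2 =
        algebraMap K (u.adicCompletion K) (α 2 : K) *
          (-algebraMap K (u.adicCompletion K) (α 0 : K) /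
            algebraMap K (u.adicCompletion K) (α 2 : K) *
              algebraMap K (u.adicCompletion K) (z : K)) := by
        rw [hx']
        field_simp
        ring
      rw [e3]
      field_simp
    linear_combination e1 + e2
  refine ⟨![x0 / s 0, x1 / s 1, x2 / s 2, x3 / s 3], fun h1 => ?_, ?_⟩
  · have h2 : x0 / s 0 = 0 := congrFun h1 0
    have h3 : x1 / s 1 = 0 := congrFun h1 1
    rw [div_eq_zero_iff, or_iff_left (hs 0)] at h2
    rw [div_eq_zero_iff, or_iff_left (hs 1)] at h3
    apply hne z
    rw [hx, h2, h3]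
    ring
  · rw [Fin.sum_univ_four, hα 0, hα 1, hα 2, hα 3, ← key]
    have t0 := hs 0
    have t1 := hs 1
    have t2 := hs 2
    have t3 := hs 3
    simp only [Matrix.cons_val]
    field_simp

end Dr
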