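import Mathlib

/-! Norms and semilinear ring homomorphisms. -/

open Polynomial

namespace Dr

theorem repr_semi {R R' S S' ι : Type*} [CommRing R] [CommRing R'] [CommRing S] [CommRing S']
    [Algebra R S] [Algebra R' S'] [Fintype ι] (b : Module.Basis ι R S)
    (b' : Module.Basis ι R' S') (f : R →+* R') (φ : S →+* S')
    (h1 : ∀ x, φ (algebraMap R S x) = algebraMap R' S' (f x)) (h2 : ∀ i, φ (b i) = b' i) (y : S)
    (i : ι) : b'.repr (φ y) i = f (b.repr y i) := by
  classical
  have h3 : φ y = ∑ j, (f (b.repr y j)) • b' j := by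
    conv_lhs => rw [← b.sum_repr y]
    rw [map_sum]
    refine Finset.sum_congr rfl fun j _ => ?_
    rw [Algebra.smul_def, map_mul, h1, h2, Algebra.smul_def]
  rw [h3, b'.repr_sum_self]

theorem norm_semi {R R' S S' ι : Type*} [CommRing R] [CommRing R'] [CommRing S] [CommRing S']
    [Algebra R S] [Algebra R' S'] [Fintype ι] (b : Module.Basis ι R S)
    (b' : Module.Basis ι R' S') (f : R →+* R') (φ : S →+* S')
    (h1 : ∀ x, φ (algebraMap R S x) = algebraMap R' S' (f x)) (h2 : ∀ i, φ (b i) = b' i) (x : S) :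
    Algebra.norm R' (φ x) = f (Algebra.norm R x) := by
  classical
  rw [Algebra.norm_eq_matrix_det b', Algebra.norm_eq_matrix_det b, RingHom.map_det]
  congr 1
  ext i j
  rw [RingHom.mapMatrix_apply, Matrix.map_apply, Algebra.leftMulMatrix_eq_repr_mul,
    Algebra.leftMulMatrix_eq_repr_mul, ← h2, ← map_mul, repr_semi b b' f φ h1 h2]

theorem norm_adj {R R' : Type*} [CommRing R] [CommRing R'] [Nontrivial R'] (f : R →+* R')
    {g : R[X]} (hg : g.Monic) {g' : R'[X]} (hgg : g' = g.map f)
    (φ : AdjoinRoot g →+* AdjoinRoot g')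
    (h1 : ∀ x, φ (algebraMap R _ x) = algebraMap R' _ (f x))
    (h2 : φ (AdjoinRoot.root g) = AdjoinRoot.root g') (x : AdjoinRoot g) :
    Algebra.norm R' (φ x) = f (Algebra.norm R x) := by
  subst hgg
  have hd : (AdjoinRoot.powerBasis' (hg.map f)).dim = (AdjoinRoot.powerBasis' hg).dim :=
    hg.natDegree_map f
  refine norm_semi (AdjoinRoot.powerBasis' hg).basis
    ((AdjoinRoot.powerBasis' (hg.map f)).basis.reindex (finCongr hd)) f φ h1 ?_ x
  intro i
  rw [Module.Basis.reindex_apply, PowerBasis.basis_eq_pow, PowerBasis.basis_eq_pow,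
    AdjoinRoot.powerBasis'_gen, AdjoinRoot.powerBasis'_gen, map_pow, h2]
  rfl

end Dr
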