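import Pool.Agent.Lib.MP_f80667_ag.Dr.Rs
import Pool.Agent.Lib.MP_f80667_ag.Dq.Dg

/-!
The members of a pencil in five variables over `k[X] / P`, and their transfers. `vq τ A B u t`: the form
`x ↦ τ (u q_t (x))`, `q_t` the member `(1, -t)`. `Ln A B t`: this member contains a line over `L`.
-/

open Polynomial

namespace Dr

open ZC Tq Dp

section defs

variable {k : Type*} [Field k] {L : Type*} [CommRing L] [Algebra k L]

/-- The transfer of a multiple of the member `(1, -t)`. -/
noncomputable def vq (τ : L →ₗ[k] k) (A B : Matrix (Fin 5) (Fin 5) k) (u t : L) :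
    QuadraticForm k (Fin 5 → L) :=
  LinearMap.compQuadraticMap' (τ ∘ₗ LinearMap.mulLeft k u) (mqf A B 1 (-t))

theorem vq_apply (τ : L →ₗ[k] k) (A B : Matrix (Fin 5) (Fin 5) k) (u t : L) (x : Fin 5 → L) :
    vq τ A B u t x = τ (u * mQ A B 1 (-t) x) := rfl

theorem vq_polar (τ : L →ₗ[k] k) (A B : Matrix (Fin 5) (Fin 5) k) (u t : L) (x y : Fin 5 → L) :
    QuadraticMap.polar (vq τ A B u t) x y = τ (u * mB A B 1 (-t) x y) := by
  rw [QuadraticMap.polar, vq_apply, vq_apply, vq_apply, mQ_add, mul_add, mul_add, map_add, map_add]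
  ring

/-- The member `(1, -t)` contains a line. -/
def Ln (A B : Matrix (Fin 5) (Fin 5) k) (t : L) : Prop :=
  ∃ p x : Fin 5 → L, LinearIndependent L ![p, x] ∧ mQ A B 1 (-t) p = 0 ∧ mQ A B 1 (-t) x = 0 ∧
    mB A B 1 (-t) p x = 0

/-- The value of the characteristic polynomial as a determinant. -/
theorem aeval_chp (A B : Matrix (Fin 5) (Fin 5) k) (t : L) :
    aeval t (Dq.chp A B) = ((A + A.transpose).map (algebraMap k L) -
      t • (B + B.transpose).map (algebraMap k L)).det := by
  rw [Dq.chp, AlgHom.map_det]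
  congr 1
  ext i j
  simp [AlgHom.mapMatrix_apply, Matrix.sub_apply, Matrix.smul_apply, Matrix.map_apply]

/-- The polar form of a matrix as a bilinear form. -/
theorem vq_bv {n : ℕ} (A : Matrix (Fin n) (Fin n) k) (x y : Fin n → L) :
    bv A x y = x ⬝ᵥ (Matrix.mulVec ((A + A.transpose).map (algebraMap k L)) y) := by
  have h1 : x ⬝ᵥ (Matrix.mulVec ((A + A.transpose).map (algebraMap k L)) y) =
      ∑ i, ∑ j, (algebraMap k L (A i j) * (x i * y j) + algebraMap k L (A j i) * (x i * y j)) := by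
    simp only [dotProduct, Matrix.mulVec, Matrix.map_apply, Matrix.add_apply,
      Matrix.transpose_apply, map_add, Finset.mul_sum]
    refine Finset.sum_congr rfl fun i _ => Finset.sum_congr rfl fun j _ => ?_
    ring
  rw [h1, bv]
  simp only [mul_add, Finset.sum_add_distrib]
  congr 1
  rw [Finset.sum_comm]
  refine Finset.sum_congr rfl fun i _ => Finset.sum_congr rfl fun j _ => ?_
  ring

/-- Proof: `mB A B 1 (-t) x y` is `x ⬝ᵥ (Matrix.mulVec G y)`, `G` the matrix of `aeval_chp`, which is invertible. -/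
theorem vq_ND {τ : L →ₗ[k] k} (hτ : NF τ) {A B : Matrix (Fin 5) (Fin 5) k} {u t : L}
    (hu : IsUnit u) (ht : IsUnit (aeval t (Dq.chp A B))) : ND (vq τ A B u t) := by
  classical
  intro x hx
  rw [aeval_chp] at ht
  set G : Matrix (Fin 5) (Fin 5) L := (A + A.transpose).map (algebraMap k L) -
      t • (B + B.transpose).map (algebraMap k L) with hG
  have hB : ∀ y : Fin 5 → L, mB A B 1 (-t) x y = x ⬝ᵥ (Matrix.mulVec G y) := by
    intro y
    rw [mB, vq_bv, vq_bv, hG, Matrix.sub_mulVec, Matrix.smul_mulVec, dotProduct_sub,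
      dotProduct_smul, smul_eq_mul]
    ring
  have h0 : ∀ y : Fin 5 → L, x ⬝ᵥ (Matrix.mulVec G y) = 0 := by
    intro y
    obtain ⟨v, hv⟩ := hu
    have h1 : u * (x ⬝ᵥ (Matrix.mulVec G y)) = 0 := by
      refine hτ _ fun c => ?_
      have h2 := hx (c • y)
      rw [vq_polar, mB_smul_right, hB] at h2
      rw [← h2]
      congr 1
      ring
    rw [← hv] at h1
    exact (Units.mul_right_eq_zero v).1 h1
  have h3 : Matrix.vecMul x G = 0 := by
    funext j
    have h4 := h0 (Pi.single j 1)
    rw [Matrix.dotProduct_mulVec] at h4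
    simpa using h4
  have h5 : Matrix.vecMul (Matrix.vecMul x G) G⁻¹ = x := by
    rw [Matrix.vecMul_vecMul, Matrix.mul_nonsing_inv _ ht, Matrix.vecMul_one]
  rw [← h5, h3, Matrix.zero_vecMul]

end defs

end Dr
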