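import Pool.Agent.Lib.MP_f80667_ag.Dr.Dl
import Pool.Agent.Lib.MP_f80667_ag.Dr.Vq
import Pool.Agent.Lib.MP_f80667_ag.ZC.Rel
import Pool.Agent.Lib.MP_f80667_ag.ZC.Orb
import Pool.Agent.Lib.MP_f80667_ag.Dr.NmG

/-!
Tangent hyperplanes. `g` is a monic polynomial of degree two over `k` which divides the characteristic
polynomial of the pencil, `E = k[T] / g` with the class `θ` of `T`, and `R` a vector over `E` which is
isotropic for the member `(1, -θ)`.

* `up g L`: the map from `k[T] / g` to `L[T] / g`.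
* `Lf A B g R y`: the value of the polar form of the member `(1, -θ)` at `R` and `y`, an element of
  `L[T] / g`.
* `nh A B g R y`: its norm, an element of `L`. It is a quadratic form in `y` with coefficients in `k`, the
  product of the equations of the tangent hyperplanes at `R` of the two degenerate members which belong
  to the zeros of `g`.
* `vl A B g R l y`: `nh (y)` divided by the square of the linear form `l (y)`.
* `Vc A B g R l z`: the value of this function at the zero-cycle `z`.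
* `Nd d c`: `c` is a norm from `k(√d)`.
-/

open Polynomial
open scoped LinearAlgebra.Projectivization

namespace Dr

open ZC Tq Dp

section defs

variable {k : Type*} [Field k]

/-- The extension of coefficients. -/
noncomputable def up (g : k[X]) (L : Type*) [CommRing L] [Algebra k L] :
    AdjoinRoot g →+* AdjoinRoot (g.map (algebraMap k L)) :=
  AdjoinRoot.lift ((AdjoinRoot.of (g.map (algebraMap k L))).comp (algebraMap k L))
    (AdjoinRoot.root (g.map (algebraMap k L)))
    (by rw [← eval₂_map]; exact AdjoinRoot.eval₂_root _)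

/-- The polar form with `R`. -/
noncomputable def Lf (A B : Matrix (Fin 5) (Fin 5) k) (g : k[X]) (R : Fin 5 → AdjoinRoot g)
    {L : Type*} [CommRing L] [Algebra k L] (y : Fin 5 → L) : AdjoinRoot (g.map (algebraMap k L)) :=
  mB A B 1 (-(AdjoinRoot.root (g.map (algebraMap k L)))) (fun i => up g L (R i))
    (fun i => AdjoinRoot.of (g.map (algebraMap k L)) (y i))

/-- Its norm. -/
noncomputable def nh (A B : Matrix (Fin 5) (Fin 5) k) (g : k[X]) (R : Fin 5 → AdjoinRoot g)
    {L : Type*} [CommRing L] [Algebra k L] (y : Fin 5 → L) : L :=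
  Algebra.norm L (Lf A B g R y)

/-- The rational function. -/
noncomputable def vl (A B : Matrix (Fin 5) (Fin 5) k) (g : k[X]) (R : Fin 5 → AdjoinRoot g)
    (l : Fin 5 → k) {L : Type*} [Field L] [Algebra k L] (y : Fin 5 → L) : L :=
  nh A B g R y / (∑ i, algebraMap k L (l i) * y i) ^ 2

/-- The value at a zero-cycle. -/
noncomputable def Vc (A B : Matrix (Fin 5) (Fin 5) k) (g : k[X]) (R : Fin 5 → AdjoinRoot g)
    (l : Fin 5 → k) {Ω : Type*} [Field Ω] [Algebra k Ω] (z : ℙ Ω (Fin 5 → Ω) →₀ ℤ) : Ω :=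
  z.prod fun y n => vl A B g R l y.rep ^ n

/-- The function has no zero or pole on the support of `z`. -/
def Off (A B : Matrix (Fin 5) (Fin 5) k) (g : k[X]) (R : Fin 5 → AdjoinRoot g)
    (l : Fin 5 → k) {Ω : Type*} [Field Ω] [Algebra k Ω] (z : ℙ Ω (Fin 5 → Ω) →₀ ℤ) : Prop :=
  ∀ y ∈ z.support, nh A B g R y.rep ≠ 0 ∧ ∑ i, algebraMap k Ω (l i) * y.rep i ≠ 0

/-- `c` is a norm from `k(√d)`. -/
def Nd (d c : k) : Prop := ∃ a b : k, c = a ^ 2 - d * b ^ 2

end defs

section api

variable {k : Type*} [Field k] {A B : Matrix (Fin 5) (Fin 5) k} {g : k[X]}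
  {R : Fin 5 → AdjoinRoot g} {l : Fin 5 → k}

theorem Nd.mul {d c c' : k} (h : Nd d c) (h' : Nd d c') : Nd d (c * c') := by
  obtain ⟨a, b, rfl⟩ := h
  obtain ⟨a', b', rfl⟩ := h'
  exact ⟨a * a' + d * (b * b'), a * b' + b * a', by ring⟩

theorem Nd.sq (d c : k) : Nd d (c ^ 2) := ⟨c, 0, by ring⟩

theorem Nd.inv {d c : k} (h : Nd d c) : Nd d c⁻¹ := by
  obtain ⟨a, b, rfl⟩ := h
  by_cases h0 : a ^ 2 - d * b ^ 2 = 0
  · exact ⟨0, 0, by rw [h0, inv_zero]; ring⟩
  · refine ⟨a / (a ^ 2 - d * b ^ 2), b / (a ^ 2 - d * b ^ 2), ?_⟩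
    field_simp

theorem up_of {L : Type*} [CommRing L] [Algebra k L] (x : k) :
    up g L (algebraMap k _ x) = AdjoinRoot.of _ (algebraMap k L x) :=
  AdjoinRoot.lift_of _

theorem up_root {L : Type*} [CommRing L] [Algebra k L] :
    up g L (AdjoinRoot.root g) = AdjoinRoot.root (g.map (algebraMap k L)) :=
  AdjoinRoot.lift_root _

theorem Lf_smul {L : Type*} [CommRing L] [Algebra k L] (c : L) (y : Fin 5 → L) :
    Lf A B g R (c • y) = AdjoinRoot.of _ c * Lf A B g R y := by
  rw [Lf, Lf, ← mB_smul_right]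
  congr 1
  funext i
  rw [Pi.smul_apply, Pi.smul_apply, smul_eq_mul, smul_eq_mul, map_mul]

/-- Proof: the norm of a constant is its power with exponent the degree. -/
theorem nh_smul (hg : g.Monic) (h2 : g.natDegree = 2) {L : Type*} [Field L] [Algebra k L] (c : L)
    (y : Fin 5 → L) : nh A B g R (c • y) = c ^ 2 * nh A B g R y := by
  rw [nh, nh, Lf_smul, map_mul]
  congr 1
  have h3 := Algebra.norm_algebraMap_of_basis
    (AdjoinRoot.powerBasis' (hg.map (algebraMap k L))).basis c
  rw [Fintype.card_fin] at h3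
  have h4 : (AdjoinRoot.powerBasis' (hg.map (algebraMap k L))).dim = 2 :=
    (hg.natDegree_map _).trans h2
  rw [h4] at h3
  exact h3

/-- The extension of coefficients from `L` to `L'`. -/
noncomputable def upa (g : k[X]) {L L' : Type*} [CommRing L] [Algebra k L] [CommRing L']
    [Algebra k L'] (f : L →ₐ[k] L') :
    AdjoinRoot (g.map (algebraMap k L)) →+* AdjoinRoot (g.map (algebraMap k L')) :=
  AdjoinRoot.lift ((AdjoinRoot.of (g.map (algebraMap k L'))).comp (f : L →+* L'))
    (AdjoinRoot.root (g.map (algebraMap k L')))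
    (by
      have h := AdjoinRoot.eval₂_root (g.map (algebraMap k L'))
      rw [eval₂_map] at h
      rw [eval₂_map, RingHom.comp_assoc, f.comp_algebraMap]
      exact h)

theorem upa_of {L L' : Type*} [CommRing L] [Algebra k L] [CommRing L'] [Algebra k L']
    (f : L →ₐ[k] L') (x : L) : upa g f (AdjoinRoot.of _ x) = AdjoinRoot.of _ (f x) :=
  AdjoinRoot.lift_of _

theorem upa_root {L L' : Type*} [CommRing L] [Algebra k L] [CommRing L'] [Algebra k L']
    (f : L →ₐ[k] L') : upa g f (AdjoinRoot.root _) = AdjoinRoot.root _ :=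
  AdjoinRoot.lift_root _

theorem upa_up {L L' : Type*} [CommRing L] [Algebra k L] [CommRing L'] [Algebra k L']
    (f : L →ₐ[k] L') (x : AdjoinRoot g) : upa g f (up g L x) = up g L' x := by
  induction x using AdjoinRoot.induction_on with
  | ih p =>
    rw [up, AdjoinRoot.lift_mk, up, AdjoinRoot.lift_mk, hom_eval₂, upa_root]
    congr 1
    ext x
    rw [RingHom.comp_apply, RingHom.comp_apply, RingHom.comp_apply, upa_of, f.commutes]

theorem Lf_upa {L L' : Type*} [CommRing L] [Algebra k L] [CommRing L'] [Algebra k L']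
    (f : L →ₐ[k] L') (y : Fin 5 → L) :
    Lf A B g R (fun i => f (y i)) = upa g f (Lf A B g R y) := by
  let φ : AdjoinRoot (g.map (algebraMap k L)) →ₐ[k] AdjoinRoot (g.map (algebraMap k L')) :=
    { upa g f with
      commutes' := fun x => by
        change upa g f (AdjoinRoot.of _ (algebraMap k L x)) =
          AdjoinRoot.of _ (algebraMap k L' x)
        rw [upa_of, f.commutes] }
  have hφ : ∀ x, φ x = upa g f x := fun x => rfl
  rw [← hφ, Lf, Lf, ← mB_hom φ]
  congr 1
  · rw [map_one]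
  · rw [map_neg, hφ, upa_root]
  · funext i
    rw [hφ, upa_up]
  · funext i
    rw [hφ, upa_of]

/-- Proof: the norm commutes with the change of coefficients (`Algebra.norm` as a determinant in the basis
of the powers of the root). -/
theorem nh_hom (hg : g.Monic) {L L' : Type*} [CommRing L] [Algebra k L] [CommRing L'] [Algebra k L']
    (f : L →ₐ[k] L') (y : Fin 5 → L) : nh A B g R (fun i => f (y i)) = f (nh A B g R y) := by
  rcases subsingleton_or_nontrivial L' with h | h
  · exact Subsingleton.elim _ _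
  · rw [nh, nh, Lf_upa]
    refine norm_adj (f : L →+* L') (hg.map _) ?_ (upa g f) (fun x => upa_of f x) (upa_root f) _
    rw [Polynomial.map_map, f.comp_algebraMap]

theorem vl_smul (hg : g.Monic) (h2 : g.natDegree = 2) {L : Type*} [Field L] [Algebra k L] {c : L}
    (hc : c ≠ 0) (y : Fin 5 → L) : vl A B g R l (c • y) = vl A B g R l y := by
  have h3 : ∑ i, algebraMap k L (l i) * (c • y) i = c * ∑ i, algebraMap k L (l i) * y i := by
    rw [Finset.mul_sum]
    refine Finset.sum_congr rfl fun i _ => ?_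
    rw [Pi.smul_apply, smul_eq_mul]
    ring
  rw [vl, vl, nh_smul hg h2, h3, mul_pow, mul_div_mul_left _ _ (pow_ne_zero 2 hc)]

theorem vl_hom (hg : g.Monic) {L L' : Type*} [Field L] [Algebra k L] [Field L'] [Algebra k L']
    (f : L →ₐ[k] L') (y : Fin 5 → L) : vl A B g R l (fun i => f (y i)) = f (vl A B g R l y) := by
  have h3 : ∑ i, algebraMap k L' (l i) * f (y i) = f (∑ i, algebraMap k L (l i) * y i) := by
    rw [map_sum]
    refine Finset.sum_congr rfl fun i _ => ?_
    rw [map_mul, f.commutes]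
  rw [vl, vl, nh_hom hg, map_div₀, map_pow, h3]

variable {Ω : Type*} [Field Ω] [Algebra k Ω]

theorem Off.vl_ne {z : ℙ Ω (Fin 5 → Ω) →₀ ℤ} (h : Off A B g R l z) {y : ℙ Ω (Fin 5 → Ω)}
    (hy : y ∈ z.support) : vl A B g R l y.rep ≠ 0 :=
  div_ne_zero (h y hy).1 (pow_ne_zero 2 (h y hy).2)

theorem Vc_add {z z' : ℙ Ω (Fin 5 → Ω) →₀ ℤ} (h : Off A B g R l z) (h' : Off A B g R l z') :
    Off A B g R l (z + z') ∧ Vc A B g R l (z + z') = Vc A B g R l z * Vc A B g R l z' := by
  classical
  constructor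
  · intro y hy
    rcases Finset.mem_union.1 (Finsupp.support_add hy) with hy | hy
    · exact h y hy
    · exact h' y hy
  · rw [Vc, Vc, Vc]
    refine Finsupp.prod_add_index (fun y _ => zpow_zero _) (fun y hy a b => ?_)
    refine zpow_add₀ ?_ _ _
    rcases Finset.mem_union.1 hy with hy | hy
    · exact h.vl_ne hy
    · exact h'.vl_ne hy

theorem Vc_smul {z : ℙ Ω (Fin 5 → Ω) →₀ ℤ} (h : Off A B g R l z) (m : ℤ) :
    Off A B g R l (m • z) ∧ Vc A B g R l (m • z) = Vc A B g R l z ^ m := by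
  constructor
  · intro y hy
    exact h y (Finsupp.support_smul hy)
  · have h3 : m • z = z.mapRange (fun n => m * n) (mul_zero m) := by
      ext y
      simp
    rw [Vc, Vc, h3, Finsupp.prod_mapRange_index (fun y => zpow_zero _), Finsupp.prod,
      Finsupp.prod, ← Finset.prod_zpow]
    refine Finset.prod_congr rfl fun y _ => ?_
    rw [mul_comm, zpow_mul]

theorem Vc_single {y : ℙ Ω (Fin 5 → Ω)} (n : ℤ) :
    Vc A B g R l (Finsupp.single y n) = vl A B g R l y.rep ^ n :=
  Finsupp.prod_single_index (zpow_zero _)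

/-- Invariant cycles have values in `k`. Proof: `vl_hom`, the fixed field of the automorphisms. -/
theorem Vc_mem [CharZero k] [IsAlgClosure k Ω] (hg : g.Monic) (h2 : g.natDegree = 2)
    {z : ℙ Ω (Fin 5 → Ω) →₀ ℤ}
    (hz : ∀ (σ : Ω ≃ₐ[k] Ω) (x : ℙ Ω (Fin 5 → Ω)), z (mapPt (σ : Ω →+* Ω) x) = z x)
    (h : Off A B g R l z) : ∃ c : k, c ≠ 0 ∧ algebraMap k Ω c = Vc A B g R l z := by
  classical
  have hne : Vc A B g R l z ≠ 0 :=
    Finset.prod_ne_zero_iff.2 fun y hy => zpow_ne_zero _ (h.vl_ne hy)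
  have hfix : ∀ σ : Ω ≃ₐ[k] Ω, σ (Vc A B g R l z) = Vc A B g R l z := by
    intro σ
    have h3 : ∀ y : ℙ Ω (Fin 5 → Ω), σ (vl A B g R l y.rep) =
        vl A B g R l (mapPt (σ : Ω →+* Ω) y).rep := by
      intro y
      obtain ⟨c, hc, h4⟩ := mapPt_rep (σ : Ω →+* Ω) y
      rw [h4, vl_smul hg h2 hc]
      exact (vl_hom hg (σ : Ω →ₐ[k] Ω) y.rep).symm
    have hinv : ∀ x : ℙ Ω (Fin 5 → Ω),
        mapPt (σ : Ω →+* Ω) (mapPt (σ.symm : Ω →+* Ω) x) = x := by
      intro x
      rw [mapPt_mapPt]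
      have hid : ((σ : Ω →+* Ω)).comp (σ.symm : Ω →+* Ω) = RingHom.id Ω := by
        ext z; simp
      rw [hid, mapPt]
      conv_rhs => rw [← x.mk_rep]
      rfl
    have hinv' : ∀ x : ℙ Ω (Fin 5 → Ω),
        mapPt (σ.symm : Ω →+* Ω) (mapPt (σ : Ω →+* Ω) x) = x := by
      intro x
      rw [mapPt_mapPt]
      have hid : ((σ.symm : Ω →+* Ω)).comp (σ : Ω →+* Ω) = RingHom.id Ω := by
        ext z; simp
      rw [hid, mapPt]
      conv_rhs => rw [← x.mk_rep]
      rfl
    rw [Vc, Finsupp.prod, map_prod]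
    refine Finset.prod_bij' (fun y _ => mapPt (σ : Ω →+* Ω) y)
      (fun y _ => mapPt (σ.symm : Ω →+* Ω) y) ?_ ?_ (fun y _ => hinv' y) (fun y _ => hinv y) ?_
    · intro y hy
      rw [Finsupp.mem_support_iff] at hy ⊢
      rwa [hz]
    · intro y hy
      rw [Finsupp.mem_support_iff] at hy ⊢
      rwa [← hz σ, hinv]
    · intro y hy
      rw [map_zpow₀, h3, hz]
  have halg : Algebra.IsAlgebraic k Ω := IsAlgClosure.isAlgebraic
  have hcl : IsAlgClosed Ω := IsAlgClosure.isAlgClosed k
  have hmem : Vc A B g R l z ∈ (⊥ : IntermediateField k Ω) := by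
    have h5 : Vc A B g R l z ∈
        IntermediateField.fixedField (⊥ : IntermediateField k Ω).fixingSubgroup := by
      rw [IntermediateField.mem_fixedField_iff]
      exact fun σ _ => hfix σ
    rwa [InfiniteGalois.fixedField_fixingSubgroup] at h5
  obtain ⟨c, hc⟩ := IntermediateField.mem_bot.1 hmem
  refine ⟨c, ?_, hc⟩
  rintro rfl
  exact hne (by rw [← hc, map_zero])

end api

end Dr
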