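import Pool.Agent.Lib.MP_f80667_ag.Dr.Dl
import Pool.Agent.Lib.MP_f80667_ag.Dr.Vq

/-! Quadratic identities over extension rings. -/

open Polynomial

namespace Dr

open ZC Tq Dp

/-- Quadratic identities hold over all extension rings. Proof: compare the coefficients. -/
theorem quad_ext {k K : Type*} [Field k] [Field K] [CharZero K] [Algebra k K]
    {A B : Matrix (Fin 5) (Fin 5) k} {e c δ : K} {R ρ σ τ : Fin 5 → K}
    (h : ∀ u : Fin 5 → K, mQ A B 1 (-e) u = c * ((∑ i, ρ i * u i) ^ 2 - δ * (∑ i, σ i * u i) ^ 2) +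
        mB A B 1 (-e) R u * ∑ i, τ i * u i) {L : Type*} [CommRing L] [Algebra k L] (φ : K →+* L)
    (hφ : ∀ x : k, φ (algebraMap k K x) = algebraMap k L x) (u : Fin 5 → L) :
    mQ A B 1 (-(φ e)) u = φ c * ((∑ i, φ (ρ i) * u i) ^ 2 - φ δ * (∑ i, φ (σ i) * u i) ^ 2) +
        mB A B 1 (-(φ e)) (fun i => φ (R i)) u * ∑ i, φ (τ i) * u i := by
  classical
  haveI : Infinite K := Infinite.of_injective (Nat.cast : ℕ → K) Nat.cast_injective
  have hP : mQ A B (1 : MvPolynomial (Fin 5) K) (-(MvPolynomial.C e)) (fun i => MvPolynomial.X i) =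
      MvPolynomial.C c * ((∑ i, MvPolynomial.C (ρ i) * MvPolynomial.X i) ^ 2 -
        MvPolynomial.C δ * (∑ i, MvPolynomial.C (σ i) * MvPolynomial.X i) ^ 2) +
      mB A B 1 (-(MvPolynomial.C e)) (fun i => MvPolynomial.C (R i)) (fun i => MvPolynomial.X i) *
        ∑ i, MvPolynomial.C (τ i) * MvPolynomial.X i := by
    refine MvPolynomial.funext fun v => ?_
    have h1 := h v
    let f : MvPolynomial (Fin 5) K →ₐ[k] K :=
      (MvPolynomial.aeval v : MvPolynomial (Fin 5) K →ₐ[K] K).restrictScalars k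
    have hf : ∀ P, MvPolynomial.eval v P = f P := fun P => by
      simp [f, MvPolynomial.aeval_eq_eval]
    have hC : ∀ a, f (MvPolynomial.C a) = a := fun a => by simp [f]
    have hX : ∀ i, f (MvPolynomial.X i) = v i := fun i => by simp [f]
    rw [hf, hf]
    simp only [map_add, map_mul, map_sub, map_pow, map_sum, ← mQ_hom, ← mB_hom, map_neg, map_one,
      hC, hX]
    exact h1
  let g : MvPolynomial (Fin 5) K →ₐ[k] L :=
    { MvPolynomial.eval₂Hom φ u with
      commutes' := fun x => by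
        have h2 : algebraMap k (MvPolynomial (Fin 5) K) x =
          MvPolynomial.C (algebraMap k K x) := rfl
        simp only [RingHom.toMonoidHom_eq_coe, OneHom.toFun_eq_coe, MonoidHom.toOneHom_coe,
          MonoidHom.coe_coe, h2, MvPolynomial.coe_eval₂Hom, MvPolynomial.eval₂_C, hφ] }
  have hC : ∀ a, g (MvPolynomial.C a) = φ a := fun a => MvPolynomial.eval₂_C _ _ _
  have hX : ∀ i, g (MvPolynomial.X i) = u i := fun i => MvPolynomial.eval₂_X _ _ _
  have h3 := congrArg g hP
  simp only [map_add, map_mul, map_sub, map_pow, map_sum, ← mQ_hom, ← mB_hom, map_neg, map_one,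
      hC, hX] at h3
  exact h3

end Dr
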