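import Pool.Agent.Lib.MP_f80667_ag.Dr.BrT
import Pool.Agent.Lib.MP_f80667_ag.Dr.BrQ

/-! The tangent hyperplanes over `k[T] / g`, `g` of degree two. -/

open Polynomial

namespace Dr

open ZC Tq Dp

section aux

/-- The member as a sum over pairs of indices. -/
private theorem BrE_mQ {k K : Type*} [Field k] [CommRing K] [Algebra k K]
    (A B : Matrix (Fin 5) (Fin 5) k) (a b : K) (u : Fin 5 → K) :
    mQ A B a b u = ∑ i, ∑ j, (a * algebraMap k K (A i j) + b * algebraMap k K (B i j)) *
      (u i * u j) := by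
  rw [mQ, qv, qv, Finset.mul_sum, Finset.mul_sum, ← Finset.sum_add_distrib]
  refine Finset.sum_congr rfl fun i _ => ?_
  rw [Finset.mul_sum, Finset.mul_sum, ← Finset.sum_add_distrib]
  refine Finset.sum_congr rfl fun j _ => ?_
  ring

/-- The polar form as a sum. -/
private theorem BrE_mB {k K : Type*} [Field k] [CommRing K] [Algebra k K]
    (A B : Matrix (Fin 5) (Fin 5) k) (a b : K) (x u : Fin 5 → K) :
    mB A B a b x u = ∑ j, (∑ i, ((a * algebraMap k K (A i j) + b * algebraMap k K (B i j)) * x i +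
      (a * algebraMap k K (A j i) + b * algebraMap k K (B j i)) * x i)) * u j := by
  have h1 : ∀ H : Matrix (Fin 5) (Fin 5) k, bv H x u =
      ∑ j, (∑ i, (algebraMap k K (H i j) * x i + algebraMap k K (H j i) * x i)) * u j := by
    intro H
    have h2 : bv H x u = (∑ i, ∑ j, algebraMap k K (H i j) * (x i * u j)) +
        ∑ i, ∑ j, algebraMap k K (H i j) * (x j * u i) := by
      rw [bv, ← Finset.sum_add_distrib]
      refine Finset.sum_congr rfl fun i _ => ?_
      rw [← Finset.sum_add_distrib]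
      refine Finset.sum_congr rfl fun j _ => ?_
      ring
    rw [h2, Finset.sum_comm, ← Finset.sum_add_distrib]
    refine Finset.sum_congr rfl fun j _ => ?_
    rw [Finset.sum_mul, ← Finset.sum_add_distrib]
    refine Finset.sum_congr rfl fun i _ => ?_
    ring
  rw [mB, h1 A, h1 B, Finset.mul_sum, Finset.mul_sum, ← Finset.sum_add_distrib]
  refine Finset.sum_congr rfl fun j _ => ?_
  rw [← mul_assoc, ← mul_assoc, ← add_mul, Finset.mul_sum, Finset.mul_sum,
    ← Finset.sum_add_distrib]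
  congr 1
  refine Finset.sum_congr rfl fun i _ => ?_
  ring

/-- A quadratic form with the value `0` everywhere has an alternating matrix. -/
private theorem BrE_alt {K : Type*} [CommRing K] {M : Fin 5 → Fin 5 → K}
    (h : ∀ u : Fin 5 → K, ∑ i, ∑ j, M i j * (u i * u j) = 0) (a b : Fin 5) :
    M a b + M b a = 0 := by
  have h1 := h (Pi.single a 1 + Pi.single b 1)
  have h2 := h (Pi.single a 1)
  have h3 := h (Pi.single b 1)
  have h4 : ∀ c d : Fin 5, ∑ i, ∑ j, M i j * ((Pi.single c 1 : Fin 5 → K) i *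
      (Pi.single d 1 : Fin 5 → K) j) = M c d := by
    intro c d
    rw [Finset.sum_eq_single c, Finset.sum_eq_single d]
    · rw [Pi.single_eq_same, Pi.single_eq_same, mul_one, mul_one]
    · intro j _ hj
      rw [Pi.single_eq_of_ne hj, mul_zero, mul_zero]
    · intro hd
      exact absurd (Finset.mem_univ d) hd
    · intro i _ hi
      refine Finset.sum_eq_zero fun j _ => ?_
      rw [Pi.single_eq_of_ne hi, zero_mul, mul_zero]
    · intro hc
      exact absurd (Finset.mem_univ c) hc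
  rw [h4] at h2 h3
  have h5 : ∑ i, ∑ j, M i j * ((Pi.single a 1 + Pi.single b 1 : Fin 5 → K) i *
      (Pi.single a 1 + Pi.single b 1 : Fin 5 → K) j) = (M a a + M a b) + (M b a + M b b) := by
    rw [← h4 a a, ← h4 a b, ← h4 b a, ← h4 b b, ← Finset.sum_add_distrib,
      ← Finset.sum_add_distrib, ← Finset.sum_add_distrib]
    refine Finset.sum_congr rfl fun i _ => ?_
    rw [← Finset.sum_add_distrib, ← Finset.sum_add_distrib, ← Finset.sum_add_distrib]
    refine Finset.sum_congr rfl fun j _ => ?_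
    rw [Pi.add_apply, Pi.add_apply]
    ring
  rw [h5, h2, h3, zero_add, add_zero] at h1
  exact h1

/-- A quadratic form with an alternating matrix is zero. -/
private theorem BrE_zero {L : Type*} [CommRing L] (h2 : IsUnit (2 : L)) {M : Fin 5 → Fin 5 → L}
    (h : ∀ a b, M a b + M b a = 0) (u : Fin 5 → L) : ∑ i, ∑ j, M i j * (u i * u j) = 0 := by
  have h3 : (2 : L) * ∑ i, ∑ j, M i j * (u i * u j) = 0 := by
    have h4 : ∑ i, ∑ j, M i j * (u i * u j) = ∑ i, ∑ j, M j i * (u i * u j) := by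
      rw [Finset.sum_comm]
      refine Finset.sum_congr rfl fun i _ => Finset.sum_congr rfl fun j _ => ?_
      ring
    rw [two_mul]
    nth_rewrite 2 [h4]
    rw [← Finset.sum_add_distrib]
    refine Finset.sum_eq_zero fun i _ => ?_
    rw [← Finset.sum_add_distrib]
    refine Finset.sum_eq_zero fun j _ => ?_
    rw [← add_mul, h, zero_mul]
  exact (h2.mul_right_eq_zero).1 h3

/-- The square of a linear form. -/
private theorem BrE_sq {K : Type*} [CommRing K] (r t u : Fin 5 → K) :
    (∑ i, r i * u i) * (∑ i, t i * u i) = ∑ i, ∑ j, r i * t j * (u i * u j) := by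
  rw [Finset.sum_mul_sum]
  refine Finset.sum_congr rfl fun i _ => Finset.sum_congr rfl fun j _ => ?_
  ring

/-- The difference of the two sides as a sum over pairs of indices. -/
private theorem BrE_diff {k K : Type*} [Field k] [CommRing K] [Algebra k K]
    (A B : Matrix (Fin 5) (Fin 5) k) (e c δ : K) (R ρ σ τ u : Fin 5 → K) :
    mQ A B 1 (-e) u - (c * ((∑ i, ρ i * u i) ^ 2 - δ * (∑ i, σ i * u i) ^ 2) +
        mB A B 1 (-e) R u * ∑ i, τ i * u i) =
      ∑ i, ∑ j, ((1 * algebraMap k K (A i j) + -e * algebraMap k K (B i j)) -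
        (c * (ρ i * ρ j - δ * (σ i * σ j)) +
        (∑ l, ((1 * algebraMap k K (A l i) + -e * algebraMap k K (B l i)) * R l +
          (1 * algebraMap k K (A i l) + -e * algebraMap k K (B i l)) * R l)) * τ j)) *
        (u i * u j) := by
  rw [BrE_mQ, BrE_mB, BrE_sq, pow_two, pow_two, BrE_sq, BrE_sq]
  rw [Finset.mul_sum (s := Finset.univ) (a := δ), ← Finset.sum_sub_distrib,
    Finset.mul_sum, ← Finset.sum_add_distrib, ← Finset.sum_sub_distrib]
  refine Finset.sum_congr rfl fun i _ => ?_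
  rw [Finset.mul_sum (a := δ), ← Finset.sum_sub_distrib,
    Finset.mul_sum, ← Finset.sum_add_distrib, ← Finset.sum_sub_distrib]
  refine Finset.sum_congr rfl fun j _ => ?_
  ring

/-- Quadratic identities hold over all extension rings. -/
private theorem BrE_ext {k K : Type*} [Field k] [CharZero k] [CommRing K] [Algebra k K]
    {A B : Matrix (Fin 5) (Fin 5) k} {e c δ : K} {R ρ σ τ : Fin 5 → K}
    (h : ∀ u : Fin 5 → K, mQ A B 1 (-e) u = c * ((∑ i, ρ i * u i) ^ 2 - δ * (∑ i, σ i * u i) ^ 2) +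
        mB A B 1 (-e) R u * ∑ i, τ i * u i) {L : Type*} [CommRing L] [Algebra k L] (φ : K →+* L)
    (hφ : ∀ x : k, φ (algebraMap k K x) = algebraMap k L x) (u : Fin 5 → L) :
    mQ A B 1 (-(φ e)) u = φ c * ((∑ i, φ (ρ i) * u i) ^ 2 - φ δ * (∑ i, φ (σ i) * u i) ^ 2) +
        mB A B 1 (-(φ e)) (fun i => φ (R i)) u * ∑ i, φ (τ i) * u i := by
  have h1 := BrE_alt fun v => (BrE_diff A B e c δ R ρ σ τ v).symm.trans (sub_eq_zero.2 (h v))
  have h2 : IsUnit (2 : L) := by
    have h3 : IsUnit (algebraMap k L 2) := (IsUnit.mk0 (2 : k) two_ne_zero).map _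
    rwa [map_ofNat] at h3
  rw [← sub_eq_zero, BrE_diff]
  refine BrE_zero h2 (fun a b => ?_) u
  have h3 := congrArg φ (h1 a b)
  simp only [map_add, map_sub, map_mul, map_neg, map_one, map_zero, map_sum, hφ] at h3
  exact h3

end aux

variable {k : Type} [Field k] [CharZero k] {A B : Matrix (Fin 5) (Fin 5) k} {w : Fin 5 → k}
  {g s : k[X]} {d : k} {R : Fin 5 → AdjoinRoot g}

/-- Proof: if `g` is irreducible, `k[T] / g` is a field and this is `tangent` and `quad_ext` for
`φ`, with `σ` replaced by `s σ` (`dl = d s²` modulo `g`). Otherwise `g = (T - e₁) (T - e₂)`, `e₁ ≠ e₂` in `k`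
(`g` is separable), `k[T] / g = k × k`; take `tangent` for `e₁` and `e₂` and elements of `k[T] / g` with the
given components; an identity in `L` holds if it holds in the two quotients of `L` defined by the
idempotents (or: multiply by the idempotents). `R` is not in the radical at `e₁`, `e₂` since some value of
the polar form is a unit. -/
theorem tangentE (hg : g.Monic) (h2 : g.natDegree = 2) (hgc : g ∣ Dq.chp A B)
    (hs : (Dq.chp A B).Separable) (hδ : IsCoprime g (dl A B w)) (hd : g ∣ dl A B w - C d * s ^ 2)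
    (hR : mQ A B 1 (-(AdjoinRoot.root g)) R = 0)
    (hr : ∃ y, IsUnit (mB A B 1 (-(AdjoinRoot.root g)) R y)) :
    ∃ (c : AdjoinRoot g) (ρ σ τ : Fin 5 → AdjoinRoot g), IsUnit c ∧
      ∀ (L : Type) [CommRing L] [Algebra k L] (φ : AdjoinRoot g →+* L)
        (_ : ∀ x : k, φ (algebraMap k _ x) = algebraMap k L x) (u : Fin 5 → L),
        mQ A B 1 (-(φ (AdjoinRoot.root g))) u =
          φ c * ((∑ i, φ (ρ i) * u i) ^ 2 - algebraMap k L d * (∑ i, φ (σ i) * u i) ^ 2) +
        mB A B 1 (-(φ (AdjoinRoot.root g))) (fun i => φ (R i)) u * ∑ i, φ (τ i) * u i := by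
  have hfin : Module.Finite k (AdjoinRoot g) := hg.finite_adjoinRoot
  have hart : IsArtinianRing (AdjoinRoot g) := IsArtinianRing.of_finite k _
  have hsq : Squarefree g := (hs.of_dvd hgc).squarefree
  have hred : IsReduced (AdjoinRoot g) :=
    (Ideal.isRadical_iff_quotient_reduced _).1 (isRadical_iff_span_singleton.1 hsq.isRadical)
  have key : ∀ m : MaximalSpectrum (AdjoinRoot g), ∃ (c : AdjoinRoot g ⧸ m.asIdeal)
      (ρ σ τ : Fin 5 → AdjoinRoot g ⧸ m.asIdeal), IsUnit c ∧ ∀ u : Fin 5 → AdjoinRoot g ⧸ m.asIdeal,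
        mQ A B 1 (-(Ideal.Quotient.mk m.asIdeal (AdjoinRoot.root g))) u =
          c * ((∑ i, ρ i * u i) ^ 2 - algebraMap k _ d * (∑ i, σ i * u i) ^ 2) +
        mB A B 1 (-(Ideal.Quotient.mk m.asIdeal (AdjoinRoot.root g)))
          (fun i => Ideal.Quotient.mk m.asIdeal (R i)) u * ∑ i, τ i * u i := by
    intro m
    have hm := m.isMaximal
    letI : Field (AdjoinRoot g ⧸ m.asIdeal) := Ideal.Quotient.field m.asIdeal
    have hch : CharZero (AdjoinRoot g ⧸ m.asIdeal) :=
      charZero_of_injective_algebraMap (algebraMap k (AdjoinRoot g ⧸ m.asIdeal)).injective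
    obtain ⟨ψ, hψ⟩ : ∃ ψ : AdjoinRoot g →ₐ[k] AdjoinRoot g ⧸ m.asIdeal,
        ∀ x, ψ x = Ideal.Quotient.mk m.asIdeal x := ⟨Ideal.Quotient.mkₐ k m.asIdeal, fun _ => rfl⟩
    have hev : ∀ p : k[X], aeval (ψ (AdjoinRoot.root g)) p = ψ (AdjoinRoot.mk g p) := by
      intro p
      rw [Polynomial.aeval_algHom_apply, AdjoinRoot.aeval_eq]
    have hev0 : ∀ p : k[X], g ∣ p → aeval (ψ (AdjoinRoot.root g)) p = 0 := by
      intro p hp
      rw [hev, AdjoinRoot.mk_eq_zero.2 hp, map_zero]
    have he := hev0 _ hgc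
    have hs' : aeval (ψ (AdjoinRoot.root g)) (derivative (Dq.chp A B)) ≠ 0 := by
      intro h0
      obtain ⟨a, b, hab⟩ := hs
      have h1 := congrArg (aeval (ψ (AdjoinRoot.root g))) hab
      rw [map_add, map_mul, map_mul, he, h0, mul_zero, mul_zero, add_zero, map_one] at h1
      exact zero_ne_one h1
    have hδ' : aeval (ψ (AdjoinRoot.root g)) (dl A B w) ≠ 0 := by
      intro h0
      obtain ⟨a, b, hab⟩ := hδ
      have h1 := congrArg (aeval (ψ (AdjoinRoot.root g))) hab
      rw [map_add, map_mul, map_mul, hev0 g dvd_rfl, h0, mul_zero, mul_zero, add_zero,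
        map_one] at h1
      exact zero_ne_one h1
    have hdl : aeval (ψ (AdjoinRoot.root g)) (dl A B w) =
        algebraMap k _ d * aeval (ψ (AdjoinRoot.root g)) s ^ 2 := by
      have h1 := hev0 _ hd
      rw [map_sub, map_mul, map_pow, aeval_C] at h1
      exact sub_eq_zero.1 h1
    have hR' : mQ A B 1 (-(ψ (AdjoinRoot.root g))) (fun i => ψ (R i)) = 0 := by
      have h1 := mQ_hom (A := A) (B := B) ψ 1 (-(AdjoinRoot.root g)) R
      rwa [hR, map_zero, map_one, map_neg] at h1
    have hr' : ∃ y, mB A B 1 (-(ψ (AdjoinRoot.root g))) (fun i => ψ (R i)) y ≠ 0 := by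
      obtain ⟨y, hy⟩ := hr
      refine ⟨fun i => ψ (y i), ?_⟩
      have h1 := mB_hom (A := A) (B := B) ψ 1 (-(AdjoinRoot.root g)) R y
      rw [map_one, map_neg] at h1
      rw [h1]
      exact (hy.map ψ).ne_zero
    obtain ⟨c, ρ, σ, τ, hc, hu⟩ := tangent he hs' hδ' hR' hr'
    refine ⟨c, ρ, fun i => aeval (ψ (AdjoinRoot.root g)) s * σ i, τ, IsUnit.mk0 c hc, fun u => ?_⟩
    have h1 := hu u
    rw [hdl] at h1
    have h2 : ∑ i, aeval (ψ (AdjoinRoot.root g)) s * σ i * u i =
        aeval (ψ (AdjoinRoot.root g)) s * ∑ i, σ i * u i := by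
      rw [Finset.mul_sum]
      exact Finset.sum_congr rfl fun i _ => mul_assoc _ _ _
    have h3 : (fun i => Ideal.Quotient.mk m.asIdeal (R i)) = fun i => ψ (R i) :=
      funext fun i => (hψ _).symm
    rw [h2, h3, ← hψ, mul_pow, ← mul_assoc (algebraMap k _ d)]
    exact h1
  choose c ρ σ τ hc hu using key
  obtain ⟨E, hE⟩ : ∃ E : AdjoinRoot g ≃+* (∀ m : MaximalSpectrum (AdjoinRoot g),
      AdjoinRoot g ⧸ m.asIdeal), ∀ x m, E x m = Ideal.Quotient.mk m.asIdeal x :=
    ⟨(IsArtinianRing.equivPi (AdjoinRoot g)).toRingEquiv, fun _ _ => rfl⟩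
  have hE' : ∀ (f : ∀ m : MaximalSpectrum (AdjoinRoot g), AdjoinRoot g ⧸ m.asIdeal) (m),
      Ideal.Quotient.mk m.asIdeal (E.symm f) = f m := by
    intro f m
    rw [← hE, E.apply_symm_apply]
  have h : ∀ u : Fin 5 → AdjoinRoot g, mQ A B 1 (-(AdjoinRoot.root g)) u =
      E.symm c * ((∑ i, E.symm (fun m => ρ m i) * u i) ^ 2 -
        algebraMap k _ d * (∑ i, E.symm (fun m => σ m i) * u i) ^ 2) +
      mB A B 1 (-(AdjoinRoot.root g)) R u * ∑ i, E.symm (fun m => τ m i) * u i := by
    intro u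
    refine E.injective (funext fun m => ?_)
    rw [hE, hE]
    have h1 := mQ_hom (A := A) (B := B) (Ideal.Quotient.mkₐ k m.asIdeal) 1
      (-(AdjoinRoot.root g)) u
    have h2 := mB_hom (A := A) (B := B) (Ideal.Quotient.mkₐ k m.asIdeal) 1
      (-(AdjoinRoot.root g)) R u
    simp only [map_one, map_neg, Ideal.Quotient.mkₐ_eq_mk] at h1 h2
    simp only [map_add, map_sub, map_mul, map_pow, map_sum, hE', ← h1, ← h2]
    exact hu m fun i => Ideal.Quotient.mk m.asIdeal (u i)
  refine ⟨E.symm c, fun i => E.symm (fun m => ρ m i), fun i => E.symm (fun m => σ m i),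
    fun i => E.symm (fun m => τ m i), ?_, fun L _ _ φ hφ u => ?_⟩
  · exact (Pi.isUnit_iff.2 hc).map E.symm
  · have h1 := BrE_ext h φ hφ u
    rw [hφ] at h1
    exact h1

end Dr
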