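import Pool.Agent.Lib.MP_f80667_ag.Dr.NmA
import Pool.Agent.Lib.MP_f80667_ag.Dr.NmG

/-! Norms over the algebra of a polynomial. -/

open Polynomial

namespace Dr

/-- The norm of a constant minus the root. -/
theorem norm_root {k : Type*} [Field k] {g : k[X]} (hg : g.Monic) (t : k) :
    Algebra.norm k (algebraMap k (AdjoinRoot g) t - AdjoinRoot.root g) = g.eval t := by
  classical
  let pb := AdjoinRoot.powerBasis hg.ne_zero
  have hm : minpoly k pb.gen = g := by
    rw [AdjoinRoot.powerBasis_gen, AdjoinRoot.minpoly_root hg.ne_zero, hg.leadingCoeff, inv_one,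
      map_one, mul_one]
  have hgen : AdjoinRoot.root g = pb.gen := (AdjoinRoot.powerBasis_gen _).symm
  rw [Algebra.norm_eq_matrix_det pb.basis, hgen, map_sub, AlgHom.commutes]
  have h1 := charpoly_leftMulMatrix pb
  rw [hm] at h1
  conv_rhs => rw [← h1]
  rw [Matrix.eval_charpoly]
  rfl

theorem norm_root' {k : Type*} [Field k] {g : k[X]} (hg : g.Monic) (t : k) :
    Algebra.norm k (AdjoinRoot.root g - algebraMap k (AdjoinRoot g) t) =
      (-1) ^ g.natDegree * g.eval t := by
  rw [← neg_sub, ← norm_root hg, ← neg_one_mul, map_mul]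
  congr 1
  have h2 : (-1 : AdjoinRoot g) = algebraMap k _ (-1) := by rw [map_neg, map_one]
  let pb := AdjoinRoot.powerBasis hg.ne_zero
  rw [h2, Algebra.norm_algebraMap_of_basis pb.basis, Fintype.card_fin]
  rfl

theorem norm_prod {k : Type*} [Field k] {g : k[X]} (hg : g.Monic) (s : Multiset k) :
    Algebra.norm k (AdjoinRoot.mk g ((s.map fun a => X - C a).prod)) =
      (s.map fun a => (-1) ^ g.natDegree * g.eval a).prod := by
  induction s using Multiset.induction with
  | empty => simp
  | cons a s ih =>
    rw [Multiset.map_cons, Multiset.prod_cons, map_mul, map_mul, ih, Multiset.map_cons,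
      Multiset.prod_cons]
    congr 1
    rw [← norm_root' hg, map_sub, AdjoinRoot.mk_X, AdjoinRoot.mk_C]
    rfl

/-- Change of coefficients. -/
theorem norm_map {k : Type*} [Field k] {g : k[X]} (hg : g.Monic) {L : Type*} [Field L] [Algebra k L]
    (φ : AdjoinRoot g →+* AdjoinRoot (g.map (algebraMap k L)))
    (h1 : ∀ x : k, φ (algebraMap k _ x) = algebraMap L _ (algebraMap k L x))
    (h2 : φ (AdjoinRoot.root g) = AdjoinRoot.root (g.map (algebraMap k L))) (x : AdjoinRoot g) :
    Algebra.norm L (φ x) = algebraMap k L (Algebra.norm k x) :=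
  norm_adj (algebraMap k L) hg rfl φ h1 h2 x

theorem norm_mk_map {k : Type*} [Field k] {g : k[X]} (hg : g.Monic) {L : Type*} [Field L]
    [Algebra k L] (p : k[X]) :
    Algebra.norm L (AdjoinRoot.mk (g.map (algebraMap k L)) (p.map (algebraMap k L))) =
      algebraMap k L (Algebra.norm k (AdjoinRoot.mk g p)) := by
  let φ : AdjoinRoot g →+* AdjoinRoot (g.map (algebraMap k L)) :=
    AdjoinRoot.lift ((AdjoinRoot.of (g.map (algebraMap k L))).comp (algebraMap k L))
      (AdjoinRoot.root (g.map (algebraMap k L)))
      (by rw [← eval₂_map]; exact AdjoinRoot.eval₂_root _)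
  have h1 : ∀ x : k, φ (algebraMap k _ x) = algebraMap L _ (algebraMap k L x) := fun x =>
    AdjoinRoot.lift_of _
  have h2 : φ (AdjoinRoot.root g) = AdjoinRoot.root (g.map (algebraMap k L)) :=
    AdjoinRoot.lift_root _
  rw [← norm_map hg φ h1 h2]
  congr 1
  rw [AdjoinRoot.lift_mk, ← eval₂_map, ← AdjoinRoot.aeval_eq, aeval_def]
  rfl

/-- Symmetry of the resultant. Proof: both are products over the pairs of roots in an algebraic closure,
with the sign `(-1) ^ (deg g deg p)`. -/
theorem norm_symm {k : Type*} [Field k] {g p : k[X]} (hg : g.Monic) (hp : p.Monic)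
    (he : Even g.natDegree) :
    Algebra.norm k (AdjoinRoot.mk p g) = Algebra.norm k (AdjoinRoot.mk g p) := by
  let L := AlgebraicClosure k
  apply (algebraMap k L).injective
  rw [← norm_mk_map hp g, ← norm_mk_map hg p]
  have hg' := hg.map (algebraMap k L)
  have hp' := hp.map (algebraMap k L)
  have hgd : (g.map (algebraMap k L)).natDegree = g.natDegree := hg.natDegree_map _
  obtain ⟨s, hs⟩ : ∃ s : Multiset L, g.map (algebraMap k L) = (s.map fun a => X - C a).prod :=
    ⟨_, (IsAlgClosed.splits (g.map (algebraMap k L))).eq_prod_roots_of_monic hg'⟩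
  obtain ⟨t, ht⟩ : ∃ t : Multiset L, p.map (algebraMap k L) = (t.map fun a => X - C a).prod :=
    ⟨_, (IsAlgClosed.splits (p.map (algebraMap k L))).eq_prod_roots_of_monic hp'⟩
  have e1 : Algebra.norm L (AdjoinRoot.mk (p.map (algebraMap k L)) (g.map (algebraMap k L))) =
      (s.map fun a => (-1) ^ (p.map (algebraMap k L)).natDegree *
        (p.map (algebraMap k L)).eval a).prod := by
    rw [← norm_prod hp', ← hs]
  have e2 : Algebra.norm L (AdjoinRoot.mk (g.map (algebraMap k L)) (p.map (algebraMap k L))) =
      (t.map fun a => (-1) ^ (g.map (algebraMap k L)).natDegree *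
        (g.map (algebraMap k L)).eval a).prod := by
    rw [← norm_prod hg', ← ht]
  rw [e1, e2]
  have hds : s.card = g.natDegree := by
    rw [← hgd, hs, natDegree_multiset_prod_X_sub_C_eq_card]
  have h3 : ∀ a : L, (p.map (algebraMap k L)).eval a = (t.map fun b => a - b).prod := by
    intro a
    rw [ht, eval_multiset_prod, Multiset.map_map]
    simp
  have h4 : ∀ a : L, (g.map (algebraMap k L)).eval a = (s.map fun b => a - b).prod := by
    intro a
    rw [hs, eval_multiset_prod, Multiset.map_map]
    simp
  rw [Multiset.prod_map_mul, Multiset.prod_map_mul]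
  rw [Multiset.map_const', Multiset.map_const', Multiset.prod_replicate, Multiset.prod_replicate,
    hgd, he.neg_one_pow, one_pow, one_mul, hds, ← pow_mul, mul_comm _ g.natDegree, pow_mul,
    he.neg_one_pow, one_pow, one_mul]
  have h5 : (s.map fun a => (p.map (algebraMap k L)).eval a) =
      s.map fun a => (t.map fun b => a - b).prod := Multiset.map_congr rfl fun a _ => h3 a
  have h6 : (t.map fun a => (g.map (algebraMap k L)).eval a) =
      t.map fun b => (s.map fun a => -(a - b)).prod := by
    refine Multiset.map_congr rfl fun a _ => ?_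
    rw [h4]
    simp
  rw [h5, h6, Multiset.prod_map_prod_map]
  congr 1
  refine Multiset.map_congr rfl fun b _ => ?_
  have h7 : (s.map fun a => -(a - b)) = s.map fun a => (-1) * (a - b) :=
    Multiset.map_congr rfl fun a _ => by ring
  rw [h7, Multiset.prod_map_mul, Multiset.map_const', Multiset.prod_replicate, hds,
    he.neg_one_pow, one_mul]

end Dr
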