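import Pool.Agent.Lib.MP_f80667_ag.Dr.BrE
import Pool.Agent.Lib.MP_f80667_ag.Dr.BrD
import Pool.Agent.Lib.MP_f80667_ag.Dr.NmL

/-! Norms on the tangent hyperplanes. -/

open Polynomial

namespace Dr

open ZC Tq Dp

variable {k : Type} [Field k] [CharZero k] {A B : Matrix (Fin 5) (Fin 5) k} {w : Fin 5 → k}
  {g s : k[X]} {d : k} {R : Fin 5 → AdjoinRoot g}

/-- Norms on the tangent hyperplane. Proof: `tangentE` for `φ = up g M`, `norm_form` over `M`, `norm_map`;
`C` is the norm of `c`. -/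
theorem norm_orth (hg : g.Monic) (h2 : g.natDegree = 2) (hgc : g ∣ Dq.chp A B)
    (hs : (Dq.chp A B).Separable) (hδ : IsCoprime g (dl A B w)) (hd : g ∣ dl A B w - C d * s ^ 2)
    (hR : mQ A B 1 (-(AdjoinRoot.root g)) R = 0)
    (hr : ∃ y, IsUnit (mB A B 1 (-(AdjoinRoot.root g)) R y)) :
    ∃ c₀ : k, c₀ ≠ 0 ∧ ∀ (M : Type) [Field M] [Algebra k M]
      (u : Fin 5 → AdjoinRoot (g.map (algebraMap k M))),
      mB A B 1 (-(AdjoinRoot.root (g.map (algebraMap k M)))) (fun i => up g M (R i)) u = 0 →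
      ∃ a b : M, Algebra.norm M (mQ A B 1 (-(AdjoinRoot.root (g.map (algebraMap k M)))) u) =
        algebraMap k M c₀ * (a ^ 2 - algebraMap k M d * b ^ 2) := by
  obtain ⟨c, ρ, σ, τ, hc, h⟩ := tangentE hg h2 hgc hs hδ hd hR hr
  refine ⟨Algebra.norm k c, (hc.map (Algebra.norm k)).ne_zero, ?_⟩
  intro M _ _ u hu
  have hgm : (g.map (algebraMap k M)).Monic := hg.map _
  have : Module.Finite M (AdjoinRoot (g.map (algebraMap k M))) := hgm.finite_adjoinRoot
  have h1 : ∀ x : k, up g M (algebraMap k _ x) =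
      algebraMap k (AdjoinRoot (g.map (algebraMap k M))) x := fun x => by
    rw [up_of]; rfl
  have h3 := h (AdjoinRoot (g.map (algebraMap k M))) (up g M) h1 u
  rw [up_root, hu, zero_mul, add_zero] at h3
  obtain ⟨a, b, hab⟩ := norm_form (k := M) (M := AdjoinRoot (g.map (algebraMap k M)))
    (algebraMap k M d) (∑ i, up g M (ρ i) * u i) (∑ i, up g M (σ i) * u i)
  refine ⟨a, b, ?_⟩
  have h4 : Algebra.norm M (up g M c) = algebraMap k M (Algebra.norm k c) :=
    norm_map hg (up g M) (fun x => up_of x) up_root c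
  have h5 : (algebraMap k (AdjoinRoot (g.map (algebraMap k M))) d) =
      algebraMap M (AdjoinRoot (g.map (algebraMap k M))) (algebraMap k M d) := rfl
  rw [h3, map_mul, h4, h5, hab]

end Dr
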