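import Pool.Agent.Lib.MP_f80667_ag.Dr.BrD
import Pool.Agent.Lib.MP_f80667_ag.Dp.Dens
import Pool.Agent.Lib.MP_f80667_ag.Ts.ND

/-! Generic isotropic vectors. -/

open Polynomial
open scoped LinearAlgebra.Projectivization

namespace Dr

open ZC Tq Dp

section aux

/-- The units of `K[T] / p`. -/
theorem BrG_unit {K : Type*} [Field K] {Ω : Type*} [Field Ω] [Algebra K Ω] [IsAlgClosed Ω]
    {p P : K[X]} (h : ∀ e : Ω, aeval e p = 0 → aeval e P ≠ 0) : IsUnit (AdjoinRoot.mk p P) := by
  have hc : IsCoprime P p := by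
    refine isCoprime_of_irreducible_dvd ?_ ?_
    · rintro ⟨rfl, rfl⟩
      exact h 0 (by simp) (by simp)
    · intro z hz h1 h2
      obtain ⟨e, he⟩ := IsAlgClosed.exists_aeval_eq_zero Ω z
        (Polynomial.degree_pos_of_irreducible hz).ne'
      refine h e ?_ ?_
      · obtain ⟨q, rfl⟩ := h2
        rw [map_mul, he, zero_mul]
      · obtain ⟨q, rfl⟩ := h1
        rw [map_mul, he, zero_mul]
  obtain ⟨u, v, huv⟩ := hc
  refine IsUnit.of_mul_eq_one (AdjoinRoot.mk p u) ?_
  rw [← map_mul, mul_comm P u, eq_sub_of_add_eq huv, map_sub, map_one, map_mul, AdjoinRoot.mk_self,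
    mul_zero, sub_zero]

/-- Two vectors in the kernel of the matrix at `e` give a double zero of the determinant. -/
theorem BrG_sq {E : Type*} [Field E] {n : ℕ} (S H : Matrix (Fin n) (Fin n) E) {e : E}
    {r r' : Fin n → E} {i j : Fin n} (hm : r i * r' j ≠ r j * r' i)
    (hr : S.mulVec r = e • H.mulVec r) (hr' : S.mulVec r' = e • H.mulVec r') :
    (X - C e) ^ 2 ∣ (S.map C - (X : E[X]) • H.map C).det := by
  classical
  have hij : i ≠ j := by
    rintro rfl
    exact hm (mul_comm _ _ |>.trans (by ring))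
  -- the matrix with the columns `r`, `r'`
  obtain ⟨P, hP⟩ : ∃ P : Matrix (Fin n) (Fin n) E, P = Matrix.of fun a l =>
      if l = i then r a else if l = j then r' a else if a = l then 1 else 0 := ⟨_, rfl⟩
  have hdet : P.det ≠ 0 := by
    intro h0
    obtain ⟨c, hc0, hc⟩ := Matrix.exists_mulVec_eq_zero_iff.2 h0
    have key : ∀ a, c i * r a + c j * r' a + (if a = i ∨ a = j then 0 else c a) = 0 := by
      intro a
      have h1 := congrFun hc a
      rw [Matrix.mulVec, dotProduct, Pi.zero_apply,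
        ← Finset.add_sum_erase _ _ (Finset.mem_univ i),
        ← Finset.add_sum_erase _ _ (Finset.mem_erase.2 ⟨hij.symm, Finset.mem_univ j⟩)] at h1
      have h2 : ∑ l ∈ (Finset.univ.erase i).erase j, P a l * c l =
          ∑ l ∈ (Finset.univ.erase i).erase j, if a = l then c a else 0 := by
        refine Finset.sum_congr rfl fun l hl => ?_
        rw [Finset.mem_erase, Finset.mem_erase] at hl
        simp only [hP, Matrix.of_apply, hl.1, hl.2.1, if_false]
        by_cases h2 : a = l
        · simp [h2]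
        · simp [h2]
      have h3 : (∑ l ∈ (Finset.univ.erase i).erase j, if a = l then c a else 0) =
          if a = i ∨ a = j then 0 else c a := by
        rw [Finset.sum_ite_eq]
        by_cases ha : a = i
        · simp [ha]
        · by_cases hb : a = j
          · simp [hb]
          · simp [ha, hb]
      have h4 : P a i = r a := by simp [hP]
      have h5 : P a j = r' a := by simp [hP, hij.symm]
      rw [h2, h3, h4, h5] at h1
      rw [mul_comm (c i), mul_comm (c j), add_assoc]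
      exact h1
    have k1 := key i
    have k2 := key j
    simp only [true_or, or_true, if_true, add_zero] at k1 k2
    have hd : r i * r' j - r j * r' i ≠ 0 := sub_ne_zero.2 hm
    have h3 : c i = 0 := by
      have : c i * (r i * r' j - r j * r' i) = 0 := by linear_combination r' j * k1 - r' i * k2
      exact (mul_eq_zero.1 this).resolve_right hd
    have h4 : c j = 0 := by
      have : c j * (r i * r' j - r j * r' i) = 0 := by linear_combination r i * k2 - r j * k1
      exact (mul_eq_zero.1 this).resolve_right hd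
    apply hc0
    funext a
    have h5 := key a
    rw [h3, h4, zero_mul, zero_mul, zero_add, zero_add] at h5
    by_cases ha : a = i
    · rw [ha, h3]
      rfl
    · by_cases hb : a = j
      · rw [hb, h4]
        rfl
      · rw [if_neg (by tauto)] at h5
        exact h5
  -- the product
  let w : Fin n → E[X] := fun l => if l = i ∨ l = j then X - C e else 1
  obtain ⟨M, hM⟩ : ∃ M : Matrix (Fin n) (Fin n) E[X],
      M = S.map C - (X : E[X]) • H.map C := ⟨_, rfl⟩
  obtain ⟨Q, hQ⟩ : ∃ Q : Matrix (Fin n) (Fin n) E[X], Q = Matrix.of fun a l =>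
      if l = i ∨ l = j then -C ((H * P) a l) else (M * P.map C) a l := ⟨_, rfl⟩
  have hcol : ∀ l a, (M * P.map C) a l = C ((S * P) a l) - X * C ((H * P) a l) := by
    intro l a
    rw [hM, Matrix.sub_mul, Matrix.smul_mul, ← Matrix.map_mul, ← Matrix.map_mul]
    rfl
  have hv : ∀ (N : Matrix (Fin n) (Fin n) E) a, (N * P) a i = N.mulVec r a := by
    intro N a
    rw [Matrix.mul_apply, Matrix.mulVec, dotProduct]
    refine Finset.sum_congr rfl fun b _ => ?_
    rw [hP, Matrix.of_apply, if_pos rfl]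
  have hv' : ∀ (N : Matrix (Fin n) (Fin n) E) a, (N * P) a j = N.mulVec r' a := by
    intro N a
    rw [Matrix.mul_apply, Matrix.mulVec, dotProduct]
    refine Finset.sum_congr rfl fun b _ => ?_
    rw [hP, Matrix.of_apply, if_neg hij.symm, if_pos rfl]
  have hMQ : M * P.map C = Matrix.of fun a l => w l * Q a l := by
    ext1 a l
    rw [Matrix.of_apply]
    by_cases hl : l = i ∨ l = j
    · simp only [w, hQ, Matrix.of_apply, if_pos hl]
      rw [hcol]
      have h6 : (S * P) a l = e * (H * P) a l := by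
        rcases hl with rfl | rfl
        · rw [hv, hv, hr]
          rfl
        · rw [hv', hv', hr']
          rfl
      rw [h6, C_mul]
      ring
    · simp only [w, hQ, Matrix.of_apply, if_neg hl, one_mul]
  have hdd : M.det * C P.det = (∏ l, w l) * Q.det := by
    rw [← Matrix.det_mul_row, ← hMQ, Matrix.det_mul, ← RingHom.mapMatrix_apply,
      ← RingHom.map_det]
  have hw : ∏ l, w l = (X - C e) ^ 2 := by
    rw [← Finset.mul_prod_erase _ _ (Finset.mem_univ i),
      ← Finset.mul_prod_erase _ _ (Finset.mem_erase.2 ⟨hij.symm, Finset.mem_univ j⟩),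
      Finset.prod_eq_one fun l hl => ?_]
    · simp only [w, true_or, or_true, if_true]
      ring
    · rw [Finset.mem_erase, Finset.mem_erase] at hl
      simp only [w]
      rw [if_neg (by tauto)]
  have hu : IsUnit (C P.det : E[X]) := (isUnit_iff_ne_zero.2 hdet).map C
  rw [← hM, ← hu.dvd_mul_right, hdd, hw]
  exact dvd_mul_right _ _

end aux

variable {k : Type} [Field k] [CharZero k] {A B : Matrix (Fin 5) (Fin 5) k} {g : k[X]}
  {Ω : Type} [Field Ω] [Algebra k Ω] [IsAlgClosed Ω]

omit [CharZero k] [IsAlgClosed Ω] in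
/-- The radical of a degenerate member has dimension at most one. -/
theorem BrG_rad (hs : (Dq.chp A B).Separable) {e : Ω} {r r' : Fin 5 → Ω}
    (hl : LinearIndependent Ω ![r, r']) (hr : ∀ y : Fin 5 → Ω, mB A B 1 (-e) r y = 0)
    (hr' : ∀ y : Fin 5 → Ω, mB A B 1 (-e) r' y = 0) : False := by
  obtain ⟨i, j, hij⟩ := exists_minor hl
  have key : ∀ r : Fin 5 → Ω, (∀ y : Fin 5 → Ω, mB A B 1 (-e) r y = 0) →
      ((A + A.transpose).map (algebraMap k Ω)).mulVec r =
        e • ((B + B.transpose).map (algebraMap k Ω)).mulVec r := by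
    intro r hr
    have h1 := Ts.nd_mulVec (A := A) (B := B) (a := (1 : Ω)) (b := -e) (x := r) hr
    rw [Matrix.add_mulVec, Matrix.smul_mulVec, Matrix.smul_mulVec, one_smul, neg_smul,
      ← sub_eq_add_neg] at h1
    exact sub_eq_zero.1 h1
  have h1 := BrG_sq _ _ hij (key r hr) (key r' hr')
  have h2 : (((A + A.transpose).map (algebraMap k Ω)).map C -
      (X : Polynomial Ω) • ((B + B.transpose).map (algebraMap k Ω)).map C).det =
      (Dq.chp A B).map (algebraMap k Ω) := by
    rw [Dq.chp, ← coe_mapRingHom, RingHom.map_det]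
    congr 1
    ext1 a b
    simp [Matrix.map_apply]
  rw [h2] at h1
  have h3 := (hs.map (f := algebraMap k Ω)).squarefree
  rw [pow_two] at h1
  have h4 := h3 _ h1
  exact not_isUnit_X_sub_C e h4

/-- A polynomial function of the generic vector which is not zero. -/
theorem BrG_gen (hs : (Dq.chp A B).Separable) {e : Ω} {r₀ w : Fin 5 → Ω}
    (h1 : ∃ y, mB A B 1 (-e) r₀ y ≠ 0) (h2 : ∃ y, mB A B 1 (-e) w y ≠ 0) :
    ∃ z : Fin 5 → k, mQ A B 1 (-e) (fun i => algebraMap k Ω (z i)) * mB A B 1 (-e) r₀ w -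
      mB A B 1 (-e) r₀ (fun i => algebraMap k Ω (z i)) *
        mB A B 1 (-e) (fun i => algebraMap k Ω (z i)) w ≠ 0 := by
  by_contra hcon
  push Not at hcon
  have hO : CharZero Ω := charZero_of_injective_algebraMap (algebraMap k Ω).injective
  obtain ⟨c, hc⟩ : ∃ c, c = mB A B 1 (-e) r₀ w := ⟨_, rfl⟩
  rw [← hc] at hcon
  -- polarization on `k ^ 5`
  have pol : ∀ z z' : Fin 5 → k,
      c * mB A B 1 (-e) (fun i => algebraMap k Ω (z i)) (fun i => algebraMap k Ω (z' i)) =
        mB A B 1 (-e) r₀ (fun i => algebraMap k Ω (z i)) *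
          mB A B 1 (-e) (fun i => algebraMap k Ω (z' i)) w +
        mB A B 1 (-e) r₀ (fun i => algebraMap k Ω (z' i)) *
          mB A B 1 (-e) (fun i => algebraMap k Ω (z i)) w := by
    intro z z'
    have e1 := hcon z
    have e2 := hcon z'
    have e3 := hcon (z + z')
    have e4 : (fun i => algebraMap k Ω ((z + z') i)) =
        (fun i => algebraMap k Ω (z i)) + fun i => algebraMap k Ω (z' i) := by
      funext i
      rw [Pi.add_apply, Pi.add_apply, map_add]
    rw [e4, mQ_add, mB_add, mB_add_right] at e3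
    linear_combination e3 - e1 - e2
  -- on the basis vectors
  have hb : ∀ i : Fin 5, (fun l => algebraMap k Ω ((Pi.single i 1 : Fin 5 → k) l)) =
      (Pi.single i 1 : Fin 5 → Ω) := by
    intro i
    funext l
    by_cases h : l = i
    · subst h
      rw [Pi.single_eq_same, Pi.single_eq_same, map_one]
    · rw [Pi.single_eq_of_ne h, Pi.single_eq_of_ne h, map_zero]
  have ext : ∀ z z' : Fin 5 → Ω, c * mB A B 1 (-e) z z' =
      mB A B 1 (-e) r₀ z * mB A B 1 (-e) z' w + mB A B 1 (-e) r₀ z' * mB A B 1 (-e) z w := by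
    obtain ⟨b1, hb1⟩ : ∃ b1 : (Fin 5 → Ω) →ₗ[Ω] Ω, ∀ z, b1 z = mB A B 1 (-e) r₀ z :=
      ⟨mBl A B 1 (-e) r₀, fun _ => rfl⟩
    obtain ⟨b2, hb2⟩ : ∃ b2 : (Fin 5 → Ω) →ₗ[Ω] Ω, ∀ z, b2 z = mB A B 1 (-e) z w :=
      ⟨mBl A B 1 (-e) w, fun z => by rw [mBl_apply, mB_comm]⟩
    have step : ∀ (i : Fin 5) (z' : Fin 5 → Ω), c * mB A B 1 (-e) (Pi.single i 1) z' =
        b1 (Pi.single i 1) * b2 z' + b1 z' * b2 (Pi.single i 1) := by
      intro i z'
      have h3 : (c • mBl A B 1 (-e) (Pi.single i 1) : (Fin 5 → Ω) →ₗ[Ω] Ω) =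
          b1 (Pi.single i 1) • b2 + b2 (Pi.single i 1) • b1 := by
        refine (Pi.basisFun Ω (Fin 5)).ext fun j => ?_
        rw [Pi.basisFun_apply]
        have h4 := pol (Pi.single i 1) (Pi.single j 1)
        rw [hb, hb] at h4
        simp only [LinearMap.smul_apply, LinearMap.add_apply, smul_eq_mul, mBl_apply, hb1, hb2]
        rw [h4]
        ring
      have h5 := LinearMap.congr_fun h3 z'
      simp only [LinearMap.smul_apply, LinearMap.add_apply, smul_eq_mul, mBl_apply] at h5
      rw [h5]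
      ring
    intro z z'
    have h3 : (c • mBl A B 1 (-e) z' : (Fin 5 → Ω) →ₗ[Ω] Ω) = b2 z' • b1 + b1 z' • b2 := by
      refine (Pi.basisFun Ω (Fin 5)).ext fun j => ?_
      rw [Pi.basisFun_apply]
      have h4 := step j z'
      simp only [LinearMap.smul_apply, LinearMap.add_apply, smul_eq_mul, mBl_apply]
      rw [mB_comm, h4]
      ring
    have h5 := LinearMap.congr_fun h3 z
    simp only [LinearMap.smul_apply, LinearMap.add_apply, smul_eq_mul, mBl_apply, hb1, hb2] at h5
    rw [mB_comm (x := z) (y := z'), h5]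
    ring
  by_cases hc0 : c = 0
  · -- two nonzero linear forms with product zero
    obtain ⟨y, hy⟩ := h1
    have h3 : ∀ z, mB A B 1 (-e) z w = 0 := by
      have h4 : mB A B 1 (-e) y w = 0 := by
        have h5 := ext y y
        rw [hc0, zero_mul] at h5
        have h6 : 2 * (mB A B 1 (-e) r₀ y * mB A B 1 (-e) y w) = 0 := by linear_combination -h5
        exact (mul_eq_zero.1 ((mul_eq_zero.1 h6).resolve_left two_ne_zero)).resolve_left hy
      intro z
      have h5 := ext y z
      rw [hc0, zero_mul, h4, mul_zero, add_zero] at h5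
      exact (mul_eq_zero.1 h5.symm).resolve_left hy
    obtain ⟨y', hy'⟩ := h2
    exact hy' (by rw [mB_comm]; exact h3 y')
  · -- the common kernel of the two linear forms
    obtain ⟨L, hL⟩ : ∃ L : (Fin 5 → Ω) →ₗ[Ω] Ω × Ω,
        L = (mBl A B 1 (-e) r₀).prod (mBl A B 1 (-e) w) := ⟨_, rfl⟩
    have h3 := LinearMap.finrank_range_add_finrank_ker L
    have h4 : Module.finrank Ω (LinearMap.range L) ≤ 2 := by
      refine (Submodule.finrank_le _).trans_eq ?_
      rw [Module.finrank_prod, Module.finrank_self]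
    rw [Module.finrank_fin_fun] at h3
    have h5 : 1 < Module.finrank Ω (LinearMap.ker L) := by omega
    have : Nontrivial (LinearMap.ker L) :=
      Module.nontrivial_of_finrank_pos (R := Ω) (lt_trans Nat.zero_lt_one h5)
    obtain ⟨x, hx⟩ := exists_ne (0 : LinearMap.ker L)
    obtain ⟨y, hy⟩ := exists_linearIndependent_pair_of_one_lt_finrank h5 hx
    have hxy := hy.map' (Submodule.subtype _) (Submodule.ker_subtype _)
    have e1 : (Submodule.subtype (LinearMap.ker L)) ∘ ![x, y] =
        ![(x : Fin 5 → Ω), (y : Fin 5 → Ω)] := by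
      funext i
      fin_cases i <;> rfl
    rw [e1] at hxy
    have hr : ∀ v ∈ LinearMap.ker L, ∀ z : Fin 5 → Ω, mB A B 1 (-e) v z = 0 := by
      intro v hv z
      rw [LinearMap.mem_ker, hL] at hv
      obtain ⟨h6, h7⟩ : mB A B 1 (-e) r₀ v = 0 ∧ mB A B 1 (-e) w v = 0 := Prod.mk_eq_zero.1 hv
      have h8 := ext v z
      rw [h6, mB_comm (x := v) (y := w), h7, zero_mul, mul_zero, add_zero] at h8
      exact (mul_eq_zero.1 h8).resolve_left hc0
    exact BrG_rad hs hxy (hr x x.2) (hr y y.2)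

omit [CharZero k] [IsAlgClosed Ω] in
/-- The functions of the generic vector are polynomial. -/
theorem BrG_PL (e : Ω) (r w : Fin 5 → Ω) : PL k fun z : Fin 5 → k =>
    mQ A B 1 (-e) (fun i => algebraMap k Ω (z i)) * mB A B 1 (-e) r w -
      mB A B 1 (-e) r (fun i => algebraMap k Ω (z i)) *
        mB A B 1 (-e) (fun i => algebraMap k Ω (z i)) w := by
  have hco : ∀ i : Fin 5, PL k fun z : Fin 5 → k => algebraMap k Ω (z i) := fun i =>
    PL.lin ((Algebra.linearMap k Ω).comp (LinearMap.proj (R := k) (φ := fun _ : Fin 5 => k) i))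
  have hq : ∀ H : Matrix (Fin 5) (Fin 5) k, PL k fun z : Fin 5 → k =>
      qv H (fun i => algebraMap k Ω (z i)) := fun H =>
    PL.qv H (f := fun (z : Fin 5 → k) i => algebraMap k Ω (z i)) hco
  have hb1 : ∀ H : Matrix (Fin 5) (Fin 5) k, PL k fun z : Fin 5 → k =>
      bv H r (fun i => algebraMap k Ω (z i)) := fun H =>
    PL.bv H (f := fun _ => r) (g := fun (z : Fin 5 → k) i => algebraMap k Ω (z i))
      (fun i => PL.const (r i)) hco
  have hb2 : ∀ H : Matrix (Fin 5) (Fin 5) k, PL k fun z : Fin 5 → k =>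
      bv H (fun i => algebraMap k Ω (z i)) w := fun H =>
    PL.bv H (f := fun (z : Fin 5 → k) i => algebraMap k Ω (z i)) (g := fun _ => w) hco
      (fun i => PL.const (w i))
  simp only [mQ, mB]
  exact ((((PL.const 1).mul (hq A)).add ((PL.const (-e)).mul (hq B))).mul (PL.const _)).sub
    ((((PL.const 1).mul (hb1 A)).add ((PL.const (-e)).mul (hb1 B))).mul
      (((PL.const 1).mul (hb2 A)).add ((PL.const (-e)).mul (hb2 B))))

/-- **Generic isotropic vectors.** Proof: `R (z) = q (z) R₀ - b (R₀, z) z` for `z ∈ k ^ 5` (`q`, `b` the member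
`(1, -θ)` and its polar form, over `k[T] / g`) is isotropic. For `y ∈ Y` and a zero `e` of `g` in `Ω` the
polar form of `R (z)` and `y` at `e` is `q_e (z) b_e (R₀, y) - b_e (R₀, z) b_e (z, y)`, a polynomial in `z` which is
not zero: if `b_e (R₀, y) = 0` it is a product of two nonzero linear forms, otherwise `q_e` would be a
product of two linear forms, but it has rank `4`. (`nh` over `Ω` is the product over the two zeros `e`.)
`k` is infinite. The vector `y` with a unit value: add a generic `y₀ ∈ k ^ 5` to `Y`. -/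
theorem exists_R (hg : g.Monic) (h2 : g.natDegree = 2) (hgc : g ∣ Dq.chp A B)
    (hs : (Dq.chp A B).Separable) {R₀ : Fin 5 → AdjoinRoot g}
    (hR : mQ A B 1 (-(AdjoinRoot.root g)) R₀ = 0)
    (hr : ∃ y, IsUnit (mB A B 1 (-(AdjoinRoot.root g)) R₀ y)) (Y : Finset (Fin 5 → Ω))
    (hY : ∀ y ∈ Y, ∀ e : Ω, aeval e g = 0 → ∃ z, mB A B 1 (-e) y z ≠ 0) :
    ∃ R : Fin 5 → AdjoinRoot g, mQ A B 1 (-(AdjoinRoot.root g)) R = 0 ∧
      (∃ y, IsUnit (mB A B 1 (-(AdjoinRoot.root g)) R y)) ∧ ∀ y ∈ Y, nh A B g R y ≠ 0 := by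
  classical
  obtain ⟨y₁, hy₁⟩ := hr
  obtain ⟨θ, hθ⟩ : ∃ θ, θ = AdjoinRoot.root g := ⟨_, rfl⟩
  rw [← hθ] at hR hy₁ ⊢
  -- the specializations
  let φ : ∀ e : Ω, aeval e g = 0 → (AdjoinRoot g →ₐ[k] Ω) := fun e he =>
    AdjoinRoot.liftAlgHom g (Algebra.ofId k Ω) e he
  have hφθ : ∀ e he, φ e he θ = e := fun e he => by
    rw [hθ]
    exact AdjoinRoot.liftAlgHom_root _ _ _ _
  have hφmk : ∀ e he (P : k[X]), φ e he (AdjoinRoot.mk g P) = aeval e P := fun e he P => rfl
  have hφB : ∀ e he (x y : Fin 5 → AdjoinRoot g), φ e he (mB A B 1 (-θ) x y) =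
      mB A B 1 (-e) (fun i => φ e he (x i)) fun i => φ e he (y i) := by
    intro e he x y
    rw [← mB_hom, map_one, map_neg, hφθ e he]
  have hφQ : ∀ e he (x : Fin 5 → AdjoinRoot g), φ e he (mQ A B 1 (-θ) x) =
      mQ A B 1 (-e) (fun i => φ e he (x i)) := by
    intro e he x
    rw [← mQ_hom, map_one, map_neg, hφθ e he]
  have hunit : ∀ x : AdjoinRoot g, (∀ e he, φ e he x ≠ 0) → IsUnit x := by
    intro x hx
    obtain ⟨P, rfl⟩ := AdjoinRoot.mk_surjective x
    exact BrG_unit (Ω := Ω) fun e he => hx e he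
  have hunit' : ∀ x : AdjoinRoot g, IsUnit x → ∀ e he, φ e he x ≠ 0 := fun x hx e he =>
    (hx.map (φ e he)).ne_zero
  -- the finite family of conditions
  let I : Type := {e : Ω // e ∈ g.rootSet Ω} × Option Y
  have hroot : ∀ e : {e : Ω // e ∈ g.rootSet Ω}, aeval (e : Ω) g = 0 := fun e =>
    (mem_rootSet.1 e.2).2
  have hI : Finite I := by
    have : Finite {e : Ω // e ∈ g.rootSet Ω} := (rootSet_finite g Ω).to_subtype
    infer_instance
  let W : I → (Fin 5 → Ω) := fun p =>
    match p.2 with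
    | none => fun i => φ p.1 (hroot p.1) (y₁ i)
    | some y => y
  let r₀ : I → (Fin 5 → Ω) := fun p => fun i => φ p.1 (hroot p.1) (R₀ i)
  have hr0 : ∀ p : I, mB A B 1 (-(p.1 : Ω)) (r₀ p) (fun i => φ p.1 (hroot p.1) (y₁ i)) ≠ 0 := by
    intro p
    have h3 := hunit' _ hy₁ p.1 (hroot p.1)
    rw [hφB] at h3
    exact h3
  have hW : ∀ p : I, ∃ z, mB A B 1 (-(p.1 : Ω)) (W p) z ≠ 0 := by
    rintro ⟨e, y⟩
    cases y with
    | none => exact ⟨r₀ (e, none), by rw [mB_comm]; exact hr0 (e, none)⟩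
    | some y => exact hY y y.2 e (hroot e)
  let f : I → (Fin 5 → k) → Ω := fun p z =>
    mQ A B 1 (-(p.1 : Ω)) (fun i => algebraMap k Ω (z i)) * mB A B 1 (-(p.1 : Ω)) (r₀ p) (W p) -
      mB A B 1 (-(p.1 : Ω)) (r₀ p) (fun i => algebraMap k Ω (z i)) *
        mB A B 1 (-(p.1 : Ω)) (fun i => algebraMap k Ω (z i)) (W p)
  have hfPL : ∀ p, PL k (f p) := fun p => BrG_PL (p.1 : Ω) (r₀ p) (W p)
  obtain ⟨z, hz⟩ := PL.exists_ne (E := k) f hfPL fun p =>
    BrG_gen hs ⟨_, hr0 p⟩ (hW p)
  -- the vector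
  obtain ⟨z', hz'⟩ : ∃ z' : Fin 5 → AdjoinRoot g, z' = fun i => algebraMap k _ (z i) := ⟨_, rfl⟩
  have hφz : ∀ e he, (fun i => φ e he (z' i)) = fun i => algebraMap k Ω (z i) := by
    intro e he
    funext i
    rw [hz', AlgHom.commutes]
  obtain ⟨R, hRd⟩ : ∃ R : Fin 5 → AdjoinRoot g,
      R = mQ A B 1 (-θ) z' • R₀ + (-mB A B 1 (-θ) R₀ z') • z' := ⟨_, rfl⟩
  have hRB : ∀ y, mB A B 1 (-θ) R y = mQ A B 1 (-θ) z' * mB A B 1 (-θ) R₀ y -
      mB A B 1 (-θ) R₀ z' * mB A B 1 (-θ) z' y := by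
    intro y
    rw [hRd, mB_add, mB_smul, mB_smul]
    ring
  have hφR : ∀ e he (y : Fin 5 → Ω), mB A B 1 (-e) (fun i => φ e he (R i)) y =
      mQ A B 1 (-e) (fun i => algebraMap k Ω (z i)) *
        mB A B 1 (-e) (fun i => φ e he (R₀ i)) y -
      mB A B 1 (-e) (fun i => φ e he (R₀ i)) (fun i => algebraMap k Ω (z i)) *
        mB A B 1 (-e) (fun i => algebraMap k Ω (z i)) y := by
    intro e he y
    have h3 : (fun i => φ e he (R i)) = mQ A B 1 (-e) (fun i => algebraMap k Ω (z i)) •
        (fun i => φ e he (R₀ i)) + (-mB A B 1 (-e) (fun i => φ e he (R₀ i))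
          (fun i => algebraMap k Ω (z i))) • fun i => algebraMap k Ω (z i) := by
      funext i
      rw [hRd]
      simp only [Pi.add_apply, Pi.smul_apply, smul_eq_mul, map_add, map_mul, map_neg]
      rw [hφB, hφQ, hφz]
      have h4 := congrFun (hφz e he) i
      rw [h4]
    rw [h3, mB_add, mB_smul, mB_smul]
    ring
  have hmem : ∀ e : Ω, aeval e g = 0 → e ∈ g.rootSet Ω := fun e he =>
    mem_rootSet.2 ⟨hg.ne_zero, he⟩
  have c1 : mQ A B 1 (-θ) R = 0 := by
    rw [hRd, mQ_lin, hR]
    ring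
  have c2 : IsUnit (mB A B 1 (-θ) R y₁) := by
    refine hunit _ fun e he => ?_
    rw [hφB, hφR]
    exact hz (⟨e, hmem e he⟩, none)
  refine ⟨R, c1, ⟨y₁, c2⟩, fun y hy => ?_⟩
  · have h3 : IsUnit (Lf A B g R y) := by
      obtain ⟨P, hP⟩ := AdjoinRoot.mk_surjective (Lf A B g R y)
      rw [← hP]
      refine BrG_unit (Ω := Ω) fun e he => ?_
      have he' : aeval e g = 0 := by
        rwa [aeval_map_algebraMap] at he
      let ψ : AdjoinRoot (g.map (algebraMap k Ω)) →ₐ[k] Ω :=
        AdjoinRoot.liftAlgHom (g.map (algebraMap k Ω)) ((AlgHom.id Ω Ω).restrictScalars k) e (by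
          rw [aeval_def] at he
          exact he)
      have hψ : ψ (AdjoinRoot.mk _ P) = aeval e P := rfl
      have hψθ : ψ (AdjoinRoot.root _) = e := AdjoinRoot.liftAlgHom_root _ _ _ _
      have hψof : ∀ c : Ω, ψ (AdjoinRoot.of _ c) = c := fun c =>
        AdjoinRoot.liftAlgHom_of _ _ _ _ c
      have hψup : ∀ x : AdjoinRoot g, ψ (up g Ω x) = φ e he' x := by
        intro x
        obtain ⟨Q, rfl⟩ := AdjoinRoot.mk_surjective x
        rw [hφmk, up, AdjoinRoot.lift_mk, ← AlgHom.coe_toRingHom, hom_eval₂]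
        rw [aeval_def]
        congr 1
        ext c
        exact hψof _
      rw [← hψ, hP, Lf, ← mB_hom, map_one, map_neg, hψθ]
      have h5 : (fun i => ψ (up g Ω (R i))) = fun i => φ e he' (R i) := by
        funext i
        exact hψup _
      have h6 : (fun i => ψ (AdjoinRoot.of (g.map (algebraMap k Ω)) (y i))) = y := by
        funext i
        exact hψof _
      rw [h5, h6, hφR]
      exact hz (⟨e, hmem e he'⟩, some ⟨y, hy⟩)
    exact (h3.map (Algebra.norm Ω)).ne_zero

end Dr
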