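import Pool.Agent.Lib.MP_f80667_ag.Dr.BrD

/-! Generic linear forms, points of `X` and radicals. -/

open Polynomial
open scoped LinearAlgebra.Projectivization

namespace Dr

open ZC Tq Dp

variable {k : Type} [Field k] [CharZero k] {A B : Matrix (Fin 5) (Fin 5) k} {g : k[X]}
  {Ω : Type} [Field Ω] [Algebra k Ω] [IsAlgClosed Ω]

omit [IsAlgClosed Ω] in
/-- Generic linear forms. -/
theorem exists_l (Y : Finset (Fin 5 → Ω)) (hY : ∀ y ∈ Y, y ≠ 0) :
    ∃ l : Fin 5 → k, ∀ y ∈ Y, ∑ i, algebraMap k Ω (l i) * y i ≠ 0 := by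
  classical
  -- `l = (1, t, t ^ 2, ...)`
  let P : (Fin 5 → Ω) → Polynomial Ω := fun y => ∑ i : Fin 5, C (y i) * X ^ (i : ℕ)
  have hP : ∀ y ∈ Y, P y ≠ 0 := by
    intro y hy h0
    apply hY y hy
    funext i
    have h1 : (P y).coeff (i : ℕ) = y i := by
      simp only [P, finsetSum_coeff, coeff_C_mul, coeff_X_pow]
      rw [Finset.sum_eq_single i]
      · simp
      · intro j _ hji
        have : (i : ℕ) ≠ j := fun h => hji (Fin.ext h.symm)
        simp [this]
      · intro h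
        exact absurd (Finset.mem_univ i) h
    rw [← h1, h0, coeff_zero]
    rfl
  have hprod : ∏ y ∈ Y, P y ≠ 0 := Finset.prod_ne_zero_iff.2 hP
  obtain ⟨t, ht⟩ : ∃ t : k, (∏ y ∈ Y, P y).eval (algebraMap k Ω t) ≠ 0 := by
    by_contra hcon
    push Not at hcon
    apply hprod
    apply eq_zero_of_infinite_isRoot
    refine Set.Infinite.mono ?_ (Set.infinite_range_of_injective (algebraMap k Ω).injective)
    rintro _ ⟨t, rfl⟩
    exact hcon t
  rw [eval_prod, Finset.prod_ne_zero_iff] at ht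
  refine ⟨fun i => t ^ (i : ℕ), fun y hy => ?_⟩
  have h1 := ht y hy
  simp only [P, eval_finsetSum, eval_mul, eval_C, eval_pow, eval_X] at h1
  convert h1 using 2
  rw [map_pow, mul_comm]

/-- Points of `X` are not in the radical of a member. Proof: `Sm`. -/
theorem pt_nr (hs : Sm Ω A B) {y : Fin 5 → Ω} (hy : y ≠ 0) (hz : Zer (Pl A B) Ω y) (e : Ω) :
    ∃ z, mB A B 1 (-e) y z ≠ 0 := by
  by_contra hcon
  push Not at hcon
  have h1 := (zer_iff A B).1 hz
  exact one_ne_zero (hs y hy h1.1 h1.2 1 (-e) hcon).1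

end Dr
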