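import Pool.Agent.Lib.MP_f80667_ag.Dr.BrI1

/-! Isotropic vectors, `g` irreducible. -/

open IsDedekindDomain NumberField Polynomial

namespace Dr

open ZC Tq Dp

/-- The case of a field. Proof: `iso_member` for `K = k[T] / g`. -/
theorem iso_field {k : Type*} [Field k] [CharZero k] {A B : Matrix (Fin 5) (Fin 5) k}
    {w : Fin 5 → k} {g : k[X]} [Fact (Irreducible g)]
    (H : ∀ a : Fin 4 → AdjoinRoot g, (∀ i, a i ≠ 0) → ¬ IsSquare (∏ i, a i) →
      ∃ x : Fin 4 → AdjoinRoot g, x ≠ 0 ∧ ∑ i, a i * x i ^ 2 = 0)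
    (hg : g.Monic) (hgc : g ∣ Dq.chp A B) (hs : (Dq.chp A B).Separable)
    (hn : ¬ ∃ s : k[X], g ∣ dl A B w - s ^ 2) :
    ∃ R : Fin 5 → AdjoinRoot g, mQ A B 1 (-(AdjoinRoot.root g)) R = 0 ∧
      ∃ y, IsUnit (mB A B 1 (-(AdjoinRoot.root g)) R y) := by
  have hmk : ∀ q : k[X], aeval (AdjoinRoot.root g) q = AdjoinRoot.mk g q := fun q => by
    rw [AdjoinRoot.aeval_eq]
  have hch : CharZero (AdjoinRoot g) := charZero_of_injective_algebraMap
    (algebraMap k (AdjoinRoot g)).injective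
  have he : aeval (AdjoinRoot.root g) (Dq.chp A B) = 0 := by
    rw [hmk, AdjoinRoot.mk_eq_zero]
    exact hgc
  have hs' : aeval (AdjoinRoot.root g) (derivative (Dq.chp A B)) ≠ 0 := by
    obtain ⟨a, b, hab⟩ := hs
    intro h0
    have h1 := congrArg (aeval (AdjoinRoot.root g)) hab
    rw [map_add, map_mul, map_mul, he, h0, mul_zero, mul_zero, add_zero, map_one] at h1
    exact zero_ne_one h1
  have hδ : ¬ IsSquare (aeval (AdjoinRoot.root g) (dl A B w)) := by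
    rintro ⟨r, hr⟩
    obtain ⟨s, rfl⟩ := AdjoinRoot.mk_surjective r
    refine hn ⟨s, ?_⟩
    rw [← AdjoinRoot.mk_eq_zero, map_sub, ← hmk, hr, pow_two, map_mul, sub_self]
  obtain ⟨R, hR, y, hy⟩ := iso_member H he hs' hδ
  exact ⟨R, hR, y, isUnit_iff_ne_zero.mpr hy⟩

end Dr
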