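import Pool.Agent.Lib.MP_f80667_ag.Dp.PlcF

/-! The completion of an extension. -/

open IsDedekindDomain NumberField Polynomial

namespace Dr

open Hm

open scoped Valued in
/-- **The completion of an extension.** Proof: the homomorphism as in `Dp.exists_embP`
(`IsDedekindDomain.HeightOneSpectrum.uniformContinuous_algebraMap_liesOver`, functoriality of
completions); it is a finite dimensional vector space over the complete field, the subspace generated by
the powers of `θ` is closed and contains the dense image of `K`. -/
theorem exists_cpl {F K : Type} [Field F] [NumberField F] [Field K] [NumberField K] [Algebra F K]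
    (u : HeightOneSpectrum (𝓞 K)) (v : HeightOneSpectrum (𝓞 F)) (hu : u.under (𝓞 F) = v) {θ : K}
    (hθ : Algebra.adjoin F {θ} = ⊤) :
    ∃ i : v.adicCompletion F →+* u.adicCompletion K,
      (∀ x : F, i (algebraMap F (v.adicCompletion F) x) =
        algebraMap K (u.adicCompletion K) (algebraMap F K x)) ∧
      ∀ y : u.adicCompletion K, ∃ p : (v.adicCompletion F)[X],
        y = p.eval₂ i (algebraMap K (u.adicCompletion K) θ) := by
  classical
  subst hu
  have hlo : u.asIdeal.LiesOver (u.under (𝓞 F)).asIdeal := ⟨rfl⟩
  have huc := HeightOneSpectrum.uniformContinuous_algebraMap_liesOver (A := 𝓞 F) (K := F) K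
    (u.under (𝓞 F)) u
  let e1 : ((u.under (𝓞 F)).valuation F).Completion →+* (u.valuation K).Completion :=
    UniformSpace.Completion.mapRingHom _ huc.continuous
  let e0 : (u.under (𝓞 F)).adicCompletion F →+* u.adicCompletion K :=
    ((HeightOneSpectrum.adicCompletion.equiv K u).symm.toRingHom.comp e1).comp
      (HeightOneSpectrum.adicCompletion.equiv F (u.under (𝓞 F))).toRingHom
  have hcont : Continuous e0 :=
    (HeightOneSpectrum.adicCompletion.continuous_ofCompletion K u).comp
      (UniformSpace.Completion.continuous_map.comp
        (HeightOneSpectrum.adicCompletion.continuous_toCompletion F (u.under (𝓞 F))))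
  have he0 : ∀ x : F, e0 (algebraMap F ((u.under (𝓞 F)).adicCompletion F) x) =
      algebraMap K (u.adicCompletion K) (algebraMap F K x) := by
    intro x
    apply HeightOneSpectrum.adicCompletion.ext
    change e1 _ = _
    exact UniformSpace.Completion.mapRingHom_coe huc.continuous _
  refine ⟨e0, he0, ?_⟩
  let _ : Algebra ((u.under (𝓞 F)).adicCompletion F) (u.adicCompletion K) := e0.toAlgebra
  have : IsScalarTower F ((u.under (𝓞 F)).adicCompletion F) (u.adicCompletion K) :=
    .of_algebraMap_eq fun x => (he0 x).symm
  have : ContinuousSMul ((u.under (𝓞 F)).adicCompletion F) (u.adicCompletion K) :=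
    ⟨(hcont.comp continuous_fst).mul continuous_snd⟩
  have : Module.Finite ((u.under (𝓞 F)).adicCompletion F) (u.adicCompletion K) := inferInstance
  have hsub : ∀ x : K, algebraMap K (u.adicCompletion K) x ∈
      Algebra.adjoin ((u.under (𝓞 F)).adicCompletion F)
        {algebraMap K (u.adicCompletion K) θ} := by
    intro x
    have hx : x ∈ Algebra.adjoin F {θ} := by
      rw [hθ]
      exact Algebra.mem_top
    rw [Algebra.adjoin_singleton_eq_range_aeval] at hx ⊢
    obtain ⟨q, rfl⟩ := hx
    refine ⟨q.map (algebraMap F ((u.under (𝓞 F)).adicCompletion F)), ?_⟩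
    change aeval (algebraMap K (u.adicCompletion K) θ)
      (q.map (algebraMap F ((u.under (𝓞 F)).adicCompletion F))) =
        algebraMap K (u.adicCompletion K) (aeval θ q)
    rw [aeval_def, eval₂_map, aeval_def, hom_eval₂]
    congr 1
    exact RingHom.ext fun x => he0 x
  have hcl : IsClosed ((Algebra.adjoin ((u.under (𝓞 F)).adicCompletion F)
      {algebraMap K (u.adicCompletion K) θ}).toSubmodule : Set (u.adicCompletion K)) :=
    Submodule.closed_of_finiteDimensional _
  have htop : ∀ y : u.adicCompletion K, y ∈
      Algebra.adjoin ((u.under (𝓞 F)).adicCompletion F)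
        {algebraMap K (u.adicCompletion K) θ} := by
    intro y
    have h1 := (u.denseRange_algebraMap K).closure_range
    have h2 : closure (Set.range (algebraMap K (u.adicCompletion K))) ⊆
        ((Algebra.adjoin ((u.under (𝓞 F)).adicCompletion F)
          {algebraMap K (u.adicCompletion K) θ}).toSubmodule : Set (u.adicCompletion K)) := by
      refine closure_minimal ?_ hcl
      rintro _ ⟨x, rfl⟩
      exact hsub x
    exact h2 (by rw [h1]; exact Set.mem_univ y)
  intro y
  have hy := htop y
  rw [Algebra.adjoin_singleton_eq_range_aeval] at hy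
  obtain ⟨p, hp⟩ := hy
  refine ⟨p, ?_⟩
  rw [← hp]
  rfl

end Dr
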