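import Pool.Agent.Lib.MP_f80667_ag.Dr.BrI2
import Pool.Agent.Lib.MP_f80667_ag.Dr.BrI3
import Pool.Agent.Lib.MP_f80667_ag.Dr.BrC
import Pool.Agent.Lib.MP_f80667_ag.Dr.BrK
import Pool.Agent.Lib.MP_f80667_ag.Fa.Dfs

/-! Isotropic vectors at the finite places where the discriminant is not a square. -/

open IsDedekindDomain NumberField Polynomial

namespace Dr

open ZC Tq Dp

theorem nf_adjoin {F : Type} [Field F] [NumberField F] (g : F[X]) [Fact (Irreducible g)]
    (hg : g.Monic) : NumberField (AdjoinRoot g) := by
  have h1 : Module.Finite F (AdjoinRoot g) := hg.finite_adjoinRoot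
  have h2 : CharZero (AdjoinRoot g) :=
    charZero_of_injective_algebraMap (algebraMap F (AdjoinRoot g)).injective
  exact { to_charZero := h2, to_finiteDimensional := Module.Finite.trans F (AdjoinRoot g) }

theorem exists_above {F K : Type} [Field F] [NumberField F] [Field K] [NumberField K] [Algebra F K]
    (v : HeightOneSpectrum (𝓞 F)) : ∃ u : HeightOneSpectrum (𝓞 K), u.under (𝓞 F) = v := by
  obtain ⟨p, hpp, hp⟩ := v
  obtain ⟨P, hP, rfl⟩ := p.exists_ideal_over_prime_of_isIntegral_of_isDomain (S := 𝓞 K) (by simp)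
  exact ⟨⟨P, hP, by aesop⟩, rfl⟩

/-- transport of the isotropy statement along a ring isomorphism -/
theorem H_equiv {k l : Type*} [Field k] [Field l] (e : k →+* l) (he : Function.Surjective e)
    (H : ∀ a : Fin 4 → l, (∀ i, a i ≠ 0) → ¬ IsSquare (∏ i, a i) →
      ∃ x : Fin 4 → l, x ≠ 0 ∧ ∑ i, a i * x i ^ 2 = 0) (a : Fin 4 → k) (h0 : ∀ i, a i ≠ 0)
    (h : ¬ IsSquare (∏ i, a i)) : ∃ x : Fin 4 → k, x ≠ 0 ∧ ∑ i, a i * x i ^ 2 = 0 := by
  obtain ⟨x, hx, hs⟩ := H (fun i => e (a i)) (fun i h1 => h0 i (by simpa using h1)) (by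
    rintro ⟨r, hr⟩
    obtain ⟨r, rfl⟩ := he r
    refine h ⟨r, e.injective ?_⟩
    rw [map_prod, map_mul]
    exact hr)
  choose y hy using fun i => he (x i)
  refine ⟨y, ?_, e.injective ?_⟩
  · intro h1
    apply hx
    funext i
    rw [← hy i, h1, Pi.zero_apply, map_zero, Pi.zero_apply]
  · rw [map_sum, map_zero, ← hs]
    refine Finset.sum_congr rfl fun i _ => ?_
    rw [map_mul, map_pow, hy]

theorem adj_surj {k l : Type*} [Field k] [Field l] (g : k[X]) (i : k →+* l) (θ : l)
    (h : g.eval₂ i θ = 0) (hs : ∀ y : l, ∃ p : k[X], y = p.eval₂ i θ) :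
    Function.Surjective (AdjoinRoot.lift i θ h) := by
  intro y
  obtain ⟨p, hp⟩ := hs y
  exact ⟨AdjoinRoot.mk g p, by rw [AdjoinRoot.lift_mk, hp]⟩

variable {F : Type} [Field F] [NumberField F] {A B : Matrix (Fin 5) (Fin 5) F} {w : Fin 5 → F}
  {g s : F[X]} {d : F}

/-- **Isotropic vectors at the finite places.** Proof: if `g` is not irreducible over the completion:
`iso_split` with `iso_cpl` over `F` (if `d` were a square, `dl` would be a square modulo `g`). If `g` is
irreducible over the completion: `K = F[T] / g` is a number field, `u` a place above `v`; by `exists_cpl` the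
field `k[T] / g` (`k` the completion) is isomorphic to the completion of `K` at `u`; `iso_cpl` over `K`
and `iso_field`. -/
theorem iso_v (v : HeightOneSpectrum (𝓞 F)) (hg : g.Monic) (h2 : g.natDegree = 2)
    (hgc : g ∣ Dq.chp A B) (hs : (Dq.chp A B).Separable) (hδ : IsCoprime g (dl A B w))
    (hd : g ∣ dl A B w - C d * s ^ 2)
    (hn : ¬ ∃ s' : (FK F v)[X], g.map (algebraMap F (FK F v)) ∣
      (dl A B w).map (algebraMap F (FK F v)) - s' ^ 2) :
    ∃ R : Fin 5 → AdjoinRoot (g.map (algebraMap F (FK F v))),
      mQ (A.map (algebraMap F (FK F v))) (B.map (algebraMap F (FK F v))) 1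
        (-(AdjoinRoot.root (g.map (algebraMap F (FK F v))))) R = 0 ∧
      ∃ y, IsUnit (mB (A.map (algebraMap F (FK F v))) (B.map (algebraMap F (FK F v))) 1
        (-(AdjoinRoot.root (g.map (algebraMap F (FK F v))))) R y) := by
  have hch : CharZero (FK F v) := charZero_of_injective_algebraMap (algebraMap F (FK F v)).injective
  have hdl := dl_map (algebraMap F (FK F v)) A B w
  have hcp := chp_map (algebraMap F (FK F v)) A B
  have h2' : (g.map (algebraMap F (FK F v))).natDegree = 2 := by rw [natDegree_map, h2]
  by_cases hi : Irreducible (g.map (algebraMap F (FK F v)))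
  · have hf : Fact (Irreducible (g.map (algebraMap F (FK F v)))) := ⟨hi⟩
    have hgi : Irreducible g := hg.irreducible_of_irreducible_map _ _ hi
    have hgf : Fact (Irreducible g) := ⟨hgi⟩
    have hnf : NumberField (AdjoinRoot g) := nf_adjoin g hg
    obtain ⟨u, hu⟩ := exists_above (K := AdjoinRoot g) v
    obtain ⟨i, hi1, hi2⟩ := exists_cpl u v hu (θ := AdjoinRoot.root g)
      (AdjoinRoot.adjoinRoot_eq_top)
    let i' : FK F v →+* u.adicCompletion (AdjoinRoot g) := i
    have hi1' : i'.comp (algebraMap F (FK F v)) =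
        (algebraMap (AdjoinRoot g) (u.adicCompletion (AdjoinRoot g))).comp
          (algebraMap F (AdjoinRoot g)) := RingHom.ext fun x => hi1 x
    have hz : (g.map (algebraMap F (FK F v))).eval₂ i'
        (algebraMap (AdjoinRoot g) (u.adicCompletion (AdjoinRoot g)) (AdjoinRoot.root g)) = 0 := by
      rw [eval₂_map, hi1', ← hom_eval₂, AdjoinRoot.algebraMap_eq, AdjoinRoot.eval₂_root, map_zero]
    have key := iso_field (k := FK F v) (A := A.map (algebraMap F (FK F v)))
      (B := B.map (algebraMap F (FK F v)))
      (w := fun i => algebraMap F (FK F v) (w i)) (g := g.map (algebraMap F (FK F v)))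
      (H_equiv (AdjoinRoot.lift i' _ hz) (adj_surj _ i' _ hz hi2) (iso_cpl u)) (hg.map _)
      (by
        rw [← hcp]
        exact Polynomial.map_dvd _ hgc)
      (by
        rw [← hcp]
        exact hs.map)
      (by
        rw [← hdl]
        exact hn)
    exact key
  · have key := iso_split (k := FK F v) (iso_cpl (K := F) v)
      (A := A.map (algebraMap F (FK F v))) (B := B.map (algebraMap F (FK F v)))
      (w := fun i => algebraMap F (FK F v) (w i)) (g := g.map (algebraMap F (FK F v)))
      (s := s.map (algebraMap F (FK F v))) (d := algebraMap F (FK F v) d) (hg.map _) h2'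
      (by
        rw [← hcp]
        exact Polynomial.map_dvd _ hgc)
      (by
        rw [← hcp]
        exact hs.map)
      (by
        rw [← hdl]
        have h3 := hδ.map (mapRingHom (algebraMap F (FK F v)))
        exact h3)
      (by
        rw [← hdl]
        have h3 := Polynomial.map_dvd (algebraMap F (FK F v)) hd
        rw [Polynomial.map_sub, Polynomial.map_mul, Polynomial.map_C, Polynomial.map_pow] at h3
        exact h3)
      (by
        rintro ⟨e, he⟩
        refine hn ⟨C e * s.map (algebraMap F (FK F v)), ?_⟩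
        have h3 := Polynomial.map_dvd (algebraMap F (FK F v)) hd
        rw [Polynomial.map_sub, Polynomial.map_mul, Polynomial.map_C, Polynomial.map_pow, he,
          C_mul] at h3
        have e1 : (C e * s.map (algebraMap F (FK F v))) ^ 2 =
          C e * C e * s.map (algebraMap F (FK F v)) ^ 2 := by ring
        rw [e1]
        exact h3) hi
    exact key

end Dr
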