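import Pool.Agent.Lib.MP_f80667_ag.Dr.BrI2
import Pool.Agent.Lib.MP_f80667_ag.Fa.Dfs

/-! Isotropic vectors at the real places where the discriminant is not a square. -/

open IsDedekindDomain NumberField Polynomial

namespace Dr

open ZC Tq Dp

theorem real4 (b : Fin 4 → ℝ) (h0 : ∀ i, b i ≠ 0) (h : ¬ IsSquare (∏ i, b i)) :
    ∃ x : Fin 4 → ℝ, x ≠ 0 ∧ ∑ i, b i * x i ^ 2 = 0 := by
  rw [Real.isSquare_iff] at h
  by_cases hp : ∃ i j, 0 < b i ∧ b j < 0
  · obtain ⟨i, j, hi, hj⟩ := hp
    have hij : i ≠ j := by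
      rintro rfl
      exact lt_asymm hi hj
    refine ⟨fun l => if l = i then √(-b j) else if l = j then √(b i) else 0, ?_, ?_⟩
    · intro h1
      have h2 := congrFun h1 i
      rw [if_pos rfl, Pi.zero_apply] at h2
      have h3 : 0 < √(-b j) := Real.sqrt_pos.2 (by linarith)
      exact h3.ne' h2
    · have h1 : ∀ l, b l * (if l = i then √(-b j) else if l = j then √(b i) else 0) ^ 2 =
          (if l = i then b i * (-b j) else 0) + if l = j then b j * b i else 0 := by
        intro l
        by_cases h2 : l = i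
        · rw [if_pos h2, if_pos h2, if_neg (by rw [h2]; exact hij), h2,
            Real.sq_sqrt (by linarith), add_zero]
        · by_cases h3 : l = j
          · rw [if_neg h2, if_pos h3, if_neg h2, if_pos h3, h3, Real.sq_sqrt hi.le, zero_add]
          · rw [if_neg h2, if_neg h3, if_neg h2, if_neg h3]
            ring
      rw [Finset.sum_congr rfl fun l _ => h1 l, Finset.sum_add_distrib, Finset.sum_ite_eq',
        Finset.sum_ite_eq', if_pos (Finset.mem_univ _), if_pos (Finset.mem_univ _)]
      ring
  · exfalso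
    apply h
    push Not at hp
    rw [Fin.prod_univ_four]
    by_cases h1 : 0 < b 0
    · have h2 : ∀ j, 0 ≤ b j := fun j => hp 0 j h1
      have := h2 0
      have := h2 1
      have := h2 2
      have := h2 3
      positivity
    · have h2 : ∀ i, b i ≤ 0 := by
        intro i
        by_contra h3
        exact h1 (lt_of_le_of_ne (hp i 0 (not_le.1 h3)) (h0 0).symm)
      have e0 := h2 0
      have e1 := h2 1
      have e2 := h2 2
      have e3 := h2 3
      have e4 : 0 ≤ b 0 * b 1 := mul_nonneg_of_nonpos_of_nonpos e0 e1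
      have e5 : 0 ≤ b 2 * b 3 := mul_nonneg_of_nonpos_of_nonpos e2 e3
      rw [mul_assoc (b 0 * b 1)]
      exact mul_nonneg e4 e5

theorem real4' {k : Type*} [Field k] (φ : k ≃+* ℝ) (a : Fin 4 → k) (h0 : ∀ i, a i ≠ 0)
    (h : ¬ IsSquare (∏ i, a i)) : ∃ x : Fin 4 → k, x ≠ 0 ∧ ∑ i, a i * x i ^ 2 = 0 := by
  obtain ⟨x, hx, hs⟩ := real4 (fun i => φ (a i)) (fun i h1 => h0 i (by simpa using h1)) (by
    rintro ⟨r, hr⟩
    refine h ⟨φ.symm r, φ.injective ?_⟩
    rw [map_prod, map_mul, RingEquiv.apply_symm_apply]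
    exact hr)
  refine ⟨fun i => φ.symm (x i), ?_, φ.injective ?_⟩
  · intro h1
    apply hx
    funext i
    have h2 := congrFun h1 i
    simpa using h2
  · rw [map_sum, map_zero, ← hs]
    refine Finset.sum_congr rfl fun i _ => ?_
    rw [map_mul, map_pow, RingEquiv.apply_symm_apply]

theorem sq_adjoin {k : Type*} [Field k] (φ : k ≃+* ℝ) {g : k[X]} (h2 : g.natDegree = 2)
    (hi : Irreducible g) (t : AdjoinRoot g) : ∃ x y : k,
    t = (AdjoinRoot.of g x + AdjoinRoot.of g y * AdjoinRoot.root g) ^ 2 := by
  have hf : Fact (Irreducible g) := ⟨hi⟩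
  let ψ : k →+* ℂ := Complex.ofRealHom.comp (φ : k →+* ℝ)
  obtain ⟨α, hα⟩ : ∃ α : ℂ, g.eval₂ ψ α = 0 := by
    have h3 : (g.map ψ).degree ≠ 0 := by
      rw [degree_map]
      intro h4
      have h5 : g.natDegree = 0 := natDegree_eq_of_degree_eq_some h4
      omega
    obtain ⟨α, h4⟩ := IsAlgClosed.exists_root (g.map ψ) h3
    refine ⟨α, ?_⟩
    rw [IsRoot.def, eval_map] at h4
    exact h4
  have hne : α.im ≠ 0 := by
    intro h3
    have h4 : α = ((α.re : ℝ) : ℂ) := by
      apply Complex.ext
      · simp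
      · simp [h3]
    have h5 : g.eval (φ.symm α.re) = 0 := by
      apply φ.injective
      rw [map_zero]
      have h6 : ψ (g.eval (φ.symm α.re)) = 0 := by
        rw [← Polynomial.eval₂_at_apply, ← hα]
        congr 1
        show ((φ (φ.symm α.re) : ℝ) : ℂ) = α
        rw [RingEquiv.apply_symm_apply]
        exact h4.symm
      have h7 : ((φ (g.eval (φ.symm α.re)) : ℝ) : ℂ) = 0 := h6
      exact_mod_cast h7
    have h6 := degree_eq_one_of_irreducible_of_root hi h5
    have h7 : g.natDegree = 1 := natDegree_eq_of_degree_eq_some h6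
    omega
  let G : AdjoinRoot g →+* ℂ := AdjoinRoot.lift ψ α hα
  obtain ⟨u, hu⟩ := IsAlgClosed.exists_pow_nat_eq (G t) (n := 2) two_pos
  refine ⟨φ.symm (u.re - u.im / α.im * α.re), φ.symm (u.im / α.im), G.injective ?_⟩
  rw [← hu, map_pow, map_add, map_mul]
  congr 1
  have e1 : ∀ r : k, G (AdjoinRoot.of g r) = ((φ r : ℝ) : ℂ) := fun r => AdjoinRoot.lift_of hα
  have e2 : G (AdjoinRoot.root g) = α := AdjoinRoot.lift_root hα
  rw [e1, e1, e2, RingEquiv.apply_symm_apply, RingEquiv.apply_symm_apply]
  apply Complex.ext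
  · simp
  · simp
    field_simp

variable {F : Type} [Field F] [NumberField F] {A B : Matrix (Fin 5) (Fin 5) F} {w : Fin 5 → F}
  {g s : F[X]} {d : F}

/-- **Isotropic vectors at the real places.** Proof: `g` has two real zeros (otherwise `k[T] / g` is
isomorphic to `ℂ` and every element is a square) and `d < 0`; `iso_split`: a real form in four variables
with negative determinant is indefinite. -/
theorem iso_real_v (v : InfinitePlace F) (hv : v.IsReal) (hg : g.Monic) (h2 : g.natDegree = 2)
    (hgc : g ∣ Dq.chp A B) (hs : (Dq.chp A B).Separable) (hδ : IsCoprime g (dl A B w))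
    (hd : g ∣ dl A B w - C d * s ^ 2)
    (hn : ¬ ∃ s' : (IK F v)[X], g.map (algebraMap F (IK F v)) ∣
      (dl A B w).map (algebraMap F (IK F v)) - s' ^ 2) :
    ∃ R : Fin 5 → AdjoinRoot (g.map (algebraMap F (IK F v))),
      mQ (A.map (algebraMap F (IK F v))) (B.map (algebraMap F (IK F v))) 1
        (-(AdjoinRoot.root (g.map (algebraMap F (IK F v))))) R = 0 ∧
      ∃ y, IsUnit (mB (A.map (algebraMap F (IK F v))) (B.map (algebraMap F (IK F v))) 1
        (-(AdjoinRoot.root (g.map (algebraMap F (IK F v))))) R y) := by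
  have hch : CharZero (IK F v) := charZero_of_injective_algebraMap (algebraMap F (IK F v)).injective
  let φ : IK F v ≃+* ℝ := InfinitePlace.Completion.ringEquivRealOfIsReal hv
  have hdl := dl_map (algebraMap F (IK F v)) A B w
  have hcp := chp_map (algebraMap F (IK F v)) A B
  have h2' : (g.map (algebraMap F (IK F v))).natDegree = 2 := by rw [natDegree_map, h2]
  by_cases hi : Irreducible (g.map (algebraMap F (IK F v)))
  · exfalso
    obtain ⟨x, y, hxy⟩ := sq_adjoin φ h2' hi
      (AdjoinRoot.mk _ ((dl A B w).map (algebraMap F (IK F v))))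
    refine hn ⟨C x + C y * X, ?_⟩
    rw [← AdjoinRoot.mk_eq_mk, hxy, map_pow, map_add, map_mul]
    rfl
  · have key := iso_split (k := IK F v) (real4' φ)
      (A := A.map (algebraMap F (IK F v))) (B := B.map (algebraMap F (IK F v)))
      (w := fun i => algebraMap F (IK F v) (w i)) (g := g.map (algebraMap F (IK F v)))
      (s := s.map (algebraMap F (IK F v))) (d := algebraMap F (IK F v) d) (hg.map _) h2'
      (by
        rw [← hcp]
        exact Polynomial.map_dvd _ hgc)
      (by
        rw [← hcp]
        exact hs.map)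
      (by
        rw [← hdl]
        have h3 := hδ.map (mapRingHom (algebraMap F (IK F v)))
        exact h3)
      (by
        rw [← hdl]
        have h3 := Polynomial.map_dvd (algebraMap F (IK F v)) hd
        rw [Polynomial.map_sub, Polynomial.map_mul, Polynomial.map_C, Polynomial.map_pow] at h3
        exact h3)
      (by
        rintro ⟨e, he⟩
        refine hn ⟨C e * s.map (algebraMap F (IK F v)), ?_⟩
        have h3 := Polynomial.map_dvd (algebraMap F (IK F v)) hd
        rw [Polynomial.map_sub, Polynomial.map_mul, Polynomial.map_C, Polynomial.map_pow, he,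
          C_mul] at h3
        have e1 : (C e * s.map (algebraMap F (IK F v))) ^ 2 =
          C e * C e * s.map (algebraMap F (IK F v)) ^ 2 := by ring
        rw [e1]
        exact h3) hi
    exact key

end Dr
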