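import Pool.Agent.Lib.MP_f80667_ag.Dr.BrP
import Pool.Agent.Lib.MP_f80667_ag.Dr.BrG
import Pool.Agent.Lib.MP_f80667_ag.Dr.BrG2
import Pool.Agent.Lib.MP_f80667_ag.Dr.ZcD

/-! A representative with a known value. -/

open Polynomial
open scoped LinearAlgebra.Projectivization

namespace Dr

open ZC Tq Dp

/-- The cycles of tensors are effective. -/
private theorem brR_Ph_nonneg {Ω : Type} [Field Ω] (t : ℙ Ω (Fin (5 * 5) → Ω))
    (y : ℙ Ω (Fin 5 → Ω)) : 0 ≤ (Ph t : ℙ Ω (Fin 5 → Ω) →₀ ℤ) y := by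
  classical
  have h1 : ∀ z : ℙ Ω (Fin 5 → Ω), 0 ≤ (Finsupp.single z (1 : ℤ)) y := fun z => by
    rw [Finsupp.single_apply]
    split_ifs
    · exact zero_le_one
    · exact le_rfl
  rw [Ph]
  split_ifs with h
  · rw [Finsupp.add_apply]
    exact add_nonneg (h1 _) (h1 _)
  · exact le_rfl

private theorem brR_PhL_nonneg {k Ω M : Type} [Field k] [Field Ω] [Algebra k Ω] [Field M]
    [Algebra k M] [FiniteDimensional k M] (t : ℙ M (Fin (5 * 5) → M)) (y : ℙ Ω (Fin 5 → Ω)) :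
    0 ≤ (PhL (trPt k Ω t) : ℙ Ω (Fin 5 → Ω) →₀ ℤ) y := by
  classical
  rw [trPt, map_sum, Finsupp.finsetSum_apply]
  refine Finset.sum_nonneg fun ι _ => ?_
  rw [PhL_single, one_smul]
  exact brR_Ph_nonneg _ _

private theorem brR_hom {k : Type} [Field k] (A B : Matrix (Fin 5) (Fin 5) k) :
    ∀ i, (Pl A B i).IsHomogeneous 2 := by
  have hm : ∀ H : Matrix (Fin 5) (Fin 5) k, (ml H).IsHomogeneous 2 := by
    intro H
    refine MvPolynomial.IsHomogeneous.sum _ _ _ fun i _ =>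
      MvPolynomial.IsHomogeneous.sum _ _ _ fun j _ => ?_
    have h1 := ((MvPolynomial.isHomogeneous_C (Fin 5) (H i j)).mul
      ((MvPolynomial.isHomogeneous_X k i).mul (MvPolynomial.isHomogeneous_X k j)))
    simpa using h1
  intro i
  fin_cases i
  · exact hm A
  · exact hm B

variable {k : Type} [Field k] [CharZero k] {A B : Matrix (Fin 5) (Fin 5) k} {w : Fin 5 → k}
  {g s : k[X]} {d : k} {Ω : Type} [Field Ω] [Algebra k Ω] [IsAlgClosure k Ω]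

/-- **A representative with a known value.** Proof: the datum gives lines `t j` over `k⟮x j⟯` with
`y + 2 z₀ - ∑ PhL (trPt t j)` rationally equivalent to `0`. `y' = ∑ PhL (trPt t j) - 2 z₀`. `R` from `exists_R` and
`l` from `exists_l` for the points of the supports of the `PhL (trPt t j)` and of `z₀` (zeros on `X`, so `pt_nr`).
Then `Vc y' = Vc (∑ …) / (Vc z₀)²`, `Vc_mem`, `val_dat`, and the norms from `k(√d)` are a group which
contains the squares. -/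
theorem rep_val (hsm : Sm Ω A B) (hg : g.Monic) (h2 : g.natDegree = 2) (hgc : g ∣ Dq.chp A B)
    (hs : (Dq.chp A B).Separable) (hδ : IsCoprime g (dl A B w)) (hd : g ∣ dl A B w - C d * s ^ 2)
    (hR : ∃ R₀ : Fin 5 → AdjoinRoot g, mQ A B 1 (-(AdjoinRoot.root g)) R₀ = 0 ∧
      ∃ y, IsUnit (mB A B 1 (-(AdjoinRoot.root g)) R₀ y)) {P : k[X]}
    {y z₀ : ℙ Ω (Fin 5 → Ω) →₀ ℤ} (hy : y ∈ cyc0 Ω (Pl A B)) (hz : z₀ ∈ cyc Ω (Pl A B))
    (h : Dat A B P (y + (2 : ℤ) • z₀)) (hN : Even P.natDegree) :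
    ∃ (R : Fin 5 → AdjoinRoot g) (l : Fin 5 → k) (y' : ℙ Ω (Fin 5 → Ω) →₀ ℤ) (c : k),
      mQ A B 1 (-(AdjoinRoot.root g)) R = 0 ∧ y' ∈ cyc0 Ω (Pl A B) ∧
      y' - y ∈ ratEq Ω (Pl A B) ∧ Off A B g R l y' ∧ c ≠ 0 ∧ algebraMap k Ω c = Vc A B g R l y' ∧
      (Nd d c ↔ Nd d (Algebra.norm k (AdjoinRoot.mk g P))) := by
  classical
  have hac : IsAlgClosed Ω := IsAlgClosure.isAlgClosed k
  obtain ⟨m, x, t, hx, hP, hRt, hrat⟩ := h
  obtain ⟨W, hW⟩ : ∃ W, W = ∑ j, PhL (trPt k Ω (t j)) := ⟨_, rfl⟩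
  rw [← hW] at hrat
  have hle : ratEq Ω (Pl A B) ≤ cyc0 Ω (Pl A B) := Dz.ratEq_le_cyc0 fun i => ⟨2, brR_hom A B i⟩
  have h1 := hle hrat
  have hWc : W ∈ cyc Ω (Pl A B) := by
    have e : W = (y + (2 : ℤ) • z₀) - (y + (2 : ℤ) • z₀ - W) := by abel
    rw [e]
    exact sub_mem (add_mem hy.1 (zsmul_mem hz 2)) h1.1
  have hy' : (W + (-2 : ℤ) • z₀) - y ∈ ratEq Ω (Pl A B) := by
    have e : (W + (-2 : ℤ) • z₀) - y = -(y + (2 : ℤ) • z₀ - W) := by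
      rw [neg_smul]
      abel
    rw [e]
    exact neg_mem hrat
  -- supports
  have hsup : ∀ j, (PhL (trPt k Ω (t j))).support ⊆ W.support := by
    intro j z hz
    rw [Finsupp.mem_support_iff] at hz ⊢
    have h3 : 0 < (PhL (trPt k Ω (t j)) : ℙ Ω (Fin 5 → Ω) →₀ ℤ) z :=
      lt_of_le_of_ne (brR_PhL_nonneg _ _) (Ne.symm hz)
    have h4 : (PhL (trPt k Ω (t j)) : ℙ Ω (Fin 5 → Ω) →₀ ℤ) z ≤ W z := by
      rw [hW, Finsupp.finsetSum_apply]
      exact Finset.single_le_sum (f := fun j => (PhL (trPt k Ω (t j)) : ℙ Ω (Fin 5 → Ω) →₀ ℤ) z)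
        (fun i _ => brR_PhL_nonneg _ _) (Finset.mem_univ j)
    omega
  obtain ⟨Y, hYd⟩ : ∃ Y : Finset (Fin 5 → Ω), Y =
    (W.support ∪ z₀.support).image fun z => z.rep := ⟨_, rfl⟩
  have hYz : ∀ v ∈ Y, v ≠ 0 ∧ Zer (Pl A B) Ω v := by
    intro v hv
    rw [hYd, Finset.mem_image] at hv
    obtain ⟨z, hz1, rfl⟩ := hv
    refine ⟨z.rep_nonzero, ?_⟩
    rcases Finset.mem_union.1 hz1 with h3 | h3
    · exact hWc.1 z h3
    · exact hz.1 z h3
  obtain ⟨R₀, hR0, hR1⟩ := hR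
  obtain ⟨R, hRq, hRu, hRY⟩ := exists_R hg h2 hgc hs hR0 hR1 Y
    (fun v hv e _ => pt_nr hsm (hYz v hv).1 (hYz v hv).2 e)
  obtain ⟨l, hl⟩ := exists_l (k := k) Y fun v hv => (hYz v hv).1
  have hOff : ∀ Z : ℙ Ω (Fin 5 → Ω) →₀ ℤ, Z.support ⊆ W.support ∪ z₀.support →
      Off A B g R l Z := by
    intro Z hZ z hz
    have h3 : z.rep ∈ Y := by
      rw [hYd]
      exact Finset.mem_image_of_mem _ (hZ hz)
    exact ⟨hRY _ h3, hl _ h3⟩
  have hOW : Off A B g R l W := hOff W Finset.subset_union_left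
  have hOz : Off A B g R l z₀ := hOff z₀ Finset.subset_union_right
  obtain ⟨c₁, hc₁, hN1, hV⟩ := val_dat (l := l) hg h2 hgc hs hδ hd hRq hRu x t hx hP hN hRt
    (fun j => hOff _ ((hsup j).trans Finset.subset_union_left))
  rw [← hW] at hV
  obtain ⟨c₀, hc₀, hV0⟩ := Vc_mem hg h2 hz.2 hOz
  obtain ⟨hO2, hV2⟩ := Vc_smul hOz (-2)
  obtain ⟨hO3, hV3⟩ := Vc_add hOW hO2
  -- the norm of `P` is not zero
  have hcop : IsCoprime g P := by
    refine IsCoprime.of_isCoprime_of_dvd_left ?_ hgc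
    rw [hP]
    exact IsCoprime.prod_right fun j _ => (root_ln (hRt j)).2
  have hNP : Algebra.norm k (AdjoinRoot.mk g P) ≠ 0 := by
    obtain ⟨a, b, hab⟩ := hcop
    have h3 : AdjoinRoot.mk g P * AdjoinRoot.mk g b = 1 := by
      rw [← map_mul, ← map_one (AdjoinRoot.mk g), AdjoinRoot.mk_eq_mk]
      exact ⟨-a, by linear_combination hab⟩
    have h4 : IsUnit (AdjoinRoot.mk g P) := IsUnit.of_mul_eq_one _ h3
    exact (h4.map (Algebra.norm k)).ne_zero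
  refine ⟨R, l, W + (-2 : ℤ) • z₀, c₁ * (c₀⁻¹) ^ 2, hRq, ?_, hy', hO3, ?_, ?_, ?_, ?_⟩
  · have e : W + (-2 : ℤ) • z₀ = y + ((W + (-2 : ℤ) • z₀) - y) := by abel
    rw [e]
    exact add_mem hy (hle hy')
  · exact mul_ne_zero hc₁ (pow_ne_zero _ (inv_ne_zero hc₀))
  · rw [hV3, hV2, hV, ← hV0, map_mul, map_pow, map_inv₀]
    congr 1
    rw [inv_pow, zpow_neg, zpow_ofNat]
  · intro h3
    have h4 := (h3.mul (Nd.sq d c₀)).inv
    have h5 := hN1.mul h4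
    have e : Algebra.norm k (AdjoinRoot.mk g P) * c₁ * (c₁ * (c₀⁻¹) ^ 2 * c₀ ^ 2)⁻¹ =
        Algebra.norm k (AdjoinRoot.mk g P) := by
      field_simp
    rwa [e] at h5
  · intro h3
    have h5 := (hN1.mul h3.inv).mul (Nd.sq d c₀⁻¹)
    have e : Algebra.norm k (AdjoinRoot.mk g P) * c₁ * (Algebra.norm k (AdjoinRoot.mk g P))⁻¹ *
        (c₀⁻¹) ^ 2 = c₁ * (c₀⁻¹) ^ 2 := by
      field_simp
    rwa [e] at h5

end Dr
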