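import Pool.Agent.Lib.MP_f80667_ag.Dr.Rs

/-!
The algebra `F[X] / D` as a product of fields. `Sp D K θ`: the fields `K i` are generated by the elements
`θ i`, whose minimal polynomials are different and have the product `D`.
-/

open Polynomial Module

namespace Dr

/-- `D` is the product of the minimal polynomials of the generators `θ i` of the fields `K i`. -/
structure Sp {F : Type} [Field F] {ι : Type} [Fintype ι] (D : F[X]) (K : ι → Type)
    [∀ i, Field (K i)] [∀ i, Algebra F (K i)] (θ : ∀ i, K i) : Prop where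
  int : ∀ i, IsIntegral F (θ i)
  gen : ∀ i, Algebra.adjoin F {θ i} = ⊤
  inj : ∀ i l, minpoly F (θ i) = minpoly F (θ l) → i = l
  prod : D = ∏ i, minpoly F (θ i)

variable {F : Type} [Field F] {ι : Type} [Fintype ι] {D : F[X]} {K : ι → Type}
  [∀ i, Field (K i)] [∀ i, Algebra F (K i)] {θ : ∀ i, K i}

theorem Sp.monic (h : Sp D K θ) : D.Monic := by
  rw [h.prod]
  exact monic_prod_of_monic _ _ fun i _ => minpoly.monic (h.int i)

/-- Values of polynomials in a product. -/
theorem Cr_aeval (p : F[X]) : aeval (θ : ∀ i, K i) p = fun i => aeval (θ i) p := by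
  funext i
  exact (aeval_algHom_apply (Pi.evalAlgHom F K i) (θ : ∀ i, K i) p).symm

/-- A polynomial which vanishes at all `θ i` is divisible by `D`. -/
theorem Sp.dvd (h : Sp D K θ) {p : F[X]} (hp : ∀ i, aeval (θ i) p = 0) : D ∣ p := by
  rw [h.prod]
  refine Finset.prod_dvd_of_coprime ?_ fun i _ => minpoly.dvd F (θ i) (hp i)
  intro i _ l _ hil
  have h1 := minpoly.irreducible (h.int i)
  have h2 := minpoly.irreducible (h.int l)
  refine (h1.coprime_iff_not_dvd).2 fun h3 => hil (h.inj i l ?_)
  have h4 : Associated (minpoly F (θ i)) (minpoly F (θ l)) := h1.associated_of_dvd h2 h3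
  exact eq_of_monic_of_associated (minpoly.monic (h.int i)) (minpoly.monic (h.int l)) h4

theorem Sp.finrank (h : Sp D K θ) (i : ι) :
    Module.finrank F (K i) = (minpoly F (θ i)).natDegree := by
  let pb := (Algebra.adjoin.powerBasis (h.int i)).map
    ((Subalgebra.equivOfEq _ _ (h.gen i)).trans Subalgebra.topEquiv)
  rw [pb.finrank]
  rfl

theorem Sp.finite (h : Sp D K θ) (i : ι) : Module.Finite F (K i) := by
  let pb := (Algebra.adjoin.powerBasis (h.int i)).map
    ((Subalgebra.equivOfEq _ _ (h.gen i)).trans Subalgebra.topEquiv)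
  exact pb.finite

/-- The Chinese remainder theorem. Proof: the map is injective since `p` vanishes at all `θ i` iff it is
divisible by the (pairwise coprime) minimal polynomials; dimensions. -/
theorem Sp.exists_equiv (h : Sp D K θ) :
    ∃ e : AdjoinRoot D ≃ₐ[F] (∀ i, K i), ∀ p : F[X], e (AdjoinRoot.mk D p) = fun i => aeval (θ i) p := by
  have h0 : aeval (θ : ∀ i, K i) D = 0 := by
    rw [Cr_aeval]
    funext i
    rw [Pi.zero_apply, h.prod, map_prod]
    exact Finset.prod_eq_zero (Finset.mem_univ i) (minpoly.aeval F (θ i))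
  let φ : AdjoinRoot D →ₐ[F] (∀ i, K i) :=
    AdjoinRoot.liftAlgHom D (Algebra.ofId F (∀ i, K i)) θ h0
  have hφ : ∀ p : F[X], φ (AdjoinRoot.mk D p) = fun i => aeval (θ i) p := by
    intro p
    rw [← Cr_aeval]
    exact AdjoinRoot.lift_mk h0 p
  have hinj : Function.Injective φ := by
    rw [injective_iff_map_eq_zero]
    intro x hx
    obtain ⟨p, rfl⟩ := AdjoinRoot.mk_surjective x
    rw [hφ] at hx
    rw [AdjoinRoot.mk_eq_zero]
    exact h.dvd fun i => congrFun hx i
  have hf : ∀ i, Module.Finite F (K i) := h.finite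
  have hf' : Module.Finite F (AdjoinRoot D) := h.monic.finite_adjoinRoot
  have hrank : Module.finrank F (AdjoinRoot D) = Module.finrank F (∀ i, K i) := by
    rw [Module.finrank_pi_fintype, (AdjoinRoot.powerBasis' h.monic).finrank]
    have h1 : (AdjoinRoot.powerBasis' h.monic).dim = D.natDegree := rfl
    rw [h1, h.prod, natDegree_prod_of_monic _ _ fun i _ => minpoly.monic (h.int i)]
    exact Finset.sum_congr rfl fun i _ => (h.finrank i).symm
  have hsurj : Function.Surjective φ :=
    (LinearMap.injective_iff_surjective_of_finrank_eq_finrank (f := φ.toLinearMap) hrank).1 hinj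
  exact ⟨AlgEquiv.ofBijective φ ⟨hinj, hsurj⟩, hφ⟩

/-- **The map to `k[X] / D`, `k` a field over `F`.** Proof: the inverse of `exists_equiv`, followed by
`AdjoinRoot.map` (or `lift`); the bases are the powers of the root. `s` is the residue functional over
`F`; the representative of a polynomial with coefficients in `F` is the same over `k`. -/
theorem Sp.exists_j (h : Sp D K θ) (k : Type) [Field k] [Algebra F k]
    (hD : (D.map (algebraMap F k)).Monic) :
    ∃ (j : (∀ i, K i) →+* AdjoinRoot (D.map (algebraMap F k)))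
      (b : Basis (Fin D.natDegree) F (∀ i, K i))
      (b' : Basis (Fin D.natDegree) k (AdjoinRoot (D.map (algebraMap F k))))
      (s : (∀ i, K i) →ₗ[F] F),
      (∀ x : F, j (algebraMap F _ x) = algebraMap k _ (algebraMap F k x)) ∧
      (∀ m, b' m = j (b m)) ∧ NF s ∧
      (∀ x, Rk LinearMap.id hD (j x) = algebraMap F k (s x)) ∧
      ∀ p : F[X], j (fun i => aeval (θ i) p) = AdjoinRoot.mk _ (p.map (algebraMap F k)) := by
  obtain ⟨e, he⟩ := h.exists_equiv
  have hDm := h.monic
  have hes : ∀ p : F[X], e.symm (fun i => aeval (θ i) p) = AdjoinRoot.mk D p := by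
    intro p
    rw [← he, AlgEquiv.symm_apply_apply]
  let g : AdjoinRoot D →+* AdjoinRoot (D.map (algebraMap F k)) :=
    AdjoinRoot.map (algebraMap F k) D (D.map (algebraMap F k)) dvd_rfl
  have hg : ∀ p : F[X], g (AdjoinRoot.mk D p) = AdjoinRoot.mk _ (p.map (algebraMap F k)) := by
    intro p
    change AdjoinRoot.map (algebraMap F k) D (D.map (algebraMap F k)) dvd_rfl (AdjoinRoot.mk D p) = _
    rw [AdjoinRoot.map, AdjoinRoot.lift_mk, ← eval₂_map, ← AdjoinRoot.algebraMap_eq, ← aeval_def,
      AdjoinRoot.aeval_eq]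
  have hnd : (D.map (algebraMap F k)).natDegree = D.natDegree := hDm.natDegree_map _
  let pb := AdjoinRoot.powerBasis' hDm
  let pb' := AdjoinRoot.powerBasis' hD
  have hpb : pb.dim = D.natDegree := rfl
  have hpb' : pb'.dim = D.natDegree := hnd
  refine ⟨g.comp (e.symm : (∀ i, K i) →+* AdjoinRoot D),
    (pb.basis.map e.toLinearEquiv).reindex (finCongr hpb), pb'.basis.reindex (finCongr hpb'),
    Rk LinearMap.id hDm ∘ₗ e.symm.toLinearMap, ?_, ?_, ?_, ?_, ?_⟩
  · intro x
    change g (e.symm (algebraMap F _ x)) = _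
    rw [AlgEquiv.commutes, AdjoinRoot.algebraMap_eq, ← AdjoinRoot.mk_C, hg, map_C]
    rfl
  · intro m
    rw [Basis.reindex_apply, Basis.reindex_apply, Basis.map_apply, pb'.basis_eq_pow,
      pb.basis_eq_pow]
    change _ = g (e.symm (e (AdjoinRoot.root D ^ _)))
    rw [AlgEquiv.symm_apply_apply, ← AdjoinRoot.mk_X, ← map_pow, hg, Polynomial.map_pow, map_X,
      map_pow]
    rfl
  · intro x hx
    have h1 : e.symm x = 0 := by
      refine Rk_NF (σ := (LinearMap.id : F →ₗ[F] F)) (fun a ha => ?_) hDm _ fun z => ?_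
      · have := ha 1
        rwa [mul_one] at this
      · have h2 := hx (e z)
        rw [LinearMap.comp_apply] at h2
        have h3 : e.symm.toLinearMap (x * e z) = e.symm x * z := by
          change e.symm (x * e z) = _
          rw [map_mul, AlgEquiv.symm_apply_apply]
        rwa [h3] at h2
    exact (map_eq_zero_iff e.symm e.symm.injective).1 h1
  · intro x
    obtain ⟨y, rfl⟩ := e.surjective x
    obtain ⟨p, rfl⟩ := AdjoinRoot.mk_surjective y
    have h1 : (e.symm.toLinearMap (e (AdjoinRoot.mk D p))) = AdjoinRoot.mk D p :=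
      e.symm_apply_apply _
    change Rk LinearMap.id hD (g (e.symm (e (AdjoinRoot.mk D p)))) = _
    rw [LinearMap.comp_apply, h1, e.symm_apply_apply, hg, Rk_apply, Rk_apply, LinearMap.id_apply,
      LinearMap.id_apply, Rs_mk, Rs_mk, hnd, ← map_modByMonic _ hDm, coeff_map]
  · intro p
    change g (e.symm _) = _
    rw [hes, hg]

end Dr
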