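import Pool.Agent.Lib.MP_f80667_ag.Dr.Pf
import Pool.Agent.Lib.MP_f80667_ag.Dr.Cr
import Pool.Agent.Lib.MP_f80667_ag.Dr.BrD
import Pool.Agent.Lib.MP_f80667_ag.Dr.NmL
import Pool.Agent.Lib.MP_f80667_ag.Fa.Dfs

/-! The symbols of one class at a finite place. -/

open IsDedekindDomain NumberField Polynomial
open scoped WithZero

namespace Dr

open ZC Tq Dp

/-- The determinant of a block diagonal matrix. -/
theorem det_bd {o : Type*} [Fintype o] [DecidableEq o] {m : o → Type*} [∀ i, Fintype (m i)]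
    [∀ i, DecidableEq (m i)] {R : Type*} [CommRing R] (d : ∀ i, Matrix (m i) (m i) R) :
    (Matrix.blockDiagonal' d).det = ∏ i, (d i).det := by
  have h1 : ∀ (l : LinearOrder o), (Matrix.blockDiagonal' d).BlockTriangular Sigma.fst := by
    intro l
    rintro ⟨i, a⟩ ⟨j, c⟩ h
    exact Matrix.blockDiagonal'_apply_ne d a c (ne_of_gt h)
  let l : LinearOrder o := LinearOrder.lift' (Fintype.equivFin o) (Fintype.equivFin o).injective
  have h2 := (h1 l).det_fintype
  refine h2.trans (Finset.prod_congr rfl fun k _ => ?_)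
  rw [← Matrix.det_reindex_self (Equiv.sigmaSubtype k)]
  congr 1
  ext i j
  rw [Matrix.reindex_apply, Matrix.submatrix_apply, Matrix.toSquareBlock_def, Matrix.of_apply]
  exact Matrix.blockDiagonal'_apply_eq d k i j

/-- The norm of a product of fields. -/
theorem norm_piV {F ι : Type*} [Field F] [Fintype ι] {K : ι → Type*} [∀ i, Field (K i)]
    [∀ i, Algebra F (K i)] [∀ i, Module.Finite F (K i)] (x : ∀ i, K i) :
    Algebra.norm F x = ∏ i, Algebra.norm F (x i) := by
  classical
  let b := fun i => Module.finBasis F (K i)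
  rw [Algebra.norm_eq_matrix_det (Pi.basis b)]
  have h1 : Algebra.leftMulMatrix (Pi.basis b) x =
      Matrix.blockDiagonal' fun i => Algebra.leftMulMatrix (b i) (x i) := by
    ext ⟨i, a⟩ ⟨j, c⟩
    rw [Algebra.leftMulMatrix_eq_repr_mul, Pi.basis_repr, Pi.basis_apply, Pi.mul_apply]
    by_cases h : i = j
    · subst h
      rw [Matrix.blockDiagonal'_apply_eq, Pi.single_eq_same, Algebra.leftMulMatrix_eq_repr_mul]
    · rw [Matrix.blockDiagonal'_apply_ne _ _ _ h, Pi.single_eq_of_ne h, mul_zero, map_zero]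
      rfl
  rw [h1, det_bd]
  exact Finset.prod_congr rfl fun i _ => (Algebra.norm_eq_matrix_det (b i) (x i)).symm

variable {F : Type} [Field F] [NumberField F] {A B : Matrix (Fin 5) (Fin 5) F} {ι : Type} [Fintype ι]
  {D : F[X]} {K : ι → Type} [∀ i, Field (K i)] [∀ i, NumberField (K i)] [∀ i, Algebra F (K i)]
  {θ : ∀ i, K i} {w : Fin 5 → F} {g s : F[X]} {d : F} {δ : ∀ i, (K i)ˣ}

omit [NumberField F] [∀ i, NumberField (K i)] in
/-- A part of the factors. -/
theorem Sp.part (hS : Sp D K θ) (I : Finset ι) (hg : g = ∏ i ∈ I, minpoly F (θ i)) :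
    Sp g (fun i : I => K i) (fun i : I => θ i) where
  int := fun i => hS.int i
  gen := fun i => hS.gen i
  inj := fun i l h => Subtype.ext (hS.inj i l h)
  prod := by
    rw [hg]
    exact (Finset.prod_coe_sort I fun i => minpoly F (θ i)).symm

omit [NumberField F] [∀ i, NumberField (K i)] in
/-- The norm of the class of a polynomial. -/
theorem Sp.norm_mk (hS : Sp D K θ) (I : Finset ι) (hg : g = ∏ i ∈ I, minpoly F (θ i)) (P : F[X]) :
    Algebra.norm F (AdjoinRoot.mk g P) = ∏ i ∈ I, Algebra.norm F (aeval (θ i) P) := by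
  have h := hS.part I hg
  obtain ⟨e, he⟩ := h.exists_equiv
  have hf := h.finite
  rw [← Algebra.norm_eq_of_algEquiv e, he, norm_piV]
  exact Finset.prod_coe_sort I fun i => Algebra.norm F (aeval (θ i) P)

/-- The product of the norms. -/
theorem even_prod (v : HeightOneSpectrum (𝓞 F)) (dU : Fˣ) (a : ∀ i, (K i)ˣ) (I : Finset ι) :
    Even (∑ i ∈ I, nF v (a i) (Units.map (algebraMap F (K i)).toMonoidHom dU)) ↔
      ∏ i ∈ I, Units.map (Algebra.norm F) (a i) ∈ Hm.LNm v dU := by
  classical
  induction I using Finset.induction_on with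
  | empty =>
    rw [Finset.sum_empty, Finset.prod_empty]
    exact ⟨fun _ => one_mem _, fun _ => Even.zero⟩
  | insert i t hi ih =>
    rw [Finset.sum_insert hi, Finset.prod_insert hi, Nat.even_add, LNm_mul_iff, proj_v, ih]

/-- **The symbols at a finite place.** Proof: `δ i = d s (θ i)²`, so `nF v (a i) (δ i) = nF v (a i) d`;
`proj_v`; the product of the norms of the `a i`, `i ∈ I`, is the norm of the class of `P` in `F[T] / g`
(Chinese remainder theorem, or `norm_symm` with the zeros), `Hm` `LNm` is a group and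
`LNm_mul_iff`; `mem_LNm_iff` and `norm_map` for the completion. -/
theorem sym_v (hS : Sp D K θ) (hδ : ∀ i, (δ i : K i) = aeval (θ i) (dl A B w)) (I : Finset ι)
    (hg : g = ∏ i ∈ I, minpoly F (θ i)) (hd0 : d ≠ 0) (hd : g ∣ dl A B w - C d * s ^ 2)
    (v : HeightOneSpectrum (𝓞 F)) {P : F[X]} (a : ∀ i, (K i)ˣ)
    (ha : ∀ i, (a i : K i) = aeval (θ i) P) :
    Even (∑ i ∈ I, nF v (a i) (δ i)) ↔ Nd (algebraMap F (FK F v) d)
      (Algebra.norm (FK F v) (AdjoinRoot.mk (g.map (algebraMap F (FK F v)))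
        (P.map (algebraMap F (FK F v))))) := by
  classical
  obtain ⟨dU, hdU⟩ : ∃ dU : Fˣ, (dU : F) = d := ⟨Units.mk0 d hd0, rfl⟩
  have h1 : ∀ i ∈ I, nF v (a i) (δ i) =
      nF v (a i) (Units.map (algebraMap F (K i)).toMonoidHom dU) := by
    intro i hi
    have h2 : minpoly F (θ i) ∣ dl A B w - C d * s ^ 2 := by
      refine dvd_trans ?_ hd
      rw [hg]
      exact Finset.dvd_prod_of_mem _ hi
    have h3 : aeval (θ i) (dl A B w - C d * s ^ 2) = 0 := by
      obtain ⟨q, hq⟩ := h2
      rw [hq, map_mul, minpoly.aeval, zero_mul]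
    rw [map_sub, map_mul, map_pow, aeval_C, sub_eq_zero, ← hδ] at h3
    have h4 : aeval (θ i) s ≠ 0 := by
      intro h
      rw [h, zero_pow two_ne_zero, mul_zero] at h3
      exact (δ i).ne_zero h3
    have h5 : δ i = Units.map (algebraMap F (K i)).toMonoidHom dU * (Units.mk0 _ h4) ^ 2 := by
      refine Units.ext ?_
      rw [Units.val_mul, Units.val_pow_eq_pow_val, Units.val_mk0, h3, ← hdU]
      rfl
    have h6 : ∀ u : HeightOneSpectrum (𝓞 (K i)), Hm.LNm u (δ i) =
        Hm.LNm u (Units.map (algebraMap F (K i)).toMonoidHom dU) := by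
      intro u
      refine LNm_congr ?_
      rw [h5, mul_div_cancel_left]
      exact Hm.sq_mem_LSq _ _
    simp only [nF, h6]
  have hS' := hS.part I hg
  have h7 : ((∏ i ∈ I, Units.map (Algebra.norm F) (a i) : Fˣ) : F) =
      Algebra.norm F (AdjoinRoot.mk g P) := by
    rw [hS.norm_mk I hg, Units.coe_prod]
    refine Finset.prod_congr rfl fun i _ => ?_
    rw [← ha i]
    rfl
  have h8 : Algebra.norm (FK F v) (AdjoinRoot.mk (g.map (algebraMap F (FK F v)))
        (P.map (algebraMap F (FK F v)))) =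
      algebraMap F (FK F v) (Algebra.norm F (AdjoinRoot.mk g P)) := by
    rw [← norm_map hS'.monic (up g (FK F v)) (fun x => up_of x) up_root]
    congr 1
    rw [up, AdjoinRoot.lift_mk, ← eval₂_map, ← AdjoinRoot.algebraMap_eq, ← aeval_def,
      AdjoinRoot.aeval_eq]
  rw [Finset.sum_congr rfl h1, even_prod, mem_LNm_iff, h7, hdU, h8]
  exact Iff.rfl

end Dr
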