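import Pool.Agent.Lib.MP_f80667_ag.Dr.Vq

/-!
The discriminant element. `dl A B w = wᵀ adj (A + Aᵀ - X (B + Bᵀ)) w`; its value at a zero `θ` of the
characteristic polynomial is, if not zero, the discriminant of the nondegenerate part (rank `4`) of the
member `(1, -θ)`, up to squares.
-/

open Polynomial Matrix

namespace Dr

open ZC Tq Dp

/-- The discriminant element. -/
noncomputable def dl {R : Type*} [CommRing R] (A B : Matrix (Fin 5) (Fin 5) R) (w : Fin 5 → R) :
    R[X] :=
  (fun i => C (w i)) ⬝ᵥ
    (((A + A.transpose).map C - (X : R[X]) • (B + B.transpose).map C).adjugate *ᵥ fun i => C (w i))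

/-- The pencil of matrices and ring homomorphisms. -/
theorem dl_mat {R S : Type*} [CommRing R] [CommRing S] (f : R →+* S)
    (A B : Matrix (Fin 5) (Fin 5) R) :
    (mapRingHom f).mapMatrix ((A + A.transpose).map C - (X : R[X]) • (B + B.transpose).map C) =
      (A.map f + (A.map f).transpose).map C - (X : S[X]) • (B.map f + (B.map f).transpose).map C := by
  ext1 i j
  simp only [RingHom.mapMatrix_apply, Matrix.map_apply, Matrix.sub_apply, Matrix.smul_apply,
    Matrix.add_apply, Matrix.transpose_apply,
    smul_eq_mul, coe_mapRingHom, Polynomial.map_sub, Polynomial.map_mul, Polynomial.map_X,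
    Polynomial.map_C, map_add, Polynomial.map_add]

theorem dl_map {R S : Type*} [CommRing R] [CommRing S] (f : R →+* S) (A B : Matrix (Fin 5) (Fin 5) R)
    (w : Fin 5 → R) : (dl A B w).map f = dl (A.map f) (B.map f) (fun i => f (w i)) := by
  rw [← coe_mapRingHom, dl, dl, RingHom.map_dotProduct]
  have h1 : (⇑(mapRingHom f) ∘ fun i => C (w i)) = fun i => C (f (w i)) := by
    funext i
    simp only [Function.comp_apply, coe_mapRingHom, Polynomial.map_C]
  have h2 : (⇑(mapRingHom f) ∘
      (((A + A.transpose).map C - (X : R[X]) • (B + B.transpose).map C).adjugate *ᵥ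
        fun i => C (w i))) =
      (((A.map f + (A.map f).transpose).map C -
        (X : S[X]) • (B.map f + (B.map f).transpose).map C).adjugate *ᵥ fun i => C (f (w i))) := by
    funext i
    rw [Function.comp_apply, RingHom.map_mulVec, ← RingHom.mapMatrix_apply, RingHom.map_adjugate,
      dl_mat, h1]
  rw [h1, h2]

theorem chp_map {R S : Type*} [CommRing R] [CommRing S] (f : R →+* S)
    (A B : Matrix (Fin 5) (Fin 5) R) : (Dq.chp A B).map f = Dq.chp (A.map f) (B.map f) := by
  rw [← coe_mapRingHom, Dq.chp, Dq.chp, RingHom.map_det, dl_mat]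

end Dr
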