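import Pool.Agent.Lib.MP_f80667_ag.Dr.OutD
import Pool.Agent.Lib.MP_f80667_ag.Dr.Cr
import Pool.Agent.Lib.MP_f80667_ag.Dr.BrK
import Pool.Agent.Lib.MP_f80667_ag.Dr.Dl
import Pool.Agent.Lib.MP_f80667_ag.Hm.Main
import Pool.Agent.Lib.MP_f80667_ag.Hm.NI
import Pool.Agent.Lib.MP_f80667_ag.Hm.Loc
import Pool.Agent.Lib.MP_f80667_ag.Fa.Dfs

/-! Places where the discriminant is a square. -/

open IsDedekindDomain NumberField Polynomial
open scoped WithZero

namespace Dr

open ZC Tq Dp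

variable {F : Type} [Field F] [NumberField F] {A B : Matrix (Fin 5) (Fin 5) F} {ι : Type} [Fintype ι]
  {D : F[X]} {K : ι → Type} [∀ i, Field (K i)] [∀ i, NumberField (K i)] [∀ i, Algebra F (K i)]
  {θ : ∀ i, K i} {w : Fin 5 → F} {g s : F[X]} {d : F} {δ : ∀ i, (K i)ˣ}

/-- Places where `dl` is a square modulo `g`. Proof: `exists_cpl`: the `δ i`, `i ∈ I`, are squares in the
completions of `K i` above `v`; `Hm.LNm_eq_top`. -/
theorem sym_v0 (hS : Sp D K θ) (hδ : ∀ i, (δ i : K i) = aeval (θ i) (dl A B w)) (I : Finset ι)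
    (hg : g = ∏ i ∈ I, minpoly F (θ i)) (v : HeightOneSpectrum (𝓞 F))
    (hn : ∃ s' : (FK F v)[X], g.map (algebraMap F (FK F v)) ∣
      (dl A B w).map (algebraMap F (FK F v)) - s' ^ 2) (a : ∀ i, (K i)ˣ) (i : ι) (hi : i ∈ I) :
    nF v (a i) (δ i) = 0 := by
  rw [nF, Nat.card_eq_zero]
  left
  constructor
  rintro ⟨u, hu, hx⟩
  apply hx
  apply Hm.LNm_eq_top
  rw [Hm.mem_LSq_iff]
  obtain ⟨e, he, -⟩ := exists_cpl u v hu (hS.gen i)
  obtain ⟨s', r, hs'⟩ := hn
  let e' : FK F v →+* u.adicCompletion (K i) := e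
  have he' : ∀ x, e' (algebraMap F (FK F v) x) =
      algebraMap (K i) (u.adicCompletion (K i)) (algebraMap F (K i) x) := he
  have h1 : ∀ p : F[X], (p.map (algebraMap F (FK F v))).eval₂ e'
      (algebraMap (K i) (u.adicCompletion (K i)) (θ i)) =
      algebraMap (K i) (u.adicCompletion (K i)) (aeval (θ i) p) := by
    intro p
    rw [eval₂_map, aeval_def, hom_eval₂]
    congr 1
    exact RingHom.ext he'
  have hg0 : aeval (θ i) g = 0 := by
    rw [hg, map_prod]
    exact Finset.prod_eq_zero hi (minpoly.aeval F (θ i))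
  have h2 := congrArg (fun p => p.eval₂ e'
    (algebraMap (K i) (u.adicCompletion (K i)) (θ i))) hs'
  simp only [eval₂_sub, eval₂_mul, eval₂_pow, h1, hg0, map_zero, zero_mul, sub_eq_zero] at h2
  rw [hδ i, h2]
  exact ⟨_, pow_two _⟩

end Dr
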