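import Pool.Agent.Lib.MP_f80667_ag.Dr.Loc2
import Pool.Agent.Lib.MP_f80667_ag.Dr.BrD
import Pool.Agent.Lib.MP_f80667_ag.Dq.Hyp
import Pool.Agent.Lib.MP_f80667_ag.Dq.NuV

/-! Continuity of the symbols. -/

open IsDedekindDomain NumberField Polynomial
open scoped WithZero

namespace Dr

open ZC Tq Dp

variable {F : Type} [Field F] [NumberField F] {A B : Matrix (Fin 5) (Fin 5) F} {ι : Type} [Fintype ι]
  {D : F[X]} {K : ι → Type} [∀ i, Field (K i)] [∀ i, NumberField (K i)] [∀ i, Algebra F (K i)]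
  {θ : ∀ i, K i} {w : Fin 5 → F} {g s : F[X]} {d : F} {δ : ∀ i, (K i)ˣ}

/-- Elements near a nonzero element differ from it by squares. -/
private theorem bv3_sq {k : Type} [NontriviallyNormedField k] [CompleteSpace k] [CharZero k]
    {c₀ : k} (h0 : c₀ ≠ 0) : ∀ᶠ c in nhds c₀, ∃ t : k, t ≠ 0 ∧ c = c₀ * t ^ 2 := by
  have h1 : HasStrictDerivAt (fun t : k => c₀ * t ^ 2) (c₀ * (2 * 1)) 1 := by
    have h2 : HasStrictDerivAt (fun t : k => t ^ 2) (2 * 1) (1 : k) := by
      simpa using hasStrictDerivAt_pow 2 (1 : k)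
    exact h2.const_mul c₀
  have h2 : c₀ * (2 * 1) ≠ 0 := mul_ne_zero h0 (by norm_num)
  have h3 := h1.map_nhds_eq h2
  have h4 : c₀ * (1 : k) ^ 2 = c₀ := by ring
  rw [h4] at h3
  rw [← h3, Filter.eventually_map]
  have h5 : ∀ᶠ t in nhds (1 : k), t ≠ 0 := isOpen_ne.mem_nhds one_ne_zero
  filter_upwards [h5] with t ht
  exact ⟨t, ht, rfl⟩

private theorem bv3_nd {k : Type} [Field k] {d c t : k} (ht : t ≠ 0) :
    Nd d (c * t ^ 2) ↔ Nd d c := by
  constructor
  · intro h
    have h1 := h.mul (Nd.sq d t⁻¹)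
    have h2 : c * t ^ 2 * t⁻¹ ^ 2 = c := by field_simp
    rwa [h2] at h1
  · intro h
    exact h.mul (Nd.sq d t)

private theorem bv3_cont {k : Type} [NontriviallyNormedField k] {g : k[X]} (hg : g.Monic)
    (N : ℕ) : Continuous fun c : Fin N → k => Algebra.norm k
      (∑ j, c j • (AdjoinRoot.root g) ^ (j : ℕ)) := by
  classical
  let b := (AdjoinRoot.powerBasis' hg).basis
  have h1 : (fun c : Fin N → k => Algebra.norm k (∑ j, c j • (AdjoinRoot.root g) ^ (j : ℕ))) =
      fun c : Fin N → k => (∑ j, c j • Algebra.leftMulMatrix b ((AdjoinRoot.root g) ^ (j : ℕ))).det := by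
    funext c
    rw [Algebra.norm_eq_matrix_det b, map_sum]
    simp only [map_smul]
  rw [h1]
  refine Continuous.matrix_det ?_
  exact continuous_finsetSum _ fun j _ => (continuous_apply j).smul continuous_const

private theorem bv3_mk {k : Type} [Field k] {g : k[X]} {N : ℕ} {P : k[X]} (hP : P.natDegree < N) :
    AdjoinRoot.mk g P = ∑ j : Fin N, P.coeff j • (AdjoinRoot.root g) ^ (j : ℕ) := by
  conv_lhs => rw [P.as_sum_range_C_mul_X_pow' hP]
  rw [map_sum, ← Fin.sum_univ_eq_sum_range (fun j => AdjoinRoot.mk g (C (P.coeff j) * X ^ j))]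
  refine Finset.sum_congr rfl fun j _ => ?_
  rw [map_mul, map_pow, AdjoinRoot.mk_X, AdjoinRoot.mk_C, Algebra.smul_def]
  rfl

private theorem bv3_abs {k : Type} [NontriviallyNormedField k] [CompleteSpace k] [CharZero k]
    {g : k[X]} (hg : g.Monic) (d : k) {P₀ : k[X]}
    (h0 : Algebra.norm k (AdjoinRoot.mk g P₀) ≠ 0) : ∃ ε : ℝ, 0 < ε ∧
      ∀ P : k[X], P.natDegree = P₀.natDegree → (∀ j, ‖P.coeff j - P₀.coeff j‖ < ε) →
      (Nd d (Algebra.norm k (AdjoinRoot.mk g P)) ↔ Nd d (Algebra.norm k (AdjoinRoot.mk g P₀))) := by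
  have hc := bv3_cont hg (P₀.natDegree + 1)
  have h1 : ContinuousAt (fun c : Fin (P₀.natDegree + 1) → k => Algebra.norm k
      (∑ j : Fin (P₀.natDegree + 1), c j • (AdjoinRoot.root g) ^ (j : ℕ)))
      (fun j : Fin (P₀.natDegree + 1) => P₀.coeff j) := hc.continuousAt
  have h2 : ∀ᶠ c in nhds (fun j : Fin (P₀.natDegree + 1) => P₀.coeff j), ∃ t : k, t ≠ 0 ∧
      Algebra.norm k (∑ j : Fin (P₀.natDegree + 1), c j • (AdjoinRoot.root g) ^ (j : ℕ)) =
        Algebra.norm k (AdjoinRoot.mk g P₀) * t ^ 2 := by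
    refine h1.eventually (p := fun z => ∃ t : k, t ≠ 0 ∧
      z = Algebra.norm k (AdjoinRoot.mk g P₀) * t ^ 2) ?_
    have h5 := bv3_sq h0
    rw [bv3_mk (g := g) (Nat.lt_succ_self P₀.natDegree)] at h5
    rw [bv3_mk (g := g) (Nat.lt_succ_self P₀.natDegree)]
    exact h5
  obtain ⟨ε, hε, h3⟩ := Metric.eventually_nhds_iff.1 h2
  refine ⟨ε, hε, fun P hPd hP => ?_⟩
  have h4 : dist (fun j : Fin (P₀.natDegree + 1) => P.coeff j) (fun j => P₀.coeff j) < ε := by
    rw [dist_pi_lt_iff hε]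
    intro j
    rw [dist_eq_norm]
    exact hP j
  obtain ⟨t, ht, h5⟩ := h3 h4
  have h6 : AdjoinRoot.mk g P = ∑ j : Fin (P₀.natDegree + 1),
      P.coeff j • (AdjoinRoot.root g) ^ (j : ℕ) := bv3_mk (by omega)
  rw [h6, h5, bv3_nd ht]

/-- Continuity. Proof: the norm of the class of `P₀` is a polynomial in the coefficients of the
remainder; elements near `1` are squares (`LNm_near`). -/
theorem nd_near (v : HeightOneSpectrum (𝓞 F)) (hg : g.Monic) (d : F) {P₀ : (FK F v)[X]}
    (h0 : IsCoprime (g.map (algebraMap F (FK F v))) P₀) :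
    ∃ e : ℤᵐ⁰, e ≠ 0 ∧ ∀ P : F[X], Dq.NearPol v e P₀ P →
      (Nd (algebraMap F (FK F v) d) (Algebra.norm (FK F v)
        (AdjoinRoot.mk (g.map (algebraMap F (FK F v))) (P.map (algebraMap F (FK F v))))) ↔
      Nd (algebraMap F (FK F v) d) (Algebra.norm (FK F v)
        (AdjoinRoot.mk (g.map (algebraMap F (FK F v))) P₀))) := by
  have hf : Finite ((𝓞 F) ⧸ v.asIdeal) := Pool.Agent.Lib.MP_f80667_ag.LF.finite_quot F v
  let i1 : NontriviallyNormedField (v.adicCompletion F) :=
    Valued.toNontriviallyNormedField (v.adicCompletion F) (WithZero (Multiplicative ℤ))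
  have h1 : @ProperSpace (v.adicCompletion F) i1.toNormedField.toMetricSpace.toPseudoMetricSpace := by
    refine Valued.integer.properSpace_iff_completeSpace_and_isDiscreteValuationRing_integer_and_finite_residueField.mpr ?_
    exact ⟨inferInstance, (inferInstance : IsDiscreteValuationRing (v.adicCompletionIntegers F)),
      Pool.Agent.Lib.MP_f80667_ag.LF.finite_residueField F v⟩
  have hlt : ∀ x y : v.adicCompletion F, Valued.v x < Valued.v y → ‖x‖ < ‖y‖ :=
    fun x y h => Valued.toNormedField.norm_lt_iff.2 h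
  have hch : CharZero (v.adicCompletion F) :=
    charZero_of_injective_algebraMap (algebraMap F (v.adicCompletion F)).injective
  have hgm : (g.map (algebraMap F (v.adicCompletion F))).Monic := hg.map _
  have hn0 : Algebra.norm (v.adicCompletion F)
      (AdjoinRoot.mk (g.map (algebraMap F (v.adicCompletion F))) P₀) ≠ 0 := by
    have h2 : IsUnit (AdjoinRoot.mk (g.map (algebraMap F (v.adicCompletion F))) P₀) := by
      obtain ⟨a, b, hab⟩ := h0
      have h3 := congrArg (AdjoinRoot.mk (g.map (algebraMap F (FK F v)))) hab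
      rw [map_add, map_mul, map_mul, AdjoinRoot.mk_self, mul_zero, zero_add, map_one] at h3
      exact IsUnit.of_mul_eq_one _ (by rw [mul_comm]; exact h3)
    exact (h2.map (Algebra.norm (v.adicCompletion F))).ne_zero
  obtain ⟨ε, hε, h3⟩ := bv3_abs hgm (algebraMap F (v.adicCompletion F) d) hn0
  obtain ⟨t, ht0, ht⟩ := NormedField.exists_norm_lt (v.adicCompletion F) hε
  refine ⟨Valued.v t, by rw [Ne, map_eq_zero]; exact norm_pos_iff.1 ht0, fun P hP => ?_⟩
  obtain ⟨hPm, hPd, hPj⟩ := hP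
  refine h3 (P.map (algebraMap F (v.adicCompletion F))) ?_ fun j => ?_
  · rw [hPm.natDegree_map]
    exact hPd
  · rw [coeff_map]
    exact (hlt _ _ (hPj j)).trans ht

end Dr
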