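import Pool.Agent.Lib.MP_f80667_ag.Dr.Rs

/-! Sums of definite forms in four variables which have a Lagrangian. -/

open Polynomial Module

namespace Dr

/-- A form with a Lagrangian which is positive definite on a subspace and negative definite on
another one, of complementary dimensions: both have half the dimension. -/
theorem reB_core {V : Type*} [AddCommGroup V] [Module ℝ V] [FiniteDimensional ℝ V]
    {Q : QuadraticForm ℝ V} {W Vp Vm : Submodule ℝ V} (hW : Lag Q W)
    (hp : ∀ x ∈ Vp, x ≠ 0 → 0 < Q x) (hm : ∀ x ∈ Vm, x ≠ 0 → Q x < 0)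
    (hd : finrank ℝ Vp + finrank ℝ Vm = finrank ℝ V) : 2 * finrank ℝ Vp = finrank ℝ V := by
  have h1 := LinearMap.BilinForm.finrank_add_finrank_orthogonal (polar_refl Q) (W := W)
  rw [hW.orth_eq] at h1
  have h2 : Vp ⊓ W = ⊥ := by
    rw [Submodule.eq_bot_iff]
    rintro x ⟨hx, hx'⟩
    by_contra h0
    have h3 := hp x hx h0
    rw [hW.zero x hx'] at h3
    exact lt_irrefl _ h3
  have h3 : Vm ⊓ W = ⊥ := by
    rw [Submodule.eq_bot_iff]
    rintro x ⟨hx, hx'⟩
    by_contra h0
    have h3 := hm x hx h0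
    rw [hW.zero x hx'] at h3
    exact lt_irrefl _ h3
  have h4 := Submodule.finrank_sup_add_finrank_inf_eq Vp W
  have h5 := Submodule.finrank_sup_add_finrank_inf_eq Vm W
  rw [h2, finrank_bot] at h4
  rw [h3, finrank_bot] at h5
  have h6 := Submodule.finrank_le (Vp ⊔ W)
  have h7 := Submodule.finrank_le (Vm ⊔ W)
  omega

section

variable {R : Finset ℝ} {D : ℝ[X]}

theorem reB_root (hR : D = ∏ x ∈ R, (X - C x)) (x : R) :
    D.eval₂ ((AlgHom.id ℝ ℝ : ℝ →ₐ[ℝ] ℝ) : ℝ →+* ℝ) (x : ℝ) = 0 := by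
  change D.eval (x : ℝ) = 0
  rw [hR, eval_prod]
  exact Finset.prod_eq_zero x.2 (by simp)

/-- Evaluation at a zero. -/
noncomputable def reBev (hR : D = ∏ x ∈ R, (X - C x)) (x : R) : AdjoinRoot D →ₐ[ℝ] ℝ :=
  AdjoinRoot.liftAlgHom D (AlgHom.id ℝ ℝ) (x : ℝ) (reB_root hR x)

theorem reBev_mk (hR : D = ∏ x ∈ R, (X - C x)) (x : R) (p : ℝ[X]) :
    reBev hR x (AdjoinRoot.mk D p) = p.eval (x : ℝ) := rfl

theorem reB_natDegree (hR : D = ∏ x ∈ R, (X - C x)) : D.natDegree = R.card := by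
  rw [hR, natDegree_prod_of_monic _ _ fun x _ => monic_X_sub_C x]
  simp

theorem reB_inj (hR : D = ∏ x ∈ R, (X - C x)) {a : AdjoinRoot D} (ha : ∀ x, reBev hR x a = 0) :
    a = 0 := by
  obtain ⟨p, rfl⟩ := AdjoinRoot.mk_surjective a
  rw [AdjoinRoot.mk_eq_zero]
  nth_rewrite 1 [hR]
  refine Finset.prod_dvd_of_coprime ?_ fun x hx => ?_
  · intro x _ y _ hxy
    exact pairwise_coprime_X_sub_C Function.injective_id hxy
  · rw [dvd_iff_isRoot]
    exact ha ⟨x, hx⟩

theorem reB_finrank (hD : D.Monic) (hR : D = ∏ x ∈ R, (X - C x)) :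
    finrank ℝ (AdjoinRoot D) = Fintype.card R := by
  rw [(AdjoinRoot.powerBasis' hD).finrank, AdjoinRoot.powerBasis'_dim, reB_natDegree hR,
    Fintype.card_coe]

/-- The values at all the zeros. -/
noncomputable def reBe (hD : D.Monic) (hR : D = ∏ x ∈ R, (X - C x)) :
    AdjoinRoot D ≃ₗ[ℝ] (R → ℝ) :=
  haveI : Module.Finite ℝ (AdjoinRoot D) := finite_adjoin hD
  LinearMap.linearEquivOfInjective (LinearMap.pi fun x => (reBev hR x).toLinearMap)
    (by
      rw [← LinearMap.ker_eq_bot, Submodule.eq_bot_iff]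
      intro a ha
      exact reB_inj hR fun x => congrFun (LinearMap.mem_ker.1 ha) x)
    (by rw [reB_finrank hD hR, Module.finrank_fintype_fun_eq_card])

theorem reBe_apply (hD : D.Monic) (hR : D = ∏ x ∈ R, (X - C x)) (a : AdjoinRoot D) (x : R) :
    reBe hD hR a x = reBev hR x a := rfl

/-- The residue functional. -/
theorem reB_Rs (hD : D.Monic) (hR : D = ∏ x ∈ R, (X - C x)) (a : AdjoinRoot D) :
    Rs hD a = ∑ x : R, reBev hR x a * (∏ y ∈ R.erase (x : ℝ), ((x : ℝ) - y))⁻¹ := by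
  classical
  obtain ⟨p, rfl⟩ := AdjoinRoot.mk_surjective a
  rw [Rs_mk, reB_natDegree hR]
  have h1 : (p %ₘ D).degree < R.card := by
    refine (degree_modByMonic_lt p hD).trans_eq ?_
    rw [degree_eq_natDegree hD.ne_zero, reB_natDegree hR]
  rw [Lagrange.coeff_eq_sum (v := id) (Set.injOn_id _) h1]
  have h2 : ∀ x ∈ R, (p %ₘ D).eval x = p.eval x := by
    intro x hx
    have h3 : D.eval x = 0 := by
      rw [hR, eval_prod]
      exact Finset.prod_eq_zero hx (by simp)
    conv_rhs => rw [← modByMonic_add_div p D]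
    rw [eval_add, eval_mul, h3, zero_mul, add_zero]
  simp only [reBev_mk]
  rw [Finset.sum_coe_sort R (fun x => p.eval x * (∏ y ∈ R.erase x, (x - y))⁻¹)]
  refine Finset.sum_congr rfl fun x hx => ?_
  rw [id, h2 x hx, div_eq_mul_inv]
  rfl

theorem reB_qn (A : Type*) [CommRing A] (f : A →+* ℝ) (b a : A) (v : Fin 4 → A) :
    f (qn b a v) = qn (f b) (f a) (fun i => f (v i)) := by
  simp only [qn, map_add, map_sub, map_mul, map_pow]

theorem reB_nonneg {b a : ℝ} (hb : b < 0) (ha : a < 0) (v : Fin 4 → ℝ) : 0 ≤ qn b a v := by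
  have h1 : 0 ≤ a * b := (mul_pos_of_neg_of_neg ha hb).le
  have h2 := sq_nonneg (v 0)
  have h3 := mul_nonneg (neg_nonneg.2 hb.le) (sq_nonneg (v 1))
  have h4 := mul_nonneg (neg_nonneg.2 ha.le) (sq_nonneg (v 2))
  have h5 := mul_nonneg h1 (sq_nonneg (v 3))
  rw [qn]
  linarith

theorem reB_pos {b a : ℝ} (hb : b < 0) (ha : a < 0) (v : Fin 4 → ℝ) (i : Fin 4) (hi : v i ≠ 0) :
    0 < qn b a v := by
  have h1 : 0 < a * b := mul_pos_of_neg_of_neg ha hb
  have h2 := sq_nonneg (v 0)
  have h3 := mul_nonneg (neg_nonneg.2 hb.le) (sq_nonneg (v 1))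
  have h4 := mul_nonneg (neg_nonneg.2 ha.le) (sq_nonneg (v 2))
  have h5 := mul_nonneg h1.le (sq_nonneg (v 3))
  have hs : 0 < v i ^ 2 := by positivity
  rw [qn]
  fin_cases i
  · simp only [Fin.zero_eta] at hs
    linarith
  · simp only [Fin.mk_one] at hs
    have := mul_pos (neg_pos.2 hb) hs
    linarith
  · have h6 : 0 < v 2 ^ 2 := hs
    have := mul_pos (neg_pos.2 ha) h6
    linarith
  · have h6 : 0 < v 3 ^ 2 := hs
    have := mul_pos h1 h6
    linarith

/-- Extension by zero. -/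
noncomputable def reBx (hD : D.Monic) (hR : D = ∏ x ∈ R, (X - C x)) (p : R → Prop)
    [DecidablePred p] : (Fin 4 → ({x : R // p x} → ℝ)) →ₗ[ℝ] (Fin 4 → AdjoinRoot D) where
  toFun w := fun i => (reBe hD hR).symm (fun x => if h : p x then w i ⟨x, h⟩ else 0)
  map_add' w w' := by
    funext i
    change _ = (reBe hD hR).symm _ + (reBe hD hR).symm _
    rw [← map_add]
    congr 1
    funext x
    by_cases h : p x <;> simp [h]
  map_smul' c w := by
    funext i
    change _ = c • (reBe hD hR).symm _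
    rw [← map_smul]
    congr 1
    funext x
    by_cases h : p x <;> simp [h]

theorem reBx_apply (hD : D.Monic) (hR : D = ∏ x ∈ R, (X - C x)) (p : R → Prop)
    [DecidablePred p] (w : Fin 4 → ({x : R // p x} → ℝ)) (i : Fin 4) (x : R) :
    reBev hR x (reBx hD hR p w i) = if h : p x then w i ⟨x, h⟩ else 0 := by
  rw [← reBe_apply hD hR]
  change reBe hD hR ((reBe hD hR).symm _) x = _
  rw [LinearEquiv.apply_symm_apply]

theorem reBx_finrank (hD : D.Monic) (hR : D = ∏ x ∈ R, (X - C x)) (p : R → Prop)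
    [DecidablePred p] :
    finrank ℝ (LinearMap.range (reBx hD hR p)) = 4 * Fintype.card {x : R // p x} := by
  have hinj : Function.Injective (reBx hD hR p) := by
    rw [← LinearMap.ker_eq_bot, Submodule.eq_bot_iff]
    intro w hw
    funext i x
    have h1 := reBx_apply hD hR p w i x
    rw [LinearMap.mem_ker.1 hw, dif_pos x.2] at h1
    rw [Pi.zero_apply, map_zero] at h1
    exact h1.symm
  rw [LinearMap.finrank_range_of_inj hinj, Module.finrank_pi_fintype]
  simp only [Module.finrank_fintype_fun_eq_card, Finset.sum_const, Finset.card_univ,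
    Fintype.card_fin, smul_eq_mul]

end

/-- Proof: `ℝ[X] / D` has the basis `e_x = D / (X - x)`, `x ∈ R`, with `p e_x = p (x) e_x`,
`e_x e_y = 0` for `x ≠ y` and `Rs (e_x e_x) = D' (x) ≠ 0`. So the form is the orthogonal sum of the
forms `u (x) D' (x) qn (δ (x)) (P (x))`, definite of dimension `4`. Let `V₊` be the sum of the positive ones,
dimension `4 r₊`. It meets `W` in `0`, and `W` has dimension `2 r` (`Lag.finrank_eq`), so `2 r₊ ≤ r`; the same
for the negative ones; `r₊ + r₋ = r`. -/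
theorem def_count (R : Finset ℝ) {D δ P u : ℝ[X]} (hD : D.Monic) (hR : D = ∏ x ∈ R, (X - C x))
    (hδ : ∀ x ∈ R, δ.eval x < 0) (hP : ∀ x ∈ R, P.eval x < 0) (hu : ∀ x ∈ R, u.eval x ≠ 0)
    {W : Submodule ℝ (Fin 4 → AdjoinRoot D)}
    (hW : Lag (tr (Rk LinearMap.id hD ∘ₗ LinearMap.mulLeft ℝ (AdjoinRoot.mk D u))
      (qnF (AdjoinRoot.mk D δ) (AdjoinRoot.mk D P))) W) : Even R.card := by
  classical
  have : Module.Finite ℝ (AdjoinRoot D) := finite_adjoin hD
  set Q := tr (Rk LinearMap.id hD ∘ₗ LinearMap.mulLeft ℝ (AdjoinRoot.mk D u))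
      (qnF (AdjoinRoot.mk D δ) (AdjoinRoot.mk D P)) with hQ
  set c : R → ℝ := fun x => u.eval (x : ℝ) * (∏ y ∈ R.erase (x : ℝ), ((x : ℝ) - y))⁻¹ with hc
  have hc0 : ∀ x, c x ≠ 0 := by
    intro x
    refine mul_ne_zero (hu x x.2) (inv_ne_zero (Finset.prod_ne_zero_iff.2 fun y hy => ?_))
    exact sub_ne_zero.2 (Finset.ne_of_mem_erase hy).symm
  have hQv : ∀ v, Q v = ∑ x : R, c x *
      qn (δ.eval (x : ℝ)) (P.eval (x : ℝ)) (fun i => reBev hR x (v i)) := by
    intro v
    rw [hQ, tr_apply]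
    change Rs hD (AdjoinRoot.mk D u * qn (AdjoinRoot.mk D δ) (AdjoinRoot.mk D P) v) = _
    rw [reB_Rs hD hR]
    refine Finset.sum_congr rfl fun x _ => ?_
    have h1 := reB_qn _ (reBev hR x : AdjoinRoot D →+* ℝ) (AdjoinRoot.mk D δ) (AdjoinRoot.mk D P) v
    rw [map_mul, hc, reBev_mk]
    change _ * (reBev hR x : AdjoinRoot D →+* ℝ) (qn _ _ v) * _ = _
    rw [h1]
    simp only [RingHom.coe_coe, reBev_mk]
    ring
  -- the sign lemma
  have key : ∀ (ε : ℝ) (p : R → Prop) [DecidablePred p], (∀ x, p x → 0 < ε * c x) →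
      ∀ v ∈ LinearMap.range (reBx hD hR p), v ≠ 0 → 0 < ε * Q v := by
    intro ε p _ hp v hv hv0
    obtain ⟨w, rfl⟩ := hv
    have hz : ∀ i x, ¬ p x → reBev hR x (reBx hD hR p w i) = 0 := by
      intro i x hx
      rw [reBx_apply, dif_neg hx]
    rw [hQv, Finset.mul_sum]
    have h1 : ∀ x : R, 0 ≤ ε * (c x * qn (δ.eval (x : ℝ)) (P.eval (x : ℝ))
        (fun i => reBev hR x (reBx hD hR p w i))) := by
      intro x
      by_cases hx : p x
      · rw [← mul_assoc]
        exact mul_nonneg (hp x hx).le (reB_nonneg (hδ x x.2) (hP x x.2) _)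
      · have h2 : qn (δ.eval (x : ℝ)) (P.eval (x : ℝ))
            (fun i => reBev hR x (reBx hD hR p w i)) = 0 := by
          simp only [qn, hz _ x hx]
          ring
        rw [h2, mul_zero, mul_zero]
    obtain ⟨i, hi⟩ : ∃ i, reBx hD hR p w i ≠ 0 := by
      by_contra h2
      push Not at h2
      exact hv0 (funext h2)
    obtain ⟨x, hx⟩ : ∃ x, reBev hR x (reBx hD hR p w i) ≠ 0 := by
      by_contra h2
      push Not at h2
      exact hi (reB_inj hR h2)
    refine Finset.sum_pos' (fun x _ => h1 x) ⟨x, Finset.mem_univ x, ?_⟩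
    have hpx : p x := by
      by_contra h2
      exact hx (hz i x h2)
    rw [← mul_assoc]
    exact mul_pos (hp x hpx) (reB_pos (hδ x x.2) (hP x x.2) _ i hx)
  have hcard := Fintype.card_subtype_compl (fun x : R => 0 < c x)
  have hle : Fintype.card {x : R // 0 < c x} ≤ Fintype.card R := Fintype.card_subtype_le _
  have hfin : finrank ℝ (Fin 4 → AdjoinRoot D) = 4 * Fintype.card R := by
    rw [Module.finrank_pi_fintype]
    simp only [reB_finrank hD hR, Finset.sum_const, Finset.card_univ, Fintype.card_fin,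
      smul_eq_mul]
  have hmain := reB_core (Vp := LinearMap.range (reBx hD hR fun x => 0 < c x))
    (Vm := LinearMap.range (reBx hD hR fun x => ¬ 0 < c x)) hW
    (fun x hx hx0 => by
      have h1 := key 1 (fun x => 0 < c x) (fun x hx => by rw [one_mul]; exact hx) x hx hx0
      rwa [one_mul] at h1)
    (fun x hx hx0 => by
      have h1 := key (-1) (fun x => ¬ 0 < c x) (fun x hx => by
        have h2 := lt_of_le_of_ne (not_lt.1 hx) (hc0 x)
        linarith) x hx hx0
      linarith)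
    (by
      rw [reBx_finrank, reBx_finrank, hfin, hcard]
      omega)
  rw [reBx_finrank, hfin] at hmain
  rw [← Fintype.card_coe R]
  refine ⟨Fintype.card {x : R // 0 < c x}, ?_⟩
  omega

end Dr
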