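import Pool.Agent.Lib.MP_f80667_ag.Dr.Rs

/-! Residue forms of a product of two coprime polynomials. -/

open Polynomial

namespace Dr

variable {E : Type*} [CommRing E] {g h : E[X]}

/-- **The factorisation.** Proof: `e (y, z) = h y + g z` (well defined modulo `g h`; for the lift use
`AdjoinRoot.lift`/`Ideal.Quotient` or linear maps of the representatives). Bijective since `g`, `h` are
coprime (injective: if `g h` divides `h y + g z` then `g` divides `h y`, so `y`; surjective: `a g + b h = 1`,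
`p = h (b p) + g (a p)`). In the product of two such elements the terms with `g h` vanish, and
`u h y h y' + u g z g z'` has the residue on the right by `Rs_mul`, `Rs_mul'`. -/
theorem fac (hg : g.Monic) (hh : h.Monic) (hc : IsCoprime g h) :
    ∃ e : (AdjoinRoot g × AdjoinRoot h) ≃ₗ[E] AdjoinRoot (g * h),
      (∀ y z : E[X], e (AdjoinRoot.mk g y, AdjoinRoot.mk h z) = AdjoinRoot.mk (g * h) (h * y + g * z)) ∧
      ∀ (u : E[X]) (y y' : AdjoinRoot g) (z z' : AdjoinRoot h),
        Rs (hg.mul hh) (AdjoinRoot.mk (g * h) u * (e (y, z) * e (y', z'))) =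
          Rs hg (AdjoinRoot.mk g (u * h) * (y * y')) + Rs hh (AdjoinRoot.mk h (u * g) * (z * z')) := by
  set φ : (AdjoinRoot g × AdjoinRoot h) →ₗ[E] AdjoinRoot (g * h) :=
    (AdjoinRoot.mkₐ (g * h)).toLinearMap ∘ₗ
      ((LinearMap.mulLeft E h) ∘ₗ (AdjoinRoot.modByMonicHom hg) ∘ₗ LinearMap.fst E _ _ +
       (LinearMap.mulLeft E g) ∘ₗ (AdjoinRoot.modByMonicHom hh) ∘ₗ LinearMap.snd E _ _) with hφ
  have hmk : ∀ y z : E[X], φ (AdjoinRoot.mk g y, AdjoinRoot.mk h z) =
      AdjoinRoot.mk (g * h) (h * y + g * z) := by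
    intro y z
    have h1 : φ (AdjoinRoot.mk g y, AdjoinRoot.mk h z) =
        AdjoinRoot.mk (g * h) (h * (y %ₘ g) + g * (z %ₘ h)) := by
      simp only [hφ, LinearMap.comp_apply, LinearMap.add_apply, LinearMap.fst_apply,
        LinearMap.snd_apply, AdjoinRoot.modByMonicHom_mk, LinearMap.mulLeft_apply]
      rfl
    rw [h1, AdjoinRoot.mk_eq_mk]
    have h2 := modByMonic_add_div y g
    have h3 := modByMonic_add_div z h
    refine ⟨-(y /ₘ g) - (z /ₘ h), ?_⟩
    linear_combination h * h2 + g * h3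
  have hinj : Function.Injective φ := by
    rw [injective_iff_map_eq_zero]
    rintro ⟨y, z⟩ h0
    obtain ⟨y, rfl⟩ := AdjoinRoot.mk_surjective y
    obtain ⟨z, rfl⟩ := AdjoinRoot.mk_surjective z
    rw [hmk, AdjoinRoot.mk_eq_zero] at h0
    have hgy : g ∣ y := by
      have h1 : g ∣ h * y := by
        have h2 : g ∣ h * y + g * z := (dvd_mul_right g h).trans h0
        exact (dvd_add_left (dvd_mul_right g z)).1 h2
      exact hc.dvd_of_dvd_mul_left h1
    have hhz : h ∣ z := by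
      have h1 : h ∣ g * z := by
        have h2 : h ∣ h * y + g * z := (dvd_mul_left h g).trans h0
        exact (dvd_add_right (dvd_mul_right h y)).1 h2
      exact hc.symm.dvd_of_dvd_mul_left h1
    rw [AdjoinRoot.mk_eq_zero.2 hgy, AdjoinRoot.mk_eq_zero.2 hhz]
    rfl
  have hsurj : Function.Surjective φ := by
    intro p
    obtain ⟨p, rfl⟩ := AdjoinRoot.mk_surjective p
    obtain ⟨a, b, hab⟩ := hc
    refine ⟨(AdjoinRoot.mk g (b * p), AdjoinRoot.mk h (a * p)), ?_⟩
    rw [hmk]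
    congr 1
    linear_combination p * hab
  refine ⟨LinearEquiv.ofBijective φ ⟨hinj, hsurj⟩, hmk, ?_⟩
  intro u y y' z z'
  obtain ⟨y, rfl⟩ := AdjoinRoot.mk_surjective y
  obtain ⟨z, rfl⟩ := AdjoinRoot.mk_surjective z
  obtain ⟨y', rfl⟩ := AdjoinRoot.mk_surjective y'
  obtain ⟨z', rfl⟩ := AdjoinRoot.mk_surjective z'
  rw [LinearEquiv.ofBijective_apply, LinearEquiv.ofBijective_apply, hmk, hmk]
  simp only [← map_mul]
  have h1 : AdjoinRoot.mk (g * h) (u * ((h * y + g * z) * (h * y' + g * z'))) =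
      AdjoinRoot.mk (g * h) (h * (u * h * (y * y'))) +
        AdjoinRoot.mk (g * h) (g * (u * g * (z * z'))) := by
    rw [← map_add, AdjoinRoot.mk_eq_mk]
    refine ⟨u * (y * z' + z * y'), ?_⟩
    ring
  rw [h1, map_add, Rs_mul hg hh, Rs_mul' hg hh]

variable {k : Type*} [Field k] [Algebra k E]

/-- The form of a product is the orthogonal sum. Proof: `fac`, `WE.of_equiv`. -/
theorem sq_mul [Module.Finite k E] (h2 : (2 : k) ≠ 0) {σ : E →ₗ[k] k} (hσ : NF σ) (hg : g.Monic)
    (hh : h.Monic) (hc : IsCoprime g h) {u : E[X]} (hu : IsCoprime u (g * h)) :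
    WE ((sq (Rk σ hg) (AdjoinRoot.mk g (u * h))).prod (sq (Rk σ hh) (AdjoinRoot.mk h (u * g))))
      (sq (Rk σ (hg.mul hh)) (AdjoinRoot.mk (g * h) u)) := by
  obtain ⟨e, -, he⟩ := fac hg hh hc
  have hu1 : IsCoprime u g := hu.of_mul_right_left
  have hu2 : IsCoprime u h := hu.of_mul_right_right
  have hun : ∀ {p q : E[X]}, IsCoprime p q → IsUnit (AdjoinRoot.mk q p) := by
    rintro p q ⟨a, b, hab⟩
    refine IsUnit.of_mul_eq_one (AdjoinRoot.mk q a) ?_
    rw [← map_mul, ← map_one (AdjoinRoot.mk q), AdjoinRoot.mk_eq_mk]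
    exact ⟨-b, by linear_combination hab⟩
  have i1 : IsUnit (AdjoinRoot.mk g (u * h)) := hun (hu1.mul_left hc.symm)
  have i2 : IsUnit (AdjoinRoot.mk h (u * g)) := hun (hu2.mul_left hc)
  have := finite_adjoin (k := k) hg
  have := finite_adjoin (k := k) hh
  have := finite_adjoin (k := k) (hg.mul hh)
  refine WE.of_equiv (ND.prod (sq_ND h2 (Rk_NF hσ hg) i1) (sq_ND h2 (Rk_NF hσ hh) i2))
    (e.restrictScalars k) ?_
  rintro ⟨y, z⟩
  rw [QuadraticMap.prod_apply, sq_apply, sq_apply, sq_apply, Rk_apply, Rk_apply, Rk_apply, ← map_add,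
    ← he]
  rfl

end Dr
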