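import Pool.Agent.Lib.MP_f80667_ag.Dr.ReA
import Pool.Agent.Lib.MP_f80667_ag.Dr.ReB
import Pool.Agent.Lib.MP_f80667_ag.Dr.RsA

/-! The number of the ramified real places is even if there is a Lagrangian. -/

open Polynomial Module

namespace Dr

section aux

variable {k L : Type*} [Field k] [CommRing L] [Algebra k L]

/-- Nondegenerate transfers. -/
theorem re_ND (h2 : (2 : k) ≠ 0) {τ : L →ₗ[k] k} (hτ : NF τ) {u b a : L} (hu : IsUnit u)
    (hb : IsUnit b) (ha : IsUnit a) : ND (tr (τ ∘ₗ LinearMap.mulLeft k u) (qnF b a)) := by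
  have hu2 : IsUnit (2 * u) := by
    refine IsUnit.mul ?_ hu
    have h3 : IsUnit (algebraMap k L 2) := (isUnit_iff_ne_zero.2 h2).map _
    rwa [map_ofNat] at h3
  intro x hx
  have key : ∀ y : Fin 4 → L, τ (u * qnB b a x y) = 0 := by
    intro y
    have h3 := hx y
    rw [tr_polar] at h3
    have h4 : QuadraticMap.polar (qnF b a) x y = qnB b a x y := qn_polar b a x y
    rw [h4] at h3
    exact h3
  have hz : ∀ (c : L) (i : Fin 4), IsUnit c →
      (∀ t, u * qnB b a x (Pi.single i t) = 2 * u * c * x i * t) → x i = 0 := by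
    intro c i hc h3
    have h4 : 2 * u * c * x i = 0 := hτ _ fun t => by
      rw [← h3]
      exact key _
    have h5 : IsUnit (2 * u * c) := hu2.mul hc
    exact (h5.mul_right_eq_zero).1 h4
  have h0 := hz 1 0 isUnit_one fun t => by
    simp only [qnB, Pi.single_eq_same, Pi.single_eq_of_ne (show (1 : Fin 4) ≠ 0 by decide),
      Pi.single_eq_of_ne (show (2 : Fin 4) ≠ 0 by decide),
      Pi.single_eq_of_ne (show (3 : Fin 4) ≠ 0 by decide)]
    ring
  have h1 := hz (-b) 1 hb.neg fun t => by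
    simp only [qnB, Pi.single_eq_same, Pi.single_eq_of_ne (show (0 : Fin 4) ≠ 1 by decide),
      Pi.single_eq_of_ne (show (2 : Fin 4) ≠ 1 by decide),
      Pi.single_eq_of_ne (show (3 : Fin 4) ≠ 1 by decide)]
    ring
  have h2 := hz (-a) 2 ha.neg fun t => by
    simp only [qnB, Pi.single_eq_same, Pi.single_eq_of_ne (show (0 : Fin 4) ≠ 2 by decide),
      Pi.single_eq_of_ne (show (1 : Fin 4) ≠ 2 by decide),
      Pi.single_eq_of_ne (show (3 : Fin 4) ≠ 2 by decide)]
    ring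
  have h3 := hz (a * b) 3 (ha.mul hb) fun t => by
    simp only [qnB, Pi.single_eq_same, Pi.single_eq_of_ne (show (0 : Fin 4) ≠ 3 by decide),
      Pi.single_eq_of_ne (show (1 : Fin 4) ≠ 3 by decide),
      Pi.single_eq_of_ne (show (2 : Fin 4) ≠ 3 by decide)]
    ring
  funext i
  fin_cases i
  · exact h0
  · exact h1
  · exact h2
  · exact h3

/-- The Lagrangian of a form where `a` is a norm. -/
def reN (b x y : L) : (L × L) →ₗ[k] (Fin 4 → L) where
  toFun z := ![x * z.1 + b * y * z.2, y * z.1 + x * z.2, z.1, z.2]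
  map_add' z w := by
    funext i
    fin_cases i <;> simp <;> ring
  map_smul' c z := by
    funext i
    fin_cases i <;> simp

theorem re_lag [Module.Finite k L] (h2 : (2 : k) ≠ 0) {τ : L →ₗ[k] k} (hτ : NF τ) {u b a : L}
    (hu : IsUnit u) (hb : IsUnit b) (ha : IsUnit a) {x y : L} (hxy : x ^ 2 - b * y ^ 2 = a) :
    Lag (tr (τ ∘ₗ LinearMap.mulLeft k u) (qnF b a)) (LinearMap.range (reN (k := k) b x y)) := by
  have hinj : Function.Injective (reN (k := k) b x y) := by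
    intro z w h
    have h3 := congrFun h 2
    have h4 := congrFun h 3
    exact Prod.ext h3 h4
  refine Lag.of_finrank (re_ND h2 hτ hu hb ha) ?_ ?_
  · rintro _ ⟨z, rfl⟩
    rw [tr_apply]
    have h3 : qnF b a (reN (k := k) b x y z) = 0 := by
      rw [qnF_apply]
      change (x * z.1 + b * y * z.2) ^ 2 - b * (y * z.1 + x * z.2) ^ 2 - a * z.1 ^ 2 +
        a * b * z.2 ^ 2 = 0
      rw [← hxy]
      ring
    rw [h3, map_zero]
  · rw [LinearMap.finrank_range_of_inj hinj, Module.finrank_prod, Module.finrank_pi_fintype]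
    simp only [Finset.sum_const, Finset.card_univ, Fintype.card_fin, smul_eq_mul]
    omega

end aux

/-- Unit classes. -/
theorem re_unit {E : Type*} [CommRing E] {p q : E[X]} (h : IsCoprime q p) :
    IsUnit (AdjoinRoot.mk q p) := by
  obtain ⟨a, b, hab⟩ := h
  refine IsUnit.of_mul_eq_one (AdjoinRoot.mk q b) ?_
  rw [← map_mul, ← map_one (AdjoinRoot.mk q), AdjoinRoot.mk_eq_mk]
  exact ⟨-a, by linear_combination hab⟩

theorem re_NF : NF (LinearMap.id : ℝ →ₗ[ℝ] ℝ) := by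
  intro x hx
  have h1 := hx 1
  rwa [LinearMap.id_apply, mul_one] at h1

/-- The form of a product in four variables. -/
theorem re_form {g h δ P : ℝ[X]} (hg : g.Monic) (hh : h.Monic) (c : ℝ)
    {e : (AdjoinRoot g × AdjoinRoot h) ≃ₗ[ℝ] AdjoinRoot (g * h)}
    (he : ∀ (u : ℝ[X]) (y y' : AdjoinRoot g) (z z' : AdjoinRoot h),
        Rs (hg.mul hh) (AdjoinRoot.mk (g * h) u * (e (y, z) * e (y', z'))) =
          Rs hg (AdjoinRoot.mk g (u * h) * (y * y')) + Rs hh (AdjoinRoot.mk h (u * g) * (z * z')))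
    (y : Fin 4 → AdjoinRoot g) (z : Fin 4 → AdjoinRoot h) :
    tr (c • Rk LinearMap.id (hg.mul hh)) (qnF (AdjoinRoot.mk (g * h) δ) (AdjoinRoot.mk (g * h) P))
      (fun i => e (y i, z i)) =
    tr (Rk LinearMap.id hg ∘ₗ LinearMap.mulLeft ℝ (AdjoinRoot.mk g (C c * h)))
      (qnF (AdjoinRoot.mk g δ) (AdjoinRoot.mk g P)) y +
    tr (Rk LinearMap.id hh ∘ₗ LinearMap.mulLeft ℝ (AdjoinRoot.mk h (C c * g)))
      (qnF (AdjoinRoot.mk h δ) (AdjoinRoot.mk h P)) z := by
  have e1 : ∀ w : AdjoinRoot (g * h), c * Rs (hg.mul hh) w =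
      Rs (hg.mul hh) (AdjoinRoot.mk (g * h) (C c) * w) := by
    intro w
    rw [← smul_eq_mul, ← map_smul]
    congr 1
    rw [AdjoinRoot.mk_C, ← AdjoinRoot.algebraMap_eq, Algebra.smul_def]
  rw [tr_apply, tr_apply, tr_apply, LinearMap.smul_apply, Rk_apply, LinearMap.comp_apply,
    LinearMap.comp_apply, Rk_apply, Rk_apply, LinearMap.id_apply, LinearMap.id_apply,
    LinearMap.id_apply, smul_eq_mul, e1, qnF_apply, qnF_apply, qnF_apply]
  have e2 : AdjoinRoot.mk (g * h) (C c) * qn (AdjoinRoot.mk (g * h) δ) (AdjoinRoot.mk (g * h) P)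
      (fun i => e (y i, z i)) =
      AdjoinRoot.mk (g * h) (C c) * (e (y 0, z 0) * e (y 0, z 0)) +
      AdjoinRoot.mk (g * h) (-(C c * δ)) * (e (y 1, z 1) * e (y 1, z 1)) +
      AdjoinRoot.mk (g * h) (-(C c * P)) * (e (y 2, z 2) * e (y 2, z 2)) +
      AdjoinRoot.mk (g * h) (C c * P * δ) * (e (y 3, z 3) * e (y 3, z 3)) := by
    simp only [qn, map_neg, map_mul]
    ring
  have e3 : ∀ {q r : ℝ[X]} (v : Fin 4 → AdjoinRoot q),
      LinearMap.mulLeft ℝ (AdjoinRoot.mk q (C c * r)) (qn (AdjoinRoot.mk q δ) (AdjoinRoot.mk q P) v) =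
      AdjoinRoot.mk q (C c * r) * (v 0 * v 0) + AdjoinRoot.mk q (-(C c * δ) * r) * (v 1 * v 1) +
      AdjoinRoot.mk q (-(C c * P) * r) * (v 2 * v 2) +
      AdjoinRoot.mk q (C c * P * δ * r) * (v 3 * v 3) := by
    intro q r v
    rw [LinearMap.mulLeft_apply]
    simp only [qn, map_neg, map_mul]
    ring
  rw [e2, e3, e3]
  simp only [map_add, he]
  ring

/-- Proof: `R` the set of the ramified zeros (`δ < 0`, `P < 0`) of `D`, `D₂ = ∏_(x ∈ R) (X - x)`, `D = D₁ D₂`
(coprime). By `fac` in every coordinate the form is the sum of the forms `Rs (c D₂ qn δ P)` on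
`(ℝ[X] / D₁) ^ 4` and `Rs (c D₁ qn δ P)` on `(ℝ[X] / D₂) ^ 4`. The first one has a Lagrangian: with
`P = x² - δ y²` modulo `D₁` (`exists_norm_real`) the submodule
`{(x z + δ y w, y z + x w, z, w)}` is totally singular of half the dimension (`Lag.of_finrank`). `Lag.cancel`,
`def_count`. -/
theorem sig_real {D δ P : ℝ[X]} (hD : D.Monic) (hs : D.Separable) (hδ : IsCoprime D δ)
    (hP : IsCoprime D P) {c : ℝ} (hc : c ≠ 0) {W : Submodule ℝ (Fin 4 → AdjoinRoot D)}
    (hW : Lag (tr (c • Rk LinearMap.id hD) (qnF (AdjoinRoot.mk D δ) (AdjoinRoot.mk D P))) W) :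
    Even (Nat.card {x : ℝ // D.eval x = 0 ∧ δ.eval x < 0 ∧ P.eval x < 0}) := by
  classical
  set R : Finset ℝ := D.roots.toFinset.filter (fun x => δ.eval x < 0 ∧ P.eval x < 0) with hR
  have hmem : ∀ x, x ∈ R ↔ D.eval x = 0 ∧ δ.eval x < 0 ∧ P.eval x < 0 := by
    intro x
    rw [hR, Finset.mem_filter, Multiset.mem_toFinset, mem_roots hD.ne_zero, IsRoot.def]
  have hcard : Nat.card {x : ℝ // D.eval x = 0 ∧ δ.eval x < 0 ∧ P.eval x < 0} = R.card :=
    Nat.subtype_card R hmem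
  rw [hcard]
  have hdvd : (∏ x ∈ R, (X - C x)) ∣ D := by
    refine Finset.prod_dvd_of_coprime (fun x _ y _ hxy => ?_) fun x hx => ?_
    · exact pairwise_coprime_X_sub_C Function.injective_id hxy
    · exact dvd_iff_isRoot.2 ((hmem x).1 hx).1
  obtain ⟨D₁, hD₁⟩ := hdvd
  have hR' := hmem
  clear_value R
  rw [mul_comm] at hD₁
  subst hD₁
  have hm2 : (∏ x ∈ R, (X - C x)).Monic := monic_prod_of_monic _ _ fun x _ => monic_X_sub_C x
  have hm1 : D₁.Monic := hm2.of_mul_monic_right hD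
  have hcop : IsCoprime D₁ (∏ x ∈ R, (X - C x)) := hs.isCoprime
  obtain ⟨e, -, he⟩ := fac hm1 hm2 hcop
  have i1 := finite_adjoin (k := ℝ) hm1
  have i2 := finite_adjoin (k := ℝ) hm2
  have hCc : IsUnit (C c : ℝ[X]) := isUnit_C.2 (isUnit_iff_ne_zero.2 hc)
  have u1 : IsUnit (AdjoinRoot.mk D₁ (C c * ∏ x ∈ R, (X - C x))) := by
    rw [map_mul]
    exact (hCc.map _).mul (re_unit hcop)
  have u2 : IsUnit (AdjoinRoot.mk (∏ x ∈ R, (X - C x)) (C c * D₁)) := by
    rw [map_mul]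
    exact (hCc.map _).mul (re_unit hcop.symm)
  have hδ1 : IsCoprime D₁ δ := hδ.of_mul_left_left
  have hδ2 : IsCoprime (∏ x ∈ R, (X - C x)) δ := hδ.of_mul_left_right
  have hP1 : IsCoprime D₁ P := hP.of_mul_left_left
  have hP2 : IsCoprime (∏ x ∈ R, (X - C x)) P := hP.of_mul_left_right
  have N1 := Rk_NF re_NF hm1
  have N2 := Rk_NF re_NF hm2
  have h2 : (2 : ℝ) ≠ 0 := two_ne_zero
  -- the norm modulo `D₁`
  obtain ⟨x, y, hxy⟩ := exists_norm_real (δ := δ) (P := P) hs.of_mul_left (fun t ht => by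
    by_contra hcon
    push Not at hcon
    have hδt : δ.eval t ≠ 0 := by
      intro h0
      obtain ⟨a, b, hab⟩ := hδ1
      have h3 := congrArg (eval t) hab
      rw [eval_add, eval_mul, eval_mul, ht, h0, mul_zero, mul_zero, add_zero, eval_one] at h3
      exact zero_ne_one h3
    have hPt : P.eval t ≠ 0 := by
      intro h0
      obtain ⟨a, b, hab⟩ := hP1
      have h3 := congrArg (eval t) hab
      rw [eval_add, eval_mul, eval_mul, ht, h0, mul_zero, mul_zero, add_zero, eval_one] at h3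
      exact zero_ne_one h3
    have htR : t ∈ R := (hR' t).2 ⟨by rw [eval_mul, ht, zero_mul],
      lt_of_le_of_ne hcon.1 hδt, lt_of_le_of_ne hcon.2 hPt⟩
    obtain ⟨a, b, hab⟩ := hcop
    have h3 := congrArg (eval t) hab
    have h4 : (∏ x ∈ R, (X - C x)).eval t = 0 := by
      rw [eval_prod]
      exact Finset.prod_eq_zero htR (by rw [eval_sub, eval_X, eval_C, sub_self])
    rw [eval_add, eval_mul, eval_mul, ht, h4, mul_zero, mul_zero, add_zero, eval_one] at h3
    exact zero_ne_one h3)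
  have hnorm : (AdjoinRoot.mk D₁ x) ^ 2 - AdjoinRoot.mk D₁ δ * (AdjoinRoot.mk D₁ y) ^ 2 =
      AdjoinRoot.mk D₁ P := by
    rw [← map_pow, ← map_pow, ← map_mul, ← map_sub, AdjoinRoot.mk_eq_mk]
    exact hxy
  have L1 := re_lag h2 N1 u1 (re_unit hδ1) (re_unit hP1) hnorm
  -- the sum
  let E : ((Fin 4 → AdjoinRoot (∏ x ∈ R, (X - C x))) × (Fin 4 → AdjoinRoot D₁)) ≃ₗ[ℝ]
      (Fin 4 → AdjoinRoot (D₁ * ∏ x ∈ R, (X - C x))) :=
    { toFun := fun z i => e (z.2 i, z.1 i)
      map_add' := fun z w => funext fun i => map_add e (z.2 i, z.1 i) (w.2 i, w.1 i)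
      map_smul' := fun r z => funext fun i => map_smul e r (z.2 i, z.1 i)
      invFun := fun v => (fun i => (e.symm (v i)).2, fun i => (e.symm (v i)).1)
      left_inv := fun z => by
        refine Prod.ext (funext fun i => ?_) (funext fun i => ?_)
        · exact congrArg Prod.snd (e.symm_apply_apply (z.2 i, z.1 i))
        · exact congrArg Prod.fst (e.symm_apply_apply (z.2 i, z.1 i))
      right_inv := fun v => funext fun i => e.apply_symm_apply (v i) }
  have hE : ∀ z, tr (c • Rk LinearMap.id hD) (qnF (AdjoinRoot.mk _ δ) (AdjoinRoot.mk _ P)) (E z) =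
      ((tr (Rk LinearMap.id hm2 ∘ₗ LinearMap.mulLeft ℝ (AdjoinRoot.mk _ (C c * D₁)))
        (qnF (AdjoinRoot.mk _ δ) (AdjoinRoot.mk _ P))).prod
      (tr (Rk LinearMap.id hm1 ∘ₗ LinearMap.mulLeft ℝ
        (AdjoinRoot.mk D₁ (C c * ∏ x ∈ R, (X - C x))))
        (qnF (AdjoinRoot.mk D₁ δ) (AdjoinRoot.mk D₁ P)))) z := by
    rintro ⟨z, y⟩
    rw [QuadraticMap.prod_apply, add_comm]
    exact re_form hm1 hm2 c he y z
  have hW' := hW.map E.symm (fun v => by rw [← hE, E.apply_symm_apply])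
  obtain ⟨W2, hW2⟩ := Lag.cancel (re_ND h2 N2 u2 (re_unit hδ2) (re_unit hP2))
    (re_ND h2 N1 u1 (re_unit hδ1) (re_unit hP1)) hW' L1
  refine def_count R hm2 rfl (fun t ht => ((hR' t).1 ht).2.1) (fun t ht => ((hR' t).1 ht).2.2)
    (u := C c * D₁) (fun t ht => ?_) hW2
  rw [eval_mul, eval_C]
  refine mul_ne_zero hc fun h0 => ?_
  obtain ⟨a, b, hab⟩ := hcop
  have h3 := congrArg (eval t) hab
  have h4 : (∏ x ∈ R, (X - C x)).eval t = 0 := by
    rw [eval_prod]
    exact Finset.prod_eq_zero ht (by rw [eval_sub, eval_X, eval_C, sub_self])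
  rw [eval_add, eval_mul, eval_mul, h0, h4, mul_zero, mul_zero, add_zero, eval_one] at h3
  exact zero_ne_one h3

end Dr
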