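import Pool.Agent.Lib.MP_f80667_ag.Dr.LnM
import Pool.Agent.Lib.MP_f80667_ag.Dr.Re
import Pool.Agent.Lib.MP_f80667_ag.Dr.Cr
import Pool.Agent.Lib.MP_f80667_ag.Fa.Dfs

/-! The number of the ramified places above a real place is even. -/

open IsDedekindDomain NumberField Module Polynomial

namespace Dr

open ZC Tq Dp

variable {F : Type} [Field F] {ι : Type} [Fintype ι]
  {D : F[X]} {K : ι → Type} [∀ i, Field (K i)] [∀ i, Algebra F (K i)] {θ : ∀ i, K i}

/-- The minimal polynomials are pairwise coprime. -/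
theorem Sp.coprime (h : Sp D K θ) {i l : ι} (hil : i ≠ l) :
    IsCoprime (minpoly F (θ i)) (minpoly F (θ l)) := by
  rw [(minpoly.irreducible (h.int i)).coprime_iff_not_dvd]
  intro hd
  exact hil (h.inj i l (eq_of_monic_of_associated (minpoly.monic (h.int i)) (minpoly.monic (h.int l))
    ((minpoly.irreducible (h.int i)).associated_of_dvd (minpoly.irreducible (h.int l)) hd)))

/-- `D` is separable in characteristic zero. -/
theorem Sp.separable [CharZero F] (h : Sp D K θ) : D.Separable := by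
  rw [h.prod]
  refine separable_prod' (fun i _ l _ hil => h.coprime hil) fun i _ => ?_
  exact (minpoly.irreducible (h.int i)).separable

/-- A polynomial which does not vanish at the `θ i` is coprime to `D`. -/
theorem Sp.isCoprime (h : Sp D K θ) {p : F[X]} (hp : ∀ i, aeval (θ i) p ≠ 0) : IsCoprime D p := by
  rw [h.prod]
  refine IsCoprime.prod_left fun i _ => ?_
  rw [(minpoly.irreducible (h.int i)).coprime_iff_not_dvd, minpoly.dvd_iff]
  exact hp i

omit [Fintype ι] in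
/-- The values of an embedding. -/
theorem eval_map_emb {i : ι} (ψ : F →+* ℝ) (φ : K i →+* ℝ)
    (hφ : φ.comp (algebraMap F (K i)) = ψ) (p : F[X]) :
    (p.map ψ).eval (φ (θ i)) = φ (aeval (θ i) p) := by
  rw [eval_map, aeval_def, hom_eval₂, hφ]

/-- An embedding is determined by the image of `θ i`. -/
theorem Sp.emb_ext (h : Sp D K θ) {i : ι} {ψ : F →+* ℝ} {φ φ' : K i →+* ℝ}
    (hφ : φ.comp (algebraMap F (K i)) = ψ) (hφ' : φ'.comp (algebraMap F (K i)) = ψ)
    (he : φ (θ i) = φ' (θ i)) : φ = φ' := by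
  ext x
  have hx : x ∈ Algebra.adjoin F {θ i} := by
    rw [h.gen i]
    trivial
  rw [Algebra.adjoin_singleton_eq_range_aeval] at hx
  obtain ⟨p, rfl⟩ := hx
  change φ (aeval (θ i) p) = φ' (aeval (θ i) p)
  rw [← eval_map_emb ψ φ hφ, ← eval_map_emb ψ φ' hφ', he]

/-- Every zero gives an embedding. -/
theorem Sp.exists_emb (h : Sp D K θ) (i : ι) (ψ : F →+* ℝ) {x : ℝ}
    (hx : ((minpoly F (θ i)).map ψ).eval x = 0) :
    ∃ φ : K i →+* ℝ, φ.comp (algebraMap F (K i)) = ψ ∧ φ (θ i) = x := by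
  let _ : Algebra F ℝ := ψ.toAlgebra
  have hg : (PowerBasis.ofAdjoinEqTop' (h.int i) (h.gen i)).gen = θ i :=
    PowerBasis.ofAdjoinEqTop'_gen _ _
  have hx' : aeval x (minpoly F (PowerBasis.ofAdjoinEqTop' (h.int i) (h.gen i)).gen) = 0 := by
    rw [hg, aeval_def, ← eval_map]
    exact hx
  refine ⟨((PowerBasis.ofAdjoinEqTop' (h.int i) (h.gen i)).lift x hx' : K i →ₐ[F] ℝ), ?_, ?_⟩
  · ext y
    exact ((PowerBasis.ofAdjoinEqTop' (h.int i) (h.gen i)).lift x hx').commutes y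
  · have h1 := (PowerBasis.ofAdjoinEqTop' (h.int i) (h.gen i)).lift_gen x hx'
    rw [hg] at h1
    exact h1

/-- The embeddings above `ψ` are the real zeros of `D`. Proof: `φ ↦ φ (θ i)`; a zero of `D` is a zero of
exactly one `minpoly F (θ i)` (`D` is separable over `ℝ`). -/
theorem Sp.card_real [CharZero F] (h : Sp D K θ) (ψ : F →+* ℝ) (δ P : ℝ[X]) :
    ∑ i, Nat.card {φ : K i →+* ℝ // φ.comp (algebraMap F (K i)) = ψ ∧ δ.eval (φ (θ i)) < 0 ∧
      P.eval (φ (θ i)) < 0} =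
    Nat.card {x : ℝ // (D.map ψ).eval x = 0 ∧ δ.eval x < 0 ∧ P.eval x < 0} := by
  have hroot : ∀ i (φ : K i →+* ℝ), φ.comp (algebraMap F (K i)) = ψ →
      ((minpoly F (θ i)).map ψ).eval (φ (θ i)) = 0 := by
    intro i φ hφ
    rw [eval_map_emb ψ φ hφ, minpoly.aeval, map_zero]
  have hfin : ∀ i, Finite {φ : K i →+* ℝ // φ.comp (algebraMap F (K i)) = ψ ∧
      δ.eval (φ (θ i)) < 0 ∧ P.eval (φ (θ i)) < 0} := by
    intro i
    have h0 : (minpoly F (θ i)).map ψ ≠ 0 := ((minpoly.monic (h.int i)).map ψ).ne_zero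
    have hf : {x : ℝ | ((minpoly F (θ i)).map ψ).IsRoot x}.Finite := finite_setOfPred_isRoot h0
    have := hf.to_subtype
    refine Finite.of_injective
      (fun φ => (⟨φ.1 (θ i), hroot i φ.1 φ.2.1⟩ : {x : ℝ | ((minpoly F (θ i)).map ψ).IsRoot x})) ?_
    intro φ φ' he
    exact Subtype.ext (h.emb_ext φ.2.1 φ'.2.1 (congrArg Subtype.val he))
  rw [← Nat.card_sigma]
  have hD : ∀ x : ℝ, (D.map ψ).eval x = ∏ i, ((minpoly F (θ i)).map ψ).eval x := by
    intro x
    rw [h.prod, Polynomial.map_prod, eval_prod]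
  refine Nat.card_congr (Equiv.ofBijective
    (fun s => ⟨s.2.1 (θ s.1), ?_, ?_, ?_⟩) ⟨?_, ?_⟩)
  · rw [hD, Finset.prod_eq_zero (Finset.mem_univ s.1) (hroot s.1 s.2.1 s.2.2.1)]
  · exact s.2.2.2.1
  · exact s.2.2.2.2
  · rintro ⟨i, φ, hφ⟩ ⟨l, φ', hφ'⟩ he
    have he' : φ (θ i) = φ' (θ l) := congrArg Subtype.val he
    have hil : i = l := by
      by_contra hil
      have h1 := (h.coprime hil).map (mapRingHom ψ)
      obtain ⟨a, b, hab⟩ := h1
      have h2 := congrArg (eval (φ (θ i))) hab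
      rw [coe_mapRingHom, eval_add, eval_mul, eval_mul, hroot i φ hφ.1, he', hroot l φ' hφ'.1, mul_zero,
        mul_zero, add_zero, eval_one] at h2
      exact zero_ne_one h2
    subst hil
    have := h.emb_ext hφ.1 hφ'.1 he'
    subst this
    rfl
  · rintro ⟨x, hx1, hx2, hx3⟩
    rw [hD, Finset.prod_eq_zero_iff] at hx1
    obtain ⟨i, -, hi⟩ := hx1
    obtain ⟨φ, hφ1, hφ2⟩ := h.exists_emb i ψ hi
    refine ⟨⟨i, φ, hφ1, ?_, ?_⟩, Subtype.ext hφ2⟩
    · rw [hφ2]
      exact hx2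
    · rw [hφ2]
      exact hx3

variable [NumberField F] {A B : Matrix (Fin 5) (Fin 5) F}

/-- **The parity at a real place.** Proof: `zc_iso` with the isomorphism `e`, `sig_real`, `Sp.card_real`
(`φ (δ i)` is the value of `(dl A B w).map ψ` at `φ (θ i)`). -/
theorem par_r (hS : Sp D K θ) (hn : D.natDegree = 5) {c : F} (hc : c ≠ 0)
    (hf : Dq.chp A B = C c * D) (w : Fin 5 → F) (δ : ∀ i, (K i)ˣ)
    (hδ : ∀ i, (δ i : K i) = aeval (θ i) (dl A B w)) (v : InfinitePlace F) (ψ : F →+* ℝ)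
    (e : IK F v ≃+* ℝ) (he : ∀ x, e (algebraMap F (IK F v) x) = ψ x) {P : (IK F v)[X]}
    {z : Projectivization (AlgebraicClosure (IK F v)) (Fin 5 → AlgebraicClosure (IK F v)) →₀ ℤ}
    (h : Dat (A.map (algebraMap F (IK F v))) (B.map (algebraMap F (IK F v))) P z)
    (hN : Even P.natDegree) :
    Even (∑ i, Nat.card {φ : K i →+* ℝ // φ.comp (algebraMap F (K i)) = ψ ∧ φ (δ i) < 0 ∧
      (P.map (e : IK F v →+* ℝ)).eval (φ (θ i)) < 0}) := by
  have hcz : CharZero (IK F v) := charZero_of_injective_algebraMap (algebraMap F (IK F v)).injective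
  have hsum : ∑ i, Nat.card {φ : K i →+* ℝ // φ.comp (algebraMap F (K i)) = ψ ∧ φ (δ i) < 0 ∧
      (P.map (e : IK F v →+* ℝ)).eval (φ (θ i)) < 0} =
      ∑ i, Nat.card {φ : K i →+* ℝ // φ.comp (algebraMap F (K i)) = ψ ∧
        ((dl A B w).map ψ).eval (φ (θ i)) < 0 ∧
        (P.map (e : IK F v →+* ℝ)).eval (φ (θ i)) < 0} := by
    refine Finset.sum_congr rfl fun i _ => Nat.card_congr (Equiv.subtypeEquivRight fun φ => ?_)
    refine and_congr_right fun hφ => ?_
    rw [hδ, eval_map_emb ψ φ hφ]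
  rw [hsum, hS.card_real ψ]
  have hmat : ∀ H : Matrix (Fin 5) (Fin 5) F, (H.map (algebraMap F (IK F v))).map e = H.map ψ := by
    intro H
    ext i j
    exact he _
  have hD' : (D.map ψ).Monic := hS.monic.map ψ
  have hco : IsCoprime (D.map ψ) ((dl A B w).map ψ) := by
    have h1 : IsCoprime D (dl A B w) := hS.isCoprime fun i => by
      rw [← hδ]
      exact (δ i).ne_zero
    exact h1.map (mapRingHom ψ)
  have hdl : dl ((A.map (algebraMap F (IK F v))).map e) ((B.map (algebraMap F (IK F v))).map e)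
      (fun i => ψ (w i)) = (dl A B w).map ψ := by
    rw [hmat, hmat, ← dl_map]
  have hunit : IsUnit (AdjoinRoot.mk (D.map ψ) ((dl A B w).map ψ)) := by
    obtain ⟨a, b, hab⟩ := hco
    refine IsUnit.of_mul_eq_one (AdjoinRoot.mk (D.map ψ) b) ?_
    have h1 := congrArg (AdjoinRoot.mk (D.map ψ)) hab
    rw [map_add, map_mul, map_mul, AdjoinRoot.mk_self, mul_zero, zero_add, map_one] at h1
    rw [mul_comm]
    exact h1
  obtain ⟨hcP, W, hW⟩ := zc_iso (e := e) (w := fun i => ψ (w i)) (D := D.map ψ) hD'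
    (by rw [hS.monic.natDegree_map]; exact hn) (c := ψ c) ((_root_.map_ne_zero ψ).2 hc) (by
      rw [hmat, hmat, ← chp_map, hf, Polynomial.map_mul, Polynomial.map_C])
    (by rw [hdl]; exact hunit) h hN
  rw [hdl] at hW
  exact sig_real hD' (hS.separable.map) hco hcP.symm (c := -ψ c)
    (neg_ne_zero.2 ((_root_.map_ne_zero ψ).2 hc)) hW

end Dr
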