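import Pool.Agent.Lib.MP_f80667_ag.Dr.Cr
import Pool.Agent.Lib.MP_f80667_ag.Dr.BrD
import Pool.Agent.Lib.MP_f80667_ag.Dr.NmL
import Pool.Agent.Lib.MP_f80667_ag.Dr.ReV
import Pool.Agent.Lib.MP_f80667_ag.Fa.Dfs

/-! The symbols of one class at a real place. -/

open IsDedekindDomain NumberField Polynomial
open scoped WithZero

namespace Dr

open ZC Tq Dp

variable {F : Type} [Field F] [NumberField F] {A B : Matrix (Fin 5) (Fin 5) F} {ι : Type} [Fintype ι]
  {D : F[X]} {K : ι → Type} [∀ i, Field (K i)] [∀ i, NumberField (K i)] [∀ i, Algebra F (K i)]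
  {θ : ∀ i, K i} {w : Fin 5 → F} {g s : F[X]} {d : F} {δ : ∀ i, (K i)ˣ}

/-- Over `ℂ` everything is a square. -/
private theorem bv4_cplx {G : ℝ[X]} (hG : G.Monic) (h2 : G.natDegree = 2)
    (hno : ∀ x, G.eval x ≠ 0) (DL : ℝ[X]) : ∃ S : ℝ[X], G ∣ DL - S ^ 2 := by
  have hr : G.roots = 0 := by
    rw [Multiset.eq_zero_iff_forall_notMem]
    intro x hx
    exact hno x (mem_roots'.1 hx).2
  have hirr : Irreducible G :=
    (hG.irreducible_iff_roots_eq_zero_of_degree_le_three (by omega) (by omega)).2 hr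
  have hd0 : G.degree ≠ 0 := by
    rw [degree_eq_natDegree hG.ne_zero, h2]
    norm_num
  obtain ⟨z, hz⟩ := IsAlgClosed.exists_aeval_eq_zero ℂ G hd0
  obtain ⟨w, hw⟩ := IsAlgClosed.exists_pow_nat_eq (aeval z DL) (n := 2) (by norm_num)
  have him : z.im ≠ 0 := by
    intro h0
    have h3 : z = algebraMap ℝ ℂ z.re := by
      apply Complex.ext
      · simp
      · simp [h0]
    rw [h3, aeval_algebraMap_apply, map_eq_zero, coe_aeval_eq_eval] at hz
    exact hno _ hz
  refine ⟨C (w.re - w.im / z.im * z.re) + C (w.im / z.im) * X, ?_⟩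
  rw [minpoly.eq_of_irreducible_of_monic hirr hz hG]
  apply minpoly.dvd
  have h4 : aeval z (C (w.re - w.im / z.im * z.re) + C (w.im / z.im) * X) = w := by
    rw [map_add, map_mul, aeval_C, aeval_C, aeval_X]
    apply Complex.ext
    · simp
    · simp
      field_simp
  rw [map_sub, map_pow, h4, hw, sub_self]

/-- Interpolation of square roots. -/
private theorem bv4_split {a b : ℝ} (hab : a ≠ b) {DL : ℝ[X]} (ha : 0 ≤ DL.eval a)
    (hb : 0 ≤ DL.eval b) : ∃ S : ℝ[X], (X - C a) * (X - C b) ∣ DL - S ^ 2 := by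
  have h0 : b - a ≠ 0 := sub_ne_zero.2 hab.symm
  refine ⟨C √(DL.eval a) + C ((√(DL.eval b) - √(DL.eval a)) / (b - a)) * (X - C a), ?_⟩
  refine IsCoprime.mul_dvd ?_ ?_ ?_
  · exact isCoprime_X_sub_C_of_isUnit_sub (isUnit_iff_ne_zero.2 (sub_ne_zero.2 hab))
  · rw [dvd_iff_isRoot, IsRoot.def]
    simp only [eval_sub, eval_pow, eval_add, eval_mul, eval_C, eval_X, sub_self, mul_zero,
      add_zero]
    rw [Real.sq_sqrt ha, sub_self]
  · rw [dvd_iff_isRoot, IsRoot.def]
    simp only [eval_sub, eval_pow, eval_add, eval_mul, eval_C, eval_X]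
    have h1 : √(DL.eval a) + (√(DL.eval b) - √(DL.eval a)) / (b - a) * (b - a) =
        √(DL.eval b) := by
      field_simp
      ring
    rw [h1, Real.sq_sqrt hb, sub_self]

/-- The norm over a split algebra. -/
private theorem bv4_norm {k : Type} [Field k] (a b : k) (P : k[X]) :
    Algebra.norm k (AdjoinRoot.mk ((X - C a) * (X - C b)) P) = P.eval a * P.eval b := by
  have hm : ((X - C a) * (X - C b)).Monic := (monic_X_sub_C a).mul (monic_X_sub_C b)
  have hd : ((X - C a) * (X - C b)).natDegree = 2 := by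
    rw [(monic_X_sub_C a).natDegree_mul (monic_X_sub_C b), natDegree_X_sub_C, natDegree_X_sub_C]
  have hrk : Module.finrank k (AdjoinRoot ((X - C a) * (X - C b))) = 2 := by
    rw [(AdjoinRoot.powerBasis' hm).finrank]
    exact hd
  have h1 : (P %ₘ ((X - C a) * (X - C b))).natDegree < 2 := by
    have h2 := natDegree_modByMonic_lt P hm (by
      intro h3
      rw [h3, natDegree_one] at hd
      omega)
    omega
  obtain ⟨c, r, hcr⟩ : ∃ c r : k, P %ₘ ((X - C a) * (X - C b)) = C c * X + C r :=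
    exists_eq_X_add_C_of_natDegree_le_one (by omega)
  have hP := modByMonic_add_div P ((X - C a) * (X - C b))
  rw [hcr] at hP
  have hmk : AdjoinRoot.mk ((X - C a) * (X - C b)) P =
      AdjoinRoot.mk ((X - C a) * (X - C b)) (C c * X + C r) := by
    conv_lhs => rw [← hP]
    rw [map_add (AdjoinRoot.mk _) (C c * X + C r), map_mul, AdjoinRoot.mk_self, zero_mul, add_zero]
  have ha : P.eval a = c * a + r := by
    rw [← hP]
    simp
  have hb : P.eval b = c * b + r := by
    rw [← hP]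
    simp
  rw [hmk, ha, hb]
  by_cases hc : c = 0
  · rw [hc, C_0, zero_mul, zero_add, AdjoinRoot.mk_C]
    have h3 := Algebra.norm_algebraMap (R := k) (S := AdjoinRoot ((X - C a) * (X - C b))) r
    rw [hrk] at h3
    rw [← AdjoinRoot.algebraMap_eq, h3]
    ring
  · have h3 : AdjoinRoot.mk ((X - C a) * (X - C b)) (C c * X + C r) =
        algebraMap k _ (-c) * (algebraMap k _ (-(r / c)) - AdjoinRoot.root _) := by
      generalize (X - C a) * (X - C b) = M
      rw [map_add, map_mul, AdjoinRoot.mk_X, AdjoinRoot.mk_C, AdjoinRoot.mk_C,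
        ← AdjoinRoot.algebraMap_eq, mul_sub, ← map_mul]
      have h4 : -c * -(r / c) = r := by field_simp
      rw [h4, map_neg]
      ring
    rw [h3, map_mul, norm_root hm, Algebra.norm_algebraMap, hrk]
    simp only [eval_mul, eval_sub, eval_X, eval_C]
    field_simp
    ring

/-- **The symbols at a real place.** Proof: if `dl` is not a square modulo `g` over the completion then
`g` has two zeros `e₁`, `e₂` there and `d` is negative; the embeddings `φ` above `ψ` of the `K i`, `i ∈ I`,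
correspond to `e₁`, `e₂`; `φ (δ i)` is negative, and the norm is the product of the values of `R₀` at `e₁`
and `e₂`; `Nd d c` iff `c ≥ 0`. -/
theorem sym_r (hS : Sp D K θ) (hδ : ∀ i, (δ i : K i) = aeval (θ i) (dl A B w)) (I : Finset ι)
    (hg : g = ∏ i ∈ I, minpoly F (θ i)) (h2 : g.natDegree = 2)
    (hd : g ∣ dl A B w - C d * s ^ 2)
    (v : InfinitePlace F) (ψ : F →+* ℝ) (e : IK F v ≃+* ℝ)
    (he : ∀ x, e (algebraMap F (IK F v) x) = ψ x) {P : (IK F v)[X]}
    (hc : IsCoprime (g.map (algebraMap F (IK F v))) P)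
    (hn : ¬ ∃ s' : (IK F v)[X], g.map (algebraMap F (IK F v)) ∣
      (dl A B w).map (algebraMap F (IK F v)) - s' ^ 2) :
    Even (∑ i ∈ I, Nat.card {φ : K i →+* ℝ // φ.comp (algebraMap F (K i)) = ψ ∧ φ (δ i) < 0 ∧
      (P.map (e : IK F v →+* ℝ)).eval (φ (θ i)) < 0}) ↔ Nd (algebraMap F (IK F v) d)
      (Algebra.norm (IK F v) (AdjoinRoot.mk (g.map (algebraMap F (IK F v))) P)) := by
  classical
  have hS' : Sp g (fun i : I => K i) (fun i : I => θ i) :=
    ⟨fun i => hS.int i, fun i => hS.gen i, fun i l h => Subtype.ext (hS.inj _ _ h), by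
      rw [hg]
      exact (Finset.prod_coe_sort I (fun i => minpoly F (θ i))).symm⟩
  have hgm : g.Monic := hS'.monic
  have hcomp : (e : IK F v →+* ℝ).comp (algebraMap F (IK F v)) = ψ := RingHom.ext he
  have hcomp' : (e.symm : ℝ →+* IK F v).comp ψ = algebraMap F (IK F v) := by
    ext x
    change e.symm (ψ x) = _
    rw [← he, RingEquiv.symm_apply_apply]
  have hGm : (g.map ψ).Monic := hgm.map ψ
  have hGd : (g.map ψ).natDegree = 2 := by rw [hgm.natDegree_map, h2]
  have hGs : (g.map ψ).Separable := hS'.separable.map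
  have hco : IsCoprime (g.map ψ) ((dl A B w).map ψ) := by
    have h1 : IsCoprime g (dl A B w) := hS'.isCoprime fun i => by
      rw [← hδ]
      exact (δ i).ne_zero
    exact h1.map (mapRingHom ψ)
  -- squares over `ℝ` give squares over the completion
  have htr : ¬ ∃ S : ℝ[X], g.map ψ ∣ (dl A B w).map ψ - S ^ 2 := by
    rintro ⟨S, hSd⟩
    apply hn
    refine ⟨S.map (e.symm : ℝ →+* IK F v), ?_⟩
    have h1 := map_dvd (mapRingHom (e.symm : ℝ →+* IK F v)) hSd
    rw [map_sub, map_pow, coe_mapRingHom, Polynomial.map_map, Polynomial.map_map, hcomp'] at h1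
    exact h1
  obtain ⟨x₁, hx₁⟩ : ∃ x, (g.map ψ).eval x = 0 := by
    by_contra hno
    push Not at hno
    exact htr (bv4_cplx hGm hGd hno _)
  obtain ⟨Q, hQ⟩ := dvd_iff_isRoot.2 hx₁
  have hQm : Q.Monic := (monic_X_sub_C x₁).of_mul_monic_left (by rw [← hQ]; exact hGm)
  have hQd : Q.natDegree = 1 := by
    have h1 := (monic_X_sub_C x₁).natDegree_mul hQm
    rw [← hQ, hGd, natDegree_X_sub_C] at h1
    omega
  obtain ⟨x₂, hx₂⟩ : ∃ x₂, Q = X - C x₂ := ⟨-Q.coeff 0, by
    rw [map_neg, sub_neg_eq_add]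
    exact hQm.eq_X_add_C hQd⟩
  rw [hx₂] at hQ
  have hne : x₁ ≠ x₂ := by
    rintro rfl
    exact not_isUnit_X_sub_C x₁ (hGs.squarefree _ (by rw [hQ]))
  have hroots : ∀ x, (g.map ψ).eval x = 0 ↔ x = x₁ ∨ x = x₂ := by
    intro x
    rw [hQ, eval_mul, mul_eq_zero, eval_sub, eval_sub, eval_X, eval_C, eval_C, sub_eq_zero,
      sub_eq_zero]
  -- the values of `dl`
  have hval : ∀ x, (g.map ψ).eval x = 0 →
      ((dl A B w).map ψ).eval x = ψ d * ((s.map ψ).eval x) ^ 2 := by
    intro x hx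
    obtain ⟨q, hq⟩ := hd
    have h1 := congrArg (fun p => (Polynomial.map ψ p).eval x) hq
    simp only [Polynomial.map_sub, Polynomial.map_mul, Polynomial.map_pow, map_C, eval_sub,
      eval_mul, eval_pow, eval_C, hx, zero_mul] at h1
    linarith
  have hval0 : ∀ x, (g.map ψ).eval x = 0 → ((dl A B w).map ψ).eval x ≠ 0 := by
    intro x hx h0
    obtain ⟨a, b, hab⟩ := hco
    have h1 := congrArg (eval x) hab
    rw [eval_add, eval_mul, eval_mul, hx, h0, mul_zero, mul_zero, add_zero, eval_one] at h1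
    exact zero_ne_one h1
  have hdneg : ψ d < 0 := by
    by_contra hcon
    apply htr
    have h1 : ∀ x, (g.map ψ).eval x = 0 → 0 ≤ ((dl A B w).map ψ).eval x := by
      intro x hx
      rw [hval x hx]
      exact mul_nonneg (not_lt.1 hcon) (sq_nonneg _)
    have h3 := bv4_split hne (h1 x₁ ((hroots _).2 (Or.inl rfl))) (h1 x₂ ((hroots _).2 (Or.inr rfl)))
    rwa [← hQ] at h3
  have hneg : ∀ x, (g.map ψ).eval x = 0 → ((dl A B w).map ψ).eval x < 0 := by
    intro x hx
    refine lt_of_le_of_ne ?_ (hval0 x hx)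
    rw [hval x hx]
    exact mul_nonpos_of_nonpos_of_nonneg hdneg.le (sq_nonneg _)
  -- the number of the embeddings
  have hsum : ∑ i ∈ I, Nat.card {φ : K i →+* ℝ // φ.comp (algebraMap F (K i)) = ψ ∧ φ (δ i) < 0 ∧
      (P.map (e : IK F v →+* ℝ)).eval (φ (θ i)) < 0} =
      Nat.card {x : ℝ // (g.map ψ).eval x = 0 ∧ ((dl A B w).map ψ).eval x < 0 ∧
        (P.map (e : IK F v →+* ℝ)).eval x < 0} := by
    rw [← hS'.card_real ψ, ← Finset.sum_coe_sort I]
    refine Finset.sum_congr rfl fun i _ => Nat.card_congr (Equiv.subtypeEquivRight fun φ => ?_)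
    refine and_congr_right fun hφ => ?_
    rw [hδ, eval_map_emb (θ := θ) ψ φ hφ]
  have hcard : Nat.card {x : ℝ // (g.map ψ).eval x = 0 ∧ ((dl A B w).map ψ).eval x < 0 ∧
        (P.map (e : IK F v →+* ℝ)).eval x < 0} =
      (({x₁, x₂} : Finset ℝ).filter fun x => (P.map (e : IK F v →+* ℝ)).eval x < 0).card := by
    refine Nat.subtype_card _ fun x => ?_
    rw [Finset.mem_filter, Finset.mem_insert, Finset.mem_singleton, ← hroots]
    exact ⟨fun h => ⟨h.1, hneg x h.1, h.2⟩, fun h => ⟨h.1, h.2.2⟩⟩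
  rw [hsum, hcard]
  -- the norm
  have hgk : g.map (algebraMap F (IK F v)) = (X - C (e.symm x₁)) * (X - C (e.symm x₂)) := by
    have h1 := congrArg (Polynomial.map (e.symm : ℝ →+* IK F v)) hQ
    rw [Polynomial.map_map, hcomp', Polynomial.map_mul, Polynomial.map_sub, Polynomial.map_sub,
      map_X, map_C, map_C] at h1
    exact h1
  have hev : ∀ x : ℝ, e (P.eval (e.symm x)) = (P.map (e : IK F v →+* ℝ)).eval x := by
    intro x
    have h1 : (P.map (e : IK F v →+* ℝ)).eval ((e : IK F v →+* ℝ) (e.symm x)) =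
        (e : IK F v →+* ℝ) (P.eval (e.symm x)) := by
      rw [eval_map, eval₂_hom]
    have h3 : (e : IK F v →+* ℝ) (e.symm x) = x := e.apply_symm_apply x
    rw [h3] at h1
    exact h1.symm
  have hP0 : ∀ x : ℝ, (g.map ψ).eval x = 0 → (P.map (e : IK F v →+* ℝ)).eval x ≠ 0 := by
    intro x hx h0
    have h3 := hc.map (mapRingHom (e : IK F v →+* ℝ))
    rw [coe_mapRingHom, Polynomial.map_map, hcomp] at h3
    obtain ⟨a, b, hab⟩ := h3
    have h1 := congrArg (eval x) hab
    rw [eval_add, eval_mul, eval_mul, hx, h0, mul_zero, mul_zero, add_zero, eval_one] at h1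
    exact zero_ne_one h1
  have hNd : ∀ c : IK F v, Nd (algebraMap F (IK F v) d) c ↔ 0 ≤ e c := by
    intro c
    constructor
    · rintro ⟨a, b, rfl⟩
      rw [map_sub, map_mul, map_pow, map_pow, he]
      nlinarith [sq_nonneg (e a), sq_nonneg (e b), mul_nonneg (neg_nonneg.2 hdneg.le) (sq_nonneg (e b))]
    · intro h
      refine ⟨e.symm √(e c), 0, ?_⟩
      apply e.injective
      rw [map_sub, map_mul, map_pow, map_pow, e.apply_symm_apply, Real.sq_sqrt h, map_zero]
      ring
  rw [hgk, bv4_norm, hNd, map_mul, hev, hev]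
  have hy1 := hP0 x₁ ((hroots _).2 (Or.inl rfl))
  have hy2 := hP0 x₂ ((hroots _).2 (Or.inr rfl))
  rcases lt_or_gt_of_ne hy1 with h1 | h1 <;> rcases lt_or_gt_of_ne hy2 with h3 | h3
  · have h4 : (({x₁, x₂} : Finset ℝ).filter fun x => (P.map (e : IK F v →+* ℝ)).eval x < 0).card =
        2 := by
      rw [Finset.filter_insert, Finset.filter_singleton, if_pos h1, if_pos h3,
        Finset.card_pair hne]
    rw [h4]
    exact ⟨fun _ => (mul_pos_of_neg_of_neg h1 h3).le, fun _ => even_two⟩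
  · have h4 : (({x₁, x₂} : Finset ℝ).filter fun x => (P.map (e : IK F v →+* ℝ)).eval x < 0).card =
        1 := by
      rw [Finset.filter_insert, Finset.filter_singleton, if_pos h1, if_neg (not_lt.2 h3.le)]
      simp
    rw [h4]
    exact ⟨fun h => absurd h (by decide), fun h => absurd h (not_le.2 (mul_neg_of_neg_of_pos h1 h3))⟩
  · have h4 : (({x₁, x₂} : Finset ℝ).filter fun x => (P.map (e : IK F v →+* ℝ)).eval x < 0).card =
        1 := by
      rw [Finset.filter_insert, Finset.filter_singleton, if_neg (not_lt.2 h1.le), if_pos h3]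
      simp
    rw [h4]
    exact ⟨fun h => absurd h (by decide), fun h => absurd h (not_le.2 (mul_neg_of_pos_of_neg h1 h3))⟩
  · have h4 : (({x₁, x₂} : Finset ℝ).filter fun x => (P.map (e : IK F v →+* ℝ)).eval x < 0).card =
        0 := by
      rw [Finset.filter_insert, Finset.filter_singleton, if_neg (not_lt.2 h1.le),
        if_neg (not_lt.2 h3.le)]
      simp
    rw [h4]
    exact ⟨fun _ => (mul_pos h1 h3).le, fun _ => ⟨0, rfl⟩⟩

/-- Real places where `dl` is a square modulo `g`. -/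
theorem sym_r0 (hS : Sp D K θ) (hδ : ∀ i, (δ i : K i) = aeval (θ i) (dl A B w)) (I : Finset ι)
    (hg : g = ∏ i ∈ I, minpoly F (θ i)) (v : InfinitePlace F) (ψ : F →+* ℝ) (e : IK F v ≃+* ℝ)
    (he : ∀ x, e (algebraMap F (IK F v) x) = ψ x)
    (hn : ∃ s' : (IK F v)[X], g.map (algebraMap F (IK F v)) ∣
      (dl A B w).map (algebraMap F (IK F v)) - s' ^ 2) (i : ι) (hi : i ∈ I) (φ : K i →+* ℝ)
    (hφ : φ.comp (algebraMap F (K i)) = ψ) : ¬ φ (δ i) < 0 := by
  obtain ⟨s', q, hq⟩ := hn
  have hcomp : (e : IK F v →+* ℝ).comp (algebraMap F (IK F v)) = ψ := RingHom.ext he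
  have h1 := congrArg (Polynomial.map (e : IK F v →+* ℝ)) hq
  rw [Polynomial.map_sub, Polynomial.map_mul, Polynomial.map_pow, Polynomial.map_map,
    Polynomial.map_map, hcomp] at h1
  have h2 : (g.map ψ).eval (φ (θ i)) = 0 := by
    rw [eval_map_emb (θ := θ) ψ φ hφ, hg, map_prod, Finset.prod_eq_zero hi (minpoly.aeval F (θ i)),
      map_zero]
  have h3 := congrArg (eval (φ (θ i))) h1
  rw [eval_sub, eval_mul, h2, zero_mul, eval_pow, sub_eq_zero, eval_map_emb (θ := θ) ψ φ hφ,
    ← hδ] at h3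
  rw [h3]
  exact not_lt.2 (sq_nonneg _)

end Dr
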