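import Pool.Agent.Lib.MP_f80667_ag.Dq.Hyp
import Pool.Agent.Lib.MP_f80667_ag.Dq.Nu
import Pool.Agent.Lib.MP_f80667_ag.Dq.NuV

/-! Polynomials over `F` near a local polynomial with a datum. -/

open IsDedekindDomain NumberField Module Polynomial
open scoped WithZero

namespace Dr

open ZC Tq Dp

section aux

/-- Smoothness over an extension of the base field. -/
theorem hiA_sm {F : Type} [Field F] {n : ℕ} {A B : Matrix (Fin n) (Fin n) F} {K Ω : Type} [Field K]
    [Field Ω] [Algebra F K] [Algebra K Ω] [Algebra F Ω] [IsScalarTower F K Ω]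
    (hs : Sm (AlgebraicClosure F) A B) :
    Sm Ω (A.map (algebraMap F K)) (B.map (algebraMap F K)) := by
  intro x hx hA hB a b h
  refine sm_transfer (E := AlgebraicClosure F) A B (fun y hy0 hy => ?_) x hx hA hB a b h
  rw [Fintype.linearIndependent_iff]
  intro g hg
  obtain ⟨yA, yB⟩ := (zer_iff A B).1 hy
  have h1 := hs y hy0 yA yB (g 0) (g 1) (fun w => by
    rw [bv_eq_grad, bv_eq_grad, Finset.mul_sum, Finset.mul_sum, ← Finset.sum_add_distrib]
    refine Finset.sum_eq_zero fun j _ => ?_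
    have h2 := congrFun hg j
    rw [Finset.sum_apply, Fin.sum_univ_two, Pi.zero_apply, Pi.smul_apply, Pi.smul_apply,
      smul_eq_mul, smul_eq_mul] at h2
    change g 0 * MvPolynomial.aeval y (MvPolynomial.pderiv j (ml A)) +
      g 1 * MvPolynomial.aeval y (MvPolynomial.pderiv j (ml B)) = 0 at h2
    linear_combination w j * h2)
  intro i
  fin_cases i
  · exact h1.1
  · exact h1.2

/-- A positive lower bound on a finite set. -/
theorem hiA_pos {ι : Type*} (T : Finset ι) (f : ι → ℝ) (hf : ∀ t ∈ T, 0 < f t) :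
    ∃ ρ > 0, ∀ t ∈ T, ρ ≤ f t := by
  classical
  induction T using Finset.induction_on with
  | empty => exact ⟨1, one_pos, by simp⟩
  | insert a T ha ih =>
    obtain ⟨ρ, h1, h2⟩ := ih (fun t ht => hf t (Finset.mem_insert_of_mem ht))
    refine ⟨min ρ (f a), lt_min h1 (hf a (Finset.mem_insert_self _ _)), fun t ht => ?_⟩
    rcases Finset.mem_insert.1 ht with rfl | ht
    · exact min_le_right _ _
    · exact (min_le_left _ _).trans (h2 t ht)

/-- Polynomials near a separable polynomial are separable. -/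
theorem hiA_sep {k Ω : Type} [Field k] [CharZero k] [NormedField Ω] [Algebra k Ω]
    [IsAlgClosure k Ω] (P₀ : k[X]) (h0 : P₀.Monic) (hsep : P₀.Separable) : ∃ δ > 0,
      ∀ P : k[X], P.Monic → P.natDegree = P₀.natDegree →
      (∀ i, ‖algebraMap k Ω (P.coeff i - P₀.coeff i)‖ < δ) → P.Separable := by
  classical
  have : IsAlgClosed Ω := IsAlgClosure.isAlgClosed k
  have hne0 : P₀ ≠ 0 := h0.ne_zero
  set R : Finset Ω := (P₀.aroots Ω).toFinset with hR
  have hmem : ∀ y, y ∈ R ↔ aeval y P₀ = 0 := by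
    intro y
    rw [hR, Multiset.mem_toFinset, mem_aroots]
    exact ⟨fun h => h.2, fun h => ⟨hne0, h⟩⟩
  have hcardR : R.card = P₀.natDegree := by
    have hnd : (P₀.aroots Ω).Nodup := nodup_roots (hsep.map)
    rw [hR, Multiset.toFinset_card_of_nodup hnd, ← h0.natDegree_map (algebraMap k Ω)]
    exact (IsAlgClosed.splits (P₀.map (algebraMap k Ω))).natDegree_eq_card_roots.symm
  obtain ⟨ρ, hρ, hρle⟩ := hiA_pos R.offDiag (fun t => ‖t.1 - t.2‖) (by
    rintro ⟨a, b⟩ hab
    rw [Finset.mem_offDiag] at hab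
    exact norm_pos_iff.2 (sub_ne_zero.2 hab.2.2))
  have hρ2 : 0 < ρ / 2 := by linarith
  have hch : ∀ y : Ω, ∃ δ > 0, aeval y P₀ = 0 → ∀ P : k[X], P.Monic →
      P.natDegree = P₀.natDegree →
      (∀ i, ‖algebraMap k Ω (P.coeff i - P₀.coeff i)‖ < δ) →
      ∃ x' : Ω, aeval x' P = 0 ∧ ‖x' - y‖ < ρ / 2 := by
    intro y
    by_cases hy : aeval y P₀ = 0
    · obtain ⟨δ, h1, h2⟩ := root_near_aux P₀ h0 rfl hy hρ2
      exact ⟨δ, h1, fun _ => h2⟩
    · exact ⟨1, one_pos, fun h => absurd h hy⟩
  choose D hD hD2 using hch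
  obtain ⟨δ, hδ, hδle⟩ := hiA_pos R D (fun t _ => hD t)
  refine ⟨δ, hδ, fun P hP hPN hco => ?_⟩
  have hr : ∀ y : Ω, ∃ x' : Ω, aeval y P₀ = 0 → aeval x' P = 0 ∧ ‖x' - y‖ < ρ / 2 := by
    intro y
    by_cases hy : aeval y P₀ = 0
    · obtain ⟨x', h1, h2⟩ := hD2 y hy P hP hPN
        (fun i => lt_of_lt_of_le (hco i) (hδle y ((hmem y).2 hy)))
      exact ⟨x', fun _ => ⟨h1, h2⟩⟩
    · exact ⟨0, fun h => absurd h hy⟩
  choose r hr using hr
  have hinj : Set.InjOn r R := by
    intro y hy z hz hyz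
    by_contra hne
    have hy' := hr y ((hmem y).1 hy)
    have hz' := hr z ((hmem z).1 hz)
    have h3 := hρle (y, z) (Finset.mem_offDiag.2 ⟨hy, hz, hne⟩)
    simp only at h3
    rw [← hyz] at hz'
    have h1 : ‖y - z‖ ≤ ‖r y - y‖ + ‖r y - z‖ := by
      rw [norm_sub_rev (r y) y]
      have := norm_add_le (y - r y) (r y - z)
      simpa using this
    linarith [hy'.2, hz'.2]
  have hsub : R.image r ⊆ (P.aroots Ω).toFinset := by
    intro w hw
    obtain ⟨y, hy, rfl⟩ := Finset.mem_image.1 hw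
    rw [Multiset.mem_toFinset, mem_aroots]
    exact ⟨hP.ne_zero, (hr y ((hmem y).1 hy)).1⟩
  have hcP : Multiset.card (P.aroots Ω) = P₀.natDegree := by
    rw [← hPN, ← hP.natDegree_map (algebraMap k Ω)]
    exact (IsAlgClosed.splits (P.map (algebraMap k Ω))).natDegree_eq_card_roots.symm
  have hcard : (P.aroots Ω).toFinset.card = Multiset.card (P.aroots Ω) := by
    refine le_antisymm (Multiset.toFinset_card_le _) ?_
    rw [hcP, ← hcardR, ← Finset.card_image_of_injOn hinj]
    exact Finset.card_le_card hsub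
  rw [← nodup_aroots_iff_of_splits (K := Ω) hP.ne_zero (IsAlgClosed.splits _)]
  exact Multiset.toFinset_card_eq_card_iff_nodup.1 hcard

end aux

variable {F : Type} [Field F] [NumberField F] {A B : Matrix (Fin 5) (Fin 5) F} {ι : Type} [Fintype ι]
  {D : F[X]} {K : ι → Type} [∀ i, Field (K i)] [∀ i, NumberField (K i)] [∀ i, Algebra F (K i)]
  {θ : ∀ i, K i}

/-- A polynomial with lines over all roots which is separable has a datum. Proof: the minimal polynomials
of its roots. -/
theorem dat_of_roots {k : Type} [Field k] [CharZero k] {Ω : Type} [Field Ω] [Algebra k Ω]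
    [IsAlgClosure k Ω] {A B : Matrix (Fin 5) (Fin 5) k} {P : k[X]} (hP : P.Monic)
    (hs : P.Separable) (h : ∀ y : Ω, aeval y P = 0 → ∃ t, Root A B y t) :
    ∃ z, Dat (Ω := Ω) A B P z := by
  classical
  have hcl : IsAlgClosed Ω := IsAlgClosure.isAlgClosed k
  have halg : Algebra.IsAlgebraic k Ω := IsAlgClosure.isAlgebraic
  have hint : ∀ y : Ω, IsIntegral k y := fun y => (Algebra.IsAlgebraic.isAlgebraic y).isIntegral
  set R : Finset Ω := (P.aroots Ω).toFinset with hR
  have hmem : ∀ y, y ∈ R ↔ aeval y P = 0 := by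
    intro y
    rw [hR, Multiset.mem_toFinset, mem_aroots]
    exact ⟨fun h => h.2, fun h => ⟨hP.ne_zero, h⟩⟩
  set T : Finset k[X] := R.image (minpoly k) with hT
  have hT1 : ∀ s : T, ∃ x : Ω, aeval x P = 0 ∧ minpoly k x = s := by
    rintro ⟨s, hs'⟩
    obtain ⟨x, hx, rfl⟩ := Finset.mem_image.1 hs'
    exact ⟨x, (hmem x).1 hx, rfl⟩
  choose X hX1 hX2 using hT1
  choose t ht using fun s : T => h (X s) (hX1 s)
  have hprod : P = ∏ s : T, minpoly k (X s) := by
    have hmon : (∏ s : T, minpoly k (X s)).Monic :=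
      monic_prod_of_monic _ _ fun s _ => minpoly.monic (hint _)
    refine eq_of_monic_of_associated hP hmon (associated_of_dvd_dvd ?_ ?_)
    · rw [← map_dvd_map' (algebraMap k Ω)]
      refine (IsAlgClosed.splits _).dvd_of_roots_le_roots (hP.map _).ne_zero ?_
      rw [Multiset.le_iff_subset (nodup_roots (hs.map))]
      intro y hy
      rw [mem_roots ((hmon.map _).ne_zero), IsRoot.def, eval_map_algebraMap]
      have hy' : aeval y P = 0 := by
        rw [mem_roots ((hP.map _).ne_zero), IsRoot.def, eval_map_algebraMap] at hy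
        exact hy
      have hyT : minpoly k y ∈ T := Finset.mem_image_of_mem _ ((hmem y).2 hy')
      rw [map_prod]
      refine Finset.prod_eq_zero (Finset.mem_univ ⟨minpoly k y, hyT⟩) ?_
      rw [hX2]
      exact minpoly.aeval k y
    · refine Finset.prod_dvd_of_coprime (fun s _ s' _ hss => ?_) fun s _ => minpoly.dvd k _ (hX1 s)
      change IsCoprime (minpoly k (X s)) (minpoly k (X s'))
      rw [(minpoly.irreducible (hint (X s))).coprime_iff_not_dvd]
      intro hd
      apply hss
      have h1 := eq_of_monic_of_associated (minpoly.monic (hint (X s))) (minpoly.monic (hint (X s')))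
        ((minpoly.irreducible (hint _)).associated_of_dvd (minpoly.irreducible (hint _)) hd)
      rw [hX2, hX2] at h1
      exact Subtype.ext h1
  let e : Fin (Fintype.card T) ≃ T := (Fintype.equivFin T).symm
  refine ⟨∑ j, PhL (trPt k Ω (t (e j))), Fintype.card T, fun j => X (e j), fun j => t (e j),
    ?_, ?_, fun j => ht (e j), ?_⟩
  · intro i j hij
    rw [hX2, hX2] at hij
    exact e.injective (Subtype.ext hij)
  · rw [hprod]
    exact (Equiv.prod_comp e (fun s => minpoly k (X s))).symm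
  · rw [sub_self]
    exact zero_mem _

/-- Polynomials near a polynomial with a datum. Proof: `exists_nuP` (or the version of it for `Dq`),
`LcV.dat_lines` in five variables (`Dq/Nu.lean`) for the lines over the roots; separability: discriminant
or resultant with the derivative (continuity), or the version of `dat_lines`/`NearP_fields` which gives
the roots; `dat_of_roots`. -/
theorem dat_near (hs : Sm (AlgebraicClosure F) A B) (v : HeightOneSpectrum (𝓞 F))
    {P₀ : (FK F v)[X]}
    {z : Projectivization (AlgebraicClosure (FK F v)) (Fin 5 → AlgebraicClosure (FK F v)) →₀ ℤ}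
    (h : Dat (A.map (algebraMap F (FK F v))) (B.map (algebraMap F (FK F v))) P₀ z) :
    ∃ g : ℤᵐ⁰, g ≠ 0 ∧ ∀ P : F[X], Dq.NearPol v g P₀ P → ∃ z',
      Dat (Ω := AlgebraicClosure (FK F v)) (A.map (algebraMap F (FK F v)))
        (B.map (algebraMap F (FK F v))) (P.map (algebraMap F (FK F v))) z' := by
  have hc : CharZero (FK F v) := charZero_of_injective_algebraMap (algebraMap F (FK F v)).injective
  have hsm : Sm (AlgebraicClosure (FK F v)) (A.map (algebraMap F (FK F v)))
      (B.map (algebraMap F (FK F v))) := hiA_sm hs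
  obtain ⟨ν, hν, hsmall⟩ := Dq.exists_nuV F v
  obtain ⟨δ₁, hδ₁, h1⟩ := Dq.lcv_lines hν.lc hsm le_rfl h
  obtain ⟨δ₂, hδ₂, h2⟩ : ∃ δ > 0, ∀ P : (FK F v)[X], P.Monic → P.natDegree = P₀.natDegree →
      (∀ i, ν (algebraMap (FK F v) (AlgebraicClosure (FK F v)) (P.coeff i - P₀.coeff i)) < δ) →
      P.Separable :=
    letI : NormedField (AlgebraicClosure (FK F v)) := ν.toNormedField
    hiA_sep (Ω := AlgebraicClosure (FK F v)) P₀ h.monic h.separable
  obtain ⟨g, hg0, hg⟩ := hsmall (min δ₁ δ₂) (lt_min hδ₁ hδ₂)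
  refine ⟨g, hg0, fun P hP => ?_⟩
  obtain ⟨hPm, hPd, hPc⟩ := hP
  have hm : (P.map (algebraMap F (FK F v))).Monic := hPm.map _
  have hd : (P.map (algebraMap F (FK F v))).natDegree = P₀.natDegree := by
    rw [hPm.natDegree_map]
    exact hPd
  have hcf : ∀ i, ν (algebraMap (FK F v) (AlgebraicClosure (FK F v))
      ((P.map (algebraMap F (FK F v))).coeff i - P₀.coeff i)) < min δ₁ δ₂ := by
    intro i
    rw [coeff_map]
    exact hg _ (hPc i)
  exact dat_of_roots hm (h2 _ hm hd fun i => (hcf i).trans_le (min_le_right _ _))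
    (h1 _ hm hd fun i => (hcf i).trans_le (min_le_left _ _))

end Dr
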