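import Pool.Agent.Lib.MP_f80667_ag.Dr.Ev
import Pool.Agent.Lib.MP_f80667_ag.Dr.ReV
import Pool.Agent.Lib.MP_f80667_ag.Dr.HiA
import Pool.Agent.Lib.MP_f80667_ag.Hm.Rl

/-! The parity at the places of `F` in terms of the local polynomials. -/

open IsDedekindDomain NumberField Module Polynomial
open scoped WithZero

namespace Dr

open ZC Tq Dp

variable {F : Type} [Field F] [NumberField F] {A B : Matrix (Fin 5) (Fin 5) F} {ι : Type} [Fintype ι]
  {D : F[X]} {K : ι → Type} [∀ i, Field (K i)] [∀ i, NumberField (K i)] [∀ i, Algebra F (K i)]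
  {θ : ∀ i, K i}

/-- Every ring homomorphism from the completion at a real place to the real numbers extends the embedding
of this place and is the only one. -/
theorem real_hom_eq {F : Type} [Field F] {v : InfinitePlace F} (hv : v.IsReal)
    (e : IK F v →+* ℝ) :
    e = (InfinitePlace.Completion.ringEquivRealOfIsReal hv : v.Completion →+* ℝ) := by
  ext x
  have h1 : (RingHom.comp e ((InfinitePlace.Completion.ringEquivRealOfIsReal hv).symm :
      ℝ →+* v.Completion)) = RingHom.id ℝ := Subsingleton.elim _ _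
  have h2 := RingHom.congr_fun h1 (InfinitePlace.Completion.ringEquivRealOfIsReal hv x)
  have h3 : (InfinitePlace.Completion.ringEquivRealOfIsReal hv).symm
      (InfinitePlace.Completion.ringEquivRealOfIsReal hv x) = x := RingEquiv.symm_apply_apply _ _
  have h4 : e ((InfinitePlace.Completion.ringEquivRealOfIsReal hv).symm
      (InfinitePlace.Completion.ringEquivRealOfIsReal hv x)) =
      InfinitePlace.Completion.ringEquivRealOfIsReal hv x := h2
  rw [h3] at h4
  exact h4

/-- The restriction to the field of a homomorphism from the completion at a real place. -/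
theorem real_hom_coe {F : Type} [Field F] {v : InfinitePlace F} (hv : v.IsReal)
    (e : IK F v →+* ℝ) (x : F) :
    e (algebraMap F (IK F v) x) = InfinitePlace.embedding_of_isReal hv x := by
  rw [real_hom_eq hv e]
  exact InfinitePlace.Completion.extensionEmbeddingOfIsReal_coe hv _

/-- The real place of a real embedding is unique. -/
theorem real_place_eq {F : Type} [Field F] {v v' : InfinitePlace F} (hv : v.IsReal)
    (hv' : v'.IsReal) (e : IK F v →+* ℝ) (e' : IK F v' →+* ℝ)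
    (h : ∀ x : F, e (algebraMap F (IK F v) x) = e' (algebraMap F (IK F v') x)) : v' = v := by
  have h1 : InfinitePlace.embedding v' = InfinitePlace.embedding v := by
    ext x
    rw [← InfinitePlace.embedding_of_isReal_apply hv, ← InfinitePlace.embedding_of_isReal_apply hv',
      ← real_hom_coe hv e, ← real_hom_coe hv' e', h]
  rw [← InfinitePlace.mk_embedding v', ← InfinitePlace.mk_embedding v, h1]

/-- The sign condition above one real embedding. -/
theorem sgn_iff {F : Type} [Field F] {ι : Type} {K : ι → Type} [∀ i, Field (K i)]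
    [∀ i, Algebra F (K i)] {θ : ∀ i, K i} {v : InfinitePlace F} (hv : v.IsReal) (e : IK F v →+* ℝ)
    {ψ : F →+* ℝ} (he : ∀ x, e (algebraMap F (IK F v) x) = ψ x)
    (R₀ : ∀ v : InfinitePlace F, (IK F v)[X]) (i : ι) (φ : K i →+* ℝ)
    (hφ : φ.comp (algebraMap F (K i)) = ψ) :
    Dq.SgN θ R₀ i φ ↔ ((R₀ v).map e).eval (φ (θ i)) < 0 := by
  constructor
  · rintro ⟨v', hv', e', he', h⟩
    have h1 : ∀ x : F, e (algebraMap F (IK F v) x) = e' (algebraMap F (IK F v') x) := by
      intro x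
      rw [he, he', ← hφ]
      rfl
    obtain rfl : v' = v := real_place_eq hv hv' e e' h1
    have h2 : e' = e := by
      rw [real_hom_eq hv e, real_hom_eq hv e']
    rwa [h2] at h
  · intro h
    refine ⟨v, hv, e, fun x => ?_, h⟩
    rw [he, ← hφ]
    rfl

/-- The sum over the real embeddings. -/
theorem real_part (hS : Sp D K θ) (hn : D.natDegree = 5) {c : F}
    (hc : c ≠ 0) (hf : Dq.chp A B = C c * D) (w : Fin 5 → F) (δ : ∀ i, (K i)ˣ)
    (hδ : ∀ i, (δ i : K i) = aeval (θ i) (dl A B w))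
    (R₀ : ∀ v : InfinitePlace F, (IK F v)[X])
    (hR : ∀ v : InfinitePlace F, v.IsReal → Even (R₀ v).natDegree ∧ ∃ z,
      Dat (Ω := AlgebraicClosure (IK F v)) (A.map (algebraMap F (IK F v)))
        (B.map (algebraMap F (IK F v))) (R₀ v) z) :
    Even (∑ i, nR (δ i) (Dq.SgN θ R₀ i)) := by
  classical
  have hfF : Fintype (F →+* ℝ) := Fintype.ofFinite _
  have h1 : ∀ i, nR (δ i) (Dq.SgN θ R₀ i) = ∑ ψ : F →+* ℝ,
      Nat.card {φ : K i →+* ℝ // φ.comp (algebraMap F (K i)) = ψ ∧ φ (δ i) < 0 ∧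
        Dq.SgN θ R₀ i φ} := by
    intro i
    have hfi : ∀ ψ : F →+* ℝ, Finite {φ : K i →+* ℝ // φ.comp (algebraMap F (K i)) = ψ ∧
        φ (δ i) < 0 ∧ Dq.SgN θ R₀ i φ} := fun ψ => inferInstance
    rw [← Nat.card_sigma]
    refine Nat.card_congr
      { toFun := fun φ => ⟨φ.1.comp (algebraMap F (K i)), φ.1, rfl, φ.2⟩
        invFun := fun x => ⟨x.2.1, x.2.2.2⟩
        left_inv := fun φ => rfl
        right_inv := ?_ }
    rintro ⟨ψ, φ, rfl, h⟩
    rfl
  rw [Finset.sum_congr rfl fun i _ => h1 i, Finset.sum_comm]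
  refine Finset.even_sum _ fun ψ _ => ?_
  obtain ⟨v, hv, e, he⟩ : ∃ v : InfinitePlace F, v.IsReal ∧ ∃ e : IK F v ≃+* ℝ,
      ∀ x : F, e (algebraMap F (IK F v) x) = ψ x := by
    obtain ⟨v, hv, e, he⟩ := Hm.exists_real F F ψ
    refine ⟨v, hv, e.symm, fun x => ?_⟩
    exact (RingEquiv.symm_apply_eq e).2 (he x).symm
  obtain ⟨hev, z, hz⟩ := hR v hv
  have h2 := par_r hS hn hc hf w δ hδ v ψ e he hz hev
  have h3 : ∀ i, Nat.card {φ : K i →+* ℝ // φ.comp (algebraMap F (K i)) = ψ ∧ φ (δ i) < 0 ∧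
        Dq.SgN θ R₀ i φ} = Nat.card {φ : K i →+* ℝ // φ.comp (algebraMap F (K i)) = ψ ∧
        φ (δ i) < 0 ∧ ((R₀ v).map (e : IK F v →+* ℝ)).eval (φ (θ i)) < 0} := by
    intro i
    refine Nat.card_congr (Equiv.subtypeEquivRight fun φ => ?_)
    refine and_congr_right fun hφ => and_congr_right fun _ => ?_
    exact sgn_iff hv (e : IK F v →+* ℝ) he R₀ i φ hφ
  rw [Finset.sum_congr rfl fun i _ => h3 i]
  exact h2

/-- **The sum over all indices.** Proof: `dat_near` at every `v ∈ S` and `par_v`; at a real place `par_r`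
(the real embeddings of the `K i` according to their restrictions `ψ` to `F`; every `ψ` belongs to exactly
one real place `v` of `F`, with one isomorphism `IK F v ≃ ℝ` (`Hm.exists_real`), and every homomorphism
`IK F v →+* ℝ` in `SgN` is this isomorphism or one can use its surjectivity). -/
theorem hyp_all (hs : Sm (AlgebraicClosure F) A B) (hS : Sp D K θ) (hn : D.natDegree = 5) {c : F}
    (hc : c ≠ 0) (hf : Dq.chp A B = C c * D) (w : Fin 5 → F) (δ : ∀ i, (K i)ˣ)
    (hδ : ∀ i, (δ i : K i) = aeval (θ i) (dl A B w)) (S : Finset (HeightOneSpectrum (𝓞 F)))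
    (P₀ : ∀ v : HeightOneSpectrum (𝓞 F), (v.adicCompletion F)[X])
    (R₀ : ∀ v : InfinitePlace F, (IK F v)[X])
    (hP : ∀ v ∈ S, Even (P₀ v).natDegree ∧ ∃ z,
      Dat (k := FK F v) (Ω := AlgebraicClosure (FK F v)) (A.map (algebraMap F (FK F v)))
        (B.map (algebraMap F (FK F v))) (P₀ v) z)
    (hR : ∀ v : InfinitePlace F, v.IsReal → Even (R₀ v).natDegree ∧ ∃ z,
      Dat (Ω := AlgebraicClosure (IK F v)) (A.map (algebraMap F (IK F v)))
        (B.map (algebraMap F (IK F v))) (R₀ v) z) :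
    ∃ g : HeightOneSpectrum (𝓞 F) → ℤᵐ⁰, (∀ v, g v ≠ 0) ∧
    ∀ (P : HeightOneSpectrum (𝓞 F) → F[X]) (a : HeightOneSpectrum (𝓞 F) → ∀ i, (K i)ˣ),
      (∀ v ∈ S, Dq.NearPol v (g v) (P₀ v) (P v) ∧ ∀ i, aeval (θ i) (P v) = (a v i : K i)) →
        Even (∑ i, (∑ v ∈ S, nF v (a v i) (δ i) + nR (δ i) (Dq.SgN θ R₀ i))) := by
  classical
  have hex : ∀ v : HeightOneSpectrum (𝓞 F), ∃ g : ℤᵐ⁰, g ≠ 0 ∧ (v ∈ S → ∀ P : F[X],
      Dq.NearPol v g (P₀ v) P → ∃ z',
      Dat (Ω := AlgebraicClosure (FK F v)) (A.map (algebraMap F (FK F v)))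
        (B.map (algebraMap F (FK F v))) (P.map (algebraMap F (FK F v))) z') := by
    intro v
    by_cases hv : v ∈ S
    · obtain ⟨-, z, hz⟩ := hP v hv
      obtain ⟨g, hg, h⟩ := dat_near hs v hz
      exact ⟨g, hg, fun _ => h⟩
    · exact ⟨1, one_ne_zero, fun h => absurd h hv⟩
  choose g hg hgP using hex
  refine ⟨g, hg, fun P a hPa => ?_⟩
  have hsum : (∑ i, (∑ v ∈ S, nF v (a v i) (δ i) + nR (δ i) (Dq.SgN θ R₀ i))) =
      (∑ v ∈ S, ∑ i, nF v (a v i) (δ i)) + ∑ i, nR (δ i) (Dq.SgN θ R₀ i) := by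
    rw [Finset.sum_add_distrib, Finset.sum_comm]
  rw [hsum]
  refine Even.add ?_ ?_
  · refine Finset.even_sum _ fun v hv => ?_
    obtain ⟨hnear, ha⟩ := hPa v hv
    obtain ⟨z', hz'⟩ := hgP v hv (P v) hnear
    refine par_v hS hn hc hf w δ hδ v hz' ?_ (a v) fun i => (ha i).symm
    rw [hnear.2.1]
    exact (hP v hv).1
  · exact real_part hS hn hc hf w δ hδ R₀ hR

end Dr
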