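import Pool.Agent.Lib.MP_f80667_ag.Dr.BrO
import Pool.Agent.Lib.MP_f80667_ag.Dr.BrR
import Pool.Agent.Lib.MP_f80667_ag.Dr.BrI
import Pool.Agent.Lib.MP_f80667_ag.Dr.BrJ
import Pool.Agent.Lib.MP_f80667_ag.Dr.BrV1
import Pool.Agent.Lib.MP_f80667_ag.Dr.BrV2
import Pool.Agent.Lib.MP_f80667_ag.Dr.BrV3
import Pool.Agent.Lib.MP_f80667_ag.Dr.BrV4
import Pool.Agent.Lib.MP_f80667_ag.Dr.HiB
import Pool.Agent.Lib.MP_f80667_ag.Ts.ConcA

/-! The sum condition for one class. -/

open IsDedekindDomain NumberField Polynomial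
open scoped WithZero LinearAlgebra.Projectivization

namespace Dr

open ZC Tq Dp

section aux

/-- The polynomial of a datum is prime to the factors of the characteristic polynomial. -/
theorem h1_cop {k : Type} [Field k] [CharZero k] {Ω : Type} [Field Ω] [Algebra k Ω]
    [IsAlgClosure k Ω] {A B : Matrix (Fin 5) (Fin 5) k} {g P : k[X]} (hgc : g ∣ Dq.chp A B)
    {z : ℙ Ω (Fin 5 → Ω) →₀ ℤ} (h : Dat A B P z) : IsCoprime g P := by
  obtain ⟨m, x, t, hx, hP, hR, -⟩ := h
  rw [hP]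
  exact IsCoprime.prod_right fun j _ => (root_ln (hR j)).2.of_isCoprime_of_dvd_left hgc

/-- Equal classes. -/
theorem h1_cls {K : Type} [Field K] {m : ℕ} {κ : Type} {h : κ → MvPolynomial (Fin m) K}
    {x y : Z1 K h} (H : x.1 - y.1 ∈ ratEq (AlgebraicClosure K) h) : G1.cls x = G1.cls y := by
  refine QuotientAddGroup.eq.2 ?_
  rw [AddSubgroup.mem_addSubgroupOf]
  have h1 := AddSubgroup.neg_mem _ H
  rw [neg_sub, sub_eq_neg_add] at h1
  exact h1

theorem h1_clsb {K : Type} [Field K] {m : ℕ} {κ : Type} {h : κ → MvPolynomial (Fin m) K}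
    {x y : Z1 K h} (H : x.1 - y.1 ∈ ratEq (AlgebraicClosure K) h) : G1b.cls x = G1b.cls y := by
  refine QuotientAddGroup.eq.2 ?_
  rw [AddSubgroup.mem_addSubgroupOf]
  have h1 := AddSubgroup.neg_mem _ H
  rw [neg_sub, sub_eq_neg_add] at h1
  exact AddSubgroup.mem_sup_left h1

theorem h1_rat {F : Type} [Field F] {A B : Matrix (Fin 5) (Fin 5) F} {E : Type} [Field E]
    [Algebra F E] {c : ℙ (AlgebraicClosure E) (Fin 5 → AlgebraicClosure E) →₀ ℤ} :
    c ∈ ratEq (AlgebraicClosure E) (hE E (Pl A B)) ↔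
      c ∈ ratEq (AlgebraicClosure E) (Pl (A.map (algebraMap F E)) (B.map (algebraMap F E))) := by
  rw [Ts.hE_Pl]

theorem h1_cyc {F : Type} [Field F] {A B : Matrix (Fin 5) (Fin 5) F} {E : Type} [Field E]
    [Algebra F E] {c : ℙ (AlgebraicClosure E) (Fin 5 → AlgebraicClosure E) →₀ ℤ} :
    c ∈ cyc0 (AlgebraicClosure E) (hE E (Pl A B)) ↔
      c ∈ cyc0 (AlgebraicClosure E) (Pl (A.map (algebraMap F E)) (B.map (algebraMap F E))) := by
  rw [Ts.hE_Pl]

/-- A representative with a value over an extension. -/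
theorem h1_rep {F : Type} [Field F] [CharZero F] {A B : Matrix (Fin 5) (Fin 5) F}
    {w : Fin 5 → F} {g s : F[X]} {d : F} (hsm : Sm (AlgebraicClosure F) A B) (hg : g.Monic)
    (h2 : g.natDegree = 2) (hgc : g ∣ Dq.chp A B) (hs : (Dq.chp A B).Separable)
    (hδ : IsCoprime g (dl A B w)) (hd : g ∣ dl A B w - C d * s ^ 2) (k : Type) [Field k]
    [Algebra F k]
    (hiso : ∃ R : Fin 5 → AdjoinRoot (g.map (algebraMap F k)),
      mQ (A.map (algebraMap F k)) (B.map (algebraMap F k)) 1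
        (-(AdjoinRoot.root (g.map (algebraMap F k)))) R = 0 ∧
      ∃ y, IsUnit (mB (A.map (algebraMap F k)) (B.map (algebraMap F k)) 1
        (-(AdjoinRoot.root (g.map (algebraMap F k)))) R y))
    {P : k[X]} (hN : Even P.natDegree) (y : Z1 k (hE k (Pl A B)))
    {z₀ : ℙ (AlgebraicClosure k) (Fin 5 → AlgebraicClosure k) →₀ ℤ}
    (hz : z₀ ∈ cyc (AlgebraicClosure k) (Pl (A.map (algebraMap F k)) (B.map (algebraMap F k))))
    (hD : Dat (A.map (algebraMap F k)) (B.map (algebraMap F k)) P (y.1 + (2 : ℤ) • z₀)) :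
    ∃ (z : Z1 k (hE k (Pl A B))) (c : k),
      z.1 - y.1 ∈ ratEq (AlgebraicClosure k) (hE k (Pl A B)) ∧ Pr A B g k z c ∧
      (Nd (algebraMap F k d) c ↔ Nd (algebraMap F k d) (Algebra.norm k
        (AdjoinRoot.mk (g.map (algebraMap F k)) P))) := by
  have hch : CharZero k := charZero_of_injective_algebraMap (algebraMap F k).injective
  have hsm' : Sm (AlgebraicClosure k) (A.map (algebraMap F k)) (B.map (algebraMap F k)) :=
    hiA_sm hsm
  have hgc' : g.map (algebraMap F k) ∣ Dq.chp (A.map (algebraMap F k)) (B.map (algebraMap F k)) := by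
    rw [← chp_map]
    exact Polynomial.map_dvd _ hgc
  have hs' : (Dq.chp (A.map (algebraMap F k)) (B.map (algebraMap F k))).Separable := by
    rw [← chp_map]
    exact hs.map
  have hδ' : IsCoprime (g.map (algebraMap F k)) (dl (A.map (algebraMap F k))
      (B.map (algebraMap F k)) (fun i => algebraMap F k (w i))) := by
    rw [← dl_map]
    exact hδ.map (mapRingHom (algebraMap F k))
  have hd' : g.map (algebraMap F k) ∣ dl (A.map (algebraMap F k)) (B.map (algebraMap F k))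
      (fun i => algebraMap F k (w i)) - C (algebraMap F k d) * (s.map (algebraMap F k)) ^ 2 := by
    obtain ⟨q, hq⟩ := hd
    refine ⟨q.map (algebraMap F k), ?_⟩
    rw [← Polynomial.map_mul, ← hq, Polynomial.map_sub, Polynomial.map_mul, Polynomial.map_pow,
      Polynomial.map_C, dl_map]
  have hy : y.1 ∈ cyc0 (AlgebraicClosure k) (Pl (A.map (algebraMap F k))
      (B.map (algebraMap F k))) := h1_cyc.1 y.2
  obtain ⟨R, l, y', c, hR, hy', hrat, hOff, -, hV, hNd⟩ := rep_val (Ω := AlgebraicClosure k) hsm'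
    (hg.map _) (by rw [hg.natDegree_map]; exact h2) hgc' hs' hδ' hd' hiso hy hz hD hN
  have hy1 : y' ∈ cyc0 (AlgebraicClosure k) (hE k (Pl A B)) := h1_cyc.2 hy'
  have hy2 : y' - y.1 ∈ ratEq (AlgebraicClosure k) (hE k (Pl A B)) := h1_rat.2 hrat
  exact ⟨⟨y', hy1⟩, c, hy2, ⟨R, l, hR, hOff, hV⟩, hNd⟩

/-- The number of odd terms. -/
theorem h1_even {ι : Type*} (S : Finset ι) (n : ι → ℕ) (p : ι → Prop)
    (h : ∀ v ∈ S, (Odd (n v) ↔ p v)) :
    Even (∑ v ∈ S, n v) ↔ Even (Nat.card {v : ι // v ∈ S ∧ p v}) := by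
  classical
  rw [Finset.even_sum_iff_even_card_odd]
  have h1 : Nat.card {v : ι // v ∈ S ∧ p v} =
      Nat.card {v : ι // v ∈ S.filter fun v => Odd (n v)} :=
    Nat.card_congr (Equiv.subtypeEquivRight fun v => by
      rw [Finset.mem_filter]
      exact and_congr_right fun hv => (h v hv).symm)
  rw [h1, Nat.card_eq_fintype_card, Fintype.card_coe]

/-- Real places and real embeddings. -/
theorem h1_real (F : Type) [Field F] [NumberField F] (ψ : F →+* ℝ) :
    ∃ (v : InfinitePlace F) (hv : v.IsReal), InfinitePlace.embedding_of_isReal hv = ψ := by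
  obtain ⟨v, hv, e, he⟩ := Hm.exists_real F F ψ
  refine ⟨v, hv, ?_⟩
  ext x
  have h1 : ((e.symm : v.Completion ≃+* ℝ) : v.Completion →+* ℝ)
      (algebraMap F v.Completion x) = ψ x :=
    (RingEquiv.symm_apply_eq e).2 (he x).symm
  rw [← h1]
  exact (real_hom_coe hv ((e.symm : v.Completion ≃+* ℝ) : v.Completion →+* ℝ) x).symm

end aux

variable {F : Type} [Field F] [NumberField F] {A B : Matrix (Fin 5) (Fin 5) F} {ι : Type} [Fintype ι]
  {D : F[X]} {K : ι → Type} [∀ i, Field (K i)] [∀ i, NumberField (K i)] [∀ i, Algebra F (K i)]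
  {θ : ∀ i, K i} {w : Fin 5 → F}

omit [Fintype ι] in
/-- The sum over the real embeddings according to the real places. -/
theorem h1_nR (I : Finset ι) (δ : ∀ i, (K i)ˣ) (R₀ : ∀ v : InfinitePlace F, (IK F v)[X])
    [Fintype {v : InfinitePlace F // v.IsReal}] :
    ∑ i ∈ I, nR (δ i) (Dq.SgN θ R₀ i) = ∑ v : {v : InfinitePlace F // v.IsReal}, ∑ i ∈ I,
      Nat.card {φ : K i →+* ℝ // φ.comp (algebraMap F (K i)) =
        InfinitePlace.embedding_of_isReal v.2 ∧ φ (δ i) < 0 ∧ Dq.SgN θ R₀ i φ} := by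
  classical
  rw [Finset.sum_comm]
  refine Finset.sum_congr rfl fun i _ => ?_
  have hfi : ∀ v : {v : InfinitePlace F // v.IsReal}, Finite {φ : K i →+* ℝ //
      φ.comp (algebraMap F (K i)) = InfinitePlace.embedding_of_isReal v.2 ∧
        φ (δ i) < 0 ∧ Dq.SgN θ R₀ i φ} := fun v => inferInstance
  rw [← Nat.card_sigma]
  have hch : ∀ φ : K i →+* ℝ, ∃ v : {v : InfinitePlace F // v.IsReal},
      InfinitePlace.embedding_of_isReal v.2 = φ.comp (algebraMap F (K i)) := fun φ => by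
    obtain ⟨v, hv, h⟩ := h1_real F (φ.comp (algebraMap F (K i)))
    exact ⟨⟨v, hv⟩, h⟩
  choose V hV using hch
  refine Nat.card_congr
    { toFun := fun φ => ⟨V φ.1, φ.1, (hV φ.1).symm, φ.2⟩
      invFun := fun x => ⟨x.2.1, x.2.2.2⟩
      left_inv := fun φ => rfl
      right_inv := ?_ }
  rintro ⟨v, φ, h, h'⟩
  have hv : V φ = v := by
    have h3 := hV φ
    rw [h] at h3
    refine Subtype.ext ?_
    rw [← InfinitePlace.mk_embedding (V φ).1, ← InfinitePlace.mk_embedding v.1]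
    congr 1
    ext x
    rw [← InfinitePlace.embedding_of_isReal_apply (V φ).2,
      ← InfinitePlace.embedding_of_isReal_apply v.2, h3]
  subst hv
  rfl

/-- The sum over one class. Proof: `g` is the product of the minimal polynomials over `I`. At every
`v ∈ S` with `Act`: `iso_v`, `rep_val` over `FK F v` gives a representative of `a.1 v` with a value `c v`,
`Nd d (c v)` iff `Nd d` of the norm of `P₀ v`, iff the number of the symbols of `P v` is even (`nd_near`,
`sym_v`). Without `Act`: `sym_v0`. The same at the real places: `iso_real_v`, `sym_r`, `sym_r0`. The real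
embeddings of `K i` according to their restrictions to `F`, as in `hyp_all`. -/
theorem hyp_g (hsm : Sm (AlgebraicClosure F) A B) (hS : Sp D K θ) (hn : D.natDegree = 5) {c : F}
    (hc : c ≠ 0) (hf : Dq.chp A B = C c * D) (hs : (Dq.chp A B).Separable) (δ : ∀ i, (K i)ˣ)
    (hδ : ∀ i, (δ i : K i) = aeval (θ i) (dl A B w)) (a : FA (Pl A B)) (I : Finset ι)
    (hI : (∏ i ∈ I, minpoly F (θ i)).natDegree = 2) {d : F} (hd0 : d ≠ 0) {s : F[X]}
    (hd : ∏ i ∈ I, minpoly F (θ i) ∣ dl A B w - C d * s ^ 2)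
    (ho : Orth A B w (∏ i ∈ I, minpoly F (θ i)) d a) :
    ∃ S₁ : Finset (HeightOneSpectrum (𝓞 F)), ∀ S, S₁ ⊆ S → ∀ P₀ R₀, RepA A B a S P₀ R₀ →
      ∃ e : HeightOneSpectrum (𝓞 F) → ℤᵐ⁰, (∀ v, e v ≠ 0) ∧
        ∀ (P : HeightOneSpectrum (𝓞 F) → F[X]) (a : HeightOneSpectrum (𝓞 F) → ∀ i, (K i)ˣ),
          (∀ v ∈ S, Dq.NearPol v (e v) (P₀ v) (P v) ∧ ∀ i, aeval (θ i) (P v) = (a v i : K i)) →
          Even (∑ i ∈ I, (∑ v ∈ S, nF v (a v i) (δ i) + nR (δ i) (Dq.SgN θ R₀ i))) := by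
  classical
  obtain ⟨g, hgI⟩ : ∃ g : F[X], g = ∏ i ∈ I, minpoly F (θ i) := ⟨_, rfl⟩
  rw [← hgI] at hI hd ho
  have hg : g.Monic := by
    rw [hgI]
    exact monic_prod_of_monic _ _ fun i _ => minpoly.monic (hS.int i)
  have hgD : g ∣ D := by
    rw [hgI, hS.prod]
    exact Finset.prod_dvd_prod_of_subset _ _ _ (Finset.subset_univ I)
  have hgc : g ∣ Dq.chp A B := by
    rw [hf]
    exact hgD.mul_left _
  have hcop : IsCoprime g (dl A B w) := by
    have h1 : IsCoprime D (dl A B w) := hS.isCoprime fun i => by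
      rw [← hδ]
      exact (δ i).ne_zero
    exact h1.of_isCoprime_of_dvd_left hgD
  have hgcv : ∀ (k : Type) [Field k] [Algebra F k],
      g.map (algebraMap F k) ∣ Dq.chp (A.map (algebraMap F k)) (B.map (algebraMap F k)) := by
    intro k _ _
    rw [← chp_map]
    exact Polynomial.map_dvd _ hgc
  obtain ⟨S₁, hS₁⟩ := ho
  refine ⟨S₁, fun S hSS P₀ R₀ hRep => ?_⟩
  -- representatives at the finite places
  have hfin : ∀ v : HeightOneSpectrum (𝓞 F), ∃ (z : Z1 (FK F v) (hE (FK F v) (Pl A B)))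
      (c : FK F v), v ∈ S → (G1.cls z = a.1 v ∧ (Act A B w g (FK F v) →
        Pr A B g (FK F v) z c ∧ (Nd (algebraMap F (FK F v) d) c ↔
          Nd (algebraMap F (FK F v) d) (Algebra.norm (FK F v)
            (AdjoinRoot.mk (g.map (algebraMap F (FK F v))) (P₀ v)))))) := by
    intro v
    by_cases hv : v ∈ S
    · obtain ⟨hev, y, z₀, hya, hz₀, hDat⟩ := hRep.fin v hv
      by_cases hact : Act A B w g (FK F v)
      · have hiso := iso_v v hg hI hgc hs hcop hd hact
        obtain ⟨z, c, h1, h2, h3⟩ := h1_rep hsm hg hI hgc hs hcop hd (FK F v) hiso hev y hz₀ hDat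
        exact ⟨z, c, fun _ => ⟨(h1_cls h1).trans hya, fun _ => ⟨h2, h3⟩⟩⟩
      · exact ⟨y, 1, fun _ => ⟨hya, fun h => absurd h hact⟩⟩
    · exact ⟨⟨0, zero_mem _⟩, 1, fun h => absurd h hv⟩
  have hinf : ∀ v : InfinitePlace F, ∃ (z : Z1 (IK F v) (hE (IK F v) (Pl A B)))
      (c : IK F v), v.IsReal → (G1b.cls z = a.2 v ∧ (Act A B w g (IK F v) →
        Pr A B g (IK F v) z c ∧ (Nd (algebraMap F (IK F v) d) c ↔
          Nd (algebraMap F (IK F v) d) (Algebra.norm (IK F v)
            (AdjoinRoot.mk (g.map (algebraMap F (IK F v))) (R₀ v)))))) := by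
    intro v
    by_cases hv : v.IsReal
    · obtain ⟨hev, y, z₀, hya, hz₀, hDat⟩ := hRep.inf v hv
      by_cases hact : Act A B w g (IK F v)
      · have hiso := iso_real_v v hv hg hI hgc hs hcop hd hact
        obtain ⟨z, c, h1, h2, h3⟩ := h1_rep hsm hg hI hgc hs hcop hd (IK F v) hiso hev y hz₀ hDat
        exact ⟨z, c, fun _ => ⟨(h1_clsb h1).trans hya, fun _ => ⟨h2, h3⟩⟩⟩
      · exact ⟨y, 1, fun _ => ⟨hya, fun h => absurd h hact⟩⟩
    · exact ⟨⟨0, zero_mem _⟩, 1, fun h => absurd h hv⟩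
  choose z c hz using hfin
  choose z' c' hz' using hinf
  have hO := hS₁ S hSS z z' c c'
    (fun v hv => ⟨(hz v hv).1, fun h => ((hz v hv).2 h).1⟩)
    (fun v hv => ⟨(hz' v hv).1, fun h => ((hz' v hv).2 h).1⟩)
  -- precision
  have hnear : ∀ v : HeightOneSpectrum (𝓞 F), ∃ e : ℤᵐ⁰, e ≠ 0 ∧ (v ∈ S → ∀ P : F[X],
      Dq.NearPol v e (P₀ v) P →
      (Nd (algebraMap F (FK F v) d) (Algebra.norm (FK F v)
        (AdjoinRoot.mk (g.map (algebraMap F (FK F v))) (P.map (algebraMap F (FK F v))))) ↔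
      Nd (algebraMap F (FK F v) d) (Algebra.norm (FK F v)
        (AdjoinRoot.mk (g.map (algebraMap F (FK F v))) (P₀ v))))) := by
    intro v
    by_cases hv : v ∈ S
    · obtain ⟨-, y, z₀, -, -, hDat⟩ := hRep.fin v hv
      have hch : CharZero (FK F v) :=
        charZero_of_injective_algebraMap (algebraMap F (FK F v)).injective
      obtain ⟨e, he0, he⟩ := nd_near v hg d (h1_cop (hgcv (FK F v)) hDat)
      exact ⟨e, he0, fun _ => he⟩
    · exact ⟨1, one_ne_zero, fun h => absurd h hv⟩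
  choose e he0 he using hnear
  refine ⟨e, he0, fun P a' hP => ?_⟩
  have hsum : (∑ i ∈ I, (∑ v ∈ S, nF v (a' v i) (δ i) + nR (δ i) (Dq.SgN θ R₀ i))) =
      (∑ v ∈ S, ∑ i ∈ I, nF v (a' v i) (δ i)) + ∑ i ∈ I, nR (δ i) (Dq.SgN θ R₀ i) := by
    rw [Finset.sum_add_distrib, Finset.sum_comm]
  -- the finite places
  have hA : Even (∑ v ∈ S, ∑ i ∈ I, nF v (a' v i) (δ i)) ↔
      Even (Nat.card {v : HeightOneSpectrum (𝓞 F) // v ∈ S ∧ Act A B w g (FK F v) ∧
          ¬ Nd (algebraMap F (FK F v) d) (c v)}) := by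
    refine h1_even S _ _ fun v hv => ?_
    obtain ⟨hnp, hPa⟩ := hP v hv
    by_cases hact : Act A B w g (FK F v)
    · have h1 := sym_v hS hδ I hgI hd0 hd v (P := P v) (a' v) fun i => (hPa i).symm
      have h2 := he v hv (P v) hnp
      have h3 := ((hz v hv).2 hact).2
      rw [← Nat.not_even_iff_odd, h1, h2, ← h3]
      exact ⟨fun h => ⟨hact, h⟩, fun h => h.2⟩
    · have h1 : ∑ i ∈ I, nF v (a' v i) (δ i) = 0 := by
        refine Finset.sum_eq_zero fun i hi => ?_
        exact sym_v0 hS hδ I hgI v (not_not.1 hact) (a' v) i hi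
      rw [h1]
      exact ⟨fun h => absurd h (by decide), fun h => absurd h.1 hact⟩
  -- the real places
  have hfR : Fintype {v : InfinitePlace F // v.IsReal} := Fintype.ofFinite _
  have hB : Even (∑ i ∈ I, nR (δ i) (Dq.SgN θ R₀ i)) ↔
      Even (Nat.card {v : InfinitePlace F // v.IsReal ∧ Act A B w g (IK F v) ∧
          ¬ Nd (algebraMap F (IK F v) d) (c' v)}) := by
    rw [h1_nR I δ R₀, h1_even Finset.univ _ (fun v : {v : InfinitePlace F // v.IsReal} =>
      Act A B w g (IK F v.1) ∧ ¬ Nd (algebraMap F (IK F v.1) d) (c' v.1))]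
    · have h1 : Nat.card {v : {v : InfinitePlace F // v.IsReal} // v ∈ Finset.univ ∧
          (Act A B w g (IK F v.1) ∧ ¬ Nd (algebraMap F (IK F v.1) d) (c' v.1))} =
          Nat.card {v : InfinitePlace F // v.IsReal ∧ Act A B w g (IK F v) ∧
          ¬ Nd (algebraMap F (IK F v) d) (c' v)} :=
        Nat.card_congr
          { toFun := fun v => ⟨v.1.1, v.1.2, v.2.2⟩
            invFun := fun v => ⟨⟨v.1, v.2.1⟩, Finset.mem_univ _, v.2.2⟩
            left_inv := fun v => rfl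
            right_inv := fun v => rfl }
      rw [h1]
    · rintro ⟨v, hv⟩ -
      obtain ⟨-, y, z₀, -, -, hDat⟩ := hRep.inf v hv
      have hch : CharZero (IK F v) :=
        charZero_of_injective_algebraMap (algebraMap F (IK F v)).injective
      have hco := h1_cop (hgcv (IK F v)) hDat
      let E : IK F v ≃+* ℝ := InfinitePlace.Completion.ringEquivRealOfIsReal hv
      have hE : ∀ x : F, E (algebraMap F (IK F v) x) = InfinitePlace.embedding_of_isReal hv x :=
        fun x => real_hom_coe hv (E : IK F v →+* ℝ) x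
      by_cases hact : Act A B w g (IK F v)
      · have h1 := sym_r hS hδ I hgI hI hd v (InfinitePlace.embedding_of_isReal hv) E hE hco hact
        have h3 := ((hz' v hv).2 hact).2
        have h4 : ∀ i, Nat.card {φ : K i →+* ℝ // φ.comp (algebraMap F (K i)) =
            InfinitePlace.embedding_of_isReal hv ∧ φ (δ i) < 0 ∧ Dq.SgN θ R₀ i φ} =
            Nat.card {φ : K i →+* ℝ // φ.comp (algebraMap F (K i)) =
            InfinitePlace.embedding_of_isReal hv ∧ φ (δ i) < 0 ∧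
            ((R₀ v).map (E : IK F v →+* ℝ)).eval (φ (θ i)) < 0} := by
          intro i
          refine Nat.card_congr (Equiv.subtypeEquivRight fun φ => ?_)
          refine and_congr_right fun hφ => and_congr_right fun _ => ?_
          exact sgn_iff hv (E : IK F v →+* ℝ) hE R₀ i φ hφ
        rw [← Nat.not_even_iff_odd, Finset.sum_congr rfl fun i _ => h4 i, h1, ← h3]
        exact ⟨fun h => ⟨hact, h⟩, fun h => h.2⟩
      · have h1 : ∑ i ∈ I, Nat.card {φ : K i →+* ℝ // φ.comp (algebraMap F (K i)) =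
            InfinitePlace.embedding_of_isReal hv ∧ φ (δ i) < 0 ∧ Dq.SgN θ R₀ i φ} = 0 := by
          refine Finset.sum_eq_zero fun i hi => ?_
          have : IsEmpty {φ : K i →+* ℝ // φ.comp (algebraMap F (K i)) =
            InfinitePlace.embedding_of_isReal hv ∧ φ (δ i) < 0 ∧ Dq.SgN θ R₀ i φ} :=
            ⟨fun φ => sym_r0 hS hδ I hgI v (InfinitePlace.embedding_of_isReal hv) E hE
              (not_not.1 hact) i hi φ.1 φ.2.1 φ.2.2.1⟩
          exact Nat.card_of_isEmpty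
        change Odd (∑ i ∈ I, Nat.card {φ : K i →+* ℝ // φ.comp (algebraMap F (K i)) =
            InfinitePlace.embedding_of_isReal hv ∧ φ (δ i) < 0 ∧ Dq.SgN θ R₀ i φ}) ↔ _
        rw [h1]
        exact ⟨fun h => absurd h (by decide), fun h => absurd h.1 hact⟩
  rw [hsum, Nat.even_add, hA, hB, ← Nat.even_add]
  exact hO

end Dr
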