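import Pool.Agent.Lib.MP_f80667_ag.Dr.Dl
import Pool.Agent.Lib.MP_f80667_ag.Dr.Vq

/-! Isotropic vectors of a degenerate member. -/

open IsDedekindDomain NumberField Polynomial

namespace Dr

open ZC Tq Dp

/-- Diagonalisation of a symmetric matrix. -/
theorem brI1_diag {K : Type*} [Field K] [CharZero K] {M : Matrix (Fin 5) (Fin 5) K}
    (hM : M.IsSymm) : ∃ (P : Matrix (Fin 5) (Fin 5) K) (a : Fin 5 → K), P.det ≠ 0 ∧
      P.transpose * M * P = Matrix.diagonal a := by
  classical
  let _ : Invertible (2 : K) := invertibleOfNonzero two_ne_zero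
  obtain ⟨v₀, hv₀⟩ := LinearMap.BilinForm.exists_orthogonal_basis
    (B := Matrix.toBilin' M) ⟨fun x y => by
      rw [RingHom.id_apply, Matrix.toBilin'_apply', Matrix.toBilin'_apply',
        Matrix.dotProduct_mulVec, dotProduct_comm, ← Matrix.mulVec_transpose, hM.eq]⟩
  have hf : Module.finrank K (Fin 5 → K) = 5 := Module.finrank_fin_fun K
  let v : Module.Basis (Fin 5) K (Fin 5 → K) := v₀.reindex (finCongr hf)
  have hv : ∀ i j, i ≠ j → v i ⬝ᵥ (M.mulVec (v j)) = 0 := by
    intro i j hij
    have h1 := hv₀ (i := (finCongr hf).symm i) (j := (finCongr hf).symm j)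
      (fun h => hij ((finCongr hf).symm.injective h))
    change Matrix.toBilin' M _ _ = 0 at h1
    rw [Matrix.toBilin'_apply'] at h1
    simpa [v] using h1
  let P : Matrix (Fin 5) (Fin 5) K := Matrix.of fun i j => v j i
  refine ⟨P, fun i => v i ⬝ᵥ (M.mulVec (v i)), ?_, ?_⟩
  · have h1 : P = (Pi.basisFun K (Fin 5)).toMatrix v := by
      ext i j
      rw [Module.Basis.toMatrix_apply, Pi.basisFun_repr]
      rfl
    have h2 : (Pi.basisFun K (Fin 5)).toMatrix v * v.toMatrix (Pi.basisFun K (Fin 5)) = 1 :=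
      Module.Basis.toMatrix_mul_toMatrix_flip _ _
    rw [← h1] at h2
    have h3 := congrArg Matrix.det h2
    rw [Matrix.det_mul, Matrix.det_one] at h3
    exact left_ne_zero_of_mul_eq_one h3
  · ext i j
    have h1 : (P.transpose * M * P) i j = v i ⬝ᵥ (M.mulVec (v j)) := by
      rw [Matrix.mul_assoc, Matrix.mul_apply]
      rfl
    rw [h1]
    by_cases hij : i = j
    · rw [hij, Matrix.diagonal_apply_eq]
    · rw [Matrix.diagonal_apply_ne _ hij, hv i j hij]

/-- A degenerate member over a field where forms in four variables whose determinant is not a square are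
isotropic. Proof: the radical is a line; an orthogonal basis of a complement; the product of the values
is `dl` up to squares (as in `tangent`). -/
theorem iso_member {k K : Type*} [Field k] [Field K] [CharZero K] [Algebra k K]
    (H : ∀ a : Fin 4 → K, (∀ i, a i ≠ 0) → ¬ IsSquare (∏ i, a i) →
      ∃ x : Fin 4 → K, x ≠ 0 ∧ ∑ i, a i * x i ^ 2 = 0)
    {A B : Matrix (Fin 5) (Fin 5) k} {w : Fin 5 → k} {e : K} (he : aeval e (Dq.chp A B) = 0)
    (hs : aeval e (derivative (Dq.chp A B)) ≠ 0) (hδ : ¬ IsSquare (aeval e (dl A B w))) :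
    ∃ R : Fin 5 → K, mQ A B 1 (-e) R = 0 ∧ ∃ y, mB A B 1 (-e) R y ≠ 0 := by
  classical
  have _ := hs
  obtain ⟨M, hM⟩ : ∃ M : Matrix (Fin 5) (Fin 5) K, M = (A + A.transpose).map (algebraMap k K) -
      e • (B + B.transpose).map (algebraMap k K) := ⟨_, rfl⟩
  have hdet : M.det = 0 := by rw [hM, ← aeval_chp, he]
  have hB : ∀ x y : Fin 5 → K, mB A B 1 (-e) x y = x ⬝ᵥ (M.mulVec y) := by
    intro x y
    rw [mB, vq_bv, vq_bv, hM, Matrix.sub_mulVec, Matrix.smul_mulVec, dotProduct_sub,
      dotProduct_smul, smul_eq_mul]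
    ring
  have hsymm : M.IsSymm := by
    rw [Matrix.IsSymm, hM]
    ext i j
    simp only [Matrix.transpose_apply, Matrix.sub_apply, Matrix.smul_apply, Matrix.map_apply,
      Matrix.add_apply]
    rw [add_comm (A j i), add_comm (B j i)]
  -- the value of `dl`
  have hdl : aeval e (dl A B w) = (fun i => algebraMap k K (w i)) ⬝ᵥ
      (M.adjugate.mulVec fun i => algebraMap k K (w i)) := by
    have h1 : aeval e (dl A B w) = ((dl A B w).map (algebraMap k K)).eval e := by
      rw [aeval_def, eval₂_eq_eval_map]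
    rw [h1, dl_map, dl, ← coe_evalRingHom, RingHom.map_dotProduct]
    have h2 : (⇑(evalRingHom e) ∘ fun i => C (algebraMap k K (w i))) =
        fun i => algebraMap k K (w i) := by
      funext i
      simp only [Function.comp_apply, coe_evalRingHom, eval_C]
    rw [h2]
    have h3 : (evalRingHom e).mapMatrix
        ((A.map (algebraMap k K) + (A.map (algebraMap k K)).transpose).map C -
          (X : K[X]) • (B.map (algebraMap k K) + (B.map (algebraMap k K)).transpose).map C) =
        M := by
      rw [hM]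
      ext i j
      simp [RingHom.mapMatrix_apply, Matrix.sub_apply, Matrix.smul_apply, Matrix.map_apply]
    have h4 : (⇑(evalRingHom e) ∘
        ((((A.map (algebraMap k K) + (A.map (algebraMap k K)).transpose).map C -
          (X : K[X]) • (B.map (algebraMap k K) + (B.map (algebraMap k K)).transpose).map
            C).adjugate).mulVec fun i => C (algebraMap k K (w i)))) =
        M.adjugate.mulVec fun i => algebraMap k K (w i) := by
      funext i
      rw [Function.comp_apply, RingHom.map_mulVec, ← RingHom.mapMatrix_apply,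
        RingHom.map_adjugate, h3, h2]
    rw [h4]
  obtain ⟨P, a, hP, hPM⟩ := brI1_diag hsymm
  obtain ⟨W, hW⟩ : ∃ W : Fin 5 → K, W = fun i => algebraMap k K (w i) := ⟨_, rfl⟩
  rw [← hW] at hdl
  have hadj : P.det ^ 2 * (W ⬝ᵥ (M.adjugate.mulVec W)) =
      ∑ i, (∏ j ∈ Finset.univ.erase i, a j) * ((P.transpose.mulVec W) i) ^ 2 := by
    have h1 : P * (Matrix.diagonal a).adjugate * P.transpose = P.det ^ 2 • M.adjugate := by
      rw [← hPM, Matrix.adjugate_mul_distrib, Matrix.adjugate_mul_distrib, ← Matrix.mul_assoc,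
        ← Matrix.mul_assoc, Matrix.mul_adjugate, Matrix.mul_assoc _ (P.transpose).adjugate,
        Matrix.adjugate_mul, Matrix.det_transpose]
      simp only [Matrix.smul_mul, Matrix.mul_smul, Matrix.one_mul, Matrix.mul_one, smul_smul]
      rw [pow_two]
    have h2 : P.det ^ 2 * (W ⬝ᵥ (M.adjugate.mulVec W)) =
        W ⬝ᵥ ((P * (Matrix.diagonal a).adjugate * P.transpose).mulVec W) := by
      rw [h1, Matrix.smul_mulVec, dotProduct_smul, smul_eq_mul]
    rw [h2, Matrix.mul_assoc, ← Matrix.mulVec_mulVec, ← Matrix.mulVec_mulVec,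
      Matrix.dotProduct_mulVec, ← Matrix.mulVec_transpose, Matrix.adjugate_diagonal]
    simp only [dotProduct, Matrix.mulVec_diagonal]
    refine Finset.sum_congr rfl fun i _ => ?_
    ring
  have hprod : ∏ i, a i = 0 := by
    have h1 := congrArg Matrix.det hPM
    rw [Matrix.det_mul, Matrix.det_mul, hdet, mul_zero, zero_mul, Matrix.det_diagonal] at h1
    exact h1.symm
  obtain ⟨i₀, -, hi₀⟩ := Finset.prod_eq_zero_iff.1 hprod
  have hsum : ∑ i, (∏ j ∈ Finset.univ.erase i, a j) * ((P.transpose.mulVec W) i) ^ 2 =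
      (∏ i, a (i₀.succAbove i)) * ((P.transpose.mulVec W) i₀) ^ 2 := by
    rw [Finset.sum_eq_single i₀]
    · congr 1
      have h1 : (Finset.univ : Finset (Fin 5)).erase i₀ =
          Finset.univ.map i₀.succAboveEmb := by
        ext j
        rw [Finset.mem_erase, Finset.mem_map]
        constructor
        · rintro ⟨h2, -⟩
          obtain ⟨l, hl⟩ := Fin.exists_succAbove_eq h2
          exact ⟨l, Finset.mem_univ _, hl⟩
        · rintro ⟨l, -, rfl⟩
          exact ⟨Fin.succAbove_ne i₀ l, Finset.mem_univ _⟩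
      rw [h1, Finset.prod_map]
      rfl
    · intro i _ hi
      rw [Finset.prod_eq_zero (Finset.mem_erase.2 ⟨hi.symm, Finset.mem_univ _⟩) hi₀, zero_mul]
    · intro h
      exact absurd (Finset.mem_univ _) h
  have hsq : ¬ IsSquare (∏ i, a (i₀.succAbove i)) := by
    rintro ⟨r, hr⟩
    refine hδ ⟨r * (P.transpose.mulVec W) i₀ / P.det, ?_⟩
    rw [hdl]
    rw [hsum, hr] at hadj
    field_simp
    linear_combination hadj
  have hne : ∀ i, a (i₀.succAbove i) ≠ 0 := by
    intro i hi
    refine hsq ⟨0, ?_⟩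
    rw [mul_zero]
    exact Finset.prod_eq_zero (Finset.mem_univ i) hi
  obtain ⟨x, hx0, hx⟩ := H _ hne hsq
  obtain ⟨i₁, hi₁⟩ := Function.ne_iff.1 hx0
  let X : Fin 5 → K := i₀.insertNth 0 x
  have hD : ∀ y : Fin 5 → K, mB A B 1 (-e) (P.mulVec X) (P.mulVec y) =
      ∑ i, a i * (X i * y i) := by
    intro y
    rw [hB, Matrix.mulVec_mulVec, dotProduct_comm, Matrix.dotProduct_mulVec,
      ← Matrix.mulVec_transpose, Matrix.mulVec_mulVec, ← Matrix.mul_assoc, hPM, dotProduct_comm]
    simp only [dotProduct, Matrix.mulVec_diagonal]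
    refine Finset.sum_congr rfl fun i _ => ?_
    ring
  have hXX : ∑ i, a i * (X i * X i) = 0 := by
    rw [Fin.sum_univ_succAbove _ i₀]
    simp only [X, Fin.insertNth_apply_same, Fin.insertNth_apply_succAbove, mul_zero, zero_add]
    rw [← hx]
    refine Finset.sum_congr rfl fun i _ => ?_
    ring
  refine ⟨P.mulVec X, ?_, P.mulVec (Pi.single (i₀.succAbove i₁) 1), ?_⟩
  · have h1 := mB_self (A := A) (B := B) 1 (-e) (P.mulVec X)
    rw [hD, hXX] at h1
    exact (mul_eq_zero.1 h1.symm).resolve_left two_ne_zero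
  · rw [hD, Finset.sum_eq_single (i₀.succAbove i₁)]
    · rw [Pi.single_eq_same, mul_one]
      simp only [X, Fin.insertNth_apply_succAbove]
      exact mul_ne_zero (hne i₁) hi₁
    · intro i _ hi
      rw [Pi.single_eq_of_ne hi, mul_zero, mul_zero]
    · intro h
      exact absurd (Finset.mem_univ _) h

end Dr
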