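import Pool.Agent.Lib.MP_f80667_ag.Dr.BrI1

/-! Isotropic vectors, `g` with two zeros. -/

open IsDedekindDomain NumberField Polynomial

namespace Dr

open ZC Tq Dp

/-- A monic polynomial of degree two which is not irreducible splits. -/
theorem brI2_split {k : Type*} [Field k] {g : k[X]} (hg : g.Monic) (h2 : g.natDegree = 2)
    (hi : ¬ Irreducible g) : ∃ a b : k, g = (X - C a) * (X - C b) := by
  rw [hg.irreducible_iff_roots_eq_zero_of_degree_le_three (by omega) (by omega)] at hi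
  obtain ⟨a, ha⟩ := Multiset.exists_mem_of_ne_zero hi
  have ha' : g.IsRoot a := isRoot_of_mem_roots ha
  obtain ⟨q, hq⟩ := dvd_iff_isRoot.2 ha'
  have hqm : q.Monic := (monic_X_sub_C a).of_mul_monic_left (by rw [← hq]; exact hg)
  have hq1 : q.natDegree = 1 := by
    have h3 := (monic_X_sub_C a).natDegree_mul hqm
    rw [← hq, h2, natDegree_X_sub_C] at h3
    omega
  refine ⟨a, -q.coeff 0, ?_⟩
  rw [hq, C_neg, sub_neg_eq_add]
  congr 1
  have h4 := hqm.eq_X_add_C hq1
  exact h4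

/-- Points of a product of two fields. -/
theorem brI2_glue {k : Type*} [Field k] {a b : k} (hab : a ≠ b) (x y : k) :
    ∃ p : k[X], p.eval a = x ∧ p.eval b = y := by
  have h1 := sub_ne_zero.2 hab
  have h2 := sub_ne_zero.2 hab.symm
  refine ⟨C (x / (a - b)) * (X - C b) + C (y / (b - a)) * (X - C a), ?_, ?_⟩
  · rw [eval_add, eval_mul, eval_mul, eval_C, eval_C, eval_sub, eval_sub, eval_X, eval_C, eval_C,
      sub_self, mul_zero, add_zero, div_mul_cancel₀ _ h1]
  · rw [eval_add, eval_mul, eval_mul, eval_C, eval_C, eval_sub, eval_sub, eval_X, eval_C, eval_C,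
      sub_self, mul_zero, zero_add, div_mul_cancel₀ _ h2]

/-- The case of a field `k` over which `g` has two zeros. Proof: `k[T] / g = k × k`, `iso_member` at both
zeros: `dl = d s²` there. -/
theorem iso_split {k : Type*} [Field k] [CharZero k]
    (H : ∀ a : Fin 4 → k, (∀ i, a i ≠ 0) → ¬ IsSquare (∏ i, a i) →
      ∃ x : Fin 4 → k, x ≠ 0 ∧ ∑ i, a i * x i ^ 2 = 0)
    {A B : Matrix (Fin 5) (Fin 5) k} {w : Fin 5 → k} {g s : k[X]} {d : k} (hg : g.Monic)
    (h2 : g.natDegree = 2) (hgc : g ∣ Dq.chp A B) (hs : (Dq.chp A B).Separable)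
    (hδ : IsCoprime g (dl A B w)) (hd : g ∣ dl A B w - C d * s ^ 2) (hd' : ¬ IsSquare d)
    (hi : ¬ Irreducible g) :
    ∃ R : Fin 5 → AdjoinRoot g, mQ A B 1 (-(AdjoinRoot.root g)) R = 0 ∧
      ∃ y, IsUnit (mB A B 1 (-(AdjoinRoot.root g)) R y) := by
  obtain ⟨a, b, rfl⟩ := brI2_split hg h2 hi
  set g : k[X] := (X - C a) * (X - C b) with hgdef
  have hab : a ≠ b := by
    rintro rfl
    have h3 := hs.squarefree (X - C a) hgc
    exact not_isUnit_X_sub_C a h3
  have hev : ∀ e : k, eval₂ (RingHom.id k) e g = 0 ↔ e = a ∨ e = b := by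
    intro e
    rw [hgdef, eval₂_mul, eval₂_sub, eval₂_sub, eval₂_X, eval₂_C, eval₂_C, mul_eq_zero,
      sub_eq_zero, sub_eq_zero]
    exact Iff.rfl
  -- the member at a zero of `g`
  have key : ∀ e : k, e = a ∨ e = b → ∃ R : Fin 5 → k, mQ A B 1 (-e) R = 0 ∧
      ∃ y, mB A B 1 (-e) R y ≠ 0 := by
    intro e he
    have hge : g.eval e = 0 := (hev e).2 he
    have hce : (Dq.chp A B).eval e = 0 := by
      obtain ⟨q, hq⟩ := hgc
      rw [hq, eval_mul, hge, zero_mul]
    have hde : (dl A B w).eval e ≠ 0 := by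
      intro h0
      obtain ⟨u, v, huv⟩ := hδ
      have h3 := congrArg (eval e) huv
      rw [eval_add, eval_mul, hge, mul_zero, eval_mul, h0, mul_zero, add_zero, eval_one] at h3
      exact zero_ne_one h3
    have hds : (dl A B w).eval e = d * (s.eval e) ^ 2 := by
      obtain ⟨q, hq⟩ := hd
      have h3 := congrArg (eval e) hq
      rw [eval_sub, eval_mul, eval_C, eval_pow, eval_mul, hge, zero_mul, sub_eq_zero] at h3
      exact h3
    refine iso_member (k := k) (K := k) H (w := w) ?_ ?_ ?_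
    · rw [coe_aeval_eq_eval]
      exact hce
    · rw [coe_aeval_eq_eval]
      exact hs.eval₂_derivative_ne_zero (RingHom.id k) hce
    · rw [coe_aeval_eq_eval, hds]
      rintro ⟨r, hr⟩
      have hse : s.eval e ≠ 0 := by
        intro h0
        rw [h0] at hds
        exact hde (by rw [hds]; ring)
      refine hd' ⟨r / s.eval e, ?_⟩
      field_simp
      rw [hr]
      ring
  obtain ⟨Ra, hRa, ya, hya⟩ := key a (Or.inl rfl)
  obtain ⟨Rb, hRb, yb, hyb⟩ := key b (Or.inr rfl)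
  -- evaluation
  let fa : AdjoinRoot g →ₐ[k] k := AdjoinRoot.liftAlgHom g (AlgHom.id k k) a
    ((hev a).2 (Or.inl rfl))
  let fb : AdjoinRoot g →ₐ[k] k := AdjoinRoot.liftAlgHom g (AlgHom.id k k) b
    ((hev b).2 (Or.inr rfl))
  have hfa : ∀ p : k[X], fa (AdjoinRoot.mk g p) = p.eval a := fun p => rfl
  have hfb : ∀ p : k[X], fb (AdjoinRoot.mk g p) = p.eval b := fun p => rfl
  have hra : fa (AdjoinRoot.root g) = a := by
    rw [AdjoinRoot.root, hfa, eval_X]
  have hrb : fb (AdjoinRoot.root g) = b := by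
    rw [AdjoinRoot.root, hfb, eval_X]
  have hsur : ∀ x y : k, ∃ z : AdjoinRoot g, fa z = x ∧ fb z = y := by
    intro x y
    obtain ⟨p, hp, hp'⟩ := brI2_glue hab x y
    exact ⟨AdjoinRoot.mk g p, hp, hp'⟩
  have hinj : ∀ z : AdjoinRoot g, fa z = 0 → fb z = 0 → z = 0 := by
    intro z
    induction z using AdjoinRoot.induction_on with
    | ih p =>
      intro h3 h4
      rw [hfa] at h3
      rw [hfb] at h4
      rw [AdjoinRoot.mk_eq_zero, hgdef]
      refine IsCoprime.mul_dvd ?_ (dvd_iff_isRoot.2 h3) (dvd_iff_isRoot.2 h4)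
      exact isCoprime_X_sub_C_of_isUnit_sub (sub_ne_zero.2 hab).isUnit
  choose R hR1 hR2 using fun i => hsur (Ra i) (Rb i)
  choose y hy1 hy2 using fun i => hsur (ya i) (yb i)
  have hQa : fa (mQ A B 1 (-(AdjoinRoot.root g)) R) = 0 := by
    rw [← mQ_hom, map_one, map_neg, hra]
    simp only [hR1]
    exact hRa
  have hQb : fb (mQ A B 1 (-(AdjoinRoot.root g)) R) = 0 := by
    rw [← mQ_hom, map_one, map_neg, hrb]
    simp only [hR2]
    exact hRb
  have hBa : fa (mB A B 1 (-(AdjoinRoot.root g)) R y) = mB A B 1 (-a) Ra ya := by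
    rw [← mB_hom, map_one, map_neg, hra]
    simp only [hR1, hy1]
  have hBb : fb (mB A B 1 (-(AdjoinRoot.root g)) R y) = mB A B 1 (-b) Rb yb := by
    rw [← mB_hom, map_one, map_neg, hrb]
    simp only [hR2, hy2]
  refine ⟨R, hinj _ hQa hQb, y, ?_⟩
  obtain ⟨z, hz1, hz2⟩ := hsur (mB A B 1 (-a) Ra ya)⁻¹ (mB A B 1 (-b) Rb yb)⁻¹
  refine IsUnit.of_mul_eq_one z (sub_eq_zero.1 (hinj _ ?_ ?_))
  · rw [map_sub, map_mul, map_one, hBa, hz1, mul_inv_cancel₀ hya, sub_self]
  · rw [map_sub, map_mul, map_one, hBb, hz2, mul_inv_cancel₀ hyb, sub_self]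

end Dr
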