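import Pool.Agent.Lib.MP_f80667_ag.Dr.BrD
import Pool.Agent.Lib.MP_f80667_ag.Dp.LmA

/-! The value at the two points of a line. -/

open Polynomial
open scoped LinearAlgebra.Projectivization

namespace Dr

open ZC Tq Dp

/-- Two zeros of a binary quadratic form and two linear forms. Proof: the form is
`κ (r₁ X - s₁ Y) (r₂ X - s₂ Y)` up to a constant. (Over a ring `E` over `Ω` for the coefficients of the linear
forms.) `b₀ s² + b₁ s r + b₂ r²` vanishes at `(s₁, r₁)`, `(s₂, r₂)` and is the product of the two linear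
forms: `b₀ = κ r₁ r₂`, `b₁ = -κ (s₁ r₂ + s₂ r₁)`, `b₂ = κ s₁ s₂`. Then
`κ ∏ (α s_i + β r_i) = b₀ β² - b₁ α β + b₂ α²`. -/
theorem bin_prod {E : Type*} [CommRing E] (κ s₁ r₁ s₂ r₂ α β : E) :
    κ * ((α * s₁ + β * r₁) * (α * s₂ + β * r₂)) =
      (κ * (r₁ * r₂)) * β ^ 2 - (-(κ * (s₁ * r₂ + s₂ * r₁))) * (α * β) + (κ * (s₁ * s₂)) * α ^ 2 := by
  ring

/-- The zeros of a binary quadratic form over an algebraically closed field. -/
theorem BrL_fac {Ω : Type} [Field Ω] [IsAlgClosed Ω] [CharZero Ω] {b₀ b₁ b₂ : Ω}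
    (h : ¬ (b₀ = 0 ∧ b₁ = 0 ∧ b₂ = 0)) : ∃ κ s₁ r₁ s₂ r₂ : Ω, κ ≠ 0 ∧ ¬ (s₁ = 0 ∧ r₁ = 0) ∧
      ¬ (s₂ = 0 ∧ r₂ = 0) ∧ b₀ = κ * (r₁ * r₂) ∧ b₁ = -(κ * (s₁ * r₂ + s₂ * r₁)) ∧
      b₂ = κ * (s₁ * s₂) := by
  by_cases h0 : b₀ = 0
  · refine ⟨1, 1, 0, b₂, -b₁, one_ne_zero, fun h1 => one_ne_zero h1.1, fun h1 => ?_, ?_, ?_, ?_⟩
    · exact h ⟨h0, neg_eq_zero.1 h1.2, h1.1⟩
    · rw [h0]
      ring
    · ring
    · ring
  · obtain ⟨d, hd⟩ := IsAlgClosed.exists_pow_nat_eq (b₁ ^ 2 - 4 * b₀ * b₂) (n := 2) two_pos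
    refine ⟨b₀, (-b₁ + d) / (2 * b₀), 1, (-b₁ - d) / (2 * b₀), 1, h0, fun h1 => one_ne_zero h1.2,
      fun h1 => one_ne_zero h1.2, ?_, ?_, ?_⟩
    · ring
    · field_simp
      ring
    · field_simp
      linear_combination hd

theorem BrL_lin {k : Type} [Field k] {A B : Matrix (Fin 5) (Fin 5) k} {g : k[X]}
    {R : Fin 5 → AdjoinRoot g} {Ω : Type} [Field Ω] [Algebra k Ω] (s r : Ω) (p x : Fin 5 → Ω) :
    Lf A B g R (s • p + r • x) = AdjoinRoot.of _ s * Lf A B g R p +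
      AdjoinRoot.of _ r * Lf A B g R x := by
  rw [Lf, Lf, Lf, ← mB_smul_right, ← mB_smul_right, ← mB_add_right]
  congr 1
  funext i
  simp only [Pi.add_apply, Pi.smul_apply, smul_eq_mul, map_add, map_mul]

theorem BrL_norm {Ω : Type} [Field Ω] {g : Polynomial Ω} (hg : g.Monic) (h2 : g.natDegree = 2) (c : Ω) :
    Algebra.norm Ω (AdjoinRoot.of g c) = c ^ 2 := by
  have h1 := Algebra.norm_algebraMap_of_basis (AdjoinRoot.powerBasis' hg).basis c
  rw [AdjoinRoot.algebraMap_eq] at h1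
  rw [h1, Fintype.card_fin, AdjoinRoot.powerBasis'_dim, h2]

variable {k : Type} [Field k] [CharZero k] {A B : Matrix (Fin 5) (Fin 5) k} {g : k[X]}
  {R : Fin 5 → AdjoinRoot g} {l : Fin 5 → k} {Ω : Type} [Field Ω] [Algebra k Ω] [IsAlgClosed Ω]

/-- **The value at the two points of a line over `Ω`.** `u_R = L (x) p - L (p) x` with `L = Lf`, and
`u_l = l (x) p - l (p) x`. Proof: `t = sq y₁ y₂` with `y₁`, `y₂` on the line, the zeros of `B` on it (`B` does
not vanish on the line, since `A = τ B` there and the line is not in `X`), and `Ph t = [y₁] + [y₂]`; `bin_prod`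
for `α = L (p)`, `β = L (x)` over `E = Ω[T] / g`: `κ L (y₁) L (y₂) = B (u_R)`, and for `l`:
`κ l (y₁) l (y₂) = B (u_l)`; the norm of `κ` is `κ²`. -/
theorem val_line (hg : g.Monic) (h2 : g.natDegree = 2) {τ : Ω} {p x : Fin 5 → Ω}
    {t : ℙ Ω (Fin (5 * 5) → Ω)} (ht : Lm A B 1 (-τ) p x t) (hO : Off A B g R l (Ph t)) :
    qv B ((∑ i, algebraMap k Ω (l i) * x i) • p - (∑ i, algebraMap k Ω (l i) * p i) • x) ≠ 0 ∧
    Vc A B g R l (Ph t) *
      (qv B ((∑ i, algebraMap k Ω (l i) * x i) • p - (∑ i, algebraMap k Ω (l i) * p i) • x)) ^ 2 =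
      Algebra.norm Ω (qv B (Lf A B g R x • (fun i => AdjoinRoot.of (g.map (algebraMap k Ω)) (p i)) -
        Lf A B g R p • fun i => AdjoinRoot.of (g.map (algebraMap k Ω)) (x i))) := by
  have hc0 : CharZero Ω := charZero_of_injective_algebraMap (algebraMap k Ω).injective
  -- the tensor is that of `B`
  obtain ⟨htB, htt⟩ : ∃ h : tn B p x ≠ 0, t = Projectivization.mk Ω (tn B p x) h := by
    obtain ⟨H, hH, h0, htt⟩ := ht.ten
    rcases hH with rfl | rfl
    · have h1 := ht.tn_rel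
      rw [one_smul, neg_smul, ← sub_eq_add_neg, sub_eq_zero] at h1
      have hB : tn B p x ≠ 0 := by
        intro h3
        rw [h3, smul_zero] at h1
        exact h0 h1
      refine ⟨hB, ?_⟩
      rw [htt, Projectivization.mk_eq_mk_iff']
      exact ⟨τ, h1.symm⟩
    · exact ⟨h0, htt⟩
  obtain ⟨κ, s₁, r₁, s₂, r₂, hκ, hn1, hn2, e0, e1, e2⟩ := BrL_fac (b₀ := qv B p) (b₁ := bv B p x)
    (b₂ := qv B x) (by
      rintro ⟨h0, h1, h3⟩
      apply htB
      rw [Tq.tn, h0, h1, h3, zero_smul, zero_smul, zero_smul, sub_zero, add_zero])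
  have hind := LinearIndependent.pair_iff.1 ht.ind
  obtain ⟨y₁, hy₁⟩ : ∃ y₁, y₁ = s₁ • p + r₁ • x := ⟨_, rfl⟩
  obtain ⟨y₂, hy₂⟩ : ∃ y₂, y₂ = s₂ • p + r₂ • x := ⟨_, rfl⟩
  have hy1 : y₁ ≠ 0 := fun h => hn1 (hind _ _ (by rw [← hy₁, h]))
  have hy2 : y₂ ≠ 0 := fun h => hn2 (hind _ _ (by rw [← hy₂, h]))
  have hs : Tq.sq y₁ y₂ ≠ 0 := sq_ne_zero hy1 hy2
  have hten : tn B p x = κ • Tq.sq y₁ y₂ := by
    rw [hy₁, hy₂, sq_lin, Tq.tn, e0, e1, e2]
    module
  have hPh : Ph t = Finsupp.single (Projectivization.mk Ω y₁ hy1) 1 +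
      Finsupp.single (Projectivization.mk Ω y₂ hy2) 1 := by
    rw [← Ph_mk hy1 hy2 hs, htt]
    congr 1
    rw [Projectivization.mk_eq_mk_iff']
    exact ⟨κ, hten.symm⟩
  -- the support
  have hsup : ∀ y, y = Projectivization.mk Ω y₁ hy1 ∨ y = Projectivization.mk Ω y₂ hy2 →
      y ∈ (Ph t).support := by
    intro y hy
    rw [Finsupp.mem_support_iff, hPh, Finsupp.add_apply]
    have h1 : ∀ z : ℙ Ω (Fin 5 → Ω), 0 ≤ (Finsupp.single z (1 : ℤ)) y := fun z => by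
      classical
      rw [Finsupp.single_apply]
      split_ifs
      · exact zero_le_one
      · exact le_rfl
    have h3 := h1 (Projectivization.mk Ω y₁ hy1)
    have h4 := h1 (Projectivization.mk Ω y₂ hy2)
    rcases hy with rfl | rfl
    · rw [Finsupp.single_eq_same] at h3 ⊢
      omega
    · rw [Finsupp.single_eq_same] at h4 ⊢
      omega
  have hO1 : Off A B g R l (Finsupp.single (Projectivization.mk Ω y₁ hy1) (1 : ℤ)) := by
    intro y hy
    have h1 : y = Projectivization.mk Ω y₁ hy1 :=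
      Finset.mem_singleton.1 (Finsupp.support_single_subset hy)
    exact hO y (hsup y (Or.inl h1))
  have hO2 : Off A B g R l (Finsupp.single (Projectivization.mk Ω y₂ hy2) (1 : ℤ)) := by
    intro y hy
    have h1 : y = Projectivization.mk Ω y₂ hy2 :=
      Finset.mem_singleton.1 (Finsupp.support_single_subset hy)
    exact hO y (hsup y (Or.inr h1))
  have hrep : ∀ {y : Fin 5 → Ω} (hy : y ≠ 0),
      vl A B g R l (Projectivization.mk Ω y hy).rep = vl A B g R l y ∧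
      (∑ i, algebraMap k Ω (l i) * (Projectivization.mk Ω y hy).rep i ≠ 0 →
        ∑ i, algebraMap k Ω (l i) * y i ≠ 0) := by
    intro y hy
    obtain ⟨c, hc⟩ := Projectivization.exists_smul_eq_mk_rep Ω y hy
    rw [← hc]
    refine ⟨vl_smul hg h2 c.ne_zero y, fun h1 h3 => h1 ?_⟩
    have h4 : ∀ i, algebraMap k Ω (l i) * (c • y) i = (c : Ω) * (algebraMap k Ω (l i) * y i) := by
      intro i
      rw [Units.smul_def, Pi.smul_apply, smul_eq_mul]
      ring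
    rw [Finset.sum_congr rfl fun i _ => h4 i, ← Finset.mul_sum, h3, mul_zero]
  have hl1 := (hrep hy1).2 (hO _ (hsup _ (Or.inl rfl))).2
  have hl2 := (hrep hy2).2 (hO _ (hsup _ (Or.inr rfl))).2
  have hVc : Vc A B g R l (Ph t) = vl A B g R l y₁ * vl A B g R l y₂ := by
    rw [hPh, (Vc_add hO1 hO2).2, Vc_single, Vc_single, zpow_one, zpow_one, (hrep hy1).1,
      (hrep hy2).1]
  -- the linear form
  obtain ⟨α, hα⟩ : ∃ α, α = ∑ i, algebraMap k Ω (l i) * p i := ⟨_, rfl⟩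
  obtain ⟨β, hβ⟩ : ∃ β, β = ∑ i, algebraMap k Ω (l i) * x i := ⟨_, rfl⟩
  have hlin : ∀ s r : Ω, ∑ i, algebraMap k Ω (l i) * (s • p + r • x) i = α * s + β * r := by
    intro s r
    rw [hα, hβ, Finset.sum_mul, Finset.sum_mul, ← Finset.sum_add_distrib]
    refine Finset.sum_congr rfl fun i _ => ?_
    simp only [Pi.add_apply, Pi.smul_apply, smul_eq_mul]
    ring
  have hq : qv B (β • p - α • x) = κ * ((α * s₁ + β * r₁) * (α * s₂ + β * r₂)) := by
    rw [bin_prod, ← e0, ← e1, ← e2, sub_eq_add_neg, ← neg_smul, qv_lin]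
    ring
  rw [hy₁, hlin] at hl1
  rw [hy₂, hlin] at hl2
  rw [← hα, ← hβ]
  refine ⟨?_, ?_⟩
  · rw [hq]
    exact mul_ne_zero hκ (mul_ne_zero hl1 hl2)
  -- the norm
  have hgm : (g.map (algebraMap k Ω)).Monic := hg.map _
  have hgd : (g.map (algebraMap k Ω)).natDegree = 2 := by rw [hg.natDegree_map, h2]
  have hof : ∀ y : Fin 5 → Ω, qv B (fun i => AdjoinRoot.of (g.map (algebraMap k Ω)) (y i)) =
      AdjoinRoot.of (g.map (algebraMap k Ω)) (qv B y) := fun y =>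
    qv_hom (AdjoinRoot.ofAlgHom k (g.map (algebraMap k Ω))) y
  have hofb : bv B (fun i => AdjoinRoot.of (g.map (algebraMap k Ω)) (p i))
      (fun i => AdjoinRoot.of (g.map (algebraMap k Ω)) (x i)) =
      AdjoinRoot.of (g.map (algebraMap k Ω)) (bv B p x) :=
    bv_hom (AdjoinRoot.ofAlgHom k (g.map (algebraMap k Ω))) p x
  have hN : qv B (Lf A B g R x • (fun i => AdjoinRoot.of (g.map (algebraMap k Ω)) (p i)) -
      Lf A B g R p • fun i => AdjoinRoot.of (g.map (algebraMap k Ω)) (x i)) =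
      AdjoinRoot.of (g.map (algebraMap k Ω)) κ * (Lf A B g R y₁ * Lf A B g R y₂) := by
    rw [hy₁, hy₂, BrL_lin, BrL_lin, sub_eq_add_neg, ← neg_smul, qv_lin, hof, hof, hofb, e0, e1, e2]
    simp only [map_mul, map_neg, map_add]
    ring
  rw [hN, map_mul, map_mul, BrL_norm hgm hgd, hVc, hq, vl, vl, nh, nh]
  rw [hy₁, hlin, hy₂, hlin]
  field_simp

end Dr
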