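import Pool.Agent.Lib.MP_f80667_ag.Dr.BrL
import Pool.Agent.Lib.MP_f80667_ag.Dr.BrF

/-! The value at the points of a line over a finite extension. -/

open Polynomial
open scoped LinearAlgebra.Projectivization

namespace Dr

open ZC Tq Dp

variable {k : Type} [Field k] [CharZero k] {A B : Matrix (Fin 5) (Fin 5) k} {w : Fin 5 → k}
  {g s : k[X]} {d : k} {R : Fin 5 → AdjoinRoot g} {l : Fin 5 → k} {Ω : Type} [Field Ω] [Algebra k Ω]
  [IsAlgClosed Ω]

/-- Change of coefficients of a norm. -/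
theorem BrM_norm {M Ω : Type} [Field M] [Field Ω] (f : M →+* Ω) {g' : M[X]} (hg' : g'.Monic)
    {g'' : Polynomial Ω} (h : g'.map f = g'') (ψ : AdjoinRoot g' →+* AdjoinRoot g'')
    (h1 : ∀ c, ψ (AdjoinRoot.of g' c) = AdjoinRoot.of g'' (f c))
    (h2 : ψ (AdjoinRoot.root g') = AdjoinRoot.root g'') (x : AdjoinRoot g') :
    Algebra.norm Ω (ψ x) = f (Algebra.norm M x) := by
  subst h
  exact @norm_map M _ g' hg' Ω _ f.toAlgebra ψ h1 h2 x

theorem BrM_psi_aux (g : k[X]) {M Ω : Type} [Field M] [Algebra k M] [Field Ω] [Algebra k Ω]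
    (ι : M →ₐ[k] Ω) : (g.map (algebraMap k M)).eval₂
      ((AdjoinRoot.of (g.map (algebraMap k Ω))).comp (ι : M →+* Ω))
      (AdjoinRoot.root (g.map (algebraMap k Ω))) = 0 := by
  have h1 : ((AdjoinRoot.of (g.map (algebraMap k Ω))).comp (ι : M →+* Ω)).comp
      (algebraMap k M) = (AdjoinRoot.of (g.map (algebraMap k Ω))).comp (algebraMap k Ω) := by
    rw [RingHom.comp_assoc, ι.comp_algebraMap]
  rw [eval₂_map, h1, ← eval₂_map]
  exact AdjoinRoot.eval₂_root _

/-- Change of coefficients of `k[T] / g`. -/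
noncomputable def BrM_psi (g : k[X]) {M Ω : Type} [Field M] [Algebra k M] [Field Ω] [Algebra k Ω]
    (ι : M →ₐ[k] Ω) :
    AdjoinRoot (g.map (algebraMap k M)) →ₐ[k] AdjoinRoot (g.map (algebraMap k Ω)) where
  toRingHom := AdjoinRoot.lift ((AdjoinRoot.of (g.map (algebraMap k Ω))).comp (ι : M →+* Ω))
    (AdjoinRoot.root (g.map (algebraMap k Ω))) (BrM_psi_aux g ι)
  commutes' c := by
    have h1 : algebraMap k (AdjoinRoot (g.map (algebraMap k M))) c =
        AdjoinRoot.of (g.map (algebraMap k M)) (algebraMap k M c) := rfl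
    have h2 : algebraMap k (AdjoinRoot (g.map (algebraMap k Ω))) c =
        AdjoinRoot.of (g.map (algebraMap k Ω)) (algebraMap k Ω c) := rfl
    rw [h1, h2]
    change AdjoinRoot.lift _ _ (BrM_psi_aux g ι) (AdjoinRoot.of _ (algebraMap k M c)) = _
    rw [AdjoinRoot.lift_of, RingHom.comp_apply]
    congr 1
    exact ι.commutes c

theorem BrM_psi_of (g : k[X]) {M Ω : Type} [Field M] [Algebra k M] [Field Ω] [Algebra k Ω]
    (ι : M →ₐ[k] Ω) (c : M) : BrM_psi g ι (AdjoinRoot.of (g.map (algebraMap k M)) c) =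
      AdjoinRoot.of (g.map (algebraMap k Ω)) (ι c) := by
  change AdjoinRoot.lift _ _ (BrM_psi_aux g ι) (AdjoinRoot.of _ c) = _
  rw [AdjoinRoot.lift_of]
  rfl

theorem BrM_psi_root (g : k[X]) {M Ω : Type} [Field M] [Algebra k M] [Field Ω] [Algebra k Ω]
    (ι : M →ₐ[k] Ω) : BrM_psi g ι (AdjoinRoot.root (g.map (algebraMap k M))) =
      AdjoinRoot.root (g.map (algebraMap k Ω)) := by
  change AdjoinRoot.lift _ _ (BrM_psi_aux g ι) (AdjoinRoot.root _) = _
  rw [AdjoinRoot.lift_root]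

theorem BrM_psi_up (g : k[X]) {M Ω : Type} [Field M] [Algebra k M] [Field Ω] [Algebra k Ω]
    (ι : M →ₐ[k] Ω) (r : AdjoinRoot g) : BrM_psi g ι (up g M r) = up g Ω r := by
  obtain ⟨q, rfl⟩ := AdjoinRoot.mk_surjective r
  rw [up, up, AdjoinRoot.lift_mk, AdjoinRoot.lift_mk]
  have h1 := hom_eval₂ q ((AdjoinRoot.of (g.map (algebraMap k M))).comp (algebraMap k M))
    (BrM_psi g ι : AdjoinRoot (g.map (algebraMap k M)) →+* AdjoinRoot (g.map (algebraMap k Ω)))
    (AdjoinRoot.root (g.map (algebraMap k M)))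
  have h2 : ((BrM_psi g ι : AdjoinRoot (g.map (algebraMap k M)) →+*
      AdjoinRoot (g.map (algebraMap k Ω)))).comp
        ((AdjoinRoot.of (g.map (algebraMap k M))).comp (algebraMap k M)) =
      (AdjoinRoot.of (g.map (algebraMap k Ω))).comp (algebraMap k Ω) := by
    ext c
    change BrM_psi g ι (AdjoinRoot.of (g.map (algebraMap k M)) (algebraMap k M c)) = _
    rw [BrM_psi_of, ι.commutes]
    rfl
  rw [h2] at h1
  have h3 : (BrM_psi g ι : AdjoinRoot (g.map (algebraMap k M)) →+*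
      AdjoinRoot (g.map (algebraMap k Ω))) (AdjoinRoot.root (g.map (algebraMap k M))) =
      AdjoinRoot.root (g.map (algebraMap k Ω)) := BrM_psi_root g ι
  rw [h3] at h1
  exact h1

theorem BrM_psi_Lf (A B : Matrix (Fin 5) (Fin 5) k) (g : k[X]) (R : Fin 5 → AdjoinRoot g)
    {M Ω : Type} [Field M] [Algebra k M] [Field Ω] [Algebra k Ω] (ι : M →ₐ[k] Ω)
    (y : Fin 5 → M) : Lf A B g R (fun i => ι (y i)) = BrM_psi g ι (Lf A B g R y) := by
  rw [Lf, Lf, ← mB_hom (BrM_psi g ι), map_one, map_neg, BrM_psi_root]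
  congr 1
  · funext i
    rw [BrM_psi_up]
  · funext i
    rw [BrM_psi_of]

theorem BrM_psi_norm (hg : g.Monic) {M Ω : Type} [Field M] [Algebra k M] [Field Ω] [Algebra k Ω]
    (ι : M →ₐ[k] Ω) (z : AdjoinRoot (g.map (algebraMap k M))) :
    Algebra.norm Ω (BrM_psi g ι z) = ι (Algebra.norm M z) := by
  have h1 : (g.map (algebraMap k M)).map (ι : M →+* Ω) = g.map (algebraMap k Ω) := by
    rw [Polynomial.map_map, ι.comp_algebraMap]
  exact BrM_norm (ι : M →+* Ω) (hg.map _) h1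
    (BrM_psi g ι : AdjoinRoot (g.map (algebraMap k M)) →+* AdjoinRoot (g.map (algebraMap k Ω)))
    (fun c => BrM_psi_of g ι c) (BrM_psi_root g ι) z

/-- The value at a sum of cycles. -/
theorem BrM_prod {T : Type} (s : Finset T) (z : T → ℙ Ω (Fin 5 → Ω) →₀ ℤ)
    (h : ∀ i ∈ s, Off A B g R l (z i)) : Off A B g R l (∑ i ∈ s, z i) ∧
      Vc A B g R l (∑ i ∈ s, z i) = ∏ i ∈ s, Vc A B g R l (z i) := by
  classical
  induction s using Finset.induction_on with
  | empty =>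
    rw [Finset.sum_empty, Finset.prod_empty]
    refine ⟨fun y hy => ?_, Finsupp.prod_zero_index⟩
    rw [Finsupp.support_zero] at hy
    exact absurd hy (Finset.notMem_empty y)
  | insert i s hi ih =>
    have h1 := ih fun j hj => h j (Finset.mem_insert_of_mem hj)
    have h2 := Vc_add (h i (Finset.mem_insert_self i s)) h1.1
    rw [Finset.sum_insert hi, Finset.prod_insert hi, ← h1.2]
    exact h2

theorem BrM_Ph_nonneg {n : ℕ} (t : ℙ Ω (Fin (n * n) → Ω)) (y : ℙ Ω (Fin n → Ω)) :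
    0 ≤ Ph t y := by
  classical
  rw [Ph]
  split_ifs with h
  · rw [Finsupp.add_apply, Finsupp.single_apply, Finsupp.single_apply]
    split_ifs <;> norm_num
  · exact le_rfl

theorem BrM_off {T : Type} (s : Finset T) (z : T → ℙ Ω (Fin 5 → Ω) →₀ ℤ)
    (h0 : ∀ i ∈ s, ∀ y, 0 ≤ z i y) (h : Off A B g R l (∑ i ∈ s, z i)) {i : T} (hi : i ∈ s) :
    Off A B g R l (z i) := by
  classical
  intro y hy
  refine h y ?_
  rw [Finsupp.mem_support_iff] at hy ⊢
  rw [Finsupp.finsetSum_apply]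
  have h1 : 0 < z i y := lt_of_le_of_ne (h0 i hi y) (Ne.symm hy)
  have h2 : z i y ≤ ∑ j ∈ s, z j y :=
    Finset.single_le_sum (f := fun j => z j y) (fun j hj => h0 j hj y) hi
  exact (lt_of_lt_of_le h1 h2).ne'

/-- **The value at the trace of a line.** Proof: `PhL (trPt t)` is the sum of the `Ph (ι t)` over the
embeddings `ι` of `M`; `val_line` for `ι p`, `ι x`; all terms are the images under `ι` of elements of `M`
(`nh_hom` and the same for `Lf`, norms); the product over `ι` is the norm (`Algebra.norm_eq_prod_embeddings`).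
Over `M`: with `u = L (x) p - L (p) x` over `M[T] / g` one has `mB (R, u) = 0` and, since the member `(1, -τ)`
vanishes on the line, `q_θ (u) = (τ - θ) B (u)`; norms: `norm_orth`, `norm_root`. -/
theorem val_tr (hg : g.Monic) (h2 : g.natDegree = 2) (hgc : g ∣ Dq.chp A B)
    (hs : (Dq.chp A B).Separable) (hδ : IsCoprime g (dl A B w)) (hd : g ∣ dl A B w - C d * s ^ 2)
    (hR : mQ A B 1 (-(AdjoinRoot.root g)) R = 0)
    (hr : ∃ y, IsUnit (mB A B 1 (-(AdjoinRoot.root g)) R y)) :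
    ∃ c₀ : k, c₀ ≠ 0 ∧ ∀ (M : Type) [Field M] [Algebra k M] [FiniteDimensional k M] (τ : M)
      (_ : aeval τ g ≠ 0) (p x : Fin 5 → M) (t : ℙ M (Fin (5 * 5) → M))
      (_ : Lm A B 1 (-τ) p x t) (_ : Off A B g R l (PhL (trPt k Ω t))),
      ∃ c : k, Nd d c ∧ Vc A B g R l (PhL (trPt k Ω t)) *
        algebraMap k Ω (Algebra.norm k (aeval τ g)) =
        algebraMap k Ω (c₀ ^ Module.finrank k M * c) := by
  classical
  obtain ⟨c₀, hc₀, hN⟩ := norm_orth (w := w) (s := s) hg h2 hgc hs hδ hd hR hr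
  refine ⟨c₀, hc₀, ?_⟩
  intro M _ _ _ τ _ p x t hL hO
  obtain ⟨θ, hθ⟩ : ∃ θ, θ = AdjoinRoot.root (g.map (algebraMap k M)) := ⟨_, rfl⟩
  obtain ⟨P, hP⟩ : ∃ P : Fin 5 → AdjoinRoot (g.map (algebraMap k M)),
    P = fun i => AdjoinRoot.of (g.map (algebraMap k M)) (p i) := ⟨_, rfl⟩
  obtain ⟨Y, hY⟩ : ∃ Y : Fin 5 → AdjoinRoot (g.map (algebraMap k M)),
    Y = fun i => AdjoinRoot.of (g.map (algebraMap k M)) (x i) := ⟨_, rfl⟩
  obtain ⟨α, hα⟩ : ∃ α, α = Lf A B g R x := ⟨_, rfl⟩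
  obtain ⟨β, hβ⟩ : ∃ β, β = Lf A B g R p := ⟨_, rfl⟩
  obtain ⟨U, hU⟩ : ∃ U : Fin 5 → AdjoinRoot (g.map (algebraMap k M)), U = α • P + (-β) • Y :=
    ⟨_, rfl⟩
  have hα' : mB A B 1 (-θ) (fun i => up g M (R i)) Y = α := by rw [hα, Lf, hθ, hY]
  have hβ' : mB A B 1 (-θ) (fun i => up g M (R i)) P = β := by rw [hβ, Lf, hθ, hP]
  have hUR : mB A B 1 (-θ) (fun i => up g M (R i)) U = 0 := by
    rw [hU, mB_add_right, mB_smul_right, mB_smul_right, hα', hβ']
    ring
  rw [hθ] at hUR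
  obtain ⟨a, b, hab⟩ := hN M U hUR
  rw [← hθ] at hab
  -- the member `(1, -τ)` vanishes at `U`
  let of' : M →ₐ[k] AdjoinRoot (g.map (algebraMap k M)) :=
    { AdjoinRoot.of (g.map (algebraMap k M)) with commutes' := fun _ => rfl }
  have hof : ∀ c, of' c = AdjoinRoot.of (g.map (algebraMap k M)) c := fun _ => rfl
  have q1 : mQ A B 1 (-(of' τ)) P = 0 := by
    have h1 := mQ_hom (A := A) (B := B) of' 1 (-τ) p
    rw [hL.qp, map_zero, map_one, map_neg] at h1
    rw [hP]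
    exact h1
  have q2 : mQ A B 1 (-(of' τ)) Y = 0 := by
    have h1 := mQ_hom (A := A) (B := B) of' 1 (-τ) x
    rw [hL.qx, map_zero, map_one, map_neg] at h1
    rw [hY]
    exact h1
  have q3 : mB A B 1 (-(of' τ)) P Y = 0 := by
    have h1 := mB_hom (A := A) (B := B) of' 1 (-τ) p x
    rw [hL.b, map_zero, map_one, map_neg] at h1
    rw [hP, hY]
    exact h1
  have q4 : mQ A B 1 (-(of' τ)) U = 0 := by
    rw [hU, mQ_lin, q1, q2, q3]
    ring
  have q5 : mQ A B 1 (-θ) U = (of' τ - θ) * qv B U := by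
    have h1 : mQ A B 1 (-θ) U = mQ A B 1 (-(of' τ)) U + (of' τ - θ) * qv B U := by
      rw [mQ, mQ]
      ring
    rw [h1, q4, zero_add]
  have q6 : Algebra.norm M (of' τ - θ) = aeval τ g := by
    have h1 := norm_root (hg.map (algebraMap k M)) τ
    rw [hθ, hof, ← AdjoinRoot.algebraMap_eq, h1, eval_map_algebraMap]
  have q7 : aeval τ g * Algebra.norm M (qv B U) =
      algebraMap k M c₀ * (a ^ 2 - algebraMap k M d * b ^ 2) := by
    rw [← hab, q5, map_mul, q6]
  -- the form `u`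
  obtain ⟨u, hu⟩ : ∃ u : M, u = qv B ((∑ i, algebraMap k M (l i) * x i) • p -
      (∑ i, algebraMap k M (l i) * p i) • x) := ⟨_, rfl⟩
  have hphl : PhL (trPt k Ω t) = ∑ ι : M →ₐ[k] Ω, Ph (mapPt (ι : M →+* Ω) t) := by
    rw [trPt, map_sum]
    refine Finset.sum_congr rfl fun ι _ => ?_
    rw [PhL_single, one_smul]
  rw [hphl] at hO ⊢
  have hOι : ∀ ι : M →ₐ[k] Ω, Off A B g R l (Ph (mapPt (ι : M →+* Ω) t)) := fun ι =>
    BrM_off Finset.univ _ (fun ι _ y => BrM_Ph_nonneg _ y) hO (Finset.mem_univ ι)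
  have key : ∀ ι : M →ₐ[k] Ω, ι u ≠ 0 ∧ Vc A B g R l (Ph (mapPt (ι : M →+* Ω) t)) * ι u ^ 2 =
      ι (Algebra.norm M (qv B U)) := by
    intro ι
    have hLι := hL.hom ι
    rw [map_one, map_neg] at hLι
    obtain ⟨h3, h4⟩ := val_line (R := R) (l := l) hg h2 hLι (hOι ι)
    have e1 : ∀ y : Fin 5 → M, ∑ i, algebraMap k Ω (l i) * ι (y i) =
        ι (∑ i, algebraMap k M (l i) * y i) := by
      intro y
      rw [map_sum]
      refine Finset.sum_congr rfl fun i _ => ?_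
      rw [map_mul, ι.commutes]
    have e2 : qv B ((∑ i, algebraMap k Ω (l i) * ι (x i)) • (fun i => ι (p i)) -
        (∑ i, algebraMap k Ω (l i) * ι (p i)) • fun i => ι (x i)) = ι u := by
      rw [hu, ← qv_hom, e1, e1]
      congr 1
      funext i
      simp only [Pi.sub_apply, Pi.smul_apply, smul_eq_mul, map_sub, map_mul]
    have e3 : (Lf A B g R (fun i => ι (x i)) •
        (fun i => AdjoinRoot.of (g.map (algebraMap k Ω)) (ι (p i))) -
        Lf A B g R (fun i => ι (p i)) •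
          fun i => AdjoinRoot.of (g.map (algebraMap k Ω)) (ι (x i))) =
        fun i => BrM_psi g ι (U i) := by
      funext i
      rw [BrM_psi_Lf, BrM_psi_Lf, hU, hP, hY, ← hα, ← hβ]
      simp only [Pi.sub_apply, Pi.add_apply, Pi.smul_apply, smul_eq_mul, map_add, map_mul, map_neg,
        BrM_psi_of]
      ring
    rw [e2] at h3 h4
    refine ⟨h3, ?_⟩
    rw [h4, e3, qv_hom, BrM_psi_norm hg]
  have hprod := (BrM_prod Finset.univ (fun ι : M →ₐ[k] Ω => Ph (mapPt (ι : M →+* Ω) t))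
    (fun ι _ => hOι ι)).2
  rw [hprod]
  have hu0 : Algebra.norm k u ≠ 0 := by
    rw [Algebra.norm_ne_zero_iff]
    rintro rfl
    have ι : M →ₐ[k] Ω := IsAlgClosed.lift
    exact (key ι).1 (map_zero ι)
  have n1 : (∏ ι : M →ₐ[k] Ω, Vc A B g R l (Ph (mapPt (ι : M →+* Ω) t))) *
      algebraMap k Ω (Algebra.norm k u) ^ 2 =
      algebraMap k Ω (Algebra.norm k (Algebra.norm M (qv B U))) := by
    rw [Algebra.norm_eq_prod_embeddings k Ω, Algebra.norm_eq_prod_embeddings k Ω,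
      ← Finset.prod_pow, ← Finset.prod_mul_distrib]
    exact Finset.prod_congr rfl fun ι _ => (key ι).2
  obtain ⟨a', b', hab'⟩ := norm_form (k := k) d a b
  have n2 : Algebra.norm k (aeval τ g) * Algebra.norm k (Algebra.norm M (qv B U)) =
      c₀ ^ Module.finrank k M * (a' ^ 2 - d * b' ^ 2) := by
    rw [← map_mul, q7, map_mul, Algebra.norm_algebraMap, hab']
  refine ⟨(a' ^ 2 - d * b' ^ 2) * (Algebra.norm k u ^ 2)⁻¹,
    Nd.mul ⟨a', b', rfl⟩ (Nd.inv (Nd.sq d _)), ?_⟩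
  have hu1 : algebraMap k Ω (Algebra.norm k u) ≠ 0 := by
    intro h0
    exact hu0 ((map_eq_zero_iff _ (algebraMap k Ω).injective).1 h0)
  refine mul_right_cancel₀ (pow_ne_zero 2 hu1) ?_
  have n3 := congrArg (algebraMap k Ω) n2
  rw [map_mul, ← n1, map_mul] at n3
  rw [map_mul, map_mul, map_inv₀, map_pow (algebraMap k Ω) (Algebra.norm k u), ← mul_assoc,
    inv_mul_cancel_right₀ (pow_ne_zero 2 hu1), ← n3]
  ring

end Dr
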