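import Pool.Agent.Lib.MP_f80667_ag.Dr.BrD
import Pool.Agent.Lib.MP_f80667_ag.Fa.Dfs
import Pool.Agent.Lib.MP_f80667_ag.Dp.Datum

/-!
Orthogonality to the classes of the Brauer group of `X : A = B = 0` in `P^4`.

* `Sqm g δ`: `δ` is a square modulo `g`.
* `PrF A B g v a c`: `c` is the value of the function `nh / l²` at a zero-cycle in the class `a` over `F_v`,
  for some isotropic vector `R` over `F_v[T] / g`; `PrR` the same at the infinite places.
* `Orth A B w g d a`: orthogonality to the class of `g` and `d`.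
* `RepA A B a S P₀ R₀`: the local polynomials `P₀`, `R₀` represent the family of classes `a`.
-/

open IsDedekindDomain NumberField Polynomial
open scoped LinearAlgebra.Projectivization

namespace Dr

open ZC Tq Dp

/-- `δ` is a square modulo `g`. -/
def Sqm {k : Type} [Field k] (g δ : k[X]) : Prop := ∃ s : k[X], g ∣ δ - s ^ 2

variable {F : Type} [Field F] (A B : Matrix (Fin 5) (Fin 5) F) (w : Fin 5 → F) (g : F[X])

/-- `dl` is not a square modulo `g` over the extension `k` of `F`. -/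
def Act (k : Type) [Field k] [Algebra F k] : Prop :=
  ¬ Sqm (g.map (algebraMap F k)) ((dl A B w).map (algebraMap F k))

/-- `c` is the value at a cycle `z` over `k`. -/
def Pr (k : Type) [Field k] [Algebra F k] (z : Z1 k (hE k (Pl A B))) (c : k) : Prop :=
  ∃ (R : Fin 5 → AdjoinRoot (g.map (algebraMap F k))) (l : Fin 5 → k),
    mQ (A.map (algebraMap F k)) (B.map (algebraMap F k)) 1
      (-(AdjoinRoot.root (g.map (algebraMap F k)))) R = 0 ∧
    Off (A.map (algebraMap F k)) (B.map (algebraMap F k)) (g.map (algebraMap F k)) R l z.1 ∧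
    algebraMap k (AlgebraicClosure k) c =
      Vc (A.map (algebraMap F k)) (B.map (algebraMap F k)) (g.map (algebraMap F k)) R l z.1

variable [NumberField F]

/-- Orthogonality to the class of `g` and `d`. -/
def Orth (d : F) (a : FA (Pl A B)) : Prop :=
  ∃ S₁ : Finset (HeightOneSpectrum (𝓞 F)), ∀ S, S₁ ⊆ S →
    ∀ (z : ∀ v : HeightOneSpectrum (𝓞 F), Z1 (FK F v) (hE (FK F v) (Pl A B)))
      (z' : ∀ v : InfinitePlace F, Z1 (IK F v) (hE (IK F v) (Pl A B)))
      (c : ∀ v : HeightOneSpectrum (𝓞 F), FK F v) (c' : ∀ v : InfinitePlace F, IK F v),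
      (∀ v ∈ S, G1.cls (z v) = a.1 v ∧ (Act A B w g (FK F v) → Pr A B g (FK F v) (z v) (c v))) →
      (∀ v : InfinitePlace F, v.IsReal → G1b.cls (z' v) = a.2 v ∧
        (Act A B w g (IK F v) → Pr A B g (IK F v) (z' v) (c' v))) →
      Even (Nat.card {v : HeightOneSpectrum (𝓞 F) // v ∈ S ∧ Act A B w g (FK F v) ∧
          ¬ Nd (algebraMap F (FK F v) d) (c v)} +
        Nat.card {v : InfinitePlace F // v.IsReal ∧ Act A B w g (IK F v) ∧
          ¬ Nd (algebraMap F (IK F v) d) (c' v)})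

/-- The local polynomials represent the family `a`. -/
structure RepA (a : FA (Pl A B))
    (S : Finset (HeightOneSpectrum (𝓞 F)))
    (P₀ : ∀ v : HeightOneSpectrum (𝓞 F), (FK F v)[X]) (R₀ : ∀ v : InfinitePlace F, (IK F v)[X]) :
    Prop where
  fin : ∀ v ∈ S, Even (P₀ v).natDegree ∧ ∃ (y : Z1 (FK F v) (hE (FK F v) (Pl A B)))
    (z₀ : ℙ (AlgebraicClosure (FK F v)) (Fin 5 → AlgebraicClosure (FK F v)) →₀ ℤ),
    G1.cls y = a.1 v ∧
    z₀ ∈ cyc (AlgebraicClosure (FK F v)) (Pl (A.map (algebraMap F (FK F v)))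
      (B.map (algebraMap F (FK F v)))) ∧
    Dat (A.map (algebraMap F (FK F v))) (B.map (algebraMap F (FK F v))) (P₀ v)
      (y.1 + (2 : ℤ) • z₀)
  inf : ∀ v : InfinitePlace F, v.IsReal → Even (R₀ v).natDegree ∧
    ∃ (y : Z1 (IK F v) (hE (IK F v) (Pl A B)))
    (z₀ : ℙ (AlgebraicClosure (IK F v)) (Fin 5 → AlgebraicClosure (IK F v)) →₀ ℤ),
    G1b.cls y = a.2 v ∧
    z₀ ∈ cyc (AlgebraicClosure (IK F v)) (Pl (A.map (algebraMap F (IK F v)))
      (B.map (algebraMap F (IK F v)))) ∧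
    Dat (A.map (algebraMap F (IK F v))) (B.map (algebraMap F (IK F v))) (R₀ v)
      (y.1 + (2 : ℤ) • z₀)

end Dr
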