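import Pool.Agent.Lib.MP_f80667_ag.Dr.BrM
import Pool.Agent.Lib.MP_f80667_ag.Dp.Datum
import Pool.Agent.Lib.MP_f80667_ag.Dr.Vq

/-! The value at the cycle of a datum. -/

open Polynomial IntermediateField
open scoped LinearAlgebra.Projectivization

namespace Dr

open ZC Tq Dp

variable {k : Type} [Field k] [CharZero k] {A B : Matrix (Fin 5) (Fin 5) k} {w : Fin 5 → k}
  {g s : k[X]} {d : k} {R : Fin 5 → AdjoinRoot g} {l : Fin 5 → k} {Ω : Type} [Field Ω] [Algebra k Ω]
  [IsAlgClosure k Ω]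

omit [CharZero k] in
/-- The member is nondegenerate. -/
theorem BrP_gne {M : Type} [Field M] [Algebra k M] {τ : M} (hgc : g ∣ Dq.chp A B)
    (h : Dp.ND A B (1 : M) (-τ)) : aeval τ g ≠ 0 := by
  classical
  intro h0
  obtain ⟨q, hq⟩ := hgc
  have h1 : aeval τ (Dq.chp A B) = 0 := by rw [hq, map_mul, h0, zero_mul]
  rw [aeval_chp] at h1
  obtain ⟨v, hv, hv'⟩ := Matrix.exists_vecMul_eq_zero_iff.2 h1
  obtain ⟨y, hy⟩ := h v hv
  apply hy
  have h2 : mB A B 1 (-τ) v y = v ⬝ᵥ (Matrix.mulVec ((A + A.transpose).map (algebraMap k M) -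
      τ • (B + B.transpose).map (algebraMap k M)) y) := by
    rw [mB, vq_bv, vq_bv, Matrix.sub_mulVec, Matrix.smul_mulVec, dotProduct_sub,
      dotProduct_smul, smul_eq_mul]
    ring
  rw [h2, Matrix.dotProduct_mulVec, hv', zero_dotProduct]

/-- **The value at the cycle of a datum.** Proof: `Vc_add`, `val_tr` for every `j` with
`M = k⟮x j⟯`, `τ = gen` (`g (τ) ≠ 0` since the member is nondegenerate); the product of the norms of
`g (x j)` is the norm of the class of `P` in `k[T] / g` (`norm_symm`, multiplicativity); the exponent of `c₀` is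
the degree of `P`, even; `Nd` is closed under products and inverses and contains the squares. -/
theorem val_dat (hg : g.Monic) (h2 : g.natDegree = 2) (hgc : g ∣ Dq.chp A B)
    (hs : (Dq.chp A B).Separable) (hδ : IsCoprime g (dl A B w)) (hd : g ∣ dl A B w - C d * s ^ 2)
    (hR : mQ A B 1 (-(AdjoinRoot.root g)) R = 0)
    (hr : ∃ y, IsUnit (mB A B 1 (-(AdjoinRoot.root g)) R y)) {m : ℕ} (x : Fin m → Ω)
    (t : ∀ j, ℙ k⟮x j⟯ (Fin (5 * 5) → k⟮x j⟯))
    (hx : ∀ i j, minpoly k (x i) = minpoly k (x j) → i = j) {P : k[X]}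
    (hP : P = ∏ j, minpoly k (x j)) (hN : Even P.natDegree) (ht : ∀ j, Root A B (x j) (t j))
    (hO : ∀ j, Off A B g R l (PhL (trPt k Ω (t j)))) :
    ∃ c : k, c ≠ 0 ∧ Nd d (Algebra.norm k (AdjoinRoot.mk g P) * c) ∧
      Vc A B g R l (∑ j, PhL (trPt k Ω (t j))) = algebraMap k Ω c := by
  classical
  have hac : IsAlgClosed Ω := IsAlgClosure.isAlgClosed k
  have halg : Algebra.IsAlgebraic k Ω := IsAlgClosure.isAlgebraic
  obtain ⟨c₀, hc₀, hval⟩ := val_tr (w := w) (s := s) (d := d) (l := l) (Ω := Ω) hg h2 hgc hs hδ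
    hd hR hr
  have hint : ∀ j, IsIntegral k (x j) := fun j => (halg.isAlgebraic (x j)).isIntegral
  have key : ∀ j, ∃ c : k, Nd d c ∧ Vc A B g R l (PhL (trPt k Ω (t j))) *
      algebraMap k Ω (Algebra.norm k (AdjoinRoot.mk g (minpoly k (x j)))) =
        algebraMap k Ω (c₀ ^ (minpoly k (x j)).natDegree * c) ∧
      Algebra.norm k (AdjoinRoot.mk g (minpoly k (x j))) ≠ 0 := by
    intro j
    have hfd : FiniteDimensional k k⟮x j⟯ := IntermediateField.adjoin.finiteDimensional (hint j)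
    obtain ⟨⟨p, y, hL⟩, hND⟩ := ht j
    have hne := BrP_gne hgc hND
    obtain ⟨c, hc, h1⟩ := hval k⟮x j⟯ (AdjoinSimple.gen k (x j)) hne p y (t j) hL (hO j)
    have h3 : Algebra.norm k (aeval (AdjoinSimple.gen k (x j)) g) =
        Algebra.norm k (AdjoinRoot.mk g (minpoly k (x j))) := by
      rw [← norm_symm hg (minpoly.monic (hint j)) (by rw [h2]; exact even_two)]
      have h4 : adjoinRootEquivAdjoin k (hint j) (AdjoinRoot.mk (minpoly k (x j)) g) =
          aeval (AdjoinSimple.gen k (x j)) g := by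
        rw [← AdjoinRoot.aeval_eq, ← adjoinRootEquivAdjoin_apply_root k (hint j),
          ← Polynomial.aeval_algHom_apply]
      rw [← h4, Algebra.norm_eq_of_algEquiv]
    refine ⟨c, hc, ?_, ?_⟩
    · rw [← h3, h1, adjoin.finrank (hint j)]
    · rw [← h3]
      exact Algebra.norm_ne_zero_iff.2 hne
  choose c hc1 hc2 hc3 using key
  obtain ⟨hOff, hprod⟩ := BrM_prod Finset.univ (fun j => PhL (trPt k Ω (t j))) fun j _ => hO j
  obtain ⟨N, hNe⟩ : ∃ N, N = Algebra.norm k (AdjoinRoot.mk g P) := ⟨_, rfl⟩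
  have hN' : N = ∏ j, Algebra.norm k (AdjoinRoot.mk g (minpoly k (x j))) := by
    rw [hNe, hP, map_prod, map_prod]
  have hN0 : N ≠ 0 := by
    rw [hN']
    exact Finset.prod_ne_zero_iff.2 fun j _ => hc3 j
  have hdeg : P.natDegree = ∑ j, (minpoly k (x j)).natDegree := by
    rw [hP, natDegree_prod_of_monic _ _ fun j _ => minpoly.monic (hint j)]
  have hV : Vc A B g R l (∑ j, PhL (trPt k Ω (t j))) * algebraMap k Ω N =
      algebraMap k Ω (c₀ ^ P.natDegree * ∏ j, c j) := by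
    rw [hprod, hN', map_prod, ← Finset.prod_mul_distrib, Finset.prod_congr rfl fun j _ => hc2 j,
      ← map_prod, Finset.prod_mul_distrib, Finset.prod_pow_eq_pow_sum, hdeg]
  have hNV : Vc A B g R l (∑ j, PhL (trPt k Ω (t j))) =
      algebraMap k Ω (c₀ ^ P.natDegree * (∏ j, c j) / N) := by
    rw [map_div₀, eq_div_iff ((_root_.map_ne_zero _).2 hN0)]
    exact hV
  have hV0 : Vc A B g R l (∑ j, PhL (trPt k Ω (t j))) ≠ 0 := by
    rw [Vc, Finsupp.prod]
    refine Finset.prod_ne_zero_iff.2 fun y hy => zpow_ne_zero _ ?_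
    obtain ⟨h5, h6⟩ := hOff y hy
    exact div_ne_zero h5 (pow_ne_zero 2 h6)
  refine ⟨c₀ ^ P.natDegree * (∏ j, c j) / N, fun h0 => hV0 (by rw [hNV, h0, map_zero]), ?_, hNV⟩
  rw [← hNe, mul_div_cancel₀ _ hN0]
  obtain ⟨r, hr'⟩ := hN
  have e1 : c₀ ^ P.natDegree = (c₀ ^ r) ^ 2 := by
    rw [hr', ← two_mul, mul_comm, pow_mul]
  rw [e1]
  refine (Nd.sq d _).mul ?_
  exact Finset.prod_induction _ (Nd d) (fun a b ha hb => ha.mul hb) ⟨1, 0, by ring⟩
    fun j _ => hc1 j

end Dr
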