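import Pool.Agent.Lib.MP_f80667_ag.Dr.Vq

/-! A member with a line. -/

open Polynomial Module Matrix

namespace Dr

open ZC Tq Dp

variable {k : Type*} [Field k]

/-- The polar form of a member as a matrix. -/
theorem mB_gram {L : Type*} [CommRing L] [Algebra k L] (A B : Matrix (Fin 5) (Fin 5) k) (t : L)
    (x y : Fin 5 → L) : mB A B 1 (-t) x y =
      x ⬝ᵥ (((A + A.transpose).map (algebraMap k L) -
        t • (B + B.transpose).map (algebraMap k L)) *ᵥ y) := by
  have hA : ∀ C : Matrix (Fin 5) (Fin 5) k,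
      bv C x y = x ⬝ᵥ (((C + C.transpose).map (algebraMap k L)) *ᵥ y) := by
    intro C
    have h1 : ∑ i, ∑ j, algebraMap k L (C i j) * (y i * x j) =
        ∑ i, ∑ j, algebraMap k L (C j i) * (y j * x i) := Finset.sum_comm
    have h2 : bv C x y = ∑ i, ∑ j, algebraMap k L (C i j) * (x i * y j) +
        ∑ i, ∑ j, algebraMap k L (C i j) * (y i * x j) := by
      simp only [bv, mul_add, Finset.sum_add_distrib]
    rw [h2, h1, ← Finset.sum_add_distrib, dotProduct]
    refine Finset.sum_congr rfl fun i _ => ?_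
    rw [← Finset.sum_add_distrib, mulVec, dotProduct, Finset.mul_sum]
    refine Finset.sum_congr rfl fun j _ => ?_
    rw [Matrix.map_apply, Matrix.add_apply, Matrix.transpose_apply, map_add]
    ring
  rw [mB, hA, hA, Matrix.sub_mulVec, Matrix.smul_mulVec, dotProduct_sub, dotProduct_smul,
    smul_eq_mul]
  ring

/-- A functional with given values on two independent vectors. -/
theorem dual_vec {M : Type*} [Field M] {v w : Fin 5 → M} (h : v ∉ Submodule.span M {w}) :
    ∃ c : Fin 5 → M, v ⬝ᵥ c = 1 ∧ w ⬝ᵥ c = 0 := by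
  obtain ⟨f, hf, hm⟩ := Submodule.exists_dual_map_eq_bot_of_notMem h inferInstance
  have hw : f w = 0 := by
    have h1 : f w ∈ (Submodule.span M {w}).map f :=
      Submodule.mem_map_of_mem (Submodule.mem_span_singleton_self w)
    rw [hm] at h1
    exact (Submodule.mem_bot M).1 h1
  have hs : ∀ u : Fin 5 → M, u ⬝ᵥ (fun i => f (Pi.single i 1)) = f u := by
    intro u
    have h1 : u = ∑ i, u i • (Pi.single i 1 : Fin 5 → M) := by
      ext j
      simp [Finset.sum_apply, Pi.single_apply]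
    conv_rhs => rw [h1]
    rw [map_sum]
    exact Finset.sum_congr rfl fun i _ => by rw [map_smul, smul_eq_mul]
  refine ⟨(f v)⁻¹ • fun i => f (Pi.single i 1), ?_, ?_⟩
  · rw [dotProduct_smul, hs, smul_eq_mul, inv_mul_cancel₀ hf]
  · rw [dotProduct_smul, hs, hw, smul_zero]

/-- The determinant of the Gram matrix. -/
theorem det_gram5 {M : Type*} [CommRing M] (a b c d e f g h i : M) :
    (!![0, 0, 1, 0, 0; 0, 0, 0, 1, 0; 1, 0, a, b, c; 0, 1, d, e, f; 0, 0, g, h, i] :
      Matrix (Fin 5) (Fin 5) M).det = i := by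
  simp [Matrix.det_succ_row_zero, Fin.sum_univ_succ, Fin.succAbove]

/-- The orthogonal vector. -/
theorem exists_z {M : Type*} [Field M] [Algebra k M] {A B : Matrix (Fin 5) (Fin 5) k} {t : M}
    {p x : Fin 5 → M} (hpx : LinearIndependent M ![p, x]) (hf : aeval t (Dq.chp A B) ≠ 0)
    (hp : mQ A B 1 (-t) p = 0) (hx : mQ A B 1 (-t) x = 0) (hb : mB A B 1 (-t) p x = 0) :
    ∃ (z : Fin 5 → M) (r : M), r ≠ 0 ∧ mB A B 1 (-t) p z = 0 ∧ mB A B 1 (-t) x z = 0 ∧
      2 * mQ A B 1 (-t) z = aeval t (Dq.chp A B) * r ^ 2 := by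
  obtain ⟨G, hG⟩ : ∃ G : Matrix (Fin 5) (Fin 5) M, G = (A + A.transpose).map (algebraMap k M) -
    t • (B + B.transpose).map (algebraMap k M) := ⟨_, rfl⟩
  have hdet : aeval t (Dq.chp A B) = G.det := by rw [hG]; exact aeval_chp A B t
  have hB : ∀ v w : Fin 5 → M, mB A B 1 (-t) v w = v ⬝ᵥ (G *ᵥ w) := fun v w => by
    rw [hG]
    exact mB_gram A B t v w
  rw [hdet] at hf ⊢
  have hunit : IsUnit G.det := isUnit_iff_ne_zero.2 hf
  have hcom : ∀ v w : Fin 5 → M, mB A B 1 (-t) v w = mB A B 1 (-t) w v := mB_comm 1 (-t)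
  -- the dual vectors
  have hdual : ∀ v w : Fin 5 → M, v ∉ Submodule.span M {w} →
      ∃ c : Fin 5 → M, mB A B 1 (-t) v c = 1 ∧ mB A B 1 (-t) w c = 0 := by
    intro v w hvw
    obtain ⟨c, h1, h2⟩ := dual_vec hvw
    refine ⟨G⁻¹ *ᵥ c, ?_, ?_⟩
    · rw [hB, Matrix.mulVec_mulVec, Matrix.mul_nonsing_inv _ hunit, Matrix.one_mulVec, h1]
    · rw [hB, Matrix.mulVec_mulVec, Matrix.mul_nonsing_inv _ hunit, Matrix.one_mulVec, h2]
  have hind := LinearIndependent.pair_iff.1 hpx
  obtain ⟨p', hp1, hp2⟩ := hdual p x (by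
    intro h
    obtain ⟨a, ha⟩ := Submodule.mem_span_singleton.1 h
    have := hind 1 (-a) (by rw [one_smul, neg_smul, ha, add_neg_cancel])
    exact one_ne_zero this.1)
  obtain ⟨x', hx1, hx2⟩ := hdual x p (by
    intro h
    obtain ⟨a, ha⟩ := Submodule.mem_span_singleton.1 h
    have := hind (-a) 1 (by rw [one_smul, neg_smul, ha, neg_add_cancel])
    exact one_ne_zero this.2)
  -- the vector z
  obtain ⟨z, hz1, hz2, hzs⟩ : ∃ z : Fin 5 → M, mB A B 1 (-t) p z = 0 ∧ mB A B 1 (-t) x z = 0 ∧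
      z ∉ Submodule.span M (Set.range ![p, x]) := by
    by_contra hcon
    push Not at hcon
    have hle : LinearMap.ker ((mBl A B 1 (-t) p).prod (mBl A B 1 (-t) x)) ≤
        Submodule.span M (Set.range ![p, x]) := by
      intro z hz
      have h1 : (mB A B 1 (-t) p z, mB A B 1 (-t) x z) = (0 : M × M) := LinearMap.mem_ker.1 hz
      rw [Prod.mk_eq_zero] at h1
      exact hcon z h1.1 h1.2
    have h1 := Submodule.finrank_mono hle
    have h2 : finrank M (Submodule.span M (Set.range ![p, x])) ≤ 2 := by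
      have := finrank_range_le_card (R := M) ![p, x]
      rwa [Fintype.card_fin] at this
    have h3 := LinearMap.finrank_range_add_finrank_ker
      ((mBl A B 1 (-t) p).prod (mBl A B 1 (-t) x))
    have h4 : finrank M (LinearMap.range ((mBl A B 1 (-t) p).prod (mBl A B 1 (-t) x))) ≤ 2 := by
      have := Submodule.finrank_le
        (LinearMap.range ((mBl A B 1 (-t) p).prod (mBl A B 1 (-t) x)))
      rwa [Module.finrank_prod, Module.finrank_self] at this
    rw [Module.finrank_fin_fun] at h3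
    omega
  obtain ⟨P, hP⟩ : ∃ P : Matrix (Fin 5) (Fin 5) M, P = Matrix.of ![p, x, p', x', z] := ⟨_, rfl⟩
  have hGr : P * G * P.transpose = !![0, 0, 1, 0, 0; 0, 0, 0, 1, 0;
      1, 0, mB A B 1 (-t) p' p', mB A B 1 (-t) p' x', mB A B 1 (-t) p' z;
      0, 1, mB A B 1 (-t) x' p', mB A B 1 (-t) x' x', mB A B 1 (-t) x' z;
      0, 0, mB A B 1 (-t) z p', mB A B 1 (-t) z x', 2 * mQ A B 1 (-t) z] := by
    have h1 : ∀ i j, (P * G * P.transpose) i j =
        mB A B 1 (-t) (![p, x, p', x', z] i) (![p, x, p', x', z] j) := by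
      intro i j
      rw [hB, Matrix.mul_assoc, Matrix.mul_apply, hP]
      rfl
    ext i j
    rw [h1]
    fin_cases i <;> fin_cases j
    · exact (mB_self 1 (-t) p).trans (by rw [hp, mul_zero]; rfl)
    · exact hb
    · exact hp1
    · exact hx2
    · exact hz1
    · exact (hcom x p).trans hb
    · exact (mB_self 1 (-t) x).trans (by rw [hx, mul_zero]; rfl)
    · exact hp2
    · exact hx1
    · exact hz2
    · exact (hcom p' p).trans hp1
    · exact (hcom p' x).trans hp2
    · rfl
    · rfl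
    · rfl
    · exact (hcom x' p).trans hx2
    · exact (hcom x' x).trans hx1
    · rfl
    · rfl
    · rfl
    · exact (hcom z p).trans hz1
    · exact (hcom z x).trans hz2
    · rfl
    · rfl
    · exact mB_self 1 (-t) z
  have hd : P.det * G.det * P.det = 2 * mQ A B 1 (-t) z := by
    have h1 := congrArg Matrix.det hGr
    rwa [Matrix.det_mul, Matrix.det_mul, Matrix.det_transpose, det_gram5] at h1
  refine ⟨z, P.det, ?_, hz1, hz2, by rw [← hd]; ring⟩
  intro h0
  obtain ⟨c, hc, hc0⟩ := Matrix.exists_vecMul_eq_zero_iff.2 h0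
  have hc1 : c ᵥ* (P * G * P.transpose) = 0 := by
    rw [← Matrix.vecMul_vecMul, ← Matrix.vecMul_vecMul, hc0, Matrix.zero_vecMul,
      Matrix.zero_vecMul]
  rw [hGr] at hc1
  have h2 : c 2 = 0 := by
    have := congrFun hc1 0
    simpa [Matrix.vecMul, dotProduct, Fin.sum_univ_succ] using this
  have h3 : c 3 = 0 := by
    have := congrFun hc1 1
    simpa [Matrix.vecMul, dotProduct, Fin.sum_univ_succ] using this
  have h4 : c 0 • p + c 1 • x + c 4 • z = 0 := by
    have h5 : c ᵥ* P = ∑ i, c i • ![p, x, p', x', z] i := by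
      rw [hP]
      ext j
      rw [Matrix.vecMul, dotProduct, Finset.sum_apply]
      rfl
    rw [hc0] at h5
    have h6 : ∑ i, c i • ![p, x, p', x', z] i =
        c 0 • p + c 1 • x + c 2 • p' + c 3 • x' + c 4 • z := by
      rw [Fin.sum_univ_five]
      rfl
    rw [h6, h2, h3, zero_smul, zero_smul, add_zero, add_zero] at h5
    exact h5.symm
  have h5 : c 4 = 0 := by
    by_contra h6
    apply hzs
    have h7 : z = (-(c 4)⁻¹ * c 0) • p + (-(c 4)⁻¹ * c 1) • x := by
      have h8 : c 4 • z = -(c 0 • p + c 1 • x) := by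
        rw [eq_neg_iff_add_eq_zero, ← h4]
        abel
      calc z = (c 4)⁻¹ • (c 4 • z) := by rw [smul_smul, inv_mul_cancel₀ h6, one_smul]
        _ = _ := by
          rw [h8]
          module
    rw [h7]
    refine Submodule.add_mem _ (Submodule.smul_mem _ _ (Submodule.subset_span ⟨0, rfl⟩))
      (Submodule.smul_mem _ _ (Submodule.subset_span ⟨1, rfl⟩))
  rw [h5, zero_smul, add_zero] at h4
  have h6 := hind _ _ h4
  apply hc
  funext i
  fin_cases i
  · exact h6.1
  · exact h6.2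
  · exact h2
  · exact h3
  · exact h5

/-- **A member with a line.** Proof: over `M` let `U` be the span of `p`, `x`, and `z` in the orthogonal of
`U`, not in `U`; choose `p'`, `x'` orthogonal to `z` with `mB p p' = mB x x' = 1`, `mB p x' = mB x p' = 0`.
The Gram matrix of the polar form in the basis `p, x, p', x', z` has determinant `2 q (z)`, so
`2 q (z) = f r²`, `f = aeval t (chp A B)`; scale `z` such that `q (z) = 2 f`. The Lagrangian of
the `(a p + b x + y z, y)`, an `M`-space of dimension `3` in one of dimension `6`; `Lag.of_finrank`. -/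
theorem line_we (h2 : (2 : k) ≠ 0) {M : Type*} [Field M] [Algebra k M] [FiniteDimensional k M]
    {τ : M →ₗ[k] k} (hτ : NF τ) {A B : Matrix (Fin 5) (Fin 5) k} {u t : M} (hu : u ≠ 0)
    (hf : aeval t (Dq.chp A B) ≠ 0) (hl : Ln A B t) :
    WE (vq τ A B u t) (sq τ (u * (2 * aeval t (Dq.chp A B)))) := by
  obtain ⟨p, x, hpx, hp, hx, hb⟩ := hl
  obtain ⟨z, r, hr, hz1, hz2, hz⟩ := exists_z hpx hf hp hx hb
  obtain ⟨f, hfd⟩ : ∃ f : M, f = aeval t (Dq.chp A B) := ⟨_, rfl⟩
  have h2M : (2 : M) ≠ 0 := by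
    intro h
    apply h2
    apply (algebraMap k M).injective
    rw [map_ofNat, map_zero]
    exact h
  have hN1 : ND (vq τ A B u t) :=
    vq_ND hτ (isUnit_iff_ne_zero.2 hu) (isUnit_iff_ne_zero.2 hf)
  rw [← hfd] at hf hz ⊢
  have hN2 : ND (-(sq τ (u * (2 * f)))) :=
    (sq_ND h2 hτ (isUnit_iff_ne_zero.2 (mul_ne_zero hu (mul_ne_zero h2M hf)))).neg
  obtain ⟨w, hw⟩ : ∃ w : Fin 5 → M, w = (2 / r) • z := ⟨_, rfl⟩
  have hw1 : mB A B 1 (-t) p w = 0 := by rw [hw, mB_smul_right, hz1, mul_zero]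
  have hw2 : mB A B 1 (-t) x w = 0 := by rw [hw, mB_smul_right, hz2, mul_zero]
  have hwq : mQ A B 1 (-t) w = 2 * f := by
    rw [hw, mQ_smul]
    have h3 : mQ A B 1 (-t) z = f * r ^ 2 / 2 := by
      rw [← hz]
      field_simp
    rw [h3]
    field_simp
  let Ψ : (M × M × M) →ₗ[M] ((Fin 5 → M) × M) :=
    { toFun := fun s => (s.1 • p + s.2.1 • x + s.2.2 • w, s.2.2)
      map_add' := fun s s' => by
        ext1
        · show (s.1 + s'.1) • p + (s.2.1 + s'.2.1) • x + (s.2.2 + s'.2.2) • w = _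
          simp only [Prod.fst_add]
          module
        · rfl
      map_smul' := fun c s => by
        ext1
        · show (c * s.1) • p + (c * s.2.1) • x + (c * s.2.2) • w = _
          simp only [Prod.smul_fst, RingHom.id_apply]
          module
        · rfl }
  have hΨ : ∀ s, Ψ s = (s.1 • p + s.2.1 • x + s.2.2 • w, s.2.2) := fun s => rfl
  have hinj : Function.Injective (Ψ.restrictScalars k) := by
    rw [injective_iff_map_eq_zero]
    rintro ⟨a, b, y⟩ h
    have h3 : (a • p + b • x + y • w, y) = (0 : (Fin 5 → M) × M) := h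
    rw [Prod.mk_eq_zero] at h3
    obtain ⟨h4, rfl⟩ := h3
    rw [zero_smul, add_zero] at h4
    obtain ⟨rfl, rfl⟩ := LinearIndependent.pair_iff.1 hpx _ _ h4
    rfl
  refine ⟨LinearMap.range (Ψ.restrictScalars k), Lag.of_finrank (hN1.prod hN2) ?_ ?_⟩
  · rintro _ ⟨⟨a, b, y⟩, rfl⟩
    have h3 : mQ A B 1 (-t) (a • p + b • x + y • w) = 2 * f * (y * y) := by
      rw [mQ_add, mQ_add, mQ_smul, mQ_smul, mQ_smul, hp, hx, hwq, mB_add, mB_smul, mB_smul,
        mB_smul, mB_smul_right, mB_smul_right, mB_smul_right, hb, hw1, hw2]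
      ring
    show (vq τ A B u t).prod (-(sq τ (u * (2 * f)))) (a • p + b • x + y • w, y) = 0
    rw [QuadraticMap.prod_apply, _root_.neg_apply, vq_apply, sq_apply, h3, mul_assoc u]
    exact add_neg_cancel _
  · rw [LinearMap.finrank_range_of_inj hinj, Module.finrank_prod, Module.finrank_prod,
      Module.finrank_prod, Module.finrank_pi_fintype, Fin.sum_const, smul_eq_mul]
    omega

end Dr
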