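import Pool.Agent.Lib.MP_f80667_ag.Dr.Dl
import Pool.Agent.Lib.MP_f80667_ag.Dr.Vq
import Pool.Agent.Lib.MP_f80667_ag.Dr.VqL

/-! The tangent hyperplane of a degenerate member. -/

open Polynomial

namespace Dr

open ZC Tq Dp

section aux

variable {K : Type*} [Field K]

private theorem brT_sum (f u : Fin 5 → K) (s : K) :
    ∑ i, (s • f) i * u i = s * ∑ i, f i * u i := by
  rw [Finset.mul_sum]
  refine Finset.sum_congr rfl fun i _ => ?_
  rw [Pi.smul_apply, smul_eq_mul, mul_assoc]

private theorem brT_add (f g u : Fin 5 → K) :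
    ∑ i, (f + g) i * u i = ∑ i, f i * u i + ∑ i, g i * u i := by
  rw [← Finset.sum_add_distrib]
  refine Finset.sum_congr rfl fun i _ => ?_
  rw [Pi.add_apply, add_mul]

/-- The last step: a diagonal form with the right determinant. -/
private theorem brT_fin [CharZero K] {q bR : (Fin 5 → K) → K} {f₀ f₁ fa fb : Fin 5 → K}
    {da db D z δ : K}
    (hq : ∀ u, q u = (∑ i, f₀ i * u i) ^ 2 - (∑ i, f₁ i * u i) ^ 2 +
      (da * (∑ i, fa i * u i) ^ 2 + db * (∑ i, fb i * u i) ^ 2) / 2)
    (hb : ∀ u, bR u = ∑ i, f₀ i * u i - ∑ i, f₁ i * u i) (hD : D ^ 2 * δ = -4 * da * db * z ^ 2)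
    (hD0 : D ≠ 0) (hδ : δ ≠ 0) :
    ∃ (c : K) (ρ σ τ : Fin 5 → K), c ≠ 0 ∧ ∀ u : Fin 5 → K, q u =
      c * ((∑ i, ρ i * u i) ^ 2 - δ * (∑ i, σ i * u i) ^ 2) + bR u * ∑ i, τ i * u i := by
  have h0 : -4 * da * db * z ^ 2 ≠ 0 := by
    rw [← hD]
    exact mul_ne_zero (pow_ne_zero _ hD0) hδ
  have hz : z ≠ 0 := by
    rintro rfl
    exact h0 (by ring)
  have hda : da ≠ 0 := by
    rintro rfl
    exact h0 (by ring)
  refine ⟨da / 2, fa, (D / (2 * da * z)) • fb, f₀ + f₁, div_ne_zero hda two_ne_zero,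
    fun u => ?_⟩
  rw [hq u, hb u, brT_sum, brT_add]
  have h1 : db = -(da * δ * (D / (2 * da * z)) ^ 2) := by
    field_simp
    linear_combination hD
  rw [h1]
  ring

/-- An orthogonal basis which contains two given vectors. -/
private theorem brT_basis [CharZero K] {B : LinearMap.BilinForm K (Fin 5 → K)}
    (hs : ∀ x y, B x y = B y x)
    {g₀ g₁ : Fin 5 → K} (h₀ : B g₀ g₀ = 2) (h₁ : B g₁ g₁ = -2) (h₀₁ : B g₀ g₁ = 0) :
    ∃ p : Fin 5 → Fin 5 → K, LinearIndependent K p ∧ p 0 = g₀ ∧ p 1 = g₁ ∧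
      ∀ i j, i ≠ j → B (p i) (p j) = 0 := by
  have h₁₀ : B g₁ g₀ = 0 := (hs g₁ g₀).trans h₀₁
  let L : (Fin 5 → K) →ₗ[K] K × K := (B g₀).prod (B g₁)
  have hL : Function.Surjective L := by
    rintro ⟨a, b⟩
    refine ⟨(a / 2) • g₀ + (-b / 2) • g₁, ?_⟩
    refine Prod.ext ?_ ?_
    · change B g₀ ((a / 2) • g₀ + (-b / 2) • g₁) = a
      rw [map_add, map_smul, map_smul, h₀, h₀₁, smul_eq_mul, smul_eq_mul]
      ring
    · change B g₁ ((a / 2) • g₀ + (-b / 2) • g₁) = b
      rw [map_add, map_smul, map_smul, h₁, h₁₀, smul_eq_mul, smul_eq_mul]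
      ring
  have hW : Module.finrank K (LinearMap.ker L) = 3 := by
    have h := LinearMap.finrank_range_add_finrank_ker L
    rw [LinearMap.range_eq_top.2 hL, finrank_top, Module.finrank_prod, Module.finrank_self,
      Module.finrank_fin_fun] at h
    omega
  have hWm : ∀ w : LinearMap.ker L, B g₀ w = 0 ∧ B g₁ w = 0 := fun w => by
    have h : L w = 0 := w.2
    exact ⟨congrArg Prod.fst h, congrArg Prod.snd h⟩
  have h2 : Invertible (2 : K) := invertibleOfNonzero two_ne_zero
  obtain ⟨v, hv⟩ := LinearMap.BilinForm.exists_orthogonal_basis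
    (B := B.restrict (LinearMap.ker L)) ⟨fun x y => hs x y⟩
  let v' := v.reindex (finCongr hW)
  have hv' : ∀ i j, i ≠ j → B (v' i) (v' j) = 0 := by
    intro i j hij
    have h : B (v ((finCongr hW).symm i)) (v ((finCongr hW).symm j)) = 0 :=
      hv (fun h => hij ((finCongr hW).symm.injective h) :
        (finCongr hW).symm i ≠ (finCongr hW).symm j)
    rw [Module.Basis.reindex_apply, Module.Basis.reindex_apply]
    exact h
  refine ⟨![g₀, g₁, v' 0, v' 1, v' 2], ?_, rfl, rfl, ?_⟩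
  · rw [Fintype.linearIndependent_iff]
    intro c hc
    rw [Fin.sum_univ_five] at hc
    change c 0 • g₀ + c 1 • g₁ + c 2 • (v' 0 : Fin 5 → K) + c 3 • (v' 1 : Fin 5 → K) +
      c 4 • (v' 2 : Fin 5 → K) = 0 at hc
    have hc0 : c 0 = 0 := by
      have h := congrArg (B g₀) hc
      simp only [map_add, map_smul, h₀, h₀₁, (hWm _).1, smul_eq_mul, mul_zero, add_zero,
        map_zero] at h
      exact (mul_eq_zero.1 h).resolve_right two_ne_zero
    have hc1 : c 1 = 0 := by
      have h := congrArg (B g₁) hc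
      simp only [map_add, map_smul, h₁, h₁₀, (hWm _).2, smul_eq_mul, mul_zero, add_zero, zero_add,
        map_zero] at h
      exact (mul_eq_zero.1 h).resolve_right (neg_ne_zero.2 two_ne_zero)
    rw [hc0, hc1, zero_smul, zero_smul, zero_add, zero_add] at hc
    have hl := v'.linearIndependent
    rw [Fintype.linearIndependent_iff] at hl
    have h3 := hl (fun i => c (i.succ.succ)) (by
      refine Subtype.ext ?_
      rw [Fin.sum_univ_three]
      exact hc)
    intro i
    fin_cases i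
    · exact hc0
    · exact hc1
    · exact h3 0
    · exact h3 1
    · exact h3 2
  · intro i j hij
    have a0 := fun w : LinearMap.ker L => (hWm w).1
    have a1 := fun w : LinearMap.ker L => (hWm w).2
    have b0 := fun w : LinearMap.ker L => (hs w g₀).trans (hWm w).1
    have b1 := fun w : LinearMap.ker L => (hs w g₁).trans (hWm w).2
    fin_cases i <;> fin_cases j <;>
      first
        | exact absurd rfl hij
        | exact h₀₁
        | exact h₁₀
        | exact a0 _
        | exact a1 _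
        | exact b0 _
        | exact b1 _
        | exact hv' _ _ (by decide)

open Matrix in
/-- The adjugate in an orthogonal basis. -/
private theorem brT_adj {M Q : Matrix (Fin 5) (Fin 5) K} {d : Fin 5 → K}
    (h : Q * M * Qᵀ = diagonal d) (w : Fin 5 → K) :
    ∑ i, (∏ j ∈ Finset.univ.erase i, d j) * (Q *ᵥ w) i ^ 2 =
      Q.det ^ 2 * (w ⬝ᵥ (M.adjugate *ᵥ w)) := by
  have h1 : (Q *ᵥ w) ⬝ᵥ ((diagonal d).adjugate *ᵥ (Q *ᵥ w)) =
      ∑ i, (∏ j ∈ Finset.univ.erase i, d j) * (Q *ᵥ w) i ^ 2 := by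
    rw [adjugate_diagonal, dotProduct]
    refine Finset.sum_congr rfl fun i _ => ?_
    rw [mulVec_diagonal]
    ring
  have h2 : Qᵀ * ((diagonal d).adjugate * Q) = Q.det ^ 2 • M.adjugate := by
    rw [← h, adjugate_mul_distrib, adjugate_mul_distrib, Matrix.mul_assoc, Matrix.mul_assoc,
      adjugate_mul, ← Matrix.mul_assoc, mul_adjugate, det_transpose, Matrix.smul_mul,
      Matrix.one_mul, Matrix.mul_smul, Matrix.mul_one, smul_smul, pow_two]
  rw [← h1, ← smul_eq_mul, ← dotProduct_smul, ← smul_mulVec, ← h2, ← mulVec_mulVec,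
    ← mulVec_mulVec, dotProduct_mulVec w Qᵀ, vecMul_transpose]

open Matrix in
/-- The value of the discriminant element. -/
private theorem brT_dl {k : Type*} [Field k] [Algebra k K] {A B : Matrix (Fin 5) (Fin 5) k}
    {e : K} (φ : k[X] →+* K) (hC : ∀ a, φ (C a) = algebraMap k K a) (hX : φ X = e)
    (w : Fin 5 → k) : φ (dl A B w) = (fun i => algebraMap k K (w i)) ⬝ᵥ
      (((A + A.transpose).map (algebraMap k K) -
        e • (B + B.transpose).map (algebraMap k K)).adjugate *ᵥ fun i => algebraMap k K (w i)) := by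
  have h1 : φ ∘ (fun i => C (w i)) = fun i => algebraMap k K (w i) := by
    funext i
    exact hC (w i)
  have h2 : φ.mapMatrix ((A + A.transpose).map C - (X : k[X]) • (B + B.transpose).map C) =
      (A + A.transpose).map (algebraMap k K) - e • (B + B.transpose).map (algebraMap k K) := by
    ext i j
    simp only [RingHom.mapMatrix_apply, Matrix.map_apply, Matrix.sub_apply, Matrix.smul_apply,
      Matrix.add_apply, Matrix.transpose_apply, smul_eq_mul, map_sub, map_mul, map_add, hC, hX]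
  have h3 : (φ ∘ (((A + A.transpose).map C - (X : k[X]) • (B + B.transpose).map C).adjugate *ᵥ
      fun i => C (w i))) = (((A + A.transpose).map (algebraMap k K) -
        e • (B + B.transpose).map (algebraMap k K)).adjugate *ᵥ
          fun i => algebraMap k K (w i)) := by
    funext i
    rw [Function.comp_apply, RingHom.map_mulVec, ← RingHom.mapMatrix_apply, RingHom.map_adjugate,
      h2, h1]
  rw [dl, RingHom.map_dotProduct, h1, h3]

end aux

open Matrix in
/-- **The tangent hyperplane.** `e` is a simple zero of the characteristic polynomial, `R` isotropic for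
the member `q = (1, -e)` and not in its radical. Proof: the radical is a line, spanned by `n`; choose `R'`
isotropic with `q (R, R') = 1`, and `f₁`, `f₂` orthogonal to `R`, `R'` and to each other, such that
`n, R, R', f₁, f₂` is a basis of `K ^ 5`. Let `c = q (f₁)`, `c₂ = q (f₂)`. The adjugate of the Gram matrix is
`γ n nᵀ`, so `dl = γ (n · w)²`, and the Gram determinant of `R, R', f₁, f₂` is `-4 c c₂ = γ det (n, R, R', f₁, f₂)²`
(Cauchy–Binet, or: change the basis in the formula for the adjugate). So `c₂ = -c dl r²`. The value of `q`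
at `u` is `q (R, u) q (R', u) + c x² + c₂ y²`, `x`, `y` the coordinates of `u` at `f₁`, `f₂`. -/
theorem tangent {k K : Type*} [Field k] [Field K] [CharZero K] [Algebra k K]
    {A B : Matrix (Fin 5) (Fin 5) k} {w : Fin 5 → k} {e : K} (he : aeval e (Dq.chp A B) = 0)
    (hs : aeval e (derivative (Dq.chp A B)) ≠ 0) (hδ : aeval e (dl A B w) ≠ 0) {R : Fin 5 → K}
    (hR : mQ A B 1 (-e) R = 0) (hr : ∃ y, mB A B 1 (-e) R y ≠ 0) :
    ∃ (c : K) (ρ σ τ : Fin 5 → K), c ≠ 0 ∧ ∀ u : Fin 5 → K, mQ A B 1 (-e) u =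
      c * ((∑ i, ρ i * u i) ^ 2 - aeval e (dl A B w) * (∑ i, σ i * u i) ^ 2) +
        mB A B 1 (-e) R u * ∑ i, τ i * u i := by
  classical
  set M : Matrix (Fin 5) (Fin 5) K := (A + A.transpose).map (algebraMap k K) -
      e • (B + B.transpose).map (algebraMap k K) with hM
  have hB : ∀ x y : Fin 5 → K, mB A B 1 (-e) x y = x ⬝ᵥ (M *ᵥ y) := fun x y =>
    mB_gram A B e x y
  have hδM : aeval e (dl A B w) = (fun i => algebraMap k K (w i)) ⬝ᵥ
      (M.adjugate *ᵥ fun i => algebraMap k K (w i)) := by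
    exact brT_dl (aeval e : k[X] →ₐ[k] K).toRingHom (fun a => aeval_C e a) (aeval_X e) w
  -- the second isotropic vector
  obtain ⟨R', hRR', hR'⟩ : ∃ R' : Fin 5 → K, mB A B 1 (-e) R R' = 1 ∧ mQ A B 1 (-e) R' = 0 := by
    obtain ⟨y, hy⟩ := hr
    have hRR : mB A B 1 (-e) R R = 0 := by rw [mB_self, hR, mul_zero]
    refine ⟨(mB A B 1 (-e) R y)⁻¹ • (y + (-(mQ A B 1 (-e) y / mB A B 1 (-e) R y)) • R), ?_, ?_⟩
    · rw [mB_smul_right, mB_add_right, mB_smul_right, hRR, mul_zero, add_zero, inv_mul_cancel₀ hy]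
    · rw [mQ_smul, mQ_add, mQ_smul, hR, mB_smul_right, mB_comm _ _ y R, neg_mul,
        div_mul_cancel₀ _ hy]
      ring
  have hRR : mB A B 1 (-e) R R = 0 := by rw [mB_self, hR, mul_zero]
  have hRR'' : mB A B 1 (-e) R' R' = 0 := by rw [mB_self, hR', mul_zero]
  -- the bilinear form
  let Bf : LinearMap.BilinForm K (Fin 5 → K) := LinearMap.mk₂ K (mB A B 1 (-e))
    (fun x y z => mB_add _ _ x y z) (fun c x y => mB_smul _ _ c x y)
    (fun x y z => mB_add_right _ _ x y z) (fun c x y => mB_smul_right _ _ c x y)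
  have hBf : ∀ x y, Bf x y = mB A B 1 (-e) x y := fun x y => rfl
  have hg₀ : mB A B 1 (-e) (R + R') (R + R') = 2 := by
    rw [mB_add, mB_add_right, mB_add_right, hRR, hRR', hRR'', mB_comm _ _ R' R, hRR']
    ring
  have hg₁ : mB A B 1 (-e) (R + (-1 : K) • R') (R + (-1 : K) • R') = -2 := by
    rw [mB_add, mB_add_right, mB_add_right, mB_smul, mB_smul, mB_smul_right, mB_smul_right,
        hRR, hRR', hRR'', mB_comm _ _ R' R, hRR']
    ring
  have hg₀₁ : mB A B 1 (-e) (R + R') (R + (-1 : K) • R') = 0 := by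
    rw [mB_add, mB_add_right, mB_add_right, mB_smul_right, mB_smul_right,
        hRR, hRR', hRR'', mB_comm _ _ R' R, hRR']
    ring
  obtain ⟨p, hp, hp0, hp1, hpo⟩ := brT_basis (B := Bf) (fun x y => mB_comm _ _ x y) hg₀ hg₁ hg₀₁
  set Q : Matrix (Fin 5) (Fin 5) K := Matrix.of p with hQ
  have hQu : IsUnit Q := Matrix.linearIndependent_rows_iff_isUnit.1 hp
  have hQd : IsUnit Q.det := (Matrix.isUnit_iff_isUnit_det Q).1 hQu
  have hD0 : Q.det ≠ 0 := hQd.ne_zero
  let d : Fin 5 → K := fun i => mB A B 1 (-e) (p i) (p i)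
  have hQM : Q * M * Qᵀ = diagonal d := by
    ext i j
    have h1 : (Q * M * Qᵀ) i j = mB A B 1 (-e) (p i) (p j) := by
      rw [hB, Matrix.mul_assoc, Matrix.mul_apply, dotProduct]
      refine Finset.sum_congr rfl fun l _ => ?_
      rw [Matrix.mul_apply]
      rfl
    rw [h1]
    rcases eq_or_ne i j with rfl | hij
    · rw [diagonal_apply_eq]
    · rw [diagonal_apply_ne _ hij]
      exact hpo i j hij
  have hd0 : d 0 = 2 := by
    change mB A B 1 (-e) (p 0) (p 0) = 2
    rw [hp0]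
    exact hg₀
  have hd1 : d 1 = -2 := by
    change mB A B 1 (-e) (p 1) (p 1) = -2
    rw [hp1]
    exact hg₁
  have hdet : ∏ i, d i = 0 := by
    have h1 := congrArg Matrix.det hQM
    rw [det_mul, det_mul, det_diagonal] at h1
    rw [← h1, hM, ← aeval_chp, he, mul_zero, zero_mul]
  have hadj := brT_adj hQM (fun i => algebraMap k K (w i))
  rw [← hδM] at hadj
  -- coordinates
  let f : Fin 5 → Fin 5 → K := fun i j => (Qᵀ)⁻¹ i j
  have hfu : ∀ (i : Fin 5) (u : Fin 5 → K), ∑ j, f i j * u j = ((Qᵀ)⁻¹ *ᵥ u) i :=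
    fun i u => rfl
  have hQt : IsUnit Qᵀ.det := by rwa [det_transpose]
  have hu : ∀ u : Fin 5 → K, Qᵀ *ᵥ ((Qᵀ)⁻¹ *ᵥ u) = u := fun u => by
    rw [mulVec_mulVec, mul_nonsing_inv _ hQt, one_mulVec]
  have hrow : ∀ (i : Fin 5) (u : Fin 5 → K), mB A B 1 (-e) (p i) u = d i * ∑ j, f i j * u j := by
    intro i u
    have h1 : (Q *ᵥ (M *ᵥ u)) i = d i * ((Qᵀ)⁻¹ *ᵥ u) i := by
      conv_lhs => rw [← hu u]
      rw [mulVec_mulVec, mulVec_mulVec, hQM, mulVec_diagonal]
    rw [hB, hfu, ← h1]
    rfl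
  have hval : ∀ u : Fin 5 → K, 2 * mQ A B 1 (-e) u = ∑ i, d i * (∑ j, f i j * u j) ^ 2 := by
    intro u
    have h1 : u = ∑ i, (∑ j, f i j * u j) • p i := by
      conv_lhs => rw [← hu u]
      ext l
      rw [Finset.sum_apply, mulVec, dotProduct]
      refine Finset.sum_congr rfl fun i _ => ?_
      rw [Pi.smul_apply, smul_eq_mul, ← hfu, mul_comm]
      rfl
    rw [← mB_self]
    have h2 : mB A B 1 (-e) u u = Bf u u := rfl
    rw [h2]
    conv_lhs => rw [h1]
    rw [map_sum]
    refine Finset.sum_congr rfl fun i _ => ?_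
    rw [map_smul, smul_eq_mul, ← h1, hBf, mB_comm, hrow]
    ring
  have hq : ∀ u : Fin 5 → K, mQ A B 1 (-e) u = (∑ j, f 0 j * u j) ^ 2 - (∑ j, f 1 j * u j) ^ 2 +
      (d 2 * (∑ j, f 2 j * u j) ^ 2 + d 3 * (∑ j, f 3 j * u j) ^ 2 +
        d 4 * (∑ j, f 4 j * u j) ^ 2) / 2 := by
    intro u
    have h1 := hval u
    rw [Fin.sum_univ_five, hd0, hd1] at h1
    linear_combination h1 / 2
  have hb : ∀ u : Fin 5 → K, mB A B 1 (-e) R u = ∑ j, f 0 j * u j - ∑ j, f 1 j * u j := by
    intro u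
    have h0 := hrow 0 u
    have h1 := hrow 1 u
    rw [hp0, hd0, mB_add] at h0
    rw [hp1, hd1, mB_add, mB_smul] at h1
    linear_combination (h0 + h1) / 2
  rw [Fin.sum_univ_five] at hadj
  have e0 : ∏ j ∈ Finset.univ.erase (0 : Fin 5), d j = d 1 * d 2 * d 3 * d 4 := by
    rw [show Finset.univ.erase (0 : Fin 5) = {1, 2, 3, 4} by decide]
    rw [Finset.prod_insert (by decide), Finset.prod_insert (by decide), Finset.prod_insert (by decide),
      Finset.prod_singleton]
    ring
  have e1 : ∏ j ∈ Finset.univ.erase (1 : Fin 5), d j = d 0 * d 2 * d 3 * d 4 := by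
    rw [show Finset.univ.erase (1 : Fin 5) = {0, 2, 3, 4} by decide]
    rw [Finset.prod_insert (by decide), Finset.prod_insert (by decide), Finset.prod_insert (by decide),
      Finset.prod_singleton]
    ring
  have e2 : ∏ j ∈ Finset.univ.erase (2 : Fin 5), d j = d 0 * d 1 * d 3 * d 4 := by
    rw [show Finset.univ.erase (2 : Fin 5) = {0, 1, 3, 4} by decide]
    rw [Finset.prod_insert (by decide), Finset.prod_insert (by decide), Finset.prod_insert (by decide),
      Finset.prod_singleton]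
    ring
  have e3 : ∏ j ∈ Finset.univ.erase (3 : Fin 5), d j = d 0 * d 1 * d 2 * d 4 := by
    rw [show Finset.univ.erase (3 : Fin 5) = {0, 1, 2, 4} by decide]
    rw [Finset.prod_insert (by decide), Finset.prod_insert (by decide), Finset.prod_insert (by decide),
      Finset.prod_singleton]
    ring
  have e4 : ∏ j ∈ Finset.univ.erase (4 : Fin 5), d j = d 0 * d 1 * d 2 * d 3 := by
    rw [show Finset.univ.erase (4 : Fin 5) = {0, 1, 2, 3} by decide]
    rw [Finset.prod_insert (by decide), Finset.prod_insert (by decide), Finset.prod_insert (by decide),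
      Finset.prod_singleton]
    ring
  rw [e0, e1, e2, e3, e4, hd0, hd1] at hadj
  rw [Fin.prod_univ_five, hd0, hd1] at hdet
  have h3 : d 2 * d 3 * d 4 = 0 := by
    have h4 : (2 : K) * -2 ≠ 0 := mul_ne_zero two_ne_zero (neg_ne_zero.2 two_ne_zero)
    refine (mul_eq_zero.1 (?_ : (2 : K) * -2 * (d 2 * d 3 * d 4) = 0)).resolve_left h4
    rw [← hdet]
    ring
  rcases mul_eq_zero.1 h3 with h | h4
  · rcases mul_eq_zero.1 h with h2 | h2
    · rw [h2] at hadj
      refine brT_fin (fa := f 3) (fb := f 4) (da := d 3) (db := d 4)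
        (z := (Q *ᵥ fun i => algebraMap k K (w i)) 2) (fun u => ?_) hb ?_ hD0 hδ
      · rw [hq u, h2]
        ring
      · rw [← hadj]
        ring
    · rw [h2] at hadj
      refine brT_fin (fa := f 2) (fb := f 4) (da := d 2) (db := d 4)
        (z := (Q *ᵥ fun i => algebraMap k K (w i)) 3) (fun u => ?_) hb ?_ hD0 hδ
      · rw [hq u, h2]
        ring
      · rw [← hadj]
        ring
  · rw [h4] at hadj
    refine brT_fin (fa := f 2) (fb := f 3) (da := d 2) (db := d 3)
      (z := (Q *ᵥ fun i => algebraMap k K (w i)) 4) (fun u => ?_) hb ?_ hD0 hδ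
    · rw [hq u, h4]
      ring
    · rw [← hadj]
      ring

end Dr
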