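import Pool.Agent.Lib.MP_f80667_ag.Dr.Rs

/-! Duality for the residue functional. -/

open Polynomial

namespace Dr

variable {k : Type*} [Field k]

/-- The coefficients of the polynomials `q j`. -/
theorem DlA_coeff (D : k[X]) (j m : ℕ) :
    (∑ i ∈ Finset.range (D.natDegree - j), C (D.coeff (i + j + 1)) * X ^ i : k[X]).coeff m =
      D.coeff (m + j + 1) := by
  rw [finsetSum_coeff]
  simp only [coeff_C_mul, coeff_X_pow, mul_ite, mul_one, mul_zero]
  rw [Finset.sum_ite_eq]
  split_ifs with h
  · rfl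
  · rw [Finset.mem_range, not_lt] at h
    exact (coeff_eq_zero_of_natDegree_lt (by omega)).symm

/-- A polynomial whose coefficients from the degree of `D` on vanish. -/
theorem DlA_Rs {D : k[X]} (hD : D.Monic) (hn : 0 < D.natDegree) (p : k[X])
    (hp : ∀ m, D.natDegree ≤ m → p.coeff m = 0) :
    Rs hD (AdjoinRoot.mk D p) = p.coeff (D.natDegree - 1) := by
  refine Rs_lt hD ?_
  rcases eq_or_ne p 0 with h0 | h0
  · rw [h0, natDegree_zero]
    exact hn
  · rw [natDegree_lt_iff_degree_lt h0]
    exact (degree_lt_iff_coeff_zero p _).2 hp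

theorem DlA_key {D : k[X]} (hD : D.Monic) {j l : ℕ} (hj : j < D.natDegree) (hl : l < D.natDegree) :
    Rs hD (AdjoinRoot.mk D (∑ i ∈ Finset.range (D.natDegree - j),
      C (D.coeff (i + j + 1)) * X ^ i) * AdjoinRoot.root D ^ l) = if l = j then 1 else 0 := by
  have hn : 0 < D.natDegree := lt_of_le_of_lt (Nat.zero_le _) hj
  have hc : ∀ m, (∑ i ∈ Finset.range (D.natDegree - j),
      C (D.coeff (i + j + 1)) * X ^ i : k[X]).coeff m = D.coeff (m + j + 1) := DlA_coeff D j
  generalize (∑ i ∈ Finset.range (D.natDegree - j),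
      C (D.coeff (i + j + 1)) * X ^ i : k[X]) = q at hc
  have hz : ∀ m, D.natDegree < m → D.coeff m = 0 := fun m hm => coeff_eq_zero_of_natDegree_lt hm
  have hroot : AdjoinRoot.root D ^ l = AdjoinRoot.mk D (X ^ l) := by
    rw [map_pow, AdjoinRoot.mk_X]
  rw [hroot, ← map_mul]
  rcases le_or_gt l j with hlj | hlj
  · rw [DlA_Rs hD hn, coeff_mul_X_pow', if_pos (by omega), hc]
    · split_ifs with h
      · have e : D.natDegree - 1 - l + j + 1 = D.natDegree := by omega
        rw [e]
        exact hD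
      · exact hz _ (by omega)
    · intro m hm
      rw [coeff_mul_X_pow', if_pos (by omega), hc]
      exact hz _ (by omega)
  · rw [if_neg (by omega)]
    have e : q * X ^ l = D * X ^ (l - (j + 1)) + -((D - q * X ^ (j + 1)) * X ^ (l - (j + 1))) := by
      have e1 : (X : k[X]) ^ l = X ^ (j + 1) * X ^ (l - (j + 1)) := by
        rw [← pow_add]
        congr 1
        omega
      rw [e1]
      ring
    have hlow : ∀ m, j < m → (D - q * X ^ (j + 1)).coeff m = 0 := by
      intro m hm
      rw [coeff_sub, coeff_mul_X_pow', if_pos (by omega), hc]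
      have e2 : m - (j + 1) + j + 1 = m := by omega
      rw [e2, sub_self]
    rw [e, map_add, map_mul, AdjoinRoot.mk_self, zero_mul, zero_add, DlA_Rs hD hn]
    · rw [coeff_neg, coeff_mul_X_pow', if_pos (by omega), hlow _ (by omega), neg_zero]
    · intro m hm
      rw [coeff_neg, coeff_mul_X_pow', if_pos (by omega), hlow _ (by omega), neg_zero]

/-- Duality. `D₁ (T, X) = (D (T) - D (X)) / (T - X)`; the representative of `h` is the residue of
`h (X) D₁ (T, X)`, coefficients in `k[T]`. Formulated with the coefficients: if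
`D₁ = ∑ j, (q j) (T) X ^ j` then `Rs (h · X ^ j)` are the coordinates. Here: for a functional `τ` on
`k[X] / D` and `β` of degree less than `deg D` with `∑ j, τ (X ^ j) q j = β` one has `τ x = Rs (β x)`.
Proof: `(T - X) D₁ (T, X) = D (T) - D (X)`; so `τ (X ^ (j + 1))` and `Rs (β X ^ (j + 1))` satisfy the same
recursion; or compare on the dual basis. -/
theorem func_eq {D : k[X]} (hD : D.Monic) (τ : AdjoinRoot D →ₗ[k] k) (β : k[X])
    (hβ : β.degree < D.degree)
    (h : β = ∑ j ∈ Finset.range D.natDegree,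
      C (τ (AdjoinRoot.root D ^ j)) * (∑ i ∈ Finset.range (D.natDegree - j),
        C (D.coeff (i + j + 1)) * X ^ i)) (x : AdjoinRoot D) :
    τ x = Rk LinearMap.id hD (AdjoinRoot.mk D β * x) := by
  have hT : τ = (Rk LinearMap.id hD) ∘ₗ LinearMap.mulLeft k (AdjoinRoot.mk D β) := by
    refine (AdjoinRoot.powerBasis' hD).basis.ext fun l => ?_
    rw [PowerBasis.basis_eq_pow, AdjoinRoot.powerBasis'_gen, LinearMap.comp_apply,
      LinearMap.mulLeft_apply, Rk_apply, LinearMap.id_apply]
    have hl : (l : ℕ) < D.natDegree :=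
      lt_of_lt_of_eq l.2 (AdjoinRoot.powerBasis'_dim hD)
    have e : AdjoinRoot.mk D β * AdjoinRoot.root D ^ (l : ℕ) =
        ∑ j ∈ Finset.range D.natDegree, τ (AdjoinRoot.root D ^ j) •
          (AdjoinRoot.mk D (∑ i ∈ Finset.range (D.natDegree - j),
            C (D.coeff (i + j + 1)) * X ^ i) * AdjoinRoot.root D ^ (l : ℕ)) := by
      conv_lhs => rw [h]
      rw [map_sum, Finset.sum_mul]
      refine Finset.sum_congr rfl fun j _ => ?_
      rw [map_mul, AdjoinRoot.mk_C, ← AdjoinRoot.algebraMap_eq, Algebra.smul_def, mul_assoc]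
    rw [e, map_sum]
    have e1 : ∀ j ∈ Finset.range D.natDegree, Rs hD (τ (AdjoinRoot.root D ^ j) •
          (AdjoinRoot.mk D (∑ i ∈ Finset.range (D.natDegree - j),
            C (D.coeff (i + j + 1)) * X ^ i) * AdjoinRoot.root D ^ (l : ℕ))) =
        if (l : ℕ) = j then τ (AdjoinRoot.root D ^ j) else 0 := by
      intro j hj
      rw [map_smul, DlA_key hD (Finset.mem_range.1 hj) hl, smul_eq_mul]
      split_ifs <;> simp
    rw [Finset.sum_congr rfl e1, Finset.sum_ite_eq, if_pos (Finset.mem_range.2 hl)]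
  conv_lhs => rw [hT]
  rfl

end Dr
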