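import Pool.Agent.Lib.MP_f80667_ag.Dr.Dl
import Pool.Agent.Lib.MP_f80667_ag.Dr.DlA

/-! The diagonal form of the pencil. -/

open Polynomial Matrix

namespace Dr

open ZC Tq Dp

variable {k : Type*} [Field k]

/-- The polar form is given by the symmetric matrix. -/
theorem dlB_bv (A : Matrix (Fin 5) (Fin 5) k) (x y : Fin 5 → k) :
    bv A x y = x ⬝ᵥ ((A + A.transpose) *ᵥ y) := by
  have h1 : x ⬝ᵥ ((A + A.transpose) *ᵥ y) =
      ∑ i, ∑ j, (x i * (A i j * y j) + x i * (A j i * y j)) := by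
    rw [dotProduct]
    refine Finset.sum_congr rfl fun i _ => ?_
    rw [mulVec, dotProduct, Finset.mul_sum]
    refine Finset.sum_congr rfl fun j _ => ?_
    rw [Matrix.add_apply, Matrix.transpose_apply]
    ring
  have h2 : bv A x y = ∑ i, ∑ j, (x i * (A i j * y j) + A i j * (y i * x j)) := by
    refine Finset.sum_congr rfl fun i _ => Finset.sum_congr rfl fun j _ => ?_
    rw [Algebra.algebraMap_self, RingHom.id_apply]
    ring
  rw [h1, h2]
  simp only [Finset.sum_add_distrib]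
  congr 1
  rw [Finset.sum_comm]
  refine Finset.sum_congr rfl fun i _ => Finset.sum_congr rfl fun j _ => ?_
  ring

/-- The coefficients of the divided difference `(D (T) - D (x)) / (T - x)`. -/
noncomputable def dlBq (D : k[X]) (j : ℕ) : k[X] :=
  ∑ i ∈ Finset.range (D.natDegree - j), C (D.coeff (i + j + 1)) * X ^ i

theorem dlBq_succ (D : k[X]) (j : ℕ) (hj : j < D.natDegree) :
    dlBq D j = C (D.coeff (j + 1)) + X * dlBq D (j + 1) := by
  rw [dlBq, dlBq]
  obtain ⟨m, hm⟩ : ∃ m, D.natDegree - j = m + 1 := ⟨D.natDegree - j - 1, by omega⟩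
  rw [hm, show D.natDegree - (j + 1) = m by omega, Finset.sum_range_succ', Finset.mul_sum, add_comm]
  congr 1
  · rw [pow_zero, mul_one, zero_add]
  · refine Finset.sum_congr rfl fun i _ => ?_
    rw [show i + 1 + j + 1 = i + (j + 1) + 1 by omega, pow_succ]
    ring

theorem dlBq_zero (D : k[X]) : D = C (D.coeff 0) + X * dlBq D 0 := by
  conv_lhs => rw [D.as_sum_range_C_mul_X_pow]
  rw [Finset.sum_range_succ', dlBq, Finset.mul_sum, add_comm, pow_zero, mul_one]
  congr 1
  refine Finset.sum_congr rfl fun i _ => ?_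
  rw [add_zero, pow_succ]
  ring

theorem dlBq_top (D : k[X]) : dlBq D D.natDegree = 0 := by
  rw [dlBq, Nat.sub_self, Finset.sum_range_zero]

/-- The divided difference formula, for a matrix `x` with polynomial entries. -/
theorem dlB_div (D : k[X]) (x : Matrix (Fin 5) (Fin 5) k[X]) :
    (x - (X : k[X]) • (1 : Matrix (Fin 5) (Fin 5) k[X])) *
      (∑ j ∈ Finset.range D.natDegree, dlBq D j • x ^ j) =
      (∑ j ∈ Finset.range (D.natDegree + 1), (C (D.coeff j) : k[X]) • x ^ j) -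
        D • (1 : Matrix (Fin 5) (Fin 5) k[X]) := by
  have key : ∀ n, n ≤ D.natDegree →
      (x - (X : k[X]) • (1 : Matrix (Fin 5) (Fin 5) k[X])) *
        (∑ j ∈ Finset.range n, dlBq D j • x ^ j) =
      (∑ j ∈ Finset.range (n + 1), (C (D.coeff j) : k[X]) • x ^ j) -
        D • (1 : Matrix (Fin 5) (Fin 5) k[X]) + ((X : k[X]) * dlBq D n) • x ^ n := by
    intro n
    induction n with
    | zero =>
      intro _
      rw [Finset.sum_range_zero, mul_zero, Finset.sum_range_one, pow_zero]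
      rw [← sub_smul, ← add_smul]
      have h1 : C (D.coeff 0) - D + X * dlBq D 0 = 0 := by
        linear_combination -dlBq_zero D
      rw [h1, zero_smul]
    | succ n ih =>
      intro hn
      rw [Finset.sum_range_succ, mul_add, ih (by omega), Finset.sum_range_succ _ (n + 1)]
      have h1 : (x - (X : k[X]) • (1 : Matrix (Fin 5) (Fin 5) k[X])) * (dlBq D n • x ^ n) =
          dlBq D n • x ^ (n + 1) - ((X : k[X]) * dlBq D n) • x ^ n := by
        rw [sub_mul, mul_smul_comm, smul_mul_assoc, one_mul, ← pow_succ', smul_smul]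
      rw [h1, dlBq_succ D n (by omega), add_smul]
      abel
  rw [key _ le_rfl, dlBq_top, mul_zero, zero_smul, add_zero]

/-- The pencil matrix and the divided difference. -/
theorem dlB_adj {G H K : Matrix (Fin 5) (Fin 5) k} {D : k[X]} {c : k} (hc : c ≠ 0)
    (hH : H * K = 1) (hf : (G.map C - (X : k[X]) • H.map C).det = C c * D) (hD0 : D ≠ 0)
    (hch : aeval (K * G) D = 0) :
    (G.map C - (X : k[X]) • H.map C).adjugate =
      -((C c : k[X]) • ((∑ j ∈ Finset.range D.natDegree, dlBq D j • (K * G).map C ^ j) *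
        K.map C)) := by
  set M : Matrix (Fin 5) (Fin 5) k[X] := G.map C - (X : k[X]) • H.map C with hM
  set x : Matrix (Fin 5) (Fin 5) k[X] := (K * G).map C with hx
  set S : Matrix (Fin 5) (Fin 5) k[X] := ∑ j ∈ Finset.range D.natDegree, dlBq D j • x ^ j with hS
  have hmap : ∀ P Q : Matrix (Fin 5) (Fin 5) k, (P * Q).map C = P.map C * (Q.map C : Matrix _ _ k[X]) :=
    fun P Q => Matrix.map_mul
  have hone : (1 : Matrix (Fin 5) (Fin 5) k).map C = (1 : Matrix (Fin 5) (Fin 5) k[X]) := by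
    rw [Matrix.map_one C C_0 C_1]
  have hMx : M = H.map C * (x - (X : k[X]) • (1 : Matrix (Fin 5) (Fin 5) k[X])) := by
    rw [mul_sub, hx, ← hmap, ← mul_assoc, hH, one_mul, mul_smul_comm, mul_one]
  -- Cayley - Hamilton
  have hch' : (∑ j ∈ Finset.range (D.natDegree + 1), (C (D.coeff j) : k[X]) • x ^ j) = 0 := by
    have h1 : aeval (K * G) D = ∑ j ∈ Finset.range (D.natDegree + 1), D.coeff j • (K * G) ^ j :=
      aeval_eq_sum_range (K * G)
    rw [hch] at h1
    have h2 := congrArg (C : k →+* k[X]).mapMatrix h1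
    rw [map_zero, map_sum] at h2
    rw [h2]
    refine Finset.sum_congr rfl fun j _ => ?_
    rw [hx]
    have h3 : (C : k →+* k[X]).mapMatrix (D.coeff j • (K * G) ^ j) =
        (C (D.coeff j) : k[X]) • (C : k →+* k[X]).mapMatrix ((K * G) ^ j) := by
      ext a b
      simp
    rw [h3, map_pow]
    rfl
  have h1 : (x - (X : k[X]) • (1 : Matrix (Fin 5) (Fin 5) k[X])) * S =
      -(D • (1 : Matrix (Fin 5) (Fin 5) k[X])) := by
    rw [hS, dlB_div, hch', zero_sub]
  have h2 : M * -((C c : k[X]) • (S * K.map C)) = M.det • (1 : Matrix (Fin 5) (Fin 5) k[X]) := by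
    rw [mul_neg, mul_smul_comm, ← mul_assoc, hMx, mul_assoc (H.map C), h1, ← hMx, hf]
    rw [mul_neg, neg_mul, smul_neg, neg_neg, mul_smul_comm, mul_one, smul_mul_assoc, ← hmap, hH,
      hone, smul_smul]
  have h3 : M.det • M.adjugate = M.det • -((C c : k[X]) • (S * K.map C)) := by
    calc M.det • M.adjugate = M.adjugate * (M.det • (1 : Matrix (Fin 5) (Fin 5) k[X])) := by
          rw [mul_smul_comm, mul_one]
      _ = M.adjugate * M * -((C c : k[X]) • (S * K.map C)) := by rw [← h2, mul_assoc]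
      _ = M.det • -((C c : k[X]) • (S * K.map C)) := by
          rw [Matrix.adjugate_mul, smul_mul_assoc, one_mul]
  have h4 : M.det ≠ 0 := by
    rw [hf]
    exact mul_ne_zero (C_ne_zero.2 hc) hD0
  refine Matrix.ext fun a b => ?_
  have h5 := congrFun (congrFun h3 a) b
  rw [Matrix.smul_apply, Matrix.smul_apply, smul_eq_mul, smul_eq_mul] at h5
  exact mul_left_cancel₀ h4 h5

/-- The polynomial `D` is the characteristic polynomial. -/
theorem dlB_ch {G H K : Matrix (Fin 5) (Fin 5) k} {D : k[X]} {c : k} (hc : c ≠ 0)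
    (hH : H * K = 1) (hdet : H.det = -c)
    (hf : (G.map C - (X : k[X]) • H.map C).det = C c * D) : aeval (K * G) D = 0 := by
  have h1 : (G.map C - (X : k[X]) • H.map C) =
      -((H.map C : Matrix (Fin 5) (Fin 5) k[X]) * charmatrix (K * G)) := by
    have h2 : (H.map C : Matrix (Fin 5) (Fin 5) k[X]) * ((K * G).map C) = G.map C := by
      rw [← Matrix.map_mul, ← mul_assoc, hH, one_mul]
    have h3 : charmatrix (K * G) = (X : k[X]) • (1 : Matrix (Fin 5) (Fin 5) k[X]) -
        (K * G).map C := by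
      rw [charmatrix, Matrix.scalar_apply, Matrix.smul_one_eq_diagonal]
      rfl
    rw [h3, mul_sub, neg_sub, h2, mul_smul_comm, mul_one]
  have h2 : C c * D = C c * (K * G).charpoly := by
    have h3 : (H.map C : Matrix (Fin 5) (Fin 5) k[X]).det = C (-c) := by
      rw [← hdet]
      exact ((C : k →+* k[X]).map_det H).symm
    rw [← hf, h1, Matrix.det_neg, Matrix.det_mul, h3, Fintype.card_fin, ← Matrix.charpoly, C_neg]
    ring
  rw [mul_left_cancel₀ (C_ne_zero.2 hc) h2]
  exact Matrix.aeval_self_charpoly _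

/-- The leading coefficient. -/
theorem dlB_det {G H : Matrix (Fin 5) (Fin 5) k} {D : k[X]} (hD : D.Monic)
    (hn : D.natDegree = 5) {c : k}
    (hf : (G.map C - (X : k[X]) • H.map C).det = C c * D) : H.det = -c := by
  have h1 := Polynomial.coeff_det_X_add_C_card (-H) G
  have h2 : (X : k[X]) • (-H).map C + G.map C = G.map C - (X : k[X]) • H.map C := by
    have h3 : (-H).map C = -(H.map C : Matrix (Fin 5) (Fin 5) k[X]) := by
      ext a b : 1
      rw [Matrix.map_apply, Matrix.neg_apply, Matrix.neg_apply, Matrix.map_apply, C_neg]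
    rw [h3, smul_neg, neg_add_eq_sub]
  have h4 : D.coeff 5 = 1 := by
    rw [← hn]
    exact hD.coeff_natDegree
  rw [h2, hf, Fintype.card_fin, coeff_C_mul, h4, mul_one,
    Matrix.det_neg, Fintype.card_fin] at h1
  linear_combination h1

/-- **The diagonal form.** Proof: `G_A = A + Aᵀ`, `G_B = B + Bᵀ`, `G_B` is invertible (the leading
coefficient of `chp` is `-det G_B`), `C₀ = G_B⁻¹ G_A`, `w' = G_B⁻¹ w`. For polynomials `h`:
`τ (h) = -w'ᵀ G_B h (C₀) w'` is a functional on `k[X] / D` (Cayley–Hamilton: `D (C₀) = 0`), and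
`τ (h) = Rs ((dl / c) h)` by `func_eq`: `adj (G_A - T G_B) G_B (C₀ - T) = chp (T)`, so
`adj (G_A - T G_B) G_B = -∑ (coefficients of the divided difference of chp) C₀ ^ j` (comparison of
coefficients, or cancellation of the monic `T - C₀`), and `w = G_B w'`. The map `h ↦ h (C₀) w'` from
`k[X] / D` to `k ^ 5` is injective: if `h (C₀) w' = 0` then `τ (h g) = 0` for all `g`, so `h = 0` since `dl` is a
unit. Dimensions: bijective; `φ` is the inverse. `G_B (h (C₀) w', g (C₀) w') = -τ (h g)`,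
`G_A (…) = -τ (X h g)` since `h (C₀)` is self adjoint for `G_B` and `G_A = G_B C₀`. -/
theorem exists_phi {A B : Matrix (Fin 5) (Fin 5) k} (w : Fin 5 → k) {D : k[X]} (hD : D.Monic)
    (hn : D.natDegree = 5) {c : k} (hc : c ≠ 0) (hf : Dq.chp A B = C c * D)
    (hδ : IsUnit (AdjoinRoot.mk D (dl A B w))) :
    ∃ φ : (Fin 5 → k) ≃ₗ[k] AdjoinRoot D,
      (∀ x y : Fin 5 → k, bv A x y = -Rk LinearMap.id hD
        (AdjoinRoot.mk D (C c⁻¹ * dl A B w) * (AdjoinRoot.root D * (φ x * φ y)))) ∧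
      ∀ x y : Fin 5 → k, bv B x y = -Rk LinearMap.id hD
        (AdjoinRoot.mk D (C c⁻¹ * dl A B w) * (φ x * φ y)) := by
  have hD0 : D ≠ 0 := hD.ne_zero
  obtain ⟨G, hG⟩ : ∃ G, G = A + A.transpose := ⟨_, rfl⟩
  obtain ⟨H, hH⟩ : ∃ H, H = B + B.transpose := ⟨_, rfl⟩
  have hGt : G.transpose = G := by
    rw [hG, Matrix.transpose_add, Matrix.transpose_transpose, add_comm]
  have hHt : H.transpose = H := by
    rw [hH, Matrix.transpose_add, Matrix.transpose_transpose, add_comm]
  have hf' : (G.map C - (X : k[X]) • H.map C).det = C c * D := by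
    rw [hG, hH]
    exact hf
  have hdet : H.det = -c := dlB_det hD hn hf'
  have hunit : IsUnit H.det := by
    rw [hdet]
    exact (neg_ne_zero.2 hc).isUnit
  have hHK : H * H⁻¹ = 1 := Matrix.mul_nonsing_inv H hunit
  have hKH : H⁻¹ * H = 1 := Matrix.nonsing_inv_mul H hunit
  have hch := dlB_ch hc hHK hdet hf'
  have hadj := dlB_adj hc hHK hf' hD0 hch
  have hKt : (H⁻¹).transpose = H⁻¹ := by
    rw [Matrix.transpose_nonsing_inv, hHt]
  obtain ⟨M₀, hM₀⟩ : ∃ M₀ : Matrix (Fin 5) (Fin 5) k, M₀ = H⁻¹ * G := ⟨_, rfl⟩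
  rw [← hM₀] at hch hadj
  have hHM : H * M₀ = G := by
    rw [hM₀, ← mul_assoc, hHK, one_mul]
  have hMt : M₀.transpose * H = H * M₀ := by
    rw [hHM, hM₀, Matrix.transpose_mul, hKt, hGt, mul_assoc, hKH, mul_one]
  -- self adjointness
  have hsa : ∀ p : k[X], (aeval M₀ p).transpose * H = H * aeval M₀ p := by
    intro p
    induction p using Polynomial.induction_on' with
    | add p q hp hq =>
      rw [map_add, Matrix.transpose_add, add_mul, hp, hq, mul_add]
    | monomial m a =>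
      rw [aeval_monomial, Matrix.transpose_mul, Matrix.transpose_pow]
      have h1 : (algebraMap k (Matrix (Fin 5) (Fin 5) k) a).transpose =
          algebraMap k (Matrix (Fin 5) (Fin 5) k) a := by
        rw [Matrix.algebraMap_eq_diagonal, Matrix.diagonal_transpose]
      have h2 : ∀ n : ℕ, M₀.transpose ^ n * H = H * M₀ ^ n := by
        intro n
        induction n with
        | zero => rw [pow_zero, pow_zero, one_mul, mul_one]
        | succ n ih => rw [pow_succ, mul_assoc, hMt, ← mul_assoc, ih, mul_assoc, ← pow_succ]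
      rw [h1, mul_assoc, Algebra.commutes a H, ← mul_assoc, h2, mul_assoc,
        ← Algebra.commutes a (M₀ ^ m)]
  obtain ⟨w', hw'⟩ : ∃ w', w' = H⁻¹ *ᵥ w := ⟨_, rfl⟩
  have hHw : H *ᵥ w' = w := by
    rw [hw', Matrix.mulVec_mulVec, hHK, Matrix.one_mulVec]
  -- the map `h ↦ h (M₀) w'`
  let Ψ : AdjoinRoot D →ₗ[k] (Fin 5 → k) :=
    { toFun := fun x => aeval M₀ (AdjoinRoot.modByMonicHom hD x) *ᵥ w'
      map_add' := fun x y => by
        rw [map_add, map_add, Matrix.add_mulVec]
      map_smul' := fun a x => by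
        rw [map_smul, map_smul, Matrix.smul_mulVec, RingHom.id_apply] }
  have hΨ : ∀ p : k[X], Ψ (AdjoinRoot.mk D p) = aeval M₀ p *ᵥ w' := by
    intro p
    change aeval M₀ (AdjoinRoot.modByMonicHom hD (AdjoinRoot.mk D p)) *ᵥ w' = _
    rw [AdjoinRoot.modByMonicHom_mk]
    congr 1
    conv_rhs => rw [← modByMonic_add_div p D]
    rw [map_add, map_mul, hch, zero_mul, add_zero]
  -- the functional
  let τ : AdjoinRoot D →ₗ[k] k :=
    { toFun := fun x => -(w ⬝ᵥ Ψ x)
      map_add' := fun x y => by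
        rw [map_add, dotProduct_add, neg_add]
      map_smul' := fun a x => by
        rw [map_smul, dotProduct_smul, RingHom.id_apply, smul_neg] }
  have hτ : ∀ x, τ x = -(w ⬝ᵥ Ψ x) := fun x => rfl
  have hbil : ∀ p q : k[X], (aeval M₀ p *ᵥ w') ⬝ᵥ (H *ᵥ (aeval M₀ q *ᵥ w')) =
      -τ (AdjoinRoot.mk D (p * q)) := by
    intro p q
    have hwH : w' ᵥ* H = w := by
      rw [← hHt, Matrix.vecMul_transpose, hHw]
    rw [hτ, neg_neg, hΨ, map_mul]
    calc (aeval M₀ p *ᵥ w') ⬝ᵥ (H *ᵥ (aeval M₀ q *ᵥ w'))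
        = (w' ᵥ* (aeval M₀ p).transpose) ⬝ᵥ ((H * aeval M₀ q) *ᵥ w') := by
          rw [Matrix.vecMul_transpose, Matrix.mulVec_mulVec]
      _ = w' ⬝ᵥ ((aeval M₀ p).transpose *ᵥ ((H * aeval M₀ q) *ᵥ w')) := by
          rw [Matrix.dotProduct_mulVec w']
      _ = w' ⬝ᵥ (H *ᵥ ((aeval M₀ p * aeval M₀ q) *ᵥ w')) := by
          rw [Matrix.mulVec_mulVec, Matrix.mulVec_mulVec, ← mul_assoc, hsa, mul_assoc]
      _ = w ⬝ᵥ ((aeval M₀ p * aeval M₀ q) *ᵥ w') := by
          rw [Matrix.dotProduct_mulVec w', hwH]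
  have hβ : C c⁻¹ * dl A B w = ∑ j ∈ Finset.range D.natDegree,
      C (τ (AdjoinRoot.root D ^ j)) * dlBq D j := by
    let wC : Fin 5 → k[X] := fun i => C (w i)
    let Λ : Matrix (Fin 5) (Fin 5) k[X] →ₗ[k[X]] k[X] :=
      { toFun := fun N => wC ⬝ᵥ (N *ᵥ wC)
        map_add' := fun N N' => by
          rw [Matrix.add_mulVec, dotProduct_add]
        map_smul' := fun a N => by
          rw [Matrix.smul_mulVec, dotProduct_smul, RingHom.id_apply] }
    have hΛ : ∀ N : Matrix (Fin 5) (Fin 5) k, Λ (N.map C) = C (w ⬝ᵥ (N *ᵥ w)) := by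
      intro N
      have h1 := (C : k →+* k[X]).map_dotProduct w (N *ᵥ w)
      rw [h1]
      change wC ⬝ᵥ (N.map C *ᵥ wC) = _
      congr 1
      funext i
      exact ((C : k →+* k[X]).map_mulVec N w i).symm
    have hΛ' : ∀ N, Λ N = (fun i => C (w i)) ⬝ᵥ (N *ᵥ fun i => C (w i)) := fun N => rfl
    have e1 : dl A B w = Λ (G.map C - (X : k[X]) • H.map C).adjugate := by
      rw [dl, ← hG, ← hH, hΛ']
    have e2 : ∀ j : ℕ, (M₀.map C ^ j * (H⁻¹).map C : Matrix (Fin 5) (Fin 5) k[X]) =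
        (M₀ ^ j * H⁻¹).map C := by
      intro j
      have h1 : (M₀ ^ j).map C = (M₀.map C ^ j : Matrix (Fin 5) (Fin 5) k[X]) :=
        map_pow (C : k →+* k[X]).mapMatrix M₀ j
      rw [Matrix.map_mul, h1]
    have e3 : ∀ j : ℕ, w ⬝ᵥ ((M₀ ^ j * H⁻¹) *ᵥ w) = -τ (AdjoinRoot.root D ^ j) := by
      intro j
      have h1 : AdjoinRoot.root D ^ j = AdjoinRoot.mk D (X ^ j) := by
        rw [map_pow]
        rfl
      rw [h1, hτ, neg_neg, hΨ, map_pow, aeval_X, ← Matrix.mulVec_mulVec, hw']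
    rw [e1, hadj, map_neg, map_smul, Finset.sum_mul, map_sum, smul_eq_mul, ← mul_neg, ← mul_assoc,
      ← C_mul, inv_mul_cancel₀ hc, C_1, one_mul, ← Finset.sum_neg_distrib]
    refine Finset.sum_congr rfl fun j _ => ?_
    rw [smul_mul_assoc, map_smul, e2, hΛ, e3, smul_eq_mul, C_neg]
    ring
  have hdeg : (C c⁻¹ * dl A B w).degree < D.degree := by
    rw [hβ, degree_eq_natDegree hD0, hn, ← mem_degreeLT]
    refine Submodule.sum_mem _ fun j _ => ?_
    rw [C_mul']
    refine Submodule.smul_mem _ _ ?_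
    rw [dlBq]
    refine Submodule.sum_mem _ fun i hi => ?_
    rw [C_mul']
    refine Submodule.smul_mem _ _ ?_
    rw [mem_degreeLT, degree_X_pow]
    rw [Finset.mem_range, hn] at hi
    exact_mod_cast (by omega : i < 5)
  have hfun := func_eq hD τ _ hdeg hβ
  have hunit' : IsUnit (AdjoinRoot.mk D (C c⁻¹ * dl A B w)) := by
    rw [map_mul]
    refine IsUnit.mul (IsUnit.map _ ?_) hδ
    exact isUnit_C.2 (inv_ne_zero hc).isUnit
  have hinj : Function.Injective Ψ := by
    rw [← LinearMap.ker_eq_bot, LinearMap.ker_eq_bot']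
    intro x hx
    obtain ⟨p, rfl⟩ := AdjoinRoot.mk_surjective x
    have h1 : NF (LinearMap.id : k →ₗ[k] k) := fun a ha => by
      have := ha 1
      rwa [mul_one] at this
    have h2 := Rk_NF h1 hD (AdjoinRoot.mk D (C c⁻¹ * dl A B w) * AdjoinRoot.mk D p) (fun y => by
      obtain ⟨q, rfl⟩ := AdjoinRoot.mk_surjective y
      rw [mul_assoc, ← hfun, hτ, ← map_mul, hΨ, mul_comm, map_mul, ← Matrix.mulVec_mulVec, ← hΨ, hx,
        Matrix.mulVec_zero, dotProduct_zero, neg_zero])
    exact (hunit'.mul_right_eq_zero).1 h2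
  have hfin : Module.finrank k (AdjoinRoot D) = Module.finrank k (Fin 5 → k) := by
    rw [(AdjoinRoot.powerBasis' hD).finrank, AdjoinRoot.powerBasis'_dim, hn,
      Module.finrank_fin_fun]
  have _ : Module.Finite k (AdjoinRoot D) := (AdjoinRoot.powerBasis' hD).finite
  let e := LinearMap.linearEquivOfInjective Ψ hinj hfin
  have he : ∀ x, Ψ (e.symm x) = x := fun x => e.apply_symm_apply x
  refine ⟨e.symm, fun x y => ?_, fun x y => ?_⟩
  · obtain ⟨p, hp⟩ := AdjoinRoot.mk_surjective (e.symm x)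
    obtain ⟨q, hq⟩ := AdjoinRoot.mk_surjective (e.symm y)
    rw [dlB_bv, ← hG, ← hHM]
    have hx : x = aeval M₀ p *ᵥ w' := by rw [← hΨ, hp, he]
    have hy : y = aeval M₀ q *ᵥ w' := by rw [← hΨ, hq, he]
    have h1 : (H * M₀) *ᵥ y = H *ᵥ (aeval M₀ (X * q) *ᵥ w') := by
      rw [map_mul, aeval_X, ← Matrix.mulVec_mulVec, ← Matrix.mulVec_mulVec, ← hy]
    have h2 : AdjoinRoot.mk D (p * (X * q)) =
        AdjoinRoot.root D * (AdjoinRoot.mk D p * AdjoinRoot.mk D q) := by
      rw [map_mul, map_mul]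
      change AdjoinRoot.mk D p * (AdjoinRoot.root D * AdjoinRoot.mk D q) = _
      ring
    rw [← hp, ← hq, ← hfun, ← h2, ← hbil, ← hx, h1]
  · obtain ⟨p, hp⟩ := AdjoinRoot.mk_surjective (e.symm x)
    obtain ⟨q, hq⟩ := AdjoinRoot.mk_surjective (e.symm y)
    rw [dlB_bv, ← hH]
    have hx : x = aeval M₀ p *ᵥ w' := by rw [← hΨ, hp, he]
    have hy : y = aeval M₀ q *ᵥ w' := by rw [← hΨ, hq, he]
    rw [← hfun, ← hp, ← hq, ← map_mul, ← hbil, ← hx, ← hy]

end Dr
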