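import Pool.Agent.Lib.MP_f80667_ag.Dr.Cr
import Pool.Agent.Lib.MP_f80667_ag.Dr.DlB
import Pool.Agent.Lib.MP_f80667_ag.Dr.NmL
import Pool.Agent.Lib.MP_f80667_ag.Dr.AdjB2

/-! The product of all discriminants is a square. -/

open Polynomial Module

namespace Dr

open ZC Tq Dp

/-- The Gram matrix of the powers of the root for the residue functional. -/
private theorem CmA_gram {F : Type} [Field F] {D : F[X]} (hD : D.Monic) (hn : D.natDegree = 5) :
    (Matrix.of fun i j : Fin 5 => Rk LinearMap.id hD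
      (AdjoinRoot.root D ^ (i : ℕ) * AdjoinRoot.root D ^ (j : ℕ))).det = 1 := by
  have h0 : ∀ m : ℕ, m < 5 → Rk LinearMap.id hD (AdjoinRoot.root D ^ m) = if m = 4 then 1 else 0 := by
    intro m hm
    have h1 : AdjoinRoot.root D ^ m = AdjoinRoot.mk D (X ^ m) := by
      rw [map_pow, AdjoinRoot.mk_X]
    rw [Rk_apply, LinearMap.id_apply, h1, Rs_lt hD (by rw [natDegree_X_pow, hn]; exact hm),
      coeff_X_pow, hn]
    have h2 : (5 - 1 = m) ↔ m = 4 := by omega
    simp only [h2]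
  obtain ⟨r, hr⟩ : ∃ r : ℕ → F, ∀ m, r m = Rk LinearMap.id hD (AdjoinRoot.root D ^ m) :=
    ⟨_, fun _ => rfl⟩
  have h2 : (Matrix.of fun i j : Fin 5 => Rk LinearMap.id hD
      (AdjoinRoot.root D ^ (i : ℕ) * AdjoinRoot.root D ^ (j : ℕ))) =
      !![0, 0, 0, 0, 1; 0, 0, 0, 1, r 5; 0, 0, 1, r 5, r 6; 0, 1, r 5, r 6, r 7;
        1, r 5, r 6, r 7, r 8] := by
    have h3 : ∀ i j : Fin 5, Rk LinearMap.id hD
      (AdjoinRoot.root D ^ (i : ℕ) * AdjoinRoot.root D ^ (j : ℕ)) = r ((i : ℕ) + (j : ℕ)) := by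
      intro i j
      rw [hr, pow_add]
    have h4 : ∀ m : ℕ, m < 5 → r m = if m = 4 then 1 else 0 := fun m hm => by
      rw [hr, h0 m hm]
    ext i j
    rw [Matrix.of_apply, h3]
    fin_cases i <;> fin_cases j <;> first | rfl | (simp [h4])
  rw [h2]
  simp [Matrix.det_succ_row_zero, Fin.sum_univ_succ, Matrix.submatrix, Fin.succAbove]
  ring

variable {F : Type} [Field F] [CharZero F] {A B : Matrix (Fin 5) (Fin 5) F} {ι : Type} [Fintype ι]
  {D : F[X]} {K : ι → Type} [∀ i, Field (K i)] [∀ i, Algebra F (K i)] {θ : ∀ i, K i} {w : Fin 5 → F}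

/-- Proof: the product is the norm of `dl` from `F[T] / D` (`Sp.exists_equiv`). By `exists_phi` the form
`-bv B` in the basis `φ⁻¹ (θ ^ i)` has the Gram matrix `(Rs (dl / c θ ^ (i + j)))`, whose determinant is the
norm of `dl / c` times the determinant of `(Rs (θ ^ (i + j)))`, which is antitriangular with ones on the
antidiagonal, determinant `1` in dimension `5`; the determinant of `-(B + Bᵀ)` is `c` (the leading
coefficient of `chp`) up to squares. So the norm of `dl` is `c ^ 6` up to squares. -/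
theorem norm_prod_sq (hS : Sp D K θ) (hn : D.natDegree = 5) {c : F} (hc : c ≠ 0)
    (hf : Dq.chp A B = C c * D) (δ : ∀ i, (K i)ˣ)
    (hδ : ∀ i, (δ i : K i) = aeval (θ i) (dl A B w)) :
    IsSquare (∏ i, Algebra.norm F (δ i : K i)) := by
  classical
  have hD := hS.monic
  obtain ⟨e, he⟩ := hS.exists_equiv
  have hfi : ∀ i, Module.Finite F (K i) := hS.finite
  have hed : e (AdjoinRoot.mk D (dl A B w)) = fun i => (δ i : K i) := by
    rw [he]
    funext i
    exact (hδ i).symm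
  have hu : IsUnit (AdjoinRoot.mk D (dl A B w)) := by
    have h1 : IsUnit (e (AdjoinRoot.mk D (dl A B w))) := by
      rw [hed, Pi.isUnit_iff]
      exact fun i => (δ i).isUnit
    exact (MulEquiv.isUnit_map e).1 h1
  have hN : ∏ i, Algebra.norm F (δ i : K i) = Algebra.norm F (AdjoinRoot.mk D (dl A B w)) := by
    rw [← Algebra.norm_eq_of_algEquiv e, hed, norm_pi]
  rw [hN]
  obtain ⟨φ, -, hφ⟩ := exists_phi w hD hn hc hf hu
  set β : AdjoinRoot D := AdjoinRoot.mk D (C c⁻¹ * dl A B w) with hβ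
  have hdim : (AdjoinRoot.powerBasis' hD).dim = 5 := by
    rw [AdjoinRoot.powerBasis'_dim, hn]
  let bs : Basis (Fin 5) F (AdjoinRoot D) :=
    (AdjoinRoot.powerBasis' hD).basis.reindex (finCongr hdim)
  have hbs : ∀ i : Fin 5, bs i = AdjoinRoot.root D ^ (i : ℕ) := by
    intro i
    change ((AdjoinRoot.powerBasis' hD).basis.reindex (finCongr hdim)) i = _
    rw [Basis.reindex_apply, (AdjoinRoot.powerBasis' hD).basis_eq_pow]
    rfl
  obtain ⟨M, hM⟩ : ∃ M, M = Algebra.leftMulMatrix bs β := ⟨_, rfl⟩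
  have hMd : M.det = Algebra.norm F β := by rw [hM, Algebra.norm_eq_matrix_det bs]
  obtain ⟨G, hG⟩ : ∃ G : Matrix (Fin 5) (Fin 5) F, G = Matrix.of fun i j : Fin 5 =>
      Rk LinearMap.id hD (AdjoinRoot.root D ^ (i : ℕ) * AdjoinRoot.root D ^ (j : ℕ)) := ⟨_, rfl⟩
  have hGd : G.det = 1 := by
    rw [hG]
    exact CmA_gram hD hn
  obtain ⟨H, hH⟩ : ∃ H, H = B + B.transpose := ⟨_, rfl⟩
  have hHd : H.det = -c := by
    rw [hH]
    exact dlB_det (G := A + A.transpose) hD hn hf
  obtain ⟨S, hSm⟩ : ∃ S : Matrix (Fin 5) (Fin 5) F, S = Matrix.of fun a j => φ.symm (bs j) a :=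
    ⟨_, rfl⟩
  have key : S.transpose * H * S = -(G * M) := by
    ext i j
    have h1 : (S.transpose * H * S) i j = bv B (φ.symm (bs i)) (φ.symm (bs j)) := by
      rw [dlB_bv, ← hH, Matrix.mul_assoc, Matrix.mul_apply, dotProduct]
      refine Finset.sum_congr rfl fun a _ => ?_
      rw [Matrix.transpose_apply, hSm, Matrix.of_apply, Matrix.mul_apply, Matrix.mulVec, dotProduct]
      rfl
    have h2 : β * bs j = ∑ l, M l j • bs l := by
      rw [hM]
      have h3 := bs.sum_repr (β * bs j)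
      rw [← h3]
      refine Finset.sum_congr rfl fun l _ => ?_
      rw [Algebra.leftMulMatrix_eq_repr_mul]
    rw [h1, hφ, LinearEquiv.apply_symm_apply, LinearEquiv.apply_symm_apply, Matrix.neg_apply,
      Matrix.mul_apply]
    have h4 : β * (bs i * bs j) = ∑ l, M l j • (bs i * bs l) := by
      calc β * (bs i * bs j) = bs i * (β * bs j) := by ring
        _ = ∑ l, M l j • (bs i * bs l) := by
          rw [h2, Finset.mul_sum]
          refine Finset.sum_congr rfl fun l _ => ?_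
          rw [mul_smul_comm]
    rw [h4, map_sum, neg_inj]
    refine Finset.sum_congr rfl fun l _ => ?_
    rw [map_smul, hG, Matrix.of_apply, hbs, hbs, smul_eq_mul, mul_comm]
  have hdet := congrArg Matrix.det key
  rw [Matrix.det_mul, Matrix.det_mul, Matrix.det_transpose, Matrix.det_neg, Matrix.det_mul, hGd,
    hMd, hHd, Fintype.card_fin] at hdet
  have hβN : Algebra.norm F β = c⁻¹ ^ 5 * Algebra.norm F (AdjoinRoot.mk D (dl A B w)) := by
    have h1 : AdjoinRoot.mk D (C c⁻¹) = algebraMap F (AdjoinRoot D) c⁻¹ := by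
      rw [AdjoinRoot.mk_C]
      rfl
    rw [hβ, map_mul, map_mul, h1, Algebra.norm_algebraMap_of_basis bs, Fintype.card_fin]
  rw [hβN] at hdet
  refine ⟨c ^ 3 * S.det, ?_⟩
  have h5 : c * c⁻¹ = 1 := mul_inv_cancel₀ hc
  have h6 : Algebra.norm F (AdjoinRoot.mk D (dl A B w)) =
      c ^ 5 * (c⁻¹ ^ 5 * Algebra.norm F (AdjoinRoot.mk D (dl A B w))) := by
    rw [← mul_assoc, ← mul_pow, h5, one_pow, one_mul]
  rw [h6]
  generalize c⁻¹ ^ 5 * Algebra.norm F (AdjoinRoot.mk D (dl A B w)) = t at hdet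
  linear_combination (c ^ 5) * hdet

end Dr
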