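import Pool.Agent.Lib.MP_f80667_ag.Dr.CntA
import Pool.Agent.Lib.MP_f80667_ag.Hm.GenS

/-! The symbol is bimultiplicative. -/

open IsDedekindDomain NumberField

namespace Dr

open Hm

/-- a family of subgroups with intersection of the smallest possible index: the members have index
two -/
theorem two_of_index {G : Type*} [CommGroup G] {ι : Type*} [Fintype ι] (H : ι → Subgroup G)
    (x : ι → G) (h1 : ∀ i, x i ∉ H i) (h2 : ∀ i j, j ≠ i → x i ∈ H j)
    (h0 : (⨅ i, H i).index = 2 ^ Fintype.card ι) (hsq : ∀ i g, g ^ 2 ∈ H i) (i : ι) (c d : G)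
    (hc : c ∉ H i) (hd : d ∉ H i) (hc' : ∀ j, j ≠ i → c ∈ H j) (hd' : ∀ j, j ≠ i → d ∈ H j) :
    c * d ∈ H i := by
  classical
  by_contra hcd
  obtain ⟨M, hM⟩ : ∃ M, M = H i ⊔ Subgroup.zpowers c := ⟨_, rfl⟩
  have hHM : H i ≤ M := by
    rw [hM]
    exact le_sup_left
  have hcM : c ∈ M := by
    rw [hM]
    exact Subgroup.mem_sup_right (Subgroup.mem_zpowers c)
  have hdM : d ∉ M := by
    intro h
    rw [hM, Subgroup.mem_sup] at h
    obtain ⟨y, hy, z, ⟨k, hk⟩, rfl⟩ := h
    have hk' : c ^ k = z := hk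
    rcases Int.even_or_odd k with ⟨m, hm⟩ | ⟨m, hm⟩
    · apply hd
      refine mul_mem hy ?_
      rw [← hk', hm, zpow_add, ← mul_zpow, ← pow_two]
      exact zpow_mem (hsq i c) m
    · apply hcd
      have e : c * (y * z) = y * (c ^ 2) ^ (m + 1) := by
        rw [← hk', hm, ← zpow_natCast, ← zpow_mul, mul_left_comm]
        congr 1
        rw [← zpow_one_add]
        congr 1
        push_cast
        ring
      rw [e]
      exact mul_mem hy (zpow_mem (hsq i c) _)
  obtain ⟨H', hH'⟩ : ∃ H' : ι → Subgroup G, H' = Function.update H i M := ⟨_, rfl⟩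
  have hHi : H' i = M := by rw [hH', Function.update_self]
  have hHj : ∀ j, j ≠ i → H' j = H j := fun j hj => by rw [hH', Function.update_of_ne hj]
  have hle : ∀ j, H j ≤ H' j := by
    intro j
    by_cases hj : j = i
    · subst hj
      rw [hHi]
      exact hHM
    · rw [hHj j hj]
  have hE : (⨅ j, H j) ≤ ⨅ j, H' j := iInf_mono hle
  have hrel := Subgroup.relIndex_mul_index hE
  rw [h0] at hrel
  have hpos : 0 < 2 ^ Fintype.card ι := by positivity
  have hne : (⨅ j, H' j).index ≠ 0 := by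
    intro h
    rw [h, mul_zero] at hrel
    omega
  have h3 := two_pow_le H' (⨅ j, H' j) ⊤ (fun j => iInf_le H' j) (Function.update x i d)
    (fun _ => Subgroup.mem_top _) (by
      intro j
      by_cases hj : j = i
      · subst hj
        rw [Function.update_self, hHi]
        exact hdM
      · rw [Function.update_of_ne hj, hHj j hj]
        exact h1 j) (by
      intro j l hl
      by_cases hj : j = i
      · subst hj
        rw [Function.update_self, hHj l hl]
        exact hd' l hl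
      · rw [Function.update_of_ne hj]
        exact hle l (h2 j l hl)) (by
      rw [Subgroup.relIndex_top_right]
      exact hne)
  rw [Subgroup.relIndex_top_right] at h3
  have h4 : (⨅ j, H j).relIndex (⨅ j, H' j) = 1 := by
    have h5 : (⨅ j, H j).relIndex (⨅ j, H' j) ≠ 0 := by
      intro h
      rw [h, zero_mul] at hrel
      omega
    have h6 : (⨅ j, H j).relIndex (⨅ j, H' j) * 2 ^ Fintype.card ι ≤ 1 * 2 ^ Fintype.card ι := by
      rw [one_mul]
      calc _ ≤ (⨅ j, H j).relIndex (⨅ j, H' j) * (⨅ j, H' j).index := Nat.mul_le_mul_left _ h3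
        _ = _ := hrel
    have h7 := Nat.le_of_mul_le_mul_right h6 hpos
    omega
  rw [Subgroup.relIndex_eq_one] at h4
  apply hc
  have h5 : c ∈ ⨅ j, H' j := by
    rw [Subgroup.mem_iInf]
    intro j
    by_cases hj : j = i
    · subst hj
      rw [hHi]
      exact hcM
    · rw [hHj j hj]
      exact hc' j hj
  exact (Subgroup.mem_iInf.1 (h4 h5)) i

variable {K : Type} [Field K] [NumberField K]

/-- an element near a given one at `v` and near `1` elsewhere -/
theorem exists_move (b : Kˣ) (S' : Finset (HeightOneSpectrum (𝓞 K)))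
    (v : HeightOneSpectrum (𝓞 K)) (hv : v ∈ S') (c : Kˣ) :
    ∃ c' : Kˣ, (c' ∈ LNm v b ↔ c ∈ LNm v b) ∧ c' / c ∈ LNm v b ∧
      ∀ j : Idx b S', j ≠ Sum.inl ⟨v, hv⟩ → c' ∈ HH b S' j := by
  classical
  obtain ⟨x, hx1, hx2⟩ := wa S' (fun w => if w = v then c else 1) (fun _ => 1) (fun _ => one_ne_zero)
  have h1 := hx1 v hv
  rw [if_pos rfl] at h1
  have h2 := LSq_le_LNm v b h1
  refine ⟨x, ?_, h2, ?_⟩
  · have h3 : x = x / c * c := by rw [div_mul_cancel]
    constructor
    · intro h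
      rw [h3] at h
      exact (Subgroup.mul_mem_cancel_left _ h2).1 h
    · intro h
      rw [h3]
      exact mul_mem h2 h
  · rintro (⟨w, hw⟩ | ⟨ψ, hψ⟩) hne
    · have h1 := hx1 w hw
      have hwv : w ≠ v := fun e => hne (by subst e; rfl)
      rw [if_neg hwv, div_one] at h1
      exact LSq_le_LNm w b h1
    · have h1 := hx2 ψ
      rw [mul_one] at h1
      exact h1

/-- **The group of local norms has index at most two.** Proof: if `b ∈ LSq v` it is everything. Otherwise
let `c`, `d ∉ LNm v b` and suppose `c d ∉ LNm v b`. `S ∋ v` with `Gen S`, `b ∈ US K S` (`exists_gen`), so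
`(EE b S).index = 2 ^ tt b S`. Take `x_i` for all the other nonsplit places of `S` and the real places with
`φ b < 0` (`exists_fam`; move them near `1` at `v` by `Hm.wa`) and `c'`, `d'` near `c`, `d` at `v`, near `1`
at the other places of `S`, positive at the real places; the `2 ^ (tt b S - 1) * 4` products are in
different cosets of `EE b S` (`Hm.mk_prod` / the proof of `Hm.two_pow_le`). -/
theorem LNm_two {v : HeightOneSpectrum (𝓞 K)} {b c d : Kˣ} (hc : c ∉ LNm v b) (hd : d ∉ LNm v b) :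
    c * d ∈ LNm v b := by
  classical
  by_cases hbv : b ∈ LSq v
  · exact LNm_eq_top hbv _
  have hb : ¬ IsSquare b := by
    rintro ⟨y, rfl⟩
    exact hbv (mul_self_mem_LSq v y)
  obtain ⟨S, hS0, hS⟩ := exists_gen ({v} ∪ (finite_val_ne_one b).toFinset)
  have hvS : v ∈ S := hS0 (Finset.mem_union_left _ (Finset.mem_singleton_self v))
  have hbS : b ∈ US K S := by
    intro w hw
    by_contra hcon
    exact hw (hS0 (Finset.mem_union_right _ ((Set.Finite.mem_toFinset _).2 hcon)))
  obtain ⟨U, -, -, hidx, -⟩ := exists_U hb S hS hbS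
  obtain ⟨S', hS'⟩ : ∃ S' : Finset (HeightOneSpectrum (𝓞 K)), ∀ v, v ∈ S' ↔ v ∈ S ∧ b ∉ LSq v :=
    ⟨S.filter (fun v => b ∉ LSq v), fun v => Finset.mem_filter⟩
  have hvS' : v ∈ S' := (hS' v).2 ⟨hvS, hbv⟩
  obtain ⟨x, hx1, hx2⟩ := exists_fam b S' fun v hv => ((hS' v).1 hv).2
  have hEE : (⨅ i, HH b S' i) = EE b S := by
    ext z
    rw [Subgroup.mem_iInf, mem_EE]
    constructor
    · intro h
      refine ⟨fun w hw => ?_, fun φ hφ => h (Sum.inr ⟨φ, hφ⟩)⟩
      by_cases hbw : b ∈ LSq w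
      · exact LNm_eq_top hbw _
      · exact h (Sum.inl ⟨w, (hS' w).2 ⟨hw, hbw⟩⟩)
    · rintro ⟨h1, h2⟩ (⟨w, hw⟩ | ⟨φ, hφ⟩)
      · exact h1 w ((hS' w).1 hw).1
      · exact h2 φ hφ
  obtain ⟨c', hc1, hc2, hc3⟩ := exists_move b S' v hvS' c
  obtain ⟨d', hd1, hd2, hd3⟩ := exists_move b S' v hvS' d
  have key := two_of_index (HH b S') x hx1 hx2 (by rw [hEE, hidx, card_Idx b S S' hS'])
    (fun i g => Nrm_le_HH b S' i (sq_mem_Nrm b g)) (Sum.inl ⟨v, hvS'⟩) c' d'
    (fun h => hc (hc1.1 h)) (fun h => hd (hd1.1 h)) hc3 hd3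
  have key' : c' * d' ∈ LNm v b := key
  have h3 : c * d = (c' * d') / (c' / c * (d' / d)) := by
    rw [div_mul_div_comm, div_div_cancel]
  rw [h3]
  exact div_mem key' (mul_mem hc2 hd2)

theorem LNm_mul_iff {v : HeightOneSpectrum (𝓞 K)} {b c d : Kˣ} :
    c * d ∈ LNm v b ↔ (c ∈ LNm v b ↔ d ∈ LNm v b) := by
  by_cases hc : c ∈ LNm v b
  · rw [Subgroup.mul_mem_cancel_left _ hc]
    exact ⟨fun h => ⟨fun _ => h, fun _ => hc⟩, fun h => h.1 hc⟩
  · by_cases hd : d ∈ LNm v b
    · rw [Subgroup.mul_mem_cancel_right _ hd]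
      exact ⟨fun h => absurd h hc, fun h => absurd (h.2 hd) hc⟩
    · exact ⟨fun _ => ⟨fun h => absurd h hc, fun h => absurd h hd⟩, fun _ => LNm_two hc hd⟩

/-- The symbol is multiplicative in the first argument too. -/
theorem LNm_mul_left {v : HeightOneSpectrum (𝓞 K)} {b b' c : Kˣ} :
    c ∈ LNm v (b * b') ↔ (c ∈ LNm v b ↔ c ∈ LNm v b') := by
  rw [LNm_comm, LNm_mul_iff, LNm_comm (b := b), LNm_comm (b := b')]

end Dr
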