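import Pool.Agent.Lib.MP_f80667_ag.Hm.Main
import Pool.Agent.Lib.MP_f80667_ag.Hm.NI
import Pool.Agent.Lib.MP_f80667_ag.Dr.Loc3

/-! The two indices in the proof of the norm theorem are exact. -/

open IsDedekindDomain NumberField

namespace Dr

open Hm

variable {K : Type} [Field K] [NumberField K]

/-- Proof: the proof of `Hm.count` (`Hm/Main.lean`) for `T` from `Hm.exists_T`, `U = US K (S ∪ T)`: with
`e = (EE b S).index`, `r = (EE b S).relIndex U`, `i = (U ⊔ EE b S).index`, `m = (Nrm b).relIndex U` one has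
`r i = e`, `2 ^ tt b S ≤ e`, `i ≤ 2`, `2 m ≤ 2 ^ tt b S`, `r ≤ m` (`Nrm_le_EE`), so
`2 ^ tt ≤ e = r i ≤ 2 r ≤ 2 m ≤ 2 ^ tt`. For `v ∉ S`: if `v ∈ T` then `b ∈ LSq v` and `LNm v b = ⊤`
(`Hm.LNm_eq_top`), otherwise `x`, `b` are units and `v` is not dyadic (`unit_mem_LNm`). -/
theorem exists_U {b : Kˣ} (hb : ¬ IsSquare b) (S : Finset (HeightOneSpectrum (𝓞 K))) (hS : Gen S)
    (hbS : b ∈ US K S) :
    ∃ U : Subgroup Kˣ, US K S ≤ U ∧ (∀ x ∈ U, ∀ v ∉ S, x ∈ LNm v b) ∧
      (EE b S).index = 2 ^ tt b S ∧ (U ⊔ EE b S).index = 2 := by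
  classical
  obtain ⟨T, hT, hc⟩ := exists_T b hb S hS hbS
  obtain ⟨U, hU⟩ : ∃ U, U = US K (S ∪ T) := ⟨_, rfl⟩
  have hbU : b ∈ US K (S ∪ T) := US_mono Finset.subset_union_left hbS
  -- the squares
  have h1 : DD S ⊓ U = sqOf U := by
    ext x
    rw [Subgroup.mem_inf, mem_DD]
    constructor
    · rintro ⟨⟨h2, h3⟩, h4⟩
      rw [hU] at h4 ⊢
      exact mem_sqOf_US h4 (star hS hT x h4 h2 h3)
    · rintro ⟨y, hy, rfl⟩
      refine ⟨⟨fun v _ => sq_mem_LSq v y, fun φ => ?_⟩, pow_mem hy 2⟩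
      rw [powMonoidHom_apply, Units.val_pow_eq_pow_val, map_pow]
      have h0 : φ (y : K) ≠ 0 := (map_ne_zero φ).2 y.ne_zero
      positivity
  have h2 : (DD S).relIndex U = 2 ^ (2 * (S.card + Fintype.card (InfinitePlace K)) - 1) := by
    rw [← Subgroup.inf_relIndex_right, h1, hU, sqOf_US, Nat.card_eq_fintype_card,
      Finset.card_union_of_disjoint]
    · congr 1
      omega
    · rw [Finset.disjoint_left]
      intro v hv hv'
      exact hT.disj v hv' hv
  -- the index of `U D`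
  have h3 : (DD S).relIndex U * (U ⊔ DD S).index = (DD S).index := by
    rw [← Subgroup.relIndex_sup_right (H := U) (K := DD S)]
    exact Subgroup.relIndex_mul_index le_sup_right
  have h4 : (U ⊔ DD S).index ≠ 0 := fun h => by
    rw [h, mul_zero] at h3
    exact (index_DD (S := S)).1 h3.symm
  have h5 : (U ⊔ DD S).index ≤ 2 := by
    have h6 := (index_DD (S := S)).2
    rw [← h3, h2] at h6
    have hpos : 0 < S.card + Fintype.card (InfinitePlace K) := by omega
    have h7 : 2 ^ (2 * (S.card + Fintype.card (InfinitePlace K))) =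
        2 ^ (2 * (S.card + Fintype.card (InfinitePlace K)) - 1) * 2 := by
      rw [← pow_succ]
      congr 1
      omega
    rw [h7] at h6
    exact Nat.le_of_mul_le_mul_left h6 (by positivity)
  have h6 : (U ⊔ EE b S).index ≠ 0 ∧ (U ⊔ EE b S).index ≤ 2 := by
    have h7 : U ⊔ DD S ≤ U ⊔ EE b S := sup_le_sup_left DD_le_EE U
    have h8 := Subgroup.index_dvd_of_le h7
    refine ⟨fun h => h4 (Nat.eq_zero_of_zero_dvd (h ▸ h8)), ?_⟩
    exact (Nat.le_of_dvd (Nat.pos_of_ne_zero h4) h8).trans h5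
  have h7 : (EE b S).relIndex U * (U ⊔ EE b S).index = (EE b S).index := by
    rw [← Subgroup.relIndex_sup_right (H := U) (K := EE b S)]
    exact Subgroup.relIndex_mul_index le_sup_right
  obtain ⟨h8, h9⟩ := two_pow_le_EE (b := b) (S := S)
  -- the norms
  obtain ⟨h11, h12⟩ := F1U b hb (S ∪ T) hS.union hbU
  have ht : tt b (S ∪ T) = tt b S := by
    rw [tt, tt]
    congr 2
    ext v
    rw [Finset.mem_filter, Finset.mem_filter, Finset.mem_union]
    constructor
    · rintro ⟨h13 | h13, h14⟩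
      · exact ⟨h13, h14⟩
      · exact absurd (hT.sq v h13) h14
    · rintro ⟨h13, h14⟩
      exact ⟨Or.inl h13, h14⟩
  have h13 := Subgroup.relIndex_inf_mul_relIndex (H := Nrm b) (K := EE b S) (L := U)
  rw [inf_eq_left.2 (Nrm_le_EE (b := b) (S := S))] at h13
  rw [← hU] at h11 h12
  rw [ht] at h12
  have h15 : (Nrm b).relIndex (EE b S ⊓ U) ≠ 0 := fun h => by
    rw [h, zero_mul] at h13
    exact h11 h13.symm
  have h16 : (EE b S).relIndex U ≤ (Nrm b).relIndex U := by
    rw [← h13]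
    exact Nat.le_mul_of_pos_left _ (Nat.pos_of_ne_zero h15)
  refine ⟨U, ?_, ?_, ?_, ?_⟩
  · rw [hU]
    exact US_mono Finset.subset_union_left
  · intro x hx v hv
    by_cases hvT : v ∈ T
    · exact LNm_eq_top (hT.sq v hvT) x
    · have hvU : v ∉ S ∪ T := fun h => (Finset.mem_union.1 h).elim hv hvT
      rw [hU] at hx
      exact unit_mem_LNm (val2_of_gen hS hv) (hbU v hvU) (hx v hvU)
  · refine le_antisymm ?_ h9
    rw [← h7]
    calc (EE b S).relIndex U * (U ⊔ EE b S).index ≤ (EE b S).relIndex U * 2 :=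
          Nat.mul_le_mul_left _ h6.2
      _ = 2 * (EE b S).relIndex U := mul_comm _ _
      _ ≤ 2 * (Nrm b).relIndex U := Nat.mul_le_mul_left _ h16
      _ ≤ 2 ^ tt b S := h12
  · have h17 : (EE b S).relIndex U * 2 ≤ (EE b S).relIndex U * (U ⊔ EE b S).index := by
      rw [h7]
      calc (EE b S).relIndex U * 2 = 2 * (EE b S).relIndex U := mul_comm _ _
        _ ≤ 2 * (Nrm b).relIndex U := Nat.mul_le_mul_left _ h16
        _ ≤ 2 ^ tt b S := h12
        _ ≤ (EE b S).index := h9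
    have h18 : 0 < (EE b S).relIndex U := by
      refine Nat.pos_of_ne_zero fun h => ?_
      rw [h, zero_mul] at h7
      exact h8 h7.symm
    exact le_antisymm h6.2 (Nat.le_of_mul_le_mul_left h17 h18)

end Dr
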