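import Mathlib

/-!
Lagrangians of quadratic forms, the norm forms of quaternion algebras, transfers, and the lattice datum.

* `ND Q`: the polar form of `Q` is nondegenerate.
* `Lag Q W`: `W` is totally singular and contains its orthogonal.
* `nn ε`, `nnB ε`: the form `x² + x y - ε y²` and its polar form.
* `qe ε a`, `qeF ε a`: the form `nn ε (x₀, x₁) - a nn ε (x₂, x₃)`.
* `qn b a`, `qnF b a`: the form `x₀² - b x₁² - a x₂² + a b x₃²`.
* `sT F c`: the functional `x ↦ Tr_(K/F) (c x)`.
* `LD O s ε π`: `O` is a lattice in the `k`-algebra `L`, self dual for the functional `s`, `1 + 4 ε` is a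
  unit of `O` and `π ∈ O` is a unit of `L`.
-/

namespace Dr

section lag

variable {k V : Type*} [Field k] [AddCommGroup V] [Module k V]

/-- The polar form is nondegenerate. -/
def ND (Q : QuadraticForm k V) : Prop := ∀ x, (∀ y, QuadraticMap.polar Q x y = 0) → x = 0

/-- `W` is totally singular and contains its orthogonal. -/
structure Lag (Q : QuadraticForm k V) (W : Submodule k V) : Prop where
  zero : ∀ x ∈ W, Q x = 0
  max : ∀ x, (∀ y ∈ W, QuadraticMap.polar Q x y = 0) → x ∈ W

end lag

section forms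

variable {R : Type*} [CommRing R]

/-- The form `x² + x y - ε y²`. -/
def nn (ε x y : R) : R := x ^ 2 + x * y - ε * y ^ 2

/-- Its polar form. -/
def nnB (ε x y z w : R) : R := 2 * x * z + x * w + y * z - 2 * ε * y * w

/-- The norm form of the quaternion algebra `(1 + 4 ε, a)`. -/
def qe (ε a : R) (x : Fin 4 → R) : R := nn ε (x 0) (x 1) - a * nn ε (x 2) (x 3)

/-- Its polar form. -/
def qeB (ε a : R) (x y : Fin 4 → R) : R :=
  nnB ε (x 0) (x 1) (y 0) (y 1) - a * nnB ε (x 2) (x 3) (y 2) (y 3)

/-- The norm form of the quaternion algebra `(b, a)`. -/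
def qn (b a : R) (x : Fin 4 → R) : R := x 0 ^ 2 - b * x 1 ^ 2 - a * x 2 ^ 2 + a * b * x 3 ^ 2

/-- Its polar form. -/
def qnB (b a : R) (x y : Fin 4 → R) : R :=
  2 * (x 0 * y 0 - b * (x 1 * y 1) - a * (x 2 * y 2) + a * b * (x 3 * y 3))

theorem qe_polar (ε a : R) (x y : Fin 4 → R) :
    QuadraticMap.polar (qe ε a) x y = qeB ε a x y := by
  simp only [QuadraticMap.polar, qe, qeB, nn, nnB, Pi.add_apply]
  ring

theorem qn_polar (b a : R) (x y : Fin 4 → R) :
    QuadraticMap.polar (qn b a) x y = qnB b a x y := by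
  simp only [QuadraticMap.polar, qn, qnB, Pi.add_apply]
  ring

/-- `qe` as a quadratic map. -/
def qeF (ε a : R) : QuadraticMap R (Fin 4 → R) R :=
  QuadraticMap.ofPolar (qe ε a)
    (fun c x => by simp only [qe, nn, Pi.smul_apply, smul_eq_mul]; ring)
    (fun x y z => by simp only [qe_polar, qeB, nnB, Pi.add_apply]; ring)
    (fun c x y => by simp only [qe_polar, qeB, nnB, Pi.smul_apply, smul_eq_mul]; ring)

/-- `qn` as a quadratic map. -/
def qnF (b a : R) : QuadraticMap R (Fin 4 → R) R :=
  QuadraticMap.ofPolar (qn b a)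
    (fun c x => by simp only [qn, Pi.smul_apply, smul_eq_mul]; ring)
    (fun x y z => by simp only [qn_polar, qnB, Pi.add_apply]; ring)
    (fun c x y => by simp only [qn_polar, qnB, Pi.smul_apply, smul_eq_mul]; ring)

theorem qeF_apply (ε a : R) (x : Fin 4 → R) : qeF ε a x = qe ε a x := rfl

theorem qnF_apply (b a : R) (x : Fin 4 → R) : qnF b a x = qn b a x := rfl

end forms

section transfer

variable {k L : Type*} [Field k] [CommRing L] [Algebra k L]

/-- The transfer of a quadratic form by a functional. -/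
def tr (s : L →ₗ[k] k) (Q : QuadraticMap L (Fin 4 → L) L) : QuadraticForm k (Fin 4 → L) :=
  LinearMap.compQuadraticMap' s Q

theorem tr_apply (s : L →ₗ[k] k) (Q : QuadraticMap L (Fin 4 → L) L) (x : Fin 4 → L) :
    tr s Q x = s (Q x) := rfl

theorem tr_polar (s : L →ₗ[k] k) (Q : QuadraticMap L (Fin 4 → L) L) (x y : Fin 4 → L) :
    QuadraticMap.polar (tr s Q) x y = s (QuadraticMap.polar Q x y) := by
  simp only [QuadraticMap.polar, tr_apply, map_sub]

end transfer

section trace

variable {F K : Type*} [Field F] [Field K] [Algebra F K]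

variable (F) in
/-- The functional `x ↦ Tr (c x)`. -/
noncomputable def sT (c : K) : K →ₗ[F] F := (Algebra.trace F K) ∘ₗ (LinearMap.mulLeft F c)

theorem sT_apply (c x : K) : sT F c x = Algebra.trace F K (c * x) := rfl

end trace

section lattice

variable {R k L : Type*} [CommRing R] [Field k] [CommRing L] [Algebra R k] [Algebra k L] [Algebra R L]

/-- The lattice datum. -/
structure LD (O : Subalgebra R L) (s : L →ₗ[k] k) (ε π : L) : Prop where
  fin : Module.Finite R O
  span : ∀ x : L, ∃ r : R, r ≠ 0 ∧ r • x ∈ O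
  dual : ∀ z : L, z ∈ O ↔ ∀ y ∈ O, ∃ r : R, s (z * y) = algebraMap R k r
  he : ε ∈ O
  hp : π ∈ O
  inv : ∃ π' : L, π * π' = 1
  unit : ∃ u ∈ O, (1 + 4 * ε) * u = 1

end lattice

end Dr
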