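import Pool.Agent.Lib.MP_f80667_ag.Dr.Rs

/-! Residue forms of odd degree. -/

open Polynomial

namespace Dr

variable {E : Type*} [CommRing E] {g h : E[X]}

variable {k : Type*} [Field k] [Algebra k E]

/-- The Lagrangian of the pairs `(x, y)`, `x = x₀ + y X ^ r`, `deg x₀ < r`. -/
def rsbW (k : Type*) [Field k] {E : Type*} [CommRing E] [Algebra k E] (g : E[X]) (r : ℕ) :
    Submodule k (AdjoinRoot g × E) where
  carrier := {z | ∃ p : E[X], p.natDegree ≤ r ∧ z.1 = AdjoinRoot.mk g p ∧ z.2 = p.coeff r}
  zero_mem' := ⟨0, by simp, by simp, by simp⟩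
  add_mem' := by
    rintro z z' ⟨p, hp, h1, h2⟩ ⟨p', hp', h1', h2'⟩
    refine ⟨p + p', (natDegree_add_le _ _).trans (max_le hp hp'), ?_, ?_⟩
    · rw [Prod.fst_add, h1, h1', map_add]
    · rw [Prod.snd_add, h2, h2', coeff_add]
  smul_mem' := by
    rintro c z ⟨p, hp, h1, h2⟩
    refine ⟨c • p, (natDegree_smul_le _ _).trans hp, ?_, ?_⟩
    · rw [Prod.smul_fst, h1, AdjoinRoot.smul_mk]
    · rw [Prod.smul_snd, h2, coeff_smul]

/-- The residue of a product of low degree. -/
theorem rsb_mul (hg : g.Monic) {r : ℕ} (hr : g.natDegree = 2 * r + 1) {p q : E[X]} {m n : ℕ}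
    (hp : p.natDegree ≤ m) (hq : q.natDegree ≤ n) (hmn : m + n = 2 * r) :
    Rs hg (AdjoinRoot.mk g p * AdjoinRoot.mk g q) = p.coeff m * q.coeff n := by
  rw [← map_mul, Rs_lt hg]
  · rw [hr, Nat.add_sub_cancel, ← hmn]
    exact coeff_mul_add_eq_of_natDegree_le hp hq
  · rw [hr]
    exact lt_of_le_of_lt natDegree_mul_le (by omega)

/-- Odd degree. Proof: `g` of degree `2 r + 1`; the Lagrangian of the pairs `(x, y)`, `y ∈ E`,
`x = x₀ + y X ^ r`, `deg x₀ < r`: `x²` has degree at most `2 r` and its coefficient of `X ^ (2 r)` is `y²`.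
It is an `E`-module, free of rank `r + 1`, and the whole module has rank `2 r + 2`; `Lag.of_finrank`. -/
theorem sq_odd [Module.Finite k E] (h2 : (2 : k) ≠ 0) {σ : E →ₗ[k] k} (hσ : NF σ) (hg : g.Monic)
    (hodd : Odd g.natDegree) : WE (sq (Rk σ hg) 1) (sq σ 1) := by
  obtain ⟨r, hr⟩ := hodd
  refine ⟨rsbW k g r, ?_, ?_⟩
  · rintro ⟨x, y⟩ ⟨p, hp, hx, hy⟩
    simp only at hx hy
    rw [QuadraticMap.prod_apply, neg_apply, sq_apply, sq_apply, one_mul, one_mul,
      hx, hy, Rk_apply, rsb_mul hg hr hp hp (by omega), add_neg_cancel]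
  · rintro ⟨x, y⟩ hxy
    have hmk : AdjoinRoot.mk g (AdjoinRoot.modByMonicHom hg x) = x :=
      AdjoinRoot.mk_leftInverse hg x
    set q : E[X] := AdjoinRoot.modByMonicHom hg x with hq
    have hdq : q.natDegree ≤ 2 * r := by
      obtain ⟨p, rfl⟩ := AdjoinRoot.mk_surjective x
      rw [hq, AdjoinRoot.modByMonicHom_mk]
      have h1 := natDegree_modByMonic_lt p hg (by
        rintro rfl
        rw [natDegree_one] at hr
        omega)
      omega
    have key : ∀ p : E[X], p.natDegree ≤ r →
        σ (Rs hg (AdjoinRoot.mk g q * AdjoinRoot.mk g p)) = σ (y * p.coeff r) := by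
      intro p hp
      have h1 := hxy (AdjoinRoot.mk g p, p.coeff r) ⟨p, hp, rfl, rfl⟩
      rw [QuadraticMap.polar_prod, FunLike.coe_neg, QuadraticMap.polar_neg, sq_polar,
        sq_polar, one_mul, one_mul, Rk_apply, ← sub_eq_add_neg, ← mul_sub] at h1
      have h3 := (mul_eq_zero.1 h1).resolve_left h2
      rw [hmk]
      exact sub_eq_zero.1 h3
    have hdeg : ∀ j, j ≤ r → q.natDegree ≤ 2 * r - j := by
      intro j
      induction j with
      | zero => intro _; exact hdq
      | succ j ih =>
        intro hj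
        have h1 := ih (by omega)
        have h3 : q.coeff (2 * r - j) = 0 := by
          refine hσ _ fun e => ?_
          have h4 := key (monomial j e) ((natDegree_monomial_le e).trans (by omega))
          rw [rsb_mul hg hr h1 (natDegree_monomial_le e) (by omega), coeff_monomial, if_pos rfl,
            coeff_monomial, if_neg (by omega), mul_zero, map_zero] at h4
          exact h4
        rw [natDegree_le_iff_coeff_eq_zero] at h1 ⊢
        intro N hN
        rcases Nat.lt_or_ge (2 * r - j) N with h5 | h5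
        · exact h1 N h5
        · have h6 : N = 2 * r - j := by omega
          rw [h6]
          exact h3
    have hr' : q.natDegree ≤ r := by
      have := hdeg r le_rfl
      omega
    refine ⟨q, hr', hmk.symm, ?_⟩
    have h1 : y - q.coeff r = 0 := by
      refine hσ _ fun e => ?_
      have h4 := key (monomial r e) (natDegree_monomial_le e)
      rw [rsb_mul hg hr hr' (natDegree_monomial_le e) (by omega), coeff_monomial,
        if_pos rfl] at h4
      rw [sub_mul, map_sub, h4, sub_self]
    exact sub_eq_zero.1 h1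

end Dr
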