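import Pool.Agent.Lib.MP_f80667_ag.Dr.DgF
import Pool.Agent.Lib.MP_f80667_ag.Dr.RsA
import Pool.Agent.Lib.MP_f80667_ag.Dr.RsB

/-! The transfer of the diagonal form. -/

open Polynomial

namespace Dr

open ZC Tq Dp

variable {k : Type*} [Field k] {E : Type*} [CommRing E] [Algebra k E]

theorem dg_sq_neg {L : Type*} [CommRing L] [Algebra k L] (τ : L →ₗ[k] k) (u : L) :
    -(sq τ u) = sq τ (-u) := by
  ext x
  rw [neg_apply, sq_apply, sq_apply, neg_mul, map_neg]

theorem dg_NF_id : NF (LinearMap.id : k →ₗ[k] k) := by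
  intro x h
  have h1 := h 1
  rwa [LinearMap.id_apply, mul_one] at h1

theorem dg_unit {R : Type*} [CommRing R] {g h : R[X]} (hc : IsCoprime g h) :
    IsUnit (AdjoinRoot.mk g h) := by
  obtain ⟨a, b, hab⟩ := hc
  refine IsUnit.of_mul_eq_one (AdjoinRoot.mk g b) ?_
  have h1 := congrArg (AdjoinRoot.mk g) hab
  rw [map_add, map_mul, map_mul, AdjoinRoot.mk_self, mul_zero, zero_add, map_one] at h1
  rw [mul_comm]
  exact h1

/-- A product of odd degree. -/
theorem dg_mul [Module.Finite k E] (h2 : (2 : k) ≠ 0) {σ : E →ₗ[k] k} (hσ : NF σ) {g h : E[X]}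
    (hg : g.Monic) (hh : h.Monic) (hc : IsCoprime g h) (hodd : Odd (g * h).natDegree) :
    WE (sq (Rk σ hg) (AdjoinRoot.mk g h))
      ((sq σ 1).prod (-(sq (Rk σ hh) (AdjoinRoot.mk h g)))) := by
  have i1 : Module.Finite k (AdjoinRoot g) := finite_adjoin hg
  have i2 : Module.Finite k (AdjoinRoot h) := finite_adjoin hh
  have i3 : Module.Finite k (AdjoinRoot (g * h)) := finite_adjoin (hg.mul hh)
  have k1 := sq_mul (k := k) h2 hσ hg hh hc (u := 1) isCoprime_one_left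
  rw [one_mul, one_mul, map_one] at k1
  have k2 := sq_odd (k := k) h2 hσ (hg.mul hh) hodd
  have n1 : ND (sq (Rk σ hg) (AdjoinRoot.mk g h)) := sq_ND h2 (Rk_NF hσ hg) (dg_unit hc)
  have n2 : ND (sq (Rk σ hh) (AdjoinRoot.mk h g)) := sq_ND h2 (Rk_NF hσ hh) (dg_unit hc.symm)
  exact WE.move (WE.trans (n1.prod n2) (sq_ND h2 (Rk_NF hσ (hg.mul hh)) isUnit_one)
    (sq_ND h2 hσ isUnit_one) k1 k2)

/-- **The transfer of the diagonal form.** Proof: `exists_Phi`; `sq_mul` for `P`, `X - C θ` over `E` and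
`u = 1` (coprime since `P (θ)` is a unit: `P - P (θ)` is divisible by `X - C θ`); the product has odd
degree: `sq_odd`; `AdjoinRoot (X - C θ)` is `E` with `Rs_one`; `WE.move`, `WE.trans`. -/
theorem diag_we [Module.Finite k E] (h2 : (2 : k) ≠ 0) {τ : E →ₗ[k] k} (hτ : NF τ) (θ : E)
    {A B : Matrix (Fin 5) (Fin 5) k}
    (φ : (Fin 5 → k) ≃ₗ[k] E) (hA : ∀ x y : Fin 5 → k, bv A x y = -τ (θ * (φ x * φ y)))
    (hB : ∀ x y : Fin 5 → k, bv B x y = -τ (φ x * φ y)) {P : k[X]} (hP : P.Monic)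
    (hN : Even P.natDegree) (hu : IsUnit (aeval θ P)) :
    WE (vq (Rk LinearMap.id hP) A B 2 (AdjoinRoot.root P))
      ((sq τ 1).prod (sq τ (-(aeval θ P)))) := by
  have hE : Nontrivial E := φ.toEquiv.symm.nontrivial
  have hQ : (P.map (algebraMap k E)).Monic := hP.map _
  have hh := monic_X_sub_C θ
  obtain ⟨Φ, hΦ⟩ := exists_Phi (τ := τ) θ φ hA hB hP hQ
  have hev : (P.map (algebraMap k E)).eval θ = aeval θ P := by
    rw [eval_map_algebraMap]
  have hc : IsCoprime (P.map (algebraMap k E)) (X - C θ) := by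
    obtain ⟨v, hv⟩ := hu
    obtain ⟨q, hq⟩ := X_sub_C_dvd_sub_C_eval (a := θ) (p := P.map (algebraMap k E))
    rw [hev, ← hv] at hq
    refine ⟨C ((v⁻¹ : Eˣ) : E), -(C ((v⁻¹ : Eˣ) : E) * q), ?_⟩
    have h3 : C ((v⁻¹ : Eˣ) : E) * C (v : E) = 1 := by
      rw [← C_mul, Units.inv_mul, C_1]
    linear_combination C ((v⁻¹ : Eˣ) : E) * hq + h3
  have hodd : Odd (P.map (algebraMap k E) * (X - C θ)).natDegree := by
    rw [hQ.natDegree_mul hh, hP.natDegree_map, natDegree_X_sub_C]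
    exact hN.add_one
  have i0 : Module.Finite k (AdjoinRoot P) := finite_adjoin hP
  have i1 : Module.Finite k (AdjoinRoot (P.map (algebraMap k E))) := finite_adjoin hQ
  have i2 : Module.Finite k (AdjoinRoot (X - C θ)) := finite_adjoin hh
  have k1 := dg_mul h2 hτ hQ hh hc hodd
  have n1 : ND (sq (Rk τ hQ) (AdjoinRoot.mk (P.map (algebraMap k E)) (X - C θ))) :=
    sq_ND h2 (Rk_NF hτ hQ) (dg_unit hc)
  have n2 : ND (-(sq (Rk τ hh) (AdjoinRoot.mk (X - C θ) (P.map (algebraMap k E))))) :=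
    (sq_ND h2 (Rk_NF hτ hh) (dg_unit hc.symm)).neg
  have n3 : ND (sq τ (-(aeval θ P))) := sq_ND h2 hτ hu.neg
  have n4 : ND (sq τ (1 : E)) := sq_ND h2 hτ isUnit_one
  -- the form over `E`
  have hinj : Function.Bijective ((Rs hh).restrictScalars k) := by
    constructor
    · rw [injective_iff_map_eq_zero]
      intro y hy
      obtain ⟨p, rfl⟩ := AdjoinRoot.mk_surjective y
      have h3 : p.eval θ = 0 := by
        rw [← Rs_one θ p]
        exact hy
      rw [AdjoinRoot.mk_eq_zero]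
      exact dvd_iff_isRoot.2 h3
    · intro e
      refine ⟨AdjoinRoot.mk _ (C e), ?_⟩
      change Rs hh (AdjoinRoot.mk _ (C e)) = e
      rw [Rs_one, eval_C]
  have k2 : WE (-(sq (Rk τ hh) (AdjoinRoot.mk (X - C θ) (P.map (algebraMap k E)))))
      (sq τ (-(aeval θ P))) := by
    refine WE.of_equiv n2 (LinearEquiv.ofBijective _ hinj) fun y => ?_
    obtain ⟨p, rfl⟩ := AdjoinRoot.mk_surjective y
    change sq τ (-(aeval θ P)) (Rs hh (AdjoinRoot.mk _ p)) = _
    have e : -(AdjoinRoot.mk (X - C θ) (P.map (algebraMap k E))) *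
        (AdjoinRoot.mk (X - C θ) p * AdjoinRoot.mk (X - C θ) p) =
          AdjoinRoot.mk (X - C θ) (-(P.map (algebraMap k E)) * (p * p)) := by
      rw [map_mul, map_mul, map_neg]
    rw [dg_sq_neg, sq_apply, sq_apply, Rk_apply, e, Rs_one, Rs_one, eval_mul, eval_mul, eval_neg,
      hev]
  have k3 := WE.prod (WE.refl n4) k2
  have k4 := WE.trans n1 (n4.prod n2) (n4.prod n3) k1 k3
  have n5 : ND (vq (Rk LinearMap.id hP) A B 2 (AdjoinRoot.root P)) :=
    ND.map Φ.symm (fun x => by rw [← hΦ, LinearEquiv.apply_symm_apply]) n1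
  exact WE.trans n5 n1 (n4.prod n3) (WE.of_equiv n5 Φ hΦ) k4

/-- The transfer of `D` over `k[X] / P`. Proof: `sq_mul` for `P`, `D` and `u = 1`, `sq_odd` for `P D`,
`sq_odd` for `D`, `WE.move`, `WE.trans`. -/
theorem recip_we (h2 : (2 : k) ≠ 0) {D P : k[X]} (hD : D.Monic) (hP : P.Monic)
    (hD5 : Odd D.natDegree) (hN : Even P.natDegree) (hc : IsCoprime P D) :
    WE (sq (Rk LinearMap.id hP) (AdjoinRoot.mk P D))
      ((sq (Rk LinearMap.id hD) 1).prod (sq (Rk LinearMap.id hD) (-(AdjoinRoot.mk D P)))) := by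
  have i1 : Module.Finite k (AdjoinRoot P) := finite_adjoin hP
  have i2 : Module.Finite k (AdjoinRoot D) := finite_adjoin hD
  have hid : NF (LinearMap.id : k →ₗ[k] k) := dg_NF_id
  have k1 := dg_mul h2 hid hP hD hc (by
    rw [hP.natDegree_mul hD]
    exact hN.add_odd hD5)
  have n1 : ND (sq (Rk LinearMap.id hP) (AdjoinRoot.mk P D)) :=
    sq_ND h2 (Rk_NF hid hP) (dg_unit hc)
  have n2 : ND (sq (Rk LinearMap.id hD) (-(AdjoinRoot.mk D P))) :=
    sq_ND h2 (Rk_NF hid hD) (dg_unit hc.symm).neg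
  have n3 : ND (sq (Rk LinearMap.id hD) (1 : AdjoinRoot D)) :=
    sq_ND h2 (Rk_NF hid hD) isUnit_one
  have n4 : ND (sq (LinearMap.id : k →ₗ[k] k) 1) := sq_ND h2 hid isUnit_one
  have k2 := (sq_odd (k := k) h2 hid hD hD5).symm
  rw [dg_sq_neg] at k1
  exact WE.trans n1 (n4.prod n2) (n3.prod n2) k1 (WE.prod k2 (WE.refl n2))

end Dr
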