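import Pool.Agent.Lib.MP_f80667_ag.Dr.Vq

/-! The diagonal form of the pencil over `E = k[X] / D`, coefficients in `E`. -/

open Polynomial

namespace Dr

open ZC Tq Dp

variable {k : Type*} [Field k] {E : Type*} [CommRing E] [Algebra k E]

/-- the polar form on unit vectors -/
theorem dgF_bv {n : ℕ} (A : Matrix (Fin n) (Fin n) k) (i j : Fin n) :
    bv A (Pi.single i (1 : k)) (Pi.single j (1 : k)) = A i j + A j i := by
  simp only [bv, Algebra.algebraMap_self, RingHom.id_apply, mul_add, Finset.sum_add_distrib,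
    Pi.single_apply, mul_ite, mul_one, mul_zero]
  simp

/-- twice the value of the form -/
theorem dgF_two {n : ℕ} (A : Matrix (Fin n) (Fin n) k) {R : Type*} [CommRing R] [Algebra k R]
    (y : Fin n → R) : 2 * qv A y = ∑ i, ∑ j,
      algebraMap k R (bv A (Pi.single i (1 : k)) (Pi.single j (1 : k))) * (y i * y j) := by
  simp only [dgF_bv, map_add, add_mul, Finset.sum_add_distrib, qv]
  rw [two_mul]
  congr 1
  rw [Finset.sum_comm]
  refine Finset.sum_congr rfl fun i _ => Finset.sum_congr rfl fun j _ => ?_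
  rw [mul_comm (y i)]

/-- extension of coefficients -/
noncomputable def dgFi (E : Type*) [CommRing E] [Algebra k E] (P : k[X]) :
    AdjoinRoot P →ₐ[k] AdjoinRoot (P.map (algebraMap k E)) :=
  AdjoinRoot.mapAlgHom (Algebra.ofId k E) P (P.map (algebraMap k E)) dvd_rfl

theorem dgFi_mk (P p : k[X]) : dgFi E P (AdjoinRoot.mk P p) =
    AdjoinRoot.mk (P.map (algebraMap k E)) (p.map (algebraMap k E)) := by
  change AdjoinRoot.map (algebraMap k E) P (P.map (algebraMap k E)) dvd_rfl (AdjoinRoot.mk P p) = _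
  rw [AdjoinRoot.map, AdjoinRoot.lift_mk, ← Polynomial.eval₂_map, ← AdjoinRoot.algebraMap_eq,
    ← Polynomial.aeval_def, AdjoinRoot.aeval_eq]

theorem dgFi_root (P : k[X]) : dgFi E P (AdjoinRoot.root P) =
    AdjoinRoot.root (P.map (algebraMap k E)) := by
  rw [← AdjoinRoot.mk_X, dgFi_mk, Polynomial.map_X, AdjoinRoot.mk_X]

theorem dgF_Rs [Nontrivial E] {P : k[X]} (hP : P.Monic) (hP' : (P.map (algebraMap k E)).Monic) (e : E)
    (z : AdjoinRoot P) : Rs hP' (algebraMap E _ e * dgFi E P z) = e * algebraMap k E (Rs hP z) := by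
  obtain ⟨p, rfl⟩ := AdjoinRoot.mk_surjective z
  rw [← Algebra.smul_def, map_smul, smul_eq_mul, dgFi_mk, Rs_mk, Rs_mk,
    ← Polynomial.map_modByMonic _ hP, Polynomial.coeff_map, hP.natDegree_map]

variable (φ : (Fin 5 → k) ≃ₗ[k] E)

theorem dgF_sum (c : Fin 5 → k) :
    φ c = ∑ j, φ (Pi.single j 1) * algebraMap k E (c j) := by
  have h : c = ∑ j, c j • (Pi.single j (1 : k) : Fin 5 → k) := by
    funext i
    simp [Finset.sum_apply, Pi.single_apply]
  conv_lhs => rw [h]
  rw [map_sum]
  refine Finset.sum_congr rfl fun j _ => ?_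
  rw [map_smul, Algebra.smul_def, mul_comm]

theorem dgF_coeff (p : Fin 5 → k[X]) (m : ℕ) :
    (∑ j, C (φ (Pi.single j 1)) * (p j).map (algebraMap k E)).coeff m =
      φ fun j => (p j).coeff m := by
  rw [dgF_sum, Polynomial.finsetSum_coeff]
  refine Finset.sum_congr rfl fun j _ => ?_
  rw [Polynomial.coeff_C_mul, Polynomial.coeff_map]

/-- the map `Φ` -/
noncomputable def dgFPhi (P : k[X]) :
    (Fin 5 → AdjoinRoot P) →ₗ[k] AdjoinRoot (P.map (algebraMap k E)) :=
  ∑ j, (LinearMap.mulLeft k (algebraMap E (AdjoinRoot (P.map (algebraMap k E)))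
    (φ (Pi.single j 1)))) ∘ₗ (dgFi E P).toLinearMap ∘ₗ LinearMap.proj j

theorem dgFPhi_apply (P : k[X]) (y : Fin 5 → AdjoinRoot P) : dgFPhi φ P y =
    ∑ j, algebraMap E (AdjoinRoot (P.map (algebraMap k E))) (φ (Pi.single j 1)) *
      dgFi E P (y j) := by
  rw [dgFPhi, LinearMap.sum_apply]
  rfl

theorem dgFPhi_mk (P : k[X]) (p : Fin 5 → k[X]) :
    dgFPhi φ P (fun j => AdjoinRoot.mk P (p j)) = AdjoinRoot.mk (P.map (algebraMap k E))
      (∑ j, C (φ (Pi.single j 1)) * (p j).map (algebraMap k E)) := by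
  rw [dgFPhi_apply, map_sum]
  refine Finset.sum_congr rfl fun j _ => ?_
  rw [map_mul, dgFi_mk]
  rfl

theorem dgFPhi_bij [Nontrivial E] {P : k[X]} (hP : P.Monic) :
    Function.Bijective (dgFPhi φ P) := by
  have hP' : (P.map (algebraMap k E)).Monic := hP.map _
  constructor
  · rw [injective_iff_map_eq_zero]
    intro y hy
    have h1 : ∀ j, AdjoinRoot.mk P (AdjoinRoot.modByMonicHom hP (y j)) = y j := fun j =>
      AdjoinRoot.mk_leftInverse hP (y j)
    have h2 : y = fun j => AdjoinRoot.mk P (AdjoinRoot.modByMonicHom hP (y j)) := by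
      funext j
      exact (h1 j).symm
    have hdeg : ∀ j, (AdjoinRoot.modByMonicHom hP (y j)).degree < P.degree := by
      intro j
      obtain ⟨p, hp⟩ := AdjoinRoot.mk_surjective (y j)
      rw [← hp, AdjoinRoot.modByMonicHom_mk]
      exact Polynomial.degree_modByMonic_lt _ hP
    rw [h2, dgFPhi_mk, AdjoinRoot.mk_eq_zero] at hy
    have h3 : ∑ j, C (φ (Pi.single j 1)) *
        (AdjoinRoot.modByMonicHom hP (y j)).map (algebraMap k E) = 0 := by
      by_contra hne
      refine hP'.not_dvd_of_degree_lt hne ?_ hy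
      rw [hP.degree_map]
      have hPd : (⊥ : WithBot ℕ) < P.degree := (bot_le).trans_lt (hdeg 0)
      refine (Polynomial.degree_sum_le _ _).trans_lt ?_
      rw [Finset.sup_lt_iff hPd]
      intro j _
      refine lt_of_le_of_lt ?_ (hdeg j)
      refine (Polynomial.degree_mul_le _ _).trans ?_
      calc _ ≤ 0 + (AdjoinRoot.modByMonicHom hP (y j)).degree :=
            add_le_add Polynomial.degree_C_le Polynomial.degree_map_le
        _ = _ := zero_add _
    have h4 : ∀ j, AdjoinRoot.modByMonicHom hP (y j) = 0 := by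
      intro j
      ext m
      have h5 := dgF_coeff φ (fun j => AdjoinRoot.modByMonicHom hP (y j)) m
      rw [h3, Polynomial.coeff_zero] at h5
      have h6 := (map_eq_zero_iff φ φ.injective).1 h5.symm
      have h7 := congrFun h6 j
      rw [Polynomial.coeff_zero]
      exact h7
    funext j
    rw [← h1 j, h4 j, map_zero]
    rfl
  · intro x
    obtain ⟨g, rfl⟩ := AdjoinRoot.mk_surjective x
    let p : Fin 5 → k[X] := fun j => ∑ m ∈ g.support, monomial m ((φ.symm (g.coeff m)) j)
    refine ⟨fun j => AdjoinRoot.mk P (p j), ?_⟩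
    rw [dgFPhi_mk]
    congr 1
    ext m
    rw [dgF_coeff]
    have h1 : (fun j => (p j).coeff m) = φ.symm (g.coeff m) := by
      funext j
      change (∑ m ∈ g.support, monomial m ((φ.symm (g.coeff m)) j)).coeff m = _
      rw [Polynomial.finsetSum_coeff]
      simp only [Polynomial.coeff_monomial]
      rw [Finset.sum_ite_eq' g.support m fun m => (φ.symm (g.coeff m)) j]
      split_ifs with h
      · rfl
      · rw [Polynomial.notMem_support_iff.1 h, map_zero]
        rfl
    rw [h1, LinearEquiv.apply_symm_apply]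

/-- Coefficients in `E`. Proof: `Φ y = ∑ j, φ (e_j) · y_j`, the `y_j` mapped to `E[X] / P`
(`AdjoinRoot.map` or `AdjoinRoot.lift`). Bijective since `φ (e_j)` is a basis of `E` (compare the
coefficients of the representatives). `mB A B 1 (-root) y y'` is `∑ (bv A e_i e_j - root bv B e_i e_j) y_i y'_j`,
and `Rk τ (e y) = τ e · Rs y` for `e ∈ E`, `y` with coefficients in `k`. -/
theorem exists_Phi {τ : E →ₗ[k] k} (θ : E) {A B : Matrix (Fin 5) (Fin 5) k}
    (φ : (Fin 5 → k) ≃ₗ[k] E) (hA : ∀ x y : Fin 5 → k, bv A x y = -τ (θ * (φ x * φ y)))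
    (hB : ∀ x y : Fin 5 → k, bv B x y = -τ (φ x * φ y)) {P : k[X]} (hP : P.Monic)
    (hP' : (P.map (algebraMap k E)).Monic) :
    ∃ Φ : (Fin 5 → AdjoinRoot P) ≃ₗ[k] AdjoinRoot (P.map (algebraMap k E)),
      ∀ y, sq (Rk τ hP') (AdjoinRoot.mk _ (X - C θ)) (Φ y) =
        vq (Rk LinearMap.id hP) A B 2 (AdjoinRoot.root P) y := by
  have hnt : Nontrivial E := φ.symm.surjective.nontrivial
  refine ⟨LinearEquiv.ofBijective (dgFPhi φ P) (dgFPhi_bij φ hP), fun y => ?_⟩
  rw [LinearEquiv.ofBijective_apply, sq_apply, vq_apply, Rk_apply, Rk_apply, LinearMap.id_apply]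
  have hmk : AdjoinRoot.mk (P.map (algebraMap k E)) (X - C θ) =
      dgFi E P (AdjoinRoot.root P) - algebraMap E _ θ := by
    rw [map_sub, AdjoinRoot.mk_X, dgFi_root]
    rfl
  have h1 : AdjoinRoot.mk (P.map (algebraMap k E)) (X - C θ) * (dgFPhi φ P y * dgFPhi φ P y) =
      ∑ i, ∑ j, (algebraMap E _ (φ (Pi.single i 1) * φ (Pi.single j 1)) *
        dgFi E P (AdjoinRoot.root P * (y i * y j)) -
          algebraMap E _ (θ * (φ (Pi.single i 1) * φ (Pi.single j 1))) *
            dgFi E P (y i * y j)) := by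
    rw [hmk, dgFPhi_apply, Finset.sum_mul_sum, Finset.mul_sum]
    refine Finset.sum_congr rfl fun i _ => ?_
    rw [Finset.mul_sum]
    refine Finset.sum_congr rfl fun j _ => ?_
    simp only [map_mul]
    ring
  have hτ : ∀ (e : E) (c : k), τ (e * algebraMap k E c) = c * τ e := by
    intro e c
    rw [mul_comm, ← Algebra.smul_def, map_smul, smul_eq_mul]
  have h2 : τ (Rs hP' (AdjoinRoot.mk (P.map (algebraMap k E)) (X - C θ) *
      (dgFPhi φ P y * dgFPhi φ P y))) =
      ∑ i, ∑ j, (Rs hP (AdjoinRoot.root P * (y i * y j)) *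
        τ (φ (Pi.single i 1) * φ (Pi.single j 1)) -
          Rs hP (y i * y j) * τ (θ * (φ (Pi.single i 1) * φ (Pi.single j 1)))) := by
    rw [h1, map_sum, map_sum]
    refine Finset.sum_congr rfl fun i _ => ?_
    rw [map_sum, map_sum]
    refine Finset.sum_congr rfl fun j _ => ?_
    rw [map_sub, map_sub, dgF_Rs hP, dgF_Rs hP, hτ, hτ]
  have hR : ∀ (c : k) (z : AdjoinRoot P),
      Rs hP (algebraMap k (AdjoinRoot P) c * z) = c * Rs hP z := by
    intro c z
    rw [← Algebra.smul_def, map_smul, smul_eq_mul]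
  have h3 : (2 : AdjoinRoot P) * mQ A B 1 (-AdjoinRoot.root P) y =
      ∑ i, ∑ j, (algebraMap k (AdjoinRoot P) (τ (φ (Pi.single i 1) * φ (Pi.single j 1))) *
        (AdjoinRoot.root P * (y i * y j)) -
          algebraMap k (AdjoinRoot P) (τ (θ * (φ (Pi.single i 1) * φ (Pi.single j 1)))) *
            (y i * y j)) := by
    have e : (2 : AdjoinRoot P) * mQ A B 1 (-AdjoinRoot.root P) y =
        2 * qv A y - AdjoinRoot.root P * (2 * qv B y) := by
      rw [mQ]
      ring
    rw [e, dgF_two, dgF_two, Finset.mul_sum, ← Finset.sum_sub_distrib]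
    refine Finset.sum_congr rfl fun i _ => ?_
    rw [Finset.mul_sum, ← Finset.sum_sub_distrib]
    refine Finset.sum_congr rfl fun j _ => ?_
    rw [hA, hB, map_neg, map_neg]
    ring
  rw [h2, h3, map_sum]
  refine Finset.sum_congr rfl fun i _ => ?_
  rw [map_sum]
  refine Finset.sum_congr rfl fun j _ => ?_
  rw [map_sub, hR, hR]
  ring

end Dr
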