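import Pool.Agent.Lib.MP_f80667_ag.Dr.Fm
import Pool.Agent.Lib.MP_f80667_ag.Dr.Cr
import Pool.Agent.Lib.MP_f80667_ag.Dr.ZcD
import Pool.Agent.Lib.MP_f80667_ag.Fa.Dfs

/-! The number of the ramified places above a finite place is even. -/

open IsDedekindDomain NumberField Module Polynomial

namespace Dr

open ZC Tq Dp

variable {F : Type} [Field F] [NumberField F] {A B : Matrix (Fin 5) (Fin 5) F} {ι : Type} [Fintype ι]
  {D : F[X]} {K : ι → Type} [∀ i, Field (K i)] [∀ i, NumberField (K i)] [∀ i, Algebra F (K i)]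
  {θ : ∀ i, K i}

/-- **The parity at a finite place.** Proof: `zc_dat` over `FK F v = v.adicCompletion F` for
`w`, `D`, `c` mapped to the completion (`chp_map`, `dl_map`; `dl` is a unit modulo `D` since its values
`δ i` at the `θ i` are not zero: it is coprime to all minimal polynomials); `Sp.exists_j`, `par_fam` with
the functionals multiplied by `-c`. -/
theorem par_v (hS : Sp D K θ) (hn : D.natDegree = 5) {c : F} (hc : c ≠ 0)
    (hf : Dq.chp A B = C c * D) (w : Fin 5 → F) (δ : ∀ i, (K i)ˣ)
    (hδ : ∀ i, (δ i : K i) = aeval (θ i) (dl A B w)) (v : HeightOneSpectrum (𝓞 F)) {P : F[X]}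
    {z : Projectivization (AlgebraicClosure (FK F v)) (Fin 5 → AlgebraicClosure (FK F v)) →₀ ℤ}
    (h : Dat (A.map (algebraMap F (FK F v))) (B.map (algebraMap F (FK F v)))
      (P.map (algebraMap F (FK F v))) z) (hN : Even P.natDegree) (a : ∀ i, (K i)ˣ)
    (ha : ∀ i, (a i : K i) = aeval (θ i) P) : Even (∑ i, nF v (a i) (δ i)) := by
  have hDm : (D.map (algebraMap F (FK F v))).Monic := hS.monic.map _
  have hf' : Dq.chp (A.map (algebraMap F (FK F v))) (B.map (algebraMap F (FK F v))) =
      C (algebraMap F (FK F v) c) * D.map (algebraMap F (FK F v)) := by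
    rw [← chp_map, hf, Polynomial.map_mul, map_C]
  have hn' : (D.map (algebraMap F (FK F v))).natDegree = 5 := by
    rw [natDegree_map, hn]
  have hc' : algebraMap F (FK F v) c ≠ 0 := by
    intro h0
    exact hc ((algebraMap F (FK F v)).injective (by rw [h0, map_zero]))
  have hcop : IsCoprime (dl A B w) D := by
    rw [hS.prod]
    refine IsCoprime.prod_right fun i _ => ?_
    rw [isCoprime_comm, (minpoly.irreducible (hS.int i)).coprime_iff_not_dvd]
    rintro ⟨q, hq⟩
    have h1 := hδ i
    rw [hq, map_mul, minpoly.aeval, zero_mul] at h1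
    exact (δ i).ne_zero h1
  have hδu : IsUnit (AdjoinRoot.mk (D.map (algebraMap F (FK F v)))
      (dl (A.map (algebraMap F (FK F v))) (B.map (algebraMap F (FK F v)))
        (fun i => algebraMap F (FK F v) (w i)))) := by
    rw [← dl_map]
    exact zc_unit (hcop.map (mapRingHom (algebraMap F (FK F v))))
  have hN' : Even (P.map (algebraMap F (FK F v))).natDegree := by
    rwa [natDegree_map]
  have hch : CharZero (FK F v) :=
    charZero_of_injective_algebraMap (algebraMap F (FK F v)).injective
  obtain ⟨-, W, hW⟩ := zc_dat (fun i => algebraMap F (FK F v) (w i)) hDm hn' hc' hf' hδu h hN'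
  obtain ⟨j, b, b', s, hj, hb, hNF, hs, hjp⟩ := hS.exists_j (FK F v) hDm
  have hN1 : NF ((-c) • s) := by
    intro x hx
    refine hNF x fun y => ?_
    have h1 := hx y
    rw [LinearMap.smul_apply, smul_eq_mul] at h1
    exact (mul_eq_zero.1 h1).resolve_left (neg_ne_zero.2 hc)
  have hs1 : ∀ x : ∀ i, K i, ((-(algebraMap F (FK F v) c)) • Rk LinearMap.id hDm) (j x) =
      algebraMap F (FK F v) (((-c) • s) x) := by
    intro x
    rw [LinearMap.smul_apply, LinearMap.smul_apply, hs, smul_eq_mul, smul_eq_mul, map_mul, map_neg]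
  have e1 : (fun i => (δ i : K i)) = fun i => aeval (θ i) (dl A B w) := funext hδ
  have e2 : (fun i => (a i : K i)) = fun i => aeval (θ i) P := funext ha
  have hW' : Lag (tr ((-(algebraMap F (FK F v) c)) • Rk LinearMap.id hDm)
      (qnF (j fun i => (δ i : K i)) (j fun i => (a i : K i)))) W := by
    rw [e1, e2, hjp, hjp, dl_map]
    exact hW
  have hfin : Module.Finite (FK F v) (AdjoinRoot (D.map (algebraMap F (FK F v)))) :=
    finite_adjoin (k := FK F v) hDm
  exact @par_fam F _ _ ι _ K _ _ _ v δ a (AdjoinRoot (D.map (algebraMap F (FK F v)))) _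
    (inferInstance : Algebra (FK F v) (AdjoinRoot (D.map (algebraMap F (FK F v))))) hfin
    j hj _ b b' hb _ hN1 _ hs1 W hW'

end Dr
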