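import Pool.Agent.Lib.MP_f80667_ag.Dr.Rs

/-! Identities of quadratic forms after a change of rings, functionals and traces. -/

namespace Dr

/-- The value of a matrix on a standard basis vector. -/
private theorem mulVec_e {L : Type*} [CommRing L] (A : Matrix (Fin 4) (Fin 4) L) (x : Fin 4 → L)
    (k : Fin 4) : (A.mulVec x) k = A k 0 * x 0 + A k 1 * x 1 + A k 2 * x 2 + A k 3 * x 3 := by
  rw [Matrix.mulVec, dotProduct, Fin.sum_univ_four]

/-- The identity for a matrix. -/
theorem iso_mat {L L' : Type*} [CommRing L] [CommRing L'] (j : L →+* L')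
    (A : Matrix (Fin 4) (Fin 4) L) {c c' δ a ε a' : L}
    (h : ∀ v, c * qn δ a (A.mulVec v) = c' * qe ε a' v) (v : Fin 4 → L') :
    j c * qn (j δ) (j a) ((A.map j).mulVec v) = j c' * qe (j ε) (j a') v := by
  have key : ∀ x : Fin 4 → L,
      c * ((A 0 0 * x 0 + A 0 1 * x 1 + A 0 2 * x 2 + A 0 3 * x 3) ^ 2 -
        δ * (A 1 0 * x 0 + A 1 1 * x 1 + A 1 2 * x 2 + A 1 3 * x 3) ^ 2 -
        a * (A 2 0 * x 0 + A 2 1 * x 1 + A 2 2 * x 2 + A 2 3 * x 3) ^ 2 +
        a * δ * (A 3 0 * x 0 + A 3 1 * x 1 + A 3 2 * x 2 + A 3 3 * x 3) ^ 2) =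
      c' * ((x 0 ^ 2 + x 0 * x 1 - ε * x 1 ^ 2) - a' * (x 2 ^ 2 + x 2 * x 3 - ε * x 3 ^ 2)) := by
    intro x
    have h1 := h x
    rw [qn, qe, nn, nn, mulVec_e, mulVec_e, mulVec_e, mulVec_e] at h1
    exact h1
  have e0 := congrArg j (key ![1, 0, 0, 0])
  have e1 := congrArg j (key ![0, 1, 0, 0])
  have e2 := congrArg j (key ![0, 0, 1, 0])
  have e3 := congrArg j (key ![0, 0, 0, 1])
  have e01 := congrArg j (key ![1, 1, 0, 0])
  have e02 := congrArg j (key ![1, 0, 1, 0])
  have e03 := congrArg j (key ![1, 0, 0, 1])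
  have e12 := congrArg j (key ![0, 1, 1, 0])
  have e13 := congrArg j (key ![0, 1, 0, 1])
  have e23 := congrArg j (key ![0, 0, 1, 1])
  simp only [Matrix.cons_val_zero, Matrix.cons_val_one, Matrix.cons_val, mul_one, mul_zero, add_zero,
    zero_add, map_mul, map_add, map_sub, map_pow, map_one, map_zero] at e0 e1 e2 e3 e01 e02 e03 e12 e13 e23
  rw [qn, qe, nn, nn, mulVec_e, mulVec_e, mulVec_e, mulVec_e]
  simp only [Matrix.map_apply]
  generalize j (A 0 0) = a00 at *
  generalize j (A 0 1) = a01 at *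
  generalize j (A 0 2) = a02 at *
  generalize j (A 0 3) = a03 at *
  generalize j (A 1 0) = a10 at *
  generalize j (A 1 1) = a11 at *
  generalize j (A 1 2) = a12 at *
  generalize j (A 1 3) = a13 at *
  generalize j (A 2 0) = a20 at *
  generalize j (A 2 1) = a21 at *
  generalize j (A 2 2) = a22 at *
  generalize j (A 2 3) = a23 at *
  generalize j (A 3 0) = a30 at *
  generalize j (A 3 1) = a31 at *
  generalize j (A 3 2) = a32 at *
  generalize j (A 3 3) = a33 at *
  generalize v 0 = v0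
  generalize v 1 = v1
  generalize v 2 = v2
  generalize v 3 = v3
  generalize j c = C at *
  generalize j c' = C' at *
  generalize j δ = D at *
  generalize j a = B at *
  generalize j ε = E at *
  generalize j a' = B' at *
  linear_combination v0 ^ 2 * e0 + v1 ^ 2 * e1 + v2 ^ 2 * e2 + v3 ^ 2 * e3 +
    v0 * v1 * (e01 - e0 - e1) + v0 * v2 * (e02 - e0 - e2) + v0 * v3 * (e03 - e0 - e3) +
    v1 * v2 * (e12 - e1 - e2) + v1 * v3 * (e13 - e1 - e3) + v2 * v3 * (e23 - e2 - e3)

/-- An identity of quadratic forms with coefficients in `L` holds over every ring over `L`. Proof: the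
coefficients are the values and the polar values on the standard basis vectors. `M` is the matrix of
`e`. -/
theorem iso_bc {L L' : Type*} [CommRing L] [CommRing L'] (j : L →+* L')
    (e : (Fin 4 → L) ≃ₗ[L] (Fin 4 → L)) {c c' δ a ε a' : L}
    (h : ∀ v, c * qn δ a (e v) = c' * qe ε a' v) :
    ∃ e' : (Fin 4 → L') ≃ₗ[L'] (Fin 4 → L'),
      ∀ v, j c * qn (j δ) (j a) (e' v) = j c' * qe (j ε) (j a') v := by
  obtain ⟨A, hA⟩ : ∃ A : Matrix (Fin 4) (Fin 4) L, A = LinearMap.toMatrix' (e : (Fin 4 → L) →ₗ[L] _) :=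
    ⟨_, rfl⟩
  obtain ⟨B, hB⟩ : ∃ B : Matrix (Fin 4) (Fin 4) L,
      B = LinearMap.toMatrix' (e.symm : (Fin 4 → L) →ₗ[L] _) := ⟨_, rfl⟩
  have hAB : A * B = 1 := by
    rw [hA, hB, ← LinearMap.toMatrix'_comp, LinearEquiv.comp_symm, LinearMap.toMatrix'_id]
  have hBA : B * A = 1 := by
    rw [hA, hB, ← LinearMap.toMatrix'_comp, LinearEquiv.symm_comp, LinearMap.toMatrix'_id]
  have hAB' : A.map j * B.map j = 1 := by
    rw [← Matrix.map_mul, hAB, Matrix.map_one j j.map_zero j.map_one]
  have hBA' : B.map j * A.map j = 1 := by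
    rw [← Matrix.map_mul, hBA, Matrix.map_one j j.map_zero j.map_one]
  refine ⟨Matrix.toLin'OfInv hBA' hAB', fun v => ?_⟩
  have h1 : (Matrix.toLin'OfInv hBA' hAB') v = (A.map j).mulVec v := by
    change Matrix.toLin' (A.map j) v = _
    rw [Matrix.toLin'_apply]
  rw [h1]
  refine iso_mat j A (fun w => ?_) v
  have h2 : A.mulVec w = e w := by
    rw [hA, LinearMap.toMatrix'_mulVec]
    rfl
  rw [h2, h w]

/-- A functional of a product of fields is given by traces. Proof: the trace forms are nondegenerate;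
the components are not zero since the functional is nondegenerate. -/
theorem exists_tr {F : Type} [Field F] [CharZero F] {ι : Type} [Fintype ι] {K : ι → Type}
    [∀ i, Field (K i)] [∀ i, Algebra F (K i)] [∀ i, FiniteDimensional F (K i)]
    (s : (∀ i, K i) →ₗ[F] F) (hs : NF s) :
    ∃ c : ∀ i, (K i)ˣ, ∀ x, s x = ∑ i, sT F (c i : K i) (x i) := by
  classical
  have h1 : ∀ i, ∃ c : K i, ∀ x : K i, Algebra.trace F (K i) (c * x) = s (Pi.single i x) := by
    intro i
    refine ⟨((Algebra.traceForm F (K i)).toDual (traceForm_nondegenerate F (K i))).symm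
      (s ∘ₗ LinearMap.single F K i), fun x => ?_⟩
    exact LinearMap.BilinForm.apply_toDual_symm_apply (B := Algebra.traceForm F (K i)) _ x
  choose c hc using h1
  have hc0 : ∀ i, c i ≠ 0 := by
    intro i hi
    have h2 : (Pi.single i (1 : K i) : ∀ i, K i) = 0 := by
      refine hs _ fun y => ?_
      have h3 : (Pi.single i (1 : K i) : ∀ i, K i) * y = Pi.single i (y i) := by
        rw [← Pi.single_mul_left, one_mul]
      rw [h3, ← hc, hi, zero_mul, map_zero]
    have h3 := congrFun h2 i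
    rw [Pi.single_eq_same] at h3
    exact one_ne_zero h3
  refine ⟨fun i => Units.mk0 (c i) (hc0 i), fun x => ?_⟩
  have h4 : x = ∑ i, Pi.single i (x i) := (Finset.univ_sum_single x).symm
  conv_lhs => rw [h4, map_sum]
  exact Finset.sum_congr rfl fun i _ => (hc i (x i)).symm

end Dr
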