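import Pool.Agent.Lib.MP_f80667_ag.Dr.Pi
import Pool.Agent.Lib.MP_f80667_ag.Dr.FmA

/-! The number of the ramified places above `v` of a family of quaternion algebras whose transfer has a
Lagrangian over the completion. -/

open IsDedekindDomain NumberField Module

namespace Dr

variable {F : Type} [Field F] [NumberField F] {ι : Type} [Fintype ι] {K : ι → Type}
  [∀ i, Field (K i)] [∀ i, NumberField (K i)] [∀ i, Algebra F (K i)]

/-- **The number of the ramified places above `v`.** Proof: `exists_tr` gives `c i`; `exists_nice` for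
`δ i`, `a i`, `c i` gives `ε i`, `a' i`, `c' i` and isometries, together one over `L = ∏ K i`; `iso_bc`;
the functional `y ↦ s' (j (c⁻¹ c') y)` of `L'` extends `x ↦ ∑ Tr (c' i x i)`; `Lag.map`; `par_loc`; the count is
`nF`. -/
theorem par_fam (v : HeightOneSpectrum (𝓞 F)) (δ a : ∀ i, (K i)ˣ) {L' : Type} [CommRing L']
    [Algebra (v.adicCompletion F) L'] [FiniteDimensional (v.adicCompletion F) L']
    (j : (∀ i, K i) →+* L')
    (hj : ∀ x : F, j (algebraMap F _ x) =
      algebraMap (v.adicCompletion F) L' (algebraMap F (v.adicCompletion F) x)) {n : ℕ}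
    (b : Basis (Fin n) F (∀ i, K i)) (b' : Basis (Fin n) (v.adicCompletion F) L')
    (hb : ∀ m, b' m = j (b m)) {s : (∀ i, K i) →ₗ[F] F} (hN : NF s)
    {s' : L' →ₗ[v.adicCompletion F] v.adicCompletion F}
    (hs : ∀ x : ∀ i, K i, s' (j x) = algebraMap F (v.adicCompletion F) (s x))
    {W : Submodule (v.adicCompletion F) (Fin 4 → L')}
    (hW : Lag (tr s' (qnF (j fun i => (δ i : K i)) (j fun i => (a i : K i)))) W) :
    Even (∑ i, nF v (a i) (δ i)) := by
  have hfd : ∀ i, FiniteDimensional F (K i) := fun i => FiniteDimensional.right ℚ F (K i)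
  obtain ⟨c, hc⟩ := exists_tr s hN
  choose ε a' c' hnice he hcount using fun i => exists_nice (K := K i) v (δ i) (a i) (c i)
  choose e he using he
  -- the isometry over the product
  let E : (Fin 4 → ∀ i, K i) ≃ₗ[∀ i, K i] (Fin 4 → ∀ i, K i) :=
    { toFun := fun x m i => e i (fun l => x l i) m
      invFun := fun x m i => (e i).symm (fun l => x l i) m
      map_add' := fun x y => by
        funext m i
        exact congrFun (map_add (e i) (fun l => x l i) (fun l => y l i)) m
      map_smul' := fun r x => by
        funext m i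
        exact congrFun (map_smul (e i) (r i) (fun l => x l i)) m
      left_inv := fun x => by
        funext m i
        exact congrFun ((e i).symm_apply_apply (fun l => x l i)) m
      right_inv := fun x => by
        funext m i
        exact congrFun ((e i).apply_symm_apply (fun l => x l i)) m }
  have hE : ∀ x : Fin 4 → ∀ i, K i,
      (fun i => (c i : K i)) * qn (fun i => (δ i : K i)) (fun i => (a i : K i)) (E x) =
        c' * qe ε a' x := by
    intro x
    funext i
    exact he i fun l => x l i
  obtain ⟨E', hE'⟩ := iso_bc j E hE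
  -- the new functional
  let t : ∀ i, K i := fun i => ((c i)⁻¹ : (K i)ˣ) * c' i
  have ht : ((fun i => (((c i)⁻¹ : (K i)ˣ) : K i)) * c' : ∀ i, K i) = t := rfl
  have hcc : (fun i => (((c i)⁻¹ : (K i)ˣ) : K i)) * (fun i => (c i : K i)) = 1 := by
    funext i
    exact (c i).inv_mul
  let s'' : L' →ₗ[v.adicCompletion F] v.adicCompletion F :=
    s' ∘ₗ LinearMap.mulLeft (v.adicCompletion F) (j t)
  have hs'' : ∀ x : ∀ i, K i, s'' (j x) =
      algebraMap F (v.adicCompletion F) (∑ i, sT F (c' i) (x i)) := by
    intro x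
    have h1 : s'' (j x) = s' (j (t * x)) := by
      rw [map_mul]
      rfl
    rw [h1, hs, hc]
    congr 1
    refine Finset.sum_congr rfl fun i _ => ?_
    rw [sT_apply, sT_apply]
    congr 1
    change (c i : K i) * ((((c i)⁻¹ : (K i)ˣ) : K i) * c' i * x i) = c' i * x i
    rw [← mul_assoc, ← mul_assoc, (c i).mul_inv, one_mul]
  have hQ : ∀ x, tr s'' (qeF (j ε) (j a')) x =
      tr s' (qnF (j fun i => (δ i : K i)) (j fun i => (a i : K i))) (E' x) := by
    intro x
    rw [tr_apply, tr_apply, qeF_apply, qnF_apply]
    change s' (j t * qe (j ε) (j a') x) = _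
    congr 1
    rw [← ht, map_mul, mul_assoc, ← hE', ← mul_assoc, ← map_mul, hcc, map_one, one_mul]
  have hW' := hW.map (Q' := tr s'' (qeF (j ε) (j a')))
    (E'.symm.restrictScalars (v.adicCompletion F)) (fun x => by
      rw [hQ]
      congr 1
      exact E'.apply_symm_apply x)
  have hpar := par_loc v hnice j hj b b' hb hs'' hW'
  have hcard : ∀ i, nF v (a i) (δ i) = Nat.card {w : HeightOneSpectrum (𝓞 (K i)) //
      w.under (𝓞 F) = v ∧ w.valuation (K i) (a' i) ≠ 1} := by
    intro i
    rw [nF]
    refine Nat.card_congr (Equiv.subtypeEquivRight fun w => ?_)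
    exact and_congr_right fun hw => hcount i w hw
  rw [Finset.sum_congr rfl fun i _ => hcard i]
  exact hpar

end Dr
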