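import Pool.Agent.Lib.MP_f80667_ag.Dr.GsA

/-! Gauss sums of norm forms over finite fields. -/

namespace Dr

/-- Products. Proof: `ψ` is the product of its restrictions `ψ j` to the factors
(`AddChar` of a finite product: `ψ x = ∏ j, ψ (Pi.single j (x j))`), `Fintype.sum_prod_type`,
`Finset.prod_univ_sum` after the identification of `(∀ j, F j) × (∀ j, F j)` with `∀ j, F j × F j`. -/
theorem gauss_prod {J : Type*} [Fintype J] [DecidableEq J] {F : J → Type*} [∀ j, Field (F j)]
    [∀ j, Fintype (F j)] (ε : ∀ j, F j) (hε : ∀ j (x : F j), x ^ 2 - x - ε j ≠ 0)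
    (ψ : AddChar (∀ j, F j) ℂ) (hψ : ∀ j, ∃ x : F j, ψ (Pi.single j x) ≠ 1) :
    ∑ x : (∀ j, F j) × (∀ j, F j), ψ (nn ε x.1 x.2) = ∏ j, -(Fintype.card (F j) : ℂ) := by
  classical
  obtain ⟨φ, hφ⟩ : ∃ φ : ∀ j, AddChar (F j) ℂ, ∀ j x, φ j x = ψ (Pi.single j x) :=
    ⟨fun j => ψ.compAddMonoidHom (AddMonoidHom.single F j), fun j x => rfl⟩
  have hφ1 : ∀ j, φ j ≠ 1 := by
    intro j h
    obtain ⟨x, hx⟩ := hψ j
    apply hx
    rw [← hφ, h]
    rfl
  have hsum : ∀ (s : Finset J) (g : J → ∀ j, F j), ψ (∑ j ∈ s, g j) = ∏ j ∈ s, ψ (g j) := by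
    intro s g
    induction s using Finset.induction_on with
    | empty => simp
    | insert a s ha ih =>
      rw [Finset.sum_insert ha, Finset.prod_insert ha, AddChar.map_add_eq_mul, ih]
  have hprod : ∀ x : ∀ j, F j, ψ x = ∏ j, φ j (x j) := by
    intro x
    conv_lhs => rw [← Finset.univ_sum_single x]
    rw [hsum]
    exact Finset.prod_congr rfl fun j _ => (hφ j (x j)).symm
  obtain ⟨E, hE⟩ : ∃ E : ((∀ j, F j) × (∀ j, F j)) ≃ (∀ j, F j × F j),
      ∀ x j, E x j = (x.1 j, x.2 j) :=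
    ⟨{ toFun := fun x j => (x.1 j, x.2 j)
       invFun := fun y => (fun j => (y j).1, fun j => (y j).2)
       left_inv := fun _ => rfl
       right_inv := fun _ => rfl }, fun _ _ => rfl⟩
  have h1 : ∑ x : (∀ j, F j) × (∀ j, F j), ψ (nn ε x.1 x.2) =
      ∑ y : ∀ j, F j × F j, ∏ j, φ j (nn (ε j) (y j).1 (y j).2) := by
    refine Fintype.sum_equiv E _ _ fun x => ?_
    rw [hprod]
    refine Finset.prod_congr rfl fun j _ => ?_
    rw [hE]
    rfl
  rw [h1]
  have h2 := Finset.prod_univ_sum (fun j => (Finset.univ : Finset (F j × F j)))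
    (fun j (y : F j × F j) => φ j (nn (ε j) y.1 y.2))
  rw [Fintype.piFinset_univ] at h2
  rw [← h2]
  exact Finset.prod_congr rfl fun j _ => gauss_norm (ε j) (hε j) (φ j) (hφ1 j)

/-- The Gauss sum of a quadratic form with a Lagrangian on a finite group. Proof: the sum over `y` of
`f (y + x)` does not depend on `x ∈ X`; so `card X * ∑ f y = ∑_y f y ∑_(x ∈ X) B y x`, and the inner sum
is `0` for `y ∉ X` (a nontrivial character of `X`) and `card X` for `y ∈ X` (`f = 1` on `X` gives
`B y x = 1`). -/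
theorem lag_sum {V : Type*} [AddCommGroup V] [Fintype V] (X : AddSubgroup V) (f : V → ℂ)
    (B : V → AddChar V ℂ) (hf : ∀ x y, f (x + y) = f x * f y * B x y) (hX : ∀ x ∈ X, f x = 1)
    (hm : ∀ y, (∀ x ∈ X, B y x = 1) → y ∈ X) : ∑ y, f y = (Nat.card X : ℂ) := by
  classical
  have : Fintype X := Fintype.ofFinite X
  rw [Nat.card_eq_fintype_card]
  have h1 : ∀ x : X, ∑ y, f (y + x) = ∑ y, f y := fun x =>
    Equiv.sum_comp (Equiv.addRight (x : V)) f
  have h2 : ∀ y : V, ∑ x : X, f (y + x) = if y ∈ X then (Fintype.card X : ℂ) else 0 := by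
    intro y
    split_ifs with hy
    · rw [Finset.sum_congr rfl fun (x : X) _ => hX (y + x) (X.add_mem hy x.2)]
      simp
    · have h3 : ∃ x ∈ X, B y x ≠ 1 := by
        by_contra hcon
        push Not at hcon
        exact hy (hm y hcon)
      obtain ⟨x0, hx0, h0⟩ := h3
      have h4 : ∀ x : X, f (y + x) = f y * B y x := by
        intro x
        rw [hf, hX x x.2, mul_one]
      rw [Finset.sum_congr rfl fun (x : X) _ => h4 x, ← Finset.mul_sum]
      have h5 : ∑ x : X, B y x = 0 := by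
        have h6 : B y x0 * ∑ x : X, B y x = ∑ x : X, B y x := by
          rw [Finset.mul_sum]
          refine Eq.trans ?_ (Equiv.sum_comp (Equiv.addLeft (⟨x0, hx0⟩ : X))
            (fun x : X => B y x))
          refine Finset.sum_congr rfl fun x _ => ?_
          rw [← AddChar.map_add_eq_mul]
          rfl
        have h7 : (B y x0 - 1) * ∑ x : X, B y x = 0 := by
          rw [sub_mul, h6, one_mul, sub_self]
        exact (mul_eq_zero.1 h7).resolve_left (sub_ne_zero.2 h0)
      rw [h5, mul_zero]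
  have h8 : (Fintype.card X : ℂ) * ∑ y, f y = (Fintype.card X : ℂ) * (Fintype.card X : ℂ) := by
    calc (Fintype.card X : ℂ) * ∑ y, f y = ∑ x : X, ∑ y, f (y + x) := by
          rw [Finset.sum_congr rfl fun x _ => h1 x, Finset.sum_const, Finset.card_univ,
            nsmul_eq_mul]
      _ = ∑ y, ∑ x : X, f (y + x) := Finset.sum_comm
      _ = ∑ y, if y ∈ X then (Fintype.card X : ℂ) else 0 := Finset.sum_congr rfl fun y _ => h2 y
      _ = _ := by
        rw [← Finset.sum_filter, Finset.sum_const, nsmul_eq_mul, Fintype.card_subtype]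
  have h9 : (Fintype.card X : ℂ) ≠ 0 := by
    exact_mod_cast Fintype.card_ne_zero
  exact mul_left_cancel₀ h9 h8

end Dr
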