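import Pool.Agent.Lib.MP_f80667_ag.Dr.Df

/-! The Gauss sum of the norm form of the quadratic extension of a finite field. -/

namespace Dr

/-- The norm of `QuadraticAlgebra` is the norm of the algebra. -/
theorem qa_norm {F : Type*} [Field F] (ε : F) [Fact (∀ r : F, r ^ 2 ≠ ε + 1 * r)]
    (z : QuadraticAlgebra F ε 1) : Algebra.norm F z = QuadraticAlgebra.norm z := by
  rw [← QuadraticAlgebra.det_toLinearMap_eq_norm, Algebra.norm_apply]
  congr 1

/-- The Gauss sum of the norm form of the quadratic extension of a finite field. Proof: `nn ε x y` is the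
norm of `x + y η`, `η² = η + ε`, in the field `E = AdjoinRoot (X ^ 2 - X - C ε)` with `q²` elements; it is
nonzero for `(x, y) ≠ 0`, and every nonzero element of `F` is the norm of `q + 1` elements (the norm
`x ^ (q + 1)` of finite fields, or: the norm is a homomorphism of cyclic groups of orders `q² - 1`,
`q - 1`, surjective since its kernel has at most `q + 1` elements; or count directly: for `t ≠ 0` the
number of solutions does not depend on `t` by multiplicativity if every `t` is a norm). So the sum is
`1 + (q + 1) ∑_(t ≠ 0) ψ t = 1 - (q + 1)`. -/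
theorem gauss_norm {F : Type*} [Field F] [Fintype F] (ε : F) (hε : ∀ x : F, x ^ 2 - x - ε ≠ 0)
    (ψ : AddChar F ℂ) (hψ : ψ ≠ 1) :
    ∑ x : F × F, ψ (nn ε x.1 x.2) = -(Fintype.card F : ℂ) := by
  classical
  have hF : Fact (∀ r : F, r ^ 2 ≠ ε + 1 * r) :=
    ⟨fun r h => hε r (by rw [h]; ring)⟩
  let E := QuadraticAlgebra F ε 1
  let e : E ≃ F × F := QuadraticAlgebra.equivProd ε 1
  let _ : Fintype E := Fintype.ofEquiv _ e.symm
  have h1 : ∑ x : F × F, ψ (nn ε x.1 x.2) = ∑ z : E, ψ (Algebra.norm F z) := by
    rw [← e.sum_comp]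
    refine Finset.sum_congr rfl fun z _ => ?_
    congr 1
    rw [qa_norm, QuadraticAlgebra.norm_def]
    show nn ε z.re z.im = _
    unfold nn
    ring
  rw [h1]
  -- the units
  let f : Eˣ →* Fˣ := Units.map (Algebra.norm F (S := E))
  have hf : Function.Surjective f := FiniteField.unitsMap_norm_surjective F E
  have h2 : ∑ z : E, ψ (Algebra.norm F z) = 1 + ∑ u : Eˣ, ψ (f u : F) := by
    rw [← Finset.add_sum_erase _ _ (Finset.mem_univ (0 : E))]
    congr 1
    · simp [Algebra.norm_zero]
    · symm
      refine Finset.sum_bij (fun u _ => (u : E)) ?_ ?_ ?_ ?_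
      · intro u _; simp
      · intro u _ v _ h; exact Units.ext h
      · intro z hz
        exact ⟨Units.mk0 z (Finset.ne_of_mem_erase hz), Finset.mem_univ _, rfl⟩
      · intro u _; rfl
  have hcard : ∀ v : Fˣ, (Finset.univ.filter fun u : Eˣ => f u = v).card = Fintype.card F + 1 := by
    intro v
    have h3 : ∀ w : Fˣ, (Finset.univ.filter fun u : Eˣ => f u = w).card =
        (Finset.univ.filter fun u : Eˣ => f u = v).card :=
      fun w => MonoidHom.card_fiber_eq_of_mem_range f (hf w) (hf v)
    have h4 : Fintype.card Eˣ = ∑ w : Fˣ, (Finset.univ.filter fun u : Eˣ => f u = w).card :=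
      Finset.card_eq_sum_card_fiberwise (fun u _ => Finset.mem_univ _)
    rw [Finset.sum_congr rfl (fun w _ => h3 w), Finset.sum_const, smul_eq_mul, Finset.card_univ,
      Fintype.card_units, Fintype.card_units] at h4
    have h5 : Fintype.card E = Fintype.card F * Fintype.card F := by
      rw [Fintype.card_congr e, Fintype.card_prod]
    rw [h5] at h4
    have h6 : 1 < Fintype.card F := Fintype.one_lt_card
    obtain ⟨m, hm⟩ : ∃ m, Fintype.card F = m + 2 := ⟨Fintype.card F - 2, by omega⟩
    rw [hm] at h4 ⊢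
    have h7 : (m + 1) * (Finset.univ.filter fun u : Eˣ => f u = v).card = (m + 1) * (m + 2 + 1) := by
      have : m + 2 - 1 = m + 1 := by omega
      rw [this] at h4
      rw [← h4]
      have : (m + 2) * (m + 2) = (m + 1) * (m + 2 + 1) + 1 := by ring
      omega
    exact Nat.eq_of_mul_eq_mul_left (by omega) h7
  have h5 : ∑ u : Eˣ, ψ (f u : F) = (Fintype.card F + 1 : ℂ) * ∑ v : Fˣ, ψ (v : F) := by
    rw [← Finset.sum_fiberwise_of_maps_to (s := Finset.univ) (t := Finset.univ) (g := f)
      (fun u _ => Finset.mem_univ _), Finset.mul_sum]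
    refine Finset.sum_congr rfl fun v _ => ?_
    rw [Finset.sum_congr rfl (g := fun _ => ψ (v : F))]
    · rw [Finset.sum_const, hcard v, nsmul_eq_mul]; push_cast; ring
    · intro u hu
      rw [(Finset.mem_filter.mp hu).2]
  have h6 : ∑ v : Fˣ, ψ (v : F) = -1 := by
    have h7 : ∑ x : F, ψ x = 0 := AddChar.sum_eq_zero_of_ne_one hψ
    rw [← Finset.add_sum_erase _ _ (Finset.mem_univ (0 : F))] at h7
    have h8 : ∑ v : Fˣ, ψ (v : F) = ∑ x ∈ Finset.univ.erase (0 : F), ψ x := by
      refine Finset.sum_bij (fun u _ => (u : F)) ?_ ?_ ?_ ?_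
      · intro u _; simp
      · intro u _ v _ h; exact Units.ext h
      · intro z hz
        exact ⟨Units.mk0 z (Finset.ne_of_mem_erase hz), Finset.mem_univ _, rfl⟩
      · intro u _; rfl
    rw [h8]
    rw [AddChar.map_zero_eq_one] at h7
    linear_combination h7
  rw [h2, h5, h6]
  ring

end Dr
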