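import Pool.Agent.Lib.MP_f80667_ag.Dr.TrG

/-! Splitting off a hyperbolic plane. -/

open Module

namespace Dr

variable {V : Type} [AddCommGroup V] [Module ℚ V] [FiniteDimensional ℚ V]

/-- Positive definite subspaces and the projection. -/
theorem kerB_pd (Q1 : QuadraticForm ℚ V) (β : V →ₗ[ℚ] ℚ) (V' : Submodule ℚ V) (r : V →ₗ[ℚ] V')
    (hr : ∀ x, β x = 0 → Q1 (r x : V) = Q1 x) (m : ℕ) (h : PDQ Q1 (m + 1)) :
    PDQ (Q1.comp V'.subtype) m := by
  obtain ⟨P, hP, hpos⟩ := h
  -- the part of `P` in the kernel of `β`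
  have h1 : m ≤ finrank ℚ (LinearMap.ker (β ∘ₗ P.subtype)) := by
    have h2 := LinearMap.finrank_range_add_finrank_ker (β ∘ₗ P.subtype)
    have h3 : finrank ℚ (LinearMap.range (β ∘ₗ P.subtype)) ≤ 1 := by
      have := Submodule.finrank_le (LinearMap.range (β ∘ₗ P.subtype))
      simpa using this
    omega
  obtain ⟨f, hf⟩ := exists_linearIndependent_of_le_finrank h1
  let ρ : LinearMap.ker (β ∘ₗ P.subtype) →ₗ[ℚ] V' :=
    r ∘ₗ P.subtype ∘ₗ (LinearMap.ker (β ∘ₗ P.subtype)).subtype
  have hρ : ∀ x : LinearMap.ker (β ∘ₗ P.subtype), Q1 (ρ x : V) = Q1 ((x : P) : V) :=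
    fun x => hr _ (LinearMap.mem_ker.mp x.2)
  have hinj : LinearMap.ker ρ = ⊥ := by
    rw [LinearMap.ker_eq_bot']
    intro x hx
    by_contra hne
    have h4 : ((x : P) : V) ≠ 0 := by
      intro h5
      apply hne
      apply Subtype.ext
      apply Subtype.ext
      exact h5
    have h5 := hpos _ (x : P).2 h4
    rw [← hρ, hx] at h5
    simp at h5
  have hli : LinearIndependent ℚ (ρ ∘ f) := hf.map' ρ hinj
  refine ⟨Submodule.span ℚ (Set.range (ρ ∘ f)), ?_, ?_⟩
  · rw [finrank_span_eq_card hli, Fintype.card_fin]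
  · intro y hy hy0
    have hy2 : y ∈ LinearMap.range ρ := by
      have h6 : Submodule.span ℚ (Set.range (ρ ∘ f)) ≤ LinearMap.range ρ := by
        rw [Submodule.span_le]
        rintro _ ⟨i, rfl⟩
        exact ⟨f i, rfl⟩
      exact h6 hy
    obtain ⟨x, rfl⟩ := hy2
    have h7 : ((x : P) : V) ≠ 0 := by
      intro h8
      apply hy0
      have : x = 0 := Subtype.ext (Subtype.ext h8)
      rw [this, map_zero]
    have h8 := hpos _ (x : P).2 h7
    rw [← hρ] at h8
    exact h8

/-- Splitting off a hyperbolic plane. Proof: `Q e = 0`, `polar Q e f = 1`, `Q f = 0`, `V'` the orthogonal of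
the span of `e`, `f`. A positive definite subspace `P` of dimension `m + 1`: `P ⊓ e^⊥` has dimension `≥ m`
and is mapped injectively and isometrically to `e^⊥ / e ≅ V'`. -/
theorem split_H {Q : QuadraticForm ℚ V} (hN : ND Q) {e : V} (he : e ≠ 0) (h0 : Q e = 0) :
    ∃ V' : Submodule ℚ V, finrank ℚ V' + 2 = finrank ℚ V ∧ ND (Q.comp V'.subtype) ∧
      (DS Q → DS (Q.comp V'.subtype)) ∧
      (∀ m, PDQ Q (m + 1) → PDQ (Q.comp V'.subtype) m) ∧
      (∀ m, PDQ (-Q) (m + 1) → PDQ (-(Q.comp V'.subtype)) m) ∧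
      ∀ (V'' : Type) [AddCommGroup V''] [Module ℚ V''] [FiniteDimensional ℚ V'']
        (Q'' : QuadraticForm ℚ V'') (W' : Submodule ℚ (V' × V'')),
        Lag ((Q.comp V'.subtype).prod Q'') W' → ∃ W, Lag (Q.prod Q'') W := by
  classical
  let B : V →ₗ[ℚ] V →ₗ[ℚ] ℚ := QuadraticMap.polarBilin Q
  have hBp : ∀ x y, B x y = QuadraticMap.polar Q x y := fun x y => rfl
  have hBs : ∀ x y, B x y = B y x := fun x y => QuadraticMap.polar_comm Q x y
  have hBB : ∀ x, B x x = 2 * Q x := by
    intro x
    rw [hBp, QuadraticMap.polar_self]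
    simp
  have hQadd : ∀ x y, Q (x + y) = Q x + Q y + B x y := fun x y => QuadraticMap.map_add Q x y
  have hQsmul : ∀ (a : ℚ) x, Q (a • x) = a * a * Q x := by
    intro a x
    rw [QuadraticMap.map_smul, smul_eq_mul]
  -- the second vector
  obtain ⟨f, hef, hf0⟩ : ∃ f : V, B e f = 1 ∧ Q f = 0 := by
    obtain ⟨y, hy⟩ : ∃ y, B e y ≠ 0 := by
      by_contra hcon
      push Not at hcon
      exact he (hN e hcon)
    obtain ⟨f0, hf0⟩ : ∃ f0, B e f0 = 1 :=
      ⟨(B e y)⁻¹ • y, by rw [map_smul, smul_eq_mul, inv_mul_cancel₀ hy]⟩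
    refine ⟨f0 + (-(Q f0)) • e, ?_, ?_⟩
    · rw [map_add, map_smul, hf0, hBB, h0]; simp
    · rw [hQadd, hQsmul, h0, map_smul, hBs f0 e, hf0]; simp
  have hee : B e e = 0 := by rw [hBB, h0]; simp
  have hff : B f f = 0 := by rw [hBB, hf0]; simp
  have hfe : B f e = 1 := by rw [hBs, hef]
  -- coordinate functionals
  let β : V →ₗ[ℚ] ℚ := B e
  let α : V →ₗ[ℚ] ℚ := B f
  let V' : Submodule ℚ V := LinearMap.ker β ⊓ LinearMap.ker α
  have hV' : ∀ x, x ∈ V' ↔ B e x = 0 ∧ B f x = 0 := by
    intro x
    simp only [V', Submodule.mem_inf, LinearMap.mem_ker]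
    rfl
  let r0 : V →ₗ[ℚ] V := LinearMap.id - (α.smulRight e) - (β.smulRight f)
  have hr0 : ∀ x, r0 x = x - B f x • e - B e x • f := fun x => rfl
  have hr0m : ∀ x, r0 x ∈ V' := by
    intro x
    rw [hV', hr0]
    constructor
    · simp only [map_sub, map_smul, hee, hef, smul_eq_mul]; ring
    · simp only [map_sub, map_smul, hfe, hff, smul_eq_mul]; ring
  let r : V →ₗ[ℚ] V' := r0.codRestrict V' hr0m
  have hr : ∀ x, ((r x : V') : V) = x - B f x • e - B e x • f := fun x => rfl
  have hrV : ∀ x : V', r (x : V) = x := by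
    intro x
    apply Subtype.ext
    obtain ⟨h1, h2⟩ := (hV' _).mp x.2
    rw [hr, h1, h2]; simp
  have hdec : ∀ x : V, x = (r x : V) + B f x • e + B e x • f := by
    intro x; rw [hr]; abel
  have hQr : ∀ x, B e x = 0 → Q (r x : V) = Q x := by
    intro x hx
    have h1 : (r x : V) = x + (-(B f x)) • e := by rw [hr, hx]; simp [sub_eq_add_neg]
    rw [h1, hQadd, hQsmul, h0, map_smul, hBs x e, hx]; simp
  have hBr : ∀ (x : V) (v : V'), B (r x : V) v = B x v := by
    intro x v
    obtain ⟨h1, h2⟩ := (hV' _).mp v.2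
    rw [hr]
    simp only [map_sub, map_smul, LinearMap.sub_apply, LinearMap.smul_apply, h1, h2]
    simp
  -- the splitting
  have hre : r e = 0 := by
    apply Subtype.ext
    rw [hr, hfe, hee]; simp
  have hrf : r f = 0 := by
    apply Subtype.ext
    rw [hr, hef, hff]; simp
  let Φ : V ≃ₗ[ℚ] V' × (ℚ × ℚ) :=
    { toFun := fun x => (r x, (B f x, B e x))
      map_add' := fun x y => by rw [map_add, map_add, map_add]; rfl
      map_smul' := fun c x => by rw [map_smul, map_smul, map_smul]; rfl
      invFun := fun q => (q.1 : V) + q.2.1 • e + q.2.2 • f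
      left_inv := fun x => (hdec x).symm
      right_inv := by
        rintro ⟨v, a, b⟩
        obtain ⟨h1, h2⟩ := (hV' _).mp v.2
        change (r ((v : V) + a • e + b • f), (B f ((v : V) + a • e + b • f),
          B e ((v : V) + a • e + b • f))) = (v, (a, b))
        simp only [map_add, map_smul, hrV, hre, hrf, h1, h2, hee, hef, hfe, hff, smul_eq_mul]
        simp }
  have hfin : finrank ℚ V' + 2 = finrank ℚ V := by
    rw [Φ.finrank_eq, Module.finrank_prod, Module.finrank_prod, Module.finrank_self]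
  refine ⟨V', hfin, ?_, ?_, ?_, ?_, ?_⟩
  · -- nondegenerate
    intro x hx
    apply Subtype.ext
    apply hN
    intro y
    have h1 : B x (r y : V) = 0 := hx (r y)
    obtain ⟨h2, h3⟩ := (hV' _).mp x.2
    change B x y = 0
    rw [hdec y]
    simp only [map_add, map_smul, smul_eq_mul]
    rw [h1, hBs x e, hBs x f, h2, h3]
    ring
  · -- discriminant
    intro hDS
    let n := finrank ℚ V'
    let v' : Basis (Fin n) ℚ V' := finBasis ℚ V'
    let u : Basis (Fin n ⊕ Fin 2) ℚ V := (v'.prod (Basis.finTwoProd ℚ)).map Φ.symm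
    have hu1 : ∀ i, u (Sum.inl i) = (v' i : V) := by
      intro i
      simp only [u, Basis.map_apply, Basis.prod_apply]
      simp [Φ]
    have hu2 : u (Sum.inr 0) = e := by
      simp only [u, Basis.map_apply, Basis.prod_apply]
      simp [Φ]
    have hu3 : u (Sum.inr 1) = f := by
      simp only [u, Basis.map_apply, Basis.prod_apply]
      simp [Φ]
    obtain ⟨hev, hsq⟩ := hDS.of (u.reindex finSumFinEquiv)
    have hG : (Matrix.of fun i j => QuadraticMap.polar Q ((u.reindex finSumFinEquiv) i)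
        ((u.reindex finSumFinEquiv) j)) = (Matrix.fromBlocks
          (Matrix.of fun i j => QuadraticMap.polar (Q.comp V'.subtype) (v' i) (v' j)) 0 0
          !![(0 : ℚ), 1; 1, 0]).submatrix finSumFinEquiv.symm finSumFinEquiv.symm := by
      ext i j
      obtain ⟨i, rfl⟩ := finSumFinEquiv.surjective i
      obtain ⟨j, rfl⟩ := finSumFinEquiv.surjective j
      rw [Matrix.of_apply, Matrix.submatrix_apply, Basis.reindex_apply, Basis.reindex_apply,
        Equiv.symm_apply_apply, Equiv.symm_apply_apply]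
      rcases i with i | i <;> rcases j with j | j
      · rw [hu1, hu1, Matrix.fromBlocks_apply₁₁]
        rfl
      · rw [hu1, Matrix.fromBlocks_apply₁₂]
        obtain ⟨h2, h3⟩ := (hV' _).mp (v' i).2
        change B _ _ = _
        rw [hBs]
        fin_cases j
        · change B (u (Sum.inr 0)) _ = 0
          rw [hu2]; exact h2
        · change B (u (Sum.inr 1)) _ = 0
          rw [hu3]; exact h3
      · rw [hu1, Matrix.fromBlocks_apply₂₁]
        obtain ⟨h2, h3⟩ := (hV' _).mp (v' j).2
        change B _ _ = _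
        fin_cases i
        · change B (u (Sum.inr 0)) _ = 0
          rw [hu2]; exact h2
        · change B (u (Sum.inr 1)) _ = 0
          rw [hu3]; exact h3
      · rw [Matrix.fromBlocks_apply₂₂]
        change B _ _ = _
        fin_cases i <;> fin_cases j
        · change B (u (Sum.inr 0)) (u (Sum.inr 0)) = 0
          rw [hu2]; exact hee
        · change B (u (Sum.inr 0)) (u (Sum.inr 1)) = 1
          rw [hu2, hu3]; exact hef
        · change B (u (Sum.inr 1)) (u (Sum.inr 0)) = 1
          rw [hu2, hu3]; exact hfe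
        · change B (u (Sum.inr 1)) (u (Sum.inr 1)) = 0
          rw [hu3]; exact hff
    rw [hG, Matrix.det_submatrix_equiv_self, Matrix.det_fromBlocks_zero₂₁, Matrix.det_fin_two_of]
      at hsq
    have hnev : Even n := by
      have : Even (n + 2) := hev
      rwa [Nat.even_add, iff_true_right even_two] at this
    refine ⟨n, v', hnev, ?_⟩
    obtain ⟨s, hs⟩ := hnev
    have e1 : (n + 2) / 2 = n / 2 + 1 := by omega
    rw [e1] at hsq
    convert hsq using 1
    rw [pow_succ]
    ring
  · intro m h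
    exact kerB_pd Q β V' r (fun x hx => hQr x hx) m h
  · intro m h
    have h1 := kerB_pd (-Q) β V' r (fun x hx => by
      rw [neg_apply, neg_apply, hQr x hx]) m h
    have e1 : (-Q).comp V'.subtype = -(Q.comp V'.subtype) := by
      ext x; rfl
    rwa [e1] at h1
  · intro V'' _ _ _ Q'' W' hW'
    refine ⟨(W'.comap (r.prodMap LinearMap.id)) ⊓ LinearMap.ker (β ∘ₗ LinearMap.fst ℚ V V''), ?_, ?_⟩
    · rintro ⟨x, w⟩ ⟨h1, h2⟩
      have h3 := hW'.zero _ h1
      have h4 : B e x = 0 := h2
      rw [QuadraticMap.prod_apply] at h3 ⊢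
      have h5 := hQr x h4
      change Q (r x : V) + Q'' w = 0 at h3
      rw [h5] at h3
      exact h3
    · rintro ⟨x, w⟩ hz
      have hpol : ∀ (x y : V) (w z : V''), QuadraticMap.polar (Q.prod Q'') (x, w) (y, z) =
          B x y + QuadraticMap.polar Q'' w z := by
        intro x y w z
        simp only [QuadraticMap.polar, QuadraticMap.prod_apply, Prod.mk_add_mk, hBp]
        ring
      have h1 : B e x = 0 := by
        have h2 := hz (e, 0) ⟨by
          have : r e = 0 := by
            apply Subtype.ext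
            rw [hr, hfe, hee]; simp
          change (r e, (0 : V'')) ∈ W'
          rw [this]; exact W'.zero_mem, by
          change B e e = 0
          exact hee⟩
        rw [hpol, QuadraticMap.polar_zero_right, add_zero] at h2
        rw [hBs]; exact h2
      refine ⟨?_, h1⟩
      apply hW'.max
      rintro ⟨v, w'⟩ hv
      have h2 := hz ((v : V), w') ⟨by
        change (r v, w') ∈ W'
        rw [hrV]; exact hv, ((hV' _).mp v.2).1⟩
      rw [hpol, ← hBr] at h2
      rw [← h2]
      simp only [QuadraticMap.polar, QuadraticMap.prod_apply, LinearMap.prodMap_apply, Prod.mk_add_mk,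
        QuadraticMap.comp_apply, hBp, LinearMap.id_apply, Submodule.subtype_apply, Submodule.coe_add]
      ring

end Dr
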