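import Pool.Agent.Lib.MP_f80667_ag.Dr.KerA
import Pool.Agent.Lib.MP_f80667_ag.Dr.KerB
import Pool.Agent.Lib.MP_f80667_ag.Hm.Frm5

/-! Quadratic forms over `ℚ` with square discriminant and small signature are Witt equivalent to a scaled norm form of a quaternion algebra (Hasse–Minkowski). -/

open Module

namespace Dr

/-- a real zero from a positive and a negative value -/
private theorem ker4_root {p q r : ℝ} (hp : 0 < p) (hr : r < 0) : ∃ t : ℝ, p + t * q + t ^ 2 * r = 0 := by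
  have hD : 0 ≤ q ^ 2 - 4 * r * p := by nlinarith [sq_nonneg q, mul_pos hp (neg_pos.2 hr)]
  obtain ⟨s, hs⟩ : ∃ s : ℝ, s ^ 2 = q ^ 2 - 4 * r * p := ⟨_, Real.sq_sqrt hD⟩
  have hr0 : r ≠ 0 := hr.ne
  refine ⟨(-q + s) / (2 * r), ?_⟩
  have h1 : 4 * r * (p + (-q + s) / (2 * r) * q + ((-q + s) / (2 * r)) ^ 2 * r) =
      4 * r * p - q ^ 2 + s ^ 2 := by
    field_simp
    ring
  have h2 : 4 * r * (p + (-q + s) / (2 * r) * q + ((-q + s) / (2 * r)) ^ 2 * r) = 0 := by
    rw [h1, hs]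
    ring
  exact (mul_eq_zero.1 h2).resolve_left (mul_ne_zero four_ne_zero hr0)

private theorem ker4_val {V : Type} [AddCommGroup V] [Module ℚ V] {n : ℕ} (v : Basis (Fin n) ℚ V)
    (Q : QuadraticForm ℚ V) (x y : Fin n → ℚ) :
    dotProduct x ((Matrix.of fun i j => QuadraticMap.polar Q (v i) (v j) / 2).mulVec y) =
      QuadraticMap.polar Q (∑ i, x i • v i) (∑ i, y i • v i) / 2 := by
  have h1 : QuadraticMap.polar Q (∑ i, x i • v i) (∑ i, y i • v i) =
      ∑ i, ∑ j, x i * (y j * QuadraticMap.polar Q (v i) (v j)) := by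
    rw [← QuadraticMap.polarBilin_apply_apply, map_sum (QuadraticMap.polarBilin Q),
      LinearMap.sum_apply]
    refine Finset.sum_congr rfl fun i _ => ?_
    rw [map_smul, LinearMap.smul_apply, map_sum, smul_eq_mul, Finset.mul_sum]
    refine Finset.sum_congr rfl fun j _ => ?_
    rw [map_smul, smul_eq_mul, QuadraticMap.polarBilin_apply_apply]
  rw [h1, dotProduct, Finset.sum_div]
  refine Finset.sum_congr rfl fun i _ => ?_
  rw [Matrix.mulVec, dotProduct, Finset.mul_sum, Finset.sum_div]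
  refine Finset.sum_congr rfl fun j _ => ?_
  rw [Matrix.of_apply]
  ring

private theorem ker4_iso {V : Type} [AddCommGroup V] [Module ℚ V] [FiniteDimensional ℚ V]
    (Q : QuadraticForm ℚ V) (hd : 4 < finrank ℚ V) {x y : V} (hx : 0 < Q x) (hy : Q y < 0) :
    ∃ e : V, e ≠ 0 ∧ Q e = 0 := by
  let v := finBasis ℚ V
  set A : Matrix (Fin (finrank ℚ V)) (Fin (finrank ℚ V)) ℚ :=
    Matrix.of fun i j => QuadraticMap.polar Q (v i) (v j) / 2 with hA
  have hself : ∀ z : V, QuadraticMap.polar Q z z / 2 = Q z := by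
    intro z
    rw [QuadraticMap.polar_self, two_smul]
    ring
  have hval : ∀ z w : V, dotProduct (v.repr z) (A.mulVec (v.repr w)) =
      QuadraticMap.polar Q z w / 2 := by
    intro z w
    rw [hA, ker4_val v Q, v.sum_repr, v.sum_repr]
  obtain ⟨z, hz, h0⟩ := Hm.isoM hd A (by
    intro φ
    have hφ : ∀ z w : V, dotProduct (fun i => φ (v.repr z i)) ((A.map φ).mulVec
        (fun i => φ (v.repr w i))) = φ (QuadraticMap.polar Q z w / 2) := by
      intro z w
      rw [← hval z w, dotProduct, dotProduct, map_sum]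
      refine Finset.sum_congr rfl fun i _ => ?_
      rw [map_mul, Matrix.mulVec, Matrix.mulVec, dotProduct, dotProduct, map_sum]
      congr 1
      refine Finset.sum_congr rfl fun j _ => ?_
      rw [map_mul, Matrix.map_apply]
    have hφc : ∀ r : ℚ, φ r = (r : ℝ) := fun r => eq_ratCast φ r
    have hx' : (0 : ℝ) < φ (QuadraticMap.polar Q x x / 2) := by
      rw [hself, hφc]
      exact_mod_cast hx
    have hy' : φ (QuadraticMap.polar Q y y / 2) < 0 := by
      rw [hself, hφc]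
      exact_mod_cast hy
    obtain ⟨t, ht⟩ := ker4_root (q := φ (QuadraticMap.polar Q x y / 2) +
      φ (QuadraticMap.polar Q y x / 2)) hx' hy'
    refine ⟨(fun i => φ (v.repr x i)) + t • fun i => φ (v.repr y i), fun h => ?_, ?_⟩
    · have h1 : (fun i => φ (v.repr x i)) = -(t • fun i => φ (v.repr y i)) :=
        eq_neg_of_add_eq_zero_left h
      have h2 : φ (QuadraticMap.polar Q x x / 2) = t ^ 2 * φ (QuadraticMap.polar Q y y / 2) := by
        rw [← hφ x x, h1, Matrix.mulVec_neg, Matrix.mulVec_smul, dotProduct_neg, neg_dotProduct,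
          neg_neg, smul_dotProduct, dotProduct_smul, hφ y y, smul_eq_mul, smul_eq_mul]
        ring
      nlinarith [sq_nonneg t]
    · rw [Matrix.mulVec_add, Matrix.mulVec_smul, add_dotProduct, dotProduct_add, dotProduct_add,
        smul_dotProduct, smul_dotProduct, dotProduct_smul, dotProduct_smul, hφ, hφ, hφ, hφ,
        smul_eq_mul, smul_eq_mul, smul_eq_mul, smul_eq_mul]
      linear_combination ht)
  refine ⟨∑ i, z i • v i, fun h => hz ?_, ?_⟩
  · funext i
    exact Fintype.linearIndependent_iff.1 v.linearIndependent z h i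
  · rw [← hself, ← ker4_val v Q z z]
    exact h0

private theorem ker4_aux (σ : ℕ) (hσ : σ ≤ 1) (m : ℕ) : ∀ (V : Type) [AddCommGroup V]
    [Module ℚ V] [FiniteDimensional ℚ V] (Q : QuadraticForm ℚ V), ND Q → DS Q →
    finrank ℚ V = 2 * m + 4 → PDQ Q (m + 2 + 2 * σ) → PDQ (-Q) (m + 2 - 2 * σ) →
    ∃ α b a : ℚˣ, ((b : ℚ) < 0 ∧ (a : ℚ) < 0 ↔ σ = 1) ∧
      ∃ W, Lag (Q.prod (tr (sT ℚ (-(α : ℚ))) (qnF (b : ℚ) (a : ℚ)))) W := by
  induction m with
  | zero =>
    intro V _ _ _ Q hN hD hd hP hM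
    refine ker4_base hN hD (by omega) σ hσ ?_ ?_
    · rw [zero_add] at hP
      exact hP
    · rw [zero_add] at hM
      exact hM
  | succ m ih =>
    intro V _ _ _ Q hN hD hd hP hM
    have hpos : ∃ x, 0 < Q x := by
      obtain ⟨P, hP1, hP2⟩ := hP
      have h1 : P ≠ ⊥ := by
        rintro rfl
        rw [finrank_bot] at hP1
        omega
      obtain ⟨x, hx, hx0⟩ := P.ne_bot_iff.1 h1
      exact ⟨x, hP2 x hx hx0⟩
    have hneg : ∃ x, Q x < 0 := by
      obtain ⟨P, hP1, hP2⟩ := hM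
      have h1 : P ≠ ⊥ := by
        rintro rfl
        rw [finrank_bot] at hP1
        omega
      obtain ⟨x, hx, hx0⟩ := P.ne_bot_iff.1 h1
      have h2 := hP2 x hx hx0
      rw [neg_apply] at h2
      exact ⟨x, by linarith⟩
    obtain ⟨x, hx⟩ := hpos
    obtain ⟨y, hy⟩ := hneg
    obtain ⟨e, he, h0⟩ := ker4_iso Q (by omega) hx hy
    obtain ⟨V', h1, h2, h3, h4, h5, h6⟩ := split_H hN he h0
    have hM' : PDQ (-Q) ((m + 2 - 2 * σ) + 1) := by
      have h7 : m + 2 - 2 * σ + 1 = m + 1 + 2 - 2 * σ := by omega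
      rw [h7]
      exact hM
    have hP' : PDQ Q ((m + 2 + 2 * σ) + 1) := by
      have h7 : m + 2 + 2 * σ + 1 = m + 1 + 2 + 2 * σ := by omega
      rw [h7]
      exact hP
    obtain ⟨α, b, a, h7, W', h8⟩ := ih V' (Q.comp V'.subtype) h2 (h3 hD) (by omega)
      (h4 _ hP') (h5 _ hM')
    exact ⟨α, b, a, h7, h6 _ _ W' h8⟩

variable {V : Type} [AddCommGroup V] [Module ℚ V] [FiniteDimensional ℚ V]

/-- **Kernel of dimension four.** Proof: induction on `m`; `m = 0`: `ker4_base`; otherwise the dimension is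
at least `6`, `Q` takes positive and negative values, so it is isotropic (`Hm.isoM`), and `split_H`. -/
theorem ker4 (m : ℕ) {Q : QuadraticForm ℚ V} (hN : ND Q) (hD : DS Q)
    (hd : finrank ℚ V = 2 * m + 4) (σ : ℕ) (hσ : σ ≤ 1) (hP : PDQ Q (m + 2 + 2 * σ))
    (hM : PDQ (-Q) (m + 2 - 2 * σ)) :
    ∃ α b a : ℚˣ, ((b : ℚ) < 0 ∧ (a : ℚ) < 0 ↔ σ = 1) ∧
      ∃ W, Lag (Q.prod (tr (sT ℚ (-(α : ℚ))) (qnF (b : ℚ) (a : ℚ)))) W :=
  ker4_aux σ hσ m V Q hN hD hd hP hM

end Dr
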