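import Pool.Agent.Lib.MP_f80667_ag.Dr.TrG

/-! Forms in four variables over `ℚ` with square discriminant. -/

open Module

namespace Dr

variable {V : Type} [AddCommGroup V] [Module ℚ V] [FiniteDimensional ℚ V]

/-- An orthogonal basis for the polar form. -/
theorem exists_ortho4 (Q : QuadraticForm ℚ V) (hd : finrank ℚ V = 4) :
    ∃ v : Basis (Fin 4) ℚ V, (∀ i j, i ≠ j → QuadraticMap.polar Q (v i) (v j) = 0) ∧
      ∀ x : Fin 4 → ℚ, Q (∑ i, x i • v i) = ∑ i, Q (v i) * x i ^ 2 := by
  obtain ⟨v, hv⟩ := LinearMap.BilinForm.exists_orthogonal_basis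
    (QuadraticForm.associated_isSymm ℚ Q)
  have hp : ∀ i j, i ≠ j → QuadraticMap.polar Q (v i) (v j) = 0 := by
    intro i j hij
    have h1 := hv hij
    have h2 : QuadraticMap.polarBilin Q (v i) (v j) =
        (2 • QuadraticMap.associatedHom ℚ Q) (v i) (v j) := by
      rw [QuadraticMap.two_nsmul_associated]
    rw [QuadraticMap.polarBilin_apply_apply] at h2
    rw [h2, LinearMap.smul_apply, LinearMap.smul_apply]
    change 2 • (QuadraticMap.associatedHom ℚ Q) (v i) (v j) = 0
    rw [show (QuadraticMap.associatedHom ℚ Q) (v i) (v j) = 0 from h1, smul_zero]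
  let e : Fin (finrank ℚ V) ≃ Fin 4 := finCongr hd
  refine ⟨v.reindex e, ?_, ?_⟩
  · intro i j hij
    rw [Basis.reindex_apply, Basis.reindex_apply]
    exact hp _ _ fun h => hij (e.symm.injective h)
  · intro x
    have h1 := QuadraticMap.basisRepr_eq_of_iIsOrtho Q (v.reindex e) (by
      intro i j hij
      have h2 := hv (fun h => hij (e.symm.injective h) : e.symm i ≠ e.symm j)
      simpa [Function.onFun, Basis.reindex_apply] using h2)
    have h2 := congrArg (fun q => q x) h1
    simp only [QuadraticMap.basisRepr_apply, QuadraticMap.weightedSumSquares_apply, smul_eq_mul] at h2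
    rw [h2]
    exact Finset.sum_congr rfl fun i _ => by ring

/-- Four variables. Proof: an orthogonal basis (`exists_orthogonal_basis`), `Q = ⟨a₁, …, a₄⟩` with
`a₁ a₂ a₃ a₄` a square; `α = a₁`, `b = -a₁ a₂`, `a = -a₁ a₃`: `α qn b a` is isometric to `Q`; `Lag.diag`,
`Lag.map`. If `Q` is positive definite all `aᵢ > 0`; if there are positive and negative subspaces of
dimension `2`, two are positive and two negative, and `b`, `a` are not both negative. -/
theorem ker4_base {Q : QuadraticForm ℚ V} (hN : ND Q) (hD : DS Q) (hd : finrank ℚ V = 4) (σ : ℕ)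
    (hσ : σ ≤ 1) (hP : PDQ Q (2 + 2 * σ)) (hM : PDQ (-Q) (2 - 2 * σ)) :
    ∃ α b a : ℚˣ, ((b : ℚ) < 0 ∧ (a : ℚ) < 0 ↔ σ = 1) ∧
      ∃ W, Lag (Q.prod (tr (sT ℚ (-(α : ℚ))) (qnF (b : ℚ) (a : ℚ)))) W := by
  obtain ⟨v, hv1, hv2⟩ := exists_ortho4 Q hd
  obtain ⟨q, hq⟩ : ∃ q : Fin 4 → ℚ, ∀ i, q i = Q (v i) := ⟨fun i => Q (v i), fun i => rfl⟩
  have hQ : ∀ x : Fin 4 → ℚ, Q (∑ i, x i • v i) = ∑ i, q i * x i ^ 2 := fun x => by
    rw [hv2]
    simp only [hq]
  have hself : ∀ i, QuadraticMap.polar Q (v i) (v i) = 2 * q i := by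
    intro i
    rw [QuadraticMap.polar_self, hq, nsmul_eq_mul, Nat.cast_ofNat]
  have h0 : ∀ i, q i ≠ 0 := by
    intro i hi
    apply v.ne_zero i
    apply hN
    intro y
    rw [← v.sum_equivFun y, ← QuadraticMap.polarBilin_apply_apply, map_sum]
    refine Finset.sum_eq_zero fun j _ => ?_
    rw [map_smul, QuadraticMap.polarBilin_apply_apply]
    by_cases hij : i = j
    · subst hij
      rw [hself, hi]
      simp
    · rw [hv1 i j hij, smul_zero]
  obtain ⟨-, hs⟩ := hD.of v
  have hdet : (Matrix.of fun i j => QuadraticMap.polar Q (v i) (v j)) =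
      Matrix.diagonal fun i => 2 * q i := by
    ext i j
    rw [Matrix.of_apply, Matrix.diagonal_apply]
    split_ifs with h
    · subst h
      exact hself i
    · exact hv1 i j h
  rw [hdet, Matrix.det_diagonal] at hs
  obtain ⟨s, hs⟩ := hs
  simp only [Fin.prod_univ_four] at hs
  obtain ⟨t, ht⟩ : ∃ t : ℚ, t = s / 4 := ⟨_, rfl⟩
  have ht2 : q 0 * q 1 * q 2 * q 3 = t ^ 2 := by
    rw [ht]
    norm_num at hs
    linarith
  have ht0 : t ≠ 0 := by
    rintro rfl
    have := mul_ne_zero (mul_ne_zero (mul_ne_zero (h0 0) (h0 1)) (h0 2)) (h0 3)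
    rw [ht2] at this
    exact this (by norm_num)
  have hq0 := h0 0
  have hq1 := h0 1
  have hq2 := h0 2
  have hq3 := h0 3
  refine ⟨Units.mk0 (q 0) hq0, Units.mk0 (-(q 0 * q 1)) (neg_ne_zero.2 (mul_ne_zero hq0 hq1)),
    Units.mk0 (-(q 0 * q 2)) (neg_ne_zero.2 (mul_ne_zero hq0 hq2)), ?_, ?_⟩
  · simp only [Units.val_mk0]
    have hpos : 0 < q 0 * q 1 * q 2 * q 3 := by
      rw [ht2]
      positivity
    interval_cases σ
    · refine iff_of_false ?_ (by norm_num)
      rintro ⟨h1, h2⟩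
      rcases lt_or_gt_of_ne hq0 with h3 | h3
      · have h4 : q 1 < 0 := by nlinarith
        have h5 : q 2 < 0 := by nlinarith
        have h6 : q 3 < 0 := by
          by_contra h7
          have h8 : 0 < q 3 := lt_of_le_of_ne (not_lt.1 h7) (Ne.symm hq3)
          have h9 : 0 < q 0 * q 1 := mul_pos_of_neg_of_neg h3 h4
          nlinarith [mul_pos h9 h8]
        obtain ⟨P, hP1, hP2⟩ := hP
        obtain ⟨x, hx, hx0⟩ := Submodule.exists_mem_ne_zero_of_ne_bot (p := P) (by
          rintro rfl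
          rw [finrank_bot] at hP1
          omega)
        have h10 := hP2 x hx hx0
        rw [← v.sum_equivFun x, hQ, Fin.sum_univ_four] at h10
        nlinarith [sq_nonneg (v.equivFun x 0), sq_nonneg (v.equivFun x 1),
          sq_nonneg (v.equivFun x 2), sq_nonneg (v.equivFun x 3),
          mul_nonneg_of_nonpos_of_nonpos h3.le (neg_nonpos.2 (sq_nonneg (v.equivFun x 0))),
          mul_nonneg_of_nonpos_of_nonpos h4.le (neg_nonpos.2 (sq_nonneg (v.equivFun x 1))),
          mul_nonneg_of_nonpos_of_nonpos h5.le (neg_nonpos.2 (sq_nonneg (v.equivFun x 2))),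
          mul_nonneg_of_nonpos_of_nonpos h6.le (neg_nonpos.2 (sq_nonneg (v.equivFun x 3)))]
      · have h4 : 0 < q 1 := by nlinarith
        have h5 : 0 < q 2 := by nlinarith
        have h6 : 0 < q 3 := by
          by_contra h7
          have h8 : q 3 < 0 := lt_of_le_of_ne (not_lt.1 h7) hq3
          nlinarith [mul_pos (mul_pos h3 h4) h5]
        obtain ⟨P, hP1, hP2⟩ := hM
        obtain ⟨x, hx, hx0⟩ := Submodule.exists_mem_ne_zero_of_ne_bot (p := P) (by
          rintro rfl
          rw [finrank_bot] at hP1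
          omega)
        have h10 := hP2 x hx hx0
        rw [neg_apply, ← v.sum_equivFun x, hQ, Fin.sum_univ_four] at h10
        nlinarith [mul_nonneg h3.le (sq_nonneg (v.equivFun x 0)),
          mul_nonneg h4.le (sq_nonneg (v.equivFun x 1)),
          mul_nonneg h5.le (sq_nonneg (v.equivFun x 2)),
          mul_nonneg h6.le (sq_nonneg (v.equivFun x 3))]
    · refine iff_of_true ?_ rfl
      obtain ⟨P, hP1, hP2⟩ := hP
      have hPt : P = ⊤ := Submodule.eq_top_of_finrank_eq (by rw [hP1, hd])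
      have h1 : ∀ i, 0 < q i := fun i => by
        rw [hq]
        exact hP2 _ (by rw [hPt]; trivial) (v.ne_zero i)
      have h2 := mul_pos (h1 0) (h1 1)
      have h3 := mul_pos (h1 0) (h1 2)
      constructor <;> linarith
  · simp only [Units.val_mk0]
    obtain ⟨d, hdd⟩ : ∃ d : Fin 4 → ℚ, d = ![1, q 0, q 0, q 0 ^ 2 * q 1 * q 2 / t] := ⟨_, rfl⟩
    have hd0 : ∀ i, d i ≠ 0 := by
      intro i
      rw [hdd]
      fin_cases i
      · exact one_ne_zero
      · exact hq0
      · exact hq0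
      · exact div_ne_zero (mul_ne_zero (mul_ne_zero (pow_ne_zero 2 hq0) hq1) hq2) ht0
    let e : (Fin 4 → ℚ) ≃ₗ[ℚ] V :=
      (LinearEquiv.piCongrRight fun i => LinearEquiv.smulOfNeZero ℚ ℚ (d i) (hd0 i)) ≪≫ₗ
        v.equivFun.symm
    have he : ∀ y : Fin 4 → ℚ, Q (e y) = q 0 * qn (-(q 0 * q 1)) (-(q 0 * q 2)) y := by
      intro y
      have h1 : e y = ∑ i, (d i * y i) • v i := by
        change v.equivFun.symm _ = _
        rw [Basis.equivFun_symm_apply]
        rfl
      rw [h1, hQ, Fin.sum_univ_four, hdd, qn]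
      simp only [Matrix.cons_val_zero, Matrix.cons_val_one, Matrix.cons_val]
      have h3 : q 3 * (q 0 ^ 2 * q 1 * q 2 / t * y 3) ^ 2 =
          q 0 ^ 3 * q 1 * q 2 * y 3 ^ 2 * ((q 0 * q 1 * q 2 * q 3) / t ^ 2) := by
        field_simp
      rw [h3, ht2, div_self (pow_ne_zero 2 ht0)]
      ring
    let E : (V × V) ≃ₗ[ℚ] (V × (Fin 4 → ℚ)) := (LinearEquiv.refl ℚ V).prodCongr e.symm
    refine ⟨_, Lag.map E ?_ (Lag.diag hN)⟩
    rintro ⟨x, z⟩
    obtain ⟨y, rfl⟩ := e.surjective z
    have hE : E (x, e y) = (x, y) := by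
      change (x, e.symm (e y)) = (x, y)
      rw [e.symm_apply_apply]
    rw [hE, QuadraticMap.prod_apply, QuadraticMap.prod_apply, neg_apply, he, tr_apply,
      sT_apply, qnF_apply, Algebra.trace_self_apply]
    ring

end Dr
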