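import Pool.Agent.Lib.MP_f80667_ag.Dr.Df

/-! The valuation ring of a finite place of a number field, as an abstract ring acting on all
extensions. -/

open IsDedekindDomain NumberField

namespace Dr

variable {F : Type} [Field F] [NumberField F]

/-- The valuation ring of `p` in `F`. -/
def Rp (p : HeightOneSpectrum (𝓞 F)) : Type := (p.valuation F).valuationSubring

noncomputable instance (p : HeightOneSpectrum (𝓞 F)) : CommRing (Rp p) :=
  inferInstanceAs (CommRing (p.valuation F).valuationSubring)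

instance (p : HeightOneSpectrum (𝓞 F)) : IsDomain (Rp p) :=
  inferInstanceAs (IsDomain (p.valuation F).valuationSubring)

/-- The inclusion in `F`. -/
noncomputable def Rp.inc (p : HeightOneSpectrum (𝓞 F)) : Rp p →+* F :=
  (p.valuation F).valuationSubring.subtype

noncomputable instance (p : HeightOneSpectrum (𝓞 F)) (K : Type) [Field K] [Algebra F K] :
    Algebra (Rp p) K := ((algebraMap F K).comp (Rp.inc p)).toAlgebra

theorem Rp.algebraMap_apply (p : HeightOneSpectrum (𝓞 F)) (K : Type) [Field K] [Algebra F K]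
    (x : Rp p) : algebraMap (Rp p) K x = algebraMap F K (Rp.inc p x) := rfl

instance (p : HeightOneSpectrum (𝓞 F)) (K : Type) [Field K] [Algebra F K] :
    IsScalarTower (Rp p) F K := by
  refine IsScalarTower.of_algebraMap_eq fun x => ?_
  rfl

instance (p : HeightOneSpectrum (𝓞 F)) : IsDiscreteValuationRing (Rp p) := 
  inferInstanceAs (IsDiscreteValuationRing (p.valuation F).valuationSubring)

instance (p : HeightOneSpectrum (𝓞 F)) : IsFractionRing (Rp p) F := by
  show @IsFractionRing (p.valuation F).valuationSubring _ F _ _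
  infer_instance

theorem Rp.mem_iff (p : HeightOneSpectrum (𝓞 F)) (x : F) :
    (∃ r : Rp p, algebraMap (Rp p) F r = x) ↔ p.valuation F x ≤ 1 := by
  constructor
  · rintro ⟨r, rfl⟩
    exact r.2
  · intro h
    exact ⟨⟨x, h⟩, rfl⟩

theorem Rp.mem_max (p : HeightOneSpectrum (𝓞 F)) (x : Rp p) :
    x ∈ IsLocalRing.maximalIdeal (Rp p) ↔ p.valuation F (algebraMap (Rp p) F x) < 1 := by
  exact Valuation.mem_maximalIdeal_iff (v := p.valuation F)

/-- The integers in the valuation ring. -/
noncomputable def Rp.ofInt (p : HeightOneSpectrum (𝓞 F)) : 𝓞 F →+* Rp p :=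
  (algebraMap (𝓞 F) F).codRestrict (p.valuation F).valuationSubring
    (fun x => p.valuation_le_one (K := F) x)

theorem Rp.algebraMap_ofInt (p : HeightOneSpectrum (𝓞 F)) (x : 𝓞 F) :
    algebraMap (Rp p) F (Rp.ofInt p x) = algebraMap (𝓞 F) F x := rfl

instance (p : HeightOneSpectrum (𝓞 F)) : Finite (IsLocalRing.ResidueField (Rp p)) := by
  have h1 : Finite (𝓞 F ⧸ p.asIdeal) := inferInstance
  let f : 𝓞 F →+* IsLocalRing.ResidueField (Rp p) :=
    (IsLocalRing.residue (Rp p)).comp (Rp.ofInt p)
  have hf : ∀ x ∈ p.asIdeal, f x = 0 := by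
    intro x hx
    have h2 : Rp.ofInt p x ∈ IsLocalRing.maximalIdeal (Rp p) := by
      rw [Rp.mem_max, Rp.algebraMap_ofInt]
      exact (p.valuation_lt_one_iff_mem (K := F) x).2 hx
    exact (IsLocalRing.residue_eq_zero_iff _).2 h2
  refine Finite.of_surjective (Ideal.Quotient.lift p.asIdeal f hf) ?_
  refine Ideal.Quotient.lift_surjective_of_surjective p.asIdeal hf ?_
  intro z
  obtain ⟨x, rfl⟩ := IsLocalRing.residue_surjective z
  have hx : p.valuation F (algebraMap (Rp p) F x) ≤ 1 := (Rp.mem_iff p _).1 ⟨x, rfl⟩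
  obtain ⟨a, ha⟩ := p.exists_valuation_sub_lt_of_integer (K := F) hx 1
  refine ⟨a, ?_⟩
  have h2 : Rp.ofInt p a - x ∈ IsLocalRing.maximalIdeal (Rp p) := by
    rw [Rp.mem_max, map_sub, Rp.algebraMap_ofInt]
    exact ha
  have h3 := (IsLocalRing.residue_eq_zero_iff _).2 h2
  rw [map_sub, sub_eq_zero] at h3
  exact h3

end Dr
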