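import Pool.Agent.Lib.MP_f80667_ag.Dr.Df
import Pool.Agent.Lib.MP_f80667_ag.Dr.Rp

/-! The elements of a number field which are integral above a place of the base field. -/

open IsDedekindDomain NumberField

namespace Dr

variable {F : Type} [Field F] [NumberField F] (K : Type) [Field K] [NumberField K] [Algebra F K]
  (p : HeightOneSpectrum (𝓞 F))

/-- Elements integral at `p` are integral above `p`. -/
theorem Op_val_le {w : HeightOneSpectrum (𝓞 K)} (hw : w.under (𝓞 F) = p) {x : F}
    (hx : p.valuation F x ≤ 1) : w.valuation K (algebraMap F K x) ≤ 1 := by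
  have hlo : w.asIdeal.LiesOver p.asIdeal := ⟨by rw [← hw]; rfl⟩
  rw [← HeightOneSpectrum.valuation_liesOver K p w x]
  exact pow_le_one' hx _

/-- The ring of the elements which are integral above `p`. -/
def Op : Subalgebra (Rp p) K where
  carrier := {x | ∀ w : HeightOneSpectrum (𝓞 K), w.under (𝓞 F) = p → w.valuation K x ≤ 1}
  mul_mem' := by
    intro x y hx hy w hw
    rw [map_mul]
    exact mul_le_one' (hx w hw) (hy w hw)
  add_mem' := by
    intro x y hx hy w hw
    exact Valuation.map_add_le _ (hx w hw) (hy w hw)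
  algebraMap_mem' := by
    intro r w hw
    rw [Rp.algebraMap_apply]
    exact Op_val_le K p hw ((Rp.mem_iff p _).1 ⟨r, rfl⟩)

theorem mem_Op {x : K} : x ∈ Op K p ↔
    ∀ w : HeightOneSpectrum (𝓞 K), w.under (𝓞 F) = p → w.valuation K x ≤ 1 := Iff.rfl

/-- Integral elements are integral above `p`. -/
theorem mem_Op_of_int {x : K} (hx : IsIntegral (Rp p) x) : x ∈ Op K p := by
  intro w hw
  obtain ⟨f, hf, h⟩ := hx
  let φ : Rp p →+* (w.valuation K).integer :=
    (algebraMap (Rp p) K).codRestrict (w.valuation K).integer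
      (fun r => (Op K p).algebraMap_mem r w hw)
  refine (Valuation.integer.integers (w.valuation K)).mem_of_integral (x := x) ⟨f.map φ, hf.map φ, ?_⟩
  rw [Polynomial.eval₂_map]
  exact h

/-- Elements which are integral above `p` have a denominator prime to `p`. -/
theorem Op_den {x : K} (hx : x ∈ Op K p) :
    ∃ s : 𝓞 F, s ∉ p.asIdeal ∧ IsIntegral ℤ (algebraMap F K s * x) := by
  let J : Ideal (𝓞 K) :=
    { carrier := {s | IsIntegral ℤ ((s : K) * x)}
      add_mem' := by
        intro s t hs ht
        have h1 : ((s + t : 𝓞 K) : K) * x = (s : K) * x + (t : K) * x := by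
          push_cast
          ring
        show IsIntegral ℤ (((s + t : 𝓞 K) : K) * x)
        rw [h1]
        exact IsIntegral.add hs ht
      zero_mem' := by
        have h1 : ((0 : 𝓞 K) : K) * x = 0 := zero_mul x
        show IsIntegral ℤ (((0 : 𝓞 K) : K) * x)
        rw [h1]
        exact isIntegral_zero
      smul_mem' := by
        intro c s hs
        have h1 : ((c • s : 𝓞 K) : K) * x = (c : K) * ((s : K) * x) :=
          mul_assoc (c : K) (s : K) x
        show IsIntegral ℤ (((c • s : 𝓞 K) : K) * x)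
        rw [h1]
        exact c.isIntegral_coe.mul hs }
  have hJ : ∀ s : 𝓞 K, s ∈ J ↔ IsIntegral ℤ ((s : K) * x) := fun s => Iff.rfl
  by_contra hcon
  push Not at hcon
  have hle : J.comap (algebraMap (𝓞 F) (𝓞 K)) ≤ p.asIdeal := by
    intro s hs
    by_contra hsp
    exact hcon s hsp hs
  have hp := p.isPrime
  obtain ⟨Q, hQJ, hQ, hQp⟩ := Ideal.exists_ideal_over_prime_of_isIntegral (S := 𝓞 K) p.asIdeal J hle
  have hQ0 : Q ≠ ⊥ := by
    rintro rfl
    apply p.ne_bot
    rw [← hQp, ← RingHom.ker_eq_comap_bot]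
    exact (RingHom.injective_iff_ker_eq_bot _).1 (FaithfulSMul.algebraMap_injective (𝓞 F) (𝓞 K))
  obtain ⟨w, hw⟩ : ∃ w : HeightOneSpectrum (𝓞 K), w.asIdeal = Q := ⟨⟨Q, hQ, hQ0⟩, rfl⟩
  have hwp : w.under (𝓞 F) = p := by
    ext1
    rw [← hQp, ← hw]
    rfl
  obtain ⟨n, d, hd⟩ := w.exists_primeCompl_mul_eq_of_integer x (hx w hwp)
  have hdJ : (d : 𝓞 K) ∉ J := by
    intro h1
    apply d.2
    have h2 := hQJ h1
    rw [← hw] at h2
    exact h2
  apply hdJ
  rw [hJ, mul_comm]
  have h1 : x * ((d : 𝓞 K) : K) = (n : K) := hd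
  rw [h1]
  exact n.isIntegral_coe

/-- Elements which are integral above `p` are integral. -/
theorem int_of_mem_Op {x : K} (hx : x ∈ Op K p) : IsIntegral (Rp p) x := by
  obtain ⟨s, hs, h⟩ := Op_den K p hx
  have hv : p.valuation F (s : F) = 1 := by
    refine le_antisymm (p.valuation_le_one (K := F) s) ?_
    by_contra hcon
    exact hs ((p.valuation_lt_one_iff_mem (K := F) s).1 (not_le.1 hcon))
  have hs0 : (s : F) ≠ 0 := by
    intro h0
    rw [h0, map_zero] at hv
    exact zero_ne_one hv
  obtain ⟨r, hr⟩ := (Rp.mem_iff p ((s : F)⁻¹)).2 (by rw [map_inv₀, hv, inv_one])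
  have h1 : x = algebraMap (Rp p) K r * (algebraMap F K s * x) := by
    rw [IsScalarTower.algebraMap_apply (Rp p) F K, hr, ← mul_assoc, ← map_mul,
      inv_mul_cancel₀ hs0, map_one, one_mul]
  rw [h1]
  exact isIntegral_algebraMap.mul h.tower_top

theorem Op_isIntegralClosure : IsIntegralClosure (Op K p) (Rp p) K :=
  { algebraMap_injective := Subtype.val_injective
    isIntegral_iff := by
      intro x
      constructor
      · intro h
        exact ⟨⟨x, mem_Op_of_int K p h⟩, rfl⟩
      · rintro ⟨y, rfl⟩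
        exact int_of_mem_Op K p y.2 }

/-- Proof: `Op K p` is the localization of `𝓞 K` at the elements of `𝓞 F` prime to `p`: it is generated by
an integral basis over `Rp p`. -/
theorem Op_finite : Module.Finite (Rp p) (Op K p) := by
  have h1 := Op_isIntegralClosure K p
  have h2 : FiniteDimensional F K := Module.Finite.of_restrictScalars_finite ℚ F K
  exact IsIntegralClosure.finite (Rp p) F K (Op K p)

theorem Op_span (x : K) : ∃ r : Rp p, r ≠ 0 ∧ r • x ∈ Op K p := by
  have h0 : IsAlgebraic ℤ x := by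
    have h1 : IsAlgebraic ℚ x := Algebra.IsAlgebraic.isAlgebraic x
    exact (IsFractionRing.isAlgebraic_iff ℤ ℚ K).2 h1
  obtain ⟨m, hm, h⟩ := h0.exists_integral_multiple
  refine ⟨(m : Rp p), ?_, ?_⟩
  · intro h1
    apply hm
    have h2 := congrArg (algebraMap (Rp p) F) h1
    rw [map_intCast, map_zero] at h2
    exact_mod_cast h2
  · apply mem_Op_of_int
    have h1 : (m : Rp p) • x = m • x := by
      rw [Algebra.smul_def, map_intCast, zsmul_eq_mul]
    rw [h1]
    exact h.tower_top

end Dr
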