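import Pool.Agent.Lib.MP_f80667_ag.Dr.Nice
import Pool.Agent.Lib.MP_f80667_ag.Dr.LDK

/-! The lattice datum of a good presentation. -/

open IsDedekindDomain NumberField

namespace Dr

/-- There is a place above `p`. -/
theorem LDN_exists {F : Type} [Field F] [NumberField F] (K : Type) [Field K] [NumberField K]
    [Algebra F K] (p : HeightOneSpectrum (𝓞 F)) :
    ∃ w : HeightOneSpectrum (𝓞 K), w.under (𝓞 F) = p := by
  obtain ⟨P, hPi, hP⟩ := p
  obtain ⟨Q, hQ, rfl⟩ := P.exists_ideal_over_prime_of_isIntegral_of_isDomain (S := 𝓞 K) (by simp)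
  exact ⟨⟨Q, hQ, by
    rintro rfl
    apply hP
    exact (Ideal.comap_bot_of_injective _
      (FaithfulSMul.algebraMap_injective (𝓞 F) (𝓞 K)))⟩, rfl⟩

theorem LDN_finite {F : Type} [Field F] [NumberField F] (K : Type) [Field K] [NumberField K]
    [Algebra F K] (p : HeightOneSpectrum (𝓞 F)) :
    Finite {w : HeightOneSpectrum (𝓞 K) // w.under (𝓞 F) = p} := by
  have h := IsDedekindDomain.primesOver_finite p.asIdeal (𝓞 K)
  have := h.to_subtype
  refine Finite.of_injective (β := (p.asIdeal.primesOver (𝓞 K)))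
    (fun w => ⟨w.1.asIdeal, w.1.isPrime, ⟨(congrArg HeightOneSpectrum.asIdeal w.2).symm⟩⟩) ?_
  intro w w' hw
  exact Subtype.ext (HeightOneSpectrum.ext (congrArg Subtype.val hw))

theorem LDN_le_exp {γ : WithZero (Multiplicative ℤ)} (h : γ < 1) :
    γ ≤ WithZero.exp (-1 : ℤ) := by
  rw [← WithZero.lt_mul_exp_iff_le WithZero.exp_ne_zero, ← WithZero.exp_add]
  simpa using h

section one

variable {K : Type} [Field K] [NumberField K] (w : HeightOneSpectrum (𝓞 K))

theorem LDN_unit (x : (w.valuation K).valuationSubring) :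
    IsUnit x ↔ w.valuation K (x : K) = 1 := by
  constructor
  · rintro ⟨u, rfl⟩
    have h1 : w.valuation K ((u : (w.valuation K).valuationSubring) : K) ≤ 1 :=
      ((w.valuation K).mem_valuationSubring_iff _).1 u.1.2
    have h2 : w.valuation K (((u⁻¹ : ((w.valuation K).valuationSubring)ˣ) :
        (w.valuation K).valuationSubring) : K) ≤ 1 :=
      ((w.valuation K).mem_valuationSubring_iff _).1 (u⁻¹).1.2
    have h3 : ((u : (w.valuation K).valuationSubring) : K) *
        (((u⁻¹ : ((w.valuation K).valuationSubring)ˣ) : (w.valuation K).valuationSubring) : K) = 1 :=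
      congrArg (fun t : (w.valuation K).valuationSubring => (t : K)) u.mul_inv
    have h4 := congrArg (w.valuation K) h3
    rw [map_mul, map_one] at h4
    refine le_antisymm h1 ?_
    calc (1 : WithZero (Multiplicative ℤ)) = _ := h4.symm
      _ ≤ w.valuation K ((u : (w.valuation K).valuationSubring) : K) * 1 :=
        mul_le_mul_right h2 _
      _ = _ := mul_one _
  · intro h
    have hx : (x : K) ≠ 0 := by
      intro h0
      rw [h0, map_zero] at h
      exact zero_ne_one h
    refine IsUnit.of_mul_eq_one (⟨(x : K)⁻¹, ?_⟩ : (w.valuation K).valuationSubring) ?_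
    · rw [(w.valuation K).mem_valuationSubring_iff, map_inv₀, h, inv_one]
    · exact Subtype.ext (mul_inv_cancel₀ hx)

theorem LDN_res (x : (w.valuation K).valuationSubring) :
    IsLocalRing.residue (w.valuation K).valuationSubring x = 0 ↔ w.valuation K (x : K) < 1 := by
  rw [IsLocalRing.residue_eq_zero_iff, IsLocalRing.mem_maximalIdeal, mem_nonunits_iff, LDN_unit]
  have h1 : w.valuation K (x : K) ≤ 1 := ((w.valuation K).mem_valuationSubring_iff _).1 x.2
  exact ⟨fun h => lt_of_le_of_ne h1 h, fun h => h.ne⟩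

/-- The map from the integers to the valuation ring. -/
noncomputable def LDN_f : 𝓞 K →+* (w.valuation K).valuationSubring :=
  (algebraMap (𝓞 K) K).codRestrict _ fun a =>
    ((w.valuation K).mem_valuationSubring_iff _).2 (w.valuation_le_one a)

theorem LDN_f_coe (a : 𝓞 K) : ((LDN_f w a : (w.valuation K).valuationSubring) : K) =
    algebraMap (𝓞 K) K a := rfl

theorem LDN_f_mem (a : 𝓞 K) :
    IsLocalRing.residue _ (LDN_f w a) = 0 ↔ a ∈ w.asIdeal := by
  rw [LDN_res, LDN_f_coe]
  exact w.valuation_lt_one_iff_mem a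

theorem LDN_f_surj (y : IsLocalRing.ResidueField (w.valuation K).valuationSubring) :
    ∃ a : 𝓞 K, IsLocalRing.residue _ (LDN_f w a) = y := by
  obtain ⟨x, rfl⟩ := IsLocalRing.residue_surjective y
  obtain ⟨a, ha⟩ := w.exists_valuation_sub_lt_of_integer
    (((w.valuation K).mem_valuationSubring_iff _).1 x.2) 1
  refine ⟨a, ?_⟩
  rw [← sub_eq_zero, ← map_sub, LDN_res]
  exact ha

theorem LDN_fin : Finite (IsLocalRing.ResidueField (w.valuation K).valuationSubring) := by
  have hf : Finite (𝓞 K ⧸ w.asIdeal) := Ideal.finiteQuotientOfFreeOfNeBot _ w.ne_bot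
  let g : (𝓞 K ⧸ w.asIdeal) →+* IsLocalRing.ResidueField (w.valuation K).valuationSubring :=
    Ideal.Quotient.lift w.asIdeal ((IsLocalRing.residue _).comp (LDN_f w)) fun a ha =>
      (LDN_f_mem w a).2 ha
  refine Finite.of_surjective g fun y => ?_
  obtain ⟨a, ha⟩ := LDN_f_surj w y
  exact ⟨Ideal.Quotient.mk _ a, ha⟩

end one

variable {F : Type} [Field F] [NumberField F] (K : Type) [Field K] [NumberField K] [Algebra F K]
  (p : HeightOneSpectrum (𝓞 F))

variable {K p}

theorem LDN_lt {w : HeightOneSpectrum (𝓞 K)} (hw : w.under (𝓞 F) = p) {x : F}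
    (hx : p.valuation F x < 1) : w.valuation K (algebraMap F K x) < 1 := by
  have h1 : w.asIdeal.LiesOver p.asIdeal := ⟨by rw [← hw]; rfl⟩
  rw [← HeightOneSpectrum.valuation_liesOver K p w x]
  exact pow_lt_one₀ zero_le hx
    (Ideal.IsDedekindDomain.ramificationIdx'_ne_zero_of_liesOver w.asIdeal p.ne_bot)

theorem Nice.LD {ε a c : K} (h : Nice K p ε a c) : LD (Op K p) (sT F c) ε a where
  fin := Op_finite K p
  span := Op_span K p
  dual z := by
    rw [mem_Op, h.c z]
    constructor
    · intro h1 y hy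
      obtain ⟨r, hr⟩ := (Rp.mem_iff p _).2 (h1 y hy)
      exact ⟨r, hr.symm⟩
    · intro h1 y hy
      obtain ⟨r, hr⟩ := h1 y hy
      exact (Rp.mem_iff p _).1 ⟨r, hr.symm⟩
  he := fun w hw => (h.e w hw).1
  hp := by
    intro w hw
    rcases h.a w hw with h1 | ⟨h1, -⟩
    · exact h1.le
    · rw [h1, ← WithZero.exp_zero, WithZero.exp_le_exp]
      norm_num
  inv := ⟨a⁻¹, mul_inv_cancel₀ h.a0⟩
  unit := by
    obtain ⟨w₀, hw₀⟩ := LDN_exists K p
    have h0 : (1 + 4 * ε : K) ≠ 0 := by
      intro h1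
      have h2 := (h.e w₀ hw₀).2
      rw [h1, map_zero] at h2
      exact zero_ne_one h2
    refine ⟨(1 + 4 * ε)⁻¹, ?_, mul_inv_cancel₀ h0⟩
    intro w hw
    rw [map_inv₀, (h.e w hw).2, inv_one]

/-- **The residue map.** `J` is the type of the places above `p` where `a` is not a unit; `F w` the residue
fields. Proof: surjective by weak approximation; the kernel consists of the elements of positive valuation
at the `w ∈ J`, the multiples of `a`. -/
theorem Nice.res {ε a c : K} (h : Nice K p ε a c) :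
    ∃ (F : {w : HeightOneSpectrum (𝓞 K) // w.under (𝓞 F) = p ∧ w.valuation K a ≠ 1} → Type)
      (_ : ∀ j, Field (F j)) (_ : ∀ j, Finite (F j)) (r : Op K p →+* ∀ j, F j),
      Function.Surjective r ∧ (∀ x : Op K p, r x = 0 ↔ ∃ y ∈ Op K p, (x : K) = a * y) ∧
      ∀ (e : Op K p), (e : K) = ε → ∀ j (x : F j), x ^ 2 - x - r e j ≠ 0 := by
  classical
  have hfin := LDN_finite K p
  have hfinJ : Finite {w : HeightOneSpectrum (𝓞 K) // w.under (𝓞 F) = p ∧
      w.valuation K a ≠ 1} :=
    Finite.of_injective (fun w => (⟨w.1, w.2.1⟩ :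
      {w : HeightOneSpectrum (𝓞 K) // w.under (𝓞 F) = p})) fun w w' hw =>
        Subtype.ext (congrArg (fun t : {w : HeightOneSpectrum (𝓞 K) // w.under (𝓞 F) = p} =>
          t.1) hw)
  have _ := Fintype.ofFinite {w : HeightOneSpectrum (𝓞 K) // w.under (𝓞 F) = p ∧
      w.valuation K a ≠ 1}
  let ι : ∀ j : {w : HeightOneSpectrum (𝓞 K) // w.under (𝓞 F) = p ∧ w.valuation K a ≠ 1},
      Op K p →+* (j.1.valuation K).valuationSubring := fun j =>
    ((Op K p).val : Op K p →+* K).codRestrict _ fun x =>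
      ((j.1.valuation K).mem_valuationSubring_iff _).2 (x.2 j.1 j.2.1)
  have hι : ∀ j (x : Op K p), ((ι j x : (j.1.valuation K).valuationSubring) : K) = x :=
    fun _ _ => rfl
  have hval : ∀ j : {w : HeightOneSpectrum (𝓞 K) // w.under (𝓞 F) = p ∧ w.valuation K a ≠ 1},
      j.1.valuation K a = WithZero.exp (-1 : ℤ) ∧
      ∀ x : K, j.1.valuation K x ≤ 1 → j.1.valuation K (x ^ 2 - x - ε) = 1 := fun j =>
    (h.a j.1 j.2.1).resolve_left j.2.2
  refine ⟨fun j => IsLocalRing.ResidueField (j.1.valuation K).valuationSubring,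
    fun j => inferInstance, fun j => LDN_fin j.1,
    RingHom.pi fun j => (IsLocalRing.residue _).comp (ι j), ?_, ?_, ?_⟩
  · intro y
    choose b hb using fun j => LDN_f_surj _ (y j)
    obtain ⟨z, hz⟩ := IsDedekindDomain.exists_forall_sub_mem_ideal
      (s := (Finset.univ : Finset {w : HeightOneSpectrum (𝓞 K) // w.under (𝓞 F) = p ∧
        w.valuation K a ≠ 1})) (fun j => j.1.asIdeal) (fun _ => 1) (fun j _ => j.1.prime)
      (fun j _ j' _ hjj' he => hjj' (Subtype.ext (HeightOneSpectrum.ext he))) (fun j => b j.1)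
    refine ⟨⟨algebraMap (𝓞 K) K z, fun w _ => w.valuation_le_one z⟩, ?_⟩
    funext j
    have h1 := hz j (Finset.mem_univ j)
    rw [pow_one] at h1
    have h2 := (LDN_f_mem j.1 _).2 h1
    rw [map_sub, map_sub, sub_eq_zero] at h2
    rw [← hb j]
    exact h2
  · intro x
    constructor
    · intro hx
      refine ⟨(x : K) / a, ?_, (mul_div_cancel₀ _ h.a0).symm⟩
      intro w hw
      have hxw : w.valuation K (x : K) ≤ 1 := x.2 w hw
      have hva : 0 < w.valuation K a := zero_lt_iff.2 ((w.valuation K).ne_zero_iff.2 h.a0)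
      rw [map_div₀, div_le_one₀ hva]
      by_cases h1 : w.valuation K a = 1
      · rw [h1]
        exact hxw
      · rw [(hval ⟨w, hw, h1⟩).1]
        have h2 : IsLocalRing.residue _ (ι ⟨w, hw, h1⟩ x) = 0 := congrFun hx ⟨w, hw, h1⟩
        exact LDN_le_exp ((LDN_res w _).1 h2)
    · rintro ⟨y, hy, hxy⟩
      funext j
      change IsLocalRing.residue _ (ι j x) = 0
      rw [LDN_res, hι, hxy, map_mul, (hval j).1]
      have h1 : j.1.valuation K y ≤ 1 := hy j.1 j.2.1
      calc WithZero.exp (-1 : ℤ) * j.1.valuation K y ≤ WithZero.exp (-1 : ℤ) * 1 :=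
            mul_le_mul_right h1 _
        _ = WithZero.exp (-1 : ℤ) := mul_one _
        _ < 1 := by
          rw [← WithZero.exp_zero, WithZero.exp_lt_exp]
          norm_num
  · intro e he j x
    obtain ⟨x, rfl⟩ := IsLocalRing.residue_surjective x
    change IsLocalRing.residue _ x ^ 2 - IsLocalRing.residue _ x -
      IsLocalRing.residue _ (ι j e) ≠ 0
    rw [← map_pow, ← map_sub, ← map_sub, Ne, LDN_res]
    have h1 := (hval j).2 x (((j.1.valuation K).mem_valuationSubring_iff _).1 x.2)
    rw [← he] at h1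
    intro h2
    exact h2.ne h1

/-- Proof: a uniformizer of `Rp p` has positive valuation above `p`, `a` has valuation at most one
there. -/
theorem Nice.max {ε a c : K} (h : Nice K p ε a c) (m : Rp p)
    (hm : m ∈ IsLocalRing.maximalIdeal (Rp p)) : ∃ y ∈ Op K p, algebraMap (Rp p) K m = a * y := by
  refine ⟨algebraMap (Rp p) K m / a, ?_, (mul_div_cancel₀ _ h.a0).symm⟩
  intro w hw
  have h1 : w.valuation K (algebraMap (Rp p) K m) < 1 := LDN_lt hw ((Rp.mem_max p m).1 hm)
  have hva : 0 < w.valuation K a := zero_lt_iff.2 ((w.valuation K).ne_zero_iff.2 h.a0)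
  rw [map_div₀, div_le_one₀ hva]
  rcases h.a w hw with h2 | ⟨h2, -⟩
  · rw [h2]
    exact h1.le
  · rw [h2]
    exact LDN_le_exp h1

end Dr
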