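import Pool.Agent.Lib.MP_f80667_ag.Dr.Df

/-! Lagrangians of quadratic forms. -/

open Module

namespace Dr

variable {k V V' : Type*} [Field k] [AddCommGroup V] [Module k V] [FiniteDimensional k V]
  [AddCommGroup V'] [Module k V'] [FiniteDimensional k V']
  {Q : QuadraticForm k V} {Q' : QuadraticForm k V'} {W : Submodule k V}

omit [FiniteDimensional k V] in
theorem polar_refl (Q : QuadraticForm k V) : LinearMap.BilinForm.IsRefl (Q.polarBilin) := by
  intro x y h
  rw [QuadraticMap.polarBilin_apply_apply] at h ⊢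
  rwa [QuadraticMap.polar_comm]

omit [FiniteDimensional k V] in
theorem mem_orth (Q : QuadraticForm k V) (W : Submodule k V) (x : V) :
    x ∈ LinearMap.BilinForm.orthogonal Q.polarBilin W ↔
      ∀ y ∈ W, QuadraticMap.polar Q x y = 0 := by
  rw [LinearMap.BilinForm.mem_orthogonal_iff]
  constructor
  · intro h y hy
    rw [QuadraticMap.polar_comm]
    exact h y hy
  · intro h y hy
    change QuadraticMap.polar Q y x = 0
    rw [QuadraticMap.polar_comm]
    exact h y hy

omit [FiniteDimensional k V] in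
theorem ND.nondeg (hN : ND Q) : LinearMap.BilinForm.Nondegenerate Q.polarBilin := by
  constructor
  · intro x hx
    exact hN x hx
  · intro x hx
    refine hN x fun y => ?_
    rw [QuadraticMap.polar_comm]
    exact hx y

omit [FiniteDimensional k V] in
theorem polar_zero_of_zero (h0 : ∀ x ∈ W, Q x = 0) {x y : V} (hx : x ∈ W) (hy : y ∈ W) :
    QuadraticMap.polar Q x y = 0 := by
  rw [QuadraticMap.polar, h0 _ (W.add_mem hx hy), h0 x hx, h0 y hy, sub_zero, sub_zero]

omit [FiniteDimensional k V] in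
theorem Lag.orth_eq (h : Lag Q W) : LinearMap.BilinForm.orthogonal Q.polarBilin W = W := by
  ext x
  rw [mem_orth]
  exact ⟨h.max x, fun hx y hy => polar_zero_of_zero h.zero hx hy⟩

/-- Proof: `W` is its own orthogonal (`polar` vanishes on `W` since `Q` does); dimension of the
orthogonal for a nondegenerate bilinear form (`LinearMap.BilinForm.finrank_orthogonal` for
`QuadraticMap.polarBilin Q`). -/
theorem Lag.finrank_eq (hN : ND Q) (h : Lag Q W) : 2 * finrank k W = finrank k V := by
  have h1 := LinearMap.BilinForm.finrank_orthogonal hN.nondeg W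
  rw [h.orth_eq] at h1
  have h2 := Submodule.finrank_le W
  omega

/-- Proof: `W` is contained in its orthogonal, which has dimension `finrank V - finrank W ≤ finrank W`. -/
theorem Lag.of_finrank (hN : ND Q) (h0 : ∀ x ∈ W, Q x = 0) (hd : finrank k V ≤ 2 * finrank k W) :
    Lag Q W := by
  refine ⟨h0, fun x hx => ?_⟩
  have h1 := LinearMap.BilinForm.finrank_orthogonal hN.nondeg W
  have h2 : W ≤ LinearMap.BilinForm.orthogonal Q.polarBilin W := by
    intro x hx
    rw [mem_orth]
    exact fun y hy => polar_zero_of_zero h0 hx hy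
  have h3 : W = LinearMap.BilinForm.orthogonal Q.polarBilin W := by
    apply Submodule.eq_of_le_of_finrank_le h2
    omega
  rw [h3, mem_orth]
  exact hx

omit [FiniteDimensional k V] [FiniteDimensional k V'] in
theorem ND.prod (hN : ND Q) (hN' : ND Q') : ND (Q.prod Q') := by
  rintro ⟨x, x'⟩ h
  have h1 : x = 0 := by
    refine hN x fun y => ?_
    have h2 := h (y, 0)
    rw [QuadraticMap.polar_prod] at h2
    simpa using h2
  have h2 : x' = 0 := by
    refine hN' x' fun y => ?_
    have h2 := h (0, y)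
    rw [QuadraticMap.polar_prod] at h2
    simpa using h2
  rw [h1, h2]
  rfl

omit [FiniteDimensional k V] [FiniteDimensional k V'] in
theorem Lag.prod {W' : Submodule k V'} (h : Lag Q W) (h' : Lag Q' W') :
    Lag (Q.prod Q') (W.prod W') := by
  refine ⟨?_, ?_⟩
  · rintro ⟨x, x'⟩ ⟨hx, hx'⟩
    rw [QuadraticMap.prod_apply]
    rw [h.zero x hx, h'.zero x' hx', add_zero]
  · rintro ⟨x, x'⟩ hx
    refine ⟨h.max x fun y hy => ?_, h'.max x' fun y hy => ?_⟩
    · have h2 := hx (y, 0) ⟨hy, W'.zero_mem⟩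
      rw [QuadraticMap.polar_prod] at h2
      simpa using h2
    · have h2 := hx (0, y) ⟨W.zero_mem, hy⟩
      rw [QuadraticMap.polar_prod] at h2
      simpa using h2

/-- **Cancellation.** Proof: `W' = {x | ∃ y ∈ N, (x, y) ∈ W}`. Totally singular: clear. Dimension: the
space `W ⊓ (⊤.prod N)` is the orthogonal of `W ⊔ (⊥.prod N)` (`(⊤.prod N)` is the orthogonal of
`⊥.prod N`), so its dimension is `dim W + dim V + dim N - dim V - dim V' ...` `= (dim V) / 2 + dim (W ⊓ ⊥.prod N)`;
the kernel of the projection to `V` is `W ⊓ ⊥.prod N`; `Lag.of_finrank`. Or directly: if `x` is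
orthogonal to `W'`, then `(x, 0)` is orthogonal to `W ⊓ ⊤.prod N`, so `(x, 0) ∈ W ⊔ ⊥.prod N` (double
orthogonal), that is `(x, y) ∈ W` for some `y ∈ N`. -/
theorem Lag.cancel (hN : ND Q) (hN' : ND Q') {W : Submodule k (V × V')} {N : Submodule k V'}
    (h : Lag (Q.prod Q') W) (h' : Lag Q' N) : ∃ W' : Submodule k V, Lag Q W' := by
  refine ⟨(W ⊓ Submodule.prod ⊤ N).map (LinearMap.fst k V V'), ?_, ?_⟩
  · rintro x ⟨⟨x, y⟩, ⟨hxy, -, hy⟩, rfl⟩
    have h1 := h.zero _ hxy
    rw [QuadraticMap.prod_apply, h'.zero y hy, add_zero] at h1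
    exact h1
  · intro x hx
    have hND := hN.prod hN'
    have hrefl := polar_refl (Q.prod Q')
    -- the sum
    have h1 : LinearMap.BilinForm.orthogonal (Q.prod Q').polarBilin (W ⊔ Submodule.prod ⊥ N) ≤
        W ⊓ Submodule.prod ⊤ N := by
      intro z hz
      rw [mem_orth] at hz
      refine ⟨h.max z fun y hy => hz y (Submodule.mem_sup_left hy), Submodule.mem_top, ?_⟩
      refine h'.max z.2 fun y hy => ?_
      have h2 := hz (0, y) (Submodule.mem_sup_right ⟨Submodule.zero_mem _, hy⟩)
      rw [QuadraticMap.polar_prod] at h2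
      simpa using h2
    have h2 : ((x, 0) : V × V') ∈ LinearMap.BilinForm.orthogonal (Q.prod Q').polarBilin
        (LinearMap.BilinForm.orthogonal (Q.prod Q').polarBilin (W ⊔ Submodule.prod ⊥ N)) := by
      rw [mem_orth]
      intro z hz
      have h3 := h1 hz
      have h4 := hx z.1 ⟨z, h3, rfl⟩
      rw [QuadraticMap.polar_prod]
      simpa using h4
    rw [LinearMap.BilinForm.orthogonal_orthogonal hND.nondeg hrefl] at h2
    obtain ⟨w, hw, n, hn, hwn⟩ := Submodule.mem_sup.1 h2
    have h3 : n.1 = 0 := hn.1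
    have h4 : w.1 = x := by
      have h5 := congrArg Prod.fst hwn
      rw [Prod.fst_add, h3, add_zero] at h5
      exact h5
    have h5 : w.2 = -n.2 := by
      have h5 := congrArg Prod.snd hwn
      rw [Prod.snd_add] at h5
      exact eq_neg_of_add_eq_zero_left h5
    refine ⟨w, ⟨hw, Submodule.mem_top, ?_⟩, h4⟩
    rw [h5]
    exact N.neg_mem hn.2

omit [FiniteDimensional k V] [FiniteDimensional k V'] in
/-- Isometries. -/
theorem Lag.map (e : V ≃ₗ[k] V') (he : ∀ x, Q' (e x) = Q x) (h : Lag Q W) :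
    Lag Q' (W.map (e : V →ₗ[k] V')) := by
  refine ⟨?_, ?_⟩
  · rintro x ⟨y, hy, rfl⟩
    rw [LinearEquiv.coe_coe, he]
    exact h.zero y hy
  · intro x hx
    refine ⟨e.symm x, h.max _ fun y hy => ?_, e.apply_symm_apply x⟩
    have h1 := hx (e y) ⟨y, hy, rfl⟩
    rw [QuadraticMap.polar] at h1 ⊢
    rw [← he, ← he, ← he, map_add, e.apply_symm_apply]
    exact h1

omit [FiniteDimensional k V] in
/-- The diagonal. -/
theorem Lag.diag (hN : ND Q) :
    Lag (Q.prod (-Q)) (LinearMap.range (LinearMap.prod LinearMap.id (LinearMap.id : V →ₗ[k] V))) := by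
  refine ⟨?_, ?_⟩
  · rintro x ⟨y, rfl⟩
    rw [QuadraticMap.prod_apply]
    change Q y + (-Q) y = 0
    rw [neg_apply, add_neg_cancel]
  · rintro ⟨x, x'⟩ hx
    have h1 : x - x' = 0 := by
      refine hN _ fun y => ?_
      have h2 := hx (y, y) ⟨y, rfl⟩
      rw [QuadraticMap.polar_prod, FunLike.coe_neg, QuadraticMap.polar_neg] at h2
      rw [QuadraticMap.polar_sub_left]
      rw [sub_eq_add_neg]
      exact h2
    refine ⟨x, ?_⟩
    rw [sub_eq_zero.1 h1]
    rfl

end Dr
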