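import Pool.Agent.Lib.MP_f80667_ag.Dr.Par
import Pool.Agent.Lib.MP_f80667_ag.Dr.LagA

/-! Products of lattice data. -/

namespace Dr

variable {R k L L' : Type*} [CommRing R] [IsDomain R] [IsDiscreteValuationRing R]
  [Finite (IsLocalRing.ResidueField R)] [Field k] [Algebra R k] [IsFractionRing R k]
  [CommRing L] [Algebra k L] [Algebra R L] [IsScalarTower R k L] [FiniteDimensional k L]
  [CommRing L'] [Algebra k L'] [Algebra R L'] [IsScalarTower R k L'] [FiniteDimensional k L']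
  {O : Subalgebra R L} {s : L →ₗ[k] k} {ε π : L}
  {O' : Subalgebra R L'} {s' : L' →ₗ[k] k} {ε' π' : L'}

theorem LD.prod (h : LD O s ε π) (h' : LD O' s' ε' π') :
    LD (O.prod O') (s.coprod s') (ε, ε') (π, π') := by
  constructor
  · have i1 := h.fin
    have i2 := h'.fin
    let f : (O × O') →ₗ[R] (O.prod O') :=
      { toFun := fun x => ⟨(x.1, x.2), x.1.2, x.2.2⟩
        map_add' := fun _ _ => rfl
        map_smul' := fun _ _ => rfl }
    refine Module.Finite.of_surjective f fun x => ?_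
    exact ⟨(⟨x.1.1, x.2.1⟩, ⟨x.1.2, x.2.2⟩), rfl⟩
  · rintro ⟨x, x'⟩
    obtain ⟨r, hr, h1⟩ := h.span x
    obtain ⟨r', hr', h2⟩ := h'.span x'
    refine ⟨r * r', mul_ne_zero hr hr', ?_, ?_⟩
    · change (r * r') • x ∈ O
      rw [mul_comm, mul_smul]
      exact O.smul_mem h1 r'
    · change (r * r') • x' ∈ O'
      rw [mul_smul]
      exact O'.smul_mem h2 r
  · rintro ⟨z, z'⟩
    constructor
    · rintro ⟨hz, hz'⟩ ⟨y, y'⟩ ⟨hy, hy'⟩
      obtain ⟨r, hr⟩ := (h.dual z).1 hz y hy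
      obtain ⟨r', hr'⟩ := (h'.dual z').1 hz' y' hy'
      refine ⟨r + r', ?_⟩
      rw [Prod.mk_mul_mk, LinearMap.coprod_apply, map_add, ← hr, ← hr']
    · intro hz
      refine ⟨(h.dual z).2 fun y hy => ?_, (h'.dual z').2 fun y hy => ?_⟩
      · obtain ⟨r, hr⟩ := hz (y, 0) ⟨hy, O'.zero_mem⟩
        rw [Prod.mk_mul_mk, LinearMap.coprod_apply, mul_zero, map_zero, add_zero] at hr
        exact ⟨r, hr⟩
      · obtain ⟨r, hr⟩ := hz (0, y) ⟨O.zero_mem, hy⟩
        rw [Prod.mk_mul_mk, LinearMap.coprod_apply, mul_zero, map_zero, zero_add] at hr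
        exact ⟨r, hr⟩
  · exact ⟨h.he, h'.he⟩
  · exact ⟨h.hp, h'.hp⟩
  · obtain ⟨p, hp⟩ := h.inv
    obtain ⟨p', hp'⟩ := h'.inv
    exact ⟨(p, p'), by rw [Prod.mk_mul_mk, hp, hp']; rfl⟩
  · obtain ⟨u, hu, h1⟩ := h.unit
    obtain ⟨u', hu', h2⟩ := h'.unit
    exact ⟨(u, u'), ⟨hu, hu'⟩, Prod.ext h1 h2⟩

section aux

/-- Pairs of vectors and vectors of pairs. -/
def ldprE (k L L' : Type*) [Field k] [CommRing L] [Algebra k L] [CommRing L'] [Algebra k L'] :
    ((Fin 4 → L) × (Fin 4 → L')) ≃ₗ[k] (Fin 4 → L × L') where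
  toFun x i := (x.1 i, x.2 i)
  invFun y := (fun i => (y i).1, fun i => (y i).2)
  map_add' _ _ := rfl
  map_smul' _ _ := rfl
  left_inv _ := rfl
  right_inv _ := rfl

theorem ldprE_tr {k L L' : Type*} [Field k] [CommRing L] [Algebra k L] [CommRing L'] [Algebra k L']
    (s : L →ₗ[k] k) (s' : L' →ₗ[k] k) (ε π : L) (ε' π' : L') (x : (Fin 4 → L) × (Fin 4 → L')) :
    tr (s.coprod s') (qeF (ε, ε') (π, π')) (ldprE k L L' x) =
      (tr s (qeF ε π)).prod (tr s' (qeF ε' π')) x := by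
  rw [QuadraticMap.prod_apply, tr_apply, tr_apply, tr_apply, LinearMap.coprod_apply]
  rfl

end aux

universe u v

theorem ldpr_parity2 (h : LD O s ε π) (h' : LD O' s' ε' π') {J J' : Type*} [Fintype J]
    [Fintype J'] {F : J → Type u} [∀ j, Field (F j)] [∀ j, Finite (F j)]
    {F' : J' → Type v} [∀ j, Field (F' j)] [∀ j, Finite (F' j)]
    (r : O →+* ∀ j, F j) (hr : Function.Surjective r)
    (hk : ∀ x : O, r x = 0 ↔ ∃ y ∈ O, (x : L) = π * y)
    (hm : ∀ m ∈ IsLocalRing.maximalIdeal R, ∃ y ∈ O, algebraMap R L m = π * y)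
    (he : ∀ j (x : F j), x ^ 2 - x - r ⟨ε, h.he⟩ j ≠ 0)
    (r' : O' →+* ∀ j, F' j) (hr' : Function.Surjective r')
    (hk' : ∀ x : O', r' x = 0 ↔ ∃ y ∈ O', (x : L') = π' * y)
    (hm' : ∀ m ∈ IsLocalRing.maximalIdeal R, ∃ y ∈ O', algebraMap R L' m = π' * y)
    (he' : ∀ j (x : F' j), x ^ 2 - x - r' ⟨ε', h'.he⟩ j ≠ 0)
    {W : Submodule k ((Fin 4 → L) × (Fin 4 → L'))}
    (hW : Lag ((tr s (qeF ε π)).prod (tr s' (qeF ε' π'))) W) :
    Even (Fintype.card J + Fintype.card J') := by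
  let G : J ⊕ J' → Type (max u v) :=
    fun j => match j with
      | Sum.inl j => ULift.{v, u} (F j)
      | Sum.inr j => ULift.{u, v} (F' j)
  let iF : ∀ j, Field (G j) := fun j => match j with
    | Sum.inl j => inferInstanceAs (Field (ULift.{v, u} (F j)))
    | Sum.inr j => inferInstanceAs (Field (ULift.{u, v} (F' j)))
  have iG : ∀ j, Finite (G j) := fun j => match j with
    | Sum.inl j => inferInstanceAs (Finite (ULift.{v, u} (F j)))
    | Sum.inr j => inferInstanceAs (Finite (ULift.{u, v} (F' j)))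
  let p : O.prod O' →+* O := ((RingHom.fst L L').comp (O.prod O').val.toRingHom).codRestrict O
    fun x => x.2.1
  let p' : O.prod O' →+* O' := ((RingHom.snd L L').comp (O.prod O').val.toRingHom).codRestrict O'
    fun x => x.2.2
  let ρ : O.prod O' →+* ∀ j, G j := RingHom.pi fun j => match j with
    | Sum.inl j => (ULift.ringEquiv (R := F j)).symm.toRingHom.comp
        ((Pi.evalRingHom F j).comp (r.comp p))
    | Sum.inr j => (ULift.ringEquiv (R := F' j)).symm.toRingHom.comp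
        ((Pi.evalRingHom F' j).comp (r'.comp p'))
  have hl : ∀ (x : O.prod O') (j : J), (ρ x (Sum.inl j) : ULift.{v, u} (F j)).down = r (p x) j :=
    fun _ _ => rfl
  have hl' : ∀ (x : O.prod O') (j : J'),
      (ρ x (Sum.inr j) : ULift.{u, v} (F' j)).down = r' (p' x) j := fun _ _ => rfl
  have hρ0 : ∀ x : O.prod O', ρ x = 0 ↔ r (p x) = 0 ∧ r' (p' x) = 0 := by
    intro x
    constructor
    · intro h0
      refine ⟨funext fun j => ?_, funext fun j => ?_⟩
      · rw [← hl, h0]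
        rfl
      · rw [← hl', h0]
        rfl
    · rintro ⟨h1, h2⟩
      funext j
      rcases j with j | j
      · exact ULift.down_injective ((hl x j).trans (congrFun h1 j))
      · exact ULift.down_injective ((hl' x j).trans (congrFun h2 j))
  have key := LD.parity (h.prod h') ρ (fun g => ?_) (fun x => ?_) (fun m hm₀ => ?_)
    (fun j x hx => ?_) (hW.map (ldprE k L L') (ldprE_tr s s' ε π ε' π'))
  · rwa [Fintype.card_sum] at key
  · obtain ⟨a, ha⟩ := hr fun j => (g (Sum.inl j) : ULift.{v, u} (F j)).down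
    obtain ⟨b, hb⟩ := hr' fun j => (g (Sum.inr j) : ULift.{u, v} (F' j)).down
    refine ⟨⟨(a, b), a.2, b.2⟩, ?_⟩
    funext j
    rcases j with j | j
    · exact ULift.down_injective ((hl _ j).trans (congrFun ha j))
    · exact ULift.down_injective ((hl' _ j).trans (congrFun hb j))
  · rw [hρ0, hk, hk']
    constructor
    · rintro ⟨⟨y, hy, h1⟩, ⟨y', hy', h2⟩⟩
      exact ⟨(y, y'), ⟨hy, hy'⟩, Prod.ext h1 h2⟩
    · rintro ⟨⟨y, y'⟩, ⟨hy, hy'⟩, h1⟩
      exact ⟨⟨y, hy, congrArg Prod.fst h1⟩, ⟨y', hy', congrArg Prod.snd h1⟩⟩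
  · obtain ⟨y, hy, h1⟩ := hm m hm₀
    obtain ⟨y', hy', h2⟩ := hm' m hm₀
    exact ⟨(y, y'), ⟨hy, hy'⟩, Prod.ext h1 h2⟩
  · rcases j with j | j
    · exact he j (x : ULift.{v, u} (F j)).down (congrArg ULift.down hx)
    · exact he' j (x : ULift.{u, v} (F' j)).down (congrArg ULift.down hx)

/-- **The parity lemma for two algebras.** Proof: `LD.prod`, `LD.parity` for `L × L'` and `J ⊕ J'`; the form
`tr (s.coprod s') (qeF (ε, ε') (π, π'))` on `Fin 4 → L × L'` is the direct sum (`Lag.map`). -/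
theorem LD.parity2 (h : LD O s ε π) (h' : LD O' s' ε' π') {J J' : Type*} [Fintype J] [Fintype J']
    {F : J → Type*} [∀ j, Field (F j)] [∀ j, Finite (F j)]
    {F' : J' → Type*} [∀ j, Field (F' j)] [∀ j, Finite (F' j)]
    (r : O →+* ∀ j, F j) (hr : Function.Surjective r)
    (hk : ∀ x : O, r x = 0 ↔ ∃ y ∈ O, (x : L) = π * y)
    (hm : ∀ m ∈ IsLocalRing.maximalIdeal R, ∃ y ∈ O, algebraMap R L m = π * y)
    (he : ∀ j (x : F j), x ^ 2 - x - r ⟨ε, h.he⟩ j ≠ 0)
    (r' : O' →+* ∀ j, F' j) (hr' : Function.Surjective r')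
    (hk' : ∀ x : O', r' x = 0 ↔ ∃ y ∈ O', (x : L') = π' * y)
    (hm' : ∀ m ∈ IsLocalRing.maximalIdeal R, ∃ y ∈ O', algebraMap R L' m = π' * y)
    (he' : ∀ j (x : F' j), x ^ 2 - x - r' ⟨ε', h'.he⟩ j ≠ 0)
    {W : Submodule k ((Fin 4 → L) × (Fin 4 → L'))}
    (hW : Lag ((tr s (qeF ε π)).prod (tr s' (qeF ε' π'))) W) :
    Even (Fintype.card J + Fintype.card J') :=
  ldpr_parity2 h h' r hr hk hm he r' hr' hk' hm' he' hW

end Dr
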