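import Pool.Agent.Lib.MP_f80667_ag.Dr.Df

/-! Extension of functionals from saturated sublattices. -/

namespace Dr

variable {R k V : Type*} [CommRing R] [IsDomain R] [IsPrincipalIdealRing R] [Field k] [Algebra R k]
  [IsFractionRing R k] [AddCommGroup V] [Module k V] [Module R V] [IsScalarTower R k V]

/-- Proof: `Λ / (Λ ⊓ W)` embeds in `V / W`, so it is torsion free and finite, hence free
(`Module.free_of_finite_type_torsion_free'`), and the sequence splits
(`Module.projective_lifting_property`); the functional composed with a projection `Λ → Λ ⊓ W`. -/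
theorem ext_fun (Λ : Submodule R V) [Module.Finite R Λ] (W : Submodule k V)
    (f : ↥(Λ ⊓ W.restrictScalars R) →ₗ[R] R) :
    ∃ g : ↥Λ →ₗ[R] R, ∀ (x : V) (hx : x ∈ Λ ⊓ W.restrictScalars R), g ⟨x, hx.1⟩ = f ⟨x, hx⟩ := by
  classical
  set N : Submodule R ↥Λ := (W.restrictScalars R).comap Λ.subtype with hN
  have htf : Module.IsTorsionFree R (↥Λ ⧸ N) := by
    refine Module.IsTorsionFree.of_smul_eq_zero fun r q h => ?_
    induction q using Submodule.Quotient.induction_on with
    | _ p =>
      by_cases hr : r = 0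
      · exact Or.inl hr
      · refine Or.inr ?_
        rw [← Submodule.Quotient.mk_smul, Submodule.Quotient.mk_eq_zero] at h
        rw [Submodule.Quotient.mk_eq_zero]
        have h1 : r • (p : V) ∈ W := h
        have h2 : (algebraMap R k r) • (p : V) ∈ W := by rwa [algebraMap_smul]
        have h3 : algebraMap R k r ≠ 0 :=
          (map_ne_zero_iff _ (IsFractionRing.injective R k)).2 hr
        exact (W.smul_mem_iff h3).1 h2
  have hfree : Module.Free R (↥Λ ⧸ N) := Module.free_of_finite_type_torsion_free'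
  obtain ⟨s, hs⟩ := Module.projective_lifting_property N.mkQ (LinearMap.id) N.mkQ_surjective
  -- the projection
  have hmem : ∀ p : ↥Λ, ((LinearMap.id - s ∘ₗ N.mkQ : ↥Λ →ₗ[R] ↥Λ) p : V) ∈
      Λ ⊓ W.restrictScalars R := by
    intro p
    refine ⟨Subtype.coe_prop _, ?_⟩
    have h1 : (LinearMap.id - s ∘ₗ N.mkQ : ↥Λ →ₗ[R] ↥Λ) p ∈ N := by
      rw [← Submodule.Quotient.mk_eq_zero, ← Submodule.mkQ_apply]
      have h2 : N.mkQ (s (N.mkQ p)) = N.mkQ p := LinearMap.congr_fun hs (N.mkQ p)
      simp only [LinearMap.sub_apply, LinearMap.id_apply, LinearMap.comp_apply, map_sub, h2,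
        sub_self]
    exact h1
  let pr : ↥Λ →ₗ[R] ↥(Λ ⊓ W.restrictScalars R) :=
    LinearMap.codRestrict (Λ ⊓ W.restrictScalars R)
      (Λ.subtype ∘ₗ (LinearMap.id - s ∘ₗ N.mkQ)) hmem
  refine ⟨f ∘ₗ pr, fun x hx => ?_⟩
  have h1 : pr ⟨x, hx.1⟩ = ⟨x, hx⟩ := by
    apply Subtype.ext
    have h2 : N.mkQ ⟨x, hx.1⟩ = 0 := by
      rw [Submodule.mkQ_apply, Submodule.Quotient.mk_eq_zero]
      exact hx.2
    simp only [pr, LinearMap.codRestrict_apply, LinearMap.comp_apply, LinearMap.sub_apply,
      LinearMap.id_apply, h2, map_zero, sub_zero, Submodule.subtype_apply]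
  rw [LinearMap.comp_apply, h1]

/-- A functional on a full lattice extends to the space. -/
theorem ext_lin (Λ : Submodule R V) [Module.Finite R Λ] (hs : ∀ x : V, ∃ r : R, r ≠ 0 ∧ r • x ∈ Λ)
    (g : ↥Λ →ₗ[R] R) : ∃ G : V →ₗ[k] k, ∀ x : Λ, G x = algebraMap R k (g x) := by
  classical
  have htfV : Module.IsTorsionFree R V := by
    refine Module.IsTorsionFree.of_smul_eq_zero fun r x h => ?_
    by_cases hr : r = 0
    · exact Or.inl hr
    · refine Or.inr ?_
      rw [← algebraMap_smul k r x] at h
      have h3 : algebraMap R k r ≠ 0 :=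
        (map_ne_zero_iff _ (IsFractionRing.injective R k)).2 hr
      exact (smul_eq_zero.1 h).resolve_left h3
  have htf : Module.IsTorsionFree R ↥Λ :=
    Function.Injective.moduleIsTorsionFree Λ.subtype Subtype.coe_injective fun r m => rfl
  have hfree : Module.Free R ↥Λ := Module.free_of_finite_type_torsion_free'
  let b := Module.Free.chooseBasis R ↥Λ
  have hli : LinearIndependent k (fun i => (b i : V)) := by
    rw [← LinearIndependent.iff_fractionRing R k]
    exact b.linearIndependent.map' Λ.subtype (Submodule.ker_subtype Λ)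
  have hsp : ⊤ ≤ Submodule.span k (Set.range fun i => (b i : V)) := by
    intro x _
    obtain ⟨r, hr, hx⟩ := hs x
    have h1 : r • x ∈ Submodule.span k (Set.range fun i => (b i : V)) := by
      have h2 : (⟨r • x, hx⟩ : ↥Λ) = ∑ i, b.repr ⟨r • x, hx⟩ i • b i := (b.sum_repr _).symm
      have h3 : r • x = ∑ i, b.repr ⟨r • x, hx⟩ i • (b i : V) := by
        have := congrArg (Subtype.val) h2
        simpa only [Submodule.coe_sum, Submodule.coe_smul] using this
      rw [h3]
      refine Submodule.sum_mem _ fun i _ => ?_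
      rw [← algebraMap_smul k]
      exact Submodule.smul_mem _ _ (Submodule.subset_span ⟨i, rfl⟩)
    have h3 : algebraMap R k r ≠ 0 :=
      (map_ne_zero_iff _ (IsFractionRing.injective R k)).2 hr
    rw [← algebraMap_smul k r x] at h1
    exact ((Submodule.span k _).smul_mem_iff h3).1 h1
  let B := Module.Basis.mk hli hsp
  refine ⟨B.constr k (fun i => algebraMap R k (g (b i))), fun x => ?_⟩
  have h1 : ((B.constr k (fun i => algebraMap R k (g (b i)))).restrictScalars R) ∘ₗ Λ.subtype =
      (Algebra.linearMap R k) ∘ₗ g := by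
    refine b.ext fun i => ?_
    simp only [LinearMap.comp_apply, Submodule.subtype_apply, LinearMap.restrictScalars_apply,
      Algebra.linearMap_apply]
    have h2 : (b i : V) = B i := by
      simp only [B, Module.Basis.mk_apply]
    rw [h2, Module.Basis.constr_basis]
  exact LinearMap.congr_fun h1 x

end Dr
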