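import Pool.Agent.Lib.MP_f80667_ag.Dr.LatC

/-! The image of a Lagrangian in the discriminant group. -/

namespace Dr

variable {R k L : Type*} [CommRing R] [IsDomain R] [IsPrincipalIdealRing R] [Field k] [Algebra R k]
  [IsFractionRing R k] [CommRing L] [Algebra k L] [Algebra R L] [IsScalarTower R k L]
  [FiniteDimensional k L] {O : Subalgebra R L} {s : L →ₗ[k] k} {ε π : L}

/-- The lattice `O ^ 2 ⊕ (π⁻¹ O) ^ 2`. -/
def latP (O : Subalgebra R L) (π : L) : Submodule R (Fin 4 → L) where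
  carrier := {w | w 0 ∈ O ∧ w 1 ∈ O ∧ π * w 2 ∈ O ∧ π * w 3 ∈ O}
  add_mem' := by
    rintro v w ⟨h0, h1, h2, h3⟩ ⟨g0, g1, g2, g3⟩
    refine ⟨O.add_mem h0 g0, O.add_mem h1 g1, ?_, ?_⟩
    · rw [Pi.add_apply, mul_add]
      exact O.add_mem h2 g2
    · rw [Pi.add_apply, mul_add]
      exact O.add_mem h3 g3
  zero_mem' := by
    refine ⟨O.zero_mem, O.zero_mem, ?_, ?_⟩
    · rw [Pi.zero_apply, mul_zero]
      exact O.zero_mem
    · rw [Pi.zero_apply, mul_zero]
      exact O.zero_mem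
  smul_mem' := by
    rintro c w ⟨g0, g1, g2, g3⟩
    refine ⟨O.smul_mem g0 c, O.smul_mem g1 c, ?_, ?_⟩
    · rw [Pi.smul_apply, mul_smul_comm]
      exact O.smul_mem g2 c
    · rw [Pi.smul_apply, mul_smul_comm]
      exact O.smul_mem g3 c

theorem mem_latP (w : Fin 4 → L) :
    w ∈ latP O π ↔ w 0 ∈ O ∧ w 1 ∈ O ∧ π * w 2 ∈ O ∧ π * w 3 ∈ O := Iff.rfl

/-- The parametrization of the lattice. -/
theorem LD.latP_finite (h : LD O s ε π) : Module.Finite R (latP O π) := by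
  obtain ⟨π', hπ⟩ := h.inv
  have := h.fin
  let F : (Fin 4 → O) →ₗ[R] latP O π :=
    { toFun := fun a => ⟨![(a 0 : L), a 1, π' * a 2, π' * a 3], by
        rw [mem_latP]
        refine ⟨(a 0).2, (a 1).2, ?_, ?_⟩
        · show π * (π' * (a 2 : L)) ∈ O
          rw [← mul_assoc, hπ, one_mul]
          exact (a 2).2
        · show π * (π' * (a 3 : L)) ∈ O
          rw [← mul_assoc, hπ, one_mul]
          exact (a 3).2⟩
      map_add' := by
        intro a b
        apply Subtype.ext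
        funext i
        fin_cases i
        · rfl
        · rfl
        · exact mul_add _ _ _
        · exact mul_add _ _ _
      map_smul' := by
        intro c a
        apply Subtype.ext
        funext i
        fin_cases i
        · rfl
        · rfl
        · exact mul_smul_comm _ _ _
        · exact mul_smul_comm _ _ _ }
  refine Module.Finite.of_surjective F ?_
  rintro ⟨w, h0, h1, h2, h3⟩
  refine ⟨![⟨w 0, h0⟩, ⟨w 1, h1⟩, ⟨_, h2⟩, ⟨_, h3⟩], ?_⟩
  apply Subtype.ext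
  funext i
  fin_cases i
  · rfl
  · rfl
  · show π' * (π * w 2) = w 2
    rw [← mul_assoc, mul_comm π', hπ, one_mul]
  · show π' * (π * w 3) = w 3
    rw [← mul_assoc, mul_comm π', hπ, one_mul]

/-- The lattice is full. -/
theorem LD.latP_full (h : LD O s ε π) (w : Fin 4 → L) : ∃ r : R, r ≠ 0 ∧ r • w ∈ latP O π := by
  obtain ⟨r0, hr0, h0⟩ := h.span (w 0)
  obtain ⟨r1, hr1, h1⟩ := h.span (w 1)
  obtain ⟨r2, hr2, h2⟩ := h.span (π * w 2)
  obtain ⟨r3, hr3, h3⟩ := h.span (π * w 3)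
  refine ⟨r0 * r1 * r2 * r3, mul_ne_zero (mul_ne_zero (mul_ne_zero hr0 hr1) hr2) hr3, ?_⟩
  rw [mem_latP]
  refine ⟨?_, ?_, ?_, ?_⟩
  · have : (r0 * r1 * r2 * r3) • w 0 = (r1 * r2 * r3) • (r0 • w 0) := by
      rw [smul_smul]
      congr 1
      ring
    rw [Pi.smul_apply, this]
    exact O.smul_mem h0 _
  · have : (r0 * r1 * r2 * r3) • w 1 = (r0 * r2 * r3) • (r1 • w 1) := by
      rw [smul_smul]
      congr 1
      ring
    rw [Pi.smul_apply, this]
    exact O.smul_mem h1 _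
  · have : π * ((r0 * r1 * r2 * r3) • w 2) = (r0 * r1 * r3) • (r2 • (π * w 2)) := by
      rw [smul_smul, mul_smul_comm]
      congr 1
      ring
    rw [Pi.smul_apply, this]
    exact O.smul_mem h2 _
  · have : π * ((r0 * r1 * r2 * r3) • w 3) = (r0 * r1 * r2) • (r3 • (π * w 3)) := by
      rw [smul_smul, mul_smul_comm]
    rw [Pi.smul_apply, this]
    exact O.smul_mem h3 _

/-- An `R`-linear map with integral values comes from an `R`-valued one. -/
theorem lin_int {N : Type*} [AddCommGroup N] [Module R N] (φ : N →ₗ[R] k)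
    (h : ∀ x, ∃ r : R, φ x = algebraMap R k r) :
    ∃ f : N →ₗ[R] R, ∀ x, φ x = algebraMap R k (f x) := by
  choose f hf using h
  have hinj := IsFractionRing.injective R k
  refine ⟨⟨⟨f, ?_⟩, ?_⟩, hf⟩
  · intro x y
    apply hinj
    rw [← hf, map_add, map_add, hf, hf]
  · intro c x
    apply hinj
    rw [← hf, map_smul, hf, Algebra.smul_def, RingHom.id_apply, smul_eq_mul, map_mul]

/-- Representation of functionals by a nondegenerate form. -/
theorem ND.repr {V : Type*} [AddCommGroup V] [Module k V] [FiniteDimensional k V]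
    {Q : QuadraticForm k V} (hQ : ND Q) (G : V →ₗ[k] k) :
    ∃ l : V, ∀ x, G x = QuadraticMap.polar Q l x := by
  have hinj : Function.Injective (Q.polarBilin : V →ₗ[k] V →ₗ[k] k) := by
    rw [← LinearMap.ker_eq_bot, LinearMap.ker_eq_bot']
    intro x hx
    refine hQ x (fun y => ?_)
    have := LinearMap.congr_fun hx y
    exact this
  have hsurj : Function.Surjective (Q.polarBilin : V →ₗ[k] V →ₗ[k] k) :=
    (LinearMap.injective_iff_surjective_of_finrank_eq_finrank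
      (Subspace.dual_finrank_eq (K := k) (V := V)).symm).mp hinj
  obtain ⟨l, hl⟩ := hsurj G
  exact ⟨l, fun x => by rw [← hl]; rfl⟩

/-- The subgroup `X`. -/
def imgX (O : Subalgebra R L) (W : Submodule k (Fin 4 → L)) (π' : L) : AddSubgroup (O × O) where
  carrier := {y | ∃ w ∈ W, w 0 ∈ O ∧ w 1 ∈ O ∧ (∃ a ∈ O, w 2 = π' * y.1.1 + a) ∧
    ∃ a ∈ O, w 3 = π' * y.2.1 + a}
  add_mem' := by
    rintro y z ⟨w, hw, h0, h1, ⟨a, ha, h2⟩, b, hb, h3⟩ ⟨w', hw', h0', h1', ⟨a', ha', h2'⟩, b', hb', h3'⟩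
    refine ⟨w + w', W.add_mem hw hw', O.add_mem h0 h0', O.add_mem h1 h1',
      ⟨a + a', O.add_mem ha ha', ?_⟩, b + b', O.add_mem hb hb', ?_⟩
    · rw [Pi.add_apply, h2, h2']
      show _ = π' * ((y.1 : L) + z.1) + _
      ring
    · rw [Pi.add_apply, h3, h3']
      show _ = π' * ((y.2 : L) + z.2) + _
      ring
  zero_mem' := by
    refine ⟨0, W.zero_mem, O.zero_mem, O.zero_mem, ⟨0, O.zero_mem, ?_⟩, 0, O.zero_mem, ?_⟩
    · show (0 : L) = π' * 0 + 0
      ring
    · show (0 : L) = π' * 0 + 0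
      ring
  neg_mem' := by
    rintro y ⟨w, hw, h0, h1, ⟨a, ha, h2⟩, b, hb, h3⟩
    refine ⟨-w, W.neg_mem hw, O.neg_mem h0, O.neg_mem h1,
      ⟨-a, O.neg_mem ha, ?_⟩, -b, O.neg_mem hb, ?_⟩
    · rw [Pi.neg_apply, h2]
      show _ = π' * (-(y.1 : L)) + _
      ring
    · rw [Pi.neg_apply, h3]
      show _ = π' * (-(y.2 : L)) + _
      ring

/-- **The image of a Lagrangian.** `Λ = O ^ 4`, `Λ' = O ^ 2 ⊕ (π⁻¹ O) ^ 2` is its dual, `X` consists of the
`y ∈ O ^ 2` with `(x, π⁻¹ y + y') ∈ W` for some `x`, `y' ∈ O ^ 2`. (1): `x = 0`, `y' = - y₀`. (2): the form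
vanishes at `(x, π⁻¹ y + y')`, so `s (π⁻¹ nn ε (y + π y')) = s (nn ε x)` is integral, and
`nn ε (y + π y') - nn ε y ∈ π O`. (3): the functional `w ↦ - s (π⁻¹ nnB ε y₂ y)` (for `w = (x₂, π⁻¹ y₂) ∈ W ∩ Λ'`)
has integral values since `y₂ ∈ X`; it is `w ↦ polar (w, (0, π⁻¹ y))`; extend it to `Λ'` (`ext_fun`), then
to `V` (`ext_lin`), it is `polar (w, l)` by nondegeneracy and `l ∈ Λ` (`LD.dual_nn` twice); then
`(0, π⁻¹ y) - l` is orthogonal to `W ∩ Λ'`, so to `W` (every vector has a multiple in `Λ'`), so it is in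
`W`. -/
theorem LD.image (h : LD O s ε π) (hR : ¬ IsField R) {W : Submodule k (Fin 4 → L)}
    (hW : Lag (tr s (qeF ε π)) W) (π' : L) (hπ : π * π' = 1) :
    ∃ X : AddSubgroup (O × O),
      (∀ y : O × O, y.1.1 ∈ ({z | ∃ w ∈ O, z = π * w} : Set L) →
        y.2.1 ∈ ({z | ∃ w ∈ O, z = π * w} : Set L) → y ∈ X) ∧
      (∀ y ∈ X, ∃ r : R, s (π' * nn ε y.1.1 y.2.1) = algebraMap R k r) ∧
      ∀ y : O × O, (∀ z ∈ X, ∃ r : R, s (π' * nnB ε y.1.1 y.2.1 z.1.1 z.2.1) = algebraMap R k r) →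
        y ∈ X := by
  have hs1 : ∀ z ∈ O, ∃ r : R, s z = algebraMap R k r := by
    intro z hz
    obtain ⟨r, hr⟩ := (h.dual z).mp hz 1 O.one_mem
    exact ⟨r, by rw [← hr, mul_one]⟩
  have hpol : ∀ v w : Fin 4 → L, QuadraticMap.polar (tr s (qeF ε π)) v w = s (qeB ε π v w) := by
    intro v w
    rw [tr_polar]
    congr 1
    exact qe_polar ε π v w
  have hnnO : ∀ a ∈ O, ∀ b ∈ O, nn ε a b ∈ O := by
    intro a ha b hb
    exact O.sub_mem (O.add_mem (O.pow_mem ha 2) (O.mul_mem ha hb)) (O.mul_mem h.he (O.pow_mem hb 2))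
  have hnnB : ∀ a ∈ O, ∀ b ∈ O, ∀ c ∈ O, ∀ d ∈ O, nnB ε a b c d ∈ O := by
    intro a ha b hb c hc d hd
    have h2 : (2 : L) ∈ O := by
      have := O.add_mem O.one_mem O.one_mem
      rwa [one_add_one_eq_two] at this
    exact O.sub_mem (O.add_mem (O.add_mem (O.mul_mem (O.mul_mem h2 ha) hc) (O.mul_mem ha hd))
      (O.mul_mem hb hc)) (O.mul_mem (O.mul_mem (O.mul_mem h2 h.he) hb) hd)
  refine ⟨imgX O W π', ?_, ?_, ?_⟩
  · rintro y ⟨w1, hw1, h1⟩ ⟨w2, hw2, h2⟩
    refine ⟨0, W.zero_mem, O.zero_mem, O.zero_mem, ⟨-w1, O.neg_mem hw1, ?_⟩, -w2,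
      O.neg_mem hw2, ?_⟩
    · rw [h1, ← mul_assoc, mul_comm π' π, hπ, one_mul, add_neg_cancel]
      rfl
    · rw [h2, ← mul_assoc, mul_comm π' π, hπ, one_mul, add_neg_cancel]
      rfl
  · rintro y ⟨w, hw, h0, h1, ⟨a, ha, h2⟩, b, hb, h3⟩
    have h4 : s (nn ε (w 0) (w 1) - π * nn ε (w 2) (w 3)) = 0 := hW.zero w hw
    have h5 : π' * nn ε y.1.1 y.2.1 = nn ε (w 0) (w 1) - nnB ε y.1.1 y.2.1 a b - π * nn ε a b -
        (nn ε (w 0) (w 1) - π * nn ε (w 2) (w 3)) := by
      rw [h2, h3]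
      have h6 : π * nn ε (π' * y.1.1 + a) (π' * y.2.1 + b) =
          (π * π') * (π' * nn ε y.1.1 y.2.1) + (π * π') * nnB ε y.1.1 y.2.1 a b +
            π * nn ε a b := by
        unfold nn nnB
        ring
      rw [h6, hπ]
      ring
    obtain ⟨r1, hr1⟩ := hs1 _ (hnnO _ h0 _ h1)
    obtain ⟨r2, hr2⟩ := hs1 _ (hnnB _ y.1.2 _ y.2.2 _ ha _ hb)
    obtain ⟨r3, hr3⟩ := hs1 _ (O.mul_mem h.hp (hnnO _ ha _ hb))
    refine ⟨r1 - r2 - r3, ?_⟩
    rw [h5, map_sub, h4, sub_zero, map_sub, map_sub, map_sub, map_sub, hr1, hr2, hr3]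
  · intro y hy
    have hfin := h.latP_finite
    -- the vector `(0, π⁻¹ y)`
    obtain ⟨v, hv⟩ : ∃ v : Fin 4 → L, v = ![0, 0, π' * y.1.1, π' * y.2.1] := ⟨_, rfl⟩
    have hqv : ∀ w : Fin 4 → L, qeB ε π w v = - nnB ε y.1.1 y.2.1 (w 2) (w 3) := by
      intro w
      have : qeB ε π w v = (π * π') * (- nnB ε y.1.1 y.2.1 (w 2) (w 3)) := by
        rw [hv]
        unfold qeB nnB
        simp only [Matrix.cons_val]
        ring
      rw [this, hπ, one_mul]
    let φ : ↥(latP O π ⊓ W.restrictScalars R) →ₗ[R] k :=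
      ((((tr s (qeF ε π)).polarBilin.flip v).restrictScalars R)).comp
        (latP O π ⊓ W.restrictScalars R).subtype
    have hφ : ∀ w : ↥(latP O π ⊓ W.restrictScalars R), φ w = s (qeB ε π w.1 v) := fun w => hpol _ _
    have hφint : ∀ w, ∃ r : R, φ w = algebraMap R k r := by
      rintro ⟨w, ⟨g0, g1, g2, g3⟩, hw2⟩
      rw [hφ, hqv]
      obtain ⟨r, hr⟩ := hy (⟨π * w 2, g2⟩, ⟨π * w 3, g3⟩) ⟨w, hw2, g0, g1,
        ⟨0, O.zero_mem, by
          show w 2 = π' * (π * w 2) + 0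
          rw [← mul_assoc, mul_comm π' π, hπ, one_mul, add_zero]⟩, 0, O.zero_mem, by
          show w 3 = π' * (π * w 3) + 0
          rw [← mul_assoc, mul_comm π' π, hπ, one_mul, add_zero]⟩
      refine ⟨-r, ?_⟩
      have h1 : π' * nnB ε y.1.1 y.2.1 (π * w 2) (π * w 3) =
          (π * π') * nnB ε y.1.1 y.2.1 (w 2) (w 3) := by
        unfold nnB
        ring
      have h2 : s (π' * nnB ε y.1.1 y.2.1 (π * w 2) (π * w 3)) = algebraMap R k r := hr
      rw [h1, hπ, one_mul] at h2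
      rw [map_neg, h2, map_neg]
    obtain ⟨f, hf⟩ := lin_int φ hφint
    obtain ⟨g, hg⟩ := ext_fun (latP O π) W f
    obtain ⟨G, hG⟩ := ext_lin (k := k) (latP O π) h.latP_full g
    obtain ⟨l, hl⟩ := (h.nondeg hR).repr G
    have hlint : ∀ w ∈ latP O π, ∃ r : R, s (qeB ε π l w) = algebraMap R k r := by
      intro w hw
      refine ⟨g ⟨w, hw⟩, ?_⟩
      rw [← hG ⟨w, hw⟩, hl, hpol]
    have hl01 : l 0 ∈ O ∧ l 1 ∈ O := by
      refine h.dual_nn ?_
      intro z hz w hw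
      obtain ⟨r, hr⟩ := hlint ![z, w, 0, 0] ⟨hz, hw, by
          show π * 0 ∈ O
          rw [mul_zero]
          exact O.zero_mem, by
          show π * 0 ∈ O
          rw [mul_zero]
          exact O.zero_mem⟩
      refine ⟨r, ?_⟩
      rw [← hr]
      congr 1
      unfold qeB nnB
      simp only [Matrix.cons_val]
      ring
    have hl23 : l 2 ∈ O ∧ l 3 ∈ O := by
      refine h.dual_nn ?_
      intro z hz w hw
      obtain ⟨r, hr⟩ := hlint ![0, 0, π' * z, π' * w] ⟨O.zero_mem, O.zero_mem, by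
          show π * (π' * z) ∈ O
          rw [← mul_assoc, hπ, one_mul]
          exact hz, by
          show π * (π' * w) ∈ O
          rw [← mul_assoc, hπ, one_mul]
          exact hw⟩
      refine ⟨-r, ?_⟩
      have h1 : qeB ε π l ![0, 0, π' * z, π' * w] = (π * π') * (- nnB ε (l 2) (l 3) z w) := by
        unfold qeB nnB
        simp only [Matrix.cons_val]
        ring
      rw [h1, hπ, one_mul, map_neg] at hr
      rw [map_neg, ← hr, neg_neg]
    have hsym : ∀ a b : Fin 4 → L, qeB ε π a b = qeB ε π b a := by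
      intro a b
      unfold qeB nnB
      ring
    have hu : v - l ∈ W := by
      refine hW.max _ ?_
      intro w hw
      obtain ⟨r, hr0, hr⟩ := h.latP_full w
      have hrW : r • w ∈ W := by
        have : (algebraMap R k r) • w ∈ W := W.smul_mem _ hw
        rwa [algebraMap_smul] at this
      have h1 : QuadraticMap.polar (tr s (qeF ε π)) (v - l) (r • w) = 0 := by
        have h2 : φ ⟨r • w, hr, hrW⟩ = G (r • w) := by
          rw [hf, ← hg, ← hG]
        rw [hφ, hl, hpol] at h2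
        rw [hpol]
        have h3 : qeB ε π (v - l) (r • w) = qeB ε π (r • w) v - qeB ε π l (r • w) := by
          unfold qeB nnB
          simp only [Pi.sub_apply]
          ring
        rw [h3, map_sub, h2, sub_self]
      have h4 : QuadraticMap.polar (tr s (qeF ε π)) (v - l) (r • w) =
          algebraMap R k r * QuadraticMap.polar (tr s (qeF ε π)) (v - l) w := by
        rw [← algebraMap_smul k r w, QuadraticMap.polar_smul_right, smul_eq_mul]
      rw [h4] at h1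
      rcases mul_eq_zero.mp h1 with h5 | h5
      · exact absurd ((map_eq_zero_iff _ (IsFractionRing.injective R k)).mp h5) hr0
      · exact h5
    refine ⟨v - l, hu, ?_, ?_, ⟨- l 2, O.neg_mem hl23.1, ?_⟩, - l 3, O.neg_mem hl23.2, ?_⟩
    · rw [Pi.sub_apply, hv]
      show 0 - l 0 ∈ O
      rw [zero_sub]
      exact O.neg_mem hl01.1
    · rw [Pi.sub_apply, hv]
      show 0 - l 1 ∈ O
      rw [zero_sub]
      exact O.neg_mem hl01.2
    · rw [Pi.sub_apply, hv]
      show π' * y.1.1 - l 2 = _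
      ring
    · rw [Pi.sub_apply, hv]
      show π' * y.2.1 - l 3 = _
      ring

end Dr
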