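import Pool.Agent.Lib.MP_f80667_ag.Dr.LatA

/-! The self dual lattice for the norm form. -/

namespace Dr

variable {R k L : Type*} [CommRing R] [IsDomain R] [IsPrincipalIdealRing R] [Field k] [Algebra R k]
  [IsFractionRing R k] [CommRing L] [Algebra k L] [Algebra R L] [IsScalarTower R k L]
  [FiniteDimensional k L] {O : Subalgebra R L} {s : L →ₗ[k] k} {ε π : L}

/-- The self dual lattice for the form `nn ε`. Proof: `s (nnB ε x y z w)` integral for all `z`, `w ∈ O`
says that `2 x + y` and `x - 2 ε y` are in `O` (`LD.dual`); the determinant `-(1 + 4 ε)` is a unit. -/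
theorem LD.dual_nn (h : LD O s ε π) {x y : L}
    (H : ∀ z ∈ O, ∀ w ∈ O, ∃ r : R, s (nnB ε x y z w) = algebraMap R k r) : x ∈ O ∧ y ∈ O := by
  have h1 : 2 * x + y ∈ O := by
    rw [h.dual]
    intro z hz
    obtain ⟨r, hr⟩ := H z hz 0 O.zero_mem
    refine ⟨r, ?_⟩
    rw [← hr, nnB]
    congr 1
    ring
  have h2 : x - 2 * ε * y ∈ O := by
    rw [h.dual]
    intro w hw
    obtain ⟨r, hr⟩ := H 0 O.zero_mem w hw
    refine ⟨r, ?_⟩
    rw [← hr, nnB]
    congr 1
    ring
  obtain ⟨u, hu, hu1⟩ := h.unit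
  have h3 : (2 : L) ∈ O := by
    have h4 : (2 : L) = 1 + 1 := by norm_num
    rw [h4]
    exact O.add_mem O.one_mem O.one_mem
  have hy : y ∈ O := by
    have h5 : y = u * ((2 * x + y) - 2 * (x - 2 * ε * y)) := by
      linear_combination (-y) * hu1
    rw [h5]
    exact O.mul_mem hu (O.sub_mem h1 (O.mul_mem h3 h2))
  refine ⟨?_, hy⟩
  have h6 : x = (x - 2 * ε * y) + 2 * ε * y := by ring
  rw [h6]
  exact O.add_mem h2 (O.mul_mem (O.mul_mem h3 h.he) hy)

omit [FiniteDimensional k L] in
/-- The functional is nondegenerate. -/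
theorem LatC_ne (h : LD O s ε π) (hR : ¬ IsField R) {a : L} (ha : ∀ y, s (a * y) = 0) : a = 0 := by
  by_contra ha0
  apply hR
  have hmem : ∀ c : k, c • a ∈ O := by
    intro c
    rw [h.dual]
    intro y _
    refine ⟨0, ?_⟩
    rw [map_zero, smul_mul_assoc, map_smul, ha, smul_zero]
  have := h.fin
  have : IsNoetherian R O := isNoetherian_of_isNoetherianRing_of_finite R O
  let f : k →ₗ[R] O :=
    { toFun := fun c => ⟨c • a, hmem c⟩
      map_add' := fun c d => Subtype.ext (add_smul c d a)
      map_smul' := fun r c => Subtype.ext (smul_assoc r c a) }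
  have hf : Function.Injective f := by
    intro c d hcd
    have h1 : c • a = d • a := congrArg Subtype.val hcd
    have h2 : (c - d) • a = 0 := by rw [sub_smul, h1, sub_self]
    exact sub_eq_zero.1 ((smul_eq_zero.1 h2).resolve_right ha0)
  have : Module.Finite R k := Module.Finite.of_injective f hf
  exact isField_of_isIntegral_of_isField (IsFractionRing.injective R k) (Field.toIsField k)

omit [IsDomain R] [IsPrincipalIdealRing R] [IsFractionRing R k] [IsScalarTower R k L]
  [FiniteDimensional k L] in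
/-- The form `nn ε` is nondegenerate. -/
theorem LatC_nn (h : LD O s ε π) {x y : L} (h1 : 2 * x + y = 0) (h2 : x - 2 * ε * y = 0) :
    x = 0 ∧ y = 0 := by
  obtain ⟨u, _, hu1⟩ := h.unit
  have hy : y = 0 := by linear_combination u * h1 - 2 * u * h2 - y * hu1
  refine ⟨?_, hy⟩
  rw [hy, mul_zero, sub_zero] at h2
  exact h2

/-- Nondegeneracy of the form over `k`. Proof: from `LD.dual` with all multiples; or: `s (z y) = 0` for
all `y` gives `z = 0` (all `k`-multiples of `z` are in `O`, which is finite over `R` and `R` is not a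
field, or use `hfield`). -/
theorem LD.nondeg (h : LD O s ε π) (hR : ¬ IsField R) : ND (tr s (qeF ε π)) := by
  intro x hx
  have key : ∀ y : Fin 4 → L, s (qeB ε π x y) = 0 := by
    intro y
    rw [← qe_polar]
    have := hx y
    rw [tr_polar] at this
    exact this
  obtain ⟨π', hπ⟩ := h.inv
  have e1 : 2 * x 0 + x 1 = 0 := LatC_ne h hR fun z => by
    have := key ![z, 0, 0, 0]
    rw [← this]
    congr 1
    simp only [qeB, nnB, Matrix.cons_val_zero, Matrix.cons_val_one, Matrix.cons_val]
    ring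
  have e2 : x 0 - 2 * ε * x 1 = 0 := LatC_ne h hR fun z => by
    have := key ![0, z, 0, 0]
    rw [← this]
    congr 1
    simp only [qeB, nnB, Matrix.cons_val_zero, Matrix.cons_val_one, Matrix.cons_val]
    ring
  have e3 : -π * (2 * x 2 + x 3) = 0 := LatC_ne h hR fun z => by
    have := key ![0, 0, z, 0]
    rw [← this]
    congr 1
    simp only [qeB, nnB, Matrix.cons_val_zero, Matrix.cons_val_one, Matrix.cons_val]
    ring
  have e4 : -π * (x 2 - 2 * ε * x 3) = 0 := LatC_ne h hR fun z => by
    have := key ![0, 0, 0, z]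
    rw [← this]
    congr 1
    simp only [qeB, nnB, Matrix.cons_val_zero, Matrix.cons_val_one, Matrix.cons_val]
    ring
  have e3' : 2 * x 2 + x 3 = 0 := by
    linear_combination (-π') * e3 - (2 * x 2 + x 3) * hπ
  have e4' : x 2 - 2 * ε * x 3 = 0 := by
    linear_combination (-π') * e4 - (x 2 - 2 * ε * x 3) * hπ
  obtain ⟨a0, a1⟩ := LatC_nn h e1 e2
  obtain ⟨a2, a3⟩ := LatC_nn h e3' e4'
  funext i
  fin_cases i
  · exact a0
  · exact a1
  · exact a2
  · exact a3

end Dr
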