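import Pool.Agent.Lib.MP_f80667_ag.Dr.ZcD

/-! Lines and isomorphisms of the base field. -/

open Polynomial IntermediateField

namespace Dr

open ZC Tq Dp

universe u

section aux

variable {k k' : Type*} [Field k] [Field k'] {L L' : Type*} [CommRing L] [CommRing L']
  [Algebra k L] [Algebra k' L'] (e : k ≃+* k') (F : L ≃+* L')
  (hF : ∀ a : k, F (algebraMap k L a) = algebraMap k' L' (e a))

include hF

private theorem lnm_qv (A : Matrix (Fin 5) (Fin 5) k) (x : Fin 5 → L) :
    qv (A.map e) (fun i => F (x i)) = F (qv A x) := by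
  simp only [qv, map_sum, map_mul, hF, Matrix.map_apply]

private theorem lnm_bv (A : Matrix (Fin 5) (Fin 5) k) (x y : Fin 5 → L) :
    bv (A.map e) (fun i => F (x i)) (fun i => F (y i)) = F (bv A x y) := by
  simp only [bv, map_sum, map_mul, map_add, hF, Matrix.map_apply]

private theorem lnm_ln {A B : Matrix (Fin 5) (Fin 5) k} {t : L} (h : Ln A B t) :
    Ln (A.map e) (B.map e) (F t) := by
  obtain ⟨p, x, hi, hp, hx, hpx⟩ := h
  refine ⟨fun i => F (p i), fun i => F (x i), ?_, ?_, ?_, ?_⟩
  · rw [LinearIndependent.pair_iff]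
    intro a b hab
    have h3 : F.symm a • p + F.symm b • x = 0 := by
      funext i
      have h4 := congrArg F.symm (congrFun hab i)
      simpa using h4
    have h5 := LinearIndependent.pair_iff.1 hi _ _ h3
    exact ⟨by simpa using h5.1, by simpa using h5.2⟩
  · have h3 := congrArg F hp
    rw [map_zero] at h3
    rw [← h3]
    simp only [mQ, lnm_qv e F hF, map_add, map_mul, map_neg, map_one]
  · have h3 := congrArg F hx
    rw [map_zero] at h3
    rw [← h3]
    simp only [mQ, lnm_qv e F hF, map_add, map_mul, map_neg, map_one]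
  · have h3 := congrArg F hpx
    rw [map_zero] at h3
    rw [← h3]
    simp only [mB, lnm_bv e F hF, map_add, map_mul, map_neg, map_one]

end aux

/-- Proof: the isomorphism of `AdjoinRoot g` and `AdjoinRoot (g.map e)`. -/
theorem Ln.map {k k' : Type*} [Field k] [Field k'] (e : k ≃+* k') {A B : Matrix (Fin 5) (Fin 5) k}
    {g : k[X]} (h : Ln A B (AdjoinRoot.root g)) :
    Ln (A.map e) (B.map e) (AdjoinRoot.root (g.map (e : k →+* k'))) := by
  have h1 := lnm_ln e (AdjoinRoot.mapRingEquiv e g (g.map (e : k →+* k')) (Associated.refl _))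
    (fun a => by
      rw [AdjoinRoot.coe_mapRingEquiv, AdjoinRoot.algebraMap_eq, AdjoinRoot.algebraMap_eq,
        AdjoinRoot.map_of]
      rfl) h
  rwa [AdjoinRoot.coe_mapRingEquiv, AdjoinRoot.map_root] at h1

/-- The Lagrangian over an isomorphic field. Proof: `root_ln`, `Ln.map`, `zc`. -/
theorem zc_iso {k : Type u} [Field k] [CharZero k] {Ω : Type u} [Field Ω] [Algebra k Ω]
    [IsAlgClosure k Ω] {A B : Matrix (Fin 5) (Fin 5) k} {k' : Type} [Field k'] (e : k ≃+* k')
    (w : Fin 5 → k') {D : k'[X]} (hD : D.Monic) (hn : D.natDegree = 5) {c : k'}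
    (hc : c ≠ 0) (hf : Dq.chp (A.map e) (B.map e) = C c * D)
    (hδ : IsUnit (AdjoinRoot.mk D (dl (A.map e) (B.map e) w))) {P : k[X]}
    {z : Projectivization Ω (Fin 5 → Ω) →₀ ℤ} (h : Dat A B P z) (hN : Even P.natDegree) :
    IsCoprime (P.map (e : k →+* k')) D ∧ ∃ W, Lag (tr ((-c) • Rk LinearMap.id hD)
      (qnF (AdjoinRoot.mk D (dl (A.map e) (B.map e) w))
        (AdjoinRoot.mk D (P.map (e : k →+* k'))))) W := by
  obtain ⟨m, x, t, hx, hP, hR, -⟩ := h
  have hinj : Function.Injective (e : k →+* k') := e.injective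
  have hchp : (Dq.chp A B).map (e : k →+* k') = Dq.chp (A.map e) (B.map e) :=
    chp_map (e : k →+* k') A B
  have h2 : (2 : k') ≠ 0 := by
    intro h3
    have h4 : e 2 = 0 := by rw [map_ofNat]; exact h3
    exact two_ne_zero ((map_eq_zero e).1 h4)
  have hPm : P.map (e : k →+* k') = ∏ j, (minpoly k (x j)).map (e : k →+* k') := by
    rw [hP, Polynomial.map_prod]
  have hcop : ∀ j, IsCoprime D ((minpoly k (x j)).map (e : k →+* k')) := by
    intro j
    have h1 := (root_ln (hR j)).2.map (mapRingHom (e : k →+* k'))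
    rw [coe_mapRingHom, hchp, hf] at h1
    exact IsCoprime.of_mul_left_right h1
  refine ⟨?_, ?_⟩
  · rw [hPm]
    exact IsCoprime.prod_left fun j _ => (hcop j).symm
  · refine zc h2 w hD hn hc hf hδ (fun j => (minpoly k (x j)).map (e : k →+* k'))
      (fun j => (minpoly.monic (dat_int (x j))).map _) (fun j => ?_)
      (fun i j hij => hx i j (Polynomial.map_injective _ hinj hij)) hcop
      (fun j => (root_ln (hR j)).1.map e) hPm ?_
    · have h3 := minpoly.irreducible (dat_int (k := k) (x j))
      exact (MulEquiv.irreducible_iff (Polynomial.mapEquiv e)).2 h3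
    · rwa [natDegree_map_eq_of_injective hinj]

end Dr
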