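import Pool.Agent.Lib.MP_f80667_ag.Hm.Main
import Pool.Agent.Lib.MP_f80667_ag.Hm.U4
import Pool.Agent.Lib.MP_f80667_ag.Hm.Loc
import Pool.Agent.Lib.MP_f80667_ag.Dr.OutD

/-! Local norms in terms of the completions. -/

open IsDedekindDomain NumberField

namespace Dr

open Hm

variable {K : Type} [Field K] [NumberField K] {v : HeightOneSpectrum (𝓞 K)} {b c : Kˣ}

/-- Proof: `→`: `Hm.mem_LNm`, `Hm.sq_of_mem_LSq`. `←`: approximate `x`, `y` by elements of `K`
(`Hm.exists_nearC`); then `c` and `x² - b y²` differ by a local square (`Hm.div_mem_LSq`). -/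
theorem mem_LNm_iff : c ∈ LNm v b ↔
    ∃ x y : v.adicCompletion K, algebraMap K (v.adicCompletion K) c =
      x ^ 2 - algebraMap K (v.adicCompletion K) b * y ^ 2 := by
  constructor
  · intro h
    obtain ⟨x, y, s, hs, h⟩ := mem_LNm.1 h
    obtain ⟨t, ht0, ht⟩ := sq_of_mem_LSq hs
    have h1 := congrArg (algebraMap K (v.adicCompletion K)) h
    rw [map_mul, ht, map_sub, map_mul, map_pow, map_pow] at h1
    refine ⟨algebraMap K (v.adicCompletion K) x / t, algebraMap K (v.adicCompletion K) y / t, ?_⟩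
    field_simp
    linear_combination h1
  · rintro ⟨x, y, h⟩
    have hc : algebraMap K (v.adicCompletion K) (c : K) ≠ 0 := by
      rw [Ne, map_eq_zero]
      exact c.ne_zero
    obtain ⟨x', y', r, h0, hr, h1⟩ := exists_near_value v 1 (-(b : K)) x y (by
      rw [map_one, map_neg, one_mul, neg_mul, ← sub_eq_add_neg, ← h]
      exact hc)
    obtain ⟨d, hd⟩ : ∃ d : Kˣ, (d : K) = 1 * x' ^ 2 + -(b : K) * y' ^ 2 := ⟨Units.mk0 _ h0, rfl⟩
    have hd1 : d ∈ Nrm b := ⟨x', y', by rw [hd]; ring⟩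
    have hd0 : algebraMap K (v.adicCompletion K) (d : K) ≠ 0 := by
      rw [Ne, map_eq_zero]
      exact d.ne_zero
    have h2 : c / d ∈ LSq v := by
      refine mem_LSq_of_sq (z := r) ?_
      rw [← hd, map_one, map_neg] at h1
      rw [Units.val_div_eq_div_val, map_div₀, div_eq_iff hd0, h]
      linear_combination -h1
    have h3 : c = c / d * d := by rw [div_mul_cancel]
    rw [h3]
    exact mul_mem (LSq_le_LNm v b h2) (Nrm_le_LNm v b hd1)

theorem Loc2_comm (h : c ∈ LNm v b) : b ∈ LNm v c := by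
  rw [mem_LNm_iff] at h ⊢
  obtain ⟨x, y, h⟩ := h
  have hc : algebraMap K (v.adicCompletion K) (c : K) ≠ 0 := by
    rw [Ne, map_eq_zero]
    exact c.ne_zero
  by_cases hy : y = 0
  · rw [hy, zero_pow two_ne_zero, mul_zero, sub_zero] at h
    have hx : x ≠ 0 := by
      rintro rfl
      rw [zero_pow two_ne_zero] at h
      exact hc h
    have h2 : (2 : v.adicCompletion K) ≠ 0 := two_ne_zero
    refine ⟨(algebraMap K (v.adicCompletion K) (b : K) + 1) / 2,
      (algebraMap K (v.adicCompletion K) (b : K) - 1) / (2 * x), ?_⟩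
    rw [h]
    field_simp
    ring
  · refine ⟨x / y, 1 / y, ?_⟩
    rw [h]
    field_simp
    ring

/-- Symmetry of the symbol. -/
theorem LNm_comm : c ∈ LNm v b ↔ b ∈ LNm v c := ⟨Loc2_comm, Loc2_comm⟩

/-- The subgroup depends only on the class of `b` modulo local squares. -/
theorem LNm_congr {b' : Kˣ} (h : b / b' ∈ LSq v) : LNm v b = LNm v b' := by
  obtain ⟨t, ht0, ht⟩ := sq_of_mem_LSq h
  have hb : algebraMap K (v.adicCompletion K) (b' : K) ≠ 0 := by
    rw [Ne, map_eq_zero]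
    exact b'.ne_zero
  rw [Units.val_div_eq_div_val, map_div₀, div_eq_iff hb] at ht
  ext c
  rw [mem_LNm_iff, mem_LNm_iff, ht]
  constructor
  · rintro ⟨x, y, h⟩
    exact ⟨x, t * y, by rw [h]; ring⟩
  · rintro ⟨x, y, h⟩
    refine ⟨x, y / t, ?_⟩
    rw [h]
    field_simp

theorem neg_mem_LNm : -b ∈ LNm v b :=
  Nrm_le_LNm v b ⟨0, 1, by push_cast; ring⟩

/-- Elements near `c` are local norms iff `c` is. -/
theorem LNm_near {c' : Kˣ} (h : v.valuation K ((c : K) - c') < v.valuation K (4 * (c' : K))) :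
    c ∈ LNm v b ↔ c' ∈ LNm v b := by
  have h1 : c / c' ∈ LSq v := by
    refine ⟨1, ?_⟩
    have hc : (c' : K) ≠ 0 := c'.ne_zero
    have hv : 0 < v.valuation K (c' : K) := zero_lt_iff.2 ((v.valuation K).ne_zero_iff.2 hc)
    have e : ((c / c' : Kˣ) : K) * ((1 : Kˣ) : K) ^ 2 - 1 = ((c : K) - c') / c' := by
      push_cast
      field_simp
    rw [e, map_div₀, div_lt_iff₀ hv, ← map_mul]
    exact h
  have h2 := LSq_le_LNm v b h1
  have h3 : c = c / c' * c' := by rw [div_mul_cancel]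
  constructor
  · intro h4
    rw [h3] at h4
    exact (Subgroup.mul_mem_cancel_left _ h2).1 h4
  · intro h4
    rw [h3]
    exact mul_mem h2 h4

end Dr
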