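import Pool.Agent.Lib.MP_f80667_ag.Dr.TrG

/-! A choice of signs. -/

open IsDedekindDomain NumberField Module

namespace Dr

open Hm

variable {K K' : Type} [Field K] [NumberField K] [Field K'] [NumberField K']

/-- Proof: signs at the ramified real places, half positive (`Hm.wa`). -/
theorem exists_sgn (b a : Kˣ) : ∃ (c : Kˣ) (σ : ℕ), σ ≤ 1 ∧ rr (b : K) a c 1 = rr (b : K) a c (-1) + σ := by
  classical
  let X : Finset (K →+* ℝ) := Finset.univ.filter fun φ => φ (b : K) < 0 ∧ φ (a : K) < 0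
  obtain ⟨Y, hYX, hY⟩ := Finset.exists_subset_card_eq (s := X) (n := (X.card + 1) / 2) (by omega)
  obtain ⟨c, -, hc⟩ := wa (K := K) ∅ (fun _ => 1) (fun φ => if φ ∈ Y then 1 else -1)
    (fun φ => by split_ifs <;> norm_num)
  have hc1 : ∀ φ : K →+* ℝ, 0 < φ (c : K) ↔ φ ∈ Y := by
    intro φ
    have h := hc φ
    by_cases hφ : φ ∈ Y
    · rw [if_pos hφ, mul_one] at h
      exact ⟨fun _ => hφ, fun _ => h⟩
    · rw [if_neg hφ] at h
      exact ⟨fun h1 => absurd h1 (by linarith), fun h1 => absurd h1 hφ⟩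
  have hc2 : ∀ φ : K →+* ℝ, φ (c : K) < 0 ↔ φ ∉ Y := by
    intro φ
    have h0 : φ (c : K) ≠ 0 := (map_ne_zero φ).2 c.ne_zero
    rw [← hc1 φ, not_lt]
    exact ⟨le_of_lt, fun h => lt_of_le_of_ne h h0⟩
  have e1 : rr (b : K) a c 1 = Y.card := by
    rw [rr, Nat.card_eq_fintype_card, Fintype.card_subtype]
    congr 1
    ext φ
    rw [Finset.mem_filter, one_mul, hc1]
    constructor
    · rintro ⟨_, _, _, h⟩
      exact h
    · intro h
      have h1 := hYX h
      rw [Finset.mem_filter] at h1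
      exact ⟨Finset.mem_univ _, h1.2.1, h1.2.2, h⟩
  have e2 : rr (b : K) a c (-1) = (X \ Y).card := by
    rw [rr, Nat.card_eq_fintype_card, Fintype.card_subtype]
    congr 1
    ext φ
    rw [Finset.mem_filter, neg_one_mul, neg_pos, hc2, Finset.mem_sdiff, Finset.mem_filter]
    tauto
  have e3 := Finset.card_sdiff_add_card_eq_card hYX
  refine ⟨c, X.card % 2, by omega, ?_⟩
  rw [e1, e2]
  omega

end Dr
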