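import Pool.Agent.Lib.MP_f80667_ag.Dr.QB

/-! The symbols over `ℚ_2`. -/

namespace Dr

/-- integers `1` modulo `8` are squares -/
theorem QC_sq (n : ℤ) (hn : n % 8 = 1) : ∃ w : ℤ_[2], w ^ 2 = (n : ℤ_[2]) := by
  have hnorm2 : ‖(2 : ℤ_[2])‖ = (2 : ℝ)⁻¹ := by
    have h := PadicInt.norm_p (p := 2)
    exact_mod_cast h
  obtain ⟨m, hm⟩ : ∃ m : ℤ, n = 1 + 8 * m := ⟨n / 8, by omega⟩
  have hF : ‖(Polynomial.X ^ 2 - Polynomial.C (n : ℤ_[2]) : Polynomial ℤ_[2]).aeval (1 : ℤ_[2])‖ <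
      ‖(Polynomial.X ^ 2 - Polynomial.C (n : ℤ_[2]) : Polynomial ℤ_[2]).derivative.aeval
        (1 : ℤ_[2])‖ ^ 2 := by
    have h1 : (Polynomial.X ^ 2 - Polynomial.C (n : ℤ_[2]) : Polynomial ℤ_[2]).aeval
        (1 : ℤ_[2]) = 2 ^ 3 * (-m : ℤ_[2]) := by
      have h0 : (n : ℤ_[2]) = 1 + 8 * (m : ℤ_[2]) := by
        rw [hm]
        push_cast
        ring
      have h00 : (Polynomial.X ^ 2 - Polynomial.C (n : ℤ_[2]) : Polynomial ℤ_[2]).aeval
          (1 : ℤ_[2]) = 1 ^ 2 - (n : ℤ_[2]) := by simp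
      rw [h00, h0]
      ring
    have h3 : (Polynomial.X ^ 2 - Polynomial.C (n : ℤ_[2]) : Polynomial ℤ_[2]).derivative.aeval
        (1 : ℤ_[2]) = 2 := by
      simp
      norm_num
    rw [h1, h3, norm_mul, norm_pow, hnorm2]
    have h4 := PadicInt.norm_le_one (-m : ℤ_[2])
    nlinarith [norm_nonneg (-m : ℤ_[2])]
  obtain ⟨w, hw, -⟩ := hensels_lemma hF
  refine ⟨w, ?_⟩
  have h4 : (Polynomial.X ^ 2 - Polynomial.C (n : ℤ_[2]) : Polynomial ℤ_[2]).aeval w =
      w ^ 2 - n := by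
    simp
  rw [h4] at hw
  exact sub_eq_zero.1 hw

/-- if `u` is a square then everything is a norm -/
theorem QC_split {n : ℤ} (hn : n % 8 = 1) (c : ℚ_[2]) :
    ∃ x y : ℚ_[2], c = x ^ 2 - (n : ℚ_[2]) * y ^ 2 := by
  obtain ⟨w, hw⟩ := QC_sq n hn
  have hw' : (w : ℚ_[2]) ^ 2 = n := by
    have := congrArg (fun t : ℤ_[2] => (t : ℚ_[2])) hw
    push_cast at this
    exact this
  have hn0 : (n : ℚ_[2]) ≠ 0 := by
    intro h
    have h3 : n = 0 := by exact_mod_cast h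
    rw [h3] at hn
    norm_num at hn
  have hw0 : (w : ℚ_[2]) ≠ 0 := by
    intro h
    rw [h] at hw'
    apply hn0
    rw [← hw']
    norm_num
  refine ⟨(1 + c) / 2, (c - 1) / (2 * w), ?_⟩
  rw [div_pow, div_pow, mul_pow, hw']
  field_simp
  ring

theorem QC_four : ∀ a b : ZMod 4, 1 + a ^ 2 + b ^ 2 ≠ 0 := by decide

theorem QC_eight : ∀ a b : ZMod 8, a * b = 1 → a ^ 2 = 1 := by decide

theorem QC_int (a b : ℤ_[2]) : 1 + a ^ 2 + b ^ 2 ≠ 0 := by
  intro h
  have h1 := congrArg (PadicInt.toZModPow (p := 2) 2) h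
  rw [map_add, map_add, map_pow, map_pow, map_one, map_zero] at h1
  exact QC_four _ _ h1

theorem QC_frac (x y : ℚ_[2]) (hx : ‖x‖ ≤ 1) (hy : ‖y‖ ≤ 1) : 1 + x ^ 2 + y ^ 2 ≠ 0 := by
  intro h
  apply QC_int ⟨x, hx⟩ ⟨y, hy⟩
  apply Subtype.ext
  push_cast
  exact h

/-- `-1` is not a sum of two squares in `ℚ_2`. -/
theorem hp_two_neg : ¬ hp ⟨2, Nat.prime_two⟩ (-1) (-1) := by
  rintro ⟨x, y, h⟩
  push_cast at h
  have h1 : 1 + x ^ 2 + y ^ 2 = 0 := by linear_combination -h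
  by_cases hx : ‖x‖ ≤ 1
  · by_cases hy : ‖y‖ ≤ 1
    · exact QC_frac x y hx hy h1
    · have hy1 : 1 < ‖y‖ := not_le.1 hy
      have hy0 : y ≠ 0 := by
        intro h0
        rw [h0, norm_zero] at hy1
        linarith
      refine QC_frac (x / y) (1 / y) ?_ ?_ ?_
      · rw [norm_div]
        exact div_le_one_of_le₀ (hx.trans hy1.le) (norm_nonneg _)
      · rw [norm_div, norm_one]
        exact div_le_one_of_le₀ hy1.le (norm_nonneg _)
      · field_simp
        linear_combination h1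
  · have hx1 : 1 < ‖x‖ := not_le.1 hx
    by_cases hxy : ‖y‖ ≤ ‖x‖
    · have hx0 : x ≠ 0 := by
        intro h0
        rw [h0, norm_zero] at hx1
        linarith
      refine QC_frac (y / x) (1 / x) ?_ ?_ ?_
      · rw [norm_div]
        exact div_le_one_of_le₀ hxy (norm_nonneg _)
      · rw [norm_div, norm_one]
        exact div_le_one_of_le₀ hx1.le (norm_nonneg _)
      · field_simp
        linear_combination h1
    · have hy1 : ‖x‖ < ‖y‖ := not_le.1 hxy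
      have hy0 : y ≠ 0 := by
        intro h0
        rw [h0, norm_zero] at hy1
        linarith
      refine QC_frac (x / y) (1 / y) ?_ ?_ ?_
      · rw [norm_div]
        exact div_le_one_of_le₀ hy1.le (norm_nonneg _)
      · rw [norm_div, norm_one]
        exact div_le_one_of_le₀ (by linarith) (norm_nonneg _)
      · field_simp
        linear_combination h1

/-- Odd `c`, `u = 1` modulo `4`. Proof: `x² - u y²` takes all odd values modulo `8` if `u = 5`, and `u` is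
a square if `u = 1` modulo `8`; numbers `1` modulo `8` are squares. -/
theorem hp_two_unit {u c : ℤ} (hu : u % 4 = 1) (hc : c % 2 = 1) : hp ⟨2, Nat.prime_two⟩ u c := by
  rcases (by omega : u % 8 = 1 ∨ u % 8 = 5) with hu1 | hu5
  · obtain ⟨x, y, h⟩ := QC_split hu1 (c : ℚ_[2])
    refine ⟨x, y, ?_⟩
    push_cast
    exact h
  · -- a value congruent to `c`
    have hval : ∃ X Y : ℤ, (X ^ 2 - u * Y ^ 2 - c) % 8 = 0 := by
      rcases (by omega : c % 8 = 1 ∨ c % 8 = 3 ∨ c % 8 = 5 ∨ c % 8 = 7) with h | h | h | h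
      · exact ⟨1, 0, by omega⟩
      · exact ⟨0, 1, by omega⟩
      · exact ⟨1, 2, by omega⟩
      · exact ⟨2, 1, by omega⟩
    obtain ⟨X, Y, hXY⟩ := hval
    obtain ⟨b, hb⟩ : ∃ b : ℤ, b = X ^ 2 - u * Y ^ 2 := ⟨_, rfl⟩
    rw [← hb] at hXY
    have hbc : (c * b) % 8 = 1 := by
      obtain ⟨m, hm⟩ : ∃ m : ℤ, b = c + 8 * m := ⟨(b - c) / 8, by omega⟩
      have hcc : (c * c) % 8 = 1 := by
        rw [Int.mul_emod]
        rcases (by omega : c % 8 = 1 ∨ c % 8 = 3 ∨ c % 8 = 5 ∨ c % 8 = 7) with h | h | h | h <;>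
          rw [h] <;> norm_num
      have h1 : c * b = c * c + 8 * (c * m) := by rw [hm]; ring
      rw [h1]
      omega
    have hb0 : (b : ℚ_[2]) ≠ 0 := by
      intro h
      have h3 : b = 0 := by exact_mod_cast h
      rw [h3] at hbc
      norm_num at hbc
    obtain ⟨w, hw⟩ := QC_sq (c * b) hbc
    have hw' : (w : ℚ_[2]) ^ 2 = c * b := by
      have := congrArg (fun t : ℤ_[2] => (t : ℚ_[2])) hw
      push_cast at this
      exact this
    have hb' : (b : ℚ_[2]) = (X : ℚ_[2]) ^ 2 - u * (Y : ℚ_[2]) ^ 2 := by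
      rw [hb]
      push_cast
      ring
    refine ⟨(w : ℚ_[2]) / b * X, (w : ℚ_[2]) / b * Y, ?_⟩
    push_cast
    have h5 : ((w : ℚ_[2]) / b * X) ^ 2 - (u : ℚ_[2]) * ((w : ℚ_[2]) / b * Y) ^ 2 =
        (w : ℚ_[2]) ^ 2 / b ^ 2 * ((X : ℚ_[2]) ^ 2 - u * (Y : ℚ_[2]) ^ 2) := by
      rw [mul_pow, mul_pow, div_pow]
      ring
    rw [h5, ← hb', hw']
    field_simp

theorem QC_two : ((2 : ℤ_[2]) : ℚ_[2]) = 2 := rfl

/-- for `u = 5` modulo `8` the values `x² - u y²` have even valuation -/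
theorem QC_norm_form {u : ℤ} (hu : u % 8 = 5) (x y : ℚ_[2]) :
    ∃ z : ℚ_[2], ‖x ^ 2 - (u : ℚ_[2]) * y ^ 2‖ = ‖z‖ ^ 2 := by
  have hud : ¬ ((2 : ℕ) : ℤ) ∣ u := by
    push_cast
    omega
  have hun : ‖(u : ℚ_[2])‖ = 1 := by
    have h := QB_norm_int (q := 2) hud
    rw [PadicInt.norm_def] at h
    exact_mod_cast h
  have hnx : ‖x ^ 2‖ = ‖x‖ ^ 2 := norm_pow x 2
  have hny : ‖(u : ℚ_[2]) * y ^ 2‖ = ‖y‖ ^ 2 := by rw [norm_mul, hun, one_mul, norm_pow]
  by_cases hxy : ‖x‖ = ‖y‖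
  · by_cases hy : y = 0
    · rw [hy, norm_zero, norm_eq_zero] at hxy
      refine ⟨0, ?_⟩
      rw [hxy, hy]
      simp
    · have hy0 : ‖y‖ ≠ 0 := norm_ne_zero_iff.2 hy
      have ht : ‖x / y‖ = 1 := by rw [norm_div, hxy, div_self hy0]
      set T : ℤ_[2] := ⟨x / y, ht.le⟩ with hT
      have hTu : IsUnit T := PadicInt.isUnit_iff.2 ht
      obtain ⟨T', hT'⟩ := hTu.exists_right_inv
      have h8 : (PadicInt.toZModPow (p := 2) 3) T ^ 2 = 1 := by
        have h1 := congrArg (PadicInt.toZModPow (p := 2) 3) hT'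
        rw [map_mul, map_one] at h1
        exact QC_eight _ _ h1
      have hmem : T ^ 2 - 1 ∈ RingHom.ker (PadicInt.toZModPow (p := 2) 3) := by
        rw [RingHom.mem_ker, map_sub, map_pow, map_one, h8, sub_self]
      rw [PadicInt.ker_toZModPow, Ideal.mem_span_singleton] at hmem
      obtain ⟨s, hs⟩ := hmem
      obtain ⟨m, hm⟩ : ∃ m : ℤ, u = 5 + 8 * m := ⟨u / 8, by omega⟩
      refine ⟨2 * y, ?_⟩
      have h2 : x ^ 2 - (u : ℚ_[2]) * y ^ 2 =
          ((2 ^ 2 * (-1 + 2 * (s - m)) : ℤ_[2]) : ℚ_[2]) * y ^ 2 := by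
        have h3 : (T : ℚ_[2]) ^ 2 - 1 = 2 ^ 3 * (s : ℚ_[2]) := by
          have := congrArg (fun t : ℤ_[2] => (t : ℚ_[2])) hs
          push_cast at this
          exact this
        have h4 : (T : ℚ_[2]) = x / y := rfl
        rw [h4, div_pow] at h3
        have h6 : x ^ 2 = (1 + 2 ^ 3 * (s : ℚ_[2])) * y ^ 2 := by
          field_simp at h3
          linear_combination h3
        rw [h6, hm]
        push_cast
        rw [QC_two]
        ring
      have h7 : ‖(-1 + 2 * (s - m) : ℤ_[2])‖ = 1 := by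
        refine le_antisymm (PadicInt.norm_le_one _) (not_lt.1 fun h => ?_)
        have h9 : ‖(2 * (s - m) : ℤ_[2])‖ < 1 := by
          rw [norm_mul]
          have h10 : ‖(2 : ℤ_[2])‖ = (2 : ℝ)⁻¹ := by
            have h := PadicInt.norm_p (p := 2)
            exact_mod_cast h
          rw [h10]
          have h11 := PadicInt.norm_le_one (s - (m : ℤ_[2]))
          nlinarith [norm_nonneg (s - (m : ℤ_[2]))]
        have h12 : ‖(1 : ℤ_[2])‖ < 1 := by
          have h13 : (1 : ℤ_[2]) = 2 * (s - m) + -(-1 + 2 * (s - m)) := by ring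
          rw [h13]
          exact (PadicInt.nonarchimedean _ _).trans_lt (max_lt h9 (by rw [norm_neg]; exact h))
        rw [norm_one] at h12
        exact lt_irrefl _ h12
      have h14 : ‖((2 : ℤ_[2]) : ℚ_[2])‖ = ‖(2 : ℚ_[2])‖ := by rw [QC_two]
      rw [h2, norm_mul, ← PadicInt.norm_def, norm_mul, h7, mul_one, norm_pow, norm_pow, norm_mul,
        PadicInt.norm_def, h14]
      ring
  · have hne : ‖x ^ 2‖ ≠ ‖(u : ℚ_[2]) * y ^ 2‖ := by
      rw [hnx, hny]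
      intro h
      exact hxy ((pow_left_inj₀ (norm_nonneg x) (norm_nonneg y) two_ne_zero).1 h)
    have h1 : ‖x ^ 2 - (u : ℚ_[2]) * y ^ 2‖ = max ‖x ^ 2‖ ‖(u : ℚ_[2]) * y ^ 2‖ := by
      have h2 := Padic.add_eq_max_of_ne (q := x ^ 2) (r := -((u : ℚ_[2]) * y ^ 2))
        (by rw [norm_neg]; exact hne)
      rw [norm_neg] at h2
      rw [sub_eq_add_neg]
      exact h2
    rcases max_choice ‖x ^ 2‖ ‖(u : ℚ_[2]) * y ^ 2‖ with h | h
    · exact ⟨x, by rw [h1, h, hnx]⟩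
    · exact ⟨y, by rw [h1, h, hny]⟩

/-- `2` and `u = 1` modulo `4`. Proof: for `u = 5` modulo `8` the values `x² - u y²` have even
valuation. -/
theorem hp_two_two {u : ℤ} (hu : u % 4 = 1) : hp ⟨2, Nat.prime_two⟩ u 2 ↔ u % 8 = 1 := by
  constructor
  · rintro ⟨x, y, h⟩
    by_contra hne
    push_cast at h
    obtain ⟨z, hz⟩ := QC_norm_form (by omega : u % 8 = 5) x y
    rw [← h] at hz
    have h2 : ‖(2 : ℚ_[2])‖ = ((2 : ℕ) : ℝ)⁻¹ := by
      have h := Padic.norm_p (p := 2)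
      exact_mod_cast h
    rw [h2] at hz
    exact QB_norm_sq_ne z hz.symm
  · intro h1
    obtain ⟨x, y, h⟩ := QC_split h1 (2 : ℚ_[2])
    refine ⟨x, y, ?_⟩
    push_cast
    exact h

end Dr
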