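import Pool.Agent.Lib.MP_f80667_ag.Dr.QB
import Pool.Agent.Lib.MP_f80667_ag.Dr.QC

/-! Quadratic reciprocity: the product formula over `ℚ`. -/

open IsDedekindDomain NumberField

namespace Dr

open Hm

/-! ### Local calculus -/

theorem QD_symm (p : Nat.Primes) (b c : ℚˣ) : hp p b c ↔ hp p c b := by
  have h1 := mem_LNm_Q (Rat.HeightOneSpectrum.primesEquiv.symm p) b c
  have h2 := mem_LNm_Q (Rat.HeightOneSpectrum.primesEquiv.symm p) c b
  rw [Equiv.apply_symm_apply] at h1 h2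
  rw [← h1, ← h2]
  exact LNm_comm

theorem QD_mul (p : Nat.Primes) (b c d : ℚˣ) :
    hp p b ((c * d : ℚˣ) : ℚ) ↔ (hp p b c ↔ hp p b d) := by
  have h1 := mem_LNm_Q (Rat.HeightOneSpectrum.primesEquiv.symm p) b c
  have h2 := mem_LNm_Q (Rat.HeightOneSpectrum.primesEquiv.symm p) b d
  have h3 := mem_LNm_Q (Rat.HeightOneSpectrum.primesEquiv.symm p) b (c * d)
  rw [Equiv.apply_symm_apply] at h1 h2 h3
  rw [← h1, ← h2, ← h3]
  exact LNm_mul_iff

/-- a nonzero integer as a unit of `ℚ` -/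
def uZ (n : ℤ) (h : n ≠ 0) : ℚˣ := Units.mk0 (n : ℚ) (Int.cast_ne_zero.2 h)

theorem uZ_coe (n : ℤ) (h : n ≠ 0) : ((uZ n h : ℚˣ) : ℚ) = n := rfl

theorem uZ_neg_one : uZ (-1) (by norm_num) = -1 := by
  apply Units.ext
  rw [uZ_coe, Units.val_neg, Units.val_one]
  norm_num

theorem uZ_mul (m n : ℤ) (hm : m ≠ 0) (hn : n ≠ 0) (hmn : m * n ≠ 0) :
    uZ (m * n) hmn = uZ m hm * uZ n hn := by
  apply Units.ext
  rw [uZ_coe, Units.val_mul, uZ_coe, uZ_coe]
  push_cast
  rfl

theorem QD_symmZ (p : Nat.Primes) {b c : ℤ} (hb : b ≠ 0) (hc : c ≠ 0) : hp p b c ↔ hp p c b :=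
  QD_symm p (uZ b hb) (uZ c hc)

theorem QD_negZ (p : Nat.Primes) {b c : ℤ} (hb : b ≠ 0) (hc : c ≠ 0)
    (h : hp p b ((-1 : ℤ) : ℚ)) : hp p b ((-c : ℤ) : ℚ) ↔ hp p b c := by
  have h1 := QD_mul p (uZ b hb) (uZ (-1) (by norm_num)) (uZ c hc)
  rw [← uZ_mul (-1) c (by norm_num) hc (by simpa using hc)] at h1
  rw [uZ_coe, uZ_coe, uZ_coe, uZ_coe] at h1
  have h2 : (-1 : ℤ) * c = -c := by ring
  rw [h2] at h1
  rw [h1]
  exact ⟨fun h3 => h3.1 h, fun h3 => ⟨fun _ => h3, fun _ => h⟩⟩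

theorem QD_one (p : Nat.Primes) : ¬ (p.1 : ℤ) ∣ -1 := by
  intro h
  rw [dvd_neg] at h
  have h1 : p.1 ∣ 1 := by exact_mod_cast h
  exact p.2.one_lt.ne' (Nat.dvd_one.1 h1)

theorem QD_prime {p : Nat.Primes} {q : ℕ} (hq : q.Prime) (hpq : p.1 ≠ q) : ¬ (p.1 : ℤ) ∣ q := by
  intro h
  have h1 : p.1 ∣ q := by exact_mod_cast h
  exact hpq ((Nat.prime_dvd_prime_iff_eq p.2 hq).1 h1)

/-- `p* = ± p` -/
def star (p : ℕ) : ℤ := if p % 4 = 1 then p else -p

theorem star_or (p : ℕ) : star p = p ∨ star p = -p := by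
  unfold star
  split_ifs
  · exact Or.inl rfl
  · exact Or.inr rfl

theorem star_ne {p : ℕ} (hp : p.Prime) : star p ≠ 0 := by
  have := hp.pos
  rcases star_or p with h | h <;> rw [h] <;> omega

theorem star_mod {p : ℕ} (hodd : p % 2 = 1) : star p % 4 = 1 := by
  unfold star
  split_ifs with h <;> omega

theorem star_ndvd {p : Nat.Primes} {q : ℕ} (hq : q.Prime) (hpq : p.1 ≠ q) :
    ¬ (p.1 : ℤ) ∣ star q := by
  rcases star_or q with h | h
  · rw [h]
    exact QD_prime hq hpq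
  · rw [h, dvd_neg]
    exact QD_prime hq hpq

/-- the symbol `(u, p*)` at `p` -/
theorem QD_at (p : Nat.Primes) (hp2 : p.1 ≠ 2) [Fact p.1.Prime] {u : ℤ}
    (hu : ¬ (p.1 : ℤ) ∣ u) : hp p u (star p.1) ↔ legendreSym p.1 u = 1 := by
  have hu0 : u ≠ 0 := by
    rintro rfl
    exact hu (dvd_zero _)
  have hp0 : ((p.1 : ℕ) : ℤ) ≠ 0 := by exact_mod_cast p.2.ne_zero
  have h1 : hp p u (((p.1 : ℕ) : ℤ) : ℚ) ↔ legendreSym p.1 u = 1 := by
    have h2 := hp_prime hp2 hu
    rw [Int.cast_natCast]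
    exact h2
  rcases star_or p.1 with h | h
  · rw [h]
    exact h1
  · rw [h, QD_negZ p hu0 hp0 (hp_unit hp2 hu (QD_one p))]
    exact h1

/-! ### The number of ramified places -/

open Classical in
theorem QD_tot (b c : ℤ) (hb : b ≠ 0) (hc : c ≠ 0) (S : Finset Nat.Primes)
    (hS : ∀ l, l ∉ S → hp l b c) : tot (uZ b hb) (uZ c hc) =
      ∑ l ∈ S, (if hp l b c then 0 else 1) + (if b < 0 ∧ c < 0 then 1 else 0) := by
  rw [tot_Q, uZ_coe, uZ_coe]
  have h1 : Nat.card {p : Nat.Primes // ¬ hp p b c} = (S.filter fun l => ¬ hp l b c).card := by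
    refine Nat.subtype_card _ fun l => ?_
    rw [Finset.mem_filter]
    exact ⟨fun h => h.2, fun h => ⟨by_contra fun h' => h (hS l h'), h⟩⟩
  rw [h1, Finset.card_filter]
  congr 1
  · refine Finset.sum_congr rfl fun l _ => ?_
    by_cases h : hp l b c
    · rw [if_pos h, if_neg (not_not.2 h)]
    · rw [if_neg h, if_pos h]
  · have h2 : ((b : ℚ) < 0 ∧ (c : ℚ) < 0) ↔ (b < 0 ∧ c < 0) := by
      rw [Int.cast_lt_zero, Int.cast_lt_zero]
    by_cases h : b < 0 ∧ c < 0
    · rw [if_pos h, if_pos (h2.2 h)]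
    · rw [if_neg h, if_neg fun h' => h (h2.1 h')]

open Classical in
theorem QD_tot_pair (b c : ℤ) (hb : b ≠ 0) (hc : c ≠ 0) (p0 p1 : Nat.Primes) (hne : p0 ≠ p1)
    (hS : ∀ l, l ≠ p0 → l ≠ p1 → hp l b c) : tot (uZ b hb) (uZ c hc) =
      ((if hp p0 b c then 0 else 1) + (if hp p1 b c then 0 else 1)) +
        (if b < 0 ∧ c < 0 then 1 else 0) := by
  rw [QD_tot b c hb hc {p0, p1} fun l hl => ?_, Finset.sum_pair hne]
  rw [Finset.mem_insert, Finset.mem_singleton, not_or] at hl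
  exact hS l hl.1 hl.2

theorem QD_self (b : ℚˣ) (h : Even (tot b (-1))) : Even (tot b b) := by
  have h1 := tot_mul b (-1) b
  rw [neg_one_mul, tot_neg, zero_add] at h1
  rw [Nat.even_iff] at h ⊢
  omega

theorem QD_neg_neg : Even (tot (-1 : ℚˣ) (-1)) := by
  classical
  rw [← uZ_neg_one, QD_tot (-1) (-1) _ _ {⟨2, Nat.prime_two⟩} fun l hl => ?_]
  · rw [Finset.sum_singleton, if_neg, if_pos (by norm_num)]
    · decide
    · intro h
      apply hp_two_neg
      have h1 : (((-1 : ℤ) : ℤ) : ℚ) = -1 := by norm_num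
      rw [h1] at h
      exact h
  · refine hp_unit (fun h2 => hl ?_) (QD_one l) (QD_one l)
    rw [Finset.mem_singleton]
    exact Subtype.ext h2

theorem QD_neg_two : Even (tot (-1 : ℚˣ) (uZ 2 (by norm_num))) := by
  classical
  rw [← uZ_neg_one, QD_tot (-1) 2 _ _ ∅ fun l _ => ?_]
  · rw [Finset.sum_empty, if_neg (by norm_num)]
    decide
  · refine ⟨1, 1, ?_⟩
    push_cast
    norm_num

theorem QD_two_two : Even (tot (uZ 2 (by norm_num)) (uZ 2 (by norm_num))) := by
  apply QD_self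
  rw [tot_comm]
  exact QD_neg_two

theorem QD_star_neg {p : ℕ} (hpp : p.Prime) (hp2 : p ≠ 2) :
    Even (tot (uZ (star p) (star_ne hpp)) (-1)) := by
  classical
  haveI : Fact p.Prime := ⟨hpp⟩
  have hodd : p % 2 = 1 := hpp.eq_two_or_odd.resolve_left hp2
  have hstar0 := star_ne hpp
  rw [← uZ_neg_one, QD_tot (star p) (-1) _ _ {⟨p, hpp⟩} fun l hl => ?_]
  · have h1 : hp ⟨p, hpp⟩ (star p) ((-1 : ℤ) : ℚ) ↔ p % 4 = 1 := by
      rw [QD_symmZ _ hstar0 (by norm_num), QD_at ⟨p, hpp⟩ hp2 (QD_one ⟨p, hpp⟩),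
        legendreSym.eq_one_iff p (by
          push_cast
          rw [neg_ne_zero]
          exact one_ne_zero)]
      push_cast
      rw [ZMod.exists_sq_eq_neg_one_iff]
      omega
    rw [Finset.sum_singleton]
    have hpos := hpp.pos
    unfold star at *
    by_cases h4 : p % 4 = 1
    · rw [if_pos (h1.2 h4), if_pos h4, if_neg (by omega)]
      decide
    · rw [if_neg (fun h => h4 (h1.1 h)), if_neg h4, if_pos (by omega)]
      decide
  · have hlp : l.1 ≠ p := fun h => hl (by rw [Finset.mem_singleton]; exact Subtype.ext h)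
    by_cases hl2 : l.1 = 2
    · have h2 : l = ⟨2, Nat.prime_two⟩ := Subtype.ext hl2
      rw [h2]
      exact hp_two_unit (star_mod hodd) (by norm_num)
    · exact hp_unit hl2 (star_ndvd hpp hlp) (QD_one l)

theorem QD_star_two {p : ℕ} (hpp : p.Prime) (hp2 : p ≠ 2) :
    Even (tot (uZ (star p) (star_ne hpp)) (uZ 2 (by norm_num))) := by
  classical
  haveI : Fact p.Prime := ⟨hpp⟩
  have hodd : p % 2 = 1 := hpp.eq_two_or_odd.resolve_left hp2
  have hstar0 := star_ne hpp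
  have hne : (⟨2, Nat.prime_two⟩ : Nat.Primes) ≠ ⟨p, hpp⟩ := fun h =>
    hp2 (congrArg Subtype.val h).symm
  rw [QD_tot_pair (star p) 2 _ _ ⟨2, Nat.prime_two⟩ ⟨p, hpp⟩ hne fun l hl2' hlp' => ?_]
  · have hn2 : ¬ (((⟨p, hpp⟩ : Nat.Primes) : ℕ) : ℤ) ∣ 2 := by
      have := QD_prime (p := ⟨p, hpp⟩) Nat.prime_two hp2
      exact_mod_cast this
    have h1 : hp ⟨p, hpp⟩ (star p) ((2 : ℤ) : ℚ) ↔ p % 8 = 1 ∨ p % 8 = 7 := by
      rw [QD_symmZ _ hstar0 (by norm_num), QD_at ⟨p, hpp⟩ hp2 hn2,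
        legendreSym.eq_one_iff p (by
          intro h
          exact hn2 ((ZMod.intCast_zmod_eq_zero_iff_dvd 2 p).1 h))]
      push_cast
      rw [ZMod.exists_sq_eq_two_iff hp2]
    have h2 : hp ⟨2, Nat.prime_two⟩ (star p) ((2 : ℤ) : ℚ) ↔ star p % 8 = 1 := by
      rw [show (((2 : ℤ) : ℤ) : ℚ) = 2 by norm_num]
      exact hp_two_two (star_mod hodd)
    have h3 : star p % 8 = 1 ↔ p % 8 = 1 ∨ p % 8 = 7 := by
      unfold star
      split_ifs with h4 <;> omega
    have h4 : ¬ (star p < 0 ∧ (2 : ℤ) < 0) := fun h => absurd h.2 (by norm_num)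
    rw [if_neg h4, add_zero]
    by_cases h : p % 8 = 1 ∨ p % 8 = 7
    · rw [if_pos (h1.2 h), if_pos (h2.2 (h3.2 h))]
      decide
    · rw [if_neg (fun h' => h (h1.1 h')), if_neg (fun h' => h (h3.1 (h2.1 h')))]
      decide
  · have hl2 : l.1 ≠ 2 := fun h => hl2' (Subtype.ext h)
    have hlp : l.1 ≠ p := fun h => hlp' (Subtype.ext h)
    refine hp_unit hl2 (star_ndvd hpp hlp) ?_
    have := QD_prime (p := l) Nat.prime_two hl2
    exact_mod_cast this

theorem QD_legendre {p q : ℕ} [Fact p.Prime] [Fact q.Prime] (hp2 : p ≠ 2) (hq2 : q ≠ 2)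
    (hpq : p ≠ q) : (legendreSym q (star p) = 1 ↔ legendreSym p (star q) = 1) ↔
      ¬ (p % 4 = 3 ∧ q % 4 = 3) := by
  have hop : p % 2 = 1 := (Fact.out : p.Prime).eq_two_or_odd.resolve_left hp2
  have hoq : q % 2 = 1 := (Fact.out : q.Prime).eq_two_or_odd.resolve_left hq2
  have hm1 : ∀ (r : ℕ) [Fact r.Prime], r ≠ 2 → r % 4 = 1 → legendreSym r (-1) = 1 := by
    intro r _ hr2 hr
    rw [legendreSym.eq_one_iff r (by push_cast; rw [neg_ne_zero]; exact one_ne_zero)]
    push_cast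
    rw [ZMod.exists_sq_eq_neg_one_iff]
    omega
  have hm3 : ∀ (r : ℕ) [Fact r.Prime], r ≠ 2 → r % 4 = 3 → legendreSym r (-1) = -1 := by
    intro r _ hr2 hr
    have h0 : (((-1 : ℤ) : ℤ) : ZMod r) ≠ 0 := by push_cast; rw [neg_ne_zero]; exact one_ne_zero
    refine (legendreSym.eq_one_or_neg_one r h0).resolve_left fun h => ?_
    rw [legendreSym.eq_one_iff r h0] at h
    push_cast at h
    rw [ZMod.exists_sq_eq_neg_one_iff] at h
    omega
  have hneg : ∀ (r : ℕ) [Fact r.Prime] (s : ℕ), legendreSym r (-(s : ℤ)) =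
      legendreSym r (-1) * legendreSym r s := by
    intro r _ s
    rw [← legendreSym.mul]
    congr 1
    ring
  have hval : ∀ (r s : ℕ) [Fact r.Prime], s.Prime → s ≠ r →
      legendreSym r (s : ℤ) = 1 ∨ legendreSym r (s : ℤ) = -1 := by
    intro r s _ hs hsr
    refine legendreSym.eq_one_or_neg_one r fun h => ?_
    rw [ZMod.intCast_zmod_eq_zero_iff_dvd] at h
    have h1 : r ∣ s := by exact_mod_cast h
    exact hsr ((Nat.prime_dvd_prime_iff_eq (Fact.out : r.Prime) hs).1 h1).symm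
  have hv := hval p q (Fact.out : q.Prime) hpq.symm
  unfold star
  rcases (by omega : p % 4 = 1 ∨ p % 4 = 3) with h1 | h1 <;>
    rcases (by omega : q % 4 = 1 ∨ q % 4 = 3) with h2 | h2
  · rw [if_pos h1, if_pos h2, legendreSym.quadratic_reciprocity_one_mod_four h1 hq2]
    exact ⟨fun _ h => by omega, fun _ => Iff.rfl⟩
  · rw [if_pos h1, if_neg (by omega), legendreSym.quadratic_reciprocity_one_mod_four h1 hq2,
      hneg, hm1 p hp2 h1, one_mul]
    exact ⟨fun _ h => by omega, fun _ => Iff.rfl⟩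
  · rw [if_neg (by omega), if_pos h2, hneg, hm1 q hq2 h2, one_mul,
      legendreSym.quadratic_reciprocity_one_mod_four h2 hp2]
    exact ⟨fun _ h => by omega, fun _ => Iff.rfl⟩
  · rw [if_neg (by omega), if_neg (by omega), hneg, hneg, hm3 p hp2 h1, hm3 q hq2 h2,
      legendreSym.quadratic_reciprocity_three_mod_four h1 h2]
    refine ⟨fun h => ?_, fun h => absurd ⟨h1, h2⟩ h⟩
    rcases hv with h3 | h3 <;> rw [h3] at h <;> norm_num at h

theorem QD_star_star {p q : ℕ} (hpp : p.Prime) (hqp : q.Prime) (hp2 : p ≠ 2) (hq2 : q ≠ 2)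
    (hpq : p ≠ q) : Even (tot (uZ (star p) (star_ne hpp)) (uZ (star q) (star_ne hqp))) := by
  classical
  haveI : Fact p.Prime := ⟨hpp⟩
  haveI : Fact q.Prime := ⟨hqp⟩
  have hop : p % 2 = 1 := hpp.eq_two_or_odd.resolve_left hp2
  have hoq : q % 2 = 1 := hqp.eq_two_or_odd.resolve_left hq2
  have hne : (⟨p, hpp⟩ : Nat.Primes) ≠ ⟨q, hqp⟩ := fun h => hpq (congrArg Subtype.val h)
  rw [QD_tot_pair (star p) (star q) _ _ ⟨p, hpp⟩ ⟨q, hqp⟩ hne fun l hlp' hlq' => ?_]
  · have h1 : hp ⟨p, hpp⟩ (star p) (star q) ↔ legendreSym p (star q) = 1 := by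
      rw [QD_symmZ _ (star_ne hpp) (star_ne hqp)]
      exact QD_at ⟨p, hpp⟩ hp2 (star_ndvd hqp hpq)
    have h2 : hp ⟨q, hqp⟩ (star p) (star q) ↔ legendreSym q (star p) = 1 :=
      QD_at ⟨q, hqp⟩ hq2 (star_ndvd hpp hpq.symm)
    have h3 : (star p < 0 ∧ star q < 0) ↔ (p % 4 = 3 ∧ q % 4 = 3) := by
      have := hpp.pos
      have := hqp.pos
      unfold star
      split_ifs <;> omega
    have h4 := QD_legendre hp2 hq2 hpq
    by_cases h5 : p % 4 = 3 ∧ q % 4 = 3
    · rw [if_pos (h3.2 h5)]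
      have h6 : ¬ (legendreSym q (star p) = 1 ↔ legendreSym p (star q) = 1) := fun h =>
        h4.1 h h5
      by_cases h7 : legendreSym p (star q) = 1
      · have h8 : ¬ legendreSym q (star p) = 1 := fun h => h6 ⟨fun _ => h7, fun _ => h⟩
        rw [if_pos (h1.2 h7), if_neg (fun h => h8 (h2.1 h))]
        decide
      · have h8 : legendreSym q (star p) = 1 := by
          by_contra h
          exact h6 ⟨fun h' => absurd h' h, fun h' => absurd h' h7⟩
        rw [if_neg (fun h => h7 (h1.1 h)), if_pos (h2.2 h8)]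
        decide
    · rw [if_neg (fun h => h5 (h3.1 h))]
      have h6 := h4.2 h5
      by_cases h7 : legendreSym p (star q) = 1
      · rw [if_pos (h1.2 h7), if_pos (h2.2 (h6.2 h7))]
        decide
      · rw [if_neg (fun h => h7 (h1.1 h)), if_neg (fun h => h7 (h6.1 (h2.1 h)))]
        decide
  · have hlp : l.1 ≠ p := fun h => hlp' (Subtype.ext h)
    have hlq : l.1 ≠ q := fun h => hlq' (Subtype.ext h)
    by_cases hl2 : l.1 = 2
    · have h2 : l = ⟨2, Nat.prime_two⟩ := Subtype.ext hl2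
      rw [h2]
      have := star_mod hoq
      exact hp_two_unit (star_mod hop) (by omega)
    · exact hp_unit hl2 (star_ndvd hpp hlp) (star_ndvd hqp hlq)

/-! ### Bimultiplicativity -/

/-- the `c` with an even number of places -/
def QD_ev (b : ℚˣ) : Subgroup ℚˣ where
  carrier := {c | Even (tot b c)}
  one_mem' := by
    have h := tot_sq b 1
    rw [one_pow] at h
    change Even (tot b 1)
    rw [h]
    exact Even.zero
  mul_mem' := by
    intro c d hc hd
    change Even (tot b (c * d))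
    change Even (tot b c) at hc
    change Even (tot b d) at hd
    have h := tot_mul b c d
    rw [Nat.even_iff] at hc hd ⊢
    omega
  inv_mem' := by
    intro c hc
    change Even (tot b c⁻¹)
    change Even (tot b c) at hc
    have h := tot_mul b c c⁻¹
    have h1 := tot_sq b 1
    rw [one_pow] at h1
    rw [mul_inv_cancel, h1] at h
    rw [Nat.even_iff] at hc ⊢
    omega

theorem QD_gen (H : Subgroup ℚˣ) (h1 : -1 ∈ H) (h2 : uZ 2 (by norm_num) ∈ H)
    (hs : ∀ (p : ℕ) (hp : p.Prime), p ≠ 2 → uZ (star p) (star_ne hp) ∈ H) : H = ⊤ := by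
  have hneg : ∀ (n : ℤ) (h : n ≠ 0) (h' : -n ≠ 0), uZ n h ∈ H → uZ (-n) h' ∈ H := by
    intro n h h' hn
    have h3 : uZ (-n) h' = -1 * uZ n h := by
      apply Units.ext
      rw [neg_one_mul, Units.val_neg, uZ_coe, uZ_coe]
      push_cast
      rfl
    rw [h3]
    exact H.mul_mem h1 hn
  have hprime : ∀ (p : ℕ) (_ : p.Prime) (h : (p : ℤ) ≠ 0), uZ p h ∈ H := by
    intro p hp h
    by_cases hp2 : p = 2
    · subst hp2
      exact h2
    · have h3 := hs p hp hp2
      rcases star_or p with h4 | h4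
      · have h5 : uZ (star p) (star_ne hp) = uZ p h := by
          apply Units.ext
          rw [uZ_coe, uZ_coe, h4]
        rwa [h5] at h3
      · have h5 : uZ (star p) (star_ne hp) = uZ (-p) (neg_ne_zero.2 h) := by
          apply Units.ext
          rw [uZ_coe, uZ_coe, h4]
        rw [h5] at h3
        have h6 := hneg (-p) (neg_ne_zero.2 h) (by rw [neg_neg]; exact h) h3
        have h7 : uZ (-(-(p : ℤ))) (by rw [neg_neg]; exact h) = uZ p h := by
          apply Units.ext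
          rw [uZ_coe, uZ_coe, neg_neg]
        rwa [h7] at h6
  have hnat : ∀ (n : ℕ) (h : (n : ℤ) ≠ 0), uZ n h ∈ H := by
    intro n
    induction n using induction_on_primes with
    | zero => intro h; exact absurd rfl h
    | one =>
      intro h
      have h3 : uZ ((1 : ℕ) : ℤ) h = 1 := by
        apply Units.ext
        rw [uZ_coe]
        norm_num
      rw [h3]
      exact H.one_mem
    | prime_mul p a hp ih =>
      intro h
      have hp0 : (p : ℤ) ≠ 0 := by exact_mod_cast hp.ne_zero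
      have ha0 : (a : ℤ) ≠ 0 := by
        intro ha
        apply h
        push_cast
        rw [ha, mul_zero]
      have h3 : uZ ((p * a : ℕ) : ℤ) h = uZ p hp0 * uZ a ha0 := by
        apply Units.ext
        rw [Units.val_mul, uZ_coe, uZ_coe, uZ_coe]
        push_cast
        rfl
      rw [h3]
      exact H.mul_mem (hprime p hp hp0) (ih ha0)
  have hint : ∀ (n : ℤ) (h : n ≠ 0), uZ n h ∈ H := by
    intro n h
    obtain ⟨m, rfl | rfl⟩ := n.eq_nat_or_neg
    · exact hnat m h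
    · exact hneg m (neg_ne_zero.1 h) h (hnat m (neg_ne_zero.1 h))
  rw [eq_top_iff]
  intro q _
  have hn : (q : ℚ).num ≠ 0 := Rat.num_ne_zero.2 q.ne_zero
  have hd : ((q : ℚ).den : ℤ) ≠ 0 := by exact_mod_cast (q : ℚ).den_ne_zero
  have h3 : q = uZ (q : ℚ).num hn * (uZ (q : ℚ).den hd)⁻¹ := by
    rw [eq_mul_inv_iff_mul_eq]
    apply Units.ext
    rw [Units.val_mul, uZ_coe, uZ_coe]
    exact_mod_cast Rat.mul_den_eq_num (q : ℚ)
  rw [h3]
  exact H.mul_mem (hint _ hn) (H.inv_mem (hint _ hd))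

/-- **The product formula over `ℚ`.** Proof: both arguments are products of `-1`, `2` and the
`p* = ± p = 1` modulo `4` (`p` odd) up to squares; by `tot_mul`, `tot_mul_left`, `tot_sq`, `tot_comm` it is
enough to treat these. `(-1, -1)`: ramified at `2` and the real place (`hp_two_neg`, `hp_unit`).
`(-1, 2)`: `2 = 1 + 1`. `(2, 2)`: `tot_neg`. `(p*, -1)`: at `p` iff `p = 3` modulo `4`, at the real place
iff `p* < 0`, not at `2` (`hp_two_unit`). `(p*, 2)`: at `p` iff `p = ± 3` modulo `8` (second supplement),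
at `2` iff `p* = 5` modulo `8` (`hp_two_two`). `(p*, q*)`: `legendreSym.quadratic_reciprocity`.
`(p*, p*)`: `tot_neg` and `(p*, -1)`. -/
theorem tot_Q_even (b c : ℚˣ) : Even (tot b c) := by
  -- `-1`
  have h1 : QD_ev (-1) = ⊤ := by
    refine QD_gen _ QD_neg_neg QD_neg_two fun p hp hp2 => ?_
    change Even (tot (-1) _)
    rw [tot_comm]
    exact QD_star_neg hp hp2
  -- `2`
  have h2 : QD_ev (uZ 2 (by norm_num)) = ⊤ := by
    refine QD_gen _ ?_ QD_two_two fun p hp hp2 => ?_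
    · change Even (tot _ (-1))
      rw [tot_comm]
      exact QD_neg_two
    · change Even (tot (uZ 2 (by norm_num)) _)
      rw [tot_comm]
      exact QD_star_two hp hp2
  -- `p*`
  have h3 : ∀ (p : ℕ) (hp : p.Prime), p ≠ 2 → QD_ev (uZ (star p) (star_ne hp)) = ⊤ := by
    intro p hp hp2
    refine QD_gen _ (QD_star_neg hp hp2) (QD_star_two hp hp2) fun q hq hq2 => ?_
    by_cases hpq : p = q
    · subst hpq
      exact QD_self _ (QD_star_neg hp hp2)
    · exact QD_star_star hp hq hp2 hq2 hpq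
  have h4 : ∀ b' : ℚˣ, QD_ev b' = ⊤ → Even (tot c b') := by
    intro b' h
    have h5 : c ∈ QD_ev b' := by
      rw [h]
      exact Subgroup.mem_top c
    rw [tot_comm]
    exact h5
  have h6 : QD_ev c = ⊤ :=
    QD_gen _ (h4 _ h1) (h4 _ h2) fun p hp hp2 => h4 _ (h3 p hp hp2)
  have h7 : b ∈ QD_ev c := by
    rw [h6]
    exact Subgroup.mem_top b
  rw [tot_comm]
  exact h7

end Dr
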