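import Pool.Agent.Lib.MP_f80667_ag.Dr.Tot

/-! The ramified places above the places of a subfield. -/

open IsDedekindDomain NumberField

namespace Dr

open Hm

variable {K : Type} [Field K] [NumberField K]

/-- The places above the places of a subfield. Proof: the finite set of the ramified places is the
disjoint union of its fibres over the places of `F`. -/
theorem tot_fib {F : Type} [Field F] [NumberField F] [Algebra F K] (b a : Kˣ) :
    ∃ T : Finset (HeightOneSpectrum (𝓞 F)), (∀ p ∉ T, nF p a b = 0) ∧
      ∀ T' : Finset (HeightOneSpectrum (𝓞 F)), T ⊆ T' →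
        Nat.card {v : HeightOneSpectrum (𝓞 K) // a ∉ LNm v b} = ∑ p ∈ T', nF p a b := by
  classical
  have hfin : {v : HeightOneSpectrum (𝓞 K) | a ∉ LNm v b}.Finite := finite_LNm b a
  set A : Finset (HeightOneSpectrum (𝓞 K)) := hfin.toFinset with hA
  have hmem : ∀ v, v ∈ A ↔ a ∉ LNm v b := fun v => hfin.mem_toFinset
  have hnF : ∀ p : HeightOneSpectrum (𝓞 F), nF p a b = (A.filter fun v => v.under (𝓞 F) = p).card := by
    intro p
    unfold nF
    rw [← Nat.card_eq_finsetCard]
    refine Nat.card_congr (Equiv.subtypeEquivRight fun v => ?_)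
    rw [Finset.mem_filter, hmem]
    exact and_comm
  refine ⟨A.image fun v => v.under (𝓞 F), fun p hp => ?_, fun T' hT' => ?_⟩
  · rw [hnF, Finset.card_eq_zero, Finset.filter_eq_empty_iff]
    intro v hv h
    exact hp (Finset.mem_image.2 ⟨v, hv, h⟩)
  · have h1 : Nat.card {v : HeightOneSpectrum (𝓞 K) // a ∉ LNm v b} = A.card := by
      rw [← Nat.card_eq_finsetCard]
      exact Nat.card_congr (Equiv.subtypeEquivRight fun v => (hmem v).symm)
    rw [h1, Finset.card_eq_sum_card_fiberwise (f := fun v => v.under (𝓞 F)) (t := T')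
      (fun v hv => hT' (Finset.mem_image.2 ⟨v, hv, rfl⟩))]
    exact Finset.sum_congr rfl fun p _ => (hnF p).symm

end Dr
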