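import Pool.Agent.Lib.MP_f80667_ag.Dr.NA
import Pool.Agent.Lib.MP_f80667_ag.Dr.NB
import Pool.Agent.Lib.MP_f80667_ag.Dr.Ker4
import Pool.Agent.Lib.MP_f80667_ag.Dr.QD
import Pool.Agent.Lib.MP_f80667_ag.Dr.TotF

/-! Reciprocity for quaternion algebras over number fields. -/

open IsDedekindDomain NumberField Module

namespace Dr

open Hm

variable {K K' : Type} [Field K] [NumberField K] [Field K'] [NumberField K']

/-- **Reciprocity.** Proof: `exists_sgn`; `T = tr (sT ℚ c) (qnF b a)` has dimension `4 d`, `tr_ND`, `tr_DS`,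
`exists_def`, `exists_def_neg`, so `ker4` with `m = 2 d - 2` gives `α`, `b₀`, `a₀` and a Lagrangian of the sum;
`parity_K` with `K' = ℚ` at every `p`; sum over `p` (`tot_fib`), `tot_Q_even b₀ a₀`; the number of the
ramified real places is `rr 1 + rr (-1)`, of the parity of `σ`. -/
theorem tot_even (b a : Kˣ) : Even (tot b a) := by
  classical
  obtain ⟨c, σ, hσ, hr⟩ := exists_sgn b a
  have hd : 0 < finrank ℚ K := finrank_pos
  have hN := tr_ND (b := (b : K)) (a := (a : K)) (c := (c : K)) b.ne_zero a.ne_zero c.ne_zero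
  have hD := tr_DS (b := (b : K)) (a := (a : K)) (c := (c : K))
  have hP : PDQ (tr (sT ℚ (c : K)) (qnF (b : K) (a : K))) (2 * finrank ℚ K - 2 + 2 + 2 * σ) :=
    exists_def b.ne_zero a.ne_zero c.ne_zero (by omega)
  have hM : PDQ (-(tr (sT ℚ (c : K)) (qnF (b : K) (a : K)))) (2 * finrank ℚ K - 2 + 2 - 2 * σ) :=
    exists_def_neg b.ne_zero a.ne_zero c.ne_zero (by omega)
  obtain ⟨α, b₀, a₀, hσ1, W, hW⟩ := ker4 (2 * finrank ℚ K - 2) hN hD (by
    rw [finrank_pi_fintype]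
    simp only [Finset.sum_const, Finset.card_univ, Fintype.card_fin, smul_eq_mul]
    omega) σ hσ hP hM
  have hpar : ∀ p : HeightOneSpectrum (𝓞 ℚ), Even (nF p a b + nF p a₀ b₀) :=
    fun p => parity_K b a c b₀ a₀ (-α) hW p
  obtain ⟨T1, -, h1⟩ := tot_fib (F := ℚ) b a
  obtain ⟨T2, -, h2⟩ := tot_fib (F := ℚ) b₀ a₀
  have e1 := h1 (T1 ∪ T2) Finset.subset_union_left
  have e2 := h2 (T1 ∪ T2) Finset.subset_union_right
  have h3 : Even (Nat.card {v : HeightOneSpectrum (𝓞 K) // a ∉ LNm v b} +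
      Nat.card {v : HeightOneSpectrum (𝓞 ℚ) // a₀ ∉ LNm v b₀}) := by
    rw [e1, e2, ← Finset.sum_add_distrib]
    exact Finset.even_sum _ fun p _ => hpar p
  have h4 : Nat.card {φ : K →+* ℝ // φ (b : K) < 0 ∧ φ (a : K) < 0} =
      rr (b : K) a c 1 + rr (b : K) a c (-1) := by
    rw [rr, rr, Nat.card_eq_fintype_card, Nat.card_eq_fintype_card, Nat.card_eq_fintype_card,
      Fintype.card_subtype, Fintype.card_subtype, Fintype.card_subtype,
      ← Finset.card_filter_add_card_filter_not (s := Finset.univ.filter fun φ : K →+* ℝ =>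
        φ (b : K) < 0 ∧ φ (a : K) < 0) fun φ => 0 < φ (c : K), Finset.filter_filter,
      Finset.filter_filter]
    congr 2
    · ext φ
      rw [Finset.mem_filter, Finset.mem_filter, one_mul, and_assoc]
    · ext φ
      have h0 : φ (c : K) ≠ 0 := (map_ne_zero φ).2 c.ne_zero
      rw [Finset.mem_filter, Finset.mem_filter, neg_one_mul, neg_pos, and_assoc, not_lt]
      exact ⟨fun h => ⟨h.1, h.2.1, h.2.2.1, lt_of_le_of_ne h.2.2.2 h0⟩,
        fun h => ⟨h.1, h.2.1, h.2.2.1, h.2.2.2.le⟩⟩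
  have h5 : Nat.card {φ : ℚ →+* ℝ // φ (b₀ : ℚ) < 0 ∧ φ (a₀ : ℚ) < 0} = σ := by
    have hφ : ∀ (φ : ℚ →+* ℝ) (x : ℚ), φ x < 0 ↔ x < 0 := by
      intro φ x
      rw [eq_ratCast φ x]
      exact Rat.cast_lt_zero
    have hone : Subsingleton (ℚ →+* ℝ) := ⟨fun φ ψ => by
      ext x
      rw [eq_ratCast φ x, eq_ratCast ψ x]⟩
    simp only [hφ]
    by_cases h6 : σ = 1
    · have h7 := hσ1.2 h6
      have : Unique {φ : ℚ →+* ℝ // (b₀ : ℚ) < 0 ∧ (a₀ : ℚ) < 0} :=
        { default := ⟨Rat.castHom ℝ, h7⟩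
          uniq := fun φ => Subtype.ext (Subsingleton.elim _ _) }
      rw [Nat.card_unique, h6]
    · have : IsEmpty {φ : ℚ →+* ℝ // (b₀ : ℚ) < 0 ∧ (a₀ : ℚ) < 0} :=
        ⟨fun φ => h6 (hσ1.1 φ.2)⟩
      rw [Nat.card_of_isEmpty]
      omega
  have h6 := tot_Q_even b₀ a₀
  rw [tot, h5] at h6
  rw [tot, h4]
  obtain ⟨u, hu⟩ := h3
  obtain ⟨w, hw⟩ := h6
  rw [Nat.even_iff]
  omega

end Dr
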