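import Pool.Agent.Lib.MP_f80667_ag.Dr.LDpr
import Pool.Agent.Lib.MP_f80667_ag.Dr.LDN

/-! The parity of the number of the ramified places above a prime. -/

open IsDedekindDomain NumberField Module

namespace Dr

open Hm

variable {K K' : Type} [Field K] [NumberField K] [Field K'] [NumberField K']

/-- An isometry of scaled norm forms gives an isometry of the transfers. -/
theorem NA_tr {b a c ε a₁ c₁ : K} (e : (Fin 4 → K) ≃ₗ[K] (Fin 4 → K))
    (he : ∀ v, c * qn b a (e v) = c₁ * qe ε a₁ v) (x : Fin 4 → K) :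
    tr (sT ℚ c₁) (qeF ε a₁) (e.symm x) = tr (sT ℚ c) (qnF b a) x := by
  rw [tr_apply, tr_apply, sT_apply, sT_apply, qeF_apply, qnF_apply, ← he, e.apply_symm_apply]

/-- Proof: `exists_nice` for both fields, `Lag.map`, `LD.parity2` with `Nice.LD`, `Nice.res`, `Nice.max`; the
number of the places above `p` where `a'` is not a unit is `nF`. -/
theorem parity_K (b a c : Kˣ) (b' a' c' : K'ˣ) {W : Submodule ℚ ((Fin 4 → K) × (Fin 4 → K'))}
    (hW : Lag ((tr (sT ℚ (c : K)) (qnF (b : K) (a : K))).prod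
      (tr (sT ℚ (c' : K')) (qnF (b' : K') (a' : K')))) W) (p : HeightOneSpectrum (𝓞 ℚ)) :
    Even (nF p a b + nF p a' b') := by
  obtain ⟨ε, a₁, c₁, hN, ⟨e, he⟩, hw⟩ := exists_nice (K := K) p b a c
  obtain ⟨ε', a₁', c₁', hN', ⟨e', he'⟩, hw'⟩ := exists_nice (K := K') p b' a' c'
  obtain ⟨F, iF, iFf, r, hr, hk, hε⟩ := hN.res
  obtain ⟨F', iF', iFf', r', hr', hk', hε'⟩ := hN'.res
  have f1 : Finite {w : HeightOneSpectrum (𝓞 K) // w.under (𝓞 ℚ) = p ∧ w.valuation K a₁ ≠ 1} :=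
    ((niceC_fin (K := K) p).subset fun w hw => hw.1).to_subtype
  have f2 : Finite {w : HeightOneSpectrum (𝓞 K') // w.under (𝓞 ℚ) = p ∧ w.valuation K' a₁' ≠ 1} :=
    ((niceC_fin (K := K') p).subset fun w hw => hw.1).to_subtype
  have i1 := Fintype.ofFinite
    {w : HeightOneSpectrum (𝓞 K) // w.under (𝓞 ℚ) = p ∧ w.valuation K a₁ ≠ 1}
  have i2 := Fintype.ofFinite
    {w : HeightOneSpectrum (𝓞 K') // w.under (𝓞 ℚ) = p ∧ w.valuation K' a₁' ≠ 1}
  let E : ((Fin 4 → K) × (Fin 4 → K')) ≃ₗ[ℚ] ((Fin 4 → K) × (Fin 4 → K')) :=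
    (e.symm.restrictScalars ℚ).prodCongr (e'.symm.restrictScalars ℚ)
  have hW' := hW.map (Q' := (tr (sT ℚ c₁) (qeF ε a₁)).prod (tr (sT ℚ c₁') (qeF ε' a₁'))) E
    (fun x => by
      rw [QuadraticMap.prod_apply, QuadraticMap.prod_apply]
      exact congrArg₂ (· + ·) (NA_tr e he x.1) (NA_tr e' he' x.2))
  have key := LD.parity2 hN.LD hN'.LD r hr hk (fun m hm => hN.max m hm)
    (fun j x => hε ⟨ε, hN.LD.he⟩ rfl j x) r' hr' hk' (fun m hm => hN'.max m hm)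
    (fun j x => hε' ⟨ε', hN'.LD.he⟩ rfl j x) hW'
  have n1 : nF p a b =
      Fintype.card {w : HeightOneSpectrum (𝓞 K) // w.under (𝓞 ℚ) = p ∧ w.valuation K a₁ ≠ 1} := by
    rw [← Nat.card_eq_fintype_card, nF]
    exact Nat.card_congr (Equiv.subtypeEquivRight fun w =>
      ⟨fun h => ⟨h.1, (hw w h.1).1 h.2⟩, fun h => ⟨h.1, (hw w h.1).2 h.2⟩⟩)
  have n2 : nF p a' b' =
      Fintype.card {w : HeightOneSpectrum (𝓞 K') // w.under (𝓞 ℚ) = p ∧
        w.valuation K' a₁' ≠ 1} := by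
    rw [← Nat.card_eq_fintype_card, nF]
    exact Nat.card_congr (Equiv.subtypeEquivRight fun w =>
      ⟨fun h => ⟨h.1, (hw' w h.1).1 h.2⟩, fun h => ⟨h.1, (hw' w h.1).2 h.2⟩⟩)
  rw [n1, n2]
  exact key

end Dr
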