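import Pool.Agent.Lib.MP_f80667_ag.Dr.NiceB

/-! Adjustment of the valuations by a norm. -/

open IsDedekindDomain NumberField

namespace Dr

open Hm

variable {F : Type} [Field F] [NumberField F] (K : Type) [Field K] [NumberField K] [Algebra F K]

variable {K}

/-- A local norm has the valuation of a norm. -/
theorem niceC_val {w : HeightOneSpectrum (𝓞 K)} {b c : Kˣ} (h : c ∈ LNm w b) :
    ∃ x y : K, w.valuation K (x ^ 2 - b * y ^ 2) = w.valuation K (c : K) := by
  obtain ⟨x, y, s, hs, h1⟩ := mem_LNm.1 h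
  obtain ⟨t, ht⟩ := hs
  refine ⟨x * t, y * t, ?_⟩
  have e : (x * t) ^ 2 - (b : K) * (y * t) ^ 2 = c * ((s : K) * (t : K) ^ 2) := by
    linear_combination (-(t : K) ^ 2) * h1
  have h2 : w.valuation K ((s : K) * (t : K) ^ 2) = 1 := by
    have h3 : w.valuation K ((s : K) * (t : K) ^ 2 - 1) < w.valuation K (1 : K) := by
      rw [map_one]
      exact ht.trans_le (val4_le w)
    rw [Valuation.map_eq_of_sub_lt _ h3, map_one]
  rw [e, map_mul, h2, mul_one]

/-- The value of a norm near a norm. -/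
theorem niceC_near (w : HeightOneSpectrum (𝓞 K)) (b x₀ y₀ : K) (hb : w.valuation K b ≤ 1)
    (h0 : w.valuation K (x₀ ^ 2 - b * y₀ ^ 2) ≠ 0) :
    ∃ g : WithZero (Multiplicative ℤ), g ≠ 0 ∧ ∀ x y : K, w.valuation K (x - x₀) < g →
      w.valuation K (y - y₀) < g →
      w.valuation K (x ^ 2 - b * y ^ 2) = w.valuation K (x₀ ^ 2 - b * y₀ ^ 2) := by
  set τ := w.valuation K (x₀ ^ 2 - b * y₀ ^ 2) with hτ
  set M := max 1 (max (w.valuation K (2 * x₀)) (w.valuation K (2 * y₀))) with hM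
  have hM1 : 1 ≤ M := le_max_left _ _
  have hM0 : M ≠ 0 := (lt_of_lt_of_le zero_lt_one hM1).ne'
  have hMx : w.valuation K (2 * x₀) ≤ M := (le_max_left _ _).trans (le_max_right _ _)
  have hMy : w.valuation K (2 * y₀) ≤ M := (le_max_right _ _).trans (le_max_right _ _)
  refine ⟨min 1 (τ / M), ?_, fun x y hx hy => ?_⟩
  · rcases min_choice 1 (τ / M) with h | h
    · rw [h]; exact one_ne_zero
    · rw [h]; exact div_ne_zero h0 hM0
  have key : ∀ z z₀ : K, w.valuation K (2 * z₀) ≤ M → w.valuation K (z - z₀) < min 1 (τ / M) →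
      w.valuation K (z ^ 2 - z₀ ^ 2) < τ := by
    intro z z₀ h1 h2
    have h3 : w.valuation K (z - z₀) < 1 := lt_of_lt_of_le h2 (min_le_left _ _)
    have h4 : w.valuation K (z - z₀) < τ / M := lt_of_lt_of_le h2 (min_le_right _ _)
    have e : z ^ 2 - z₀ ^ 2 = (z - z₀) * ((z - z₀) + 2 * z₀) := by ring
    have h5 : w.valuation K ((z - z₀) + 2 * z₀) ≤ M :=
      (Valuation.map_add _ _ _).trans (max_le (h3.le.trans hM1) h1)
    rw [e, map_mul]
    calc w.valuation K (z - z₀) * w.valuation K ((z - z₀) + 2 * z₀)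
        ≤ w.valuation K (z - z₀) * M := mul_le_mul_right h5 _
      _ < τ := (lt_div_iff₀ (zero_lt_iff.2 hM0)).1 h4
  refine Valuation.map_eq_of_sub_lt _ ?_
  have e : x ^ 2 - b * y ^ 2 - (x₀ ^ 2 - b * y₀ ^ 2) = (x ^ 2 - x₀ ^ 2) - b * (y ^ 2 - y₀ ^ 2) := by
    ring
  rw [e]
  refine lt_of_le_of_lt (Valuation.map_sub _ _ _) (max_lt (key x x₀ hMx hx) ?_)
  rw [map_mul]
  calc w.valuation K b * w.valuation K (y ^ 2 - y₀ ^ 2)
      ≤ 1 * w.valuation K (y ^ 2 - y₀ ^ 2) := mul_le_mul_left hb _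
    _ < τ := by rw [one_mul]; exact key y y₀ hMy hy

/-- The places above `p` are finite in number. -/
theorem niceC_fin (p : HeightOneSpectrum (𝓞 F)) :
    {w : HeightOneSpectrum (𝓞 K) | w.under (𝓞 F) = p}.Finite := by
  refine Set.Finite.of_finite_image (f := fun w => w.asIdeal)
    ((IsDedekindDomain.primesOver_finite p.asIdeal (𝓞 K)).subset ?_) ?_
  · rintro _ ⟨w, rfl, rfl⟩
    exact ⟨w.isPrime, ⟨rfl⟩⟩
  · intro w _ w' _ hww
    exact HeightOneSpectrum.ext hww

/-- Adjustment of the valuations by a norm. Proof: `n = x² - b' y²` near local values: at a place `w` above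
`p` with `a ∉ LNm w b'` the valuation of `a` is odd (`even_norm`), multiply by an even power of a
uniformizer; if `b' ∉ LSq w` and `a ∈ LNm w b'` the valuation of `a` is even (the values `x² - b' y²` have
even valuation: `1 + 4 ε` unit, `unif_notMem`), the same; if `b' ∈ LSq w` then `x² - b' y²` takes values of
every valuation. Weak approximation for `x`, `y`. -/
theorem adj_val (p : HeightOneSpectrum (𝓞 F)) {ε : K} {b' : Kˣ} (hb : (b' : K) = 1 + 4 * ε)
    (he : ∀ w : HeightOneSpectrum (𝓞 K), w.under (𝓞 F) = p →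
        w.valuation K ε ≤ 1 ∧ w.valuation K (1 + 4 * ε) = 1) (a : Kˣ) :
    ∃ n : Kˣ, n ∈ Nrm b' ∧ ∀ w : HeightOneSpectrum (𝓞 K), w.under (𝓞 F) = p →
      (a ∈ LNm w b' → w.valuation K (n * a : K) = 1) ∧
      (a ∉ LNm w b' → w.valuation K (n * a : K) = WithZero.exp (-1 : ℤ)) := by
  classical
  by_cases hex : ∃ w : HeightOneSpectrum (𝓞 K), w.under (𝓞 F) = p
  swap
  · exact ⟨1, one_mem _, fun w hw => absurd ⟨w, hw⟩ hex⟩
  have hva : ∀ w : HeightOneSpectrum (𝓞 K), w.valuation K (a : K) ≠ 0 := fun w =>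
    (w.valuation K).ne_zero_iff.2 a.ne_zero
  -- local targets
  have hloc : ∀ w : HeightOneSpectrum (𝓞 K), ∃ q : K × K, w.under (𝓞 F) = p →
      w.valuation K (q.1 ^ 2 - b' * q.2 ^ 2) ≠ 0 ∧
      (a ∈ LNm w b' → w.valuation K (q.1 ^ 2 - b' * q.2 ^ 2) * w.valuation K (a : K) = 1) ∧
      (a ∉ LNm w b' → w.valuation K (q.1 ^ 2 - b' * q.2 ^ 2) * w.valuation K (a : K) =
        WithZero.exp (-1 : ℤ)) := by
    intro w
    by_cases hw : w.under (𝓞 F) = p
    swap
    · exact ⟨0, fun h => absurd h hw⟩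
    by_cases ha : a ∈ LNm w b'
    · obtain ⟨x, y, hxy⟩ := niceC_val (inv_mem ha)
      refine ⟨(x, y), fun _ => ⟨?_, fun _ => ?_, fun h => absurd ha h⟩⟩
      · rw [hxy]
        exact (w.valuation K).ne_zero_iff.2 (a⁻¹).ne_zero
      · rw [hxy, Units.val_inv_eq_inv_val, map_inv₀, inv_mul_cancel₀ (hva w)]
    · obtain ⟨m, hm⟩ : ∃ m : ℤ, w.valuation K (a : K) = WithZero.exp m :=
        ⟨WithZero.log (w.valuation K (a : K)), (WithZero.exp_log (hva w)).symm⟩
      have hodd : Odd m := by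
        by_contra hno
        rw [Int.not_odd_iff_even] at hno
        obtain ⟨k, hk⟩ := hno
        refine ha (even_norm hb (he w hw).1 (he w hw).2 (m := k) ?_)
        rw [hm, hk, two_mul]
      obtain ⟨k, hk⟩ := hodd
      obtain ⟨z, hz⟩ := w.valuation_surjective K (WithZero.exp (-(k + 1)))
      refine ⟨(z, 0), fun _ => ?_⟩
      have e : w.valuation K (z ^ 2 - (b' : K) * 0 ^ 2) = WithZero.exp (-(k + 1) + -(k + 1)) := by
        rw [zero_pow two_ne_zero, mul_zero, sub_zero, map_pow, hz, pow_two, WithZero.exp_add]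
      refine ⟨?_, fun h => absurd h ha, fun _ => ?_⟩
      · show w.valuation K (z ^ 2 - (b' : K) * 0 ^ 2) ≠ 0
        rw [e]
        exact WithZero.exp_ne_zero
      · show w.valuation K (z ^ 2 - (b' : K) * 0 ^ 2) * w.valuation K (a : K) = _
        rw [e, hm, ← WithZero.exp_add, hk]
        congr 1
        ring
  choose q hq using hloc
  have hg : ∀ w : HeightOneSpectrum (𝓞 K), ∃ g : WithZero (Multiplicative ℤ), g ≠ 0 ∧
      (w.under (𝓞 F) = p → ∀ x y : K, w.valuation K (x - (q w).1) < g →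
      w.valuation K (y - (q w).2) < g → w.valuation K (x ^ 2 - b' * y ^ 2) =
        w.valuation K ((q w).1 ^ 2 - b' * (q w).2 ^ 2)) := by
    intro w
    by_cases hw : w.under (𝓞 F) = p
    · obtain ⟨g, h1, h2⟩ := niceC_near w (b' : K) (q w).1 (q w).2
        (by rw [hb]; exact (he w hw).2.le) (hq w hw).1
      exact ⟨g, h1, fun _ => h2⟩
    · exact ⟨1, one_ne_zero, fun h => absurd h hw⟩
  choose g hg0 hg1 using hg
  obtain ⟨x, hx, -⟩ := wapr (niceC_fin (K := K) p).toFinset (fun w => (q w).1) (fun _ => 0) g hg0 1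
    one_pos
  obtain ⟨y, hy, -⟩ := wapr (niceC_fin (K := K) p).toFinset (fun w => (q w).2) (fun _ => 0) g hg0 1
    one_pos
  have hxy : ∀ w : HeightOneSpectrum (𝓞 K), w.under (𝓞 F) = p →
      w.valuation K (x ^ 2 - b' * y ^ 2) = w.valuation K ((q w).1 ^ 2 - b' * (q w).2 ^ 2) :=
    fun w hw => hg1 w hw x y (hx w ((niceC_fin p).mem_toFinset.2 hw))
      (hy w ((niceC_fin p).mem_toFinset.2 hw))
  have hne : x ^ 2 - (b' : K) * y ^ 2 ≠ 0 := by
    obtain ⟨w, hw⟩ := hex
    rw [← (w.valuation K).ne_zero_iff, hxy w hw]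
    exact (hq w hw).1
  refine ⟨Units.mk0 _ hne, ⟨x, y, rfl⟩, fun w hw => ⟨fun h => ?_, fun h => ?_⟩⟩
  · rw [Units.val_mk0, map_mul, hxy w hw]
    exact (hq w hw).2.1 h
  · rw [Units.val_mk0, map_mul, hxy w hw]
    exact (hq w hw).2.2 h

end Dr
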