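import Pool.Agent.Lib.MP_f80667_ag.Dr.Df
import Pool.Agent.Lib.MP_f80667_ag.Hm.Main

/-! The generator of the trace dual above a place. -/

open IsDedekindDomain NumberField

namespace Dr

open Hm

variable {F : Type} [Field F] [NumberField F] (K : Type) [Field K] [NumberField K] [Algebra F K]

variable {K}

/-- Local denominators. -/
theorem nd_loc (w : HeightOneSpectrum (𝓞 K)) {z : K} (hz : w.valuation K z ≤ 1) :
    ∃ a b : 𝓞 K, a ∉ w.asIdeal ∧ algebraMap (𝓞 K) K a * z = algebraMap (𝓞 K) K b := by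
  have h : z ∈ (w.valuation K).valuationSubring := hz
  rw [← HeightOneSpectrum.valuationSubringAtPrime_eq_valuationSubring] at h
  obtain ⟨b, s, hs, rfl⟩ := h
  refine ⟨s, b, hs, ?_⟩
  have hs0 : algebraMap (𝓞 K) K s ≠ 0 := by
    rw [Ne, FaithfulSMul.algebraMap_eq_zero_iff]
    rintro rfl
    exact hs (zero_mem _)
  rw [mul_comm (algebraMap (𝓞 K) K b), mul_inv_cancel_left₀ hs0]

/-- Denominators in `𝓞 F`. -/
theorem nd_glob (p : HeightOneSpectrum (𝓞 F)) (M : Submodule (𝓞 K) K) (x : K)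
    (h : ∀ w : HeightOneSpectrum (𝓞 K), w.under (𝓞 F) = p → ∃ a : 𝓞 K, a ∉ w.asIdeal ∧ a • x ∈ M) :
    ∃ s : 𝓞 F, s ∉ p.asIdeal ∧ algebraMap (𝓞 F) (𝓞 K) s • x ∈ M := by
  by_contra hcon
  push Not at hcon
  have h1 : Ideal.comap (algebraMap (𝓞 F) (𝓞 K))
      (M.comap (LinearMap.toSpanSingleton (𝓞 K) K x) : Ideal (𝓞 K)) ≤ p.asIdeal := by
    intro s hs
    by_contra hsp
    exact hcon s hsp hs
  obtain ⟨Q, hQ1, hQ2, hQ3⟩ := Ideal.exists_ideal_over_prime_of_isIntegral p.asIdeal _ h1
  have hQ0 : Q ≠ ⊥ := by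
    intro h0
    apply p.ne_bot
    rw [← hQ3, h0, ← RingHom.ker_eq_comap_bot]
    exact (RingHom.injective_iff_ker_eq_bot _).1 (FaithfulSMul.algebraMap_injective (𝓞 F) (𝓞 K))
  obtain ⟨a, ha, hax⟩ := h ⟨Q, hQ2, hQ0⟩ (HeightOneSpectrum.ext hQ3)
  exact ha (hQ1 hax)

omit [NumberField F] in
/-- The elements of `𝓞 F` outside `p` are units above `p`. -/
theorem nd_one {p : HeightOneSpectrum (𝓞 F)} {w : HeightOneSpectrum (𝓞 K)}
    (hw : w.under (𝓞 F) = p) {s : 𝓞 F} (hs : s ∉ p.asIdeal) :
    w.valuation K (algebraMap (𝓞 K) K (algebraMap (𝓞 F) (𝓞 K) s)) = 1 := by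
  refine le_antisymm (w.valuation_le_one _) (not_lt.1 fun h => hs ?_)
  rw [w.valuation_lt_one_iff_mem] at h
  rw [← hw]
  exact h

/-- A finitely generated submodule has an element of maximal valuation. -/
theorem nd_max (M : Submodule (𝓞 K) K) (hM : M.FG) (w : HeightOneSpectrum (𝓞 K)) :
    ∃ x ∈ M, ∀ y ∈ M, w.valuation K y ≤ w.valuation K x := by
  classical
  obtain ⟨s, hs⟩ := hM
  obtain ⟨x, hx, hmax⟩ := Finset.exists_max_image (insert 0 s) (fun y => w.valuation K y)
    (Finset.insert_nonempty _ _)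
  have hxM : x ∈ M := by
    rcases Finset.mem_insert.1 hx with rfl | hx
    · exact M.zero_mem
    · rw [← hs]
      exact Submodule.subset_span hx
  refine ⟨x, hxM, fun y hy => ?_⟩
  rw [← hs] at hy
  induction hy using Submodule.span_induction with
  | mem z hz => exact hmax z (Finset.mem_insert_of_mem hz)
  | zero => exact hmax 0 (Finset.mem_insert_self _ _)
  | add z z' _ _ h1 h2 => exact Valuation.map_add_le _ h1 h2
  | smul a z _ h1 =>
    rw [Algebra.smul_def, map_mul]
    calc w.valuation K (algebraMap (𝓞 K) K a) * w.valuation K z ≤ 1 * w.valuation K x :=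
          mul_le_mul' (w.valuation_le_one _) h1
      _ = _ := one_mul _

theorem nd_fin (p : HeightOneSpectrum (𝓞 F)) :
    {w : HeightOneSpectrum (𝓞 K) | w.under (𝓞 F) = p}.Finite := by
  have h1 : (p.asIdeal.primesOver (𝓞 K)).Finite :=
    IsDedekindDomain.primesOver_finite p.asIdeal (𝓞 K)
  refine Set.Finite.of_finite_image (f := fun w : HeightOneSpectrum (𝓞 K) => w.asIdeal)
    (h1.subset ?_) (fun w _ w' _ h => HeightOneSpectrum.ext h)
  rintro _ ⟨w, hw, rfl⟩
  exact ⟨w.isPrime, ⟨(congrArg HeightOneSpectrum.asIdeal hw).symm⟩⟩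

/-- The trace dual of `𝓞 K`. -/
theorem nd_dual (F K : Type) [Field F] [NumberField F] [Field K] [NumberField K] [Algebra F K] :
    ∃ M : Submodule (𝓞 K) K, M.FG ∧ (1 : K) ∈ M ∧
      ∀ x, x ∈ M ↔ ∀ a : 𝓞 K, ∃ r : 𝓞 F,
        algebraMap (𝓞 F) F r = Algebra.trace F K (x * algebraMap (𝓞 K) K a) := by
  have h1 : ∀ x, x ∈ FractionalIdeal.dual (𝓞 F) F (1 : FractionalIdeal (nonZeroDivisors (𝓞 K)) K) ↔
      ∀ a : 𝓞 K, ∃ r : 𝓞 F,
        algebraMap (𝓞 F) F r = Algebra.trace F K (x * algebraMap (𝓞 K) K a) := by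
    intro x
    rw [FractionalIdeal.mem_dual
      (one_ne_zero : (1 : FractionalIdeal (nonZeroDivisors (𝓞 K)) K) ≠ 0)]
    constructor
    · intro h a
      have h2 := h (algebraMap (𝓞 K) K a) ((FractionalIdeal.mem_one_iff _).2 ⟨a, rfl⟩)
      rw [Algebra.traceForm_apply] at h2
      exact h2
    · intro h y hy
      obtain ⟨a, rfl⟩ := (FractionalIdeal.mem_one_iff _).1 hy
      rw [Algebra.traceForm_apply]
      exact h a
  refine ⟨((FractionalIdeal.dual (𝓞 F) F (1 : FractionalIdeal (nonZeroDivisors (𝓞 K)) K) :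
    FractionalIdeal (nonZeroDivisors (𝓞 K)) K) : Submodule (𝓞 K) K), ?_, ?_, h1⟩
  · have h2 := FractionalIdeal.isNoetherian
      (FractionalIdeal.dual (𝓞 F) F (1 : FractionalIdeal (nonZeroDivisors (𝓞 K)) K))
    exact isNoetherian_submodule.1 h2 _ le_rfl
  · exact FractionalIdeal.one_le_dual_one (𝓞 F) F (FractionalIdeal.one_mem_one _)

/-- The generator of the trace dual above `p` with prescribed signs. Proof: the inverse different
(`FractionalIdeal.dual`, `differentIdeal`), an element with its valuations at the finitely many places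
above `p` and given signs (`Hm.wapr`); `x` is in the trace dual of the semilocal ring iff `s x` is in the
inverse different for some `s` in `𝓞 F` prime to `p`, iff the valuations above `p` are at least those of the
inverse different. -/
theorem exists_dual (p : HeightOneSpectrum (𝓞 F)) (t : (K →+* ℝ) → ℝ) (ht : ∀ φ, t φ ≠ 0) :
    ∃ c : Kˣ, (∀ φ : K →+* ℝ, 0 < φ c * t φ) ∧
      ∀ z : K, (∀ w : HeightOneSpectrum (𝓞 K), w.under (𝓞 F) = p → w.valuation K z ≤ 1) ↔
        ∀ y : K, (∀ w : HeightOneSpectrum (𝓞 K), w.under (𝓞 F) = p → w.valuation K y ≤ 1) →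
          p.valuation F (sT F (c : K) (z * y)) ≤ 1 := by
  classical
  obtain ⟨M, hfg, h1M, hM⟩ := nd_dual F K
  choose x hx hmax using nd_max M hfg
  have hx0 : ∀ w : HeightOneSpectrum (𝓞 K), w.valuation K (x w) ≠ 0 := by
    intro w h0
    have h1 := hmax w 1 h1M
    rw [map_one, h0] at h1
    exact absurd h1 (by simp)
  have hfin : {w : HeightOneSpectrum (𝓞 K) | w.under (𝓞 F) = p}.Finite := nd_fin p
  obtain ⟨c, hc1, hc2⟩ := wapr hfin.toFinset x (fun φ => if 0 < t φ then 1 else -1)
    (fun w => w.valuation K (x w)) hx0 (1 / 2) (by norm_num)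
  have hcw : ∀ w : HeightOneSpectrum (𝓞 K), w.under (𝓞 F) = p →
      w.valuation K c = w.valuation K (x w) := by
    intro w hw
    have h1 := hc1 w (hfin.mem_toFinset.2 hw)
    have h2 := Valuation.map_add_eq_of_lt_left _ h1
    rwa [add_sub_cancel] at h2
  have hc0 : c ≠ 0 := by
    intro h0
    have h2 := nd_glob (K := K) p ⊥ 1 (fun w hw => by
      have h1 := hcw w hw
      rw [h0, map_zero] at h1
      exact absurd h1.symm (hx0 w))
    obtain ⟨s, hs, hs2⟩ := h2
    rw [Submodule.mem_bot, Algebra.smul_def, mul_one] at hs2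
    apply hs
    have h3 : s = 0 := by
      apply FaithfulSMul.algebraMap_injective (𝓞 F) (𝓞 K)
      apply FaithfulSMul.algebraMap_injective (𝓞 K) K
      rw [hs2, map_zero, map_zero]
    rw [h3]
    exact zero_mem _
  -- the elements bounded by `c` are in the dual of the semilocal ring
  have key1 : ∀ z y : K, (∀ w : HeightOneSpectrum (𝓞 K), w.under (𝓞 F) = p →
      w.valuation K z ≤ 1) → (∀ w : HeightOneSpectrum (𝓞 K), w.under (𝓞 F) = p →
      w.valuation K y ≤ 1) → p.valuation F (Algebra.trace F K (c * (z * y))) ≤ 1 := by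
    intro z y hz hy
    obtain ⟨s, hs, hsM⟩ := nd_glob (K := K) p M (c * (z * y)) (fun w hw => by
      have h1 : w.valuation K (c * (z * y) * (x w)⁻¹) ≤ 1 := by
        rw [map_mul, map_mul, map_mul, map_inv₀, hcw w hw]
        calc w.valuation K (x w) * (w.valuation K z * w.valuation K y) * (w.valuation K (x w))⁻¹
            = (w.valuation K z * w.valuation K y) *
                (w.valuation K (x w) * (w.valuation K (x w))⁻¹) := by ac_rfl
          _ = w.valuation K z * w.valuation K y := by rw [mul_inv_cancel₀ (hx0 w), mul_one]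
          _ ≤ 1 * 1 := mul_le_mul' (hz w hw) (hy w hw)
          _ = 1 := one_mul 1
      obtain ⟨a, b, ha, hab⟩ := nd_loc w h1
      refine ⟨a, ha, ?_⟩
      have hxw : x w ≠ 0 := (w.valuation K).ne_zero_iff.1 (hx0 w)
      have h2 : a • (c * (z * y)) = b • x w := by
        rw [Algebra.smul_def, Algebra.smul_def, ← hab]
        field_simp
      rw [h2]
      exact M.smul_mem b (hx w))
    obtain ⟨r, hr⟩ := (hM _).1 hsM 1
    rw [map_one, mul_one] at hr
    have h3 : algebraMap (𝓞 F) (𝓞 K) s • (c * (z * y)) =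
        algebraMap (𝓞 F) F s • (c * (z * y)) := by
      rw [Algebra.smul_def, Algebra.smul_def]
      rfl
    rw [h3, map_smul, smul_eq_mul] at hr
    have h4 := congrArg (p.valuation F) hr
    rw [map_mul] at h4
    have h5 : p.valuation F (algebraMap (𝓞 F) F s) = 1 := by
      refine le_antisymm (p.valuation_le_one _) (not_lt.1 fun h => hs ?_)
      exact (p.valuation_lt_one_iff_mem s).1 h
    rw [h5, one_mul] at h4
    rw [← h4]
    exact p.valuation_le_one r
  have key2 : ∀ z : K, (∀ y : K, (∀ w : HeightOneSpectrum (𝓞 K), w.under (𝓞 F) = p →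
      w.valuation K y ≤ 1) → p.valuation F (Algebra.trace F K (c * (z * y))) ≤ 1) →
      ∀ w : HeightOneSpectrum (𝓞 K), w.under (𝓞 F) = p → w.valuation K z ≤ 1 := by
    intro z hz w hw
    -- a common denominator
    obtain ⟨s, hs, hsM⟩ : ∃ s : 𝓞 F, s ∉ p.asIdeal ∧
        algebraMap (𝓞 F) (𝓞 K) s • (c * z) ∈ M := by
      obtain ⟨G, hG⟩ := (inferInstance : Module.Finite (𝓞 F) (𝓞 K)).fg_top
      have h1 : ∀ g : 𝓞 K, ∃ s : 𝓞 F, s ∉ p.asIdeal ∧ ∃ r : 𝓞 F, algebraMap (𝓞 F) F r =
          algebraMap (𝓞 F) F s * Algebra.trace F K (c * z * algebraMap (𝓞 K) K g) := by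
        intro g
        have h2 := hz (algebraMap (𝓞 K) K g) (fun w _ => w.valuation_le_one g)
        obtain ⟨a, b, ha, hab⟩ := nd_loc p h2
        refine ⟨a, ha, b, ?_⟩
        rw [← hab, mul_assoc c z]
      choose σ hσ1 hσ2 using h1
      refine ⟨∏ g ∈ G, σ g, ?_, ?_⟩
      · intro h2
        obtain ⟨g, _, hg⟩ := (p.isPrime.prod_mem_iff).1 h2
        exact hσ1 g hg
      · rw [hM]
        intro a
        have ha : a ∈ Submodule.span (𝓞 F) (G : Set (𝓞 K)) := by
          rw [hG]
          trivial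
        induction ha using Submodule.span_induction with
        | mem g hg =>
          obtain ⟨r, hr⟩ := hσ2 g
          refine ⟨(∏ g' ∈ G.erase g, σ g') * r, ?_⟩
          have h3 : ∏ g' ∈ G, σ g' = (∏ g' ∈ G.erase g, σ g') * σ g := by
            rw [mul_comm, Finset.mul_prod_erase _ _ hg]
          have h4 : (algebraMap (𝓞 F) (𝓞 K) (∏ g' ∈ G, σ g') • (c * z)) * algebraMap (𝓞 K) K g =
              algebraMap (𝓞 F) F (∏ g' ∈ G, σ g') • (c * z * algebraMap (𝓞 K) K g) := by
            rw [Algebra.smul_def, Algebra.smul_def, mul_assoc (algebraMap (𝓞 K) K _)]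
            rfl
          rw [h4, map_smul, smul_eq_mul, h3, map_mul, map_mul, hr]
          ring
        | zero => exact ⟨0, by rw [map_zero, map_zero, mul_zero, map_zero]⟩
        | add g g' _ _ h3 h4 =>
          obtain ⟨r, hr⟩ := h3
          obtain ⟨r', hr'⟩ := h4
          exact ⟨r + r', by rw [map_add, hr, hr', map_add, mul_add, map_add]⟩
        | smul u g _ h3 =>
          obtain ⟨r, hr⟩ := h3
          refine ⟨u * r, ?_⟩
          have h5 : algebraMap (𝓞 K) K (u • g) = algebraMap (𝓞 F) F u • algebraMap (𝓞 K) K g := by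
            rw [Algebra.smul_def, Algebra.smul_def, map_mul]
            rfl
          rw [map_mul, hr, h5, mul_smul_comm, map_smul, smul_eq_mul]
    have h2 := hmax w _ hsM
    rw [Algebra.smul_def, map_mul, nd_one hw hs, one_mul, map_mul, hcw w hw] at h2
    have h3 : w.valuation K (x w) * w.valuation K z ≤ w.valuation K (x w) * 1 := by
      rw [mul_one]
      exact h2
    exact (mul_le_mul_iff_right₀ (zero_lt_iff.2 (hx0 w))).1 h3
  refine ⟨Units.mk0 c hc0, fun φ => ?_, fun z => ⟨fun hz y hy => key1 z y hz hy,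
    fun hz => key2 z hz⟩⟩
  have h1 := hc2 φ
  show 0 < φ c * t φ
  rw [abs_lt] at h1
  split_ifs at h1 with h2
  · exact mul_pos (by linarith [h1.1]) h2
  · have h3 : t φ < 0 := lt_of_le_of_ne (not_lt.1 h2) (ht φ)
    exact mul_pos_of_neg_of_neg (by linarith [h1.2]) h3

end Dr
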