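import Pool.Agent.Lib.MP_f80667_ag.Dr.SlotF
import Pool.Agent.Lib.MP_f80667_ag.Hm.Frm5

/-! Common slots and represented elements over number fields (Hasse–Minkowski). -/

open IsDedekindDomain NumberField

namespace Dr

open Hm

/-- An isotropic diagonal form represents all elements. -/
theorem slotB_univ {k : Type*} [Field k] (h2 : (2 : k) ≠ 0) {n : ℕ} {c x : Fin n → k}
    (hc : ∀ i, c i ≠ 0) (hx : x ≠ 0) (h0 : ∑ i, c i * x i ^ 2 = 0) (t : k) :
    ∃ y : Fin n → k, ∑ i, c i * y i ^ 2 = t := by
  classical
  obtain ⟨i, hi⟩ : ∃ i, x i ≠ 0 := by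
    by_contra h
    push Not at h
    exact hx (funext h)
  set s := (t - c i) / (2 * c i * x i) with hs
  refine ⟨fun j => s * x j + if j = i then 1 else 0, ?_⟩
  have h1 : ∀ j, c j * (s * x j + if j = i then 1 else 0) ^ 2 =
      s ^ 2 * (c j * x j ^ 2) + if j = i then (2 * s * c j * x j + c j) else 0 := by
    intro j
    split_ifs with hj <;> ring
  simp only [h1]
  rw [Finset.sum_add_distrib, ← Finset.mul_sum, h0, Finset.sum_ite_eq' Finset.univ i,
    if_pos (Finset.mem_univ i), hs]
  have h3 := hc i
  field_simp
  ring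

variable {K : Type} [Field K] [NumberField K]

/-- **Common slot.** Proof: the form `⟨b, a, -a b, -b'⟩` is isotropic at every place: where `(b, a)` is split
the first three variables suffice (`isoQ_pure`); otherwise `slot_loc`; at the real places signs. So it is
isotropic over `K` (`Hm.iso4_of` with `Hm.norm_thm`, `Hm.NI` from completions by `Hm.near_of_zeroC`); if
the last coordinate is `0`, the ternary form is isotropic, so universal. Then `slot_alg`. -/
theorem exists_slot {b a b' : Kˣ} (hf : ∀ v, a ∉ LNm v b → b' ∉ LSq v)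
    (hr : ∀ φ : K →+* ℝ, φ b < 0 → φ a < 0 → φ b' < 0) :
    ∃ a' : Kˣ, (∃ e : (Fin 4 → K) ≃ₗ[K] (Fin 4 → K), ∀ v, qn (b' : K) (a' : K) (e v) = qn (b : K) a v) ∧
      (∀ v : HeightOneSpectrum (𝓞 K), a' ∈ LNm v b' ↔ a ∈ LNm v b) ∧
      ∀ φ : K →+* ℝ, (φ b' < 0 ∧ φ a' < 0) ↔ (φ b < 0 ∧ φ a < 0) := by
  have h2 : (2 : K) ≠ 0 := two_ne_zero
  -- the form is isotropic over the number field
  obtain ⟨x, hx, h0⟩ := iso4_of (K := K) (fun _ _ _ => norm_thm) ![b, a, -(a * b), -b'] (fun v => by
      intro ε
      have h2v : (2 : v.adicCompletion K) ≠ 0 := two_ne_zero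
      by_cases hv : a ∈ LNm v b
      · obtain ⟨x, y, z, hxyz, h⟩ := (isoQ_pure h2v (by simp) (by simp)).1 ((iso_fin v b a).1 hv)
        refine near_of_zeroC v _ ![x, y, z, 0] ?_ ?_ ε
        · intro h1
          rcases hxyz with h3 | h3 | h3
          · exact h3 (congrFun h1 0)
          · exact h3 (congrFun h1 1)
          · exact h3 (congrFun h1 2)
        · rw [Fin.sum_univ_four]
          simp only [Matrix.cons_val, Units.val_neg, Units.val_mul, map_neg, map_mul]
          linear_combination h
      · obtain ⟨x, y, z, h⟩ := slot_loc hv (hf v hv)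
        refine near_of_zeroC v _ ![x, y, z, 1] ?_ ?_ ε
        · intro h1
          exact one_ne_zero (congrFun h1 3)
        · rw [Fin.sum_univ_four]
          simp only [Matrix.cons_val, Units.val_neg, Units.val_mul, map_neg, map_mul]
          rw [map_mul] at h
          linear_combination -h) (fun φ => by
      have hb : φ (b : K) ≠ 0 := (map_ne_zero φ).2 b.ne_zero
      have ha : φ (a : K) ≠ 0 := (map_ne_zero φ).2 a.ne_zero
      rcases lt_or_gt_of_ne hb with hb1 | hb1
      · rcases lt_or_gt_of_ne ha with ha1 | ha1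
        · have hb' := hr φ hb1 ha1
          refine ⟨⟨3, ?_⟩, ⟨0, hb1⟩⟩
          show 0 < φ ((-b' : Kˣ) : K)
          rw [Units.val_neg, map_neg]
          linarith
        · exact ⟨⟨1, ha1⟩, ⟨0, hb1⟩⟩
      · rcases lt_or_gt_of_ne ha with ha1 | ha1
        · exact ⟨⟨0, hb1⟩, ⟨1, ha1⟩⟩
        · refine ⟨⟨0, hb1⟩, ⟨2, ?_⟩⟩
          show φ ((-(a * b) : Kˣ) : K) < 0
          rw [Units.val_neg, Units.val_mul, map_neg, map_mul]
          have := mul_pos ha1 hb1
          linarith)
  rw [Fin.sum_univ_four] at h0
  simp only [Matrix.cons_val, Units.val_neg, Units.val_mul] at h0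
  obtain ⟨p, q, r, hpqr⟩ : ∃ p q r : K,
      (b' : K) = b * p ^ 2 + a * q ^ 2 - a * b * r ^ 2 := by
    by_cases h3 : x 3 = 0
    · obtain ⟨y, hy⟩ := slotB_univ h2 (c := ![(b : K), a, -(a * b)]) (x := ![x 0, x 1, x 2])
        (by
          intro i
          fin_cases i
          · exact b.ne_zero
          · exact a.ne_zero
          · exact neg_ne_zero.2 (mul_ne_zero a.ne_zero b.ne_zero)) (by
          intro h1
          apply hx
          funext i
          fin_cases i
          · exact congrFun h1 0
          · exact congrFun h1 1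
          · exact congrFun h1 2
          · exact h3) (by
          rw [Fin.sum_univ_three]
          simp only [Matrix.cons_val]
          rw [h3] at h0
          linear_combination h0) (b' : K)
      refine ⟨y 0, y 1, y 2, ?_⟩
      rw [← hy, Fin.sum_univ_three]
      simp only [Matrix.cons_val]
      ring
    · refine ⟨x 0 / x 3, x 1 / x 3, x 2 / x 3, ?_⟩
      field_simp
      linear_combination -h0
  obtain ⟨a', ha', he, hL⟩ := slot_alg h2 b.ne_zero a.ne_zero b'.ne_zero hpqr
  refine ⟨Units.mk0 a' ha', he, fun v => ?_, fun φ => ?_⟩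
  · rw [iso_fin, iso_fin]
    exact (hL _).symm
  · have h1 := iso_real φ b' (Units.mk0 a' ha')
    have h3 := iso_real φ b a
    rw [h1, h3, not_iff_not]
    let _ : Algebra K ℝ := φ.toAlgebra
    exact (hL ℝ).symm

/-- Represented elements. Proof: `⟨1, -b, -a, a b, -c⟩` is isotropic over `K` (five variables, indefinite
at the real places); if the last coordinate is `0` the norm form is isotropic, so universal. -/
theorem exists_rep {b a c : Kˣ} (hr : ∀ φ : K →+* ℝ, φ b < 0 → φ a < 0 → 0 < φ c) :
    ∃ u : Fin 4 → K, qn (b : K) (a : K) u = c := by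
  have h2 : (2 : K) ≠ 0 := two_ne_zero
  obtain ⟨x, y, hxy, h0⟩ := iso5 (K := K) le_rfl ![1, -(b : K)] ![-(a : K), a * b, -(c : K)] (by
      intro i
      fin_cases i
      · exact one_ne_zero
      · exact neg_ne_zero.2 b.ne_zero) (by
      intro i
      fin_cases i
      · exact neg_ne_zero.2 a.ne_zero
      · exact mul_ne_zero a.ne_zero b.ne_zero
      · exact neg_ne_zero.2 c.ne_zero) (fun φ => by
      refine ⟨Or.inl ⟨0, ?_⟩, ?_⟩
      · show 0 < φ 1
        rw [map_one]
        exact one_pos
      have hb : φ (b : K) ≠ 0 := (map_ne_zero φ).2 b.ne_zero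
      have ha : φ (a : K) ≠ 0 := (map_ne_zero φ).2 a.ne_zero
      rcases lt_or_gt_of_ne hb with hb1 | hb1
      · rcases lt_or_gt_of_ne ha with ha1 | ha1
        · right
          refine ⟨2, ?_⟩
          show φ (-(c : K)) < 0
          rw [map_neg]
          have := hr φ hb1 ha1
          linarith
        · right
          refine ⟨0, ?_⟩
          show φ (-(a : K)) < 0
          rw [map_neg]
          linarith
      · left
        refine ⟨1, ?_⟩
        show φ (-(b : K)) < 0
        rw [map_neg]
        linarith)
  rw [Fin.sum_univ_two, Fin.sum_univ_three] at h0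
  simp only [Matrix.cons_val] at h0
  by_cases h3 : y 2 = 0
  · obtain ⟨w, hw⟩ := slotB_univ h2 (c := ![1, -(b : K), -(a : K), a * b])
      (x := ![x 0, x 1, y 0, y 1]) (by
        intro i
        fin_cases i
        · exact one_ne_zero
        · exact neg_ne_zero.2 b.ne_zero
        · exact neg_ne_zero.2 a.ne_zero
        · exact mul_ne_zero a.ne_zero b.ne_zero) (by
        intro h1
        rcases hxy with h4 | h4
        · apply h4
          funext i
          fin_cases i
          · exact congrFun h1 0
          · exact congrFun h1 1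
        · apply h4
          funext i
          fin_cases i
          · exact congrFun h1 2
          · exact congrFun h1 3
          · exact h3) (by
        rw [Fin.sum_univ_four]
        simp only [Matrix.cons_val]
        rw [h3] at h0
        linear_combination h0) (c : K)
    refine ⟨w, ?_⟩
    rw [← hw, Fin.sum_univ_four, qn]
    simp only [Matrix.cons_val]
    ring
  · refine ⟨![x 0 / y 2, x 1 / y 2, y 0 / y 2, y 1 / y 2], ?_⟩
    rw [qn]
    simp only [Matrix.cons_val]
    field_simp
    linear_combination h0

end Dr
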