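import Pool.Agent.Lib.MP_f80667_ag.Dr.NiceA
import Pool.Agent.Lib.MP_f80667_ag.Dr.NiceC
import Pool.Agent.Lib.MP_f80667_ag.Dr.NiceD
import Pool.Agent.Lib.MP_f80667_ag.Dr.SlotB

/-! Good presentations of quaternion algebras at the places above a place of the base field. -/

open IsDedekindDomain NumberField

namespace Dr

open Hm

variable {F : Type} [Field F] [NumberField F] (K : Type) [Field K] [NumberField K] [Algebra F K]

/-- `1 + 4 ε` is a unit at the places above `p`; at these places `a` is a unit, or a uniformizer and then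
`X² - X - ε` is irreducible modulo the place; `c` generates the trace dual of the elements which are
integral above `p`. -/
structure Nice (p : HeightOneSpectrum (𝓞 F)) (ε a c : K) : Prop where
  a0 : a ≠ 0
  c0 : c ≠ 0
  e : ∀ w : HeightOneSpectrum (𝓞 K), w.under (𝓞 F) = p →
    w.valuation K ε ≤ 1 ∧ w.valuation K (1 + 4 * ε) = 1
  a : ∀ w : HeightOneSpectrum (𝓞 K), w.under (𝓞 F) = p → w.valuation K a = 1 ∨
    (w.valuation K a = WithZero.exp (-1 : ℤ) ∧
      ∀ x : K, w.valuation K x ≤ 1 → w.valuation K (x ^ 2 - x - ε) = 1)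
  c : ∀ z : K, (∀ w : HeightOneSpectrum (𝓞 K), w.under (𝓞 F) = p → w.valuation K z ≤ 1) ↔
    ∀ y : K, (∀ w : HeightOneSpectrum (𝓞 K), w.under (𝓞 F) = p → w.valuation K y ≤ 1) →
      p.valuation F (sT F c (z * y)) ≤ 1

variable {K}

/-- **Good presentations.** Proof: `exists_eps`, `exists_slot`, `adj_val` with `norm_iso`, `exists_dual` with
the signs of `c`, `exists_rep` for `c / c'` with `scale_iso`, `qe_iso`. -/
theorem exists_nice (p : HeightOneSpectrum (𝓞 F)) (b a c : Kˣ) :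
    ∃ ε a' c' : K, Nice K p ε a' c' ∧
      (∃ e : (Fin 4 → K) ≃ₗ[K] (Fin 4 → K), ∀ v, c * qn (b : K) (a : K) (e v) = c' * qe ε a' v) ∧
      ∀ w : HeightOneSpectrum (𝓞 K), w.under (𝓞 F) = p →
        (a ∉ LNm w b ↔ w.valuation K a' ≠ 1) := by
  obtain ⟨ε, b', hb', he, hirr, hram, hreal⟩ := exists_eps p b a
  obtain ⟨a₁, ⟨e₁, he₁⟩, hloc, _⟩ := exists_slot hram hreal
  obtain ⟨n, hn, hadj⟩ := adj_val p hb' he a₁
  obtain ⟨x, y, hxy⟩ := mem_Nrm.1 hn
  obtain ⟨⟨e₂, he₂⟩, _⟩ := norm_iso (a := (a₁ : K)) n.ne_zero hxy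
  obtain ⟨c₁, hsign, hdual⟩ := exists_dual (K := K) p (fun φ => φ (c : K))
    (fun φ => (map_ne_zero φ).2 c.ne_zero)
  obtain ⟨u, hu⟩ := exists_rep (b := b') (a := n * a₁) (c := c / c₁) (fun φ _ _ => by
    have h1 := hsign φ
    have h2 : φ (c₁ : K) ≠ 0 := (map_ne_zero φ).2 c₁.ne_zero
    rw [Units.val_div_eq_div_val, map_div₀]
    have h3 : φ (c : K) / φ (c₁ : K) = φ (c₁ : K) * φ (c : K) / φ (c₁ : K) ^ 2 := by
      field_simp
    rw [h3]
    positivity)
  obtain ⟨e₃, he₃⟩ := scale_iso (c / c₁ : Kˣ).ne_zero hu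
  obtain ⟨e₀, he₀⟩ := qe_iso (k := K) two_ne_zero ε ((n * a₁ : Kˣ) : K)
  have hc₁ : (c₁ : K) ≠ 0 := c₁.ne_zero
  refine ⟨ε, ((n * a₁ : Kˣ) : K), c₁, ⟨(n * a₁ : Kˣ).ne_zero, hc₁, he, fun w hw => ?_, hdual⟩,
    ⟨((e₀.trans e₃.symm).trans e₂.symm).trans e₁.symm, fun v => ?_⟩, fun w hw => ?_⟩
  · by_cases h : a₁ ∈ LNm w b'
    · left
      rw [Units.val_mul]
      exact (hadj w hw).1 h
    · right
      rw [Units.val_mul]
      exact ⟨(hadj w hw).2 h, hirr w hw fun h' => h ((hloc w).2 h')⟩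
  · have h1 : qn (b : K) a (e₁.symm (e₂.symm (e₃.symm (e₀ v)))) =
        qn (b' : K) a₁ (e₂.symm (e₃.symm (e₀ v))) := by
      rw [← he₁, e₁.apply_symm_apply]
    have h2 : qn (b' : K) a₁ (e₂.symm (e₃.symm (e₀ v))) =
        qn (b' : K) ((n : K) * a₁) (e₃.symm (e₀ v)) := by
      rw [← he₂, e₂.apply_symm_apply]
    have h3 : qn (b' : K) ((n * a₁ : Kˣ) : K) (e₀ v) =
        ((c / c₁ : Kˣ) : K) * qn (b' : K) ((n * a₁ : Kˣ) : K) (e₃.symm (e₀ v)) := by
      rw [← he₃, e₃.apply_symm_apply]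
    show (c : K) * qn (b : K) a (e₁.symm (e₂.symm (e₃.symm (e₀ v)))) = _
    rw [h1, h2, ← he₀, ← hb', h3, Units.val_mul, Units.val_div_eq_div_val]
    field_simp
  · constructor
    · intro h h1
      rw [Units.val_mul, (hadj w hw).2 (fun h' => h ((hloc w).1 h'))] at h1
      rw [← WithZero.exp_zero, WithZero.exp_inj] at h1
      norm_num at h1
    · intro h h1
      apply h
      rw [Units.val_mul]
      exact (hadj w hw).1 ((hloc w).2 h1)

end Dr
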