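import Pool.Agent.Lib.MP_f80667_ag.Dr.Loc3

/-! The element `ε`. -/

open IsDedekindDomain NumberField

namespace Dr

open Hm

variable {F : Type} [Field F] [NumberField F] (K : Type) [Field K] [NumberField K] [Algebra F K]

variable {K}

/-- An element of the residue field which is not of the form `x² - x`. -/
private theorem nA_exists (w : HeightOneSpectrum (𝓞 K)) :
    ∃ e : K, w.valuation K e ≤ 1 ∧ ∀ x : K, w.valuation K x ≤ 1 →
      w.valuation K (x ^ 2 - x - e) = 1 := by
  have hf : Finite (𝓞 K ⧸ w.asIdeal) := Ideal.finiteQuotientOfFreeOfNeBot _ w.ne_bot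
  have hnt : Nontrivial (𝓞 K ⧸ w.asIdeal) := Ideal.Quotient.nontrivial_iff.2 w.isPrime.ne_top
  have hni : ¬ Function.Injective (fun x : 𝓞 K ⧸ w.asIdeal => x ^ 2 - x) := by
    intro hi
    have h1 : (fun x : 𝓞 K ⧸ w.asIdeal => x ^ 2 - x) 0 = (fun x : 𝓞 K ⧸ w.asIdeal => x ^ 2 - x) 1 := by
      simp
    exact zero_ne_one (hi h1)
  have hns : ¬ Function.Surjective (fun x : 𝓞 K ⧸ w.asIdeal => x ^ 2 - x) := fun h =>
    hni (Finite.injective_iff_surjective.2 h)
  rw [Function.Surjective] at hns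
  push Not at hns
  obtain ⟨z, hz⟩ := hns
  obtain ⟨e, rfl⟩ := Ideal.Quotient.mk_surjective z
  refine ⟨algebraMap (𝓞 K) K e, w.valuation_le_one e, fun x hx => ?_⟩
  have hle : w.valuation K (x ^ 2 - x - algebraMap (𝓞 K) K e) ≤ 1 := by
    refine (w.valuation K).map_sub_le ((w.valuation K).map_sub_le ?_ hx) (w.valuation_le_one e)
    rw [map_pow]
    exact pow_le_one₀ zero_le hx
  refine le_antisymm hle (not_lt.1 fun hlt => ?_)
  obtain ⟨a, ha⟩ := exists_near_int hx
  apply hz (Ideal.Quotient.mk _ a)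
  rw [← map_pow, ← map_sub, Ideal.Quotient.eq, ← HeightOneSpectrum.valuation_lt_one_iff_mem (K := K)]
  have e1 : algebraMap (𝓞 K) K (a ^ 2 - a - e) = (algebraMap (𝓞 K) K a - x) *
      (algebraMap (𝓞 K) K a + x - 1) + (x ^ 2 - x - algebraMap (𝓞 K) K e) := by
    rw [map_sub, map_sub, map_pow]
    ring
  change w.valuation K (algebraMap (𝓞 K) K (a ^ 2 - a - e)) < 1
  rw [e1]
  refine lt_of_le_of_lt (Valuation.map_add _ _ _) (max_lt ?_ hlt)
  rw [map_mul]
  have h2 : w.valuation K (algebraMap (𝓞 K) K a + x - 1) ≤ 1 :=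
    (w.valuation K).map_sub_le ((w.valuation K).map_add_le (w.valuation_le_one a) hx) (by rw [map_one])
  calc _ ≤ w.valuation K (algebraMap (𝓞 K) K a - x) * 1 := mul_le_mul_right h2 _
    _ < 1 := by rwa [mul_one]

/-- Elements near `e`. -/
private theorem nA_near {w : HeightOneSpectrum (𝓞 K)} {e ε : K} (he : w.valuation K e ≤ 1)
    (h : ∀ x : K, w.valuation K x ≤ 1 → w.valuation K (x ^ 2 - x - e) = 1)
    (hε : w.valuation K (ε - e) < 1) :
    w.valuation K ε ≤ 1 ∧ ∀ x : K, w.valuation K x ≤ 1 → w.valuation K (x ^ 2 - x - ε) = 1 := by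
  have e0 : ε = (ε - e) + e := by ring
  refine ⟨?_, fun x hx => ?_⟩
  · rw [e0]
    exact (w.valuation K).map_add_le hε.le he
  · have e1 : x ^ 2 - x - ε = (x ^ 2 - x - e) - (ε - e) := by ring
    rw [e1, Valuation.map_sub_eq_of_lt_left, h x hx]
    rw [h x hx]
    exact hε

/-- `1 + 4 ε` is a unit. -/
private theorem nA_unit {w : HeightOneSpectrum (𝓞 K)} {ε : K} (he : w.valuation K ε ≤ 1)
    (h : ∀ x : K, w.valuation K x ≤ 1 → w.valuation K (x ^ 2 - x - ε) = 1) :
    w.valuation K (1 + 4 * ε) = 1 := by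
  rcases (val2_le w).lt_or_eq with h2 | h2
  · rw [Valuation.map_add_eq_of_lt_left, map_one]
    have e4 : (4 : K) * ε = 2 * (2 * ε) := by ring
    rw [map_one, e4, map_mul]
    have h3 : w.valuation K (2 * ε) ≤ 1 := by
      rw [map_mul]
      exact mul_le_one' h2.le he
    calc _ ≤ w.valuation K 2 * 1 := mul_le_mul_right h3 _
      _ < 1 := by rwa [mul_one]
  · have h3 : w.valuation K (1 / 2 : K) = 1 := by
      rw [one_div, map_inv₀, h2, inv_one]
    have h4 := h (1 / 2) h3.le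
    have e1 : (1 : K) + 4 * ε = -(4 * ((1 / 2) ^ 2 - 1 / 2 - ε)) := by ring
    rw [e1, Valuation.map_neg, map_mul, h4, mul_one, val4_eq_one h2]

/-- `1 + 4 ε` is not a local square. -/
private theorem nA_nsq {w : HeightOneSpectrum (𝓞 K)} {ε : K} (he : w.valuation K ε ≤ 1)
    (h : ∀ x : K, w.valuation K x ≤ 1 → w.valuation K (x ^ 2 - x - ε) = 1) {b' : Kˣ}
    (hb : (b' : K) = 1 + 4 * ε) : b' ∉ LSq w := by
  rintro ⟨y, hy⟩
  have hb1 : w.valuation K (b' : K) = 1 := by rw [hb]; exact nA_unit he h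
  have hy0 : (y : K) ≠ 0 := y.ne_zero
  have h40 : (4 : K) ≠ 0 := by norm_num
  have h4 := val4_le w
  have hy1 : w.valuation K (y : K) = 1 := by
    have h5 : w.valuation K ((b' : K) * (y : K) ^ 2) = 1 := by
      have e1 : (b' : K) * (y : K) ^ 2 = 1 + ((b' : K) * (y : K) ^ 2 - 1) := by ring
      rw [e1, Valuation.map_add_eq_of_lt_left, map_one]
      rw [map_one]
      exact lt_of_lt_of_le hy h4
    rw [map_mul, hb1, one_mul, map_pow] at h5
    exact (pow_eq_one_iff_of_nonneg zero_le two_ne_zero).1 h5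
  have key : w.valuation K (((1 + (y : K)⁻¹) / 2) ^ 2 - (1 + (y : K)⁻¹) / 2 - ε) < 1 := by
    have e2 : ((1 + (y : K)⁻¹) / 2) ^ 2 - (1 + (y : K)⁻¹) / 2 - ε =
        -((((b' : K) * (y : K) ^ 2 - 1) * ((y : K)⁻¹) ^ 2) * (4 : K)⁻¹) := by
      rw [hb]
      field_simp
      ring
    rw [e2, Valuation.map_neg, map_mul, map_mul, map_pow, map_inv₀, hy1, inv_one, one_pow, mul_one,
      map_inv₀]
    have h6 := mul_lt_mul_of_pos_right hy (inv_pos.2 (val4_pos w))
    rwa [mul_inv_cancel₀ (val4_pos w).ne'] at h6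
  by_cases hx : w.valuation K ((1 + (y : K)⁻¹) / 2) ≤ 1
  · exact key.ne (h _ hx)
  · push Not at hx
    set x : K := (1 + (y : K)⁻¹) / 2 with hxd
    have h7 : w.valuation K (x ^ 2 - x) ≤ 1 := by
      have e3 : x ^ 2 - x = (x ^ 2 - x - ε) + ε := by ring
      rw [e3]
      exact (w.valuation K).map_add_le key.le he
    have h8 : w.valuation K (x - 1) = w.valuation K x := by
      rw [Valuation.map_sub_eq_of_lt_left]
      rw [map_one]
      exact hx
    have e4 : x ^ 2 - x = x * (x - 1) := by ring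
    rw [e4, map_mul, h8] at h7
    have h9 : 1 < w.valuation K x * w.valuation K x := one_lt_mul'' hx hx
    exact absurd h7 (not_le.2 h9)

/-- The element `ε`. Proof: at a ramified `w` above `p` an element `ε_w` which is not of the form `x² - x`
in the residue field (`x ↦ x² - x` is not injective, so not surjective); then `1 + 4 ε` is a unit
(otherwise `x = 1 / 2` is a root modulo `w`) and not a square (`(1 + r) / 2` would be a root). At the other
`w` above `p`: `ε` near `0`. At the other ramified `w`: `1 + 4 ε` near a nonsquare. At the ramified real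
places `ε < -1/4`. Weak approximation (`Hm.wapr`). -/
theorem exists_eps (p : HeightOneSpectrum (𝓞 F)) (b a : Kˣ) :
    ∃ (ε : K) (b' : Kˣ), (b' : K) = 1 + 4 * ε ∧
      (∀ w : HeightOneSpectrum (𝓞 K), w.under (𝓞 F) = p →
        w.valuation K ε ≤ 1 ∧ w.valuation K (1 + 4 * ε) = 1) ∧
      (∀ w : HeightOneSpectrum (𝓞 K), w.under (𝓞 F) = p → a ∉ LNm w b →
        ∀ x : K, w.valuation K x ≤ 1 → w.valuation K (x ^ 2 - x - ε) = 1) ∧
      (∀ w : HeightOneSpectrum (𝓞 K), a ∉ LNm w b → b' ∉ LSq w) ∧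
      ∀ φ : K →+* ℝ, φ b < 0 → φ a < 0 → φ b' < 0 := by
  classical
  -- the finite set of places
  have hfp : {w : HeightOneSpectrum (𝓞 K) | w.under (𝓞 F) = p}.Finite := by
    obtain ⟨x, hx, hx0⟩ := Submodule.exists_mem_ne_zero_of_ne_bot p.ne_bot
    have hx1 : algebraMap (𝓞 K) K (algebraMap (𝓞 F) (𝓞 K) x) ≠ 0 := by
      rw [Ne, FaithfulSMul.algebraMap_eq_zero_iff, FaithfulSMul.algebraMap_eq_zero_iff]
      exact hx0
    refine (finite_val_ne_one (Units.mk0 _ hx1)).subset ?_
    intro w hw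
    have h1 : algebraMap (𝓞 F) (𝓞 K) x ∈ w.asIdeal := by
      have h2 : x ∈ (w.under (𝓞 F)).asIdeal := by
        have h3 : w.under (𝓞 F) = p := hw
        rw [h3]
        exact hx
      exact h2
    exact ((HeightOneSpectrum.valuation_lt_one_iff_mem (K := K) _ _).2 h1).ne
  have hfl := finite_LNm (K := K) b a
  choose e he1 he2 using fun w : HeightOneSpectrum (𝓞 K) => nA_exists w
  let S : Finset (HeightOneSpectrum (𝓞 K)) := hfp.toFinset ∪ hfl.toFinset
  have hS1 : ∀ w : HeightOneSpectrum (𝓞 K), w.under (𝓞 F) = p → w ∈ S := fun w hw =>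
    Finset.mem_union_left _ (hfp.mem_toFinset.2 hw)
  have hS2 : ∀ w : HeightOneSpectrum (𝓞 K), a ∉ LNm w b → w ∈ S := fun w hw =>
    Finset.mem_union_right _ (hfl.mem_toFinset.2 hw)
  let t : HeightOneSpectrum (𝓞 K) → K := fun w =>
    if w.under (𝓞 F) = p then (if a ∉ LNm w b then e w else 0) else ((a : K) - 1) / 4
  let g : HeightOneSpectrum (𝓞 K) → WithZero (Multiplicative ℤ) := fun w =>
    if w.under (𝓞 F) = p then 1 else w.valuation K (a : K)
  have hg : ∀ w, g w ≠ 0 := by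
    intro w
    by_cases hw : w.under (𝓞 F) = p
    · simp only [g, if_pos hw]
      exact one_ne_zero
    · simp only [g, if_neg hw]
      exact (w.valuation K).ne_zero_iff.2 a.ne_zero
  obtain ⟨ε, h1, h2⟩ := wapr S t (fun φ => if φ b < 0 ∧ φ a < 0 then -1 else 0) g hg (1 / 2)
    (by norm_num)
  -- places above `p`
  have hp1 : ∀ w : HeightOneSpectrum (𝓞 K), w.under (𝓞 F) = p → a ∉ LNm w b →
      w.valuation K ε ≤ 1 ∧ ∀ x : K, w.valuation K x ≤ 1 → w.valuation K (x ^ 2 - x - ε) = 1 := by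
    intro w hw hr
    have h3 := h1 w (hS1 w hw)
    simp only [t, g, if_pos hw, if_pos hr] at h3
    exact nA_near (he1 w) (he2 w) h3
  have hp2 : ∀ w : HeightOneSpectrum (𝓞 K), w.under (𝓞 F) = p → ¬ a ∉ LNm w b →
      w.valuation K ε < 1 := by
    intro w hw hr
    have h3 := h1 w (hS1 w hw)
    simp only [t, g, if_pos hw, if_neg hr, sub_zero] at h3
    exact h3
  have hp3 : ∀ w : HeightOneSpectrum (𝓞 K), w.under (𝓞 F) = p →
      w.valuation K ε ≤ 1 ∧ w.valuation K (1 + 4 * ε) = 1 := by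
    intro w hw
    by_cases hr : a ∉ LNm w b
    · exact ⟨(hp1 w hw hr).1, nA_unit (hp1 w hw hr).1 (hp1 w hw hr).2⟩
    · have h3 := hp2 w hw hr
      refine ⟨h3.le, ?_⟩
      rw [Valuation.map_add_eq_of_lt_left, map_one]
      rw [map_one, map_mul]
      calc _ ≤ 1 * w.valuation K ε := mul_le_mul_left (val4_le w) _
        _ < 1 := by rwa [one_mul]
  -- the other ramified places
  have hp4 : ∀ w : HeightOneSpectrum (𝓞 K), w.under (𝓞 F) ≠ p → a ∉ LNm w b →
      w.valuation K ((1 + 4 * ε) - (a : K)) < w.valuation K (4 * (a : K)) := by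
    intro w hw hr
    have h3 := h1 w (hS2 w hr)
    simp only [t, g, if_neg hw] at h3
    have e1 : (1 + 4 * ε) - (a : K) = 4 * (ε - ((a : K) - 1) / 4) := by ring
    rw [e1, map_mul, map_mul]
    exact mul_lt_mul_of_pos_left h3 (val4_pos w)
  have hR : ∀ φ : K →+* ℝ, φ b < 0 → φ a < 0 → φ (1 + 4 * ε) < 0 := by
    intro φ hb ha
    have h3 := h2 φ
    rw [if_pos ⟨hb, ha⟩, abs_lt] at h3
    rw [map_add, map_one, map_mul, map_ofNat]
    linarith [h3.2]
  by_cases h0 : 1 + 4 * ε = 0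
  · -- then there is no place above `p` and no ramified place
    have hn1 : ∀ w : HeightOneSpectrum (𝓞 K), w.under (𝓞 F) ≠ p := by
      intro w hw
      have h3 := (hp3 w hw).2
      rw [h0, map_zero] at h3
      exact zero_ne_one h3
    have hn2 : ∀ w : HeightOneSpectrum (𝓞 K), ¬ a ∉ LNm w b := by
      intro w hr
      have h3 := hp4 w (hn1 w) hr
      rw [h0, zero_sub, Valuation.map_neg, map_mul] at h3
      have h4 : w.valuation K 4 * w.valuation K (a : K) ≤ 1 * w.valuation K (a : K) :=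
        mul_le_mul_left (val4_le w) _
      rw [one_mul] at h4
      exact absurd h3 (not_lt.2 h4)
    refine ⟨-1, Units.mk0 (1 + 4 * (-1)) (by norm_num), rfl, fun w hw => (hn1 w hw).elim,
      fun w hw => (hn1 w hw).elim, fun w hr => (hn2 w hr).elim, fun φ _ _ => ?_⟩
    rw [Units.val_mk0, map_add, map_one, map_mul, map_ofNat, map_neg, map_one]
    norm_num
  · refine ⟨ε, Units.mk0 _ h0, rfl, hp3, fun w hw hr => (hp1 w hw hr).2, fun w hr => ?_, fun φ hb ha => ?_⟩
    · by_cases hw : w.under (𝓞 F) = p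
      · exact nA_nsq (hp1 w hw hr).1 (hp1 w hw hr).2 (Units.val_mk0 h0)
      · intro hsq
        have h3 : Units.mk0 _ h0 / a ∈ LSq w := div_mem_LSq (by
          rw [Units.val_mk0]
          exact hp4 w hw hr)
        apply hr
        apply LSq_le_LNm
        have h4 := mul_mem hsq (inv_mem h3)
        rwa [inv_div, mul_div_cancel] at h4
    · rw [Units.val_mk0]
      exact hR φ hb ha

end Dr
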