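import Pool.Agent.Lib.MP_f80667_ag.Dr.Loc2
import Pool.Agent.Lib.MP_f80667_ag.Dr.Df
import Pool.Agent.Lib.MP_f80667_ag.Hm.Ord

/-! Unramified norms, also at the dyadic places. -/

open IsDedekindDomain NumberField

namespace Dr

open Hm

/-- The form takes all values over a finite field. -/
theorem ff_nn {κ : Type*} [Field κ] [Finite κ] (e a : κ) (h : 1 + 4 * e ≠ 0) :
    ∃ x y : κ, nn e x y = a := by
  classical
  have : Fintype κ := Fintype.ofFinite κ
  by_cases h2 : ringChar κ = 2
  · obtain ⟨x, hx⟩ := FiniteField.isSquare_of_char_two h2 a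
    refine ⟨x, 0, ?_⟩
    rw [hx]
    unfold nn
    ring
  · have h2' : (2 : κ) ≠ 0 := Ring.two_ne_zero h2
    have hodd : Fintype.card κ % 2 = 1 := FiniteField.odd_card_of_char_ne_two h2
    obtain ⟨s, t, hst⟩ := FiniteField.exists_root_sum_quadratic
      (f := Polynomial.C (1 : κ) * Polynomial.X ^ 2 + Polynomial.C 0 * Polynomial.X + Polynomial.C 0)
      (g := Polynomial.C (-(1 + 4 * e)) * Polynomial.X ^ 2 + Polynomial.C 0 * Polynomial.X +
        Polynomial.C (-(4 * a)))
      (Polynomial.degree_quadratic one_ne_zero) (Polynomial.degree_quadratic (neg_ne_zero.2 h)) hodd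
    simp only [Polynomial.eval_add, Polynomial.eval_mul, Polynomial.eval_C, Polynomial.eval_pow,
      Polynomial.eval_X] at hst
    refine ⟨(s - t) / 2, t, ?_⟩
    have h4 : (4 : κ) ≠ 0 := by
      have : (4 : κ) = 2 * 2 := by norm_num
      rw [this]
      exact mul_ne_zero h2' h2'
    have h5 : 4 * nn e ((s - t) / 2) t = 4 * a := by
      unfold nn
      have h6 : 4 * (((s - t) / 2) ^ 2 + ((s - t) / 2) * t - e * t ^ 2) =
          s ^ 2 - (1 + 4 * e) * t ^ 2 := by
        field_simp
        ring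
      rw [h6]
      linear_combination hst
    exact mul_left_cancel₀ h4 h5

variable {F : Type} [Field F] [NumberField F] (K : Type) [Field K] [NumberField K] [Algebra F K]

variable {K}

theorem G_int (w : HeightOneSpectrum (𝓞 K)) (a : 𝓞 K) :
    G (w.valuation K) 0 (algebraMap (𝓞 K) K a) := by
  rw [G, neg_zero, WithZero.exp_zero]
  exact w.valuation_le_one a

theorem G_zero_iff {w : HeightOneSpectrum (𝓞 K)} {x : K} :
    G (w.valuation K) 0 x ↔ w.valuation K x ≤ 1 := by
  rw [G, neg_zero, WithZero.exp_zero]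

theorem E_zero_iff {w : HeightOneSpectrum (𝓞 K)} {x : K} :
    E (w.valuation K) 0 x ↔ w.valuation K x = 1 := by
  rw [E, neg_zero, WithZero.exp_zero]

theorem G_one_iff {w : HeightOneSpectrum (𝓞 K)} {x : K} :
    G (w.valuation K) 1 x ↔ w.valuation K x < 1 := by
  rw [G]
  constructor
  · intro h
    refine lt_of_le_of_lt h ?_
    rw [← WithZero.exp_zero, WithZero.exp_lt_exp]
    norm_num
  · intro h
    by_cases hx : x = 0
    · rw [hx, map_zero]
      exact zero_le
    · obtain ⟨k, hk⟩ := exists_E (w.valuation K) hx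
      rw [E] at hk
      rw [hk] at h ⊢
      rw [← WithZero.exp_zero, WithZero.exp_lt_exp] at h
      rw [WithZero.exp_le_exp]
      omega

theorem G_two (w : HeightOneSpectrum (𝓞 K)) : G (w.valuation K) 0 (2 : K) := by
  have e : algebraMap (𝓞 K) K 2 = 2 := map_ofNat (algebraMap (𝓞 K) K) 2
  rw [← e]
  exact G_int w 2

/-- The value is taken modulo `w`. -/
theorem res_nn {w : HeightOneSpectrum (𝓞 K)} {ε a : K} (h1 : w.valuation K ε ≤ 1)
    (h2 : w.valuation K (1 + 4 * ε) = 1) (ha : w.valuation K a ≤ 1) :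
    ∃ x y : K, G (w.valuation K) 0 x ∧ G (w.valuation K) 0 y ∧
      G (w.valuation K) 1 (nn ε x y - a) := by
  classical
  obtain ⟨e0, he0⟩ := exists_near_int h1
  obtain ⟨a0, ha0⟩ := exists_near_int ha
  have hm : w.asIdeal.IsMaximal := w.isMaximal
  let _ : Field (𝓞 K ⧸ w.asIdeal) := Ideal.Quotient.field w.asIdeal
  have : Finite (𝓞 K ⧸ w.asIdeal) := Ideal.finiteQuotientOfFreeOfNeBot w.asIdeal w.ne_bot
  have hE : G (w.valuation K) 1 (algebraMap (𝓞 K) K e0 - ε) := G_one_iff.2 he0
  have hA : G (w.valuation K) 1 (algebraMap (𝓞 K) K a0 - a) := G_one_iff.2 ha0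
  have h4 : G (w.valuation K) 0 (4 : K) := by
    have : (4 : K) = 2 * 2 := by norm_num
    rw [this]
    exact (G_two w).mul (G_two w)
  have hne : 1 + 4 * Ideal.Quotient.mk w.asIdeal e0 ≠ 0 := by
    intro h0
    have h3 : (1 + 4 * e0) ∈ w.asIdeal := by
      rw [← Ideal.Quotient.eq_zero_iff_mem, map_add, map_mul, map_one, map_ofNat]
      exact h0
    rw [← HeightOneSpectrum.valuation_lt_one_iff_mem (K := K), ← G_one_iff] at h3
    have h5 : G (w.valuation K) 1 (1 + 4 * ε) := by
      have e : 1 + 4 * ε = algebraMap (𝓞 K) K (1 + 4 * e0) -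
          4 * (algebraMap (𝓞 K) K e0 - ε) := by
        rw [map_add, map_mul, map_one, map_ofNat]
        ring
      rw [e]
      refine h3.sub ?_
      have := h4.mul hE
      rwa [zero_add] at this
    have h6 := (E_zero_iff.2 h2).ge_iff.1 h5
    omega
  obtain ⟨x, y, hxy⟩ := ff_nn (Ideal.Quotient.mk w.asIdeal e0) (Ideal.Quotient.mk w.asIdeal a0) hne
  obtain ⟨x0, rfl⟩ := Ideal.Quotient.mk_surjective x
  obtain ⟨y0, rfl⟩ := Ideal.Quotient.mk_surjective y
  have h7 : nn e0 x0 y0 - a0 ∈ w.asIdeal := by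
    rw [← Ideal.Quotient.eq, ← hxy]
    unfold nn
    simp only [map_add, map_sub, map_mul, map_pow]
  rw [← HeightOneSpectrum.valuation_lt_one_iff_mem (K := K), ← G_one_iff] at h7
  refine ⟨algebraMap (𝓞 K) K x0, algebraMap (𝓞 K) K y0, G_int w x0, G_int w y0, ?_⟩
  have e : nn ε (algebraMap (𝓞 K) K x0) (algebraMap (𝓞 K) K y0) - a =
      algebraMap (𝓞 K) K (nn e0 x0 y0 - a0) + (algebraMap (𝓞 K) K e0 - ε) *
        (algebraMap (𝓞 K) K y0) ^ 2 + (algebraMap (𝓞 K) K a0 - a) := by
    unfold nn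
    simp only [map_add, map_sub, map_mul, map_pow]
    ring
  rw [e]
  refine (h7.add ?_).add hA
  have := hE.mul (G_int w y0).sq
  simpa using this

/-- Hensel's lemma for the form. -/
theorem hensel_nn {w : HeightOneSpectrum (𝓞 K)} {ε a : K} (h1 : w.valuation K ε ≤ 1)
    (h2 : w.valuation K (1 + 4 * ε) = 1) (ha : w.valuation K a = 1) (n : ℕ) :
    ∃ x y : K, G (w.valuation K) 0 x ∧ G (w.valuation K) 0 y ∧
      G (w.valuation K) ((n : ℤ) + 1) (nn ε x y - a) ∧
      (E (w.valuation K) 0 (2 * x + y) ∨ E (w.valuation K) 0 (x - 2 * ε * y)) := by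
  have hε : G (w.valuation K) 0 ε := G_zero_iff.2 h1
  have h2' := G_two w
  induction n with
  | zero =>
    obtain ⟨x, y, hx, hy, hxy⟩ := res_nn h1 h2 ha.le
    refine ⟨x, y, hx, hy, by simpa using hxy, ?_⟩
    by_contra hcon
    rw [not_or] at hcon
    have g1 : G (w.valuation K) 0 (2 * x + y) := by
      have := h2'.mul hx
      rw [zero_add] at this
      exact this.add hy
    have g2 : G (w.valuation K) 0 (x - 2 * ε * y) := by
      have := (h2'.mul hε).mul hy
      rw [zero_add, zero_add] at this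
      exact hx.sub this
    have g3 : G (w.valuation K) 1 (2 * x + y) := by
      by_contra h3
      exact hcon.1 (E_of g1 (by simpa using h3))
    have g4 : G (w.valuation K) 1 (x - 2 * ε * y) := by
      by_contra h3
      exact hcon.2 (E_of g2 (by simpa using h3))
    have g5 : G (w.valuation K) 1 y := by
      have e : (1 + 4 * ε) * y = (2 * x + y) - 2 * (x - 2 * ε * y) := by ring
      have g6 : G (w.valuation K) 1 ((1 + 4 * ε) * y) := by
        rw [e]
        have := h2'.mul g4
        rw [zero_add] at this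
        exact g3.sub this
      have g7 : w.valuation K ((1 + 4 * ε) * y) = w.valuation K y := by
        rw [map_mul, h2, one_mul]
      rw [G, g7] at g6
      exact g6
    have g8 : G (w.valuation K) 1 x := by
      have e : x = (x - 2 * ε * y) + 2 * ε * y := by ring
      rw [e]
      refine g4.add ?_
      have := (h2'.mul hε).mul g5
      rwa [zero_add, zero_add] at this
    have g9 : G (w.valuation K) 1 a := by
      have e : a = x * x + x * y - ε * (y * y) - (nn ε x y - a) := by
        unfold nn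
        ring
      rw [e]
      refine ((?_ : G (w.valuation K) 1 _).sub ?_).sub hxy
      · exact ((g8.mul g8).mono (by norm_num)).add ((g8.mul g5).mono (by norm_num))
      · exact (hε.mul (g5.mul g5)).mono (by norm_num)
    have := (E_zero_iff.2 ha).ge_iff.1 g9
    omega
  | succ n ih =>
    obtain ⟨x, y, hx, hy, hxy, hd⟩ := ih
    have hn0 : (0 : ℤ) ≤ n := Int.natCast_nonneg n
    rcases hd with hd | hd
    · -- correct the first coordinate
      have hu : G (w.valuation K) ((n : ℤ) + 1) (-(nn ε x y - a) * (2 * x + y)⁻¹) := by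
        have := hxy.neg.mul hd.inv.ge
        simpa using this
      have hu0 : (2 * x + y) ≠ 0 := hd.ne
      refine ⟨x + -(nn ε x y - a) * (2 * x + y)⁻¹, y, hx.add (hu.mono (by omega)), hy, ?_,
        Or.inl ?_⟩
      · have e : nn ε (x + -(nn ε x y - a) * (2 * x + y)⁻¹) y - a =
            (-(nn ε x y - a) * (2 * x + y)⁻¹) ^ 2 := by
          have e1 : ∀ u : K, nn ε (x + u) y - a = (nn ε x y - a) + (2 * x + y) * u + u ^ 2 := by
            intro u
            unfold nn
            ring
          rw [e1]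
          field_simp
          ring
        rw [e]
        exact hu.sq.mono (by push_cast; omega)
      · have e : 2 * (x + -(nn ε x y - a) * (2 * x + y)⁻¹) + y =
            (2 * x + y) + 2 * (-(nn ε x y - a) * (2 * x + y)⁻¹) := by ring
        rw [e]
        exact hd.add ((h2'.mul hu).mono (by omega))
    · have hu : G (w.valuation K) ((n : ℤ) + 1) (-(nn ε x y - a) * (x - 2 * ε * y)⁻¹) := by
        have := hxy.neg.mul hd.inv.ge
        simpa using this
      have hu0 : (x - 2 * ε * y) ≠ 0 := hd.ne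
      refine ⟨x, y + -(nn ε x y - a) * (x - 2 * ε * y)⁻¹, hx, hy.add (hu.mono (by omega)), ?_,
        Or.inr ?_⟩
      · have e : nn ε x (y + -(nn ε x y - a) * (x - 2 * ε * y)⁻¹) - a =
            -(ε * (-(nn ε x y - a) * (x - 2 * ε * y)⁻¹) ^ 2) := by
          have e1 : ∀ u : K, nn ε x (y + u) - a =
              (nn ε x y - a) + (x - 2 * ε * y) * u - ε * u ^ 2 := by
            intro u
            unfold nn
            ring
          rw [e1]
          field_simp
          ring
        rw [e]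
        exact (hε.mul hu.sq).neg.mono (by push_cast; omega)
      · have e : x - 2 * ε * (y + -(nn ε x y - a) * (x - 2 * ε * y)⁻¹) =
            (x - 2 * ε * y) - 2 * ε * (-(nn ε x y - a) * (x - 2 * ε * y)⁻¹) := by ring
        rw [e]
        exact hd.sub (((h2'.mul hε).mul hu).mono (by omega))

/-- The values of the form are norms. -/
theorem nn_mem_Nrm {ε : K} {b' : Kˣ} (hb : (b' : K) = 1 + 4 * ε) {x y : K} {c : Kˣ}
    (hc : (c : K) = nn ε x y) : c ∈ Nrm b' := by
  refine mem_Nrm.2 ⟨x + y / 2, y / 2, ?_⟩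
  rw [hc, hb]
  unfold nn
  field_simp
  ring

/-- Units are local norms. -/
theorem unit_norm {w : HeightOneSpectrum (𝓞 K)} {ε : K} {b' : Kˣ} (hb : (b' : K) = 1 + 4 * ε)
    (h1 : w.valuation K ε ≤ 1) (h2 : w.valuation K (1 + 4 * ε) = 1) {a : Kˣ}
    (ha : w.valuation K (a : K) = 1) : a ∈ LNm w b' := by
  obtain ⟨j, hj⟩ := exists_E (w.valuation K) (by norm_num : (4 : K) ≠ 0)
  obtain ⟨x, y, hx, hy, hxy, -⟩ := hensel_nn h1 h2 ha j.toNat
  have hxy' : G (w.valuation K) (j + 1) (nn ε x y - a) := hxy.mono (by omega)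
  have hxy1 : G (w.valuation K) 1 (nn ε x y - a) := hxy.mono (by omega)
  have hN : E (w.valuation K) 0 (nn ε x y) := by
    have e : nn ε x y = a + (nn ε x y - a) := by ring
    rw [e]
    exact (E_zero_iff.2 ha).add (by simpa using hxy1)
  have hN0 : nn ε x y ≠ 0 := hN.ne
  have hmem : a / Units.mk0 _ hN0 ∈ LSq w := by
    refine div_mem_LSq ?_
    rw [Units.val_mk0, map_mul, E_zero_iff.1 hN, mul_one, hj]
    have h3 : w.valuation K ((a : K) - nn ε x y) ≤ WithZero.exp (-(j + 1)) := by
      rw [← Valuation.map_neg, neg_sub]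
      exact hxy'
    exact lt_of_le_of_lt h3 (WithZero.exp_lt_exp.2 (by omega))
  have : a = (a / Units.mk0 _ hN0) * Units.mk0 _ hN0 := by rw [div_mul_cancel]
  rw [this]
  exact mul_mem (LSq_le_LNm w b' hmem) (Nrm_le_LNm w b' (nn_mem_Nrm hb (Units.val_mk0 hN0)))

/-- Unramified norms: if `1 + 4 ε` is a unit and `a` has even valuation then it is a local norm (also at
dyadic places). Proof: a unit is `z² + z y - ε y²` modulo `w` (the norm form of a quadratic algebra over a
finite field, nondegenerate, takes all values), with a nonzero partial derivative, so by Hensel in the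
completion. -/
theorem even_norm {w : HeightOneSpectrum (𝓞 K)} {ε : K} {b' : Kˣ} (hb : (b' : K) = 1 + 4 * ε)
    (h1 : w.valuation K ε ≤ 1) (h2 : w.valuation K (1 + 4 * ε) = 1) {a : Kˣ} {m : ℤ}
    (ha : w.valuation K (a : K) = WithZero.exp (2 * m)) : a ∈ LNm w b' := by
  obtain ⟨ϖ, hϖ⟩ := w.valuation_exists_uniformizer K
  have hϖ0 : ϖ ≠ 0 := by
    rintro rfl
    rw [map_zero] at hϖ
    exact WithZero.exp_ne_zero hϖ.symm
  obtain ⟨t, ht⟩ : ∃ t : Kˣ, t = Units.mk0 ϖ hϖ0 := ⟨_, rfl⟩
  have htv : ∀ n : ℤ, w.valuation K ((t ^ n : Kˣ) : K) = WithZero.exp (-n) := by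
    intro n
    rw [Units.val_zpow_eq_zpow_val, map_zpow₀, ht, Units.val_mk0, hϖ, ← WithZero.exp_zsmul]
    congr 1
    simp
  have h3 : w.valuation K ((a * (t ^ m) ^ 2 : Kˣ) : K) = 1 := by
    rw [Units.val_mul, Units.val_pow_eq_pow_val, map_mul, map_pow, ha, htv, ← WithZero.exp_nsmul,
      ← WithZero.exp_add, ← WithZero.exp_zero]
    congr 1
    simp
  have h4 := unit_norm hb h1 h2 h3
  have h5 : a = (a * (t ^ m) ^ 2) * ((t ^ m) ^ 2)⁻¹ := by rw [mul_inv_cancel_right]
  rw [h5]
  exact mul_mem h4 (inv_mem (LSq_le_LNm w b' (sq_mem_LSq w _)))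

/-- The values of the anisotropic form have even valuation. -/
theorem nn_even {w : HeightOneSpectrum (𝓞 K)} {ε : K} (h1 : w.valuation K ε ≤ 1)
    (h : ∀ x : K, w.valuation K x ≤ 1 → w.valuation K (x ^ 2 - x - ε) = 1) {x y : K}
    (h0 : nn ε x y ≠ 0) : ∃ k : ℤ, E (w.valuation K) (2 * k) (nn ε x y) := by
  have hε : G (w.valuation K) 0 ε := G_zero_iff.2 h1
  by_cases hy : y = 0
  · have hx : x ≠ 0 := by
      rintro rfl
      apply h0
      rw [hy]
      unfold nn
      ring
    obtain ⟨k, hk⟩ := exists_E (w.valuation K) hx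
    refine ⟨k, ?_⟩
    have e : nn ε x y = x ^ 2 := by
      rw [hy]
      unfold nn
      ring
    rw [e]
    exact hk.sq
  obtain ⟨l, hl⟩ := exists_E (w.valuation K) hy
  by_cases hx : G (w.valuation K) l x
  · refine ⟨l, ?_⟩
    have h2 : w.valuation K (-(x * y⁻¹)) ≤ 1 := by
      rw [Valuation.map_neg, ← G_zero_iff]
      have := hx.mul hl.inv.ge
      rwa [add_neg_cancel] at this
    have h3 := E_zero_iff.2 (h _ h2)
    have e : nn ε x y = y ^ 2 * ((-(x * y⁻¹)) ^ 2 - (-(x * y⁻¹)) - ε) := by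
      unfold nn
      field_simp
      ring
    rw [e]
    have := hl.sq.mul h3
    rwa [add_zero] at this
  · have hx0 : x ≠ 0 := by
      rintro rfl
      exact hx G_zero
    obtain ⟨k, hk⟩ := exists_E (w.valuation K) hx0
    have hkl : k < l := by
      by_contra hcon
      exact hx (hk.ge_iff.2 (not_lt.1 hcon))
    refine ⟨k, ?_⟩
    have h4 : G (w.valuation K) (2 * k + 1) (x * y) := (hk.ge.mul hl.ge).mono (by omega)
    have h5 : G (w.valuation K) (2 * k + 1) (ε * y ^ 2) := (hε.mul hl.sq.ge).mono (by omega)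
    have e : nn ε x y = x ^ 2 + (x * y - ε * y ^ 2) := by
      unfold nn
      ring
    rw [e]
    exact hk.sq.add (h4.sub h5)

/-- A unit is a local norm and a uniformizer is not if `X² - X - ε` is irreducible modulo `w`. -/
theorem unif_notMem {w : HeightOneSpectrum (𝓞 K)} {ε : K} {b' : Kˣ} (hb : (b' : K) = 1 + 4 * ε)
    (h1 : w.valuation K ε ≤ 1)
    (h : ∀ x : K, w.valuation K x ≤ 1 → w.valuation K (x ^ 2 - x - ε) = 1) {a : Kˣ} {m : ℤ}
    (hm : Odd m) (ha : w.valuation K (a : K) = WithZero.exp m) : a ∉ LNm w b' := by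
  intro hmem
  obtain ⟨x, y, s, hs, hxy⟩ := mem_LNm.1 hmem
  obtain ⟨z, hz⟩ := hs
  have h3 : E (w.valuation K) 0 ((s : K) * (z : K) ^ 2) := by
    have e : (s : K) * (z : K) ^ 2 = 1 + ((s : K) * (z : K) ^ 2 - 1) := by ring
    rw [e]
    refine E_one.add ?_
    rw [zero_add, G_one_iff]
    exact lt_of_lt_of_le hz (val4_le w)
  obtain ⟨i, hi⟩ := exists_E (w.valuation K) s.ne_zero
  obtain ⟨j, hj⟩ := exists_E (w.valuation K) z.ne_zero
  have h4 := h3.eq (hi.mul hj.sq)
  have ha' : E (w.valuation K) (-m) (a : K) := by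
    rw [E, neg_neg]
    exact ha
  have h5 := ha'.mul hi
  have e : (a : K) * (s : K) = nn ε (x - y) (2 * y) := by
    rw [hxy, hb]
    unfold nn
    ring
  rw [e] at h5
  obtain ⟨k, hk⟩ := nn_even h1 h h5.ne
  have h6 := h5.eq hk
  obtain ⟨r, hr⟩ := hm
  omega

end Dr
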