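import Mathlib

/-! Norms of values of a norm form. -/

open Polynomial

namespace Dr

/-- Proof: let `L_α`, `L_β` be the commuting matrices of the multiplications (entries in `k`); over the
ring `k[√d] = k[X] / (X² - d)` the determinant of `L_α + √d L_β` is `a + √d b`, the one of `L_α - √d L_β` is
`a - √d b` (conjugation), and their product is the determinant of `L_α² - d L_β²`. -/
theorem norm_form {k M : Type*} [Field k] [CommRing M] [Algebra k M] [Module.Finite k M] (d : k)
    (α β : M) : ∃ a b : k, Algebra.norm k (α ^ 2 - algebraMap k M d * β ^ 2) =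
      a ^ 2 - d * b ^ 2 := by
  classical
  let A := QuadraticAlgebra k d 0
  let f : k →+* A := algebraMap k A
  let om : A := QuadraticAlgebra.omega
  have hom : om * om = f d := by
    rw [show om * om = _ from QuadraticAlgebra.omega_mul_omega_eq_mk]
    rfl
  have hst : star om = -om := by
    ext
    · simp [om, A]
    · simp [om, A]
  have hstf : ∀ x : k, star (f x) = f x := by
    intro x
    ext
    · simp [f, A]
    · simp [f, A]
  let bs := Module.finBasis k M
  obtain ⟨Lα, hLα⟩ : ∃ L, L = Algebra.leftMulMatrix bs α := ⟨_, rfl⟩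
  obtain ⟨Lβ, hLβ⟩ : ∃ L, L = Algebra.leftMulMatrix bs β := ⟨_, rfl⟩
  have hcomm : Lα * Lβ = Lβ * Lα := by
    rw [hLα, hLβ, ← map_mul, ← map_mul, mul_comm]
  let P : Matrix _ _ A := f.mapMatrix Lα + om • f.mapMatrix Lβ
  let Q : Matrix _ _ A := f.mapMatrix Lα - om • f.mapMatrix Lβ
  have hcomm' : f.mapMatrix Lα * f.mapMatrix Lβ = f.mapMatrix Lβ * f.mapMatrix Lα := by
    rw [← map_mul f.mapMatrix, ← map_mul f.mapMatrix, hcomm]
  have hstar : (starRingEnd A).mapMatrix P = Q := by
    ext1 i j
    simp only [P, Q, RingHom.mapMatrix_apply, Matrix.map_apply, Matrix.add_apply, Matrix.sub_apply,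
      Matrix.smul_apply, smul_eq_mul, map_add, map_mul, starRingEnd_apply, hst, hstf]
    ring
  have hdQ : Q.det = star P.det := by
    rw [← hstar, ← RingHom.map_det]
    rfl
  have hM : Algebra.leftMulMatrix bs (α ^ 2 - algebraMap k M d * β ^ 2) =
      Lα * Lα - d • (Lβ * Lβ) := by
    rw [hLα, hLβ, map_sub, ← Algebra.smul_def, pow_two, pow_two, map_smul, map_mul, map_mul]
  have hPQ : P * Q = f.mapMatrix (Algebra.leftMulMatrix bs (α ^ 2 - algebraMap k M d * β ^ 2)) := by
    rw [hM, map_sub, map_mul]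
    have h1 : f.mapMatrix (d • (Lβ * Lβ)) = (om * om) • (f.mapMatrix Lβ * f.mapMatrix Lβ) := by
      rw [hom, ← map_mul f.mapMatrix]
      ext1 i j
      rw [RingHom.mapMatrix_apply, Matrix.map_apply, Matrix.smul_apply, smul_eq_mul, map_mul,
        Matrix.smul_apply, smul_eq_mul, RingHom.mapMatrix_apply, Matrix.map_apply]
    rw [h1]
    simp only [P, Q]
    rw [add_mul, mul_sub, mul_sub, smul_mul_assoc, smul_mul_assoc, mul_smul_comm, mul_smul_comm,
      smul_smul, hcomm']
    abel
  have hdet : f (Algebra.norm k (α ^ 2 - algebraMap k M d * β ^ 2)) = P.det * star P.det := by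
    rw [← hdQ, ← Matrix.det_mul, hPQ, ← RingHom.map_det, Algebra.norm_eq_matrix_det bs]
  have h2 : P.det * star P.det = f (QuadraticAlgebra.norm P.det) :=
    (QuadraticAlgebra.algebraMap_norm_eq_mul_star P.det).symm
  refine ⟨P.det.re, P.det.im, ?_⟩
  have h3 : Algebra.norm k (α ^ 2 - algebraMap k M d * β ^ 2) = QuadraticAlgebra.norm P.det :=
    QuadraticAlgebra.algebraMap_injective (hdet.trans h2)
  rw [h3, QuadraticAlgebra.norm_def]
  ring

end Dr
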