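import Pool.Agent.Lib.MP_f80667_ag.Dr.LatB
import Pool.Agent.Lib.MP_f80667_ag.Dr.Gs

/-! The parity lemma. -/

namespace Dr

variable {R k L : Type*} [CommRing R] [IsDomain R] [IsDiscreteValuationRing R]
  [Finite (IsLocalRing.ResidueField R)] [Field k] [Algebra R k]
  [IsFractionRing R k] [CommRing L] [Algebra k L] [Algebra R L] [IsScalarTower R k L]
  [FiniteDimensional k L] {O : Subalgebra R L} {s : L →ₗ[k] k} {ε π : L}

omit [IsDomain R] [IsDiscreteValuationRing R] [Finite (IsLocalRing.ResidueField R)]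
  [IsFractionRing R k] [FiniteDimensional k L] in
theorem par_smul [IsLocalRing R] (s : L →ₗ[k] k) (a : R) (x : L) :
    s (algebraMap R L a * x) = algebraMap R k a * s x := by
  rw [IsScalarTower.algebraMap_apply R k L, ← Algebra.smul_def, map_smul, smul_eq_mul]

omit [FiniteDimensional k L] in
/-- the character of `O / π O` -/
theorem par_char (h : LD O s ε π) {Q : Type*} [CommRing Q]
    (r : O →+* Q) (hr : Function.Surjective r)
    (hk : ∀ x : O, r x = 0 ↔ ∃ y ∈ O, (x : L) = π * y)
    (hm : ∀ m ∈ IsLocalRing.maximalIdeal R, ∃ y ∈ O, algebraMap R L m = π * y)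
    (π' : L) (hπ : π * π' = 1) : ∃ ψ : AddChar Q ℂ,
      (∀ z : O, (∃ a : R, s (π' * z) = algebraMap R k a) → ψ (r z) = 1) ∧
      ∀ z : O, (∀ a : R, ψ (r (algebraMap R O a * z)) = 1) →
        ∃ a : R, s (π' * z) = algebraMap R k a := by
  obtain ⟨ϖ, hϖ⟩ := IsDiscreteValuationRing.exists_irreducible R
  have hinj : Function.Injective (algebraMap R k) := IsFractionRing.injective R k
  have hϖ0 : algebraMap R k ϖ ≠ 0 := by
    rw [Ne, map_eq_zero_iff _ hinj]
    exact hϖ.ne_zero
  have hmax : IsLocalRing.maximalIdeal R = Ideal.span {ϖ} :=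
    (IsDiscreteValuationRing.irreducible_iff_uniformizer ϖ).1 hϖ
  have hϖm : ϖ ∈ IsLocalRing.maximalIdeal R := by
    rw [hmax]
    exact Ideal.mem_span_singleton_self ϖ
  obtain ⟨w, hw, hw'⟩ := hm ϖ hϖm
  have h1 : ∀ z : O, ∃ t : R, algebraMap R k ϖ * s (π' * z) = algebraMap R k t := by
    intro z
    rw [← par_smul, hw']
    have e : π * w * (π' * (z : L)) = (w * z) * 1 := by
      calc π * w * (π' * (z : L)) = (π * π') * (w * z) := by ring
        _ = _ := by rw [hπ, one_mul, mul_one]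
    rw [e]
    exact (h.dual _).1 (O.mul_mem hw z.2) 1 O.one_mem
  choose t ht using h1
  have htadd : ∀ x y : O, t (x + y) = t x + t y := by
    intro x y
    apply hinj
    rw [map_add, ← ht, ← ht, ← ht, Subalgebra.coe_add, mul_add, map_add, mul_add]
  have htmul : ∀ (a : R) (x : O), t (algebraMap R O a * x) = a * t x := by
    intro a x
    apply hinj
    rw [map_mul, ← ht, ← ht]
    have e : π' * ((algebraMap R O a * x : O) : L) = algebraMap R L a * (π' * x) := by
      rw [Subalgebra.coe_mul, mul_left_comm]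
      rfl
    rw [e, par_smul, mul_left_comm]
  have htres : ∀ z : O, IsLocalRing.residue R (t z) = 0 ↔
      ∃ a : R, s (π' * z) = algebraMap R k a := by
    intro z
    rw [IsLocalRing.residue_eq_zero_iff, hmax, Ideal.mem_span_singleton]
    constructor
    · rintro ⟨a, ha⟩
      refine ⟨a, mul_left_cancel₀ hϖ0 ?_⟩
      rw [ht, ha, map_mul]
    · rintro ⟨a, ha⟩
      refine ⟨a, hinj ?_⟩
      rw [← ht, ha, map_mul]
  have htker : ∀ z : O, r z = 0 → IsLocalRing.residue R (t z) = 0 := by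
    intro z hz
    rw [htres]
    obtain ⟨y, hy, hy'⟩ := (hk z).1 hz
    rw [hy']
    have e : π' * (π * y) = y * 1 := by
      calc π' * (π * y) = (π * π') * y := by ring
        _ = _ := by rw [hπ, one_mul, mul_one]
    rw [e]
    exact (h.dual _).1 hy 1 O.one_mem
  obtain ⟨ψ₀, hψ₀⟩ := (AddChar.exists_apply_ne_zero (a := (1 : IsLocalRing.ResidueField R))).2
    one_ne_zero
  let σ : Q → O := Function.surjInv hr
  have hσ : ∀ x, r (σ x) = x := Function.surjInv_eq hr
  have hkey : ∀ z z' : O, r z = r z' →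
      IsLocalRing.residue R (t z) = IsLocalRing.residue R (t z') := by
    intro z z' hz
    have e : z = z' + (z - z') := by ring
    rw [e, htadd, map_add, htker (z - z') (by rw [map_sub, hz, sub_self]), add_zero]
  let ψ : AddChar Q ℂ :=
    { toFun := fun x => ψ₀ (IsLocalRing.residue R (t (σ x)))
      map_zero_eq_one' := by
        rw [htker _ (hσ 0), AddChar.map_zero_eq_one]
      map_add_eq_mul' := fun x y => by
        rw [hkey (σ (x + y)) (σ x + σ y) (by rw [hσ, map_add, hσ, hσ]), htadd, map_add,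
          AddChar.map_add_eq_mul] }
  have hψ : ∀ z : O, ψ (r z) = ψ₀ (IsLocalRing.residue R (t z)) := by
    intro z
    change ψ₀ (IsLocalRing.residue R (t (σ (r z)))) = _
    rw [hkey _ _ (hσ (r z))]
  refine ⟨ψ, fun z hz => ?_, fun z hz => ?_⟩
  · rw [hψ, (htres z).2 hz, AddChar.map_zero_eq_one]
  · rw [← htres]
    by_contra hne
    apply hψ₀
    obtain ⟨b, hb⟩ := IsLocalRing.residue_surjective (IsLocalRing.residue R (t z))⁻¹
    have h2 := hz b
    rw [hψ, htmul, map_mul, hb, inv_mul_cancel₀ hne] at h2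
    exact h2

omit [IsDomain R] [IsDiscreteValuationRing R] [Finite (IsLocalRing.ResidueField R)]
  [Field k] [Algebra R k] [IsFractionRing R k] [Algebra k L] [IsScalarTower R k L]
  [FiniteDimensional k L] in
theorem par_nn {A B : Type*} [CommRing A] [CommRing B] (f : A →+* B) (e x y : A) :
    f (nn e x y) = nn (f e) (f x) (f y) := by
  simp only [nn, map_sub, map_add, map_mul, map_pow]

theorem par_nnB {A B : Type*} [CommRing A] [CommRing B] (f : A →+* B) (e x y z w : A) :
    f (nnB e x y z w) = nnB (f e) (f x) (f y) (f z) (f w) := by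
  simp only [nnB, map_sub, map_add, map_mul, map_ofNat]

theorem par_nn_add {A : Type*} [CommRing A] (e x y z w : A) :
    nn e (x + z) (y + w) = nn e x y + nn e z w + nnB e x y z w := by
  simp only [nn, nnB]
  ring

/-- **The parity lemma.** `O / π O` is a product of finite fields over which `X² - X - ε` has no zero. If
the transfer has a Lagrangian, the number of factors is even. Proof: `ϖ` a uniformizer of `R`, `κ` the
residue field, `ψ₀` a nontrivial additive character of `κ` (`AddChar`, finite field), `π π' = 1`. For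
`z ∈ O` the element `s (π' z) ϖ` is in `R` (`ϖ ∈ π O`, `LD.dual` with `1 ∈ O`), `ℓ z` its residue;
`ψ₀ ∘ ℓ` factors through `r`: `ψ`. It is nontrivial on every factor: otherwise `ℓ = 0` on the ideal `I` of
the `z` with `r z` supported at `j` (`ℓ I` is an `R`-submodule of `κ`, so `0` or `κ`), so
`s (π' z O) ⊆ R`, `π' z ∈ O` for `z ∈ I`, `r z = 0`, contradiction with surjectivity. `gauss_prod` gives
the sum `∏ j, - card (F j)` over `(∏ F j)²`; `LD.image` and `lag_sum` for the image of `X` (which contains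
the kernel) give a positive number. -/
theorem LD.parity (h : LD O s ε π) {J : Type*} [Fintype J] {F : J → Type*} [∀ j, Field (F j)]
    [∀ j, Finite (F j)] (r : O →+* ∀ j, F j) (hr : Function.Surjective r)
    (hk : ∀ x : O, r x = 0 ↔ ∃ y ∈ O, (x : L) = π * y)
    (hm : ∀ m ∈ IsLocalRing.maximalIdeal R, ∃ y ∈ O, algebraMap R L m = π * y)
    (he : ∀ j (x : F j), x ^ 2 - x - r ⟨ε, h.he⟩ j ≠ 0) {W : Submodule k (Fin 4 → L)}
    (hW : Lag (tr s (qeF ε π)) W) : Even (Fintype.card J) := by
  classical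
  let _ : ∀ j, Fintype (F j) := fun j => Fintype.ofFinite _
  obtain ⟨π', hπ⟩ := h.inv
  obtain ⟨X, hX1, hX2, hX3⟩ := h.image (IsDiscreteValuationRing.not_isField R) hW π' hπ
  obtain ⟨ψ, hψ1, hψ2⟩ := par_char h r hr hk hm π' hπ
  -- the character is nontrivial on every factor
  have hnt : ∀ j, ∃ x : F j, ψ (Pi.single j x) ≠ 1 := by
    intro j
    by_contra hcon
    push Not at hcon
    obtain ⟨z, hz⟩ := hr (Pi.single j 1)
    have h1 : ∀ y : O, ∃ a : R, s (π' * ((y * z : O) : L)) = algebraMap R k a := by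
      intro y
      refine hψ2 _ fun a => ?_
      have h2 : r (algebraMap R O a * (y * z)) =
          Pi.single j (r (algebraMap R O a * y) j) := by
        rw [← mul_assoc, map_mul, hz]
        funext i
        by_cases hij : i = j
        · subst hij
          rw [Pi.mul_apply, Pi.single_eq_same, Pi.single_eq_same, mul_one]
        · rw [Pi.mul_apply, Pi.single_eq_of_ne hij, Pi.single_eq_of_ne hij, mul_zero]
      rw [h2]
      exact hcon _
    have h3 : π' * (z : L) ∈ O := by
      rw [h.dual]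
      intro y hy
      obtain ⟨a, ha⟩ := h1 ⟨y, hy⟩
      refine ⟨a, ?_⟩
      rw [← ha]
      congr 1
      rw [Subalgebra.coe_mul]
      ring
    have h4 : r z = 0 := (hk z).2 ⟨π' * z, h3, by rw [← mul_assoc, hπ, one_mul]⟩
    rw [hz] at h4
    have h5 := congrFun h4 j
    rw [Pi.single_eq_same, Pi.zero_apply] at h5
    exact one_ne_zero h5
  have hgauss := gauss_prod (fun j => r ⟨ε, h.he⟩ j) he ψ hnt
  -- integrality of the polar form on `X`
  have hB : ∀ y ∈ X, ∀ z ∈ X, ∃ a : R,
      s (π' * nnB ε y.1.1 y.2.1 z.1.1 z.2.1) = algebraMap R k a := by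
    intro y hy z hz
    obtain ⟨a, ha⟩ := hX2 _ (X.add_mem hy hz)
    obtain ⟨b, hb⟩ := hX2 _ hy
    obtain ⟨c, hc⟩ := hX2 _ hz
    refine ⟨a - b - c, ?_⟩
    have h1 : ((y + z).1 : L) = y.1.1 + z.1.1 := rfl
    have h2 : ((y + z).2 : L) = y.2.1 + z.2.1 := rfl
    rw [h1, h2, par_nn_add, mul_add, mul_add, map_add, map_add, hb, hc] at ha
    rw [map_sub, map_sub, ← ha]
    ring
  have hXR : ∀ (a : R), ∀ y ∈ X, ((algebraMap R O a * y.1, algebraMap R O a * y.2) : O × O) ∈ X := by
    intro a y hy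
    refine hX3 _ fun z hz => ?_
    obtain ⟨b, hb⟩ := hB y hy z hz
    refine ⟨a * b, ?_⟩
    have e : π' * nnB ε ((algebraMap R O a * y.1 : O) : L) ((algebraMap R O a * y.2 : O) : L)
        z.1.1 z.2.1 = algebraMap R L a * (π' * nnB ε y.1.1 y.2.1 z.1.1 z.2.1) := by
      have e1 : ((algebraMap R O a * y.1 : O) : L) = algebraMap R L a * y.1.1 := rfl
      have e2 : ((algebraMap R O a * y.2 : O) : L) = algebraMap R L a * y.2.1 := rfl
      rw [e1, e2, nnB, nnB]
      ring
    rw [e, par_smul, hb, map_mul]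
  let V := (∀ j, F j) × (∀ j, F j)
  let ε' : ∀ j, F j := r ⟨ε, h.he⟩
  let X' : AddSubgroup V := X.map (AddMonoidHom.prodMap (r : O →+ ∀ j, F j) (r : O →+ ∀ j, F j))
  have hX' : ∀ v : V, v ∈ X' ↔ ∃ y ∈ X, (r y.1, r y.2) = v := fun v => Iff.rfl
  let B : V → AddChar V ℂ := fun y =>
    { toFun := fun z => ψ (nnB ε' y.1 y.2 z.1 z.2)
      map_zero_eq_one' := by
        have e : nnB ε' y.1 y.2 (0 : V).1 (0 : V).2 = 0 := by
          rw [Prod.fst_zero, Prod.snd_zero, nnB]
          ring
        rw [e, AddChar.map_zero_eq_one]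
      map_add_eq_mul' := fun z w => by
        have e : nnB ε' y.1 y.2 (z + w).1 (z + w).2 =
            nnB ε' y.1 y.2 z.1 z.2 + nnB ε' y.1 y.2 w.1 w.2 := by
          rw [Prod.fst_add, Prod.snd_add, nnB, nnB, nnB]
          ring
        rw [e, AddChar.map_add_eq_mul] }
  have hBa : ∀ y z : V, B y z = ψ (nnB ε' y.1 y.2 z.1 z.2) := fun _ _ => rfl
  have hlag := lag_sum X' (fun y => ψ (nn ε' y.1 y.2)) B
    (fun x y => by
      rw [hBa, Prod.fst_add, Prod.snd_add, par_nn_add, AddChar.map_add_eq_mul,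
        AddChar.map_add_eq_mul])
    (fun x hx => by
      obtain ⟨y, hy, rfl⟩ := (hX' x).1 hx
      change ψ (nn (r ⟨ε, h.he⟩) (r y.1) (r y.2)) = 1
      rw [← par_nn]
      exact hψ1 _ (hX2 y hy))
    (fun v hv => by
      obtain ⟨y1, hy1⟩ := hr v.1
      obtain ⟨y2, hy2⟩ := hr v.2
      refine (hX' v).2 ⟨(y1, y2), hX3 _ fun z hz => ?_, Prod.ext hy1 hy2⟩
      refine hψ2 (nnB ⟨ε, h.he⟩ y1 y2 z.1 z.2) fun a => ?_
      have h1 := hv _ ((hX' _).2 ⟨_, hXR a z hz, rfl⟩)
      rw [hBa] at h1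
      rw [← h1, ← hy1, ← hy2]
      change _ = ψ (nnB (r ⟨ε, h.he⟩) (r y1) (r y2) (r (algebraMap R O a * z.1))
        (r (algebraMap R O a * z.2)))
      rw [← par_nnB]
      congr 2
      rw [nnB, nnB]
      ring)
  have hsum : ∏ j, -(Fintype.card (F j) : ℂ) = (Nat.card X' : ℂ) := by
    rw [← hgauss, ← hlag]
  have h0 : Nat.card X' ≠ 0 := Nat.card_pos.ne'
  rw [Finset.prod_neg, Finset.card_univ] at hsum
  by_contra hodd
  rw [Nat.not_even_iff_odd] at hodd
  rw [hodd.neg_one_pow] at hsum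
  have h1 : ((∏ j, (Fintype.card (F j)) + Nat.card X' : ℕ) : ℂ) = 0 := by
    push_cast
    rw [← hsum, neg_one_mul, add_neg_cancel]
  have h2 : ∏ j, (Fintype.card (F j)) + Nat.card X' = 0 := by exact_mod_cast h1
  omega

end Dr
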