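import Pool.Agent.Lib.MP_f80667_ag.Dr.PfA
import Pool.Agent.Lib.MP_f80667_ag.Hm.GenS

/-! The norm is continuous. -/

open IsDedekindDomain NumberField WithZero

namespace Dr

open Hm

theorem prod_cong {R : Type*} [CommRing R] {ι : Type*} (S : Finset ι) (s m : R) (a : ι → R) :
    ∃ b : R, ∏ i ∈ S, (s + m * a i) = s ^ S.card + m * b := by
  classical
  induction S using Finset.induction_on with
  | empty => exact ⟨0, by simp⟩
  | insert i S hi ih =>
    obtain ⟨b, hb⟩ := ih
    refine ⟨a i * (s ^ S.card + m * b) + s * b, ?_⟩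
    rw [Finset.prod_insert hi, hb, Finset.card_insert_of_notMem hi]
    ring

theorem exists_min {ι : Type*} (S : Finset ι) (f : ι → ℤᵐ⁰) (hf : ∀ i ∈ S, f i ≠ 0) :
    ∃ e : ℤᵐ⁰, e ≠ 0 ∧ ∀ i ∈ S, e ≤ f i := by
  classical
  induction S using Finset.induction_on with
  | empty => exact ⟨1, one_ne_zero, by simp⟩
  | insert i S hi ih =>
    obtain ⟨e, he, h⟩ := ih fun j hj => hf j (Finset.mem_insert_of_mem hj)
    refine ⟨min e (f i), ?_, ?_⟩
    · rcases min_choice e (f i) with h1 | h1
      · rw [h1]; exact he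
      · rw [h1]; exact hf i (Finset.mem_insert_self _ _)
    · intro j hj
      rcases Finset.mem_insert.1 hj with rfl | hj
      · exact min_le_right _ _
      · exact (min_le_left _ _).trans (h j hj)

section

variable {F : Type*} [Field F] [NumberField F] {K : Type*} [Field K] [NumberField K] [Algebra F K]

/-- `N(s + m y) = s ^ n + m b` with `b` integral. -/
theorem norm_cong (s m : 𝓞 F) (y : 𝓞 K) : ∃ b : 𝓞 F,
    Algebra.norm F (algebraMap F K (algebraMap (𝓞 F) F s) +
      algebraMap F K (algebraMap (𝓞 F) F m) * algebraMap (𝓞 K) K y) =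
      algebraMap (𝓞 F) F s ^ Module.finrank F K + algebraMap (𝓞 F) F m * algebraMap (𝓞 F) F b := by
  classical
  by_cases hm : algebraMap (𝓞 F) F m = 0
  · refine ⟨0, ?_⟩
    rw [hm, map_zero, zero_mul, zero_mul, add_zero, add_zero, Algebra.norm_algebraMap]
  let E := AlgebraicClosure F
  let sE : integralClosure ℤ E := ⟨algebraMap F E (algebraMap (𝓞 F) F s),
    (RingOfIntegers.isIntegral_coe s).map (algebraMap F E).toIntAlgHom⟩
  let mE : integralClosure ℤ E := ⟨algebraMap F E (algebraMap (𝓞 F) F m),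
    (RingOfIntegers.isIntegral_coe m).map (algebraMap F E).toIntAlgHom⟩
  let aE : (K →ₐ[F] E) → integralClosure ℤ E := fun σ => ⟨σ (algebraMap (𝓞 K) K y),
    (RingOfIntegers.isIntegral_coe y).map (σ.toRingHom).toIntAlgHom⟩
  obtain ⟨b, hb⟩ := prod_cong (Finset.univ : Finset (K →ₐ[F] E)) sE mE aE
  have h1 := congrArg (fun t : integralClosure ℤ E => (t : E)) hb
  have h2 : algebraMap F E (Algebra.norm F (algebraMap F K (algebraMap (𝓞 F) F s) +
      algebraMap F K (algebraMap (𝓞 F) F m) * algebraMap (𝓞 K) K y)) =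
      algebraMap F E (algebraMap (𝓞 F) F s) ^ Module.finrank F K +
        algebraMap F E (algebraMap (𝓞 F) F m) * (b : E) := by
    rw [Algebra.norm_eq_prod_embeddings F E]
    have h3 : Fintype.card (K →ₐ[F] E) = Module.finrank F K := AlgHom.card F K E
    rw [← h3]
    rw [← Finset.card_univ]
    have h4 : ((∏ i : (K →ₐ[F] E), (sE + mE * aE i) : integralClosure ℤ E) : E) =
        ∏ i : (K →ₐ[F] E), ((sE : E) + mE * aE i) := by
      push_cast
      rfl
    have h5 : ((∏ i : (K →ₐ[F] E), (sE + mE * aE i) : integralClosure ℤ E) : E) =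
        (sE : E) ^ (Finset.univ : Finset (K →ₐ[F] E)).card + mE * b := by
      rw [hb]
      push_cast
      rfl
    rw [← h5, h4]
    refine Finset.prod_congr rfl fun σ _ => ?_
    rw [map_add, map_mul, AlgHom.commutes, AlgHom.commutes]
  set N := Algebra.norm F (algebraMap F K (algebraMap (𝓞 F) F s) +
      algebraMap F K (algebraMap (𝓞 F) F m) * algebraMap (𝓞 K) K y) with hN
  set c : F := (N - algebraMap (𝓞 F) F s ^ Module.finrank F K) / algebraMap (𝓞 F) F m with hc
  have hcb : algebraMap F E c = (b : E) := by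
    have hmE : algebraMap F E (algebraMap (𝓞 F) F m) ≠ 0 := by
      rw [Ne, map_eq_zero]
      exact hm
    rw [hc, map_div₀, map_sub, h2, map_pow, add_sub_cancel_left, mul_div_cancel_left₀ _ hmE]
  have hci : IsIntegral ℤ c := by
    have h6 : IsIntegral ℤ (algebraMap F E c) := by
      rw [hcb]
      exact b.2
    exact (isIntegral_algHom_iff (algebraMap F E).toIntAlgHom (algebraMap F E).injective).1 h6
  refine ⟨⟨c, hci⟩, ?_⟩
  have e : algebraMap (𝓞 F) F ⟨c, hci⟩ = c := rfl
  rw [e, hc]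
  field_simp
  ring

/-- An element of `K` integral above `v` becomes integral after multiplication by an element prime to `v`. -/
theorem exists_s (v : HeightOneSpectrum (𝓞 F)) (y : K)
    (hy : ∀ u : HeightOneSpectrum (𝓞 K), u.under (𝓞 F) = v → u.valuation K y ≤ 1) :
    ∃ s : 𝓞 F, v.valuation F (algebraMap (𝓞 F) F s) = 1 ∧
      ∃ z : 𝓞 K, algebraMap (𝓞 K) K z = algebraMap F K (algebraMap (𝓞 F) F s) * y := by
  classical
  by_cases hy0 : y = 0
  · refine ⟨1, by rw [map_one, map_one], 0, ?_⟩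
    rw [hy0, mul_zero, map_zero]
  have hfin := finite_val_ne_one (Units.mk0 y hy0)
  set S : Finset (HeightOneSpectrum (𝓞 K)) := hfin.toFinset.filter fun u => u.under (𝓞 F) ≠ v with hS
  have hex : ∀ u : HeightOneSpectrum (𝓞 K), ∃ t : 𝓞 F, u.under (𝓞 F) ≠ v →
      (t ∈ (u.under (𝓞 F)).asIdeal ∧ t ∉ v.asIdeal) := by
    intro u
    by_cases h : u.under (𝓞 F) = v
    · exact ⟨0, fun h1 => absurd h h1⟩
    have hnle : ¬ (u.under (𝓞 F)).asIdeal ≤ v.asIdeal := by
      intro hle
      apply h
      ext1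
      exact ((u.under (𝓞 F)).isMaximal.eq_of_le v.isPrime.ne_top hle)
    obtain ⟨x, hx, hxw⟩ := SetLike.not_le_iff_exists.1 hnle
    exact ⟨x, fun _ => ⟨hx, hxw⟩⟩
  choose t ht using hex
  let k : HeightOneSpectrum (𝓞 K) → ℕ := fun u => (log (u.valuation K y)).toNat
  have htu : ∀ u : HeightOneSpectrum (𝓞 K), u.under (𝓞 F) ≠ v →
      u.valuation K (algebraMap F K (algebraMap (𝓞 F) F (t u))) ^ k u * u.valuation K y ≤ 1 := by
    intro u hu
    have h1 : (algebraMap (𝓞 F) (𝓞 K) (t u)) ∈ u.asIdeal := (ht u hu).1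
    have h2 : u.valuation K (algebraMap (𝓞 K) K (algebraMap (𝓞 F) (𝓞 K) (t u))) < 1 :=
      (HeightOneSpectrum.valuation_lt_one_iff_mem u _).2 h1
    have h3 : algebraMap (𝓞 K) K (algebraMap (𝓞 F) (𝓞 K) (t u)) =
      algebraMap F K (algebraMap (𝓞 F) F (t u)) := rfl
    rw [h3] at h2
    obtain ⟨n, hn⟩ := exists_exp u (Units.mk0 y hy0)
    rw [Units.val_mk0] at hn
    have hk : k u = n.toNat := by
      show (log (u.valuation K y)).toNat = n.toNat
      rw [hn, log_exp]
    have h4 : u.valuation K (algebraMap F K (algebraMap (𝓞 F) F (t u))) ≤ exp (-1) := by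
      by_cases h5 : algebraMap F K (algebraMap (𝓞 F) F (t u)) = 0
      · rw [h5, map_zero]; exact zero_le
      obtain ⟨j, hj⟩ := exists_exp u (Units.mk0 _ h5)
      rw [Units.val_mk0] at hj
      rw [hj, ← exp_zero, exp_lt_exp] at h2
      rw [hj, exp_le_exp]
      omega
    rw [hk, hn]
    calc _ ≤ exp (-1) ^ n.toNat * exp n := mul_le_mul' (pow_le_pow_left₀ zero_le h4 _) le_rfl
      _ ≤ 1 := by
        rw [← exp_nsmul, ← exp_add, ← exp_zero, exp_le_exp, nsmul_eq_mul]
        have := Int.self_le_toNat n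
        omega
  have hle1 : ∀ (u : HeightOneSpectrum (𝓞 K)) (a : 𝓞 F),
      u.valuation K (algebraMap F K (algebraMap (𝓞 F) F a)) ≤ 1 := by
    intro u a
    have h3 : algebraMap (𝓞 K) K (algebraMap (𝓞 F) (𝓞 K) a) =
      algebraMap F K (algebraMap (𝓞 F) F a) := rfl
    rw [← h3]
    exact u.valuation_le_one _
  refine ⟨∏ u ∈ S, t u ^ k u, ?_, ?_⟩
  · rw [map_prod, map_prod]
    refine Finset.prod_eq_one fun u hu => ?_
    rw [map_pow, map_pow]
    have h1 : v.valuation F (algebraMap (𝓞 F) F (t u)) = 1 := by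
      refine le_antisymm (v.valuation_le_one _) (not_lt.1 fun h => ?_)
      rw [HeightOneSpectrum.valuation_lt_one_iff_mem] at h
      exact (ht u (Finset.mem_filter.1 hu).2).2 h
    rw [h1, one_pow]
  · have h := HeightOneSpectrum.mem_integers_of_valuation_le_one (R := 𝓞 K) K
      (algebraMap F K (algebraMap (𝓞 F) F (∏ u ∈ S, t u ^ k u)) * y) (by
        intro w
        rw [map_mul]
        by_cases hw : w ∈ S
        · rw [← Finset.mul_prod_erase S _ hw, map_mul, map_mul, map_mul, mul_comm, ← mul_assoc]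
          refine mul_le_one' ?_ (hle1 w _)
          rw [mul_comm, map_pow, map_pow, map_pow]
          exact htu w (Finset.mem_filter.1 hw).2
        · refine mul_le_one' (hle1 w _) ?_
          by_cases h1 : w.under (𝓞 F) = v
          · exact hy w h1
          · by_contra h2
            apply hw
            rw [hS, Finset.mem_filter, Set.Finite.mem_toFinset]
            exact ⟨fun h3 => h2 (le_of_eq h3), h1⟩)
    exact h

/-- Proof: `t = x' / x` is near `1` at all `u` above `v`, so `t = 1 + m y` with `m ∈ F` of small valuation at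
`v` and `y` integral at all `u` above `v`; the norm of `1 + m y` is a polynomial in `m` with coefficients
which are integral at `v` and constant term `1`. -/
theorem norm_near_gen (v : HeightOneSpectrum (𝓞 F)) (x : Kˣ)
    (g : WithZero (Multiplicative ℤ)) (hg : g ≠ 0) :
    ∃ e : WithZero (Multiplicative ℤ), e ≠ 0 ∧ ∀ x' : Kˣ,
      (∀ u : HeightOneSpectrum (𝓞 K), u.under (𝓞 F) = v → u.valuation K ((x' : K) - x) < e) →
      v.valuation F (Algebra.norm F (x' : K) - Algebra.norm F (x : K)) < g := by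
  have hNx : Algebra.norm F (x : K) ≠ 0 := Algebra.norm_ne_zero_iff.2 x.ne_zero
  have hvN : 0 < v.valuation F (Algebra.norm F (x : K)) := val_pos v (Units.mk0 _ hNx)
  obtain ⟨m, hm0, hm⟩ : ∃ m : 𝓞 F, m ≠ 0 ∧
      v.valuation F (algebraMap (𝓞 F) F m) < g / v.valuation F (Algebra.norm F (x : K)) := by
    obtain ⟨π, hπ, hπ0⟩ := Submodule.exists_mem_ne_zero_of_ne_bot v.ne_bot
    have h1 : v.valuation F (algebraMap (𝓞 F) F π) < 1 :=
      (HeightOneSpectrum.valuation_lt_one_iff_mem v _).2 hπ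
    have hG : g / v.valuation F (Algebra.norm F (x : K)) ≠ 0 := div_ne_zero hg hvN.ne'
    obtain ⟨n, hn⟩ : ∃ n : ℤ, g / v.valuation F (Algebra.norm F (x : K)) = exp n :=
      ⟨log _, (exp_log hG).symm⟩
    have h5 : algebraMap (𝓞 F) F π ≠ 0 := by
      rw [Ne, FaithfulSMul.algebraMap_eq_zero_iff (𝓞 F) F]
      exact hπ0
    obtain ⟨j, hj⟩ := exists_exp v (Units.mk0 _ h5)
    rw [Units.val_mk0] at hj
    rw [hj, ← exp_zero, exp_lt_exp] at h1
    refine ⟨π ^ ((-n).toNat + 1), pow_ne_zero _ hπ0, ?_⟩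
    rw [map_pow, map_pow, hj, hn, ← exp_nsmul, exp_lt_exp, nsmul_eq_mul]
    have h6 := Int.self_le_toNat (-n)
    have h7 : (((-n).toNat + 1 : ℕ) : ℤ) * j ≤ (((-n).toNat + 1 : ℕ) : ℤ) * (-1) :=
      mul_le_mul_of_nonneg_left (by omega) (by omega)
    push_cast at h7 ⊢
    omega
  have hmF : algebraMap (𝓞 F) F m ≠ 0 := by
    rw [Ne, FaithfulSMul.algebraMap_eq_zero_iff (𝓞 F) F]
    exact hm0
  have hmK : algebraMap F K (algebraMap (𝓞 F) F m) ≠ 0 := by
    rw [Ne, map_eq_zero]
    exact hmF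
  obtain ⟨e, he, hle⟩ := exists_min (abv K v) (fun u =>
    u.valuation K (algebraMap F K (algebraMap (𝓞 F) F m)) * u.valuation K (x : K)) (by
      intro u _
      exact mul_ne_zero ((u.valuation K).ne_zero_iff.2 hmK) (val_pos u x).ne')
  refine ⟨e, he, fun x' hx' => ?_⟩
  have hx0 : (x : K) ≠ 0 := x.ne_zero
  set y : K := ((x' : K) - x) / (algebraMap F K (algebraMap (𝓞 F) F m) * x) with hy
  obtain ⟨s, hs, z, hz⟩ := exists_s v y (by
    intro u hu
    have h1 := (hx' u hu).le.trans (hle u (mem_abv.2 hu))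
    rw [hy, map_div₀, map_mul]
    exact div_le_one_of_le₀ h1 zero_le)
  have hs0 : algebraMap (𝓞 F) F s ≠ 0 := by
    intro h
    rw [h, map_zero] at hs
    exact zero_ne_one hs
  have hsK : algebraMap F K (algebraMap (𝓞 F) F s) ≠ 0 := by
    rw [Ne, map_eq_zero]
    exact hs0
  obtain ⟨b, hb⟩ := norm_cong (K := K) s m z
  have h1 : (x' : K) * algebraMap F K (algebraMap (𝓞 F) F s) = x *
      (algebraMap F K (algebraMap (𝓞 F) F s) +
        algebraMap F K (algebraMap (𝓞 F) F m) * algebraMap (𝓞 K) K z) := by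
    rw [hz, hy]
    field_simp
    ring
  have h2 := congrArg (Algebra.norm F) h1
  rw [map_mul, map_mul, hb, Algebra.norm_algebraMap] at h2
  have hsn : algebraMap (𝓞 F) F s ^ Module.finrank F K ≠ 0 := pow_ne_zero _ hs0
  have h3 : Algebra.norm F (x' : K) - Algebra.norm F (x : K) =
      Algebra.norm F (x : K) * (algebraMap (𝓞 F) F m * algebraMap (𝓞 F) F b) /
        algebraMap (𝓞 F) F s ^ Module.finrank F K := by
    field_simp
    linear_combination h2
  rw [h3, map_div₀, map_pow, hs, one_pow, div_one, map_mul, map_mul]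
  have h4 : v.valuation F (algebraMap (𝓞 F) F m) * v.valuation F (algebraMap (𝓞 F) F b) ≤
      v.valuation F (algebraMap (𝓞 F) F m) := mul_le_of_le_one_right' (v.valuation_le_one b)
  rw [lt_div_iff₀ hvN] at hm
  rw [mul_comm]
  exact lt_of_le_of_lt (mul_le_mul' h4 le_rfl) hm

end

/-- Proof: `t = x' / x` is near `1` at all `u` above `v`, so `t = 1 + m y` with `m ∈ F` of small valuation at
`v` and `y` integral at all `u` above `v`; the norm of `1 + m y` is a polynomial in `m` with coefficients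
which are integral at `v` and constant term `1` (the characteristic polynomial of `y` has coefficients
integral at `v`: multiply `y` by an element of `𝓞 F` prime to `v` to make it integral). -/
theorem norm_near {F : Type} [Field F] [NumberField F] {K : Type} [Field K] [NumberField K]
    [Algebra F K] (v : HeightOneSpectrum (𝓞 F)) (x : Kˣ)
    (g : WithZero (Multiplicative ℤ)) (hg : g ≠ 0) :
    ∃ e : WithZero (Multiplicative ℤ), e ≠ 0 ∧ ∀ x' : Kˣ,
      (∀ u : HeightOneSpectrum (𝓞 K), u.under (𝓞 F) = v → u.valuation K ((x' : K) - x) < e) →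
      v.valuation F (Algebra.norm F (x' : K) - Algebra.norm F (x : K)) < g :=
  norm_near_gen v x g hg

end Dr
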