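import Pool.Agent.Lib.MP_f80667_ag.Dr.PfA
import Pool.Agent.Lib.MP_f80667_ag.Dr.PfB
import Pool.Agent.Lib.MP_f80667_ag.Dr.N1
import Pool.Agent.Lib.MP_f80667_ag.Hm.WA

/-! The projection formula for the symbols. -/

open IsDedekindDomain NumberField WithZero

namespace Dr

open Hm

section

variable {F : Type*} [Field F] [NumberField F] {K : Type*} [Field K] [NumberField K] [Algebra F K]

theorem exists_above_u (v : HeightOneSpectrum (𝓞 F)) :
    ∃ u : HeightOneSpectrum (𝓞 K), u.under (𝓞 F) = v := by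
  have := v.isMaximal
  obtain ⟨P, hPm, hP⟩ := Ideal.exists_maximal_ideal_liesOver_of_isIntegral (S := 𝓞 K) v.asIdeal
  have h0 : P ≠ ⊥ := by
    intro h
    rw [h] at hP
    have h1 := hP.over
    rw [Ideal.under_bot] at h1
    exact v.ne_bot h1
  exact ⟨⟨P, hPm.isPrime, h0⟩, HeightOneSpectrum.ext hP.over.symm⟩

/-- If `x` is near `1` at all infinite places then the norm of `x` is positive. -/
theorem norm_pos (x : K) (hx : ∀ w : InfinitePlace K, w (x - 1) < 1 / (2 * Module.finrank F K))
    (φ : F →+* ℝ) : 0 < φ (Algebra.norm F x) := by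
  have hn : 0 < Module.finrank F K := Module.finrank_pos
  have hn' : (0 : ℝ) < Module.finrank F K := by exact_mod_cast hn
  let _ : Algebra F ℂ := (Complex.ofRealHom.comp φ).toAlgebra
  have h1 : algebraMap F ℂ (Algebra.norm F x) = ∏ σ : K →ₐ[F] ℂ, σ x :=
    Algebra.norm_eq_prod_embeddings F ℂ x
  have h2 : algebraMap F ℂ (Algebra.norm F x) = ((φ (Algebra.norm F x) : ℝ) : ℂ) := rfl
  have h3 : ∏ σ : K →ₐ[F] ℂ, σ x = ∏ σ : K →ₐ[F] ℂ, (1 + (σ x - 1)) :=
    Finset.prod_congr rfl fun σ _ => by ring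
  have h4 := Finset.norm_prod_one_add_sub_one_le (Finset.univ : Finset (K →ₐ[F] ℂ))
    (fun σ => σ x - 1)
  rw [← h3, ← h1, h2] at h4
  have h5 : ∑ σ : K →ₐ[F] ℂ, ‖σ x - 1‖ ≤ 1 / 2 := by
    have h6 : ∀ σ ∈ (Finset.univ : Finset (K →ₐ[F] ℂ)), ‖σ x - 1‖ ≤
        1 / (2 * Module.finrank F K) := by
      intro σ _
      have h7 := hx (InfinitePlace.mk σ.toRingHom)
      rw [InfinitePlace.apply] at h7
      have h8 : σ.toRingHom (x - 1) = σ x - 1 := by
        rw [map_sub, map_one]
        rfl
      rw [h8] at h7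
      exact h7.le
    refine (Finset.sum_le_card_nsmul _ _ _ h6).trans ?_
    rw [Finset.card_univ, AlgHom.card F K ℂ, nsmul_eq_mul]
    apply le_of_eq
    field_simp
  have h9 : ‖((φ (Algebra.norm F x) : ℝ) : ℂ) - 1‖ < 1 := by
    refine lt_of_le_of_lt h4 ?_
    have h10 : Real.exp (∑ σ : K →ₐ[F] ℂ, ‖σ x - 1‖) ≤ Real.exp (1 / 2) := Real.exp_le_exp.2 h5
    have h11 : Real.exp (1 / 2) < 2 := by
      have h12 := Real.exp_one_lt_d9
      have h13 : Real.exp (1 / 2) ^ 2 = Real.exp 1 := by
        rw [← Real.exp_nat_mul]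
        norm_num
      nlinarith [Real.exp_pos (1 / 2)]
    linarith
  have h14 : ‖((φ (Algebra.norm F x) : ℝ) : ℂ) - 1‖ = |φ (Algebra.norm F x) - 1| := by
    rw [← Complex.ofReal_one, ← Complex.ofReal_sub, Complex.norm_real, Real.norm_eq_abs]
  rw [h14, abs_lt] at h9
  linarith [h9.1]

end

/-- **The projection formula.** Proof: choose `x' ∈ Kˣ` near `x` at the places above `v` (so that the symbols
at these places are the same, `LNm_near`, and the symbol of the norm at `v` too, `norm_near`), near `1` at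
the places above the other places `w` of `F` which are dyadic or where `d` is not a unit (so that `x'` is a
local norm there, and its norm at `w`, `norm_near` for `x = 1`), and near `1` at the infinite places of `K`
(`Hm.wapx`); then the norm of `x'` is positive at the real places of `F`. The number of the ramified places
of `(d, x')` over `K` is even (`tot_even`), the one of `(d, N x')` over `F` too; by `proj_good` the parities
at all places `w ≠ v` are the same (`tot_fib` for the sum over `K`), so they are the same at `v`. -/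
theorem proj_v {F : Type} [Field F] [NumberField F] {K : Type} [Field K] [NumberField K]
    [Algebra F K] (v : HeightOneSpectrum (𝓞 F)) (d : Fˣ) (x : Kˣ) :
    Even (nF v x (Units.map (algebraMap F K).toMonoidHom d)) ↔
      Units.map (Algebra.norm F) x ∈ LNm v d := by
  classical
  set d' : Kˣ := Units.map (algebraMap F K).toMonoidHom d with hd'
  -- the bad places
  have hB2 := finite_val_ne_one (K := F) (Units.mk0 (2 : F) two_ne_zero)
  have hBd := finite_val_ne_one d
  set B : Finset (HeightOneSpectrum (𝓞 F)) := (hB2.toFinset ∪ hBd.toFinset).erase v with hB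
  have hBgood : ∀ w, w ≠ v → w ∉ B → w.valuation F 2 = 1 ∧ w.valuation F (d : F) = 1 := by
    intro w hwv hw
    rw [hB, Finset.mem_erase, Finset.mem_union, Set.Finite.mem_toFinset, Set.Finite.mem_toFinset]
      at hw
    simp only [Set.mem_ofPred_eq, Units.val_mk0] at hw
    constructor
    · by_contra h
      exact hw ⟨hwv, Or.inl h⟩
    · by_contra h
      exact hw ⟨hwv, Or.inr h⟩
  -- precision
  have h40 : (4 : F) ≠ 0 := by norm_num
  have h4K : (4 : K) ≠ 0 := by norm_num
  let X : HeightOneSpectrum (𝓞 F) → Kˣ := fun w => if w = v then x else 1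
  have hprec : ∀ w : HeightOneSpectrum (𝓞 F), ∃ e : ℤᵐ⁰, e ≠ 0 ∧ ∀ x' : Kˣ,
      (∀ u : HeightOneSpectrum (𝓞 K), u.under (𝓞 F) = w → u.valuation K ((x' : K) - X w) < e) →
      w.valuation F (Algebra.norm F (x' : K) - Algebra.norm F (X w : K)) <
        w.valuation F (4 * Algebra.norm F (X w : K)) := fun w =>
    norm_near w (X w) _ ((w.valuation F).ne_zero_iff.2
      (mul_ne_zero h40 (Algebra.norm_ne_zero_iff.2 (X w).ne_zero)))
  choose e he hne using hprec
  have hn : 0 < Module.finrank F K := Module.finrank_pos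
  have hn' : (0 : ℝ) < Module.finrank F K := by exact_mod_cast hn
  let S : Finset (HeightOneSpectrum (𝓞 K)) := (insert v B).biUnion fun w => abv K w
  have hSmem : ∀ u : HeightOneSpectrum (𝓞 K), u.under (𝓞 F) ∈ insert v B → u ∈ S := fun u hu =>
    Finset.mem_biUnion.2 ⟨_, hu, mem_abv.2 rfl⟩
  obtain ⟨y, hy1, hy2⟩ := wapx S (fun u => (X (u.under (𝓞 F)) : K)) (fun _ => 1)
    (fun u => min (e (u.under (𝓞 F))) (u.valuation K (4 * (X (u.under (𝓞 F)) : K))))
    (fun u => by
      rcases min_choice (e (u.under (𝓞 F))) (u.valuation K (4 * (X (u.under (𝓞 F)) : K))) with h | h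
      · rw [h]; exact he _
      · rw [h]; exact (u.valuation K).ne_zero_iff.2 (mul_ne_zero h4K (Units.ne_zero _)))
    (1 / (2 * Module.finrank F K)) (by positivity)
  have hy0 : y ≠ 0 := by
    rintro rfl
    obtain ⟨u, hu⟩ := exists_above_u (K := K) v
    have h1 := hy1 u (hSmem u (by rw [hu]; exact Finset.mem_insert_self _ _))
    have h2 := h1.trans_le (min_le_right _ _)
    rw [zero_sub, Valuation.map_neg, map_mul] at h2
    have h3 : u.valuation K 4 * u.valuation K (X (u.under (𝓞 F)) : K) ≤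
        1 * u.valuation K (X (u.under (𝓞 F)) : K) := mul_le_mul' (val4_le u) le_rfl
    rw [one_mul] at h3
    exact absurd h2 (not_lt.2 h3)
  obtain ⟨x', hx'⟩ : ∃ x' : Kˣ, (x' : K) = y := ⟨Units.mk0 y hy0, rfl⟩
  rw [← hx'] at hy1 hy2
  have hloc : ∀ w ∈ insert v B, ∀ u : HeightOneSpectrum (𝓞 K), u.under (𝓞 F) = w →
      (x' ∈ LNm u d' ↔ X w ∈ LNm u d') := by
    intro w hw u hu
    have h1 := hy1 u (hSmem u (by rw [hu]; exact hw))
    rw [hu] at h1
    exact LNm_near (h1.trans_le (min_le_right _ _))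
  have hnloc : ∀ w ∈ insert v B, (Units.map (Algebra.norm F) x' ∈ LNm w d ↔
      Units.map (Algebra.norm F) (X w) ∈ LNm w d) := by
    intro w hw
    refine LNm_near (hne w x' fun u hu => ?_)
    have h1 := hy1 u (hSmem u (by rw [hu]; exact hw))
    rw [hu] at h1
    exact h1.trans_le (min_le_left _ _)
  have hXv : X v = x := if_pos rfl
  have hXw : ∀ w, w ≠ v → X w = 1 := fun w hw => if_neg hw
  -- replace `x` by `x'`
  have hnFv : nF v x d' = nF v x' d' := by
    unfold nF
    refine Nat.card_congr (Equiv.subtypeEquivRight fun u => ?_)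
    refine and_congr_right fun hu => ?_
    rw [hloc v (Finset.mem_insert_self _ _) u hu, hXv]
  have hNv : Units.map (Algebra.norm F) x ∈ LNm v d ↔ Units.map (Algebra.norm F) x' ∈ LNm v d := by
    rw [hnloc v (Finset.mem_insert_self _ _), hXv]
  rw [hnFv, hNv]
  -- parities at the other places
  have hpar : ∀ w, w ≠ v → (Even (nF w x' d') ↔ Units.map (Algebra.norm F) x' ∈ LNm w d) := by
    intro w hwv
    by_cases hw : w ∈ B
    · have h1 : nF w x' d' = 0 := by
        unfold nF
        have : IsEmpty {u : HeightOneSpectrum (𝓞 K) // u.under (𝓞 F) = w ∧ x' ∉ LNm u d'} :=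
          ⟨fun u => u.2.2 (by
            rw [hloc w (Finset.mem_insert_of_mem hw) u.1 u.2.1, hXw w hwv]
            exact one_mem _)⟩
        exact Nat.card_of_isEmpty
      rw [h1, hnloc w (Finset.mem_insert_of_mem hw), hXw w hwv, map_one]
      exact ⟨fun _ => one_mem _, fun _ => Even.zero⟩
    · obtain ⟨h2, h3⟩ := hBgood w hwv hw
      exact proj_good h2 d h3 x'
  -- positivity
  have hposK : ∀ φ : K →+* ℝ, 0 < φ (x' : K) := by
    intro φ
    have h1 := hy2 (InfinitePlace.mk (Complex.ofRealHom.comp φ))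
    rw [InfinitePlace.apply] at h1
    have h2 : ‖(Complex.ofRealHom.comp φ) ((x' : K) - 1)‖ = |φ (x' : K) - 1| := by
      rw [RingHom.comp_apply, map_sub, map_one]
      exact RCLike.norm_ofReal _
    rw [h2] at h1
    have h3 : (1 : ℝ) / (2 * Module.finrank F K) ≤ 1 / 2 := by
      have h4 : (1 : ℝ) ≤ Module.finrank F K := by exact_mod_cast hn
      apply one_div_le_one_div_of_le
      · norm_num
      · linarith
    have h5 := (abs_lt.1 h1).1
    linarith
  have hposF : ∀ φ : F →+* ℝ, 0 < φ (Algebra.norm F (x' : K)) := fun φ => norm_pos _ hy2 φ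
  -- reciprocity
  have hK := tot_even d' x'
  have hF := tot_even d (Units.map (Algebra.norm F) x')
  unfold tot at hK hF
  have hK0 : Nat.card {φ : K →+* ℝ // φ (d' : K) < 0 ∧ φ (x' : K) < 0} = 0 := by
    have : IsEmpty {φ : K →+* ℝ // φ (d' : K) < 0 ∧ φ (x' : K) < 0} :=
      ⟨fun φ => absurd φ.2.2 (not_lt.2 (hposK φ.1).le)⟩
    exact Nat.card_of_isEmpty
  have hF0 : Nat.card {φ : F →+* ℝ // φ (d : F) < 0 ∧
      φ ((Units.map (Algebra.norm F) x' : Fˣ) : F) < 0} = 0 := by
    have : IsEmpty {φ : F →+* ℝ // φ (d : F) < 0 ∧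
        φ ((Units.map (Algebra.norm F) x' : Fˣ) : F) < 0} :=
      ⟨fun φ => absurd φ.2.2 (not_lt.2 (hposF φ.1).le)⟩
    exact Nat.card_of_isEmpty
  rw [hK0, add_zero] at hK
  rw [hF0, add_zero] at hF
  obtain ⟨T, -, hT⟩ := tot_fib (F := F) d' x'
  have hfin := finite_LNm d (Units.map (Algebra.norm F) x')
  set T' : Finset (HeightOneSpectrum (𝓞 F)) := insert v (T ∪ hfin.toFinset) with hT'
  have hTT : T ⊆ T' := fun w hw => Finset.mem_insert_of_mem (Finset.mem_union_left _ hw)
  rw [hT T' hTT] at hK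
  have hcard : Nat.card {w : HeightOneSpectrum (𝓞 F) // Units.map (Algebra.norm F) x' ∉ LNm w d} =
      ∑ w ∈ T', if Units.map (Algebra.norm F) x' ∉ LNm w d then 1 else 0 := by
    rw [← Finset.card_filter, ← Nat.card_eq_finsetCard]
    refine Nat.card_congr (Equiv.subtypeEquivRight fun w => ?_)
    rw [Finset.mem_filter]
    refine ⟨fun h => ⟨?_, h⟩, fun h => h.2⟩
    exact Finset.mem_insert_of_mem (Finset.mem_union_right _ (hfin.mem_toFinset.2 h))
  rw [hcard] at hF
  have hsum := hK.add hF
  rw [← Finset.sum_add_distrib, ← Finset.add_sum_erase T' _ (Finset.mem_insert_self v _)] at hsum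
  have hrest : Even (∑ w ∈ T'.erase v, (nF w x' d' +
      if Units.map (Algebra.norm F) x' ∉ LNm w d then 1 else 0)) := by
    refine Finset.even_sum _ fun w hw => ?_
    have h1 := hpar w (Finset.ne_of_mem_erase hw)
    rw [Nat.even_add, h1]
    by_cases h2 : Units.map (Algebra.norm F) x' ∈ LNm w d
    · simp [h2]
    · simp [h2]
  rw [Nat.even_add] at hsum
  have h3 := hsum.2 hrest
  rw [Nat.even_add] at h3
  rw [h3]
  by_cases h2 : Units.map (Algebra.norm F) x' ∈ LNm v d
  · simp [h2]
  · simp [h2]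

end Dr
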