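import Pool.Agent.Lib.MP_f80667_ag.Dr.Loc3
import Pool.Agent.Lib.MP_f80667_ag.Hm.Res

/-! The projection formula for the symbols at a good place. -/

open IsDedekindDomain NumberField WithZero

namespace Dr

open Hm

/-- A nonsquare of a finite field becomes a square in an extension iff the degree is even. -/
theorem ff_sq {k l : Type*} [Field k] [Field l] [Finite k] [Finite l] (φ : k →+* l) (f : ℕ)
    (hf : Nat.card k ^ f = Nat.card l) (h2 : (2 : k) ≠ 0) {a : k} (ha : ¬ IsSquare a) :
    IsSquare (φ a) ↔ Even f := by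
  classical
  let _ : Fintype k := Fintype.ofFinite k
  let _ : Fintype l := Fintype.ofFinite l
  rw [Nat.card_eq_fintype_card, Nat.card_eq_fintype_card] at hf
  have ha0 : a ≠ 0 := by
    rintro rfl
    exact ha IsSquare.zero
  have hφ2 : (2 : l) ≠ 0 := by
    intro h
    apply h2
    apply φ.injective
    rw [map_zero, ← h]
    exact map_ofNat φ 2
  have hk : ringChar k ≠ 2 := fun h => h2 (by
    have := CharP.cast_eq_zero k (ringChar k)
    rw [h] at this
    exact_mod_cast this)
  have hl : ringChar l ≠ 2 := fun h => hφ2 (by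
    have := CharP.cast_eq_zero l (ringChar l)
    rw [h] at this
    exact_mod_cast this)
  have hφa : φ a ≠ 0 := fun h => ha0 (φ.injective (by rw [h, map_zero]))
  have hkodd : Fintype.card k % 2 = 1 := FiniteField.odd_card_of_char_ne_two hk
  have h1 : a ^ (Fintype.card k / 2) = -1 := by
    rcases FiniteField.pow_dichotomy hk ha0 with h | h
    · exact absurd ((FiniteField.isSquare_iff hk ha0).2 h) ha
    · exact h
  set q := Fintype.card k with hq
  set m := q / 2 with hm
  have hqm : q = 2 * m + 1 := by omega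
  have key : ∀ f : ℕ, ∃ j : ℕ, q ^ f = 2 * (m * j) + 1 ∧ (Even j ↔ Even f) := by
    intro f
    induction f with
    | zero => exact ⟨0, by simp⟩
    | succ f ih =>
      obtain ⟨j, hj, hj2⟩ := ih
      refine ⟨q ^ f + j, ?_, ?_⟩
      · rw [pow_succ]
        nth_rewrite 2 [hqm]
        rw [hj]
        ring
      · have h3 : Odd (q ^ f) := (Nat.odd_iff.2 hkodd).pow
        rw [Nat.even_add, Nat.even_add_one, ← hj2]
        have h4 := Nat.not_even_iff_odd.2 h3
        tauto
  obtain ⟨j, hj, hj2⟩ := key f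
  rw [FiniteField.isSquare_iff hl hφa, ← hf, hj]
  have e : (2 * (m * j) + 1) / 2 = m * j := by omega
  rw [e, pow_mul, ← map_pow, h1, ← hj2]
  rw [map_neg, map_one]
  constructor
  · intro h
    by_contra hne
    rw [Nat.not_even_iff_odd] at hne
    rw [hne.neg_one_pow] at h
    apply hφ2
    have h3 : (1 : l) + 1 = 0 := by
      nth_rewrite 1 [← h]
      ring
    rw [← h3]
    norm_num
  · intro h
    exact h.neg_one_pow

section res

variable {K : Type*} [Field K] [NumberField K] {v : HeightOneSpectrum (𝓞 K)}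

/-- The residue class of a local square is a square. -/
theorem isSquare_of_mem_LSq (h2 : v.valuation K 2 = 1) {x : Kˣ} {a : 𝓞 K}
    (hx : v.valuation K (x : K) = 1) (ha : v.valuation K (algebraMap (𝓞 K) K a - x) < 1)
    (hs : x ∈ LSq v) : IsSquare (Ideal.Quotient.mk v.asIdeal a) := by
  obtain ⟨y, hy⟩ := hs
  rw [val4_eq_one h2] at hy
  have hxy : v.valuation K ((x : K) * (y : K) ^ 2) = 1 := by
    have e : (x : K) * (y : K) ^ 2 = 1 + ((x : K) * (y : K) ^ 2 - 1) := by ring
    rw [e, Valuation.map_add_eq_of_lt_left _ (by rw [map_one]; exact hy), map_one]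
  rw [map_mul, hx, one_mul, map_pow] at hxy
  have hy1 : v.valuation K (y : K) = 1 := (pow_eq_one_iff_of_nonneg zero_le two_ne_zero).1 hxy
  obtain ⟨b, hb⟩ := exists_near_int hy1.le
  have hb1 : v.valuation K (algebraMap (𝓞 K) K b) ≤ 1 := v.valuation_le_one b
  have ha1 : v.valuation K (algebraMap (𝓞 K) K a) ≤ 1 := v.valuation_le_one a
  have h3 : v.valuation K (algebraMap (𝓞 K) K (a * b ^ 2 - 1)) < 1 := by
    have e : algebraMap (𝓞 K) K (a * b ^ 2 - 1) =
        (algebraMap (𝓞 K) K a * (algebraMap (𝓞 K) K b + y)) * (algebraMap (𝓞 K) K b - y) +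
          ((algebraMap (𝓞 K) K a - x) * (y : K) ^ 2 + ((x : K) * (y : K) ^ 2 - 1)) := by
      rw [map_sub, map_mul, map_pow, map_one]
      ring
    rw [e]
    refine lt_of_le_of_lt (Valuation.map_add _ _ _) (max_lt ?_ ?_)
    · rw [map_mul]
      refine lt_of_le_of_lt (mul_le_of_le_one_left' ?_) hb
      rw [map_mul]
      refine mul_le_one' ha1 ((Valuation.map_add _ _ _).trans (max_le hb1 hy1.le))
    · refine lt_of_le_of_lt (Valuation.map_add _ _ _) (max_lt ?_ hy)
      rw [map_mul, map_pow, hy1, one_pow, mul_one]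
      exact ha
  rw [HeightOneSpectrum.valuation_lt_one_iff_mem, ← Ideal.Quotient.eq] at h3
  rw [map_mul, map_pow, map_one] at h3
  have hm : v.asIdeal.IsMaximal := v.isMaximal
  let _ : Field (𝓞 K ⧸ v.asIdeal) := Ideal.Quotient.field v.asIdeal
  have hb0 : Ideal.Quotient.mk v.asIdeal b ≠ 0 := by
    intro h
    rw [h] at h3
    simp at h3
  refine ⟨(Ideal.Quotient.mk v.asIdeal b)⁻¹, ?_⟩
  field_simp
  exact h3

end res


section ideal

variable {R : Type*} [CommRing R] [IsDedekindDomain R]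

/-- The value of an ideal at a place. -/
noncomputable def iV (v : HeightOneSpectrum R) (I : Ideal R) : ℤᵐ⁰ :=
  exp (-((Associates.mk v.asIdeal).count (Associates.mk I).factors : ℤ))

theorem iV_mul (v : HeightOneSpectrum R) {I J : Ideal R} (hI : I ≠ ⊥) (hJ : J ≠ ⊥) :
    iV v (I * J) = iV v I * iV v J := by
  unfold iV
  rw [← exp_add, ← Associates.mk_mul_mk, Associates.count_mul (Associates.mk_ne_zero.2 hI)
    (Associates.mk_ne_zero.2 hJ) v.associates_irreducible]
  congr 1
  push_cast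
  ring

theorem iV_one (v : HeightOneSpectrum R) : iV v (1 : Ideal R) = 1 := by
  unfold iV
  rw [Associates.mk_one, Associates.factors_one, Associates.count_zero v.associates_irreducible]
  simp

theorem iV_pow (v : HeightOneSpectrum R) {I : Ideal R} (hI : I ≠ ⊥) (n : ℕ) :
    iV v (I ^ n) = iV v I ^ n := by
  induction n with
  | zero => rw [pow_zero, pow_zero, iV_one]
  | succ n ih => rw [pow_succ, pow_succ, iV_mul v (pow_ne_zero n hI) hI, ih]

theorem iV_self (v : HeightOneSpectrum R) : iV v v.asIdeal = exp (-1) := by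
  unfold iV
  rw [Associates.count_self v.associates_irreducible]
  rfl

theorem iV_ne {v w : HeightOneSpectrum R} (h : v ≠ w) : iV v w.asIdeal = 1 := by
  unfold iV
  rw [Associates.count_eq_zero_of_ne v.associates_irreducible w.associates_irreducible]
  · simp
  · intro h1
    apply h
    rw [Associates.mk_eq_mk_iff_associated, associated_iff_eq] at h1
    exact HeightOneSpectrum.ext h1

theorem iV_int (v : HeightOneSpectrum R) {r : R} (hr : r ≠ 0) :
    iV v (Ideal.span {r}) = v.intValuation r := by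
  rw [v.intValuation_if_neg hr]
  rfl

end ideal

variable {F : Type*} [Field F] [NumberField F] {K : Type*} [Field K] [NumberField K] [Algebra F K]

theorem finite_above (v : HeightOneSpectrum (𝓞 F)) :
    {u : HeightOneSpectrum (𝓞 K) | u.under (𝓞 F) = v}.Finite := by
  have := v.isMaximal
  have h := IsDedekindDomain.primesOver_finite v.asIdeal (𝓞 K)
  refine Set.Finite.of_finite_image (f := HeightOneSpectrum.asIdeal) (h.subset ?_) ?_
  · rintro _ ⟨u, rfl, rfl⟩
    exact ⟨u.isPrime, ⟨rfl⟩⟩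
  · intro u _ w _ h
    exact HeightOneSpectrum.ext h

/-- The places above `v`. -/
noncomputable def abv (K : Type*) [Field K] [NumberField K] [Algebra F K] (v : HeightOneSpectrum (𝓞 F)) : Finset (HeightOneSpectrum (𝓞 K)) :=
  (finite_above (K := K) v).toFinset

theorem mem_abv {v : HeightOneSpectrum (𝓞 F)} {u : HeightOneSpectrum (𝓞 K)} :
    u ∈ abv K v ↔ u.under (𝓞 F) = v := (finite_above (K := K) v).mem_toFinset

theorem iV_relNorm (v : HeightOneSpectrum (𝓞 F)) {I : Ideal (𝓞 K)} (hI : I ≠ ⊥) :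
    iV v (Ideal.relNorm (𝓞 F) I) = ∏ u ∈ abv K v, iV u I ^ u.asIdeal.inertiaDeg (𝓞 F) := by
  classical
  induction I using UniqueFactorizationMonoid.induction_on_prime with
  | h₁ => exact absurd rfl hI
  | h₂ I h =>
    have h1 : I = 1 := by
      rw [Ideal.isUnit_iff] at h
      rw [h, Ideal.one_eq_top]
    rw [h1, map_one, iV_one]
    refine (Finset.prod_eq_one fun u _ => ?_).symm
    rw [iV_one, one_pow]
  | h₃ I P hI0 hP ih =>
    have hP0 : P ≠ ⊥ := hP.ne_zero
    have hPr : P.IsPrime := Ideal.isPrime_of_prime hP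
    set w : HeightOneSpectrum (𝓞 K) := ⟨P, hPr, hP0⟩ with hw
    have hP1 : Ideal.relNorm (𝓞 F) P = (w.under (𝓞 F)).asIdeal ^ P.inertiaDeg (𝓞 F) := by
      have : P.IsMaximal := w.isMaximal
      have : (w.under (𝓞 F)).asIdeal.IsMaximal := (w.under (𝓞 F)).isMaximal
      have : P.LiesOver (w.under (𝓞 F)).asIdeal := ⟨rfl⟩
      exact Ideal.relNorm_eq_pow_of_isMaximal P (w.under (𝓞 F)).asIdeal
    have hN : Ideal.relNorm (𝓞 F) I ≠ ⊥ := fun h => hI0 (Ideal.relNorm_eq_bot_iff.1 h)
    have hNP : Ideal.relNorm (𝓞 F) P ≠ ⊥ := fun h => hP0 (Ideal.relNorm_eq_bot_iff.1 h)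
    rw [map_mul, iV_mul v hNP hN, ih hI0]
    have e : ∀ u ∈ abv K v, iV u (P * I) ^ u.asIdeal.inertiaDeg (𝓞 F) =
        iV u P ^ u.asIdeal.inertiaDeg (𝓞 F) * iV u I ^ u.asIdeal.inertiaDeg (𝓞 F) := by
      intro u _
      rw [iV_mul u hP0 hI0, mul_pow]
    rw [Finset.prod_congr rfl e, Finset.prod_mul_distrib]
    congr 1
    rw [hP1, iV_pow v (w.under (𝓞 F)).ne_bot]
    by_cases h : w.under (𝓞 F) = v
    · rw [Finset.prod_eq_single w]
      · rw [h, iV_self]
        have : iV w P = exp (-1) := iV_self w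
        rw [this]
      · intro u _ hu
        have : iV u P = 1 := iV_ne hu
        rw [this, one_pow]
      · intro h1
        exact absurd (mem_abv.2 h) h1
    · rw [iV_ne (Ne.symm h), one_pow]
      refine (Finset.prod_eq_one fun u hu => ?_).symm
      have : iV u P = 1 := iV_ne (w := w) (by
        rintro rfl
        exact h (mem_abv.1 hu))
      rw [this, one_pow]

/-- The valuation of the norm. -/
theorem val_norm (v : HeightOneSpectrum (𝓞 F)) {x : K} (hx : x ≠ 0) :
    v.valuation F (Algebra.norm F x) =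
      ∏ u ∈ abv K v, u.valuation K x ^ u.asIdeal.inertiaDeg (𝓞 F) := by
  have key : ∀ r : 𝓞 K, r ≠ 0 → v.valuation F (Algebra.norm F (algebraMap (𝓞 K) K r)) =
      ∏ u ∈ abv K v, u.valuation K (algebraMap (𝓞 K) K r) ^ u.asIdeal.inertiaDeg (𝓞 F) := by
    intro r hr
    have h1 : algebraMap (𝓞 F) F (Algebra.intNorm (𝓞 F) (𝓞 K) r) =
        Algebra.norm F (algebraMap (𝓞 K) K r) := Algebra.algebraMap_intNorm r
    rw [← h1, v.valuation_of_algebraMap, ← iV_int v (by
      intro h2
      rw [h2, map_zero] at h1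
      have h3 := (Algebra.norm_eq_zero_iff (R := F)).1 h1.symm
      exact hr ((FaithfulSMul.algebraMap_eq_zero_iff (𝓞 K) K).1 h3)), ← Ideal.relNorm_singleton,
      iV_relNorm v (by rw [Ne, Ideal.span_singleton_eq_bot]; exact hr)]
    refine Finset.prod_congr rfl fun u _ => ?_
    rw [u.valuation_of_algebraMap, iV_int u hr]
  obtain ⟨a, b, hb, rfl⟩ := IsFractionRing.div_surjective (A := 𝓞 K) x
  have hb0 : b ≠ 0 := nonZeroDivisors.ne_zero hb
  have ha0 : a ≠ 0 := by
    rintro rfl
    rw [map_zero, zero_div] at hx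
    exact hx rfl
  have hbK : algebraMap (𝓞 K) K b ≠ 0 := by
    rw [Ne, FaithfulSMul.algebraMap_eq_zero_iff (𝓞 K) K]
    exact hb0
  have e : Algebra.norm F (algebraMap (𝓞 K) K a / algebraMap (𝓞 K) K b) =
      Algebra.norm F (algebraMap (𝓞 K) K a) / Algebra.norm F (algebraMap (𝓞 K) K b) := by
    rw [eq_div_iff (Algebra.norm_ne_zero_iff.2 hbK), ← map_mul, div_mul_cancel₀ _ hbK]
  rw [e, map_div₀, key a ha0, key b hb0, ← Finset.prod_div_distrib]
  refine Finset.prod_congr rfl fun u _ => ?_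
  rw [map_div₀, div_pow]


theorem under_lt {v : HeightOneSpectrum (𝓞 F)} {u : HeightOneSpectrum (𝓞 K)} (hu : u.under (𝓞 F) = v)
    {x y : F} (h : v.valuation F x < v.valuation F y) :
    u.valuation K (algebraMap F K x) < u.valuation K (algebraMap F K y) := by
  have : u.asIdeal.LiesOver v.asIdeal := ⟨by rw [← hu]; rfl⟩
  have he : v.asIdeal.ramificationIdx' u.asIdeal ≠ 0 :=
    Ideal.IsDedekindDomain.ramificationIdx'_ne_zero_of_liesOver u.asIdeal v.ne_bot
  rw [← HeightOneSpectrum.valuation_liesOver K v u, ← HeightOneSpectrum.valuation_liesOver K v u]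
  exact pow_lt_pow_left₀ h zero_le he

theorem under_one {v : HeightOneSpectrum (𝓞 F)} {u : HeightOneSpectrum (𝓞 K)} (hu : u.under (𝓞 F) = v)
    {x : F} (h : v.valuation F x = 1) : u.valuation K (algebraMap F K x) = 1 := by
  have : u.asIdeal.LiesOver v.asIdeal := ⟨by rw [← hu]; rfl⟩
  rw [← HeightOneSpectrum.valuation_liesOver K v u, h, one_pow]

theorem under_LSq {v : HeightOneSpectrum (𝓞 F)} {u : HeightOneSpectrum (𝓞 K)} (hu : u.under (𝓞 F) = v)
    {d : Fˣ} (hd : d ∈ LSq v) : Units.map (algebraMap F K).toMonoidHom d ∈ LSq u := by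
  obtain ⟨y, hy⟩ := hd
  refine ⟨Units.map (algebraMap F K).toMonoidHom y, ?_⟩
  have h := under_lt hu hy
  rw [map_sub, map_mul, map_pow, map_one, map_ofNat (algebraMap F K) 4] at h
  exact h

theorem res_sq {v : HeightOneSpectrum (𝓞 F)} {u : HeightOneSpectrum (𝓞 K)} (hu : u.under (𝓞 F) = v)
    (h2 : v.valuation F 2 = 1) {d : Fˣ} (hd : v.valuation F (d : F) = 1) (hd' : d ∉ LSq v) :
    Units.map (algebraMap F K).toMonoidHom d ∈ LSq u ↔ Even (u.asIdeal.inertiaDeg (𝓞 F)) := by
  have hL : u.asIdeal.LiesOver v.asIdeal := ⟨by rw [← hu]; rfl⟩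
  have h2u : u.valuation K 2 = 1 := by
    have h := under_one hu h2
    rwa [map_ofNat (algebraMap F K) 2] at h
  obtain ⟨a, ha⟩ := exists_near_int hd.le
  have hm : v.asIdeal.IsMaximal := v.isMaximal
  have hmu : u.asIdeal.IsMaximal := u.isMaximal
  have hns : ¬ IsSquare (Ideal.Quotient.mk v.asIdeal a) := fun h =>
    hd' (mem_LSq_of_isSquare h2 hd ha h)
  have hdu : u.valuation K ((Units.map (algebraMap F K).toMonoidHom d : Kˣ) : K) = 1 :=
    under_one hu hd
  have hau : u.valuation K (algebraMap (𝓞 K) K (algebraMap (𝓞 F) (𝓞 K) a) -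
      ((Units.map (algebraMap F K).toMonoidHom d : Kˣ) : K)) < 1 := by
    have h := under_lt (K := K) hu (x := algebraMap (𝓞 F) F a - d) (y := 1) (by rw [map_one]; exact ha)
    rw [map_sub, map_one, map_one] at h
    exact h
  have hle : v.asIdeal ≤ Ideal.comap (algebraMap (𝓞 F) (𝓞 K)) u.asIdeal := (hL.over).le
  let φ : 𝓞 F ⧸ v.asIdeal →+* 𝓞 K ⧸ u.asIdeal :=
    Ideal.quotientMap u.asIdeal (algebraMap (𝓞 F) (𝓞 K)) hle
  have hφ : φ (Ideal.Quotient.mk v.asIdeal a) =
      Ideal.Quotient.mk u.asIdeal (algebraMap (𝓞 F) (𝓞 K) a) := Ideal.quotientMap_mk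
  let _ : Field (𝓞 F ⧸ v.asIdeal) := Ideal.Quotient.field v.asIdeal
  let _ : Field (𝓞 K ⧸ u.asIdeal) := Ideal.Quotient.field u.asIdeal
  have hf1 : Finite (𝓞 F ⧸ v.asIdeal) := Ideal.finiteQuotientOfFreeOfNeBot v.asIdeal v.ne_bot
  have hf2 : Finite (𝓞 K ⧸ u.asIdeal) := Ideal.finiteQuotientOfFreeOfNeBot u.asIdeal u.ne_bot
  have hcard : Nat.card (𝓞 F ⧸ v.asIdeal) ^ u.asIdeal.inertiaDeg (𝓞 F) =
      Nat.card (𝓞 K ⧸ u.asIdeal) := Ideal.cardQuot_pow_inertiaDeg v.asIdeal u.asIdeal
  have h20 : (2 : 𝓞 F ⧸ v.asIdeal) ≠ 0 := by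
    intro h
    have h3 : Ideal.Quotient.mk v.asIdeal 2 = 0 := by rw [← h]; exact map_ofNat _ 2
    rw [Ideal.Quotient.eq_zero_iff_mem, ← HeightOneSpectrum.valuation_lt_one_iff_mem (K := F)] at h3
    have e2 : algebraMap (𝓞 F) F 2 = 2 := map_ofNat (algebraMap (𝓞 F) F) 2
    have h5 : v.valuation F (algebraMap (𝓞 F) F 2) < 1 := h3
    rw [e2, h2] at h5
    exact lt_irrefl _ h5
  rw [← ff_sq φ (u.asIdeal.inertiaDeg (𝓞 F)) hcard h20 hns, hφ]
  exact ⟨isSquare_of_mem_LSq h2u hdu hau, mem_LSq_of_isSquare h2u hdu hau⟩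

theorem exp_sum' {ι : Type*} (s : Finset ι) (f : ι → ℤ) :
    (exp (∑ i ∈ s, f i) : ℤᵐ⁰) = ∏ i ∈ s, exp (f i) := by
  classical
  induction s using Finset.induction_on with
  | empty => simp
  | insert a s ha ih => rw [Finset.sum_insert ha, Finset.prod_insert ha, exp_add, ih]

theorem even_sum_card {ι : Type*} (s : Finset ι) (f : ι → ℤ) [DecidablePred fun i => Odd (f i)] :
    Even (∑ i ∈ s, f i) ↔ Even (s.filter fun i => Odd (f i)).card := by
  classical
  induction s using Finset.induction_on with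
  | empty => simp
  | insert a s ha ih =>
    rw [Finset.sum_insert ha, Finset.filter_insert, Int.even_add, ih]
    split_ifs with h
    · rw [Finset.card_insert_of_notMem (by simp [ha]), Nat.even_add_one]
      have := Int.not_even_iff_odd.2 h
      tauto
    · have := Int.not_odd_iff_even.1 h
      tauto


/-- The valuation of the norm is the sum of the valuations with the residue degrees as coefficients,
and a unit of `F` at a place which is not dyadic is a square at `u` iff it is a square at `v` or the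
residue degree of `u` is even: so the parity of the norm. `v` is not dyadic, `d` is a unit at `v`. Proof:
`x ∉ LNm u d` iff `d ∉ LSq u` and the valuation of `x` at `u` is odd (`even_mem_LNm`, `odd_notMem_LNm`, a
square is everything: `Hm.LNm_eq_top`), and the same over `F` for the norm. (No hypothesis on
ramification is needed: the valuation of the norm of `x` is `∑ f_u ord_u x`.) -/
theorem proj_good {F : Type} [Field F] [NumberField F] {K : Type} [Field K] [NumberField K]
    [Algebra F K] {v : HeightOneSpectrum (𝓞 F)} (h2 : v.valuation F 2 = 1) (d : Fˣ)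
    (hd : v.valuation F (d : F) = 1) (x : Kˣ) :
    Even (nF v x (Units.map (algebraMap F K).toMonoidHom d)) ↔
      Units.map (Algebra.norm F) x ∈ LNm v d := by
  classical
  by_cases hs : d ∈ LSq v
  · refine ⟨fun _ => LNm_eq_top hs _, fun _ => ?_⟩
    have h0 : nF v x (Units.map (algebraMap F K).toMonoidHom d) = 0 := by
      unfold nF
      have : IsEmpty {u : HeightOneSpectrum (𝓞 K) // u.under (𝓞 F) = v ∧
          x ∉ LNm u (Units.map (algebraMap F K).toMonoidHom d)} :=
        ⟨fun u => u.2.2 (LNm_eq_top (under_LSq u.2.1 hs) x)⟩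
      exact Nat.card_of_isEmpty
    rw [h0]
    exact Even.zero
  set o : HeightOneSpectrum (𝓞 K) → ℤ := fun u => log (u.valuation K (x : K)) with ho
  have hox : ∀ u : HeightOneSpectrum (𝓞 K), u.valuation K (x : K) = exp (o u) := fun u =>
    (exp_log (val_pos u x).ne').symm
  have hloc : ∀ u : HeightOneSpectrum (𝓞 K), u.under (𝓞 F) = v →
      (x ∉ LNm u (Units.map (algebraMap F K).toMonoidHom d) ↔
        Odd ((u.asIdeal.inertiaDeg (𝓞 F) : ℤ) * o u)) := by
    intro u hu
    have h2u : u.valuation K 2 = 1 := by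
      have h := under_one hu h2
      rwa [map_ofNat (algebraMap F K) 2] at h
    have hdu : u.valuation K ((Units.map (algebraMap F K).toMonoidHom d : Kˣ) : K) = 1 :=
      under_one hu hd
    rw [Int.odd_mul, Int.odd_coe_nat]
    constructor
    · intro h
      constructor
      · rw [← Nat.not_even_iff_odd, ← res_sq hu h2 hd hs]
        intro h3
        exact h (LNm_eq_top h3 x)
      · rw [← Int.not_even_iff_odd]
        rintro ⟨m, hm⟩
        exact h (even_mem_LNm h2u hdu (m := m) (by rw [hox, hm, two_mul]))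
    · rintro ⟨h3, h4⟩
      rw [← Nat.not_even_iff_odd, ← res_sq hu h2 hd hs] at h3
      exact odd_notMem_LNm h2u hdu h3 h4 (hox u)
  have hnF : nF v x (Units.map (algebraMap F K).toMonoidHom d) =
      ((abv K v).filter fun u => Odd ((u.asIdeal.inertiaDeg (𝓞 F) : ℤ) * o u)).card := by
    unfold nF
    rw [← Nat.card_eq_finsetCard]
    refine Nat.card_congr (Equiv.subtypeEquivRight fun u => ?_)
    rw [Finset.mem_filter, mem_abv]
    constructor
    · rintro ⟨h3, h4⟩
      exact ⟨h3, (hloc u h3).1 h4⟩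
    · rintro ⟨h3, h4⟩
      exact ⟨h3, (hloc u h3).2 h4⟩
  rw [hnF, ← even_sum_card]
  set s : ℤ := ∑ u ∈ abv K v, (u.asIdeal.inertiaDeg (𝓞 F) : ℤ) * o u with hsdef
  have hN : v.valuation F ((Units.map (Algebra.norm F) x : Fˣ) : F) = exp s := by
    have e : ((Units.map (Algebra.norm F) x : Fˣ) : F) = Algebra.norm F (x : K) := rfl
    rw [e, val_norm v x.ne_zero, hsdef, exp_sum']
    refine Finset.prod_congr rfl fun u _ => ?_
    rw [hox, ← exp_nsmul, nsmul_eq_mul]
  constructor
  · rintro ⟨m, hm⟩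
    exact even_mem_LNm h2 hd (m := m) (by rw [hN, hm, two_mul])
  · intro h
    by_contra hne
    rw [Int.not_even_iff_odd] at hne
    exact odd_notMem_LNm h2 hd hs hne hN h

end Dr
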