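import Pool.Agent.Lib.MP_f80667_ag.Dr.Df

/-! Products of lattice data. -/

namespace Dr

/-- Products of lattice data. -/
theorem LD.pi {R k : Type*} [CommRing R] [Field k] [Algebra R k] {ι : Type*} [Fintype ι]
    [DecidableEq ι] {L : ι → Type*}
    [∀ i, CommRing (L i)] [∀ i, Algebra k (L i)] [∀ i, Algebra R (L i)]
    [∀ i, IsScalarTower R k (L i)] {O : ∀ i, Subalgebra R (L i)} {s : ∀ i, L i →ₗ[k] k}
    {ε π : ∀ i, L i} (h : ∀ i, LD (O i) (s i) (ε i) (π i)) :
    LD (Subalgebra.pi Set.univ O) (∑ i, s i ∘ₗ LinearMap.proj i) ε π := by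
  have hmem : ∀ x : ∀ i, L i, x ∈ Subalgebra.pi Set.univ O ↔ ∀ i, x i ∈ O i := by
    intro x
    rw [Subalgebra.mem_pi]
    simp
  have hs : ∀ x : ∀ i, L i, (∑ i, s i ∘ₗ LinearMap.proj i : (∀ i, L i) →ₗ[k] k) x =
      ∑ i, s i (x i) := by
    intro x
    rw [LinearMap.sum_apply]
    rfl
  constructor
  · have : ∀ i, Module.Finite R (O i) := fun i => (h i).fin
    let g : (∀ i, O i) →ₗ[R] Subalgebra.pi Set.univ O :=
      { toFun := fun x => ⟨fun i => (x i : L i), (hmem _).2 fun i => (x i).2⟩
        map_add' := fun x y => rfl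
        map_smul' := fun r x => rfl }
    refine Module.Finite.of_surjective g fun x => ⟨fun i => ⟨(x : ∀ i, L i) i, (hmem _).1 x.2 i⟩, ?_⟩
    rfl
  · intro x
    by_cases hinj : ∀ r : R, algebraMap R k r = 0 → r = 0
    · choose r hr0 hr using fun i => (h i).span (x i)
      refine ⟨∏ i, r i, ?_, ?_⟩
      · intro h0
        have h1 : algebraMap R k (∏ i, r i) = 0 := by rw [h0, map_zero]
        rw [map_prod, Finset.prod_eq_zero_iff] at h1
        obtain ⟨i, -, hi⟩ := h1
        exact hr0 i (hinj _ hi)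
      · rw [hmem]
        intro i
        rw [Pi.smul_apply, ← Finset.prod_erase_mul _ _ (Finset.mem_univ i), mul_smul]
        exact (O i).smul_mem (hr i) _
    · push Not at hinj
      obtain ⟨r, hr, hr0⟩ := hinj
      refine ⟨r, hr0, ?_⟩
      rw [hmem]
      intro i
      rw [Pi.smul_apply, ← algebraMap_smul k r (x i), hr, zero_smul]
      exact (O i).zero_mem
  · intro z
    rw [hmem]
    constructor
    · intro hz y hy
      rw [hmem] at hy
      choose r hr using fun i => ((h i).dual (z i)).1 (hz i) (y i) (hy i)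
      refine ⟨∑ i, r i, ?_⟩
      rw [hs, map_sum]
      exact Finset.sum_congr rfl fun i _ => hr i
    · intro hz i
      rw [(h i).dual]
      intro y hy
      obtain ⟨r, hr⟩ := hz (Pi.single i y) (by
        rw [hmem]
        intro j
        by_cases hj : j = i
        · subst hj
          rwa [Pi.single_eq_same]
        · rw [Pi.single_eq_of_ne hj]
          exact (O j).zero_mem)
      refine ⟨r, ?_⟩
      rw [← hr, hs, Finset.sum_eq_single i]
      · rw [Pi.mul_apply, Pi.single_eq_same]
      · intro j _ hj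
        rw [Pi.mul_apply, Pi.single_eq_of_ne hj, mul_zero, map_zero]
      · intro hi
        exact absurd (Finset.mem_univ i) hi
  · exact (hmem _).2 fun i => (h i).he
  · exact (hmem _).2 fun i => (h i).hp
  · choose p hp using fun i => (h i).inv
    exact ⟨p, funext hp⟩
  · choose u hu hu' using fun i => (h i).unit
    exact ⟨u, (hmem _).2 hu, funext hu'⟩

end Dr
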