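import Pool.Agent.Lib.MP_f80667_ag.Dr.LDN
import Pool.Agent.Lib.MP_f80667_ag.Dr.BcB
import Pool.Agent.Lib.MP_f80667_ag.Dr.PiA
import Pool.Agent.Lib.MP_f80667_ag.Dr.BcC

/-! The parity lemma for a family of number fields over the completion of the base field. -/

open IsDedekindDomain NumberField Module

namespace Dr

variable {F : Type} [Field F] [NumberField F] {ι : Type} [Fintype ι] {K : ι → Type}
  [∀ i, Field (K i)] [∀ i, NumberField (K i)] [∀ i, Algebra F (K i)]

/-- **The parity lemma for a family.** Proof: `Nice.LD`, `LD.pi` over `R = Rp v`; the residue maps `Nice.res`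
of the factors, product over the `Σ i, J i`; `LD.parity_bc` with `exists_inc`. -/
theorem par_loc (v : HeightOneSpectrum (𝓞 F)) {ε a c : ∀ i, K i}
    (h : ∀ i, Nice (K i) v (ε i) (a i) (c i)) {L' : Type} [CommRing L']
    [Algebra (v.adicCompletion F) L'] [FiniteDimensional (v.adicCompletion F) L']
    (j : (∀ i, K i) →+* L')
    (hj : ∀ x : F, j (algebraMap F _ x) =
      algebraMap (v.adicCompletion F) L' (algebraMap F (v.adicCompletion F) x)) {n : ℕ}
    (b : Basis (Fin n) F (∀ i, K i)) (b' : Basis (Fin n) (v.adicCompletion F) L')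
    (hb : ∀ m, b' m = j (b m)) {s' : L' →ₗ[v.adicCompletion F] v.adicCompletion F}
    (hs : ∀ x : ∀ i, K i, s' (j x) = algebraMap F (v.adicCompletion F) (∑ i, sT F (c i) (x i)))
    {W : Submodule (v.adicCompletion F) (Fin 4 → L')} (hW : Lag (tr s' (qeF (j ε) (j a))) W) :
    Even (∑ i, Nat.card {w : HeightOneSpectrum (𝓞 (K i)) //
      w.under (𝓞 F) = v ∧ w.valuation (K i) (a i) ≠ 1}) := by
  classical
  have hFD : FiniteDimensional F (∀ i, K i) := Module.Finite.of_basis b
  let _ : Algebra (v.adicCompletionIntegers F) L' :=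
    ((algebraMap (v.adicCompletion F) L').comp
      (algebraMap (v.adicCompletionIntegers F) (v.adicCompletion F))).toAlgebra
  have _ : IsScalarTower (v.adicCompletionIntegers F) (v.adicCompletion F) L' :=
    IsScalarTower.of_algebraMap_eq fun _ => rfl
  have hfin : ∀ i, Finite {w : HeightOneSpectrum (𝓞 (K i)) //
      w.under (𝓞 F) = v ∧ w.valuation (K i) (a i) ≠ 1} := by
    intro i
    have := LDN_finite (K i) v
    exact Finite.of_injective (fun w => (⟨w.1, w.2.1⟩ :
      {w : HeightOneSpectrum (𝓞 (K i)) // w.under (𝓞 F) = v})) fun w w' hw =>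
        Subtype.ext (congrArg (fun t : {w : HeightOneSpectrum (𝓞 (K i)) //
          w.under (𝓞 F) = v} => t.1) hw)
  have _ : ∀ i, Fintype {w : HeightOneSpectrum (𝓞 (K i)) //
      w.under (𝓞 F) = v ∧ w.valuation (K i) (a i) ≠ 1} := fun i => Fintype.ofFinite _
  have hLD := LD.pi fun i => (h i).LD
  choose Fi hFi hFf r hr hk he using fun i => (h i).res
  obtain ⟨i₀, hi₀, h1, h2, h3⟩ := exists_inc v
  let Fs : (Σ i, {w : HeightOneSpectrum (𝓞 (K i)) //
      w.under (𝓞 F) = v ∧ w.valuation (K i) (a i) ≠ 1}) → Type := fun p => Fi p.1 p.2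
  let _ : ∀ p, Field (Fs p) := fun p => hFi p.1 p.2
  have _ : ∀ p, Finite (Fs p) := fun p => hFf p.1 p.2
  let pr : ∀ i, Subalgebra.pi Set.univ (fun i => Op (K i) v) →+* Op (K i) v := fun i =>
    { toFun := fun x => ⟨x.1 i, x.2 i (Set.mem_univ i)⟩
      map_one' := rfl
      map_mul' := fun _ _ => rfl
      map_zero' := rfl
      map_add' := fun _ _ => rfl }
  let rr : Subalgebra.pi Set.univ (fun i => Op (K i) v) →+* ∀ p, Fs p :=
    { toFun := fun x p => r p.1 (pr p.1 x) p.2
      map_one' := by
        funext p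
        rw [map_one, map_one]
        rfl
      map_mul' := fun x y => by
        funext p
        rw [map_mul, map_mul]
        rfl
      map_zero' := by
        funext p
        rw [map_zero, map_zero]
        rfl
      map_add' := fun x y => by
        funext p
        rw [map_add, map_add]
        rfl }
  have hrr : ∀ x p, rr x p = r p.1 (pr p.1 x) p.2 := fun _ _ => rfl
  have key : Even (Fintype.card (Σ i, {w : HeightOneSpectrum (𝓞 (K i)) //
      w.under (𝓞 F) = v ∧ w.valuation (K i) (a i) ≠ 1})) := by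
    refine LD.parity_bc hLD i₀ hi₀ j hj b b' hb (s' := s') ?_ h1 h2 h3 rr ?_ ?_ ?_ ?_ hW
    · intro x
      rw [hs, LinearMap.sum_apply]
      rfl
    · intro y
      choose x hx using fun i => hr i (fun l => y ⟨i, l⟩)
      refine ⟨⟨fun i => x i, fun i _ => (x i).2⟩, ?_⟩
      funext p
      rw [hrr]
      have h4 : pr p.1 ⟨fun i => (x i : K i), fun i _ => (x i).2⟩ = x p.1 := rfl
      rw [h4, hx]
    · intro x
      constructor
      · intro hx
        have h4 : ∀ i, r i (pr i x) = 0 := by
          intro i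
          funext l
          exact congrFun hx ⟨i, l⟩
        choose y hy hxy using fun i => (hk i _).1 (h4 i)
        exact ⟨y, fun i _ => hy i, funext hxy⟩
      · rintro ⟨y, hy, hxy⟩
        funext p
        rw [hrr]
        have h4 : r p.1 (pr p.1 x) = 0 := (hk p.1 _).2 ⟨y p.1, hy p.1 (Set.mem_univ _),
          congrFun hxy p.1⟩
        rw [h4]
        rfl
    · intro m hm
      choose y hy hxy using fun i => (h i).max m hm
      exact ⟨y, fun i _ => hy i, funext hxy⟩
    · intro p x
      exact he p.1 ⟨ε p.1, (h p.1).LD.he⟩ rfl p.2 x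
  rw [Fintype.card_sigma] at key
  simpa only [Nat.card_eq_fintype_card] using key

end Dr
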