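import Pool.Agent.Lib.MP_f80667_ag.Dr.Tot

/-! The symbols over `ℚ` in terms of the `p`-adic numbers. -/

open IsDedekindDomain NumberField

namespace Dr

open Hm

/-- `c` is a norm from `ℚ_p(√b)`. -/
def hp (p : Nat.Primes) (b c : ℚ) : Prop :=
  haveI : Fact p.1.Prime := ⟨p.2⟩
  ∃ x y : ℚ_[p.1], (c : ℚ_[p.1]) = x ^ 2 - (b : ℚ_[p.1]) * y ^ 2

theorem QA_norm {p : ℕ} [hp : Fact p.Prime] {x : ℚ} (hx : x ≠ 0) :
    ‖(x : ℚ_[p])‖ = (p : ℝ) ^ (-padicValRat p x) := by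
  rw [Padic.eq_padicNorm, padicNorm.eq_zpow_of_nonzero hx]
  push_cast
  rfl

theorem QA_lt {p : ℕ} [hp : Fact p.Prime] (a b : ℚ) :
    Rat.padicValuation p a < Rat.padicValuation p b ↔ ‖(a : ℚ_[p])‖ < ‖(b : ℚ_[p])‖ := by
  have hp1 : (1 : ℝ) < p := by exact_mod_cast hp.out.one_lt
  by_cases hb : b = 0
  · subst hb
    rw [map_zero, Rat.cast_zero, norm_zero]
    exact ⟨fun h => absurd h not_lt_zero, fun h => absurd h (not_lt.2 (norm_nonneg _))⟩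
  have hb' : (b : ℚ_[p]) ≠ 0 := by exact_mod_cast hb
  by_cases ha : a = 0
  · subst ha
    rw [map_zero, Rat.cast_zero, norm_zero, zero_lt_iff, Valuation.ne_zero_iff, norm_pos_iff]
    exact ⟨fun _ => hb', fun _ => hb⟩
  rw [QA_norm ha, QA_norm hb, zpow_lt_zpow_iff_right₀ hp1]
  simp only [Rat.padicValuation, Valuation.coe_mk, MonoidWithZeroHom.coe_mk, ZeroHom.coe_mk, ha, hb,
    if_false, WithZero.exp_lt_exp]

theorem QA_near {p : ℕ} [hp : Fact p.Prime] (b c : ℚ) (hc : c ≠ 0) (x y : ℚ_[p])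
    (h : (c : ℚ_[p]) = x ^ 2 - (b : ℚ_[p]) * y ^ 2) (ε : ℝ) (hε : 0 < ε) :
    ∃ x' y' : ℚ, ‖(((x' ^ 2 - b * y' ^ 2) / c - 1 : ℚ) : ℚ_[p])‖ < ε := by
  have hc' : (c : ℚ_[p]) ≠ 0 := by exact_mod_cast hc
  let f : ℚ_[p] × ℚ_[p] → ℚ_[p] := fun z => (z.1 ^ 2 - (b : ℚ_[p]) * z.2 ^ 2) / c - 1
  have hf : Continuous f := by fun_prop
  have ho : IsOpen (f ⁻¹' (Metric.ball 0 ε)) := Metric.isOpen_ball.preimage hf
  have hne : (f ⁻¹' (Metric.ball 0 ε)).Nonempty := by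
    refine ⟨(x, y), ?_⟩
    have : f (x, y) = 0 := by
      simp only [f]
      rw [← h, div_self hc', sub_self]
    rw [Set.mem_preimage, this]
    exact Metric.mem_ball_self hε
  have hd : DenseRange (Prod.map ((↑) : ℚ → ℚ_[p]) ((↑) : ℚ → ℚ_[p])) :=
    (Padic.denseRange_ratCast p).prodMap (Padic.denseRange_ratCast p)
  obtain ⟨⟨x', y'⟩, hxy⟩ := hd.exists_mem_open ho hne
  refine ⟨x', y', ?_⟩
  rw [Set.mem_preimage, mem_ball_zero_iff] at hxy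
  push_cast
  exact hxy

theorem QA_sqrt {p : ℕ} [hp : Fact p.Prime] (a : ℚ) 
    (h : ‖((a - 1 : ℚ) : ℚ_[p])‖ < ‖((4 : ℚ) : ℚ_[p])‖) : ∃ w : ℚ_[p], w ≠ 0 ∧ w ^ 2 = a := by
  have h4 : ‖((4 : ℚ) : ℚ_[p])‖ ≤ 1 := by
    have := Padic.norm_int_le_one (p := p) 4
    push_cast at this ⊢
    exact this
  have ha1 : ‖(a : ℚ_[p]) - 1‖ < 1 := by
    have := h.trans_le h4
    push_cast at this
    exact this
  have ha : ‖(a : ℚ_[p])‖ ≤ 1 := by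
    have e : (a : ℚ_[p]) = ((a : ℚ_[p]) - 1) + 1 := by ring
    rw [e]
    exact (Padic.nonarchimedean _ _).trans (max_le ha1.le (by rw [norm_one]))
  obtain ⟨A, hA⟩ : ∃ A : ℤ_[p], (A : ℚ_[p]) = a := ⟨⟨a, ha⟩, rfl⟩
  have hn : ‖(Polynomial.X ^ 2 - Polynomial.C A : Polynomial ℤ_[p]).aeval (1 : ℤ_[p])‖ <
      ‖(Polynomial.X ^ 2 - Polynomial.C A : Polynomial ℤ_[p]).derivative.aeval (1 : ℤ_[p])‖ ^ 2 := by
    have h1 : (Polynomial.X ^ 2 - Polynomial.C A : Polynomial ℤ_[p]).aeval (1 : ℤ_[p]) = 1 - A := by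
      simp
    have h3 : (Polynomial.X ^ 2 - Polynomial.C A : Polynomial ℤ_[p]).derivative.aeval (1 : ℤ_[p]) =
        2 := by
      simp
      norm_num
    have e1 : ‖(1 - A : ℤ_[p])‖ = ‖(a : ℚ_[p]) - 1‖ := by
      rw [PadicInt.norm_def, PadicInt.coe_sub, PadicInt.coe_one, hA, norm_sub_rev]
    have e2 : ‖(2 : ℤ_[p])‖ = ‖(2 : ℚ_[p])‖ := by
      have : (2 : ℤ_[p]) = ((2 : ℕ) : ℤ_[p]) := rfl
      rw [this, PadicInt.norm_def, PadicInt.coe_natCast]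
      rfl
    have e3 : ‖((4 : ℚ) : ℚ_[p])‖ = ‖(2 : ℚ_[p])‖ ^ 2 := by
      rw [← norm_pow]
      norm_num
    rw [h1, h3, e1, e2, ← e3]
    push_cast at h ⊢
    exact h
  obtain ⟨w, hw, -⟩ := hensels_lemma hn
  have h4 : (Polynomial.X ^ 2 - Polynomial.C A : Polynomial ℤ_[p]).aeval w = w ^ 2 - A := by
    simp
  rw [h4] at hw
  have h5 : (w : ℚ_[p]) ^ 2 = a := by
    rw [← hA]
    have := sub_eq_zero.1 hw
    exact_mod_cast congrArg (fun t : ℤ_[p] => (t : ℚ_[p])) this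
  refine ⟨w, ?_, h5⟩
  intro h0
  rw [h0] at h5
  have : (a : ℚ_[p]) = 0 := by rw [← h5]; ring
  rw [this] at ha1
  simp at ha1

theorem QA_fwd {p : ℕ} [hp : Fact p.Prime] {b c s t x y : ℚ} (hs : s ≠ 0) (ht : t ≠ 0)
    (h : c * s = x ^ 2 - b * y ^ 2)
    (h1 : ‖((s * t ^ 2 - 1 : ℚ) : ℚ_[p])‖ < ‖((4 : ℚ) : ℚ_[p])‖) :
    ∃ z w : ℚ_[p], (c : ℚ_[p]) = z ^ 2 - (b : ℚ_[p]) * w ^ 2 := by
  obtain ⟨w, hw0, hw⟩ := QA_sqrt (s * t ^ 2) h1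
  have ht0 : (t : ℚ_[p]) ≠ 0 := by exact_mod_cast ht
  have hs0 : (s : ℚ_[p]) ≠ 0 := by exact_mod_cast hs
  have h' : (c : ℚ_[p]) * (s : ℚ_[p]) = (x : ℚ_[p]) ^ 2 - (b : ℚ_[p]) * (y : ℚ_[p]) ^ 2 := by
    exact_mod_cast h
  push_cast at hw
  refine ⟨x * t / w, y * t / w, ?_⟩
  have e1 : ((x : ℚ_[p]) * (t : ℚ_[p]) / w) ^ 2 - (b : ℚ_[p]) * ((y : ℚ_[p]) * (t : ℚ_[p]) / w) ^ 2 =
      (((x : ℚ_[p]) ^ 2 - (b : ℚ_[p]) * (y : ℚ_[p]) ^ 2) * (t : ℚ_[p]) ^ 2) / w ^ 2 := by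
    ring
  rw [e1, ← h', hw]
  field_simp

/-- Proof: `mem_LNm`, `Rat.HeightOneSpectrum.valuation_equiv_padicValuation`, Hensel's lemma for a
square root (`QA_sqrt`) and the density of the rational numbers (`QA_near`). -/
theorem mem_LNm_Q (v : HeightOneSpectrum (𝓞 ℚ)) (b c : ℚˣ) :
    c ∈ LNm v b ↔ hp (Rat.HeightOneSpectrum.primesEquiv v) b c := by
  haveI : Fact (Rat.HeightOneSpectrum.primesEquiv v).1.Prime :=
    ⟨(Rat.HeightOneSpectrum.primesEquiv v).2⟩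
  have hlt : ∀ a a' : ℚ, v.valuation ℚ a < v.valuation ℚ a' ↔
      ‖(a : ℚ_[(Rat.HeightOneSpectrum.primesEquiv v).1])‖ <
        ‖(a' : ℚ_[(Rat.HeightOneSpectrum.primesEquiv v).1])‖ := fun a a' =>
    (Rat.HeightOneSpectrum.valuation_equiv_padicValuation v).lt_iff_lt.trans (QA_lt a a')
  rw [mem_LNm]
  constructor
  · rintro ⟨x, y, s, ⟨t, ht⟩, h⟩
    rw [hlt] at ht
    exact QA_fwd s.ne_zero t.ne_zero h ht
  · rintro ⟨x, y, h⟩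
    obtain ⟨x', y', h1⟩ := QA_near (b : ℚ) (c : ℚ) c.ne_zero x y h
      ‖((4 : ℚ) : ℚ_[(Rat.HeightOneSpectrum.primesEquiv v).1])‖
      (norm_pos_iff.2 (by exact_mod_cast (four_ne_zero : (4 : ℚ) ≠ 0)))
    rw [← hlt] at h1
    have hd : (x' ^ 2 - (b : ℚ) * y' ^ 2) / c ≠ 0 := by
      intro h0
      rw [h0, zero_sub, Valuation.map_neg, map_one] at h1
      exact absurd (val4_le v) (not_le.2 h1)
    refine ⟨x', y', Units.mk0 _ hd, ⟨1, ?_⟩, ?_⟩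
    · rw [Units.val_mk0, Units.val_one, one_pow, mul_one]
      exact h1
    · rw [Units.val_mk0, mul_div_cancel₀ _ c.ne_zero]

open Classical in
/-- Proof: `mem_LNm_Q`; `ℚ →+* ℝ` has one element. -/
theorem tot_Q (b c : ℚˣ) : tot b c = Nat.card {p : Nat.Primes // ¬ hp p b c} +
    (if (b : ℚ) < 0 ∧ (c : ℚ) < 0 then 1 else 0) := by
  rw [tot]
  congr 1
  · exact Nat.card_congr (Rat.HeightOneSpectrum.primesEquiv.subtypeEquiv fun v =>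
      not_congr (mem_LNm_Q v b c))
  · have hφ : ∀ (φ : ℚ →+* ℝ) (a : ℚ), φ a < 0 ↔ a < 0 := fun φ a => by
      rw [eq_ratCast φ a]
      exact Rat.cast_lt_zero
    by_cases h : (b : ℚ) < 0 ∧ (c : ℚ) < 0
    · rw [if_pos h, Nat.card_eq_one_iff_unique]
      exact ⟨⟨fun x y => Subtype.ext (Subsingleton.elim _ _)⟩,
        ⟨⟨algebraMap ℚ ℝ, (hφ _ _).2 h.1, (hφ _ _).2 h.2⟩⟩⟩
    · rw [if_neg h, Nat.card_eq_zero]
      exact Or.inl ⟨fun x => h ⟨(hφ _ _).1 x.2.1, (hφ _ _).1 x.2.2⟩⟩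

end Dr
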