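import Pool.Agent.Lib.MP_f80667_ag.Dr.QA

/-! The symbols over `ℚ_p`, `p` odd. -/

namespace Dr

theorem QB_norm_two {q : ℕ} [Fact q.Prime] (h2 : q ≠ 2) : ‖(2 : ℤ_[q])‖ = 1 := by
  refine le_antisymm (PadicInt.norm_le_one _) (not_lt.1 fun h => ?_)
  have h1 : ‖((2 : ℤ) : ℤ_[q])‖ < 1 := by exact_mod_cast h
  rw [PadicInt.norm_int_lt_one_iff_dvd] at h1
  have h3 : q ∣ 2 := by exact_mod_cast h1
  exact h2 ((Nat.prime_dvd_prime_iff_eq (Fact.out : q.Prime) Nat.prime_two).1 h3)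

/-- Hensel's lemma for square roots. -/
theorem QB_hensel {q : ℕ} [Fact q.Prime] (h2 : q ≠ 2) (a z : ℤ_[q]) (hz : ‖z‖ = 1)
    (ha : ‖z ^ 2 - a‖ < 1) : ∃ w : ℤ_[q], w ^ 2 = a := by
  have hn : ‖(Polynomial.X ^ 2 - Polynomial.C a : Polynomial ℤ_[q]).aeval z‖ <
      ‖(Polynomial.X ^ 2 - Polynomial.C a : Polynomial ℤ_[q]).derivative.aeval z‖ ^ 2 := by
    have h1 : (Polynomial.X ^ 2 - Polynomial.C a : Polynomial ℤ_[q]).aeval z = z ^ 2 - a := by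
      simp
    have h3 : (Polynomial.X ^ 2 - Polynomial.C a : Polynomial ℤ_[q]).derivative.aeval z =
        2 * z := by
      simp
      left
      norm_num
    rw [h1, h3, norm_mul, QB_norm_two h2, hz, one_mul, one_pow]
    exact ha
  obtain ⟨w, hw, -⟩ := hensels_lemma hn
  refine ⟨w, ?_⟩
  have h4 : (Polynomial.X ^ 2 - Polynomial.C a : Polynomial ℤ_[q]).aeval w = w ^ 2 - a := by
    simp
  rw [h4] at hw
  exact sub_eq_zero.1 hw

theorem QB_norm_int {q : ℕ} [Fact q.Prime] {b : ℤ} (hb : ¬ (q : ℤ) ∣ b) :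
    ‖(b : ℤ_[q])‖ = 1 :=
  le_antisymm (PadicInt.norm_le_one _)
    (not_lt.1 fun h => hb ((PadicInt.norm_int_lt_one_iff_dvd b).1 h))

theorem QB_unit {q : ℕ} [Fact q.Prime] (h2 : q ≠ 2) {b c : ℤ} (hb : ¬ (q : ℤ) ∣ b)
    (hc : ¬ (q : ℤ) ∣ c) : ∃ x y : ℚ_[q], (c : ℚ_[q]) = x ^ 2 - (b : ℚ_[q]) * y ^ 2 := by
  have hb' : (b : ZMod q) ≠ 0 := fun h => hb ((ZMod.intCast_zmod_eq_zero_iff_dvd b q).1 h)
  have hodd : Fintype.card (ZMod q) % 2 = 1 := by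
    rw [ZMod.card]
    exact (Fact.out : q.Prime).eq_two_or_odd.resolve_left h2
  obtain ⟨x0, y0, h0⟩ := FiniteField.exists_root_sum_quadratic
    (f := (Polynomial.X ^ 2 - Polynomial.C (c : ZMod q) : Polynomial (ZMod q)))
    (g := (Polynomial.C (-(b : ZMod q)) * Polynomial.X ^ 2 : Polynomial (ZMod q)))
    (Polynomial.degree_X_pow_sub_C (by norm_num) _)
    (Polynomial.degree_C_mul_X_pow 2 (neg_ne_zero.2 hb')) hodd
  simp only [Polynomial.eval_sub, Polynomial.eval_pow, Polynomial.eval_X, Polynomial.eval_C,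
    Polynomial.eval_mul] at h0
  obtain ⟨X, rfl⟩ := ZMod.intCast_surjective x0
  obtain ⟨Y, rfl⟩ := ZMod.intCast_surjective y0
  have hdvd : (q : ℤ) ∣ X ^ 2 - c - b * Y ^ 2 := by
    rw [← ZMod.intCast_zmod_eq_zero_iff_dvd]
    push_cast
    rw [← h0]
    ring
  by_cases hX : (q : ℤ) ∣ X
  · have hY : ¬ (q : ℤ) ∣ Y := by
      intro hY
      apply hc
      have h1 : c = X * X - b * Y * Y - (X ^ 2 - c - b * Y ^ 2) := by ring
      rw [h1]
      exact dvd_sub (dvd_sub (Dvd.dvd.mul_left hX X) (Dvd.dvd.mul_left hY _)) hdvd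
    have hbY : ¬ (q : ℤ) ∣ b * Y := fun h =>
      ((Nat.prime_iff_prime_int.1 (Fact.out : q.Prime)).dvd_or_dvd h).elim hb hY
    obtain ⟨w, hw⟩ := QB_hensel h2 ((b * (X ^ 2 - c) : ℤ) : ℤ_[q]) ((b * Y : ℤ) : ℤ_[q])
      (QB_norm_int hbY) (by
        have h1 : ((b * Y : ℤ) : ℤ_[q]) ^ 2 - ((b * (X ^ 2 - c) : ℤ) : ℤ_[q]) =
            ((-b * (X ^ 2 - c - b * Y ^ 2) : ℤ) : ℤ_[q]) := by
          push_cast
          ring
        rw [h1, PadicInt.norm_int_lt_one_iff_dvd]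
        exact Dvd.dvd.mul_left hdvd _)
    have hb0 : (b : ℚ_[q]) ≠ 0 := by
      intro h
      apply hb
      have h3 : b = 0 := by exact_mod_cast h
      rw [h3]
      exact dvd_zero _
    refine ⟨(X : ℚ_[q]), (w : ℚ_[q]) / b, ?_⟩
    have h5 : (w : ℚ_[q]) ^ 2 = b * ((X : ℚ_[q]) ^ 2 - c) := by
      have := congrArg (fun t : ℤ_[q] => (t : ℚ_[q])) hw
      push_cast at this
      exact this
    rw [div_pow, h5]
    field_simp
    ring
  · obtain ⟨w, hw⟩ := QB_hensel h2 ((c + b * Y ^ 2 : ℤ) : ℤ_[q]) (X : ℤ_[q])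
      (QB_norm_int hX) (by
        have h1 : (X : ℤ_[q]) ^ 2 - ((c + b * Y ^ 2 : ℤ) : ℤ_[q]) =
            ((X ^ 2 - c - b * Y ^ 2 : ℤ) : ℤ_[q]) := by
          push_cast
          ring
        rw [h1, PadicInt.norm_int_lt_one_iff_dvd]
        exact hdvd)
    refine ⟨(w : ℚ_[q]), (Y : ℚ_[q]), ?_⟩
    have h5 : (w : ℚ_[q]) ^ 2 = c + b * (Y : ℚ_[q]) ^ 2 := by
      have := congrArg (fun t : ℤ_[q] => (t : ℚ_[q])) hw
      push_cast at this
      exact this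
    rw [h5]
    ring

/-- Units, `p` odd. -/
theorem hp_unit {p : Nat.Primes} (hp2 : p.1 ≠ 2) {b c : ℤ} (hb : ¬ (p.1 : ℤ) ∣ b)
    (hc : ¬ (p.1 : ℤ) ∣ c) : hp p b c := by
  haveI : Fact p.1.Prime := ⟨p.2⟩
  obtain ⟨x, y, h⟩ := QB_unit hp2 hb hc
  refine ⟨x, y, ?_⟩
  push_cast
  exact h

theorem QB_norm_sq_ne {q : ℕ} [Fact q.Prime] (z : ℚ_[q]) : ‖z‖ ^ 2 ≠ (q : ℝ)⁻¹ := by
  intro h
  have hq1 : (1 : ℝ) < q := by exact_mod_cast (Fact.out : q.Prime).one_lt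
  have hq0 : (0 : ℝ) < q := by linarith
  by_cases hz : z = 0
  · rw [hz, norm_zero] at h
    have h1 : (0 : ℝ) < (q : ℝ)⁻¹ := inv_pos.2 hq0
    rw [← h] at h1
    norm_num at h1
  · rw [Padic.norm_eq_zpow_neg_valuation hz, ← zpow_natCast, ← zpow_mul, ← zpow_neg_one] at h
    have h2 := zpow_right_injective₀ hq0 hq1.ne' h
    push_cast at h2
    omega

/-- if `u` is a unit which is not a square modulo `q` then `x² - u y²` has even valuation -/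
theorem QB_norm_form {q : ℕ} [Fact q.Prime] {u : ℤ} (hu : ¬ (q : ℤ) ∣ u)
    (hns : ¬ IsSquare (u : ZMod q)) (x y : ℚ_[q]) :
    ‖x ^ 2 - (u : ℚ_[q]) * y ^ 2‖ = ‖x‖ ^ 2 ∨ ‖x ^ 2 - (u : ℚ_[q]) * y ^ 2‖ = ‖y‖ ^ 2 := by
  have hun : ‖(u : ℚ_[q])‖ = 1 := by
    have h := QB_norm_int (q := q) hu
    rw [PadicInt.norm_def] at h
    exact_mod_cast h
  have hnx : ‖x ^ 2‖ = ‖x‖ ^ 2 := norm_pow x 2
  have hny : ‖(u : ℚ_[q]) * y ^ 2‖ = ‖y‖ ^ 2 := by rw [norm_mul, hun, one_mul, norm_pow]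
  by_cases hxy : ‖x‖ = ‖y‖
  · by_cases hy : y = 0
    · rw [hy, norm_zero, norm_eq_zero] at hxy
      left
      rw [hxy, hy]
      simp
    · right
      have hy0 : ‖y‖ ≠ 0 := norm_ne_zero_iff.2 hy
      have ht : ‖x / y‖ = 1 := by rw [norm_div, hxy, div_self hy0]
      set T : ℤ_[q] := ⟨x / y, ht.le⟩ with hT
      have h1 : ‖T ^ 2 - (u : ℤ_[q])‖ = 1 := by
        refine le_antisymm (PadicInt.norm_le_one _) (not_lt.1 fun h => hns ?_)
        rw [← PadicInt.mem_nonunits, ← IsLocalRing.mem_maximalIdeal, ← PadicInt.ker_toZMod,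
          RingHom.mem_ker, map_sub, map_pow, map_intCast, sub_eq_zero] at h
        exact ⟨PadicInt.toZMod T, by rw [← h, sq]⟩
      have h2 : x ^ 2 - (u : ℚ_[q]) * y ^ 2 = ((T ^ 2 - (u : ℤ_[q]) : ℤ_[q]) : ℚ_[q]) * y ^ 2 := by
        push_cast
        have h3 : (T : ℚ_[q]) = x / y := rfl
        rw [h3]
        field_simp
      rw [h2, norm_mul, ← PadicInt.norm_def, h1, one_mul, norm_pow]
  · have hne : ‖x ^ 2‖ ≠ ‖(u : ℚ_[q]) * y ^ 2‖ := by
      rw [hnx, hny]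
      intro h
      exact hxy ((pow_left_inj₀ (norm_nonneg x) (norm_nonneg y) two_ne_zero).1 h)
    have h1 : ‖x ^ 2 - (u : ℚ_[q]) * y ^ 2‖ = max ‖x ^ 2‖ ‖(u : ℚ_[q]) * y ^ 2‖ := by
      have h2 := Padic.add_eq_max_of_ne (q := x ^ 2) (r := -((u : ℚ_[q]) * y ^ 2))
        (by rw [norm_neg]; exact hne)
      rw [norm_neg] at h2
      rw [sub_eq_add_neg]
      exact h2
    rcases max_choice ‖x ^ 2‖ ‖(u : ℚ_[q]) * y ^ 2‖ with h | h
    · left
      rw [h1, h, hnx]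
    · right
      rw [h1, h, hny]

/-- A unit and the prime, `p` odd. Proof: if `u` is a square modulo `p` it is a square in `ℚ_p` (Hensel)
and everything is a norm; otherwise `x² - u y²` has even valuation. -/
theorem hp_prime {p : Nat.Primes} (hp2 : p.1 ≠ 2) [Fact p.1.Prime] {u : ℤ} (hu : ¬ (p.1 : ℤ) ∣ u) :
    hp p u (p.1 : ℚ) ↔ legendreSym p.1 u = 1 := by
  have hu' : (u : ZMod p.1) ≠ 0 := fun h => hu ((ZMod.intCast_zmod_eq_zero_iff_dvd u p.1).1 h)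
  rw [legendreSym.eq_one_iff p.1 hu']
  constructor
  · rintro ⟨x, y, h⟩
    by_contra hns
    push_cast at h
    have hp1 : ‖((p.1 : ℕ) : ℚ_[p.1])‖ = ((p.1 : ℕ) : ℝ)⁻¹ := Padic.norm_p
    rcases QB_norm_form hu hns x y with h1 | h1
    · rw [← h, hp1] at h1
      exact QB_norm_sq_ne x h1.symm
    · rw [← h, hp1] at h1
      exact QB_norm_sq_ne y h1.symm
  · rintro ⟨s, hs⟩
    obtain ⟨S, rfl⟩ := ZMod.intCast_surjective s
    have hSd : (p.1 : ℤ) ∣ S ^ 2 - u := by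
      rw [← ZMod.intCast_zmod_eq_zero_iff_dvd]
      push_cast
      rw [hs]
      ring
    have hSn : ¬ (p.1 : ℤ) ∣ S := by
      intro h
      apply hu
      have h1 : u = S * S - (S ^ 2 - u) := by ring
      rw [h1]
      exact dvd_sub (Dvd.dvd.mul_left h S) hSd
    obtain ⟨w, hw⟩ := QB_hensel hp2 (u : ℤ_[p.1]) (S : ℤ_[p.1]) (QB_norm_int hSn) (by
      have h1 : (S : ℤ_[p.1]) ^ 2 - (u : ℤ_[p.1]) = ((S ^ 2 - u : ℤ) : ℤ_[p.1]) := by
        push_cast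
        ring
      rw [h1, PadicInt.norm_int_lt_one_iff_dvd]
      exact hSd)
    have hw' : (w : ℚ_[p.1]) ^ 2 = u := by
      have := congrArg (fun t : ℤ_[p.1] => (t : ℚ_[p.1])) hw
      push_cast at this
      exact this
    have hu0 : (u : ℚ_[p.1]) ≠ 0 := by
      intro h
      apply hu
      have h3 : u = 0 := by exact_mod_cast h
      rw [h3]
      exact dvd_zero _
    have hw0 : (w : ℚ_[p.1]) ≠ 0 := by
      intro h
      rw [h] at hw'
      apply hu0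
      rw [← hw']
      norm_num
    refine ⟨(1 + (p.1 : ℚ_[p.1])) / 2, ((p.1 : ℚ_[p.1]) - 1) / (2 * w), ?_⟩
    push_cast
    rw [div_pow, div_pow, mul_pow, hw']
    field_simp
    ring

end Dr
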