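import Mathlib

/-! Norms in real algebras. -/

open Polynomial

namespace Dr

/-- The statement for an irreducible polynomial. -/
private theorem norm_irr {p δ P : ℝ[X]} (hp : Irreducible p)
    (h : ∀ x : ℝ, p.eval x = 0 → 0 < δ.eval x ∨ 0 < P.eval x) :
    ∃ x y : ℝ[X], p ∣ x ^ 2 - δ * y ^ 2 - P := by
  have hd : p.degree ≠ 0 := fun h0 => hp.not_isUnit (isUnit_iff_degree_eq_zero.2 h0)
  obtain ⟨z, hz⟩ := IsAlgClosed.exists_aeval_eq_zero ℂ p hd
  have hdvd : ∀ q : ℝ[X], aeval z q = 0 → p ∣ q := by
    intro q hq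
    have h1 := minpoly.eq_of_irreducible hp hz
    have h2 := minpoly.dvd ℝ z hq
    rw [← h1] at h2
    exact (dvd_mul_right _ _).trans h2
  by_cases him : z.im = 0
  · have hzr : z = algebraMap ℝ ℂ z.re := by
      apply Complex.ext
      · simp
      · simpa using him
    have hev : ∀ q : ℝ[X], aeval z q = ((q.eval z.re : ℝ) : ℂ) := by
      intro q
      rw [hzr, aeval_algebraMap_apply_eq_algebraMap_eval]
      simp
    have hp0 : p.eval z.re = 0 := by
      rw [hev] at hz
      exact_mod_cast hz
    rcases h z.re hp0 with hδ | hP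
    · set d := Real.sqrt (δ.eval z.re) with hdd
      have hd0 : d ≠ 0 := (Real.sqrt_pos.2 hδ).ne'
      have hd2 : d ^ 2 = δ.eval z.re := Real.sq_sqrt hδ.le
      refine ⟨C ((P.eval z.re + 1) / 2), C ((P.eval z.re - 1) / 2 / d), hdvd _ ?_⟩
      rw [hev]
      simp only [eval_sub, eval_pow, eval_mul, eval_C]
      rw [← hd2]
      norm_cast
      field_simp
      ring
    · refine ⟨C (Real.sqrt (P.eval z.re)), 0, hdvd _ ?_⟩
      rw [hev]
      simp only [eval_sub, eval_pow, eval_mul, eval_C, eval_zero]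
      rw [Real.sq_sqrt hP.le]
      norm_cast
      ring
  · obtain ⟨w, hw⟩ := IsAlgClosed.exists_pow_nat_eq (aeval z P) (n := 2) two_pos
    refine ⟨C (w.re - w.im / z.im * z.re) + C (w.im / z.im) * X, 0, hdvd _ ?_⟩
    have h1 : aeval z (C (w.re - w.im / z.im * z.re) + C (w.im / z.im) * X) = w := by
      rw [map_add, map_mul, aeval_C, aeval_C, aeval_X]
      apply Complex.ext
      · simp
      · simp
        field_simp
    rw [map_sub, map_sub, map_pow, h1, hw]
    simp

/-- Proof: Chinese remainder theorem for the irreducible factors of `D` (different, since `D` is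
separable). A factor `X - x`: if `δ (x) > 0` the form `x² - δ (x) y²` is universal, otherwise `P (x) > 0` is a
square. A factor of degree two: the residue field is algebraically closed (an algebraic extension of `ℝ`
of degree two), so `P` is a square. Or induction on the degree of `D`. -/
theorem exists_norm_real {D δ P : ℝ[X]} (hs : D.Separable)
    (h : ∀ x : ℝ, D.eval x = 0 → 0 < δ.eval x ∨ 0 < P.eval x) :
    ∃ x y : ℝ[X], D ∣ x ^ 2 - δ * y ^ 2 - P := by
  induction D using UniqueFactorizationMonoid.induction_on_coprime with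
  | h0 => exact absurd hs not_separable_zero
  | h1 hu => exact ⟨0, 0, hu.dvd⟩
  | hpr i hp =>
    rename_i p
    rcases Nat.eq_zero_or_pos i with rfl | hi
    · exact ⟨0, 0, by rw [pow_zero]; exact one_dvd _⟩
    · obtain ⟨-, rfl⟩ := hs.of_pow hp.not_isUnit hi.ne'
      rw [pow_one] at h ⊢
      exact norm_irr hp.irreducible h
  | hcp hcop h1 h2 =>
    rename_i p q
    obtain ⟨x1, y1, r1, hr1⟩ := h1 hs.of_mul_left fun x hx => h x (by rw [eval_mul, hx, zero_mul])
    obtain ⟨x2, y2, r2, hr2⟩ := h2 hs.of_mul_right fun x hx => h x (by rw [eval_mul, hx, mul_zero])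
    have hc : IsCoprime p q := hcop.isCoprime
    obtain ⟨a, b, hab⟩ := hc
    refine ⟨a * p * x2 + b * q * x1, a * p * y2 + b * q * y1, ?_⟩
    refine IsCoprime.mul_dvd ⟨a, b, hab⟩ ?_ ?_
    · have e : (a * p * x2 + b * q * x1) ^ 2 - δ * (a * p * y2 + b * q * y1) ^ 2 - P =
          (x1 ^ 2 - δ * y1 ^ 2 - P) +
            p * (a * (x2 - x1) * (2 * x1 + a * p * (x2 - x1)) -
              δ * (a * (y2 - y1) * (2 * y1 + a * p * (y2 - y1)))) := by
        have hb : b * q = 1 - a * p := by linear_combination hab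
        rw [hb]
        ring
      rw [e, hr1]
      exact dvd_add (dvd_mul_right _ _) (dvd_mul_right _ _)
    · have e : (a * p * x2 + b * q * x1) ^ 2 - δ * (a * p * y2 + b * q * y1) ^ 2 - P =
          (x2 ^ 2 - δ * y2 ^ 2 - P) +
            q * (b * (x1 - x2) * (2 * x2 + b * q * (x1 - x2)) -
              δ * (b * (y1 - y2) * (2 * y2 + b * q * (y1 - y2)))) := by
        have hb : a * p = 1 - b * q := by linear_combination hab
        rw [hb]
        ring
      rw [e, hr2]
      exact dvd_add (dvd_mul_right _ _) (dvd_mul_right _ _)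

end Dr
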