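import Pool.Agent.Lib.MP_f80667_ag.Dr.N1

/-! Elements of number fields with given local symbols. -/

open IsDedekindDomain NumberField

namespace Dr

open Hm

variable {K : Type} [Field K] [NumberField K]

open Classical in
/-- The number of the failures is additive modulo two. -/
theorem even_fail {ι : Type*} (s : Finset ι) (p q r : ι → Prop) (h : ∀ i ∈ s, r i ↔ (p i ↔ q i)) :
    Even ((s.filter fun i => ¬ r i).card + (s.filter fun i => ¬ p i).card +
      (s.filter fun i => ¬ q i).card) := by
  rw [Finset.card_filter, Finset.card_filter, Finset.card_filter, ← Finset.sum_add_distrib,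
    ← Finset.sum_add_distrib]
  refine Finset.even_sum _ fun i hi => ?_
  rw [if_congr (not_congr (h i hi)) rfl rfl]
  by_cases hp : p i <;> by_cases hq : q i <;> simp [hp, hq]

open Classical in
/-- The number of the ramified places in `S` and at infinity. -/
noncomputable def pp (b : Kˣ) (S : Finset (HeightOneSpectrum (𝓞 K))) (z : Kˣ) : ℕ :=
  (S.filter fun v => ¬ z ∈ LNm v b).card +
    ((Finset.univ.filter fun φ : K →+* ℝ => φ b < 0).filter fun φ => ¬ 0 < φ z).card

theorem pp_mul (b : Kˣ) (S : Finset (HeightOneSpectrum (𝓞 K))) (z w : Kˣ) :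
    Even (pp b S (z * w) + pp b S z + pp b S w) := by
  classical
  have h1 := even_fail S (fun v => z ∈ LNm v b) (fun v => w ∈ LNm v b) (fun v => z * w ∈ LNm v b)
    (fun v _ => LNm_mul_iff)
  have h2 := even_fail (Finset.univ.filter fun φ : K →+* ℝ => φ b < 0) (fun φ => 0 < φ (z : K))
    (fun φ => 0 < φ (w : K)) (fun φ => 0 < φ ((z * w : Kˣ) : K)) (fun φ _ => by
      have hz : φ (z : K) ≠ 0 := (map_ne_zero φ).2 z.ne_zero
      have hw : φ (w : K) ≠ 0 := (map_ne_zero φ).2 w.ne_zero
      rw [Units.val_mul, map_mul]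
      rcases lt_or_gt_of_ne hz with h3 | h3 <;> rcases lt_or_gt_of_ne hw with h4 | h4
      · have := mul_pos_of_neg_of_neg h3 h4
        simp only [this, not_lt.2 h3.le, not_lt.2 h4.le]
      · have := mul_neg_of_neg_of_pos h3 h4
        simp only [not_lt.2 this.le, not_lt.2 h3.le, h4]
        simp
      · have := mul_neg_of_pos_of_neg h3 h4
        simp only [not_lt.2 this.le, not_lt.2 h4.le, h3]
        simp
      · have := mul_pos h3 h4
        simp only [this, h3, h4])
  unfold pp
  have e : ∀ a b c d e f : ℕ, a + b + (c + d) + (e + f) = (a + c + e) + (b + d + f) := by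
    intros; ring
  rw [e]
  exact h1.add h2

/-- **Elements with given symbols.** Proof: if `b` is a square take `a = 1` (then `λ v ∈ LNm v b` always and
no real embedding has `φ b < 0`). Otherwise enlarge `S` to `S₁` with `Gen S₁`, `b ∈ US K S₁` (`l v = 1` at
the new places). `U` from `exists_U`: `(U ⊔ EE b S₁).index = 2`. Choose `x ∈ Kˣ` near `l v` at `v ∈ S₁` and
with the signs `t` (`Hm.wa`). If `x ∈ U ⊔ EE b S₁` we are done: `x = u e`. If not: every `u ∈ U` has an even
number of ramified places in `S₁` and at the real places (`tot_even`, the places outside `S₁` are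
unramified), so if `b` has a nonsplit place in `S₁` or a real place `φ b < 0`, an element `y` with exactly
one ramified place there (`Hm.exists_fam`) is not in `U ⊔ EE b S₁`; then `x y⁻¹` is in it, so it has an even
number of ramified places in `S₁ ∪ ∞`, and `x` has an odd number, contradiction with `H`. If there is no
nonsplit place, `EE b S₁` is everything, contradiction with the index `2`. -/
theorem exists_sym (b : Kˣ) (S : Finset (HeightOneSpectrum (𝓞 K)))
    (l : HeightOneSpectrum (𝓞 K) → Kˣ) (t : (K →+* ℝ) → ℝ) (ht : ∀ φ, t φ ≠ 0)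
    (H : Even (Nat.card {v : HeightOneSpectrum (𝓞 K) // v ∈ S ∧ l v ∉ LNm v b} +
      Nat.card {φ : K →+* ℝ // φ b < 0 ∧ t φ < 0})) :
    ∃ a : Kˣ, (∀ v ∈ S, (a ∈ LNm v b ↔ l v ∈ LNm v b)) ∧ (∀ v ∉ S, a ∈ LNm v b) ∧
      ∀ φ : K →+* ℝ, φ b < 0 → 0 < φ a * t φ := by
  classical
  by_cases hb : IsSquare b
  · obtain ⟨d, rfl⟩ := hb
    have htop : ∀ (v : HeightOneSpectrum (𝓞 K)) (c : Kˣ), c ∈ LNm v (d * d) := by
      intro v c
      refine Nrm_le_LNm v _ ⟨((c : K) + 1) / 2, ((c : K) - 1) / (2 * d), ?_⟩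
      have hd : (d : K) ≠ 0 := d.ne_zero
      rw [Units.val_mul]
      field_simp
      ring
    refine ⟨1, fun v _ => ⟨fun _ => htop v _, fun _ => htop v _⟩, fun v _ => htop v _, fun φ hφ => ?_⟩
    rw [Units.val_mul, map_mul] at hφ
    exact absurd hφ (not_lt.2 (mul_self_nonneg _))
  obtain ⟨S₁, hS0, hS₁⟩ := exists_gen (K := K) ((finite_val_ne_one b).toFinset ∪ S)
  have hbS : b ∈ US K S₁ := fun v hv => by
    by_contra h1
    exact hv (hS0 (Finset.mem_union_left _ ((finite_val_ne_one b).mem_toFinset.2 h1)))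
  have hSS : S ⊆ S₁ := fun v hv => hS0 (Finset.mem_union_right _ hv)
  obtain ⟨U, -, hU, -, hind⟩ := exists_U hb S₁ hS₁ hbS
  obtain ⟨x, hx1, hx2⟩ := wa S₁ (fun v => if v ∈ S then l v else 1) t ht
  have hx3 : ∀ v ∈ S₁, (x ∈ LNm v b ↔ (if v ∈ S then l v else 1) ∈ LNm v b) := by
    intro v hv
    have h1 := LSq_le_LNm v b (hx1 v hv)
    have h2 := LNm_mul_iff (v := v) (b := b) (c := x / (if v ∈ S then l v else 1))
      (d := if v ∈ S then l v else 1)
    rw [div_mul_cancel] at h2
    rw [h2]
    simp only [h1, true_iff]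
  -- the parity of `x`
  have hx4 : Even (pp b S₁ x) := by
    have h1 : (S₁.filter fun v => ¬ x ∈ LNm v b).card =
        Nat.card {v : HeightOneSpectrum (𝓞 K) // v ∈ S ∧ l v ∉ LNm v b} := by
      symm
      refine Nat.subtype_card _ fun v => ?_
      rw [Finset.mem_filter]
      constructor
      · rintro ⟨hv, hxv⟩
        rw [hx3 v hv] at hxv
        by_cases hvS : v ∈ S
        · rw [if_pos hvS] at hxv
          exact ⟨hvS, hxv⟩
        · rw [if_neg hvS] at hxv
          exact absurd (one_mem _) hxv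
      · rintro ⟨hv, hlv⟩
        refine ⟨hSS hv, ?_⟩
        rw [hx3 v (hSS hv), if_pos hv]
        exact hlv
    have h2 : ((Finset.univ.filter fun φ : K →+* ℝ => φ b < 0).filter fun φ => ¬ 0 < φ x).card =
        Nat.card {φ : K →+* ℝ // φ b < 0 ∧ t φ < 0} := by
      symm
      refine Nat.subtype_card _ fun φ => ?_
      rw [Finset.mem_filter, Finset.mem_filter]
      have h3 := hx2 φ
      refine ⟨fun h => ⟨h.1.2, ?_⟩, fun h => ⟨⟨Finset.mem_univ _, h.1⟩, ?_⟩⟩
      · by_contra h4
        have h5 := not_lt.1 h.2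
        have h6 := not_lt.1 h4
        exact absurd h3 (not_lt.2 (mul_nonpos_of_nonpos_of_nonneg h5 h6))
      · intro h4
        exact absurd h3 (not_lt.2 (mul_nonpos_of_nonneg_of_nonpos h4.le h.2.le))
    unfold pp
    rw [h1, h2]
    exact H
  -- the parity on the subgroup
  have hV : ∀ z ∈ U ⊔ EE b S₁, Even (pp b S₁ z) := by
    intro z hz
    obtain ⟨u, hu, e, he, rfl⟩ := Subgroup.mem_sup.1 hz
    have h1 : Even (pp b S₁ u) := by
      have h2 := tot_even b u
      unfold tot at h2
      unfold pp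
      have h3 : (S₁.filter fun v => ¬ u ∈ LNm v b).card =
          Nat.card {v : HeightOneSpectrum (𝓞 K) // u ∉ LNm v b} := by
        symm
        refine Nat.subtype_card _ fun v => ?_
        rw [Finset.mem_filter]
        refine ⟨fun h => h.2, fun h => ⟨?_, h⟩⟩
        by_contra h4
        exact h (hU u hu v h4)
      have h4 : ((Finset.univ.filter fun φ : K →+* ℝ => φ b < 0).filter fun φ => ¬ 0 < φ u).card =
          Nat.card {φ : K →+* ℝ // φ b < 0 ∧ φ u < 0} := by
        symm
        refine Nat.subtype_card _ fun φ => ?_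
        rw [Finset.mem_filter, Finset.mem_filter]
        have h5 : φ (u : K) ≠ 0 := (map_ne_zero φ).2 u.ne_zero
        exact ⟨fun h => ⟨h.1.2, lt_of_le_of_ne (not_lt.1 h.2) h5⟩,
          fun h => ⟨⟨Finset.mem_univ _, h.1⟩, not_lt.2 h.2.le⟩⟩
      rw [h3, h4]
      exact h2
    have h2 : pp b S₁ e = 0 := by
      obtain ⟨h3, h4⟩ := mem_EE.1 he
      unfold pp
      rw [Nat.add_eq_zero_iff, Finset.card_eq_zero, Finset.card_eq_zero, Finset.filter_eq_empty_iff,
        Finset.filter_eq_empty_iff]
      refine ⟨fun v hv => not_not.2 (h3 v hv), fun φ hφ => not_not.2 (h4 φ (Finset.mem_filter.1 hφ).2)⟩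
    have h3 := pp_mul b S₁ u e
    rw [h2, add_zero] at h3
    exact (Nat.even_add.1 h3).2 h1
  have hxV : x ∈ U ⊔ EE b S₁ := by
    by_contra hxV
    have hodd : ∀ y : Kˣ, Even (pp b S₁ y) := by
      intro y
      by_cases hy : y ∈ U ⊔ EE b S₁
      · exact hV y hy
      · have h1 : x * y ∈ U ⊔ EE b S₁ := by
          rw [Subgroup.mul_mem_iff_of_index_two hind]
          simp only [hxV, hy]
        have h2 := hV _ h1
        have h3 := pp_mul b S₁ x y
        exact (Nat.even_add.1 h3).1 (h2.add hx4)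
    obtain ⟨y, hy1, hy2⟩ := exists_fam b (S₁.filter fun v => b ∉ LSq v)
      (fun v hv => (Finset.mem_filter.1 hv).2)
    have hempty : IsEmpty (Idx b (S₁.filter fun v => b ∉ LSq v)) := by
      refine ⟨fun i => ?_⟩
      have hLN : ∀ v ∈ S₁, (∀ hv : v ∈ S₁.filter fun v => b ∉ LSq v, Sum.inl ⟨v, hv⟩ ≠ i) →
          y i ∈ LNm v b := by
        intro v hv hne
        by_cases hbv : b ∈ LSq v
        · exact LNm_eq_top hbv _
        · have hv' : v ∈ S₁.filter fun v => b ∉ LSq v := Finset.mem_filter.2 ⟨hv, hbv⟩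
          exact hy2 i (Sum.inl ⟨v, hv'⟩) (hne hv')
      have hPo : ∀ (φ : K →+* ℝ) (hφ : φ b < 0), Sum.inr ⟨φ, hφ⟩ ≠ i → 0 < φ (y i : K) :=
        fun φ hφ hne => hy2 i (Sum.inr ⟨φ, hφ⟩) hne
      have hone : pp b S₁ (y i) = 1 := by
        unfold pp
        rcases i with ⟨v0, hv0⟩ | ⟨φ0, hφ0⟩
        · have h1 : (S₁.filter fun v => ¬ y (Sum.inl ⟨v0, hv0⟩) ∈ LNm v b) = {v0} := by
            ext v
            rw [Finset.mem_filter, Finset.mem_singleton]
            constructor
            · rintro ⟨hv, hyv⟩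
              by_contra hne
              exact hyv (hLN v hv fun hv' h => hne (congrArg Subtype.val (Sum.inl.inj h)))
            · rintro rfl
              exact ⟨(Finset.mem_filter.1 hv0).1, hy1 (Sum.inl ⟨v, hv0⟩)⟩
          have h2 : ((Finset.univ.filter fun φ : K →+* ℝ => φ b < 0).filter
              fun φ => ¬ 0 < φ (y (Sum.inl ⟨v0, hv0⟩) : K)) = ∅ := by
            rw [Finset.filter_eq_empty_iff]
            intro φ hφ
            exact not_not.2 (hPo φ (Finset.mem_filter.1 hφ).2 (by simp))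
          rw [h1, h2]
          rfl
        · have h1 : (S₁.filter fun v => ¬ y (Sum.inr ⟨φ0, hφ0⟩) ∈ LNm v b) = ∅ := by
            rw [Finset.filter_eq_empty_iff]
            intro v hv
            exact not_not.2 (hLN v hv fun hv' => by simp)
          have h2 : ((Finset.univ.filter fun φ : K →+* ℝ => φ b < 0).filter
              fun φ => ¬ 0 < φ (y (Sum.inr ⟨φ0, hφ0⟩) : K)) = {φ0} := by
            ext φ
            rw [Finset.mem_filter, Finset.mem_filter, Finset.mem_singleton]
            constructor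
            · rintro ⟨⟨-, hφ⟩, hyφ⟩
              by_contra hne
              exact hyφ (hPo φ hφ fun h => hne (congrArg Subtype.val (Sum.inr.inj h)))
            · rintro rfl
              exact ⟨⟨Finset.mem_univ _, hφ0⟩, hy1 (Sum.inr ⟨φ, hφ0⟩)⟩
          rw [h1, h2]
          rfl
      have := hodd (y i)
      rw [hone] at this
      exact absurd this (by decide)
    have htop : EE b S₁ = ⊤ := by
      rw [eq_top_iff]
      intro z _
      refine mem_EE.2 ⟨fun v hv => ?_, fun φ hφ => ?_⟩
      · by_cases hbv : b ∈ LSq v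
        · exact LNm_eq_top hbv _
        · exact (hempty.false (Sum.inl ⟨v, Finset.mem_filter.2 ⟨hv, hbv⟩⟩)).elim
      · exact (hempty.false (Sum.inr ⟨φ, hφ⟩)).elim
    rw [htop, sup_top_eq, Subgroup.index_top] at hind
    exact absurd hind (by norm_num)
  obtain ⟨u, hu, e, he, hue⟩ := Subgroup.mem_sup.1 hxV
  obtain ⟨he1, he2⟩ := mem_EE.1 he
  have hux : ∀ v ∈ S₁, (u ∈ LNm v b ↔ x ∈ LNm v b) := by
    intro v hv
    rw [← hue, LNm_mul_iff]
    simp only [he1 v hv, iff_true]
  refine ⟨u, fun v hv => ?_, fun v hv => ?_, fun φ hφ => ?_⟩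
  · rw [hux v (hSS hv), hx3 v (hSS hv), if_pos hv]
  · by_cases hv1 : v ∈ S₁
    · rw [hux v hv1, hx3 v hv1, if_neg hv]
      exact one_mem _
    · exact hU u hu v hv1
  · have h1 := hx2 φ
    have h2 := he2 φ hφ
    rw [← hue, Units.val_mul, map_mul] at h1
    have h3 : φ (u : K) * φ (e : K) * t φ = φ (e : K) * (φ (u : K) * t φ) := by ring
    rw [h3] at h1
    exact (mul_pos_iff_of_pos_left h2).1 h1

end Dr
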