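import Pool.Agent.Lib.MP_f80667_ag.Dr.We

/-!
Residue forms. `Rs hg` is the functional on `E[X] / g` (`g` monic of degree `m`) which is the coefficient
of `X ^ (m - 1)` of the representative of degree less than `m`. `NF τ`: the functional `τ` on a
`k`-algebra is nondegenerate. `sq τ u`: the form `x ↦ τ (u x²)`.
-/

open Polynomial

namespace Dr

section res

variable {E : Type*} [CommRing E] {g h : E[X]}

/-- The residue functional. -/
noncomputable def Rs (hg : g.Monic) : AdjoinRoot g →ₗ[E] E :=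
  (lcoeff E (g.natDegree - 1)) ∘ₗ (AdjoinRoot.modByMonicHom hg)

theorem Rs_mk (hg : g.Monic) (p : E[X]) :
    Rs hg (AdjoinRoot.mk g p) = (p %ₘ g).coeff (g.natDegree - 1) := by
  rw [Rs, LinearMap.comp_apply, AdjoinRoot.modByMonicHom_mk, lcoeff_apply]

/-- The remainder of `h * p` by `g * h`. -/
theorem Rs_mod (hg : g.Monic) (hh : h.Monic) (p : E[X]) :
    (h * p) %ₘ (g * h) = h * (p %ₘ g) := by
  nontriviality E
  refine (div_modByMonic_unique (p /ₘ g) (h * (p %ₘ g)) (hg.mul hh) ⟨?_, ?_⟩).2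
  · conv_rhs => rw [← modByMonic_add_div p g]
    ring
  · rw [mul_comm h, hh.degree_mul, hh.degree_mul]
    exact WithBot.add_lt_add_right (degree_ne_bot.2 hh.ne_zero) (degree_modByMonic_lt p hg)

/-- The remainder has degree at most `m - 1`. -/
theorem Rs_natDegree (hg : g.Monic) (p : E[X]) : (p %ₘ g).natDegree ≤ g.natDegree - 1 := by
  nontriviality E
  by_cases h1 : g = 1
  · rw [h1, modByMonic_one, natDegree_zero]
    exact Nat.zero_le _
  · exact Nat.le_sub_one_of_lt (natDegree_modByMonic_lt p hg h1)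

/-- The coefficient of the product. -/
theorem Rs_coeff (hg : g.Monic) (hh : h.Monic) (p : E[X]) :
    (h * (p %ₘ g)).coeff (g.natDegree + h.natDegree - 1) = (p %ₘ g).coeff (g.natDegree - 1) := by
  nontriviality E
  by_cases h1 : g = 1
  · rw [h1, modByMonic_one, mul_zero, coeff_zero, coeff_zero]
  · have h2 : 1 ≤ g.natDegree := by
      rw [Nat.one_le_iff_ne_zero]
      exact fun h3 => h1 (hg.natDegree_eq_zero.1 h3)
    have h3 : g.natDegree + h.natDegree - 1 = h.natDegree + (g.natDegree - 1) := by omega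
    rw [h3, coeff_mul_add_eq_of_natDegree_le le_rfl (Rs_natDegree hg p), hh.coeff_natDegree, one_mul]

/-- Proof: `(h * p) %ₘ (g * h) = h * (p %ₘ g)`, and the coefficient of `X ^ (m + deg h)` of the product
with the monic polynomial `h` is the coefficient of `X ^ m`, `m = deg g - 1`. -/
theorem Rs_mul (hg : g.Monic) (hh : h.Monic) (p : E[X]) :
    Rs (hg.mul hh) (AdjoinRoot.mk (g * h) (h * p)) = Rs hg (AdjoinRoot.mk g p) := by
  rw [Rs_mk, Rs_mk, Rs_mod hg hh, hg.natDegree_mul hh, Rs_coeff hg hh]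

theorem Rs_mul' (hg : g.Monic) (hh : h.Monic) (p : E[X]) :
    Rs (hg.mul hh) (AdjoinRoot.mk (g * h) (g * p)) = Rs hh (AdjoinRoot.mk h p) := by
  have h1 : (g * p) %ₘ (g * h) = g * (p %ₘ h) := by
    rw [mul_comm g h]
    exact Rs_mod hh hg p
  rw [Rs_mk, Rs_mk, h1, hg.natDegree_mul hh, add_comm, Rs_coeff hh hg]

/-- Low degree. -/
theorem Rs_lt (hg : g.Monic) {p : E[X]} (hp : p.natDegree < g.natDegree) :
    Rs hg (AdjoinRoot.mk g p) = p.coeff (g.natDegree - 1) := by
  nontriviality E
  rw [Rs_mk, (modByMonic_eq_self_iff hg).2 (degree_lt_degree hp)]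

/-- Degree one: the value at the zero. -/
theorem Rs_one (e : E) (p : E[X]) : Rs (monic_X_sub_C e) (AdjoinRoot.mk (X - C e) p) = p.eval e := by
  nontriviality E
  rw [Rs_mk, modByMonic_X_sub_C_eq_C_eval, natDegree_X_sub_C, coeff_C_zero]

end res

section form

variable {k : Type*} [Field k] {L : Type*} [CommRing L] [Algebra k L]

/-- The functional is nondegenerate. -/
def NF (τ : L →ₗ[k] k) : Prop := ∀ x, (∀ y, τ (x * y) = 0) → x = 0

/-- The form `x ↦ τ (u x²)`. -/
noncomputable def sq (τ : L →ₗ[k] k) (u : L) : QuadraticForm k L :=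
  LinearMap.compQuadraticMap' (τ ∘ₗ LinearMap.mulLeft k u) (QuadraticMap.sq (R := L))

theorem sq_apply (τ : L →ₗ[k] k) (u x : L) : sq τ u x = τ (u * (x * x)) := rfl

theorem sq_polar (τ : L →ₗ[k] k) (u x y : L) :
    QuadraticMap.polar (sq τ u) x y = 2 * τ (u * (x * y)) := by
  rw [QuadraticMap.polar, sq_apply, sq_apply, sq_apply, ← map_sub, ← map_sub, two_mul, ← map_add]
  congr 1
  ring

theorem sq_ND (h2 : (2 : k) ≠ 0) {τ : L →ₗ[k] k} (hτ : NF τ) {u : L} (hu : IsUnit u) :
    ND (sq τ u) := by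
  intro x hx
  have h1 : u * x = 0 := by
    refine hτ _ fun y => ?_
    have h3 := hx y
    rw [sq_polar] at h3
    rw [mul_assoc]
    exact (mul_eq_zero.1 h3).resolve_left h2
  exact (hu.mul_right_eq_zero).1 h1

variable {E : Type*} [CommRing E] [Algebra k E] {g h : E[X]}

/-- The residue functional followed by a functional of the coefficients. -/
noncomputable def Rk (σ : E →ₗ[k] k) (hg : g.Monic) : AdjoinRoot g →ₗ[k] k :=
  σ ∘ₗ (Rs hg).restrictScalars k

theorem Rk_apply (σ : E →ₗ[k] k) (hg : g.Monic) (x : AdjoinRoot g) : Rk σ hg x = σ (Rs hg x) := rfl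

/-- Proof: if the representative of `x ≠ 0` has degree `d` and leading coefficient `c`, multiply by
`e X ^ (m - 1 - d)`: the value is `σ (c e)`. -/
theorem Rk_NF {σ : E →ₗ[k] k} (hσ : NF σ) (hg : g.Monic) : NF (Rk σ hg) := by
  intro x hx
  obtain ⟨p, rfl⟩ := AdjoinRoot.mk_surjective x
  have h0 : AdjoinRoot.mk g p = AdjoinRoot.mk g (p %ₘ g) := by
    rw [AdjoinRoot.mk_eq_mk]
    refine ⟨p /ₘ g, ?_⟩
    have h1 := modByMonic_add_div p g
    rw [sub_eq_iff_eq_add']
    exact h1.symm
  by_cases hr : p %ₘ g = 0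
  · rw [h0, hr, map_zero]
  · exfalso
    have hE : Nontrivial E := by
      by_contra h1
      rw [not_nontrivial_iff_subsingleton] at h1
      exact hr (Subsingleton.elim _ _)
    have hd : (p %ₘ g).natDegree < g.natDegree := by
      refine natDegree_modByMonic_lt p hg fun h1 => hr ?_
      rw [h1, modByMonic_one]
    apply hr
    rw [← leadingCoeff_eq_zero]
    refine hσ _ fun e => ?_
    have h1 := hx (AdjoinRoot.mk g (C e * X ^ (g.natDegree - 1 - (p %ₘ g).natDegree)))
    rw [h0, ← map_mul, Rk_apply, Rs_lt] at h1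
    · have h3 : ((p %ₘ g) * (C e * X ^ (g.natDegree - 1 - (p %ₘ g).natDegree))).coeff
          (g.natDegree - 1) = (p %ₘ g).leadingCoeff * e := by
        rw [← mul_assoc, coeff_mul_X_pow', if_pos (Nat.sub_le _ _), coeff_mul_C]
        have h4 : g.natDegree - 1 - (g.natDegree - 1 - (p %ₘ g).natDegree) =
            (p %ₘ g).natDegree := by omega
        rw [h4]
        rfl
      rwa [h3] at h1
    · refine lt_of_le_of_lt (natDegree_mul_le.trans (Nat.add_le_add_left
        (natDegree_C_mul_X_pow_le _ _) _)) ?_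
      omega

/-- `E[X] / g` is finite. -/
theorem finite_adjoin [Module.Finite k E] (hg : g.Monic) : Module.Finite k (AdjoinRoot g) := by
  have : Module.Finite E (AdjoinRoot g) := hg.finite_adjoinRoot
  exact Module.Finite.trans E (AdjoinRoot g)

end form

end Dr
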