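import Pool.Agent.Lib.MP_f80667_ag.Dr.SlotC

/-! Isometries of norm forms of quaternion algebras, over a field. -/

namespace Dr

variable {k : Type*} [Field k]

private theorem slotA_n {b a c x y : k} (hc : c ≠ 0) (h : c = x ^ 2 - b * y ^ 2) :
    ∃ e : (Fin 4 → k) ≃ₗ[k] (Fin 4 → k), ∀ v, qn b (c * a) (e v) = qn b a v := by
  refine ⟨{ toFun := fun v => ![v 0, v 1, (x * v 2 - b * y * v 3) / c, (x * v 3 - y * v 2) / c]
            invFun := fun v => ![v 0, v 1, x * v 2 + b * y * v 3, x * v 3 + y * v 2]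
            map_add' := ?_
            map_smul' := ?_
            left_inv := ?_
            right_inv := ?_ }, ?_⟩
  · intro v w
    funext i
    fin_cases i <;> simp <;> ring
  · intro t v
    funext i
    fin_cases i <;> simp <;> ring
  · intro v
    funext i
    fin_cases i
    · simp
    · simp
    · simp
      field_simp
      rw [h]
      ring
    · simp
      field_simp
      rw [h]
      ring
  · intro v
    funext i
    fin_cases i
    · simp
    · simp
    · simp
      field_simp
      rw [h]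
      ring
    · simp
      field_simp
      rw [h]
      ring
  · intro v
    show qn b (c * a) ![v 0, v 1, (x * v 2 - b * y * v 3) / c, (x * v 3 - y * v 2) / c] = _
    simp [qn]
    field_simp
    rw [h]
    ring

/-- Multiplication by a norm from `k(√b)`. Proof: `c = x² - b y²`; `c (z² - b w²) = (x z + b y w)² - b (x w + y z)²`. -/
theorem norm_iso {b a c x y : k} (hc : c ≠ 0) (h : c = x ^ 2 - b * y ^ 2) :
    (∃ e : (Fin 4 → k) ≃ₗ[k] (Fin 4 → k), ∀ v, qn b (c * a) (e v) = qn b a v) ∧
      ∀ (L : Type) [Field L] [Algebra k L], IsoQ L b a ↔ IsoQ L b (c * a) := by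
  refine ⟨slotA_n hc h, fun L _ _ => ?_⟩
  obtain ⟨e, he⟩ := slotA_n (k := L) (b := algebraMap k L b) (a := algebraMap k L a)
    (c := algebraMap k L c) (x := algebraMap k L x) (y := algebraMap k L y)
    (by rwa [Ne, map_eq_zero]) (by rw [h, map_sub, map_mul, map_pow, map_pow])
  constructor
  · rintro ⟨v, hv, h0⟩
    refine ⟨e v, fun h1 => hv (e.map_eq_zero_iff.1 h1), ?_⟩
    rw [map_mul, he, h0]
  · rintro ⟨v, hv, h0⟩
    refine ⟨e.symm v, fun h1 => hv (e.symm.map_eq_zero_iff.1 h1), ?_⟩
    rw [← he, e.apply_symm_apply, ← map_mul, h0]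

/-- Scaling by a represented element. Proof: multiplication by the quaternion `u`. -/
theorem scale_iso {b a c : k} (hc : c ≠ 0) {u : Fin 4 → k} (h : qn b a u = c) :
    ∃ e : (Fin 4 → k) ≃ₗ[k] (Fin 4 → k), ∀ v, qn b a (e v) = c * qn b a v := by
  rw [qn] at h
  refine ⟨{ toFun := fun v => ![u 0 * v 0 + b * u 1 * v 1 + a * u 2 * v 2 - a * b * u 3 * v 3,
              u 0 * v 1 + u 1 * v 0 - a * u 2 * v 3 + a * u 3 * v 2,
              u 0 * v 2 + u 2 * v 0 + b * u 1 * v 3 - b * u 3 * v 1,
              u 0 * v 3 + u 3 * v 0 + u 1 * v 2 - u 2 * v 1]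
            invFun := fun v => ![
              (u 0 * v 0 - b * u 1 * v 1 - a * u 2 * v 2 + a * b * u 3 * v 3) / c,
              (u 0 * v 1 - u 1 * v 0 + a * u 2 * v 3 - a * u 3 * v 2) / c,
              (u 0 * v 2 - u 2 * v 0 - b * u 1 * v 3 + b * u 3 * v 1) / c,
              (u 0 * v 3 - u 3 * v 0 - u 1 * v 2 + u 2 * v 1) / c]
            map_add' := ?_
            map_smul' := ?_
            left_inv := ?_
            right_inv := ?_ }, ?_⟩
  · intro v w
    funext i
    fin_cases i <;> simp <;> ring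
  · intro t v
    funext i
    fin_cases i <;> simp <;> ring
  · intro v
    funext i
    fin_cases i
    all_goals
      simp
      field_simp
      rw [← h]
      ring
  · intro v
    funext i
    fin_cases i
    all_goals
      simp
      field_simp
      rw [← h]
      ring
  · intro v
    show qn b a ![u 0 * v 0 + b * u 1 * v 1 + a * u 2 * v 2 - a * b * u 3 * v 3,
              u 0 * v 1 + u 1 * v 0 - a * u 2 * v 3 + a * u 3 * v 2,
              u 0 * v 2 + u 2 * v 0 + b * u 1 * v 3 - b * u 3 * v 1,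
              u 0 * v 3 + u 3 * v 0 + u 1 * v 2 - u 2 * v 1] = _
    simp [qn]
    rw [← h]
    ring

/-- The two forms of the norm form. Proof: `x ↦ (x₀ + x₁ / 2, x₁ / 2, x₂ + x₃ / 2, x₃ / 2)`. -/
theorem qe_iso (h2 : (2 : k) ≠ 0) (ε a : k) :
    ∃ e : (Fin 4 → k) ≃ₗ[k] (Fin 4 → k), ∀ v, qn (1 + 4 * ε) a (e v) = qe ε a v := by
  refine ⟨{ toFun := fun v => ![v 0 + v 1 / 2, v 1 / 2, v 2 + v 3 / 2, v 3 / 2]
            invFun := fun v => ![v 0 - v 1, 2 * v 1, v 2 - v 3, 2 * v 3]
            map_add' := ?_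
            map_smul' := ?_
            left_inv := ?_
            right_inv := ?_ }, ?_⟩
  · intro v w
    funext i
    fin_cases i <;> simp <;> ring
  · intro t v
    funext i
    fin_cases i <;> simp <;> ring
  · intro v
    funext i
    fin_cases i <;> simp <;> field_simp
  · intro v
    funext i
    fin_cases i <;> simp <;> field_simp <;> ring
  · intro v
    show qn (1 + 4 * ε) a ![v 0 + v 1 / 2, v 1 / 2, v 2 + v 3 / 2, v 3 / 2] = _
    simp [qn, qe, nn]
    field_simp
    ring

/-- The norm form is isotropic iff `a` is a norm. Proof: `qn b a x = N(x₀, x₁) - a N(x₂, x₃)`, the norms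
`N(x, y) = x² - b y²` are multiplicative; if `N` is isotropic (`b` a square) it is universal. -/
theorem isoQ_iff (h2 : (2 : k) ≠ 0) {b a : k} (hb : b ≠ 0) (ha : a ≠ 0) :
    (∃ x : Fin 4 → k, x ≠ 0 ∧ qn b a x = 0) ↔ ∃ x y : k, a = x ^ 2 - b * y ^ 2 := by
  constructor
  · rintro ⟨x, hx, h⟩
    have key : ∀ z w : k, (z ≠ 0 ∨ w ≠ 0) → z ^ 2 - b * w ^ 2 = 0 →
        ∃ x y : k, a = x ^ 2 - b * y ^ 2 := by
      intro z w hzw h0
      have hw : w ≠ 0 := by
        rintro rfl
        rcases hzw with h1 | h1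
        · apply h1
          have h3 : z ^ 2 = 0 := by linear_combination h0
          exact pow_eq_zero_iff (two_ne_zero) |>.1 h3
        · exact h1 rfl
      have hz : z ≠ 0 := by
        rintro rfl
        have h3 : b * w ^ 2 = 0 := by linear_combination -h0
        exact mul_ne_zero hb (pow_ne_zero 2 hw) h3
      have hbz : b = z ^ 2 / w ^ 2 := by
        rw [eq_div_iff (pow_ne_zero 2 hw)]
        linear_combination -h0
      refine ⟨(a + 1) / 2, (a - 1) * w / (2 * z), ?_⟩
      rw [hbz]
      field_simp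
      ring
    by_cases h3 : x 2 ^ 2 - b * x 3 ^ 2 = 0
    · by_cases h4 : x 2 ≠ 0 ∨ x 3 ≠ 0
      · exact key _ _ h4 h3
      · push Not at h4
        refine key (x 0) (x 1) ?_ ?_
        · by_contra h5
          push Not at h5
          apply hx
          funext i
          fin_cases i
          · exact h5.1
          · exact h5.2
          · exact h4.1
          · exact h4.2
        · rw [qn, h4.1, h4.2] at h
          linear_combination h
    · have h5 : x 0 ^ 2 - b * x 1 ^ 2 = a * (x 2 ^ 2 - b * x 3 ^ 2) := by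
        rw [qn] at h
        linear_combination h
      refine ⟨(x 0 * x 2 - b * (x 1 * x 3)) / (x 2 ^ 2 - b * x 3 ^ 2),
        (x 1 * x 2 - x 0 * x 3) / (x 2 ^ 2 - b * x 3 ^ 2), ?_⟩
      have h6 : a = (x 0 ^ 2 - b * x 1 ^ 2) * (x 2 ^ 2 - b * x 3 ^ 2) /
          (x 2 ^ 2 - b * x 3 ^ 2) ^ 2 := by
        rw [eq_div_iff (pow_ne_zero 2 h3), h5]
        ring
      rw [h6, div_pow, div_pow, mul_div_assoc', ← sub_div]
      congr 1
      ring
  · rintro ⟨x, y, h⟩
    refine ⟨![x, y, 1, 0], fun h0 => ?_, ?_⟩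
    · have h1 := congrFun h0 2
      simp at h1
    · simp [qn]
      linear_combination -h

/-- Isotropy in terms of the pure quaternions. -/
theorem isoQ_pure (h2 : (2 : k) ≠ 0) {b a : k} (hb : b ≠ 0) (ha : a ≠ 0) :
    (∃ x : Fin 4 → k, x ≠ 0 ∧ qn b a x = 0) ↔
      ∃ x y z : k, (x ≠ 0 ∨ y ≠ 0 ∨ z ≠ 0) ∧ b * x ^ 2 + a * y ^ 2 - a * b * z ^ 2 = 0 := by
  constructor
  · intro h
    obtain ⟨p, q, hpq⟩ := (isoQ_iff h2 hb ha).1 h
    refine ⟨a, b * q, p, Or.inl ha, ?_⟩
    linear_combination a * b * hpq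
  · rintro ⟨x, y, z, hxyz, h⟩
    refine ⟨![0, x, y, z], fun h0 => ?_, ?_⟩
    · have h1 := congrFun h0 1
      have h3 := congrFun h0 2
      have h4 := congrFun h0 3
      simp at h1 h3 h4
      rcases hxyz with h5 | h5 | h5
      · exact h5 h1
      · exact h5 h3
      · exact h5 h4
    · simp [qn]
      linear_combination -h

end Dr
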