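import Pool.Agent.Lib.MP_f80667_ag.Dr.SlotD

/-! The common slot, algebra. -/

namespace Dr

variable {k : Type*} [Field k]

/-- the map `w ↦ w₀ + w₁ i' + w₂ j' + w₃ i' j'` -/
private def slotC_E (b a x y z p q r : k) : (Fin 4 → k) →ₗ[k] (Fin 4 → k) where
  toFun w := ![w 0, x * w 1 + p * w 2 + a * (z * q - y * r) * w 3,
    y * w 1 + q * w 2 + b * (x * r - z * p) * w 3, z * w 1 + r * w 2 + (x * q - y * p) * w 3]
  map_add' := by
    intro v w
    funext i
    fin_cases i <;> simp <;> ring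
  map_smul' := by
    intro t v
    funext i
    fin_cases i <;> simp <;> ring

private theorem slotC_qn {b a b' a' x y z p q r : k}
    (h1 : b' = b * x ^ 2 + a * y ^ 2 - a * b * z ^ 2)
    (h2 : a' = b * p ^ 2 + a * q ^ 2 - a * b * r ^ 2)
    (h3 : b * x * p + a * y * q - a * b * z * r = 0) (w : Fin 4 → k) :
    qn b a (slotC_E b a x y z p q r w) = qn b' a' w := by
  show qn b a ![w 0, x * w 1 + p * w 2 + a * (z * q - y * r) * w 3,
    y * w 1 + q * w 2 + b * (x * r - z * p) * w 3, z * w 1 + r * w 2 + (x * q - y * p) * w 3] = _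
  subst h1 h2
  simp only [qn, Matrix.cons_val_zero, Matrix.cons_val_one, Matrix.cons_val]
  linear_combination (-2 * w 1 * w 2 - (b * x * p + a * y * q - a * b * z * r) * w 3 ^ 2) * h3

private theorem slotC_inj {b a b' a' x y z p q r : k} (hb' : b' ≠ 0) (ha' : a' ≠ 0)
    (h1 : b' = b * x ^ 2 + a * y ^ 2 - a * b * z ^ 2)
    (h2 : a' = b * p ^ 2 + a * q ^ 2 - a * b * r ^ 2)
    (h3 : b * x * p + a * y * q - a * b * z * r = 0) :
    Function.Injective (slotC_E b a x y z p q r) := by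
  rw [← LinearMap.ker_eq_bot, LinearMap.ker_eq_bot']
  intro w hw
  have e0 : w 0 = 0 := congrFun hw 0
  have e1 : x * w 1 + p * w 2 + a * (z * q - y * r) * w 3 = 0 := congrFun hw 1
  have e2 : y * w 1 + q * w 2 + b * (x * r - z * p) * w 3 = 0 := congrFun hw 2
  have e3 : z * w 1 + r * w 2 + (x * q - y * p) * w 3 = 0 := congrFun hw 3
  have f1 : b' * w 1 = 0 := by
    rw [h1]
    linear_combination b * x * e1 + a * y * e2 - a * b * z * e3 - w 2 * h3
  have f2 : a' * w 2 = 0 := by
    rw [h2]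
    linear_combination b * p * e1 + a * q * e2 - a * b * r * e3 - w 1 * h3
  have f3 : a' * b' * w 3 = 0 := by
    rw [h1, h2]
    linear_combination -b * a * (z * q - y * r) * e1 - a * b * (x * r - z * p) * e2 +
      a * b * (x * q - y * p) * e3 + w 3 * (b * x * p + a * y * q - a * b * z * r) * h3
  have g1 := (mul_eq_zero.1 f1).resolve_left hb'
  have g2 := (mul_eq_zero.1 f2).resolve_left ha'
  have g3 := (mul_eq_zero.1 f3).resolve_left (mul_ne_zero ha' hb')
  funext i
  fin_cases i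
  · exact e0
  · exact g1
  · exact g2
  · exact g3

private theorem slotC_iso {b a b' a' x y z p q r : k} (hb' : b' ≠ 0) (ha' : a' ≠ 0)
    (h1 : b' = b * x ^ 2 + a * y ^ 2 - a * b * z ^ 2)
    (h2 : a' = b * p ^ 2 + a * q ^ 2 - a * b * r ^ 2)
    (h3 : b * x * p + a * y * q - a * b * z * r = 0) :
    ∃ e : (Fin 4 → k) ≃ₗ[k] (Fin 4 → k), ∀ v, qn b' a' (e v) = qn b a v := by
  let e := LinearEquiv.ofInjectiveEndo (slotC_E b a x y z p q r)
    (slotC_inj hb' ha' h1 h2 h3)
  refine ⟨e.symm, fun v => ?_⟩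
  obtain ⟨w, rfl⟩ := e.surjective v
  rw [e.symm_apply_apply]
  exact (slotC_qn h1 h2 h3 w).symm

/-- **Common slot.** Proof: in the quaternion algebra `(b, a)` with basis `1, i, j, ij` let
`i' = x i + y j + z ij`, so `i'² = b'`; the orthogonal of `i'` in the pure quaternions is a nondegenerate
plane, `j'` in it with `a' = j'² ≠ 0`; then `i' j' = - j' i'`; the map
`y ↦ y₀ + y₁ i' + y₂ j' + y₃ i'j'` is an isometry of `qn b' a'` and `qn b a` (the norm is multiplicative;
all identities by `ring` from the formulas for `i' j'`), over `k` and over every extension. It is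
injective since `qn b' a'` is nondegenerate. -/
theorem slot_alg (h2 : (2 : k) ≠ 0) {b a b' : k} (hb : b ≠ 0) (ha : a ≠ 0) (hb' : b' ≠ 0)
    {x y z : k} (h : b' = b * x ^ 2 + a * y ^ 2 - a * b * z ^ 2) :
    ∃ a' : k, a' ≠ 0 ∧
      (∃ e : (Fin 4 → k) ≃ₗ[k] (Fin 4 → k), ∀ v, qn b' a' (e v) = qn b a v) ∧
      ∀ (L : Type) [Field L] [Algebra k L], IsoQ L b a ↔ IsoQ L b' a' := by
  obtain ⟨p, q, r, h3, h4⟩ : ∃ p q r : k, b * x * p + a * y * q - a * b * z * r = 0 ∧
      b * p ^ 2 + a * q ^ 2 - a * b * r ^ 2 ≠ 0 := by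
    by_contra hcon
    push Not at hcon
    have j1 := hcon (a * y) (-(b * x)) 0 (by ring)
    have j2 := hcon (a * z) 0 x (by ring)
    have j3 := hcon 0 (b * z) y (by ring)
    have h5 : 2 * (a * b) * b' = 0 := by
      rw [h]
      linear_combination j1 - b * j2 - a * j3
    exact mul_ne_zero (mul_ne_zero h2 (mul_ne_zero ha hb)) hb' h5
  refine ⟨_, h4, slotC_iso hb' h4 h rfl h3, fun L _ _ => ?_⟩
  obtain ⟨e, he⟩ := slotC_iso (k := L) (b := algebraMap k L b) (a := algebraMap k L a)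
    (b' := algebraMap k L b') (a' := algebraMap k L (b * p ^ 2 + a * q ^ 2 - a * b * r ^ 2))
    (x := algebraMap k L x) (y := algebraMap k L y) (z := algebraMap k L z)
    (p := algebraMap k L p) (q := algebraMap k L q) (r := algebraMap k L r)
    (by rwa [Ne, map_eq_zero]) (by rwa [Ne, map_eq_zero]) (by rw [h]; simp only [map_sub, map_add,
      map_mul, map_pow]) (by simp only [map_sub, map_add, map_mul, map_pow]) (by
      have h5 := congrArg (algebraMap k L) h3
      simpa only [map_sub, map_add, map_mul, map_zero] using h5)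
  constructor
  · rintro ⟨v, hv, h0⟩
    refine ⟨e v, fun h1 => hv (e.map_eq_zero_iff.1 h1), ?_⟩
    rw [he, h0]
  · rintro ⟨v, hv, h0⟩
    refine ⟨e.symm v, fun h1 => hv (e.symm.map_eq_zero_iff.1 h1), ?_⟩
    rw [← he, e.apply_symm_apply, h0]

end Dr
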