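import Pool.Agent.Lib.MP_f80667_ag.Dr.Df

/-! Isotropy of norm forms. -/

namespace Dr

variable {k : Type*} [Field k]

/-- The norm form is isotropic over the extension `L`. -/
def IsoQ (L : Type*) [Field L] [Algebra k L] (b a : k) : Prop :=
  ∃ x : Fin 4 → L, x ≠ 0 ∧ qn (algebraMap k L b) (algebraMap k L a) x = 0

end Dr
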