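import Pool.Agent.Lib.MP_f80667_ag.Dr.SlotA
import Pool.Agent.Lib.MP_f80667_ag.Dr.Loc2

/-! Ramification in terms of isotropy. -/

open IsDedekindDomain NumberField

namespace Dr

open Hm

variable {K : Type} [Field K] [NumberField K]

/-- Ramification in terms of isotropy. Proof: `mem_LNm_iff`, `isoQ_iff`. -/
theorem iso_fin (v : HeightOneSpectrum (𝓞 K)) (b a : Kˣ) :
    a ∈ LNm v b ↔ IsoQ (v.adicCompletion K) (b : K) (a : K) := by
  rw [mem_LNm_iff]
  unfold IsoQ
  rw [isoQ_iff]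
  · norm_num
  · simp
  · simp

/-- The real norm forms. -/
theorem real_qn {β α : ℝ} (hβ : β ≠ 0) (hα : α ≠ 0) :
    (β < 0 ∧ α < 0) ↔ ¬ ∃ x : Fin 4 → ℝ, x ≠ 0 ∧ qn β α x = 0 := by
  constructor
  · rintro ⟨h1, h2⟩ ⟨x, hx, h⟩
    unfold qn at h
    have h3 : 0 < α * β := mul_pos_of_neg_of_neg h2 h1
    have e0 := sq_nonneg (x 0)
    have e1 : 0 ≤ (-β) * x 1 ^ 2 := mul_nonneg (by linarith) (sq_nonneg _)
    have e2 : 0 ≤ (-α) * x 2 ^ 2 := mul_nonneg (by linarith) (sq_nonneg _)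
    have e3 : 0 ≤ α * β * x 3 ^ 2 := mul_nonneg h3.le (sq_nonneg _)
    have z0 : x 0 = 0 := by
      have : x 0 ^ 2 = 0 := by linarith
      exact pow_eq_zero_iff (two_ne_zero) |>.1 this
    have z1 : x 1 = 0 := by
      have : (-β) * x 1 ^ 2 = 0 := by linarith
      rcases mul_eq_zero.1 this with h4 | h4
      · exact absurd (neg_eq_zero.1 h4) hβ
      · exact pow_eq_zero_iff (two_ne_zero) |>.1 h4
    have z2 : x 2 = 0 := by
      have : (-α) * x 2 ^ 2 = 0 := by linarith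
      rcases mul_eq_zero.1 this with h4 | h4
      · exact absurd (neg_eq_zero.1 h4) hα
      · exact pow_eq_zero_iff (two_ne_zero) |>.1 h4
    have z3 : x 3 = 0 := by
      have : α * β * x 3 ^ 2 = 0 := by linarith
      rcases mul_eq_zero.1 this with h4 | h4
      · exact absurd h4 h3.ne'
      · exact pow_eq_zero_iff (two_ne_zero) |>.1 h4
    apply hx
    funext i
    fin_cases i
    · exact z0
    · exact z1
    · exact z2
    · exact z3
  · intro h
    by_contra hc
    apply h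
    rw [not_and_or, not_lt, not_lt] at hc
    rcases hc with h1 | h1
    · refine ⟨![Real.sqrt β, 1, 0, 0], fun h2 => one_ne_zero (congrFun h2 1), ?_⟩
      have := Real.sq_sqrt h1
      simp [qn, this]
    · refine ⟨![Real.sqrt α, 0, 1, 0], fun h2 => one_ne_zero (congrFun h2 2), ?_⟩
      have := Real.sq_sqrt h1
      simp [qn, this]

theorem iso_real (φ : K →+* ℝ) (b a : Kˣ) :
    (φ b < 0 ∧ φ a < 0) ↔ ¬ (letI : Algebra K ℝ := φ.toAlgebra; IsoQ ℝ (b : K) (a : K)) :=
  real_qn ((map_ne_zero φ).2 b.ne_zero) ((map_ne_zero φ).2 a.ne_zero)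

end Dr
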