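import Pool.Agent.Lib.MP_f80667_ag.Dr.SlotE
import Pool.Agent.Lib.MP_f80667_ag.Dr.Cnt

/-! Uniqueness of the nonsplit quaternion algebra at a place. -/

open IsDedekindDomain NumberField

namespace Dr

open Hm

variable {K : Type} [Field K] [NumberField K]

/-- an element which is represented by `⟨b, a⟩` and by `⟨b', a b⟩` -/
theorem slotF_exists {v : HeightOneSpectrum (𝓞 K)} {b a b' : Kˣ} (h : a ∉ LNm v b)
    (h' : b' ∉ LSq v) :
    ∃ t : Kˣ, t * b ∈ LNm v (-(a * b)) ∧ t * b' ∈ LNm v (-(a * b) * b') := by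
  have hself : ∀ c : Kˣ, c ∈ LNm v (-c) := fun c => by
    have := neg_mem_LNm (v := v) (b := -c)
    rwa [neg_neg] at this
  have hb : b ∉ LNm v (-(a * b)) := by
    have e : -(a * b) = a * -b := (mul_neg a b).symm
    rw [e, LNm_mul_left]
    exact fun h3 => h (LNm_comm.1 (h3.2 (hself b)))
  have hb' : b' ∈ LNm v (-(a * b) * b') ↔ b' ∈ LNm v (a * b) := by
    have e : -(a * b) * b' = (a * b) * -b' := by rw [neg_mul, mul_neg]
    rw [e, LNm_mul_left (b := a * b)]
    exact ⟨fun h3 => h3.2 (hself b'), fun h3 => ⟨fun _ => hself b', fun _ => h3⟩⟩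
  have key : ∀ t : Kˣ, t ∉ LNm v (-(a * b)) → (t ∉ LNm v b' ↔ b' ∈ LNm v (a * b)) →
      t * b ∈ LNm v (-(a * b)) ∧ t * b' ∈ LNm v (-(a * b) * b') := by
    intro t h1 h2
    rw [LNm_mul_iff, LNm_mul_iff, hb', LNm_mul_left (b := -(a * b)), ← h2]
    exact ⟨iff_of_false h1 hb, fun h3 h4 => h1 (h3.2 h4), fun h3 => iff_of_false h1 h3⟩
  by_cases hA : b' ∈ LNm v (a * b)
  · by_cases h1 : b ∈ LNm v b'
    · obtain ⟨c, hc⟩ := exists_notMem_LNm v h'
      by_cases h2 : c ∈ LNm v (-(a * b))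
      · refine ⟨b * c, key _ ?_ ?_⟩
        · rw [LNm_mul_iff]
          exact fun h3 => hb (h3.2 h2)
        · rw [LNm_mul_iff]
          exact iff_of_true (fun h3 => hc (h3.1 h1)) hA
      · exact ⟨c, key _ h2 (iff_of_true hc hA)⟩
    · exact ⟨b, key _ hb (iff_of_true h1 hA)⟩
  · by_cases h1 : b ∈ LNm v b'
    · exact ⟨b, key _ hb (iff_of_false (fun h3 => h3 h1) hA)⟩
    · refine ⟨a, key _ ?_ ?_⟩
      · have e : -(a * b) = -a * b := (neg_mul a b).symm
        rw [e, LNm_mul_left]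
        exact fun h3 => h (h3.1 (hself a))
      · have h2 : a * b ∉ LNm v b' := fun h3 => hA (LNm_comm.1 h3)
        rw [LNm_mul_iff] at h2
        refine iff_of_false (fun h3 => h2 (iff_of_false h3 h1)) hA

/-- the algebra of the common slot over a field -/
theorem slotF_field {F : Type*} [Field F] (h2 : (2 : F) ≠ 0) {A B B' T x y w z : F} (hA : A ≠ 0)
    (hB : B ≠ 0) (hB' : B' ≠ 0) (hT : T ≠ 0) (h1 : T * B = x ^ 2 - -(A * B) * y ^ 2)
    (h3 : T * B' = w ^ 2 - -(A * B) * B' * z ^ 2)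
    (hn : ¬ ∃ x : Fin 4 → F, x ≠ 0 ∧ qn B A x = 0) :
    ∃ x y z : F, B' = B * x ^ 2 + A * y ^ 2 - A * B * z ^ 2 := by
  have e1 : T = B * (x / B) ^ 2 + A * y ^ 2 := by
    field_simp
    linear_combination h1
  have e2 : T = B' * (w / B') ^ 2 + A * B * z ^ 2 := by
    field_simp
    linear_combination h3
  generalize x / B = X at e1
  generalize hW : w / B' = W at e2
  by_cases hw : W = 0
  · exfalso
    apply hn
    refine (isoQ_pure h2 hB hA).2 ⟨X, y, z, ?_, ?_⟩
    · by_contra hcon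
      push Not at hcon
      apply hT
      rw [e1, hcon.1, hcon.2.1]
      ring
    · rw [hw] at e2
      linear_combination e2 - e1
  · refine ⟨X / W, y / W, z / W, ?_⟩
    field_simp
    linear_combination e1 - e2

/-- Uniqueness of the nonsplit quaternion algebra at a place: its pure part represents all `b' ∉ LSq v`.
Proof: there is `c` outside `LNm v b` and `LNm v b'` (`Hm.exists_notMem_LNm`, two proper subgroups); the norm
forms of `(b, a)`, `(b, c)`, `(c, b)`, `(c, b')`, are isometric over the completion (`LNm_mul_iff`,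
`norm_iso`); the pure part of the last one represents `b'`. -/
theorem slot_loc {v : HeightOneSpectrum (𝓞 K)} {b a b' : Kˣ} (h : a ∉ LNm v b) (h' : b' ∉ LSq v) :
    ∃ x y z : v.adicCompletion K, algebraMap K (v.adicCompletion K) b' =
      algebraMap K _ (b : K) * x ^ 2 + algebraMap K _ (a : K) * y ^ 2 -
        algebraMap K _ (a * b : K) * z ^ 2 := by
  obtain ⟨t, ht1, ht2⟩ := slotF_exists h h'
  rw [mem_LNm_iff] at ht1 ht2
  obtain ⟨x, y, h1⟩ := ht1
  obtain ⟨w, z, h2⟩ := ht2
  have hne : ∀ c : Kˣ, algebraMap K (v.adicCompletion K) (c : K) ≠ 0 := fun c => by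
    rw [Ne, map_eq_zero]
    exact c.ne_zero
  rw [Units.val_mul, Units.val_neg, Units.val_mul, map_mul, map_neg, map_mul] at h1
  rw [Units.val_mul, Units.val_mul, Units.val_neg, Units.val_mul, map_mul, map_mul, map_neg,
    map_mul] at h2
  have h3 := slotF_field (F := v.adicCompletion K) two_ne_zero (hne a) (hne b) (hne b') (hne t)
    h1 h2 (fun h3 => h ((iso_fin v b a).2 h3))
  rw [map_mul]
  exact h3

end Dr
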