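import Pool.Agent.Lib.MP_f80667_ag.Dr.Cnt

/-! The number of the ramified places of a quaternion algebra. -/

open IsDedekindDomain NumberField

namespace Dr

open Hm

variable {K : Type} [Field K] [NumberField K]

/-- The number of the ramified places of `(b, a)`. -/
noncomputable def tot (b a : Kˣ) : ℕ :=
  Nat.card {v : HeightOneSpectrum (𝓞 K) // a ∉ LNm v b} +
    Nat.card {φ : K →+* ℝ // φ b < 0 ∧ φ a < 0}

/-- The cardinality of a symmetric difference. -/
theorem tot_symm {α : Type*} {p q r : α → Prop} (h : ∀ x, r x ↔ ¬ (p x ↔ q x))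
    (hp : {x | p x}.Finite) (hq : {x | q x}.Finite) :
    (Nat.card {x // r x} + Nat.card {x // p x} + Nat.card {x // q x}) % 2 = 0 := by
  have hr : {x | r x} = ({x | p x} \ {x | q x}) ∪ ({x | q x} \ {x | p x}) := by
    ext x
    simp only [Set.mem_setOf_eq, Set.mem_union, Set.mem_diff, h x]
    tauto
  have e1 : Nat.card {x // r x} = {x | r x}.ncard := Nat.card_coe_set_eq {x | r x}
  have e2 : Nat.card {x // p x} = {x | p x}.ncard := Nat.card_coe_set_eq {x | p x}
  have e3 : Nat.card {x // q x} = {x | q x}.ncard := Nat.card_coe_set_eq {x | q x}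
  have e4 : {x | r x}.ncard = ({x | p x} \ {x | q x}).ncard + ({x | q x} \ {x | p x}).ncard := by
    rw [hr]
    refine Set.ncard_union_eq ?_ (hp.subset Set.diff_subset) (hq.subset Set.diff_subset)
    exact disjoint_sdiff_sdiff
  have e5 := Set.ncard_inter_add_ncard_diff_eq_ncard {x | p x} {x | q x} hp
  have e6 := Set.ncard_inter_add_ncard_diff_eq_ncard {x | q x} {x | p x} hq
  have e7 : ({x | q x} ∩ {x | p x}).ncard = ({x | p x} ∩ {x | q x}).ncard := by
    rw [Set.inter_comm]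
  omega

theorem tot_comm (b a : Kˣ) : tot b a = tot a b := by
  unfold tot
  congr 1
  · exact Nat.card_congr (Equiv.subtypeEquivRight fun v => not_congr LNm_comm)
  · exact Nat.card_congr (Equiv.subtypeEquivRight fun φ => and_comm)

/-- Proof: symmetric difference of finite sets (`finite_LNm`, `LNm_mul_iff`). -/
theorem tot_mul (b a c : Kˣ) : (tot b (a * c) + tot b a + tot b c) % 2 = 0 := by
  have h1 := tot_symm (p := fun v : HeightOneSpectrum (𝓞 K) => a ∉ LNm v b)
    (q := fun v => c ∉ LNm v b) (r := fun v => a * c ∉ LNm v b)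
    (fun v => by rw [LNm_mul_iff]; tauto) (finite_LNm b a) (finite_LNm b c)
  have h2 := tot_symm (p := fun φ : K →+* ℝ => φ b < 0 ∧ φ a < 0)
    (q := fun φ => φ b < 0 ∧ φ c < 0) (r := fun φ => φ b < 0 ∧ φ ((a * c : Kˣ) : K) < 0)
    (fun φ => by
      have ha : φ (a : K) ≠ 0 := (map_ne_zero φ).2 a.ne_zero
      have hc : φ (c : K) ≠ 0 := (map_ne_zero φ).2 c.ne_zero
      rw [Units.val_mul, map_mul, mul_neg_iff]
      rcases lt_or_gt_of_ne ha with h | h <;> rcases lt_or_gt_of_ne hc with h' | h'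
      · simp only [h, h', not_lt_of_gt h, not_lt_of_gt h']
        tauto
      · simp only [h, h', not_lt_of_gt h, not_lt_of_gt h']
        tauto
      · simp only [h, h', not_lt_of_gt h, not_lt_of_gt h']
        tauto
      · simp only [h, h', not_lt_of_gt h, not_lt_of_gt h']
        tauto) (Set.toFinite _) (Set.toFinite _)
  unfold tot
  omega

theorem tot_mul_left (b b' a : Kˣ) : (tot (b * b') a + tot b a + tot b' a) % 2 = 0 := by
  rw [tot_comm (b * b') a, tot_comm b a, tot_comm b' a]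
  exact tot_mul a b b'

theorem tot_sq (b a : Kˣ) : tot b (a ^ 2) = 0 := by
  unfold tot
  have h1 : IsEmpty {v : HeightOneSpectrum (𝓞 K) // a ^ 2 ∉ LNm v b} :=
    ⟨fun v => v.2 (LSq_le_LNm v.1 b (sq_mem_LSq v.1 a))⟩
  have h2 : IsEmpty {φ : K →+* ℝ // φ b < 0 ∧ φ ((a ^ 2 : Kˣ) : K) < 0} := ⟨fun φ => by
    obtain ⟨φ, -, h⟩ := φ
    rw [Units.val_pow_eq_pow_val, map_pow] at h
    exact absurd h (not_lt_of_ge (sq_nonneg _))⟩
  rw [Nat.card_of_isEmpty, Nat.card_of_isEmpty]

theorem tot_neg (b : Kˣ) : tot b (-b) = 0 := by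
  unfold tot
  have h1 : IsEmpty {v : HeightOneSpectrum (𝓞 K) // -b ∉ LNm v b} := ⟨fun v => v.2 neg_mem_LNm⟩
  have h2 : IsEmpty {φ : K →+* ℝ // φ b < 0 ∧ φ ((-b : Kˣ) : K) < 0} := ⟨fun φ => by
    obtain ⟨φ, h', h⟩ := φ
    rw [Units.val_neg, map_neg] at h
    linarith⟩
  rw [Nat.card_of_isEmpty, Nat.card_of_isEmpty]

end Dr
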