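import Pool.Agent.Lib.MP_f80667_ag.Dr.LagA

/-! The trace form of a scaled norm form of a quaternion algebra over a number field. -/

open Module

namespace Dr

variable {K : Type} [Field K] [NumberField K]

/-- the coefficients of the form -/
def qnc (b a : K) (i : Fin 4) : K := ![1, -b, -a, a * b] i

omit [NumberField K] in
theorem qnB_eq (b a : K) (x y : Fin 4 → K) :
    qnB b a x y = ∑ i, 2 * qnc b a i * (x i * y i) := by
  simp [qnB, qnc, Fin.sum_univ_four]
  ring

theorem polar_tr (b a c : K) (x y : Fin 4 → K) :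
    QuadraticMap.polar (tr (sT ℚ c) (qnF b a)) x y =
      Algebra.trace ℚ K (c * ∑ i, 2 * qnc b a i * (x i * y i)) := by
  rw [tr_polar, sT_apply]
  congr 2
  rw [← qnB_eq, ← qn_polar]
  rfl

theorem trace_nd {u : K} (h : ∀ z : K, Algebra.trace ℚ K (u * z) = 0) : u = 0 := by
  by_contra hu
  have h1 := h u⁻¹
  rw [mul_inv_cancel₀ hu] at h1
  have h2 := Algebra.trace_algebraMap (R := ℚ) (S := K) 1
  rw [map_one, h1] at h2
  simp at h2
  exact (Module.finrank_pos (R := ℚ) (M := K)).ne (by exact_mod_cast h2)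

/-- Proof: `tr_polar`, `qn_polar`; the trace form is nondegenerate. -/
theorem tr_ND {b a c : K} (hb : b ≠ 0) (ha : a ≠ 0) (hc : c ≠ 0) : ND (tr (sT ℚ c) (qnF b a)) := by
  intro x hx
  funext i
  have hn : qnc b a i ≠ 0 := by
    fin_cases i
    · exact one_ne_zero
    · exact neg_ne_zero.mpr hb
    · exact neg_ne_zero.mpr ha
    · exact mul_ne_zero ha hb
  have h1 : c * (2 * qnc b a i * x i) = 0 := by
    apply trace_nd
    intro z
    have h2 := hx (Pi.single i z)
    rw [polar_tr, Finset.sum_eq_single i] at h2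
    · rw [← h2]
      congr 1
      rw [Pi.single_eq_same]
      ring
    · intro j _ hj
      rw [Pi.single_eq_of_ne hj]
      ring
    · intro h; exact absurd (Finset.mem_univ i) h
  have h3 := (mul_eq_zero.mp h1).resolve_left hc
  exact (mul_eq_zero.mp h3).resolve_left (mul_ne_zero two_ne_zero hn)

/-- The signed discriminant is a square. -/
def DS {V : Type*} [AddCommGroup V] [Module ℚ V] (Q : QuadraticForm ℚ V) : Prop :=
  ∃ (n : ℕ) (v : Basis (Fin n) ℚ V), Even n ∧
    IsSquare ((-1) ^ (n / 2) * (Matrix.of fun i j => QuadraticMap.polar Q (v i) (v j)).det)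

/-- Independence of the basis. -/
theorem DS.of {V : Type*} [AddCommGroup V] [Module ℚ V] {Q : QuadraticForm ℚ V} (h : DS Q) {n : ℕ}
    (v : Basis (Fin n) ℚ V) : Even n ∧
    IsSquare ((-1) ^ (n / 2) * (Matrix.of fun i j => QuadraticMap.polar Q (v i) (v j)).det) := by
  obtain ⟨n', v', hn', hs⟩ := h
  have hnn : n' = n := by
    have h1 := (finrank_eq_card_basis v').symm.trans (finrank_eq_card_basis v)
    simpa using h1
  subst hnn
  refine ⟨hn', ?_⟩
  have hG : ∀ u : Basis (Fin n') ℚ V, (Matrix.of fun i j => QuadraticMap.polar Q (u i) (u j)) =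
      LinearMap.BilinForm.toMatrix u (QuadraticMap.polarBilin Q) := by
    intro u
    ext i j
    rw [LinearMap.BilinForm.toMatrix_apply]
    rfl
  rw [hG] at hs ⊢
  rw [← LinearMap.BilinForm.toMatrix_mul_basis_toMatrix v' v, Matrix.det_mul, Matrix.det_mul,
    Matrix.det_transpose]
  have e : (-1 : ℚ) ^ (n' / 2) * ((v'.toMatrix ⇑v).det *
      (LinearMap.BilinForm.toMatrix v' (QuadraticMap.polarBilin Q)).det * (v'.toMatrix ⇑v).det) =
      ((-1 : ℚ) ^ (n' / 2) * (LinearMap.BilinForm.toMatrix v' (QuadraticMap.polarBilin Q)).det) *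
        ((v'.toMatrix ⇑v).det * (v'.toMatrix ⇑v).det) := by ring
  rw [e]
  exact hs.mul ⟨_, rfl⟩

theorem trF_gram {d : ℕ} (w : Basis (Fin d) ℚ K) (u : K) :
    (Matrix.of fun k l => Algebra.trace ℚ K (u * (w k * w l))).det =
      Algebra.norm ℚ u * Algebra.discr ℚ w := by
  have h1 : (Matrix.of fun k l => Algebra.trace ℚ K (u * (w k * w l))) =
      (Algebra.leftMulMatrix w u).transpose * Algebra.traceMatrix ℚ w := by
    ext k l
    rw [Matrix.of_apply, Matrix.mul_apply]
    have h2 := w.sum_repr (u * w k)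
    have h3 : u * (w k * w l) = ∑ j, w.repr (u * w k) j • (w j * w l) := by
      rw [← mul_assoc]
      conv_lhs => rw [← h2]
      rw [Finset.sum_mul]
      refine Finset.sum_congr rfl fun j _ => ?_
      rw [smul_mul_assoc]
    rw [h3, map_sum]
    refine Finset.sum_congr rfl fun j _ => ?_
    rw [map_smul, Matrix.transpose_apply, Algebra.leftMulMatrix_eq_repr_mul,
      Algebra.traceMatrix_apply, Algebra.traceForm_apply, smul_eq_mul]
  rw [h1, Matrix.det_mul, Matrix.det_transpose, ← Algebra.norm_eq_matrix_det, Algebra.discr_def]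

/-- Proof: for a basis `w` of `K` the Gram matrix in the basis `w_j e_i` is block diagonal with blocks
`2 Tr (c n_i w_j w_l)`, `n_i = 1, -b, -a, a b`, of determinants `N (2 c n_i) disc w`; the product is the
square of `N (2 c)² N (a b) (disc w)²`. -/
theorem tr_DS {b a c : K} : DS (tr (sT ℚ c) (qnF b a)) := by
  classical
  set d := finrank ℚ K with hd
  let w : Basis (Fin d) ℚ K := finBasis ℚ K
  obtain ⟨w4, hw4⟩ : ∃ w4 : Basis (Fin d × Fin 4) ℚ (Fin 4 → K),
      ∀ k i, w4 (k, i) = Pi.single i (w k) := by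
    refine ⟨(Pi.basis (fun _ : Fin 4 => w)).reindex
      ((Equiv.sigmaEquivProd (Fin 4) (Fin d)).trans (Equiv.prodComm _ _)), fun k i => ?_⟩
    rw [Basis.reindex_apply]
    exact Pi.basis_apply _ _
  let e : Fin d × Fin 4 ≃ Fin (d * 4) := finProdFinEquiv
  refine ⟨d * 4, w4.reindex e, ⟨d * 2, by ring⟩, ?_⟩
  have h1 : (Matrix.of fun i j => QuadraticMap.polar (tr (sT ℚ c) (qnF b a)) ((w4.reindex e) i)
      ((w4.reindex e) j)) = (Matrix.blockDiagonal (fun i : Fin 4 => (Matrix.of fun k l =>
        Algebra.trace ℚ K ((2 * c * qnc b a i) * (w k * w l))))).submatrix e.symm e.symm := by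
    ext i j
    obtain ⟨⟨k, i⟩, rfl⟩ := e.surjective i
    obtain ⟨⟨l, j⟩, rfl⟩ := e.surjective j
    rw [Matrix.of_apply, Matrix.submatrix_apply, Basis.reindex_apply, Basis.reindex_apply,
      Equiv.symm_apply_apply, Equiv.symm_apply_apply, hw4, hw4, polar_tr,
      Matrix.blockDiagonal_apply]
    by_cases hij : i = j
    · subst hij
      rw [if_pos rfl, Matrix.of_apply, Finset.sum_eq_single i]
      · rw [Pi.single_eq_same, Pi.single_eq_same]
        congr 1
        ring
      · intro m _ hm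
        rw [Pi.single_eq_of_ne hm]
        ring
      · intro h; exact absurd (Finset.mem_univ i) h
    · rw [if_neg hij, Finset.sum_eq_zero, mul_zero, map_zero]
      intro m _
      by_cases hm : m = i
      · subst hm
        rw [Pi.single_eq_of_ne hij]
        ring
      · rw [Pi.single_eq_of_ne hm]
        ring
  rw [h1, Matrix.det_submatrix_equiv_self, Matrix.det_blockDiagonal]
  have h2 : (-1 : ℚ) ^ (d * 4 / 2) = 1 := by
    have : d * 4 / 2 = 2 * d := by omega
    rw [this, pow_mul]; simp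
  rw [h2, one_mul]
  simp only [trF_gram, Fin.prod_univ_four]
  refine ⟨Algebra.norm ℚ (4 * c ^ 2 * a * b) * (Algebra.discr ℚ w) ^ 2, ?_⟩
  have h3 : Algebra.norm ℚ (2 * c * qnc b a 0) * Algebra.norm ℚ (2 * c * qnc b a 1) *
      Algebra.norm ℚ (2 * c * qnc b a 2) * Algebra.norm ℚ (2 * c * qnc b a 3) =
      Algebra.norm ℚ (4 * c ^ 2 * a * b) * Algebra.norm ℚ (4 * c ^ 2 * a * b) := by
    rw [← map_mul, ← map_mul, ← map_mul, ← map_mul]
    congr 1
    simp [qnc]
    ring
  calc _ = (Algebra.norm ℚ (2 * c * qnc b a 0) * Algebra.norm ℚ (2 * c * qnc b a 1) *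
      Algebra.norm ℚ (2 * c * qnc b a 2) * Algebra.norm ℚ (2 * c * qnc b a 3)) *
        (Algebra.discr ℚ w) ^ 4 := by ring
    _ = _ := by rw [h3]; ring

end Dr
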