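import Pool.Agent.Lib.MP_f80667_ag.Dr.TrF
import Pool.Agent.Lib.MP_f80667_ag.Hm.Main

/-! Definite subspaces of the trace form. -/

open Module

namespace Dr

variable {K : Type} [Field K] [NumberField K]

/-- A subspace of dimension `m` where the form is positive definite. -/
def PDQ {V : Type*} [AddCommGroup V] [Module ℚ V] (Q : QuadraticForm ℚ V) (m : ℕ) : Prop :=
  ∃ P : Submodule ℚ V, finrank ℚ P = m ∧ ∀ x ∈ P, x ≠ 0 → 0 < Q x

/-- The number of the real places where `(b, a)` is ramified and `c` has the sign `e`. -/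
noncomputable def rr (b a c : K) (e : ℝ) : ℕ :=
  Nat.card {φ : K →+* ℝ // φ b < 0 ∧ φ a < 0 ∧ 0 < e * φ c}

/-- The coefficients of the scaled norm form. -/
def tgn (b a c : K) : Fin 4 → K := ![c, -(b * c), -(a * c), a * b * c]

omit [NumberField K] in
theorem tgn_form (b a c : K) (x : Fin 4 → K) : c * qn b a x = ∑ i, tgn b a c i * x i ^ 2 := by
  rw [Fin.sum_univ_four, qn]
  simp only [tgn, Matrix.cons_val]
  ring

/-- The pairs (coefficient, place) with a linear condition. -/
def tgC (n : Fin 4 → K) (p : Fin 4 × NumberField.InfinitePlace K) : Prop :=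
  p.2.IsComplex ∨ (p.2.IsReal ∧ (p.2.embedding (n p.1)).re < 0)

/-- The extension of the coordinates to real vectors. -/
noncomputable def tgy {N : ℕ} (e : Fin N → Fin 4 → K) (φ : K →+* ℂ) (i : Fin 4) (ξ : Fin N → ℝ) : ℂ :=
  ∑ k, (ξ k : ℂ) * φ (e k i)

omit [NumberField K] in
theorem tgy_add {N : ℕ} (e : Fin N → Fin 4 → K) (φ : K →+* ℂ) (i : Fin 4) (ξ ζ : Fin N → ℝ) :
    tgy e φ i (ξ + ζ) = tgy e φ i ξ + tgy e φ i ζ := by
  simp only [tgy, Pi.add_apply, Complex.ofReal_add, add_mul, Finset.sum_add_distrib]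

omit [NumberField K] in
theorem tgy_smul {N : ℕ} (e : Fin N → Fin 4 → K) (φ : K →+* ℂ) (i : Fin 4) (t : ℝ)
    (ξ : Fin N → ℝ) : tgy e φ i (t • ξ) = (t : ℂ) * tgy e φ i ξ := by
  simp only [tgy, Pi.smul_apply, smul_eq_mul, Complex.ofReal_mul, Finset.mul_sum, mul_assoc]

omit [NumberField K] in
theorem tgy_conj {N : ℕ} (e : Fin N → Fin 4 → K) (φ : K →+* ℂ) (i : Fin 4) (ξ : Fin N → ℝ) :
    tgy e (NumberField.ComplexEmbedding.conjugate φ) i ξ = starRingEnd ℂ (tgy e φ i ξ) := by
  simp only [tgy, map_sum, map_mul, Complex.conj_ofReal,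
    NumberField.ComplexEmbedding.conjugate_coe_eq]

omit [NumberField K] in
theorem tg_cont {N : ℕ} (e : Fin N → Fin 4 → K) (φ : K →+* ℂ) (i : Fin 4) :
    Continuous (tgy e φ i) := by
  unfold tgy
  fun_prop

/-- The identity over the reals. -/
theorem tg_id {b a c : K} {N : ℕ} (E : (Fin 4 → K) ≃ₗ[ℚ] (Fin N → ℚ)) (q : Fin N → ℚ)
    (hE : ∀ f : Fin N → ℚ, tr (sT ℚ c) (qnF b a) (E.symm f) = ∑ k, q k * f k ^ 2)
    (ξ : Fin N → ℝ) :
    ∑ φ : K →ₐ[ℚ] ℂ, ∑ i, φ (tgn b a c i) *
      tgy (fun k => E.symm (Pi.single k 1)) (φ : K →+* ℂ) i ξ ^ 2 =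
      ((∑ k, (q k : ℝ) * ξ k ^ 2 : ℝ) : ℂ) := by
  have hd : DenseRange (Pi.map (fun _ : Fin N => ((↑) : ℚ → ℝ))) :=
    DenseRange.piMap fun _ => Rat.denseRange_cast
  have hc1 : Continuous fun ξ : Fin N → ℝ => ∑ φ : K →ₐ[ℚ] ℂ, ∑ i, φ (tgn b a c i) *
      tgy (fun k => E.symm (Pi.single k 1)) (φ : K →+* ℂ) i ξ ^ 2 :=
    continuous_finsetSum _ fun φ _ => continuous_finsetSum _ fun i _ =>
      continuous_const.mul ((tg_cont _ _ i).pow 2)
  have hc2 : Continuous fun ξ : Fin N → ℝ => ((∑ k, (q k : ℝ) * ξ k ^ 2 : ℝ) : ℂ) := by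
    fun_prop
  refine congrFun (hd.equalizer hc1 hc2 ?_) ξ
  funext f
  simp only [Function.comp_apply]
  have hy : ∀ (φ : K →ₐ[ℚ] ℂ) (i : Fin 4), tgy (fun k => E.symm (Pi.single k 1)) (φ : K →+* ℂ) i
      (Pi.map (fun _ : Fin N => ((↑) : ℚ → ℝ)) f) = φ (E.symm f i) := by
    intro φ i
    have h1 : f = ∑ k, f k • (Pi.single k (1 : ℚ) : Fin N → ℚ) := by
      rw [← pi_eq_sum_univ' f]
    have h2 : E.symm f i = ∑ k, f k • E.symm (Pi.single k 1) i := by
      conv_lhs => rw [h1]
      rw [map_sum, Finset.sum_apply]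
      refine Finset.sum_congr rfl fun k _ => ?_
      rw [map_smul, Pi.smul_apply]
    rw [h2, map_sum, tgy]
    refine Finset.sum_congr rfl fun k _ => ?_
    rw [Rat.smul_def, map_mul, map_ratCast, Pi.map_apply]
    push_cast
    rfl
  simp only [hy]
  have h3 : ∀ φ : K →ₐ[ℚ] ℂ, ∑ i, φ (tgn b a c i) * φ (E.symm f i) ^ 2 =
      φ (c * qn b a (E.symm f)) := by
    intro φ
    rw [tgn_form, map_sum]
    exact Finset.sum_congr rfl fun i _ => by rw [map_mul, map_pow]
  rw [Finset.sum_congr rfl fun φ _ => h3 φ, ← trace_eq_sum_embeddings ℂ]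
  have h4 := hE f
  rw [tr_apply, sT_apply, qnF_apply] at h4
  rw [h4]
  simp

omit [NumberField K] in
/-- The conditions make all terms nonnegative. -/
theorem tg_pos {N : ℕ} (e : Fin N → Fin 4 → K) (n : Fin 4 → K)
    (ν : Fin 4 × NumberField.InfinitePlace K → ℂ) (hν : ∀ p, ν p ^ 2 = p.2.embedding (n p.1))
    (ξ : Fin N → ℝ) (hξ : ∀ p, tgC n p → (ν p * tgy e p.2.embedding p.1 ξ).im = 0)
    (φ : K →+* ℂ) (i : Fin 4) : 0 ≤ (φ (n i) * tgy e φ i ξ ^ 2).re := by
  have hw : ∀ w : NumberField.InfinitePlace K,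
      0 ≤ (w.embedding (n i) * tgy e w.embedding i ξ ^ 2).re := by
    intro w
    by_cases h : tgC n (i, w)
    · have h1 := hξ (i, w) h
      have h2 := hν (i, w)
      simp only at h1 h2
      rw [← h2, ← mul_pow, sq, Complex.mul_re, h1]
      nlinarith [mul_self_nonneg (ν (i, w) * tgy e w.embedding i ξ).re]
    · rw [tgC] at h
      push Not at h
      obtain ⟨h1, h2⟩ := h
      simp only at h1 h2
      have hr : w.IsReal := NumberField.InfinitePlace.not_isComplex_iff_isReal.1 h1
      have h3 := h2 hr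
      have h4 := NumberField.InfinitePlace.conjugate_embedding_eq_of_isReal hr
      have h5 : (w.embedding (n i)).im = 0 := by
        rw [← Complex.conj_eq_iff_im]
        exact DFunLike.congr_fun h4 (n i)
      have h6 : (tgy e w.embedding i ξ).im = 0 := by
        rw [← Complex.conj_eq_iff_im, ← tgy_conj, h4]
      rw [Complex.mul_re, h5, zero_mul, sub_zero, sq, Complex.mul_re, h6, mul_zero, sub_zero]
      exact mul_nonneg h3 (mul_self_nonneg _)
  rcases NumberField.InfinitePlace.embedding_mk_eq φ with h | h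
  · have h1 := hw (NumberField.InfinitePlace.mk φ)
    rw [h] at h1
    exact h1
  · have h1 := hw (NumberField.InfinitePlace.mk φ)
    rw [h, tgy_conj, NumberField.ComplexEmbedding.conjugate_coe_eq, ← map_pow, ← map_mul,
      Complex.conj_re] at h1
    exact h1

/-- A subspace of dimension `m` from `m` positive coefficients. -/
theorem tg_sub {V : Type*} [AddCommGroup V] [Module ℚ V] (Q : QuadraticForm ℚ V) {N : ℕ}
    (E : V ≃ₗ[ℚ] (Fin N → ℚ)) (q : Fin N → ℚ)
    (hE : ∀ f : Fin N → ℚ, Q (E.symm f) = ∑ k, q k * f k ^ 2) {m : ℕ} (s : Finset (Fin N))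
    (hs : s.card = m) (hq : ∀ k ∈ s, 0 < q k) : PDQ Q m := by
  classical
  let g : (s → ℚ) →ₗ[ℚ] V :=
    (E.symm : (Fin N → ℚ) →ₗ[ℚ] V) ∘ₗ Function.ExtendByZero.linearMap ℚ (Subtype.val : s → Fin N)
  have hg : ∀ u : s → ℚ, g u = E.symm (Function.extend (Subtype.val : s → Fin N) u 0) :=
    fun u => rfl
  have hgi : Function.Injective g := by
    intro u u' h
    rw [hg, hg] at h
    have h1 := E.symm.injective h
    funext k
    have h2 := congrFun h1 k.1
    rw [Subtype.val_injective.extend_apply, Subtype.val_injective.extend_apply] at h2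
    exact h2
  refine ⟨LinearMap.range g, ?_, ?_⟩
  · rw [LinearMap.finrank_range_of_inj hgi, Module.finrank_fintype_fun_eq_card, Fintype.card_coe, hs]
  · rintro _ ⟨u, rfl⟩ hx
    rw [hg, hE]
    have h0 : ∀ k ∉ s, Function.extend (Subtype.val : s → Fin N) u 0 k = 0 := by
      intro k hk
      rw [Function.extend_apply' _ _ _ (by rintro ⟨a, rfl⟩; exact hk a.2)]
      rfl
    refine Finset.sum_pos' (fun k _ => ?_) ?_
    · by_cases hk : k ∈ s
      · exact mul_nonneg (hq k hk).le (sq_nonneg _)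
      · rw [h0 k hk]
        norm_num
    · by_contra hcon
      push Not at hcon
      apply hx
      rw [hg]
      have h1 : Function.extend (Subtype.val : s → Fin N) u 0 = 0 := by
        funext k
        by_cases hk : k ∈ s
        · by_contra hne'
          have hne : Function.extend (Subtype.val : s → Fin N) u 0 k ≠ 0 := hne'
          have h2 := hcon k (Finset.mem_univ k)
          have h3 : 0 < q k * Function.extend (Subtype.val : s → Fin N) u 0 k ^ 2 :=
            mul_pos (hq k hk) (by positivity)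
          exact absurd h3 (not_lt.2 h2)
        · exact h0 k hk
      rw [h1, map_zero]

/-- Diagonalisation. -/
theorem tg_diag {b a c : K} (hb : b ≠ 0) (ha : a ≠ 0) (hc : c ≠ 0) :
    ∃ (N : ℕ) (E : (Fin 4 → K) ≃ₗ[ℚ] (Fin N → ℚ)) (q : Fin N → ℚ), N = 4 * finrank ℚ K ∧
      (∀ k, q k ≠ 0) ∧
      ∀ f : Fin N → ℚ, tr (sT ℚ c) (qnF b a) (E.symm f) = ∑ k, q k * f k ^ 2 := by
  obtain ⟨T, hT⟩ : ∃ T : QuadraticForm ℚ (Fin 4 → K), T = tr (sT ℚ c) (qnF b a) := ⟨_, rfl⟩
  rw [← hT]
  have hsep : (QuadraticMap.associated (R := ℚ) T).SeparatingLeft := by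
    intro x hx
    refine tr_ND hb ha hc x fun y => ?_
    rw [← hT]
    have h1 := congrArg (fun B : LinearMap.BilinMap ℚ (Fin 4 → K) ℚ => B x y)
      (QuadraticMap.two_nsmul_associated ℚ T)
    simp only [QuadraticMap.polarBilin_apply_apply, LinearMap.smul_apply] at h1
    rw [← h1, hx y, smul_zero]
  obtain ⟨w, ⟨E⟩⟩ := T.equivalent_weightedSumSquares_units_of_nondegenerate' hsep
  refine ⟨_, E.toLinearEquiv, fun k => (w k : ℚ), ?_, fun k => (w k).ne_zero, fun f => ?_⟩
  · rw [Module.finrank_pi_fintype]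
    simp
  · have h1 := E.map_app (E.toLinearEquiv.symm f)
    have h2 : E (E.toLinearEquiv.symm f) = f := E.toLinearEquiv.apply_symm_apply f
    rw [h2, QuadraticMap.weightedSumSquares_apply] at h1
    rw [← h1]
    refine Finset.sum_congr rfl fun k _ => ?_
    rw [Units.smul_def, smul_eq_mul, sq]

/-- The main step. -/
theorem tg_main {b a c : K} (hb : b ≠ 0) (ha : a ≠ 0) (hc : c ≠ 0) {m : ℕ}
    (hm : m + Nat.card {p // tgC (tgn b a c) p} ≤ 4 * finrank ℚ K) :
    PDQ (tr (sT ℚ c) (qnF b a)) m := by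
  classical
  obtain ⟨N, E, q, hN4, hq0, hE⟩ := tg_diag hb ha hc
  have hmain : m ≤ (Finset.univ.filter fun k => 0 < q k).card := by
    by_contra hlt
    rw [not_le] at hlt
    choose ν hν using fun p : Fin 4 × NumberField.InfinitePlace K =>
      IsAlgClosed.exists_pow_nat_eq (p.2.embedding (tgn b a c p.1)) (n := 2) (by norm_num)
    let e : Fin N → Fin 4 → K := fun k => E.symm (Pi.single k 1)
    let Λ : (Fin N → ℝ) →ₗ[ℝ] ({k // 0 < q k} → ℝ) × ({p // tgC (tgn b a c) p} → ℝ) :=
      { toFun := fun ξ => (fun k => ξ k.1, fun p =>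
          (ν p.1 * tgy e p.1.2.embedding p.1.1 ξ).im)
        map_add' := fun ξ ζ => by
          refine Prod.ext rfl (funext fun p => ?_)
          simp only [tgy_add, mul_add, Complex.add_im, Prod.mk_add_mk, Pi.add_apply]
        map_smul' := fun t ξ => by
          refine Prod.ext rfl (funext fun p => ?_)
          simp only [tgy_smul, RingHom.id_apply, Prod.smul_mk, Pi.smul_apply, smul_eq_mul]
          rw [← mul_assoc, mul_comm (ν p.1) (t : ℂ), mul_assoc, Complex.im_ofReal_mul] }
    have : Fintype {p // tgC (tgn b a c) p} := Fintype.ofFinite _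
    have hlt2 : finrank ℝ (({k // 0 < q k} → ℝ) × ({p // tgC (tgn b a c) p} → ℝ)) <
        finrank ℝ (Fin N → ℝ) := by
      rw [Module.finrank_prod, Module.finrank_fintype_fun_eq_card,
        Module.finrank_fintype_fun_eq_card, Module.finrank_fintype_fun_eq_card, Fintype.card_fin,
        Fintype.card_subtype]
      rw [Nat.card_eq_fintype_card] at hm
      omega
    obtain ⟨ξ, hξ, hξ0⟩ := Submodule.exists_mem_ne_zero_of_ne_bot
      (LinearMap.ker_ne_bot_of_finrank_lt (f := Λ) hlt2)
    rw [LinearMap.mem_ker] at hξ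
    have h1 : ∀ k, 0 < q k → ξ k = 0 := fun k hk =>
      congrFun (congrArg Prod.fst hξ) ⟨k, hk⟩
    have h2 : ∀ p, tgC (tgn b a c) p → (ν p * tgy e p.2.embedding p.1 ξ).im = 0 := fun p hp =>
      congrFun (congrArg Prod.snd hξ) ⟨p, hp⟩
    have h3 := congrArg Complex.re (tg_id E q hE ξ)
    rw [Complex.ofReal_re, Complex.re_sum] at h3
    have h4 : 0 ≤ ∑ k, (q k : ℝ) * ξ k ^ 2 := by
      rw [← h3]
      refine Finset.sum_nonneg fun φ _ => ?_
      rw [Complex.re_sum]
      exact Finset.sum_nonneg fun i _ => tg_pos e _ ν hν ξ h2 (φ : K →+* ℂ) i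
    have h5 : ∀ k ∈ Finset.univ, (q k : ℝ) * ξ k ^ 2 ≤ 0 := by
      intro k _
      rcases lt_or_gt_of_ne (hq0 k) with hk | hk
      · exact mul_nonpos_of_nonpos_of_nonneg (by exact_mod_cast hk.le) (sq_nonneg _)
      · rw [h1 k hk]
        norm_num
    have h6 := (Finset.sum_eq_zero_iff_of_nonpos h5).1 (le_antisymm (Finset.sum_nonpos h5) h4)
    apply hξ0
    funext k
    have h7 := h6 k (Finset.mem_univ k)
    have h8 : ((q k : ℚ) : ℝ) ≠ 0 := by exact_mod_cast hq0 k
    exact pow_eq_zero_iff (two_ne_zero) |>.1 ((mul_eq_zero.1 h7).resolve_left h8)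
  obtain ⟨s, hs, hsm⟩ := Finset.exists_subset_card_eq hmain
  exact tg_sub _ E q hE s hsm fun k hk => (Finset.mem_filter.1 (hs hk)).2

theorem tg_sign (β α γ : ℝ) (hβ : β ≠ 0) (hα : α ≠ 0) (hγ : γ ≠ 0) :
    (((if γ < 0 then 1 else 0) + (if -(β * γ) < 0 then 1 else 0) +
      (if -(α * γ) < 0 then 1 else 0) + (if α * β * γ < 0 then 1 else 0) : ℕ) : ℤ) =
      2 + 2 * (if β < 0 ∧ α < 0 ∧ 0 < -1 * γ then 1 else 0) -
        2 * (if β < 0 ∧ α < 0 ∧ 0 < 1 * γ then 1 else 0) := by
  have e1 : ∀ x : ℝ, -x < 0 ↔ 0 < x := fun x => neg_lt_zero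
  have e2 : (0 : ℝ) < -1 * γ ↔ γ < 0 := by
    rw [neg_one_mul, neg_pos]
  simp only [e1, e2, one_mul]
  rcases lt_or_gt_of_ne hβ with h1 | h1 <;> rcases lt_or_gt_of_ne hα with h2 | h2 <;>
    rcases lt_or_gt_of_ne hγ with h3 | h3
  · have k1 := mul_pos_of_neg_of_neg h1 h3
    have k2 := mul_pos_of_neg_of_neg h2 h3
    have k3 := mul_neg_of_pos_of_neg (mul_pos_of_neg_of_neg h2 h1) h3
    simp [h1, h2, h3, k1, k2, k3, h3.not_gt]
  · have k1 := (mul_neg_of_neg_of_pos h1 h3).le
    have k2 := (mul_neg_of_neg_of_pos h2 h3).le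
    have k3 := (mul_pos (mul_pos_of_neg_of_neg h2 h1) h3).le
    simp [h1, h2, h3, k1.not_gt, k2.not_gt, k3.not_gt, h3.not_gt]
  · have k1 := mul_pos_of_neg_of_neg h1 h3
    have k2 := (mul_neg_of_pos_of_neg h2 h3).le
    have k3 := (mul_pos_of_neg_of_neg (mul_neg_of_pos_of_neg h2 h1) h3).le
    simp [h1, h3, k1, k2.not_gt, k3.not_gt, h2.not_gt, h3.not_gt]
  · have k1 := (mul_neg_of_neg_of_pos h1 h3).le
    have k2 := mul_pos h2 h3
    have k3 := mul_neg_of_neg_of_pos (mul_neg_of_pos_of_neg h2 h1) h3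
    simp [h1, k1.not_gt, k2, k3, h2.not_gt, h3.not_gt]
  · have k1 := (mul_neg_of_pos_of_neg h1 h3).le
    have k2 := mul_pos_of_neg_of_neg h2 h3
    have k3 := (mul_pos_of_neg_of_neg (mul_neg_of_neg_of_pos h2 h1) h3).le
    simp [h2, h3, k1.not_gt, k2, k3.not_gt, h1.not_gt, h3.not_gt]
  · have k1 := mul_pos h1 h3
    have k2 := (mul_neg_of_neg_of_pos h2 h3).le
    have k3 := mul_neg_of_neg_of_pos (mul_neg_of_neg_of_pos h2 h1) h3
    simp [h2, k1, k2.not_gt, k3, h1.not_gt, h3.not_gt]
  · have k1 := (mul_neg_of_pos_of_neg h1 h3).le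
    have k2 := (mul_neg_of_pos_of_neg h2 h3).le
    have k3 := mul_neg_of_pos_of_neg (mul_pos h2 h1) h3
    simp [h3, k1.not_gt, k2.not_gt, k3, h1.not_gt, h2.not_gt, h3.not_gt]
  · have k1 := mul_pos h1 h3
    have k2 := mul_pos h2 h3
    have k3 := (mul_pos (mul_pos h2 h1) h3).le
    simp [k1, k2, k3.not_gt, h1.not_gt, h2.not_gt, h3.not_gt]

omit [NumberField K] in
/-- The ramified places as infinite places. -/
theorem tg_rr (b a c : K) (e : ℝ) : rr b a c e =
    Nat.card {w : NumberField.InfinitePlace K // w.IsReal ∧ (w.embedding b).re < 0 ∧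
      (w.embedding a).re < 0 ∧ 0 < e * (w.embedding c).re} := by
  have hre : ∀ φ : K →+* ℝ, NumberField.ComplexEmbedding.IsReal (Complex.ofRealHom.comp φ) := by
    intro φ
    rw [NumberField.ComplexEmbedding.isReal_iff]
    ext x
    exact Complex.conj_ofReal _
  have hemb : ∀ (φ : K →+* ℝ) (x : K),
      ((NumberField.InfinitePlace.mk (Complex.ofRealHom.comp φ)).embedding x).re = φ x := by
    intro φ x
    rw [NumberField.InfinitePlace.embedding_mk_eq_of_isReal (hre φ)]
    rfl
  refine Nat.card_congr (Equiv.ofBijective (fun φ : {φ : K →+* ℝ // φ b < 0 ∧ φ a < 0 ∧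
    0 < e * φ c} => ⟨NumberField.InfinitePlace.mk (Complex.ofRealHom.comp φ.1), ?_⟩) ⟨?_, ?_⟩)
  · refine ⟨⟨_, hre φ.1, rfl⟩, ?_⟩
    rw [hemb, hemb, hemb]
    exact φ.2
  · intro φ ψ h
    refine Subtype.ext (RingHom.ext fun x => ?_)
    have h1 := congrArg Subtype.val h
    simp only at h1
    rw [← hemb φ.1 x, ← hemb ψ.1 x, h1]
  · rintro ⟨w, hw, hw2⟩
    have h1 := NumberField.InfinitePlace.isReal_iff.1 hw
    have h2 : ∀ x, h1.embedding x = (w.embedding x).re := fun x => rfl
    refine ⟨⟨h1.embedding, ?_⟩, ?_⟩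
    · rw [h2, h2, h2]
      exact hw2
    · refine Subtype.ext ?_
      show NumberField.InfinitePlace.mk (Complex.ofRealHom.comp h1.embedding) = w
      have h3 : Complex.ofRealHom.comp h1.embedding = w.embedding := by
        ext x
        exact NumberField.ComplexEmbedding.IsReal.coe_embedding_apply h1 x
      rw [h3, NumberField.InfinitePlace.mk_embedding]

/-- The number of the conditions. -/
theorem tg_card {b a c : K} (hb : b ≠ 0) (ha : a ≠ 0) (hc : c ≠ 0) :
    (Nat.card {p // tgC (tgn b a c) p} : ℤ) =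
      2 * finrank ℚ K + 2 * rr b a c (-1) - 2 * rr b a c 1 := by
  classical
  have h0 : Nat.card {p // tgC (tgn b a c) p} =
      ∑ w : NumberField.InfinitePlace K, ∑ i : Fin 4,
        (if tgC (tgn b a c) (i, w) then 1 else 0) := by
    rw [Nat.card_eq_fintype_card, Fintype.card_subtype, Finset.card_filter,
      ← Finset.univ_product_univ, Finset.sum_product_right]
  have h1 : ∀ w : NumberField.InfinitePlace K, ((∑ i : Fin 4,
      (if tgC (tgn b a c) (i, w) then 1 else 0) : ℕ) : ℤ) =
      4 * (if w.IsComplex then 1 else 0) + 2 * (if w.IsReal then 1 else 0) +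
      2 * (if w.IsReal ∧ (w.embedding b).re < 0 ∧ (w.embedding a).re < 0 ∧
        0 < -1 * (w.embedding c).re then 1 else 0) -
      2 * (if w.IsReal ∧ (w.embedding b).re < 0 ∧ (w.embedding a).re < 0 ∧
        0 < 1 * (w.embedding c).re then 1 else 0) := by
    intro w
    rcases w.isReal_or_isComplex with h | h
    · have hnc : ¬ w.IsComplex := NumberField.InfinitePlace.not_isComplex_iff_isReal.2 h
      have him : ∀ x : K, (w.embedding x).im = 0 := by
        intro x
        rw [← Complex.conj_eq_iff_im]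
        exact DFunLike.congr_fun
          (NumberField.InfinitePlace.conjugate_embedding_eq_of_isReal h) x
      have hne : ∀ x : K, x ≠ 0 → (w.embedding x).re ≠ 0 := by
        intro x hx h2
        apply hx
        rw [← map_eq_zero w.embedding]
        exact Complex.ext h2 (him x)
      have h2 : ∀ i, tgC (tgn b a c) (i, w) ↔ (w.embedding (tgn b a c i)).re < 0 := by
        intro i
        rw [tgC]
        simp only [hnc, h, false_or, true_and]
      have h3 := tg_sign (w.embedding b).re (w.embedding a).re (w.embedding c).re (hne b hb)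
        (hne a ha) (hne c hc)
      have h4 : ∑ i : Fin 4, (if tgC (tgn b a c) (i, w) then 1 else 0) =
          (if (w.embedding c).re < 0 then 1 else 0) +
          (if -((w.embedding b).re * (w.embedding c).re) < 0 then 1 else 0) +
          (if -((w.embedding a).re * (w.embedding c).re) < 0 then 1 else 0) +
          (if (w.embedding a).re * (w.embedding b).re * (w.embedding c).re < 0 then 1 else 0) := by
        have h5 : ∀ (i : Fin 4) (r : ℝ), (w.embedding (tgn b a c i)).re = r →
            (if tgC (tgn b a c) (i, w) then 1 else 0) = (if r < 0 then 1 else 0) := by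
          intro i r hr
          exact if_congr (by rw [h2, hr]) rfl rfl
        rw [Fin.sum_univ_four, h5 0 (w.embedding c).re rfl,
          h5 1 (-((w.embedding b).re * (w.embedding c).re)) (by
            show (w.embedding (-(b * c))).re = _
            rw [map_neg, map_mul, Complex.neg_re, Complex.mul_re, him, him, mul_zero, sub_zero]),
          h5 2 (-((w.embedding a).re * (w.embedding c).re)) (by
            show (w.embedding (-(a * c))).re = _
            rw [map_neg, map_mul, Complex.neg_re, Complex.mul_re, him, him, mul_zero, sub_zero]),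
          h5 3 ((w.embedding a).re * (w.embedding b).re * (w.embedding c).re) (by
            show (w.embedding (a * b * c)).re = _
            rw [map_mul, map_mul, Complex.mul_re, Complex.mul_re, him, him, him, mul_zero,
              mul_zero, sub_zero, sub_zero])]
      rw [h4, h3]
      simp only [hnc, h, if_true, if_false, true_and]
      ring
    · have hnr : ¬ w.IsReal := NumberField.InfinitePlace.not_isReal_iff_isComplex.2 h
      have h2 : ∀ i, tgC (tgn b a c) (i, w) := fun i => Or.inl h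
      simp [h2, h, hnr]
  have h2 : ∀ (P : NumberField.InfinitePlace K → Prop) [DecidablePred P],
      ∑ w : NumberField.InfinitePlace K, (if P w then (1 : ℤ) else 0) =
        (Nat.card {w // P w} : ℤ) := by
    intro P _
    rw [Finset.sum_boole, Nat.card_eq_fintype_card, Fintype.card_subtype]
  have h3 := NumberField.InfinitePlace.card_add_two_mul_card_eq_rank K
  have h4 : (Nat.card {w : NumberField.InfinitePlace K // w.IsReal} : ℤ) +
      2 * (Nat.card {w : NumberField.InfinitePlace K // w.IsComplex} : ℤ) = finrank ℚ K := by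
    rw [Nat.card_eq_fintype_card, Nat.card_eq_fintype_card]
    exact_mod_cast h3
  rw [h0, Nat.cast_sum, Finset.sum_congr rfl fun w _ => h1 w, Finset.sum_sub_distrib,
    Finset.sum_add_distrib, Finset.sum_add_distrib, ← Finset.mul_sum, ← Finset.mul_sum,
    ← Finset.mul_sum, ← Finset.mul_sum, h2, h2, h2, h2, tg_rr, tg_rr]
  linear_combination 2 * h4

/-- The definite subspaces. Proof: at a real place `w` the four standard basis vectors are orthogonal with
values `c, -b c, -a c, a b c`: two positive and two negative ones if `(b, a)` is not ramified, otherwise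
all of the sign of `c`. At a complex place the real form `2 Re (c n_i x²)` has an orthogonal basis with
one positive and one negative value for every `i`. This gives an orthogonal basis of `(K ⊗ ℝ) ^ 4` with
`2 d + 2 (r - s)` positive values (`r = rr b a c 1`, `s = rr b a c (-1)`). Approximate these vectors by
vectors of `K ^ 4` (`K` is dense in the product of the archimedean completions,
`NumberField.InfinitePlace`/`Hm.wapx`, `Hm.wapr`); the Gram matrix is near a positive diagonal matrix, so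
it is positive definite and the vectors are independent. -/
theorem exists_def {b a c : K} (hb : b ≠ 0) (ha : a ≠ 0) (hc : c ≠ 0) {m : ℕ}
    (hm : m + 2 * rr b a c (-1) = 2 * finrank ℚ K + 2 * rr b a c 1) :
    PDQ (tr (sT ℚ c) (qnF b a)) m := by
  apply tg_main hb ha hc
  have h1 := tg_card hb ha hc
  omega

/-- The negative ones: `exists_def` for `-c`. -/
theorem exists_def_neg {b a c : K} (hb : b ≠ 0) (ha : a ≠ 0) (hc : c ≠ 0) {m : ℕ}
    (hm : m + 2 * rr b a c 1 = 2 * finrank ℚ K + 2 * rr b a c (-1)) :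
    PDQ (-(tr (sT ℚ c) (qnF b a))) m := by
  have h1 : -(tr (sT ℚ c) (qnF b a)) = tr (sT ℚ (-c)) (qnF b a) := by
    refine QuadraticMap.ext fun x => ?_
    rw [neg_apply, tr_apply, tr_apply, sT_apply, sT_apply, neg_mul, map_neg]
  have h2 : ∀ e : ℝ, rr b a (-c) e = rr b a c (-e) := by
    intro e
    rw [rr, rr]
    congr 1
    simp only [map_neg, mul_neg, neg_mul]
  rw [h1]
  refine exists_def hb ha (neg_ne_zero.2 hc) ?_
  rw [h2, h2, neg_neg]
  exact hm

end Dr
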