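import Pool.Agent.Lib.MP_f80667_ag.Dr.Vq
import Pool.Agent.Lib.MP_f80667_ag.Dr.RsA

/-! Transfers of the members over a product of two coprime polynomials. -/

open Polynomial

namespace Dr

open ZC Tq Dp

variable {k : Type*} [Field k]

/-- The form `vq` in coordinates. -/
theorem vq_sum {L : Type*} [CommRing L] [Algebra k L] (τ : L →ₗ[k] k)
    (A B : Matrix (Fin 5) (Fin 5) k) (u t : L) (x : Fin 5 → L) :
    vq τ A B u t x = ∑ i, ∑ j, (A i j * τ (u * (x i * x j)) - B i j * τ (u * t * (x i * x j))) := by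
  have h1 : u * mQ A B 1 (-t) x = ∑ i, ∑ j, (A i j • (u * (x i * x j)) -
      B i j • (u * t * (x i * x j))) := by
    rw [mQ, qv, qv, one_mul, neg_mul, ← sub_eq_add_neg, mul_sub, Finset.mul_sum, Finset.mul_sum,
      Finset.mul_sum, ← Finset.sum_sub_distrib]
    refine Finset.sum_congr rfl fun i _ => ?_
    rw [Finset.mul_sum, Finset.mul_sum, Finset.mul_sum, ← Finset.sum_sub_distrib]
    refine Finset.sum_congr rfl fun j _ => ?_
    rw [Algebra.smul_def, Algebra.smul_def]
    ring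
  rw [vq_apply, h1, map_sum]
  refine Finset.sum_congr rfl fun i _ => ?_
  rw [map_sum]
  refine Finset.sum_congr rfl fun j _ => ?_
  rw [map_sub, map_smul, map_smul, smul_eq_mul, smul_eq_mul]

/-- An isomorphism in every coordinate. -/
def eqPi {V V' V'' : Type*} [AddCommGroup V] [Module k V] [AddCommGroup V'] [Module k V']
    [AddCommGroup V''] [Module k V''] (n : ℕ) (e : (V × V') ≃ₗ[k] V'') :
    ((Fin n → V) × (Fin n → V')) ≃ₗ[k] (Fin n → V'') where
  toFun z := fun i => e (z.1 i, z.2 i)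
  invFun w := (fun i => (e.symm (w i)).1, fun i => (e.symm (w i)).2)
  map_add' z w := by
    funext i
    exact map_add e (z.1 i, z.2 i) (w.1 i, w.2 i)
  map_smul' c z := by
    funext i
    exact map_smul e c (z.1 i, z.2 i)
  left_inv z := by
    refine Prod.ext ?_ ?_
    · funext i
      change (e.symm (e (z.1 i, z.2 i))).1 = z.1 i
      rw [e.symm_apply_apply]
    · funext i
      change (e.symm (e (z.1 i, z.2 i))).2 = z.2 i
      rw [e.symm_apply_apply]
  right_inv w := by
    funext i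
    change e ((e.symm (w i)).1, (e.symm (w i)).2) = w i
    rw [Prod.mk.eta, e.apply_symm_apply]

theorem eqPi_apply {V V' V'' : Type*} [AddCommGroup V] [Module k V] [AddCommGroup V'] [Module k V']
    [AddCommGroup V''] [Module k V''] (n : ℕ) (e : (V × V') ≃ₗ[k] V'')
    (z : (Fin n → V) × (Fin n → V')) (i : Fin n) : eqPi n e z i = e (z.1 i, z.2 i) := rfl

/-- Coprime polynomials give units. -/
theorem isUnit_mk {p q : k[X]} (h : IsCoprime p q) : IsUnit (AdjoinRoot.mk q p) := by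
  obtain ⟨a, b, hab⟩ := h
  refine IsUnit.of_mul_eq_one (AdjoinRoot.mk q a) ?_
  rw [← map_mul, ← map_one (AdjoinRoot.mk q), AdjoinRoot.mk_eq_mk]
  exact ⟨-b, by linear_combination hab⟩

theorem NF_id : NF (LinearMap.id : k →ₗ[k] k) := by
  intro x hx
  have h := hx 1
  rwa [mul_one] at h

/-- Proof: `fac` for `E = k` in every coordinate: `mQ A B 1 (-root) x` is a sum of terms
`(a_ij - root b_ij) x_i x_j`; use the identity of `fac` for `u * C a_ij` and `u * X * C b_ij`. -/
theorem vq_mul (h2 : (2 : k) ≠ 0) {A B : Matrix (Fin 5) (Fin 5) k} {P Q : k[X]} (hP : P.Monic)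
    (hQ : Q.Monic) (hc : IsCoprime P Q) {u : k[X]} (hu : IsCoprime u (P * Q))
    (hf : IsCoprime (Dq.chp A B) (P * Q)) :
    WE ((vq (Rk LinearMap.id hP) A B (AdjoinRoot.mk P (u * Q)) (AdjoinRoot.root P)).prod
        (vq (Rk LinearMap.id hQ) A B (AdjoinRoot.mk Q (u * P)) (AdjoinRoot.root Q)))
      (vq (Rk LinearMap.id (hP.mul hQ)) A B (AdjoinRoot.mk (P * Q) u) (AdjoinRoot.root (P * Q))) := by
  obtain ⟨e, -, he⟩ := fac hP hQ hc
  have hu1 : IsCoprime u P := hu.of_mul_right_left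
  have hu2 : IsCoprime u Q := hu.of_mul_right_right
  have i1 : IsUnit (AdjoinRoot.mk P (u * Q)) := isUnit_mk (hu1.mul_left hc.symm)
  have i2 : IsUnit (AdjoinRoot.mk Q (u * P)) := isUnit_mk (hu2.mul_left hc)
  have j1 : IsUnit (aeval (AdjoinRoot.root P) (Dq.chp A B)) := by
    rw [AdjoinRoot.aeval_eq]
    exact isUnit_mk hf.of_mul_right_left
  have j2 : IsUnit (aeval (AdjoinRoot.root Q) (Dq.chp A B)) := by
    rw [AdjoinRoot.aeval_eq]
    exact isUnit_mk hf.of_mul_right_right
  have := finite_adjoin (k := k) hP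
  have := finite_adjoin (k := k) hQ
  have := finite_adjoin (k := k) (hP.mul hQ)
  refine WE.of_equiv (ND.prod (vq_ND (Rk_NF NF_id hP) i1 j1) (vq_ND (Rk_NF NF_id hQ) i2 j2))
    (eqPi 5 e) ?_
  rintro z
  have key : ∀ (w : k[X]) (i j : Fin 5),
      Rk LinearMap.id (hP.mul hQ) (AdjoinRoot.mk (P * Q) w * (eqPi 5 e z i * eqPi 5 e z j)) =
        Rk LinearMap.id hP (AdjoinRoot.mk P (w * Q) * (z.1 i * z.1 j)) +
          Rk LinearMap.id hQ (AdjoinRoot.mk Q (w * P) * (z.2 i * z.2 j)) := by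
    intro w i j
    exact he w (z.1 i) (z.1 j) (z.2 i) (z.2 j)
  have hX : AdjoinRoot.mk (P * Q) u * AdjoinRoot.root (P * Q) = AdjoinRoot.mk (P * Q) (u * X) := by
    rw [map_mul]
    rfl
  have hX1 : AdjoinRoot.mk P (u * Q) * AdjoinRoot.root P = AdjoinRoot.mk P (u * X * Q) := by
    rw [mul_right_comm u X Q, map_mul _ (u * Q)]
    rfl
  have hX2 : AdjoinRoot.mk Q (u * P) * AdjoinRoot.root Q = AdjoinRoot.mk Q (u * X * P) := by
    rw [mul_right_comm u X P, map_mul _ (u * P)]
    rfl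
  rw [QuadraticMap.prod_apply, vq_sum, vq_sum, vq_sum, ← Finset.sum_add_distrib]
  refine Finset.sum_congr rfl fun i _ => ?_
  rw [← Finset.sum_add_distrib]
  refine Finset.sum_congr rfl fun j _ => ?_
  rw [hX, hX1, hX2, key, key]
  ring

end Dr
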