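import Pool.Agent.Lib.MP_f80667_ag.Dr.VqM
import Pool.Agent.Lib.MP_f80667_ag.Dr.VqL

/-! Members with a line over all roots of a polynomial. -/

open Polynomial

namespace Dr

open ZC Tq Dp

variable {k : Type*} [Field k]

/-- The transfer is Witt equivalent to its square form, without members: both spaces are zero. -/
theorem we_zero {V V' : Type*} [AddCommGroup V] [Module k V] [AddCommGroup V'] [Module k V']
    [Subsingleton V] [Subsingleton V'] (Q : QuadraticForm k V) (Q' : QuadraticForm k V') :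
    WE Q Q' := by
  refine ⟨⊤, fun x _ => ?_, fun x _ => Submodule.mem_top⟩
  rw [Subsingleton.elim x 0]
  exact QuadraticMap.map_zero _

/-- **Lines over all roots.** Proof: induction on `m`; `m = 0`: both spaces are zero. Step: `vq_mul`,
`line_we` for the first factor (`AdjoinRoot (P 0)` is a field), the induction hypothesis for `u P 0`,
`sq_mul`, `WE.prod`, `WE.trans`. -/
theorem line_prod (h2 : (2 : k) ≠ 0) {A B : Matrix (Fin 5) (Fin 5) k} {m : ℕ} (P : Fin m → k[X])
    (hP : ∀ j, (P j).Monic) (hi : ∀ j, Irreducible (P j)) (hd : ∀ i j, P i = P j → i = j)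
    (hf : ∀ j, IsCoprime (Dq.chp A B) (P j)) (hl : ∀ j, Ln A B (AdjoinRoot.root (P j))) {Q : k[X]}
    (hQ : Q = ∏ j, P j) (hQm : Q.Monic) {u : k[X]} (hu : IsCoprime u Q) :
    WE (vq (Rk LinearMap.id hQm) A B (AdjoinRoot.mk Q u) (AdjoinRoot.root Q))
      (sq (Rk LinearMap.id hQm) (AdjoinRoot.mk Q (u * (2 * Dq.chp A B)))) := by
  induction m generalizing Q u with
  | zero =>
    rw [Fin.prod_univ_zero] at hQ
    have hs : Subsingleton (AdjoinRoot Q) := by
      refine ⟨fun x y => ?_⟩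
      obtain ⟨x, rfl⟩ := AdjoinRoot.mk_surjective x
      obtain ⟨y, rfl⟩ := AdjoinRoot.mk_surjective y
      rw [AdjoinRoot.mk_eq_mk, hQ]
      exact one_dvd _
    exact we_zero _ _
  | succ m ih =>
    rw [Fin.prod_univ_succ] at hQ
    subst hQ
    obtain ⟨R, hR⟩ : ∃ R, R = ∏ j : Fin m, P j.succ := ⟨_, rfl⟩
    have hRm : R.Monic := by
      rw [hR]
      exact monic_prod_of_monic _ _ fun j _ => hP _
    have h2u : IsUnit (2 : k[X]) := by
      have h3 : (2 : k[X]) = C 2 := (map_ofNat C 2).symm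
      rw [h3]
      exact isUnit_C.2 (isUnit_iff_ne_zero.2 h2)
    have hfR : IsCoprime (Dq.chp A B) R := by
      rw [hR]
      exact IsCoprime.prod_right fun j _ => hf _
    have hPR : IsCoprime (P 0) R := by
      rw [hR]
      refine IsCoprime.prod_right fun j _ => ?_
      rcases (hi 0).isCoprime_or_dvd (P j.succ) with h | h
      · exact h
      · exfalso
        have h4 : P 0 = P j.succ := by
          refine eq_of_monic_of_associated (hP 0) (hP _) ?_
          exact (hi 0).associated_of_dvd (hi _) h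
        exact (Fin.succ_ne_zero j) (hd _ _ h4).symm
    generalize hgen : (P 0 * ∏ j : Fin m, P j.succ) = Q' at hQm hu ⊢
    have hQQ : Q' = P 0 * R := by rw [← hgen, hR]
    subst hQQ
    have hf' : IsCoprime (Dq.chp A B) (P 0 * R) := (hf 0).mul_right hfR
    have hu0 : IsCoprime u (P 0) := hu.of_mul_right_left
    have huR : IsCoprime u R := hu.of_mul_right_right
    have h2f : ∀ {p : k[X]}, IsCoprime (Dq.chp A B) p → IsCoprime (2 * Dq.chp A B) p := by
      intro p hp
      exact (isCoprime_mul_unit_left_left h2u _ _).2 hp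
    have e1 := vq_mul h2 (hP 0) hRm hPR hu hf'
    have hfact : Fact (Irreducible (P 0)) := ⟨hi 0⟩
    have := finite_adjoin (k := k) (hP 0)
    have := finite_adjoin (k := k) hRm
    have := finite_adjoin (k := k) hQm
    have iu0 : IsUnit (AdjoinRoot.mk (P 0) (u * R)) := isUnit_mk (hu0.mul_left hPR.symm)
    have iuR : IsUnit (AdjoinRoot.mk R (u * P 0)) := isUnit_mk (huR.mul_left hPR)
    have if0 : IsUnit (aeval (AdjoinRoot.root (P 0)) (Dq.chp A B)) := by
      rw [AdjoinRoot.aeval_eq]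
      exact isUnit_mk (hf 0)
    have ifR : IsUnit (aeval (AdjoinRoot.root R) (Dq.chp A B)) := by
      rw [AdjoinRoot.aeval_eq]
      exact isUnit_mk hfR
    have ifQ : IsUnit (aeval (AdjoinRoot.root (P 0 * R)) (Dq.chp A B)) := by
      rw [AdjoinRoot.aeval_eq]
      exact isUnit_mk hf'
    have e2 := line_we h2 (Rk_NF NF_id (hP 0)) (A := A) (B := B) (t := AdjoinRoot.root (P 0))
      iu0.ne_zero if0.ne_zero (hl 0)
    have e3 := ih (fun j => P j.succ) (fun j => hP _) (fun j => hi _)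
      (fun i j h => Fin.succ_injective _ (hd _ _ h)) (fun j => hf _) (fun j => hl _) hR hRm
      (u := u * P 0) (huR.mul_left hPR)
    have e4 := sq_mul h2 NF_id (hP 0) hRm hPR (u := u * (2 * Dq.chp A B))
      (hu.mul_left (h2f hf'))
    have e5 : AdjoinRoot.mk (P 0) (u * R) * (2 * aeval (AdjoinRoot.root (P 0)) (Dq.chp A B)) =
        AdjoinRoot.mk (P 0) (u * (2 * Dq.chp A B) * R) := by
      rw [AdjoinRoot.aeval_eq]
      have h3 : u * (2 * Dq.chp A B) * R = (u * R) * (2 * Dq.chp A B) := by ring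
      rw [h3, map_mul _ (u * R), map_mul _ 2, map_ofNat]
    have e6 : u * P 0 * (2 * Dq.chp A B) = u * (2 * Dq.chp A B) * P 0 := by ring
    rw [e5] at e2
    rw [e6] at e3
    have i1 : IsUnit (AdjoinRoot.mk (P 0) (u * (2 * Dq.chp A B) * R)) :=
      isUnit_mk ((hu0.mul_left (h2f (hf 0))).mul_left hPR.symm)
    have i2 : IsUnit (AdjoinRoot.mk R (u * (2 * Dq.chp A B) * P 0)) :=
      isUnit_mk ((huR.mul_left (h2f hfR)).mul_left hPR)
    have i3 : IsUnit (AdjoinRoot.mk (P 0 * R) (u * (2 * Dq.chp A B))) :=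
      isUnit_mk (hu.mul_left (h2f hf'))
    have n1 := ND.prod (vq_ND (Rk_NF NF_id (hP 0)) iu0 if0) (vq_ND (Rk_NF NF_id hRm) iuR ifR)
    have n2 := ND.prod (sq_ND h2 (Rk_NF NF_id (hP 0)) i1) (sq_ND h2 (Rk_NF NF_id hRm) i2)
    have n3 := sq_ND h2 (Rk_NF NF_id hQm) i3
    have n0 := vq_ND (A := A) (B := B) (Rk_NF NF_id hQm) (isUnit_mk hu) ifQ
    exact WE.trans n0 n2 n3 (WE.trans n0 n1 n2 e1.symm (WE.prod e2 e3)) e4

end Dr
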