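import Pool.Agent.Lib.MP_f80667_ag.Dr.LagA

/-! Witt equivalence of quadratic forms. -/

open Module

namespace Dr

variable {k V V' V'' U U' : Type*} [Field k] [AddCommGroup V] [Module k V] [FiniteDimensional k V]
  [AddCommGroup V'] [Module k V'] [FiniteDimensional k V'] [AddCommGroup V''] [Module k V'']
  [FiniteDimensional k V''] [AddCommGroup U] [Module k U] [FiniteDimensional k U]
  [AddCommGroup U'] [Module k U'] [FiniteDimensional k U']
  {Q : QuadraticForm k V} {Q' : QuadraticForm k V'} {Q'' : QuadraticForm k V''}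
  {R : QuadraticForm k U} {R' : QuadraticForm k U'}

/-- Witt equivalence. -/
def WE (Q : QuadraticForm k V) (Q' : QuadraticForm k V') : Prop :=
  ∃ W, Lag (Q.prod (-Q')) W

omit [FiniteDimensional k V] in
theorem polar_neg' (Q : QuadraticForm k V) (x y : V) :
    QuadraticMap.polar (-Q) x y = - QuadraticMap.polar Q x y := by
  simp only [QuadraticMap.polar, QuadraticMap.neg_apply]
  ring

omit [FiniteDimensional k V] in
theorem polar_smul' (c : k) (Q : QuadraticForm k V) (x y : V) :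
    QuadraticMap.polar (c • Q) x y = c * QuadraticMap.polar Q x y := by
  simp only [QuadraticMap.polar, QuadraticMap.smul_apply, smul_eq_mul]
  ring

theorem ND.neg (hN : ND Q) : ND (-Q) := by
  intro x h
  refine hN x fun y => ?_
  have := h y
  rw [polar_neg'] at this
  exact neg_eq_zero.1 this

theorem ND.smul {c : k} (hc : c ≠ 0) (hN : ND Q) : ND (c • Q) := by
  intro x h
  refine hN x fun y => ?_
  have := h y
  rw [polar_smul'] at this
  exact (mul_eq_zero.1 this).resolve_left hc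

theorem ND.map (e : V ≃ₗ[k] V') (he : ∀ x, Q' (e x) = Q x) (hN : ND Q) : ND Q' := by
  intro x h
  have h1 : e.symm x = 0 := by
    refine hN _ fun y => ?_
    have h2 := h (e y)
    rw [QuadraticMap.polar] at h2 ⊢
    rw [← he, ← he, ← he, map_add, e.apply_symm_apply]
    exact h2
  rw [← e.apply_symm_apply x, h1, map_zero]

theorem Lag.neg {W : Submodule k V} (h : Lag Q W) : Lag (-Q) W := by
  refine ⟨fun x hx => ?_, fun x hx => h.max x fun y hy => ?_⟩
  · rw [QuadraticMap.neg_apply, h.zero x hx, neg_zero]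
  · have := hx y hy
    rw [polar_neg'] at this
    exact neg_eq_zero.1 this

theorem Lag.smul {c : k} (hc : c ≠ 0) {W : Submodule k V} (h : Lag Q W) : Lag (c • Q) W := by
  refine ⟨fun x hx => ?_, fun x hx => h.max x fun y hy => ?_⟩
  · rw [QuadraticMap.smul_apply, h.zero x hx, smul_zero]
  · have := hx y hy
    rw [polar_smul'] at this
    exact (mul_eq_zero.1 this).resolve_left hc

/-- Proof: `Lag.diag`. -/
theorem WE.refl (hN : ND Q) : WE Q Q := ⟨_, Lag.diag hN⟩

theorem WE.symm (h : WE Q Q') : WE Q' Q := by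
  obtain ⟨W, hW⟩ := h
  refine ⟨_, Lag.map (LinearEquiv.prodComm k V V') ?_ hW.neg⟩
  rintro ⟨x, y⟩
  simp only [LinearEquiv.prodComm_apply, Prod.swap_prod_mk, QuadraticMap.prod_apply,
    QuadraticMap.neg_apply]
  ring

theorem WE.of_equiv (hN : ND Q) (e : V ≃ₗ[k] V') (he : ∀ x, Q' (e x) = Q x) : WE Q Q' := by
  refine ⟨_, Lag.map (LinearEquiv.prodCongr (LinearEquiv.refl k V) e) ?_ (Lag.diag hN)⟩
  rintro ⟨x, y⟩
  simp only [LinearEquiv.prodCongr_apply, LinearEquiv.refl_apply, QuadraticMap.prod_apply,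
    QuadraticMap.neg_apply, he]

/-- Rearrangement for transitivity. -/
def eqTrans (k V V' V'' V''' : Type*) [Field k] [AddCommGroup V] [Module k V] [AddCommGroup V']
    [Module k V'] [AddCommGroup V''] [Module k V''] [AddCommGroup V'''] [Module k V'''] :
    ((V × V') × (V'' × V''')) ≃ₗ[k] ((V × V''') × (V'' × V')) where
  toFun z := ((z.1.1, z.2.2), (z.2.1, z.1.2))
  invFun z := ((z.1.1, z.2.2), (z.2.1, z.1.2))
  map_add' _ _ := rfl
  map_smul' _ _ := rfl
  left_inv _ := rfl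
  right_inv _ := rfl

/-- Rearrangement for products. -/
def eqProd (k V V' V'' V''' : Type*) [Field k] [AddCommGroup V] [Module k V] [AddCommGroup V']
    [Module k V'] [AddCommGroup V''] [Module k V''] [AddCommGroup V'''] [Module k V'''] :
    ((V × V') × (V'' × V''')) ≃ₗ[k] ((V × V'') × (V' × V''')) where
  toFun z := ((z.1.1, z.2.1), (z.1.2, z.2.2))
  invFun z := ((z.1.1, z.2.1), (z.1.2, z.2.2))
  map_add' _ _ := rfl
  map_smul' _ _ := rfl
  left_inv _ := rfl
  right_inv _ := rfl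

/-- Rearrangement for moving a summand. -/
def eqMove (k V V' V'' : Type*) [Field k] [AddCommGroup V] [Module k V] [AddCommGroup V']
    [Module k V'] [AddCommGroup V''] [Module k V''] :
    ((V × V') × V'') ≃ₗ[k] (V × (V'' × V')) where
  toFun z := (z.1.1, (z.2, z.1.2))
  invFun z := ((z.1, z.2.2), z.2.1)
  map_add' _ _ := rfl
  map_smul' _ _ := rfl
  left_inv _ := rfl
  right_inv _ := rfl

/-- Proof: `Lag.prod` for the two Lagrangians, `Lag.cancel` for the summand `-Q'`, `Q'` (`Lag.diag`). -/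
theorem WE.trans (hN : ND Q) (hN' : ND Q') (hN'' : ND Q'') (h : WE Q Q') (h' : WE Q' Q'') :
    WE Q Q'' := by
  obtain ⟨W, hW⟩ := h
  obtain ⟨W', hW'⟩ := h'
  have h1 := Lag.map (Q' := (Q.prod (-Q'')).prod (Q'.prod (-Q'))) (eqTrans k V V' V' V'') (by
    rintro ⟨⟨a, b⟩, c, d⟩
    simp only [eqTrans, LinearEquiv.coe_mk, LinearMap.coe_mk, AddHom.coe_mk,
      QuadraticMap.prod_apply, QuadraticMap.neg_apply]
    ring) (hW.prod hW')
  exact Lag.cancel (hN.prod hN''.neg) (hN'.prod hN'.neg) h1 (Lag.diag hN')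

theorem WE.prod (h : WE Q Q') (h' : WE R R') : WE (Q.prod R) (Q'.prod R') := by
  obtain ⟨W, hW⟩ := h
  obtain ⟨W', hW'⟩ := h'
  refine ⟨_, Lag.map (eqProd k V V' U U') ?_ (hW.prod hW')⟩
  rintro ⟨⟨a, b⟩, c, d⟩
  simp only [eqProd, LinearEquiv.coe_mk, LinearMap.coe_mk, AddHom.coe_mk,
    QuadraticMap.prod_apply, QuadraticMap.neg_apply]
  ring

theorem WE.smul {c : k} (hc : c ≠ 0) (h : WE Q Q') : WE (c • Q) (c • Q') := by
  obtain ⟨W, hW⟩ := h
  refine ⟨_, Lag.map (LinearEquiv.refl k (V × V')) ?_ (hW.smul hc)⟩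
  rintro ⟨a, b⟩
  simp only [LinearEquiv.refl_apply, QuadraticMap.prod_apply, QuadraticMap.neg_apply,
    QuadraticMap.smul_apply, smul_eq_mul]
  ring

/-- Rearrangement of the summands. -/
theorem WE.move (h : WE (Q.prod R) Q') : WE Q (Q'.prod (-R)) := by
  obtain ⟨W, hW⟩ := h
  refine ⟨_, Lag.map (eqMove k V U V') ?_ hW⟩
  rintro ⟨⟨a, b⟩, c⟩
  simp only [eqMove, LinearEquiv.coe_mk, LinearMap.coe_mk, AddHom.coe_mk,
    QuadraticMap.prod_apply, QuadraticMap.neg_apply]
  ring

/-- Proof: `Lag.cancel`. -/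
theorem Lag.of_WE (hN : ND Q) (hN' : ND Q') (h : WE Q Q') {W : Submodule k V'} (h' : Lag Q' W) :
    ∃ W, Lag Q W := by
  obtain ⟨W1, hW1⟩ := h
  exact Lag.cancel hN hN'.neg hW1 h'.neg

end Dr
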