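import Pool.Agent.Lib.MP_f80667_ag.Dr.VqP
import Pool.Agent.Lib.MP_f80667_ag.Dr.Dg
import Pool.Agent.Lib.MP_f80667_ag.Dr.DlB

/-! The Lagrangian for a polynomial with lines over all its roots. -/

open Polynomial

namespace Dr

open ZC Tq Dp

variable {k : Type*} [Field k]

theorem ND.we_trans5 {V₁ V₂ V₃ V₄ V₅ : Type*} [AddCommGroup V₁] [Module k V₁]
    [FiniteDimensional k V₁] [AddCommGroup V₂] [Module k V₂] [FiniteDimensional k V₂]
    [AddCommGroup V₃] [Module k V₃] [FiniteDimensional k V₃] [AddCommGroup V₄] [Module k V₄]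
    [FiniteDimensional k V₄] [AddCommGroup V₅] [Module k V₅] [FiniteDimensional k V₅]
    {Q₁ : QuadraticForm k V₁} {Q₂ : QuadraticForm k V₂} {Q₃ : QuadraticForm k V₃}
    {Q₄ : QuadraticForm k V₄} {Q₅ : QuadraticForm k V₅} (n1 : ND Q₁) (n2 : ND Q₂) (n3 : ND Q₃)
    (n4 : ND Q₄) (n5 : ND Q₅) (h1 : WE Q₁ Q₂) (h2 : WE Q₂ Q₃) (h3 : WE Q₃ Q₄)
    (h4 : WE Q₄ Q₅) : WE Q₁ Q₅ :=
  WE.trans n1 n2 n5 h1 (WE.trans n2 n3 n5 h2 (WE.trans n3 n4 n5 h3 h4))

theorem zc_unit {P x : k[X]} (h : IsCoprime x P) : IsUnit (AdjoinRoot.mk P x) := by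
  obtain ⟨a, b, hab⟩ := h
  have h1 : AdjoinRoot.mk P a * AdjoinRoot.mk P x = 1 := by
    have h2 := congrArg (AdjoinRoot.mk P) hab
    rw [map_add, map_mul, map_mul, AdjoinRoot.mk_self, mul_zero, add_zero, map_one] at h2
    exact h2
  exact IsUnit.of_mul_eq_one_right _ h1

/-- the isometry of the proof of `zc` -/
noncomputable def zcE {E : Type*} [CommRing E] [Algebra k E] {c : k} (hc : c ≠ 0) :
    ((E × E) × (E × E)) ≃ₗ[k] (Fin 4 → E) where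
  toFun x := ![x.2.1, c⁻¹ • x.1.1, x.2.2, c⁻¹ • x.1.2]
  map_add' x y := by
    funext i
    fin_cases i <;> simp
  map_smul' r x := by
    funext i
    fin_cases i
    · rfl
    · exact smul_comm c⁻¹ r x.1.1
    · rfl
    · exact smul_comm c⁻¹ r x.1.2
  invFun y := ((c • y 1, c • y 3), (y 0, y 2))
  left_inv x := by
    obtain ⟨⟨a, b⟩, ⟨a', b'⟩⟩ := x
    simp [smul_smul, hc]
  right_inv y := by
    funext i
    fin_cases i <;> simp [smul_smul, hc]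

theorem zcE_apply {E : Type*} [CommRing E] [Algebra k E] {c : k} (hc : c ≠ 0)
    (x : (E × E) × (E × E)) :
    zcE hc x = ![x.2.1, c⁻¹ • x.1.1, x.2.2, c⁻¹ • x.1.2] := rfl

/-- **The Lagrangian.** Proof: let `τ = Rs (dl / c · )` on `k[X] / D`. By `exists_phi`, `diag_we`:
`vq 2 ~ τ ⟨1, -P⟩`; by `line_prod` for `u = 2`: `vq 2 ~ Rs_P ⟨4 c D⟩ = c Rs_P ⟨D⟩` (scaling by `2`), by
`recip_we`: `~ c Rs_D ⟨1, -P⟩` (`WE.smul`). So `τ ⟨1, -P⟩ ~ c Rs_D ⟨1, -P⟩`, and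
`τ (x₀² - P x₁²) - c Rs (x₂² - P x₃²) = -c Rs (qn dl P (x₂, x₀ / c, x₃, x₁ / c))`; `Lag.map`. -/
theorem zc (h2 : (2 : k) ≠ 0) {A B : Matrix (Fin 5) (Fin 5) k} (w : Fin 5 → k) {D : k[X]}
    (hD : D.Monic) (hn : D.natDegree = 5) {c : k} (hc : c ≠ 0) (hf : Dq.chp A B = C c * D)
    (hδ : IsUnit (AdjoinRoot.mk D (dl A B w))) {m : ℕ} (P : Fin m → k[X])
    (hP : ∀ j, (P j).Monic) (hi : ∀ j, Irreducible (P j)) (hd : ∀ i j, P i = P j → i = j)
    (hcop : ∀ j, IsCoprime D (P j)) (hl : ∀ j, Ln A B (AdjoinRoot.root (P j))) {Q : k[X]}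
    (hQ : Q = ∏ j, P j) (hN : Even Q.natDegree) :
    ∃ W, Lag (tr ((-c) • Rk LinearMap.id hD)
      (qnF (AdjoinRoot.mk D (dl A B w)) (AdjoinRoot.mk D Q))) W := by
  have hQm : Q.Monic := by
    rw [hQ]
    exact monic_prod_of_monic _ _ fun j _ => hP j
  have hDQ : IsCoprime D Q := by
    rw [hQ]
    exact IsCoprime.prod_right fun j _ => hcop j
  have hfin : Module.Finite k (AdjoinRoot D) := finite_adjoin (k := k) hD
  have hfinQ : Module.Finite k (AdjoinRoot Q) := finite_adjoin (k := k) hQm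
  have hNF : NF (LinearMap.id : k →ₗ[k] k) := fun x hx => by simpa using hx 1
  have hRD : NF (Rk LinearMap.id hD) := Rk_NF hNF hD
  have hRQ : NF (Rk LinearMap.id hQm) := Rk_NF hNF hQm
  have hCc : IsUnit (C c : k[X]) := isUnit_C.2 (isUnit_iff_ne_zero.2 hc)
  have hCc' : IsUnit (C c⁻¹ : k[X]) := isUnit_C.2 (isUnit_iff_ne_zero.2 (inv_ne_zero hc))
  have hC2 : IsUnit (2 : k[X]) := by
    have h3 : (2 : k[X]) = C 2 := (map_ofNat C 2).symm
    rw [h3]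
    exact isUnit_C.2 (isUnit_iff_ne_zero.2 h2)
  -- units
  have hcu : IsUnit (AdjoinRoot.mk D (C c⁻¹ * dl A B w)) := by
    rw [map_mul]
    exact (hCc'.map _).mul hδ
  have hq : IsUnit (AdjoinRoot.mk D Q) := zc_unit hDQ.symm
  have hchp : ∀ x : k[X], IsCoprime D x → IsCoprime (Dq.chp A B) x := by
    intro x hx
    rw [hf]
    exact (isCoprime_mul_unit_left_left hCc D x).2 hx
  have hDu : IsUnit (AdjoinRoot.mk Q D) := zc_unit hDQ
  have hcQ : IsUnit (AdjoinRoot.mk Q (Dq.chp A B)) := zc_unit (hchp Q hDQ)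
  -- the functional `τ`
  let τ : AdjoinRoot D →ₗ[k] k :=
    Rk LinearMap.id hD ∘ₗ LinearMap.mulLeft k (AdjoinRoot.mk D (C c⁻¹ * dl A B w))
  have hτ : NF τ := by
    intro x hx
    have h3 : AdjoinRoot.mk D (C c⁻¹ * dl A B w) * x = 0 := by
      refine hRD _ fun y => ?_
      rw [mul_assoc]
      exact hx y
    exact (hcu.mul_right_eq_zero).1 h3
  obtain ⟨φ, hφA, hφB⟩ := exists_phi w hD hn hc hf hδ
  have hae : aeval (AdjoinRoot.root D) Q = AdjoinRoot.mk D Q := AdjoinRoot.aeval_eq Q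
  have hqu : IsUnit (aeval (AdjoinRoot.root D) Q) := by
    rw [hae]
    exact hq
  have hd1 := diag_we h2 hτ (AdjoinRoot.root D) φ (fun x y => hφA x y) (fun x y => hφB x y) hQm
    hN hqu
  have h2Q : IsCoprime (2 : k[X]) Q := by
    obtain ⟨u, hu⟩ := hC2
    refine ⟨((u⁻¹ : k[X]ˣ) : k[X]), 0, ?_⟩
    rw [← hu, zero_mul, add_zero, Units.inv_mul]
  have hl1 := line_prod h2 P hP hi hd (fun j => hchp _ (hcop j)) hl hQ hQm (u := 2) h2Q
  have hr1 := (recip_we h2 hD hQm (by rw [hn]; decide) hN hDQ.symm).smul hc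
  have h22 : AdjoinRoot.mk Q (2 : k[X]) = 2 := map_ofNat _ 2
  rw [h22] at hl1
  rw [hae] at hd1
  -- nondegeneracy
  have n1 : ND ((sq τ 1).prod (sq τ (-(AdjoinRoot.mk D Q)))) :=
    (sq_ND h2 hτ isUnit_one).prod (sq_ND h2 hτ hq.neg)
  have hu2 : IsUnit (2 : AdjoinRoot Q) := by
    rw [← h22]
    exact hC2.map _
  have n2 : ND (vq (Rk LinearMap.id hQm) A B 2 (AdjoinRoot.root Q)) :=
    vq_ND hRQ hu2 (by rw [AdjoinRoot.aeval_eq]; exact hcQ)
  have n3 : ND (sq (Rk LinearMap.id hQm) (AdjoinRoot.mk Q (2 * (2 * Dq.chp A B)))) := by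
    refine sq_ND h2 hRQ ?_
    rw [map_mul, map_mul]
    exact (hC2.map _).mul ((hC2.map _).mul hcQ)
  have n4 : ND (c • sq (Rk LinearMap.id hQm) (AdjoinRoot.mk Q D)) :=
    (sq_ND h2 hRQ hDu).smul hc
  have n5 : ND (c • (sq (Rk LinearMap.id hD) 1).prod
      (sq (Rk LinearMap.id hD) (-(AdjoinRoot.mk D Q)))) :=
    ((sq_ND h2 hRD isUnit_one).prod (sq_ND h2 hRD hq.neg)).smul hc
  -- scaling by `2`
  have hs1 : WE (sq (Rk LinearMap.id hQm) (AdjoinRoot.mk Q (2 * (2 * Dq.chp A B))))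
      (c • sq (Rk LinearMap.id hQm) (AdjoinRoot.mk Q D)) := by
    refine WE.of_equiv n3 (LinearEquiv.smulOfNeZero k (AdjoinRoot Q) (2 : k) h2) fun x => ?_
    have h3 : (LinearEquiv.smulOfNeZero k (AdjoinRoot Q) (2 : k) h2) x = (2 : AdjoinRoot Q) * x := by
      change (2 : k) • x = _
      rw [Algebra.smul_def, map_ofNat]
    have h4 : AdjoinRoot.mk Q (2 * (2 * Dq.chp A B)) * (x * x) =
        c • (AdjoinRoot.mk Q D * ((2 : AdjoinRoot Q) * x * (2 * x))) := by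
      rw [hf, Algebra.smul_def, AdjoinRoot.algebraMap_eq, ← AdjoinRoot.mk_C, map_mul, map_mul,
        map_mul, h22]
      ring
    rw [h3, sq_apply, h4, map_smul]
    rfl
  obtain ⟨W, hW⟩ := n1.we_trans5 n2 n3 n4 n5 hd1.symm hl1 hs1 hr1
  refine ⟨_, Lag.map (zcE hc) (fun x => ?_) hW⟩
  obtain ⟨⟨a, b⟩, ⟨a', b'⟩⟩ := x
  rw [zcE_apply, tr_apply, qnF_apply]
  have e1 : ∀ r s : AdjoinRoot D, sq τ r s = Rk LinearMap.id hD
      (AdjoinRoot.mk D (C c⁻¹ * dl A B w) * (r * (s * s))) := fun r s => rfl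
  have e2 : ((sq τ 1).prod (sq τ (-(AdjoinRoot.mk D Q)))).prod
      (-(c • (sq (Rk LinearMap.id hD) 1).prod (sq (Rk LinearMap.id hD) (-(AdjoinRoot.mk D Q)))))
      ((a, b), (a', b')) = (sq τ 1 a + sq τ (-(AdjoinRoot.mk D Q)) b) +
        -(c • (sq (Rk LinearMap.id hD) 1 a' +
          sq (Rk LinearMap.id hD) (-(AdjoinRoot.mk D Q)) b')) := rfl
  rw [e2, e1, e1, sq_apply, sq_apply, ← map_add, ← map_add, ← map_smul,
    ← map_neg (Rk LinearMap.id hD), ← map_add]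
  rw [LinearMap.smul_apply, ← map_smul]
  have hcc : algebraMap k (AdjoinRoot D) c * algebraMap k (AdjoinRoot D) c⁻¹ = 1 := by
    rw [← map_mul, mul_inv_cancel₀ hc, map_one]
  have e3 : AdjoinRoot.mk D (C c⁻¹ * dl A B w) =
      algebraMap k (AdjoinRoot D) c⁻¹ * AdjoinRoot.mk D (dl A B w) := by
    rw [map_mul, AdjoinRoot.mk_C, AdjoinRoot.algebraMap_eq]
  refine congrArg _ ?_
  rw [e3]
  simp only [qn, Algebra.smul_def, map_neg, Matrix.cons_val_zero, Matrix.cons_val_one,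
    Matrix.cons_val]
  linear_combination (algebraMap k (AdjoinRoot D) c⁻¹ * AdjoinRoot.mk D (dl A B w) *
    (a ^ 2 - AdjoinRoot.mk D Q * b ^ 2)) * hcc

end Dr
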